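import Pool.Agent.LCSV.Core

/-!
# Basic interface of lcs

Everything is a direct consequence of the definition: the set of lengths of common sublists contains 0
and is bounded by x.length, so the supremum is attained (Nat.sSup_mem) and is an upper bound (le_csSup).
-/

namespace LCSV

open Finset

variable {α : Type*}

theorem Lcs_bdd (x y : List α) :
    BddAbove {m : ℕ | ∃ s : List α, s.Sublist x ∧ s.Sublist y ∧ s.length = m} := by
  refine ⟨x.length, ?_⟩
  rintro m ⟨s, h1, _, rfl⟩
  exact h1.length_le

theorem Lcs_ne (x y : List α) :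
    {m : ℕ | ∃ s : List α, s.Sublist x ∧ s.Sublist y ∧ s.length = m}.Nonempty :=
  ⟨0, [], List.nil_sublist x, List.nil_sublist y, rfl⟩

theorem le_lcs {x y s : List α} (h1 : s.Sublist x) (h2 : s.Sublist y) : s.length ≤ lcs x y := by
  unfold lcs
  exact le_csSup (Lcs_bdd x y) ⟨s, h1, h2, rfl⟩

theorem exists_lcs (x y : List α) : ∃ s : List α, s.Sublist x ∧ s.Sublist y ∧ s.length = lcs x y := by
  have h := Nat.sSup_mem (Lcs_ne x y) (Lcs_bdd x y)
  exact h

theorem lcs_le {x y : List α} {m : ℕ}
    (h : ∀ s : List α, s.Sublist x → s.Sublist y → s.length ≤ m) : lcs x y ≤ m := by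
  obtain ⟨s, h1, h2, h3⟩ := exists_lcs x y
  rw [← h3]
  exact h s h1 h2

theorem lcs_comm (x y : List α) : lcs x y = lcs y x := by
  apply le_antisymm
  · exact lcs_le fun s h1 h2 => le_lcs h2 h1
  · exact lcs_le fun s h1 h2 => le_lcs h2 h1

theorem lcs_le_left (x y : List α) : lcs x y ≤ x.length :=
  lcs_le fun _ h1 _ => h1.length_le

theorem lcs_le_right (x y : List α) : lcs x y ≤ y.length :=
  lcs_le fun _ _ h2 => h2.length_le

theorem lcs_mono {x x' y y' : List α} (hx : x.Sublist x') (hy : y.Sublist y') :
    lcs x y ≤ lcs x' y' :=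
  lcs_le fun _ h1 h2 => le_lcs (h1.trans hx) (h2.trans hy)

theorem lcs_nil_left (y : List α) : lcs [] y = 0 := by
  have h := lcs_le_left [] y
  simpa using h

theorem lcs_nil_right (x : List α) : lcs x [] = 0 := by
  have h := lcs_le_right x []
  simpa using h

theorem lcs_self (x : List α) : lcs x x = x.length :=
  le_antisymm (lcs_le_left x x) (le_lcs (List.Sublist.refl x) (List.Sublist.refl x))

end LCSV
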