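import Pool.Agent.LCSV.ELa
import Pool.Agent.LCSV.Lcs

/-!
# Lists versus functions on Fin n

EL_un: induction on n; Fin.consEquiv / Fin.insertNthEquiv (or Fin.consPiProd) and Fintype.sum_equiv, List.ofFn_cons
(List.ofFn (Fin.cons x v) = x :: List.ofFn v), so that EL (un k) n F = (1/k)^n * sum over v : Fin n -> Fin k.
lcs_ofFn: a common sublist of List.ofFn X and List.ofFn Y of length m corresponds to strictly increasing
i, j : Fin m -> Fin n with X (i r) = Y (j r): List.sublist_ofFn_iff / List.sublist_iff_exists_orderEmbedding_getElem?_eq or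
List.sublist_iff_exists_fin_orderEmbedding_get_eq.
-/

namespace LCSV

open Finset

theorem EL_un (k n : ℕ) (F : List (Fin k) → ℝ) :
    EL (un k) n F = (1 / (k : ℝ)) ^ n * ∑ v : Fin n → Fin k, F (List.ofFn v) := by
  induction n generalizing F with
  | zero =>
    show F [] = _
    simp
  | succ n ih =>
    show ∑ x, un k x * EL (un k) n (fun l => F (x :: l)) = _
    rw [← (Fin.consEquiv (fun _ : Fin (n + 1) => Fin k)).sum_comp, Fintype.sum_prod_type,
      Finset.mul_sum]
    refine Finset.sum_congr rfl fun x _ => ?_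
    rw [ih]
    unfold un
    rw [pow_succ' _ n, mul_assoc]
    congr 2
    refine Finset.sum_congr rfl fun v _ => ?_
    have e : List.ofFn ((Fin.consEquiv (fun _ : Fin (n + 1) => Fin k)) (x, v)) =
        x :: List.ofFn v := List.ofFn_cons x v
    rw [e]

theorem ELrep_sub {k n m : ℕ} (X : Fin n → Fin k) (i : Fin m → Fin n) (hi : StrictMono i) :
    (List.ofFn (fun r => X (i r))).Sublist (List.ofFn X) := by
  rw [List.sublist_iff_exists_fin_orderEmbedding_get_eq]
  refine ⟨OrderEmbedding.ofStrictMono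
    (fun r => Fin.cast (by simp) (i (Fin.cast (by simp) r))) ?_, ?_⟩
  · intro a b hab
    have h1 : (Fin.cast (by simp) a : Fin m) < Fin.cast (by simp) b := hab
    have h2 := hi h1
    exact h2
  · intro r
    simp
    rfl

theorem ELrep_emb {k n : ℕ} (X : Fin n → Fin k) (s : List (Fin k))
    (h : s.Sublist (List.ofFn X)) :
    ∃ i : Fin s.length → Fin n, StrictMono i ∧ ∀ r, X (i r) = s.get r := by
  rw [List.sublist_iff_exists_fin_orderEmbedding_get_eq] at h
  obtain ⟨f, hf⟩ := h
  refine ⟨fun r => Fin.cast (by simp) (f r), ?_, ?_⟩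
  · intro a b hab
    have h2 := f.strictMono hab
    exact h2
  · intro r
    rw [hf r]
    simp
    rfl

theorem lcs_ofFn {k n m' : ℕ} (X : Fin n → Fin k) (Y : Fin m' → Fin k) :
    lcs (List.ofFn X) (List.ofFn Y) =
      sSup {m : ℕ | ∃ (i : Fin m → Fin n) (j : Fin m → Fin m'), StrictMono i ∧ StrictMono j ∧
        ∀ r, X (i r) = Y (j r)} := by
  unfold lcs
  congr 1
  ext m
  rw [Set.mem_setOf_eq, Set.mem_setOf_eq]
  constructor
  · rintro ⟨s, h1, h2, rfl⟩
    obtain ⟨i, hi, hi'⟩ := ELrep_emb X s h1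
    obtain ⟨j, hj, hj'⟩ := ELrep_emb Y s h2
    exact ⟨i, j, hi, hj, fun r => by rw [hi' r, hj' r]⟩
  · rintro ⟨i, j, hi, hj, h⟩
    refine ⟨List.ofFn (fun r => X (i r)), ELrep_sub X i hi, ?_, by simp⟩
    have e : (fun r => X (i r)) = fun r => Y (j r) := funext h
    rw [e]
    exact ELrep_sub Y j hj

end LCSV
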