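import Pool.Agent.LCSV.LcsA

/-!
# lcs changes by at most one when one letter is inserted or changed

lcs_insert_le: a common sublist s of x1 ++ a :: x2 and y is s1 ++ s2 with s1 <+ x1 and s2 <+ a :: x2
(List.sublist_append_iff); either s2 <+ x2, or s2 = a :: s3 with s3 <+ x2 (List.sublist_cons_iff), and then
s1 ++ s3 is a common sublist of x1 ++ x2 and y of length s.length - 1.
The other statements follow with lcs_mono and lcs_comm.
-/

namespace LCSV

open Finset

variable {α : Type*}

theorem lcs_insert_le (x1 x2 y : List α) (a : α) : lcs (x1 ++ a :: x2) y ≤ lcs (x1 ++ x2) y + 1 := by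
  refine lcs_le ?_
  intro s hs hy
  obtain ⟨s1, s2, rfl, h1, h2⟩ := List.sublist_append_iff.1 hs
  rcases List.sublist_cons_iff.1 h2 with h3 | ⟨s3, rfl, h3⟩
  · have := le_lcs (h1.append h3) hy
    omega
  · have h4 : (s1 ++ s3).Sublist y := by
      refine List.Sublist.trans ?_ hy
      exact List.Sublist.append (List.Sublist.refl s1) (List.sublist_cons_self a s3)
    have := le_lcs (h1.append h3) h4
    simp only [List.length_append, List.length_cons] at this ⊢
    omega

theorem lcs_le_insert (x1 x2 y : List α) (a : α) : lcs (x1 ++ x2) y ≤ lcs (x1 ++ a :: x2) y := by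
  refine lcs_mono ?_ (List.Sublist.refl y)
  exact List.Sublist.append (List.Sublist.refl x1) (List.sublist_cons_self a x2)

theorem lcs_change (x1 x2 y : List α) (a b : α) :
    |(lcs (x1 ++ a :: x2) y : ℝ) - (lcs (x1 ++ b :: x2) y : ℝ)| ≤ 1 := by
  have h1 := lcs_insert_le x1 x2 y a
  have h2 := lcs_insert_le x1 x2 y b
  have h3 := lcs_le_insert x1 x2 y a
  have h4 := lcs_le_insert x1 x2 y b
  rw [abs_le]
  have h5 : (lcs (x1 ++ a :: x2) y : ℝ) ≤ (lcs (x1 ++ b :: x2) y : ℝ) + 1 := by
    exact_mod_cast (by omega : lcs (x1 ++ a :: x2) y ≤ lcs (x1 ++ b :: x2) y + 1)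
  have h6 : (lcs (x1 ++ b :: x2) y : ℝ) ≤ (lcs (x1 ++ a :: x2) y : ℝ) + 1 := by
    exact_mod_cast (by omega : lcs (x1 ++ b :: x2) y ≤ lcs (x1 ++ a :: x2) y + 1)
  constructor <;> linarith

theorem lcs_change_right (x y1 y2 : List α) (a b : α) :
    |(lcs x (y1 ++ a :: y2) : ℝ) - (lcs x (y1 ++ b :: y2) : ℝ)| ≤ 1 := by
  rw [lcs_comm x, lcs_comm x]
  exact lcs_change y1 y2 x a b

end LCSV
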