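import Pool.Agent.LCSV.ELb
import Pool.Agent.LCSV.Lcs
import Pool.Agent.LCSV.ELrep

/-!
# The variance is positive for every n >= 1 when k >= 2

V = E (L - m)^2. If V = 0 then every pair (X, Y) (all have positive weight) has L = m. But X = Y = constant word gives L = n (lcs_self), and two constant
words with different letters give L = 0 (no common letter).
(Use: a nonnegative function with expectation 0 vanishes on all lists of length n; by EL_un or by induction.)
-/

set_option linter.all false

namespace LCSV

open Finset

/-- a nonnegative function which is positive somewhere has positive expectation -/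
theorem varpos_EL_pos {β : Type*} [Fintype β] {mu : β → ℝ} (hp : ∀ x, 0 < mu x) (n : ℕ)
    (F : List β → ℝ) (hF : ∀ l : List β, l.length = n → 0 ≤ F l) (l0 : List β)
    (hl0 : l0.length = n) (hl : 0 < F l0) : 0 < EL mu n F := by
  induction n generalizing F l0 with
  | zero =>
    have : l0 = [] := List.length_eq_zero_iff.1 hl0
    subst this
    exact hl
  | succ n ih =>
    have hnn : ∀ (m : ℕ) (G : List β → ℝ), (∀ l : List β, l.length = m → 0 ≤ G l) →
        0 ≤ EL mu m G := by
      intro m
      induction m with
      | zero => intro G hG; exact hG [] rfl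
      | succ m ihm =>
        intro G hG
        show 0 ≤ ∑ x, mu x * EL mu m (fun l => G (x :: l))
        refine Finset.sum_nonneg fun x _ => mul_nonneg (hp x).le ?_
        exact ihm _ fun l hl => hG (x :: l) (by simp [hl])
    cases l0 with
    | nil => simp at hl0
    | cons a l1 =>
      show 0 < ∑ x, mu x * EL mu n (fun l => F (x :: l))
      refine Finset.sum_pos' (fun x _ => mul_nonneg (hp x).le ?_) ⟨a, Finset.mem_univ _, ?_⟩
      · exact hnn n _ fun l hl => hF (x :: l) (by simp [hl])
      · refine mul_pos (hp a) ?_
        exact ih (fun l => F (a :: l)) (fun l hl => hF (a :: l) (by simp [hl])) l1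
          (by simpa using hl0) hl

theorem varpos_lcs_zero {α : Type*} {a b : α} (hab : a ≠ b) (n : ℕ) :
    lcs (List.replicate n a) (List.replicate n b) = 0 := by
  refine Nat.le_zero.1 (lcs_le fun s h1 h2 => ?_)
  cases s with
  | nil => exact le_refl _
  | cons c s' =>
    exfalso
    have h3 := List.eq_of_mem_replicate (h1.subset (List.mem_cons_self))
    have h4 := List.eq_of_mem_replicate (h2.subset (List.mem_cons_self))
    exact hab (h3.symm.trans h4)

theorem var_pos (k n : ℕ) (hk : 2 ≤ k) (hn : 1 ≤ n) :
    0 < EL (un k) n (fun X => EL (un k) n (fun Y =>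
        ((lcs X Y : ℝ) - EL (un k) n (fun X' => EL (un k) n (fun Y' => (lcs X' Y' : ℝ)))) ^ 2)) := by
  generalize EL (un k) n (fun X' => EL (un k) n (fun Y' => (lcs X' Y' : ℝ))) = m
  have hk0 : (0 : ℝ) < k := by
    have : 0 < k := by omega
    exact_mod_cast this
  have hp : ∀ x, 0 < un k x := fun x => by unfold un; positivity
  have hkey : ∃ X Y : List (Fin k), X.length = n ∧ Y.length = n ∧
      0 < ((lcs X Y : ℝ) - m) ^ 2 := by
    have hab : (⟨0, by omega⟩ : Fin k) ≠ ⟨1, by omega⟩ := fun h => by
      have := congrArg Fin.val h
      simp at this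
    by_cases hm : m = 0
    · refine ⟨List.replicate n ⟨0, by omega⟩, List.replicate n ⟨0, by omega⟩, by simp, by simp, ?_⟩
      rw [lcs_self, List.length_replicate, hm, sub_zero]
      have : (0 : ℝ) < n := by exact_mod_cast hn
      positivity
    · refine ⟨List.replicate n ⟨0, by omega⟩, List.replicate n ⟨1, by omega⟩, by simp, by simp, ?_⟩
      rw [varpos_lcs_zero hab, Nat.cast_zero, zero_sub, neg_sq]
      positivity
  obtain ⟨X, Y, hX, hY, hXY⟩ := hkey
  have hIs : IsP (un k) := un_isP (by omega)
  refine varpos_EL_pos hp n _ (fun l _ => EL_nonneg hIs fun l' _ => sq_nonneg _) X hX ?_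
  exact varpos_EL_pos hp n _ (fun l _ => sq_nonneg _) Y hY hXY

end LCSV
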