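import Pool.Agent.LCSV.TailB
import Pool.Agent.LCSV.VarPos

/-!
# Lower bounds of Gaussian order for both tails
-/

namespace LCSV

open Finset

/-- one value of n -/
theorem tailC_one (k n : ℕ) (hk : 2 ≤ k) (hn : 1 ≤ n) : ∃ c : ℝ, 0 < c ∧ ∀ t : ℝ, 0 ≤ t →
    t ≤ c * √(n : ℝ) →
      c ≤ EL (un k) n (fun X => EL (un k) n (fun Y =>
        ind (t * √(n : ℝ) ≤ (lcs X Y : ℝ) -
          EL (un k) n (fun X' => EL (un k) n (fun Y' => (lcs X' Y' : ℝ)))))) ∧
      c ≤ EL (un k) n (fun X => EL (un k) n (fun Y =>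
        ind (t * √(n : ℝ) ≤ EL (un k) n (fun X' => EL (un k) n (fun Y' => (lcs X' Y' : ℝ))) -
          (lcs X Y : ℝ)))) := by
  have hk0 : (0 : ℝ) < k := by
    have : 0 < k := by omega
    exact_mod_cast this
  have hp : ∀ x, 0 < un k x := fun x => by unfold un; positivity
  have hIs : IsP (un k) := un_isP (by omega)
  have hab : (⟨0, by omega⟩ : Fin k) ≠ ⟨1, by omega⟩ := fun h => by
    have := congrArg Fin.val h
    simp at this
  have hn0 : (0 : ℝ) < n := by exact_mod_cast hn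
  set m : ℝ := EL (un k) n (fun X' => EL (un k) n (fun Y' => (lcs X' Y' : ℝ))) with hm
  have hpos : ∀ F : List (Fin k) → List (Fin k) → ℝ,
      (∀ X Y : List (Fin k), X.length = n → Y.length = n → 0 ≤ F X Y) →
      (∃ X Y : List (Fin k), X.length = n ∧ Y.length = n ∧ 0 < F X Y) →
      0 < EL (un k) n (fun X => EL (un k) n (fun Y => F X Y)) := by
    rintro F hF ⟨X, Y, hX, hY, hXY⟩
    refine varpos_EL_pos hp n _ (fun l hl => EL_nonneg hIs fun l' hl' => hF l l' hl hl') X hX ?_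
    exact varpos_EL_pos hp n _ (fun l hl => hF X l hX hl) Y hY hXY
  have hr : (List.replicate n (⟨0, by omega⟩ : Fin k)).length = n := by simp
  have hr' : (List.replicate n (⟨1, by omega⟩ : Fin k)).length = n := by simp
  have hl1 : lcs (List.replicate n (⟨0, by omega⟩ : Fin k)) (List.replicate n ⟨0, by omega⟩) = n := by
    rw [lcs_self, List.length_replicate]
  have hl0 := varpos_lcs_zero hab n
  have hm0 : 0 < m := by
    refine hpos (fun X Y => (lcs X Y : ℝ)) (fun X Y _ _ => Nat.cast_nonneg _) ⟨_, _, hr, hr, ?_⟩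
    show (0 : ℝ) < (lcs _ _ : ℝ)
    rw [hl1]
    exact hn0
  have hmn : m < n := by
    have h1 : 0 < EL (un k) n (fun X => EL (un k) n (fun Y => (n : ℝ) - (lcs X Y : ℝ))) := by
      refine hpos (fun X Y => (n : ℝ) - (lcs X Y : ℝ)) (fun X Y hX _ => ?_) ⟨_, _, hr, hr', ?_⟩
      · have h2 : (lcs X Y : ℝ) ≤ n := by
          have := lcs_le_left X Y
          rw [hX] at this
          exact_mod_cast this
        show (0 : ℝ) ≤ n - (lcs X Y : ℝ)
        linarith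
      · show (0 : ℝ) < n - (lcs _ _ : ℝ)
        rw [hl0, Nat.cast_zero, sub_zero]
        exact hn0
    have h2 : EL (un k) n (fun X => EL (un k) n (fun Y => (n : ℝ) - (lcs X Y : ℝ))) = n - m := by
      rw [hm, ← EL_const hIs n (n : ℝ), ← EL_sub]
      refine EL_congr fun X _ => ?_
      rw [EL_sub, EL_const hIs, EL_const hIs]
    rw [h2] at h1
    linarith
  have hA : 0 < EL (un k) n (fun X => EL (un k) n (fun Y => ind ((n : ℝ) ≤ (lcs X Y : ℝ)))) := by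
    refine hpos (fun X Y => ind ((n : ℝ) ≤ (lcs X Y : ℝ))) (fun X Y _ _ => ind_nonneg _)
      ⟨_, _, hr, hr, ?_⟩
    show 0 < ind _
    rw [ind_true]
    · exact one_pos
    · rw [hl1]
  have hB : 0 < EL (un k) n (fun X => EL (un k) n (fun Y => ind ((lcs X Y : ℝ) ≤ 0))) := by
    refine hpos (fun X Y => ind ((lcs X Y : ℝ) ≤ 0)) (fun X Y _ _ => ind_nonneg _)
      ⟨_, _, hr, hr', ?_⟩
    show 0 < ind _
    rw [ind_true]
    · exact one_pos
    · rw [hl0, Nat.cast_zero]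
  set A : ℝ := EL (un k) n (fun X => EL (un k) n (fun Y => ind ((n : ℝ) ≤ (lcs X Y : ℝ)))) with hAd
  set B : ℝ := EL (un k) n (fun X => EL (un k) n (fun Y => ind ((lcs X Y : ℝ) ≤ 0))) with hBd
  have hc1 : 0 < m / n := div_pos hm0 hn0
  have hc2 : 0 < (n - m) / n := div_pos (by linarith) hn0
  refine ⟨min (min A B) (min (m / n) ((n - m) / n)), lt_min (lt_min hA hB) (lt_min hc1 hc2),
    fun t ht0 ht => ?_⟩
  set c : ℝ := min (min A B) (min (m / n) ((n - m) / n)) with hcd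
  have hsq : √(n : ℝ) * √(n : ℝ) = n := Real.mul_self_sqrt hn0.le
  have htn : t * √(n : ℝ) ≤ c * n := by
    have h1 := mul_le_mul_of_nonneg_right ht (Real.sqrt_nonneg (n : ℝ))
    rw [mul_assoc, hsq] at h1
    exact h1
  have hcm : c * n ≤ m := by
    have h1 : c ≤ m / n := le_trans (min_le_right _ _) (min_le_left _ _)
    rwa [le_div_iff₀ hn0] at h1
  have hcm' : c * n ≤ n - m := by
    have h1 : c ≤ (n - m) / n := le_trans (min_le_right _ _) (min_le_right _ _)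
    rwa [le_div_iff₀ hn0] at h1
  constructor
  · refine le_trans (le_trans (min_le_left _ _) (min_le_left _ _)) ?_
    refine EL_mono hIs fun X _ => EL_mono hIs fun Y _ => ind_mono fun h => ?_
    linarith
  · refine le_trans (le_trans (min_le_left _ _) (min_le_right _ _)) ?_
    refine EL_mono hIs fun X _ => EL_mono hIs fun Y _ => ind_mono fun h => ?_
    linarith

/-- finitely many values of n -/
theorem tailC_small (U L : ℕ → ℝ → ℝ) (h : ∀ n : ℕ, 1 ≤ n → ∃ c : ℝ, 0 < c ∧ ∀ t : ℝ, 0 ≤ t →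
    t ≤ c * √(n : ℝ) → c ≤ U n t ∧ c ≤ L n t) (N : ℕ) :
    ∃ c : ℝ, 0 < c ∧ ∀ n : ℕ, 1 ≤ n → n < N → ∀ t : ℝ, 0 ≤ t →
      t ≤ c * √(n : ℝ) → c ≤ U n t ∧ c ≤ L n t := by
  induction N with
  | zero => exact ⟨1, one_pos, fun n _ h => absurd h (by omega)⟩
  | succ N ih =>
    obtain ⟨c, hc, h1⟩ := ih
    rcases Nat.eq_zero_or_pos N with h0 | h0
    · subst h0
      exact ⟨c, hc, fun n h1 h2 => by omega⟩
    · obtain ⟨c', hc', h2⟩ := h N h0
      refine ⟨min c c', lt_min hc hc', fun n hn1 hn2 t ht0 ht => ?_⟩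
      have hs : (0 : ℝ) ≤ √(n : ℝ) := Real.sqrt_nonneg _
      rcases Nat.lt_succ_iff_lt_or_eq.1 hn2 with h3 | h3
      · obtain ⟨a, b⟩ := h1 n hn1 h3 t ht0
          (le_trans ht (mul_le_mul_of_nonneg_right (min_le_left _ _) hs))
        exact ⟨le_trans (min_le_left _ _) a, le_trans (min_le_left _ _) b⟩
      · subst h3
        obtain ⟨a, b⟩ := h2 t ht0 (le_trans ht (mul_le_mul_of_nonneg_right (min_le_right _ _) hs))
        exact ⟨le_trans (min_le_right _ _) a, le_trans (min_le_right _ _) b⟩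

/-- a deviation of order sqrt n has probability at most 1/2 -/
theorem tailC_markov {K k : ℕ} (hk : 2 ≤ k) (hK : 1 ≤ K) (w : Fin K → Fin k) (n : ℕ) (hn : 1 ≤ n)
    (θ : ℝ) (h0 : 0 ≤ θ) (h1 : θ ≤ 1) (σ : ℝ) (hσ : σ ^ 2 = 1) :
    Et w (n / K) (n % K) n θ (fun X Y => ind ((((K : ℝ) + 2) / 2 + 1) * √(n : ℝ) ≤
      σ * ((lcs X Y : ℝ) - Et w (n / K) (n % K) n θ (fun X' Y' => (lcs X' Y' : ℝ))))) ≤ 1 / 2 := by
  set M : ℝ := Et w (n / K) (n % K) n θ (fun X' Y' => (lcs X' Y' : ℝ)) with hM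
  set C1 : ℝ := ((K : ℝ) + 2) / 2 + 1 with hC1
  have hn0 : (0 : ℝ) < n := by exact_mod_cast hn
  have hs : 0 < √(n : ℝ) := Real.sqrt_pos.2 hn0
  have hsq : √(n : ℝ) ^ 2 = n := Real.sq_sqrt hn0.le
  have h2 : Et w (n / K) (n % K) n θ (fun X Y => ind (C1 * √(n : ℝ) ≤ σ * ((lcs X Y : ℝ) - M))) ≤
      Et w (n / K) (n % K) n θ (fun X Y => Real.exp (-C1) *
        Real.exp (σ / √(n : ℝ) * ((lcs X Y : ℝ) - M))) := by
    refine Et_mono hk hK w _ _ n θ h0 h1 fun X Y _ _ => ?_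
    by_cases h : C1 * √(n : ℝ) ≤ σ * ((lcs X Y : ℝ) - M)
    · rw [ind_true h, ← Real.exp_add]
      apply Real.one_le_exp
      have h3 : C1 ≤ σ / √(n : ℝ) * ((lcs X Y : ℝ) - M) := by
        rw [div_mul_eq_mul_div, le_div_iff₀ hs]
        exact h
      linarith
    · rw [ind_false h]
      positivity
  have h3 := Et_mgf hk hK w (n / K) (n % K) n θ h0 h1 (σ / √(n : ℝ))
  rw [← hM] at h3
  rw [Et_mul] at h2
  have h4 : (σ / √(n : ℝ)) ^ 2 = 1 / n := by
    rw [div_pow, hσ, hsq]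
  rw [h4] at h3
  have h5 : ((n / K : ℕ) : ℝ) * K + ((n % K : ℕ) : ℝ) = n := by
    exact_mod_cast Nat.div_add_mod' n K
  have hK1 : (1 : ℝ) ≤ K := by exact_mod_cast hK
  have h6 : (0 : ℝ) ≤ ((n / K : ℕ) : ℝ) := Nat.cast_nonneg _
  have h7 : (0 : ℝ) ≤ ((n % K : ℕ) : ℝ) := Nat.cast_nonneg _
  have h8 : (K : ℝ) ^ 2 * ((n / K : ℕ) : ℝ) + ((n % K : ℕ) : ℝ) + n ≤ (K + 2) * n := by
    have h9 : (K : ℝ) ^ 2 * ((n / K : ℕ) : ℝ) + ((n % K : ℕ) : ℝ) ≤ K * n := by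
      rw [← h5]
      have h10 := le_mul_of_one_le_left h7 hK1
      have h11 : (K : ℝ) * (((n / K : ℕ) : ℝ) * K + ((n % K : ℕ) : ℝ)) =
          (K : ℝ) ^ 2 * ((n / K : ℕ) : ℝ) + K * ((n % K : ℕ) : ℝ) := by ring
      rw [h11]
      linarith
    have h12 : ((K : ℝ) + 2) * n = K * n + n + n := by ring
    rw [h12]
    linarith
  have h9 : 1 / (n : ℝ) * ((K : ℝ) ^ 2 * ((n / K : ℕ) : ℝ) + ((n % K : ℕ) : ℝ) + n) / 2 ≤
      ((K : ℝ) + 2) / 2 := by
    have h10 : 1 / (n : ℝ) * ((K : ℝ) ^ 2 * ((n / K : ℕ) : ℝ) + ((n % K : ℕ) : ℝ) + n) ≤ K + 2 := by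
      rw [one_div, inv_mul_le_iff₀ hn0]
      linarith [mul_comm (n : ℝ) ((K : ℝ) + 2)]
    linarith
  have h10 := le_trans h3 (Real.exp_le_exp.2 h9)
  refine le_trans h2 ?_
  refine le_trans (mul_le_mul_of_nonneg_left h10 (Real.exp_pos _).le) ?_
  rw [← Real.exp_add]
  have h11 : -C1 + ((K : ℝ) + 2) / 2 = -1 := by
    rw [hC1]; ring
  rw [h11, Real.exp_neg]
  have h12 : (2 : ℝ) ≤ Real.exp 1 := by
    have := Real.add_one_le_exp (1 : ℝ)
    linarith
  rw [one_div]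
  exact inv_anti₀ (by norm_num) h12

theorem tailC_half {K k : ℕ} (hk : 2 ≤ k) (hK : 1 ≤ K) (w : Fin K → Fin k) (n : ℕ) (hn : 1 ≤ n)
    (θ : ℝ) (h0 : 0 ≤ θ) (h1 : θ ≤ 1) (σ : ℝ) (hσ : σ ^ 2 = 1)
    (Q : List (Fin k) → List (Fin k) → Prop)
    (hQ : ∀ X Y, σ * ((lcs X Y : ℝ) - Et w (n / K) (n % K) n θ (fun X' Y' => (lcs X' Y' : ℝ))) <
      (((K : ℝ) + 2) / 2 + 1) * √(n : ℝ) → Q X Y) :
    1 / 2 ≤ Et w (n / K) (n % K) n θ (fun X Y => ind (Q X Y)) := by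
  have h2 := tailC_markov hk hK w n hn θ h0 h1 σ hσ
  have h3 : (1 : ℝ) ≤ Et w (n / K) (n % K) n θ (fun X Y =>
      ind ((((K : ℝ) + 2) / 2 + 1) * √(n : ℝ) ≤
      σ * ((lcs X Y : ℝ) - Et w (n / K) (n % K) n θ (fun X' Y' => (lcs X' Y' : ℝ)))) +
      ind (Q X Y)) := by
    refine le_trans (le_of_eq (Et_const hk hK w (n / K) (n % K) n θ h0 h1 1).symm) ?_
    refine Et_mono hk hK w _ _ n θ h0 h1 fun X Y _ _ => ?_
    rcases lt_or_ge (σ * ((lcs X Y : ℝ) -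
      Et w (n / K) (n % K) n θ (fun X' Y' => (lcs X' Y' : ℝ))))
      ((((K : ℝ) + 2) / 2 + 1) * √(n : ℝ)) with h | h
    · rw [ind_true (hQ X Y h)]
      linarith [ind_nonneg ((((K : ℝ) + 2) / 2 + 1) * √(n : ℝ) ≤
        σ * ((lcs X Y : ℝ) - Et w (n / K) (n % K) n θ (fun X' Y' => (lcs X' Y' : ℝ))))]
    · rw [ind_true h]
      linarith [ind_nonneg (Q X Y)]
  rw [Et_add] at h3
  linarith

theorem tailC_change {K k : ℕ} (hk : 2 ≤ k) (hK : 1 ≤ K) (w : Fin K → Fin k) (n : ℕ)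
    (θ p : ℝ) (h0 : 0 ≤ θ) (h1 : θ ≤ 1) (hp : p = 1 / (k : ℝ) ^ K) (hp0 : 0 < p) (hp1 : p < 1)
    (Q : List (Fin k) → List (Fin k) → Prop)
    (hQ : 1 / 2 ≤ Et w (n / K) (n % K) n θ (fun X Y => ind (Q X Y))) :
    1 / 4 * Real.exp (-(n * ((θ - p) ^ 2 / (p * (1 - p))))) ≤
      EL (un k) n (fun X => EL (un k) n (fun Y => ind (Q X Y))) := by
  have h2 := Et_chm hk hK w (n / K) (n % K) n θ p h0 h1 hp (fun X Y => ind (Q X Y))
    (fun X Y => ind_nonneg _) (fun X Y => ind_le_one _)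
  have h3 : Et w (n / K) (n % K) n p (fun X Y => ind (Q X Y)) =
      EL (un k) n (fun X => EL (un k) n (fun Y => ind (Q X Y))) := by
    rw [hp, Et_unif hk hK w, Nat.div_add_mod']
  rw [h3] at h2
  set P : ℝ := EL (un k) n (fun X => EL (un k) n (fun Y => ind (Q X Y))) with hP
  have hIs : IsP (un k) := un_isP (by omega)
  have hP0 : 0 ≤ P := EL_nonneg hIs fun _ _ => EL_nonneg hIs fun _ _ => ind_nonneg _
  set u : ℝ := (θ - p) ^ 2 / (p * (1 - p)) with hu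
  have hu0 : 0 ≤ u := div_nonneg (sq_nonneg _) (mul_nonneg hp0.le (by linarith))
  have h4 : (1 + u) ^ (n / K) ≤ Real.exp (n * u) := by
    have h5 : (1 + u) ^ (n / K) ≤ Real.exp u ^ (n / K) :=
      pow_le_pow_left₀ (by linarith) (by linarith [Real.add_one_le_exp u]) _
    rw [← Real.exp_nat_mul] at h5
    refine le_trans h5 (Real.exp_le_exp.2 (mul_le_mul_of_nonneg_right ?_ hu0))
    exact_mod_cast Nat.div_le_self n K
  have h5 : (1 / 4 : ℝ) ≤ P * Real.exp (n * u) := by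
    have h6 : (1 / 4 : ℝ) ≤ (Et w (n / K) (n % K) n θ (fun X Y => ind (Q X Y))) ^ 2 := by
      have h7 := pow_le_pow_left₀ (by norm_num : (0 : ℝ) ≤ 1 / 2) hQ 2
      refine le_trans (le_of_eq ?_) h7
      norm_num
    exact le_trans h6 (le_trans h2 (mul_le_mul_of_nonneg_left h4 hP0))
  rw [Real.exp_neg, ← div_eq_mul_inv, div_le_iff₀ (Real.exp_pos _)]
  exact h5

theorem tailC : ∃ k0 : ℕ, ∀ k ≥ k0, ∃ c C : ℝ, 0 < c ∧ 0 < C ∧ ∀ n : ℕ, 1 ≤ n → ∀ t : ℝ, 0 ≤ t →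
    t ≤ c * √(n : ℝ) →
      c * Real.exp (-(C * t ^ 2)) ≤ EL (un k) n (fun X => EL (un k) n (fun Y =>
        ind (t * √(n : ℝ) ≤ (lcs X Y : ℝ) -
          EL (un k) n (fun X' => EL (un k) n (fun Y' => (lcs X' Y' : ℝ)))))) ∧
      c * Real.exp (-(C * t ^ 2)) ≤ EL (un k) n (fun X => EL (un k) n (fun Y =>
        ind (t * √(n : ℝ) ≤ EL (un k) n (fun X' => EL (un k) n (fun Y' => (lcs X' Y' : ℝ))) -
          (lcs X Y : ℝ)))) := by
  obtain ⟨k0, hk0⟩ := tailB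
  refine ⟨k0, fun k hk => ?_⟩
  obtain ⟨hk2, δ, ε, K, w, hδ, hε, hK, hε1, hε2, n0, hB⟩ := hk0 k hk
  obtain ⟨p, hp⟩ : ∃ p : ℝ, p = 1 / (k : ℝ) ^ K := ⟨_, rfl⟩
  rw [← hp] at hε1 hε2 hB
  have hp0 : 0 < p := lt_trans hε hε1
  have hp1 : p < 1 := by linarith
  have hpp : 0 < p * (1 - p) := mul_pos hp0 (by linarith)
  obtain ⟨C1, hC1⟩ : ∃ C1 : ℝ, C1 = ((K : ℝ) + 2) / 2 + 1 := ⟨_, rfl⟩
  have hC10 : 0 < C1 := by rw [hC1]; positivity
  -- the constant for large n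
  obtain ⟨n1, hn1⟩ := exists_nat_ge ((2 * C1 / (ε * δ)) ^ 2)
  obtain ⟨cs, hcs, hsm⟩ := tailC_small
    (fun n t => EL (un k) n (fun X => EL (un k) n (fun Y =>
        ind (t * √(n : ℝ) ≤ (lcs X Y : ℝ) -
          EL (un k) n (fun X' => EL (un k) n (fun Y' => (lcs X' Y' : ℝ)))))))
    (fun n t => EL (un k) n (fun X => EL (un k) n (fun Y =>
        ind (t * √(n : ℝ) ≤ EL (un k) n (fun X' => EL (un k) n (fun Y' => (lcs X' Y' : ℝ))) -
          (lcs X Y : ℝ)))))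
    (fun n hn => tailC_one k n hk2 hn) (max n0 (max n1 1))
  obtain ⟨c3, hc3⟩ : ∃ c3 : ℝ, c3 = 1 / 4 * Real.exp (-(2 * C1 ^ 2 / (δ ^ 2 * (p * (1 - p))))) :=
    ⟨_, rfl⟩
  have hc30 : 0 < c3 := by rw [hc3]; positivity
  refine ⟨min cs (min c3 (ε * δ / 2)), 2 / (δ ^ 2 * (p * (1 - p))),
    lt_min hcs (lt_min hc30 (by positivity)), by positivity, fun n hn t ht0 ht => ?_⟩
  have hs : (0 : ℝ) ≤ √(n : ℝ) := Real.sqrt_nonneg _
  have hexp1 : Real.exp (-(2 / (δ ^ 2 * (p * (1 - p))) * t ^ 2)) ≤ 1 := by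
    apply Real.exp_le_one_iff.2
    have : 0 ≤ 2 / (δ ^ 2 * (p * (1 - p))) * t ^ 2 := by positivity
    linarith
  have hmin0 : 0 ≤ min cs (min c3 (ε * δ / 2)) :=
    (lt_min hcs (lt_min hc30 (by positivity))).le
  rcases lt_or_ge n (max n0 (max n1 1)) with hnN | hnN
  · obtain ⟨a, b⟩ := hsm n hn hnN t ht0
      (le_trans ht (mul_le_mul_of_nonneg_right (min_le_left _ _) hs))
    have h1 : min cs (min c3 (ε * δ / 2)) * Real.exp (-(2 / (δ ^ 2 * (p * (1 - p))) * t ^ 2)) ≤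
        cs := by
      refine le_trans (mul_le_mul_of_nonneg_left hexp1 hmin0) ?_
      rw [mul_one]
      exact min_le_left _ _
    exact ⟨le_trans h1 a, le_trans h1 b⟩
  · have hnn0 : n0 ≤ n := le_trans (le_max_left _ _) hnN
    have hnn1 : n1 ≤ n := le_trans (le_trans (le_max_left _ _) (le_max_right _ _)) hnN
    have hnpos : (0 : ℝ) < n := by exact_mod_cast hn
    have hspos : 0 < √(n : ℝ) := Real.sqrt_pos.2 hnpos
    have hsq : √(n : ℝ) ^ 2 = n := Real.sq_sqrt hnpos.le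
    have hC1n : C1 ≤ ε * δ / 2 * √(n : ℝ) := by
      have h1 : (2 * C1 / (ε * δ)) ^ 2 ≤ n := le_trans hn1 (by exact_mod_cast hnn1)
      have h2 : 2 * C1 / (ε * δ) ≤ √(n : ℝ) := Real.le_sqrt_of_sq_le h1
      rw [div_le_iff₀ (by positivity)] at h2
      linarith [mul_comm (√(n : ℝ)) (ε * δ)]
    have htn : t ≤ ε * δ / 2 * √(n : ℝ) := le_trans ht
      (mul_le_mul_of_nonneg_right (le_trans (min_le_right _ _) (min_le_right _ _)) hs)
    obtain ⟨s, hsd⟩ : ∃ s : ℝ, s = (t + C1) / δ := ⟨_, rfl⟩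
    have hs0 : 0 ≤ s := by rw [hsd]; positivity
    have hδs : δ * s = t + C1 := by
      rw [hsd]; field_simp
    have hsle : s / √(n : ℝ) ≤ ε := by
      rw [div_le_iff₀ hspos]
      have h1 : δ * s ≤ δ * (ε * √(n : ℝ)) := by
        rw [hδs]
        linarith
      exact le_of_mul_le_mul_left h1 hδ
    have hq0 : 0 ≤ s / √(n : ℝ) := div_nonneg hs0 hs
    have hmain : δ * n * (s / √(n : ℝ)) = (t + C1) * √(n : ℝ) := by
      rw [← hδs]
      have h1 : (n : ℝ) * (s / √(n : ℝ)) = s * √(n : ℝ) := by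
        rw [mul_div_assoc', div_eq_iff hspos.ne', mul_assoc, ← pow_two, hsq, mul_comm]
      rw [mul_assoc, h1]
      ring
    have hnu : (n : ℝ) * ((s / √(n : ℝ)) ^ 2 / (p * (1 - p))) = s ^ 2 / (p * (1 - p)) := by
      rw [div_pow, hsq]
      field_simp
    have hfin : min cs (min c3 (ε * δ / 2)) *
        Real.exp (-(2 / (δ ^ 2 * (p * (1 - p))) * t ^ 2)) ≤
        1 / 4 * Real.exp (-(s ^ 2 / (p * (1 - p)))) := by
      have h1 : min cs (min c3 (ε * δ / 2)) ≤ c3 :=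
        le_trans (min_le_right _ _) (min_le_left _ _)
      refine le_trans (mul_le_mul_of_nonneg_right h1 (Real.exp_pos _).le) ?_
      rw [hc3, mul_assoc, ← Real.exp_add]
      refine mul_le_mul_of_nonneg_left (Real.exp_le_exp.2 ?_) (by norm_num)
      have h2 : s ^ 2 / (p * (1 - p)) = (t + C1) ^ 2 / (δ ^ 2 * (p * (1 - p))) := by
        rw [hsd, div_pow, div_div]
      rw [h2]
      have h3 : (t + C1) ^ 2 / (δ ^ 2 * (p * (1 - p))) ≤
          (2 * t ^ 2 + 2 * C1 ^ 2) / (δ ^ 2 * (p * (1 - p))) := by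
        apply div_le_div_of_nonneg_right _ (by positivity)
        have h5 := sq_nonneg (t - C1)
        have h6 : (t - C1) ^ 2 = 2 * t ^ 2 + 2 * C1 ^ 2 - (t + C1) ^ 2 := by ring
        rw [h6] at h5
        exact sub_nonneg.1 h5
      have h4 : (2 * t ^ 2 + 2 * C1 ^ 2) / (δ ^ 2 * (p * (1 - p))) =
          2 * C1 ^ 2 / (δ ^ 2 * (p * (1 - p))) + 2 / (δ ^ 2 * (p * (1 - p))) * t ^ 2 := by
        ring
      linarith
    have hunif : Et w (n / K) (n % K) n p (fun X Y => (lcs X Y : ℝ)) =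
        EL (un k) n (fun X' => EL (un k) n (fun Y' => (lcs X' Y' : ℝ))) := by
      rw [hp, Et_unif hk2 hK w, Nat.div_add_mod']
    constructor
    · refine le_trans hfin ?_
      have hb := hB n hnn0 p (p + s / √(n : ℝ)) (by linarith) (by linarith) (by linarith)
      rw [hunif] at hb
      have e1 : p + s / √(n : ℝ) - p = s / √(n : ℝ) := by ring
      rw [e1, hmain] at hb
      have h1 := tailC_half hk2 hK w n hn (p + s / √(n : ℝ)) (by linarith) (by linarith) (-1)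
        (by norm_num) (fun X Y => t * √(n : ℝ) ≤ (lcs X Y : ℝ) -
          EL (un k) n (fun X' => EL (un k) n (fun Y' => (lcs X' Y' : ℝ))))
        (fun X Y h => by
          rw [← hC1] at h
          have h5 : (t + C1) * √(n : ℝ) = t * √(n : ℝ) + C1 * √(n : ℝ) := by ring
          linarith)
      have h2 := tailC_change hk2 hK w n (p + s / √(n : ℝ)) p (by linarith) (by linarith) hp hp0
        hp1 _ h1
      rw [e1, hnu] at h2
      exact h2
    · refine le_trans hfin ?_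
      have hb := hB n hnn0 (p - s / √(n : ℝ)) p (by linarith) (by linarith) (by linarith)
      rw [hunif] at hb
      have e1 : p - (p - s / √(n : ℝ)) = s / √(n : ℝ) := by ring
      rw [e1, hmain] at hb
      have h1 := tailC_half hk2 hK w n hn (p - s / √(n : ℝ)) (by linarith) (by linarith) 1
        (by norm_num) (fun X Y => t * √(n : ℝ) ≤
          EL (un k) n (fun X' => EL (un k) n (fun Y' => (lcs X' Y' : ℝ))) - (lcs X Y : ℝ))
        (fun X Y h => by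
          rw [← hC1] at h
          have h5 : (t + C1) * √(n : ℝ) = t * √(n : ℝ) + C1 * √(n : ℝ) := by ring
          linarith)
      have h2 := tailC_change hk2 hK w n (p - s / √(n : ℝ)) p (by linarith) (by linarith) hp hp0
        hp1 _ h1
      have e2 : (p - s / √(n : ℝ) - p) ^ 2 = (s / √(n : ℝ)) ^ 2 := by ring
      rw [e2, hnu] at h2
      exact h2

end LCSV
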