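import Pool.Agent.LCSV.Lcs

/-!
# lcs and concatenation

lcs_append_ge: concatenate the two common sublists (List.Sublist.append).
lcs_split: let s be a longest common sublist of x ++ x' and y. By List.sublist_append_iff,
s = s1 ++ s2 with s1 <+ x and s2 <+ x'. As s1 ++ s2 <+ y there are y1, y2 with y = y1 ++ y2, s1 <+ y1, s2 <+ y2
(List.append_sublist_iff). With j = y1.length: lcs (x ++ x') y = |s1| + |s2| <= lcs x (y.take j) + lcs x' (y.drop j);
the converse inequality is lcs_split_le = lcs_append_ge with take_append_drop. lcs_split_right follows by lcs_comm.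
lcs_append_le and lcs_append_le_right follow from lcs_split and lcs_le_left (and monotonicity).
-/

namespace LCSV

open Finset

variable {α : Type*}

theorem lcs_append_ge (x x' y y' : List α) : lcs x y + lcs x' y' ≤ lcs (x ++ x') (y ++ y') := by
  obtain ⟨s, hs1, hs2, hs3⟩ := exists_lcs x y
  obtain ⟨t, ht1, ht2, ht3⟩ := exists_lcs x' y'
  have h := le_lcs (List.Sublist.append hs1 ht1) (List.Sublist.append hs2 ht2)
  rw [List.length_append] at h
  omega

theorem lcs_split_le (x x' y : List α) (j : ℕ) :
    lcs x (y.take j) + lcs x' (y.drop j) ≤ lcs (x ++ x') y := by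
  have h := lcs_append_ge x x' (y.take j) (y.drop j)
  rwa [List.take_append_drop] at h

theorem lcs_split (x x' y : List α) :
    ∃ j ≤ y.length, lcs (x ++ x') y = lcs x (y.take j) + lcs x' (y.drop j) := by
  obtain ⟨s, hs1, hs2, hs3⟩ := exists_lcs (x ++ x') y
  obtain ⟨s1, s2, rfl, h1, h2⟩ := List.sublist_append_iff.1 hs1
  obtain ⟨y1, y2, rfl, h3, h4⟩ := List.append_sublist_iff.1 hs2
  refine ⟨y1.length, by simp, ?_⟩
  apply le_antisymm
  · have h5 := le_lcs h1 h3
    have h6 := le_lcs h2 h4
    rw [List.take_left, List.drop_left, ← hs3, List.length_append]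
    omega
  · exact lcs_split_le x x' (y1 ++ y2) y1.length

theorem lcs_split_right_le (x y y' : List α) (j : ℕ) :
    lcs (x.take j) y + lcs (x.drop j) y' ≤ lcs x (y ++ y') := by
  have h := lcs_append_ge (x.take j) (x.drop j) y y'
  rwa [List.take_append_drop] at h

theorem lcs_split_right (x y y' : List α) :
    ∃ j ≤ x.length, lcs x (y ++ y') = lcs (x.take j) y + lcs (x.drop j) y' := by
  obtain ⟨j, hj, e⟩ := lcs_split y y' x
  refine ⟨j, hj, ?_⟩
  rw [lcs_comm, e, lcs_comm y, lcs_comm y']

theorem lcs_append_le (x x' y : List α) : lcs (x ++ x') y ≤ x.length + lcs x' y := by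
  obtain ⟨j, hj, e⟩ := lcs_split x x' y
  have h1 := lcs_le_left x (y.take j)
  have h2 : lcs x' (y.drop j) ≤ lcs x' y := lcs_mono (List.Sublist.refl _) (List.drop_sublist _ _)
  omega

theorem lcs_append_le' (x x' y : List α) : lcs (x ++ x') y ≤ lcs x y + x'.length := by
  obtain ⟨j, hj, e⟩ := lcs_split x x' y
  have h1 := lcs_le_left x' (y.drop j)
  have h2 : lcs x (y.take j) ≤ lcs x y := lcs_mono (List.Sublist.refl _) (List.take_sublist _ _)
  omega

end LCSV
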