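import Pool.Agent.LCSV.DVup
import Pool.Agent.LCSV.LcsA

/-!
# The constant gamma and superadditivity

vK_super: EL_append for X and Y, EL_comm, lcs_append_ge. vK_comm: lcs_comm and EL_comm. vK_le_min: lcs_le_left.
gam k = sup over n of vK (n+1) (n+1)/(n+1) (bounded by 1). vK_diag_ge: given eps choose n0 with vK n0 n0 >= (gam - eps/2) n0 (n0 >= 1);
for n = q n0 + r: vK n n >= q vK n0 n0 >= (n - n0)(gam - eps/2) >= (gam - eps) n for n >= 2 n0 gam / eps...
vK_le: 2 vK K m = vK K m + vK m K <= vK (K+m) (K+m) <= gam (K+m).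
gam_nonneg: lcs >= 0.
-/

namespace LCSV

open Finset

theorem vK_nonneg {k : ℕ} (hk : 0 < k) (K m : ℕ) : 0 ≤ vK k K m :=
  EL_nonneg (un_isP hk) fun _ _ => EL_nonneg (un_isP hk) fun _ _ => Nat.cast_nonneg _

theorem vK_le_left {k : ℕ} (hk : 0 < k) (K m : ℕ) : vK k K m ≤ K := by
  unfold vK
  have h1 : (K : ℝ) = EL (un k) K (fun _ => EL (un k) m (fun _ => (K : ℝ))) := by
    rw [EL_const (un_isP hk), EL_const (un_isP hk)]
  rw [h1]
  refine EL_mono (un_isP hk) fun X hX => EL_mono (un_isP hk) fun Y _ => ?_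
  rw [← hX]
  exact_mod_cast lcs_le_left X Y

theorem vK_comm (k K m : ℕ) : vK k K m = vK k m K := by
  unfold vK
  rw [EL_comm]
  congr 1
  funext Y
  congr 1
  funext X
  rw [lcs_comm]

theorem vK_super {k : ℕ} (hk : 0 < k) (K K' m m' : ℕ) :
    vK k K m + vK k K' m' ≤ vK k (K + K') (m + m') := by
  have hu := un_isP hk
  unfold vK
  rw [EL_append]
  have h1 : EL (un k) K (fun X => EL (un k) m (fun Y => (lcs X Y : ℝ))) +
      EL (un k) K' (fun X => EL (un k) m' (fun Y => (lcs X Y : ℝ))) =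
      EL (un k) K (fun X1 => EL (un k) K' (fun X2 => 
        EL (un k) m (fun Y => (lcs X1 Y : ℝ)) + EL (un k) m' (fun Y => (lcs X2 Y : ℝ)))) := by
    have h2 : (fun X1 : List (Fin k) => EL (un k) K' (fun X2 => 
        EL (un k) m (fun Y => (lcs X1 Y : ℝ)) + EL (un k) m' (fun Y => (lcs X2 Y : ℝ)))) =
        fun X1 : List (Fin k) => EL (un k) m (fun Y => (lcs X1 Y : ℝ)) +
          EL (un k) K' (fun X2 => EL (un k) m' (fun Y => (lcs X2 Y : ℝ))) := by
      funext X1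
      rw [EL_add, EL_const hu]
    rw [h2, EL_add, EL_const hu]
  rw [h1]
  refine EL_mono hu fun X1 _ => EL_mono hu fun X2 _ => ?_
  rw [EL_append]
  have h3 : EL (un k) m (fun Y => (lcs X1 Y : ℝ)) + EL (un k) m' (fun Y => (lcs X2 Y : ℝ)) =
      EL (un k) m (fun Y1 => EL (un k) m' (fun Y2 => (lcs X1 Y1 : ℝ) + (lcs X2 Y2 : ℝ))) := by
    have h4 : (fun Y1 : List (Fin k) => EL (un k) m' (fun Y2 =>
        (lcs X1 Y1 : ℝ) + (lcs X2 Y2 : ℝ))) =
        fun Y1 : List (Fin k) => (lcs X1 Y1 : ℝ) +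
          EL (un k) m' (fun Y2 => (lcs X2 Y2 : ℝ)) := by
      funext Y1
      rw [EL_add, EL_const hu]
    rw [h4, EL_add, EL_const hu]
  rw [h3]
  refine EL_mono hu fun Y1 _ => EL_mono hu fun Y2 _ => ?_
  exact_mod_cast lcs_append_ge X1 X2 Y1 Y2

/-- the limit of E L_n / n -/
noncomputable def gam (k : ℕ) : ℝ := ⨆ n : ℕ, vK k (n + 1) (n + 1) / ((n : ℝ) + 1)

theorem gam_bdd {k : ℕ} (hk : 0 < k) :
    BddAbove (Set.range fun n : ℕ => vK k (n + 1) (n + 1) / ((n : ℝ) + 1)) := by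
  refine ⟨1, ?_⟩
  rintro _ ⟨n, rfl⟩
  show vK k (n + 1) (n + 1) / ((n : ℝ) + 1) ≤ 1
  have h1 := vK_le_left hk (n + 1) (n + 1)
  have h2 : (0 : ℝ) < (n : ℝ) + 1 := by positivity
  rw [div_le_one h2]
  push_cast at h1
  exact h1

theorem vK_le_gam {k : ℕ} (hk : 0 < k) (n : ℕ) : vK k n n ≤ gam k * n := by
  rcases n with _ | n
  · have h1 := vK_le_left hk 0 0
    push_cast at h1 ⊢
    linarith
  · have h1 : vK k (n + 1) (n + 1) / ((n : ℝ) + 1) ≤ gam k :=
      le_ciSup (gam_bdd hk) n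
    have h2 : (0 : ℝ) < (n : ℝ) + 1 := by positivity
    rw [div_le_iff₀ h2] at h1
    push_cast
    exact h1

theorem gam_nonneg {k : ℕ} (hk : 0 < k) : 0 ≤ gam k := by
  have h1 := vK_le_gam hk 1
  have h2 := vK_nonneg hk 1 1
  push_cast at h1
  linarith

theorem gam_le_one {k : ℕ} (hk : 0 < k) : gam k ≤ 1 := by
  apply ciSup_le
  intro n
  have h1 := vK_le_left hk (n + 1) (n + 1)
  have h2 : (0 : ℝ) < (n : ℝ) + 1 := by positivity
  rw [div_le_one h2]
  push_cast at h1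
  exact h1

theorem gam_nsmul {k : ℕ} (hk : 0 < k) (q n r : ℕ) :
    (q : ℝ) * vK k n n ≤ vK k (q * n + r) (q * n + r) := by
  induction q with
  | zero => simpa using vK_nonneg hk (0 * n + r) (0 * n + r)
  | succ q ih =>
    have h1 := vK_super hk n (q * n + r) n (q * n + r)
    have h2 : (q + 1) * n + r = n + (q * n + r) := by ring
    rw [h2]
    push_cast
    linarith

theorem vK_diag_ge {k : ℕ} (hk : 0 < k) (ε : ℝ) (hε : 0 < ε) :
    ∃ n0 : ℕ, ∀ n ≥ n0, (gam k - ε) * n ≤ vK k n n := by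
  obtain ⟨p, hp⟩ := exists_lt_of_lt_ciSup (show gam k - ε / 2 < gam k by linarith)
  have hp1 : (0 : ℝ) < (p : ℝ) + 1 := by positivity
  rw [lt_div_iff₀ hp1] at hp
  obtain ⟨n1, hn1⟩ := exists_nat_gt (2 * ((p : ℝ) + 1) / ε)
  refine ⟨n1, fun n hn => ?_⟩
  have hn2 : 2 * ((p : ℝ) + 1) / ε < n := lt_of_lt_of_le hn1 (by exact_mod_cast hn)
  rw [div_lt_iff₀ hε] at hn2
  by_cases hg : gam k - ε / 2 ≤ 0
  · have h1 := vK_nonneg hk n n
    have h2 : (0 : ℝ) ≤ n := Nat.cast_nonneg n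
    nlinarith
  · have hg' := not_le.mp hg
    have h3 := gam_nsmul hk (n / (p + 1)) (p + 1) (n % (p + 1))
    have h4 : n / (p + 1) * (p + 1) + n % (p + 1) = n := Nat.div_add_mod' n (p + 1)
    rw [h4] at h3
    have h5 : (n : ℝ) = ((n / (p + 1) : ℕ) : ℝ) * ((p : ℝ) + 1) + ((n % (p + 1) : ℕ) : ℝ) := by
      exact_mod_cast h4.symm
    have h6 : ((n % (p + 1) : ℕ) : ℝ) ≤ (p : ℝ) + 1 := by
      have := (Nat.mod_lt n (Nat.succ_pos p)).le
      exact_mod_cast this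
    have h7 : ((n / (p + 1) : ℕ) : ℝ) * ((gam k - ε / 2) * ((p : ℝ) + 1)) ≤
        ((n / (p + 1) : ℕ) : ℝ) * vK k (p + 1) (p + 1) :=
      mul_le_mul_of_nonneg_left hp.le (Nat.cast_nonneg _)
    have h8 : (gam k - ε / 2) * ((n : ℝ) - (p + 1)) ≤
        ((n / (p + 1) : ℕ) : ℝ) * ((gam k - ε / 2) * ((p : ℝ) + 1)) := by
      have : (n : ℝ) - (p + 1) ≤ ((n / (p + 1) : ℕ) : ℝ) * ((p : ℝ) + 1) := by linarith
      nlinarith
    have h9 := gam_le_one hk
    nlinarith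

theorem vK_le {k : ℕ} (hk : 0 < k) (K m : ℕ) : vK k K m ≤ gam k / 2 * (K + m) := by
  have h1 := vK_super hk K m m K
  have h2 := vK_le_gam hk (K + m)
  have h3 := vK_comm k m K
  rw [h3, add_comm m K] at h1
  push_cast at h2
  linarith

end LCSV
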