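import Pool.Agent.LCSV.Blk
import Pool.Agent.LCSV.Gam

/-!
# Expectations of the block sums

Induction on ms with EL_append (n = K + (n - K) letters of X, M = m + (M - m) letters of Y) and EL_comm.
For Gs the leftover term is vK (n - N K) (M - sum) <= n - N K.
-/

namespace LCSV

open Finset

/-- expectation of a sum over split words -/
theorem blkE_split (k : ℕ) (hk : 0 < k) (K n m M : ℕ) (F G : List (Fin k) → List (Fin k) → ℝ) :
    EL (un k) (K + n) (fun X => EL (un k) (m + M) (fun Y =>
      F (X.take K) (Y.take m) + G (X.drop K) (Y.drop m))) =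
    EL (un k) K (fun X => EL (un k) m (fun Y => F X Y)) +
      EL (un k) n (fun X => EL (un k) M (fun Y => G X Y)) := by
  have hu := un_isP hk
  rw [EL_append]
  have h1 : EL (un k) K (fun X1 => EL (un k) n (fun X2 => EL (un k) (m + M) (fun Y =>
      F ((X1 ++ X2).take K) (Y.take m) + G ((X1 ++ X2).drop K) (Y.drop m)))) =
      EL (un k) K (fun X1 => EL (un k) m (fun Y => F X1 Y) +
        EL (un k) n (fun X => EL (un k) M (fun Y => G X Y))) := by
    refine EL_congr fun X1 hX1 => ?_
    have h2 : EL (un k) n (fun X2 => EL (un k) (m + M) (fun Y =>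
        F ((X1 ++ X2).take K) (Y.take m) + G ((X1 ++ X2).drop K) (Y.drop m))) =
        EL (un k) n (fun X2 => EL (un k) m (fun Y => F X1 Y) +
          EL (un k) M (fun Y => G X2 Y)) := by
      refine EL_congr fun X2 _ => ?_
      rw [EL_append]
      have h3 : EL (un k) m (fun Y1 => EL (un k) M (fun Y2 =>
          F ((X1 ++ X2).take K) ((Y1 ++ Y2).take m) +
            G ((X1 ++ X2).drop K) ((Y1 ++ Y2).drop m))) =
          EL (un k) m (fun Y1 => F X1 Y1 + EL (un k) M (fun Y => G X2 Y)) := by
        refine EL_congr fun Y1 hY1 => ?_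
        have h4 : EL (un k) M (fun Y2 =>
            F ((X1 ++ X2).take K) ((Y1 ++ Y2).take m) +
              G ((X1 ++ X2).drop K) ((Y1 ++ Y2).drop m)) =
            EL (un k) M (fun Y2 => F X1 Y1 + G X2 Y2) := by
          refine EL_congr fun Y2 _ => ?_
          rw [List.take_left' hX1, List.take_left' hY1, List.drop_left' hX1,
            List.drop_left' hY1]
        rw [h4, EL_add, EL_const hu]
      rw [h3, EL_add, EL_const hu]
    rw [h2, EL_add, EL_const hu]
  rw [h1, EL_add, EL_const hu]

theorem E_Bs (k : ℕ) (hk : 0 < k) (K : ℕ) (ms : List ℕ) (n M : ℕ) (hn : ms.length * K ≤ n)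
    (hM : ms.sum ≤ M) :
    EL (un k) n (fun X => EL (un k) M (fun Y => (Bs K ms X Y : ℝ))) =
      (ms.map (fun m => vK k K m)).sum := by
  induction ms generalizing n M with
  | nil =>
    simp only [Bs, Nat.cast_zero, List.map_nil, List.sum_nil]
    rw [EL_const (un_isP hk), EL_const (un_isP hk)]
  | cons m ms ih =>
    simp only [List.length_cons, List.sum_cons] at hn hM
    have hK : (ms.length + 1) * K = K + ms.length * K := by ring
    rw [hK] at hn
    obtain ⟨n', rfl⟩ := Nat.exists_eq_add_of_le (show K ≤ n by omega)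
    obtain ⟨M', rfl⟩ := Nat.exists_eq_add_of_le (show m ≤ M by omega)
    simp only [Bs, Nat.cast_add, List.map_cons, List.sum_cons]
    rw [blkE_split k hk K n' m M' (fun X Y => (lcs X Y : ℝ)) (fun X Y => (Bs K ms X Y : ℝ)),
      ih n' M' (by omega) (by omega)]
    rfl

theorem E_Gs_le (k : ℕ) (hk : 0 < k) (K : ℕ) (ms : List ℕ) (n M : ℕ) (hn : ms.length * K ≤ n)
    (hM : ms.sum ≤ M) :
    EL (un k) n (fun X => EL (un k) M (fun Y => (Gs K ms X Y : ℝ))) ≤
      (ms.map (fun m => vK k K m)).sum + ((n : ℝ) - ms.length * K) := by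
  induction ms generalizing n M with
  | nil =>
    simp only [Gs, List.map_nil, List.sum_nil, List.length_nil, Nat.cast_zero, zero_mul,
      sub_zero, zero_add]
    exact vK_le_left hk n M
  | cons m ms ih =>
    simp only [List.length_cons, List.sum_cons] at hn hM
    have hK : (ms.length + 1) * K = K + ms.length * K := by ring
    rw [hK] at hn
    obtain ⟨n', rfl⟩ := Nat.exists_eq_add_of_le (show K ≤ n by omega)
    obtain ⟨M', rfl⟩ := Nat.exists_eq_add_of_le (show m ≤ M by omega)
    have h1 := ih n' M' (by omega) (by omega)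
    simp only [Gs, Nat.cast_add, List.map_cons, List.sum_cons, List.length_cons, Nat.cast_one]
    rw [blkE_split k hk K n' m M' (fun X Y => (lcs X Y : ℝ)) (fun X Y => (Gs K ms X Y : ℝ))]
    have h2 : EL (un k) K (fun X => EL (un k) m (fun Y => (lcs X Y : ℝ))) = vK k K m := rfl
    rw [h2]
    linarith

theorem E_Ws (k : ℕ) (hk : 0 < k) (w : List (Fin k)) (ms : List ℕ) (M : ℕ) (hM : ms.sum ≤ M) :
    EL (un k) M (fun Y => (Ws w ms Y : ℝ)) =
      (ms.map (fun m => EL (un k) m (fun Y => (lcs w Y : ℝ)))).sum := by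
  have hu := un_isP hk
  induction ms generalizing M with
  | nil =>
    simp only [Ws, Nat.cast_zero, List.map_nil, List.sum_nil]
    rw [EL_const hu]
  | cons m ms ih =>
    simp only [List.sum_cons] at hM
    obtain ⟨M', rfl⟩ := Nat.exists_eq_add_of_le (show m ≤ M by omega)
    simp only [Ws, Nat.cast_add, List.map_cons, List.sum_cons]
    rw [EL_append, ← ih M' (by omega)]
    have h3 : EL (un k) m (fun Y1 => EL (un k) M' (fun Y2 =>
        (lcs w ((Y1 ++ Y2).take m) : ℝ) + (Ws w ms ((Y1 ++ Y2).drop m) : ℝ))) =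
        EL (un k) m (fun Y1 => (lcs w Y1 : ℝ) +
          EL (un k) M' (fun Y => (Ws w ms Y : ℝ))) := by
      refine EL_congr fun Y1 hY1 => ?_
      have h4 : EL (un k) M' (fun Y2 =>
          (lcs w ((Y1 ++ Y2).take m) : ℝ) + (Ws w ms ((Y1 ++ Y2).drop m) : ℝ)) =
          EL (un k) M' (fun Y2 => (lcs w Y1 : ℝ) + (Ws w ms Y2 : ℝ)) := by
        refine EL_congr fun Y2 _ => ?_
        rw [List.take_left' hY1, List.drop_left' hY1]
      rw [h4, EL_add, EL_const hu]
    rw [h3, EL_add, EL_const hu]

end LCSV
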