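import Pool.Agent.LCSV.Core

/-!
# Number of sequences of N natural numbers with sum at most n

S = image of List.ofFn over the functions f : Fin N -> Nat with values in range (n+1) and sum at most n (Fintype.piFinset, filter).
Count: with x = K/(K+1) in (0,1): card S <= sum over f in piFinset of x^(sum f - n) = x^(-n) (sum over j <= n of x^j)^N <= (1 + 1/K)^n (K+1)^N
(1/x = 1 + 1/K, sum of x^j <= 1/(1-x) = K + 1), and (1 + 1/K)^n <= exp(n/K).
-/

namespace LCSV

open Finset

theorem cnt (N n K : ℕ) (hK : 1 ≤ K) : ∃ S : Finset (List ℕ),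
    (∀ ms : List ℕ, ms ∈ S ↔ ms.length = N ∧ ms.sum ≤ n) ∧
    (S.card : ℝ) ≤ Real.exp ((n : ℝ) / K) * ((K : ℝ) + 1) ^ N := by
  classical
  have hK0 : (0 : ℝ) < K := by exact_mod_cast hK
  refine ⟨((Fintype.piFinset (fun _ : Fin N => range (n + 1))).filter
    (fun f => ∑ i, f i ≤ n)).image List.ofFn, ?_, ?_⟩
  · intro ms
    rw [Finset.mem_image]
    constructor
    · rintro ⟨f, hf, rfl⟩
      rw [Finset.mem_filter] at hf
      refine ⟨List.length_ofFn, ?_⟩
      rw [List.sum_ofFn]
      exact hf.2
    · rintro ⟨h1, h2⟩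
      subst h1
      have h3 : ∑ i, ms.get i = ms.sum := by
        rw [← List.sum_ofFn, List.ofFn_get]
      refine ⟨ms.get, ?_, List.ofFn_get ms⟩
      rw [Finset.mem_filter, Fintype.mem_piFinset, h3]
      refine ⟨fun i => ?_, h2⟩
      rw [Finset.mem_range]
      have h4 : ms.get i ≤ ∑ i, ms.get i :=
        Finset.single_le_sum (fun j _ => Nat.zero_le _) (Finset.mem_univ i)
      omega
  · set x : ℝ := K / (K + 1) with hx
    have hx0 : 0 < x := by positivity
    have hx1 : x ≤ 1 := by
      rw [hx, div_le_one (by positivity)]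
      linarith
    have hxn : 0 < x ^ n := by positivity
    have c1 : (((Fintype.piFinset (fun _ : Fin N => range (n + 1))).filter
        (fun f => ∑ i, f i ≤ n)).card : ℝ) * x ^ n ≤
        ∑ f ∈ Fintype.piFinset (fun _ : Fin N => range (n + 1)), ∏ i, x ^ f i := by
      rw [← nsmul_eq_mul, ← Finset.sum_const]
      have c2 : ∑ _f ∈ (Fintype.piFinset (fun _ : Fin N => range (n + 1))).filter
          (fun f => ∑ i, f i ≤ n), x ^ n ≤
          ∑ f ∈ (Fintype.piFinset (fun _ : Fin N => range (n + 1))).filter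
          (fun f => ∑ i, f i ≤ n), ∏ i, x ^ f i := by
        refine Finset.sum_le_sum fun f hf => ?_
        rw [Finset.prod_pow_eq_pow_sum]
        exact pow_le_pow_of_le_one hx0.le hx1 (Finset.mem_filter.1 hf).2
      refine c2.trans (Finset.sum_le_sum_of_subset_of_nonneg (Finset.filter_subset _ _) ?_)
      intro f _ _
      exact Finset.prod_nonneg fun i _ => by positivity
    have c3 : ∑ f ∈ Fintype.piFinset (fun _ : Fin N => range (n + 1)), ∏ i, x ^ f i =
        (∑ j ∈ range (n + 1), x ^ j) ^ N := by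
      rw [← Finset.prod_univ_sum (fun _ : Fin N => range (n + 1)) (fun _ j => x ^ j),
        Finset.prod_const, Finset.card_univ, Fintype.card_fin]
    have c4 : ∑ j ∈ range (n + 1), x ^ j ≤ (K : ℝ) + 1 := by
      have h1 := mul_neg_geom_sum x (n + 1)
      have h2 : 1 - x = 1 / ((K : ℝ) + 1) := by
        rw [hx]
        field_simp
        ring
      rw [h2] at h1
      have h3 : 0 < x ^ (n + 1) := by positivity
      have h4 : 1 / ((K : ℝ) + 1) * ∑ j ∈ range (n + 1), x ^ j ≤ 1 := by linarith
      rw [one_div, inv_mul_le_iff₀ (by positivity), mul_one] at h4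
      exact h4
    have c5 : (∑ j ∈ range (n + 1), x ^ j) ^ N ≤ ((K : ℝ) + 1) ^ N :=
      pow_le_pow_left₀ (Finset.sum_nonneg fun j _ => by positivity) c4 N
    have c6 : 1 ≤ Real.exp ((n : ℝ) / K) * x ^ n := by
      have h1 : 1 ≤ Real.exp (1 / (K : ℝ)) * x := by
        have h2 := Real.add_one_le_exp (1 / (K : ℝ))
        have h3 : (1 / (K : ℝ) + 1) * x = 1 := by
          rw [hx]
          field_simp
          ring
        calc (1 : ℝ) = (1 / (K : ℝ) + 1) * x := h3.symm
          _ ≤ _ := mul_le_mul_of_nonneg_right h2 hx0.le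
      have h4 : Real.exp ((n : ℝ) / K) = Real.exp (1 / (K : ℝ)) ^ n := by
        rw [← Real.exp_nat_mul]
        congr 1
        ring
      rw [h4, ← mul_pow]
      exact one_le_pow₀ h1
    have c7 : ((((Fintype.piFinset (fun _ : Fin N => range (n + 1))).filter
        (fun f => ∑ i, f i ≤ n)).image List.ofFn).card : ℝ) ≤
        (((Fintype.piFinset (fun _ : Fin N => range (n + 1))).filter
        (fun f => ∑ i, f i ≤ n)).card : ℝ) := by
      exact_mod_cast Finset.card_image_le
    refine c7.trans ?_
    have c8 := (c1.trans_eq c3).trans c5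
    have c9 : (((Fintype.piFinset (fun _ : Fin N => range (n + 1))).filter
        (fun f => ∑ i, f i ≤ n)).card : ℝ) * x ^ n ≤
        Real.exp ((n : ℝ) / K) * ((K : ℝ) + 1) ^ N * x ^ n := by
      refine c8.trans ?_
      have h5 : 0 ≤ ((K : ℝ) + 1) ^ N := by positivity
      have h6 := mul_le_mul_of_nonneg_left c6 h5
      linarith
    exact le_of_mul_le_mul_right c9 hxn

end LCSV
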