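import Pool.Agent.LCSV.McD

/-!
# Concentration for functions of two independent lists, and maxima of finitely many such functions

mcd2: let m1 x = EL nu m (fun y => F x y). For fixed x (of length n) mcd applied to F x gives
EL nu m exp(t (F x y - m1 x)) <= exp(t^2 c^2 m / 2); the function m1 has differences <= c (EL_mono / EL_abs_le), so mcd applied to
m1 gives EL mu n exp(t (m1 x - EL mu n m1)) <= exp(t^2 c^2 n / 2). Multiply: exp(t (F - M)) = exp(t (F - m1)) exp(t (m1 - M)).

emax_le: let Z_i = F i x y - E(F i) (E the nested expectation) and t > 0. For every choice i(x,y) in S: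
t Z_(i(x,y)) (x,y) <= log (sum_i exp(t Z_i)), and E log (V) <= log E V by concavity of log (or: for every K > 0, log V <= V / K + log K - 1;
take K = E V), E V <= |S| exp(t^2 c^2 (n+m) / 2).
-/

namespace LCSV

open Finset

theorem mcd2 {β γ : Type*} [Fintype β] [Fintype γ] {mu : β → ℝ} {nu : γ → ℝ} (hmu : IsP mu)
    (hnu : IsP nu) (n m : ℕ) (F : List β → List γ → ℝ) (c : ℝ) (hc : 0 ≤ c)
    (hF : ∀ (l1 l2 : List β) (x x' : β) (y : List γ), l1.length + 1 + l2.length = n →
      y.length = m → |F (l1 ++ x :: l2) y - F (l1 ++ x' :: l2) y| ≤ c)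
    (hG : ∀ (x : List β) (l1 l2 : List γ) (y y' : γ), x.length = n →
      l1.length + 1 + l2.length = m → |F x (l1 ++ y :: l2) - F x (l1 ++ y' :: l2)| ≤ c) (t : ℝ) :
    EL mu n (fun x => EL nu m (fun y =>
      Real.exp (t * (F x y - EL mu n (fun x' => EL nu m (fun y' => F x' y')))))) ≤
      Real.exp (t ^ 2 * c ^ 2 * (n + m) / 2) := by
  set m1 : List β → ℝ := fun x => EL nu m (fun y => F x y) with hm1
  set M : ℝ := EL mu n m1 with hM
  have h1 : ∀ x : List β, x.length = n →
      EL nu m (fun y => Real.exp (t * (F x y - M))) ≤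
        Real.exp (t * (m1 x - M)) * Real.exp (t ^ 2 * c ^ 2 * m / 2) := by
    intro x hx
    have h2 := mcd hnu m (F x) c hc (fun l1 l2 y y' hl => hG x l1 l2 y y' hx hl) t
    have h3 : EL nu m (fun y => Real.exp (t * (F x y - M))) =
        Real.exp (t * (m1 x - M)) * EL nu m (fun y => Real.exp (t * (F x y - EL nu m (F x)))) := by
      rw [← EL_mul_left]
      refine EL_congr fun y _ => ?_
      rw [← Real.exp_add]
      congr 1
      have h4 : m1 x = EL nu m (F x) := rfl
      rw [h4]
      ring
    rw [h3]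
    exact mul_le_mul_of_nonneg_left h2 (Real.exp_pos _).le
  have h5 : ∀ (l1 l2 : List β) (x x' : β), l1.length + 1 + l2.length = n →
      |m1 (l1 ++ x :: l2) - m1 (l1 ++ x' :: l2)| ≤ c := by
    intro l1 l2 x x' hl
    have h6 : m1 (l1 ++ x :: l2) - m1 (l1 ++ x' :: l2) =
        EL nu m (fun y => F (l1 ++ x :: l2) y - F (l1 ++ x' :: l2) y) := by
      rw [EL_sub]
    rw [h6]
    refine (EL_abs_le hnu m _).trans ?_
    calc EL nu m (fun y => |F (l1 ++ x :: l2) y - F (l1 ++ x' :: l2) y|) ≤
          EL nu m (fun _ => c) := EL_mono hnu fun y hy => hF l1 l2 x x' y hl hy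
      _ = c := EL_const hnu m c
  have h7 := mcd hmu n m1 c hc h5 t
  calc EL mu n (fun x => EL nu m (fun y => Real.exp (t * (F x y - M)))) ≤
        EL mu n (fun x => Real.exp (t * (m1 x - M)) * Real.exp (t ^ 2 * c ^ 2 * m / 2)) :=
        EL_mono hmu h1
    _ = EL mu n (fun x => Real.exp (t * (m1 x - M))) * Real.exp (t ^ 2 * c ^ 2 * m / 2) := by
        rw [EL_mul_right]
    _ ≤ Real.exp (t ^ 2 * c ^ 2 * n / 2) * Real.exp (t ^ 2 * c ^ 2 * m / 2) :=
        mul_le_mul_of_nonneg_right h7 (Real.exp_pos _).le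
    _ = Real.exp (t ^ 2 * c ^ 2 * (n + m) / 2) := by
        rw [← Real.exp_add]
        congr 1
        ring

private theorem mcd2_affine {β γ : Type*} [Fintype β] [Fintype γ] {mu : β → ℝ} {nu : γ → ℝ}
    (hmu : IsP mu) (hnu : IsP nu) (n m : ℕ) (G : List β → List γ → ℝ) (a b : ℝ) :
    EL mu n (fun x => EL nu m (fun y => a * G x y + b)) =
      a * EL mu n (fun x => EL nu m (fun y => G x y)) + b := by
  have h1 : ∀ x : List β, EL nu m (fun y => a * G x y + b) =
      a * EL nu m (fun y => G x y) + b := by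
    intro x
    rw [EL_add m (fun y => a * G x y) (fun _ => b), EL_mul_left, EL_const hnu]
  have h2 : EL mu n (fun x => EL nu m (fun y => a * G x y + b)) =
      EL mu n (fun x => a * EL nu m (fun y => G x y) + b) := EL_congr fun x _ => h1 x
  rw [h2, EL_add n (fun x => a * EL nu m (fun y => G x y)) (fun _ => b), EL_mul_left,
    EL_const hmu]

/-- expectation of the maximum of finitely many functions: the maximum is represented by a selection i -/
theorem emax_le {β γ ι : Type*} [Fintype β] [Fintype γ] {mu : β → ℝ} {nu : γ → ℝ} (hmu : IsP mu)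
    (hnu : IsP nu) (n m : ℕ) (S : Finset ι) (F : ι → List β → List γ → ℝ) (c : ℝ) (hc : 0 ≤ c)
    (hF : ∀ i ∈ S, ∀ (l1 l2 : List β) (x x' : β) (y : List γ), l1.length + 1 + l2.length = n →
      y.length = m → |F i (l1 ++ x :: l2) y - F i (l1 ++ x' :: l2) y| ≤ c)
    (hG : ∀ i ∈ S, ∀ (x : List β) (l1 l2 : List γ) (y y' : γ), x.length = n →
      l1.length + 1 + l2.length = m → |F i x (l1 ++ y :: l2) - F i x (l1 ++ y' :: l2)| ≤ c)
    (t : ℝ) (ht : 0 < t) (i : List β → List γ → ι)
    (hi : ∀ x y, x.length = n → y.length = m → i x y ∈ S) :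
    EL mu n (fun x => EL nu m (fun y =>
      F (i x y) x y - EL mu n (fun x' => EL nu m (fun y' => F (i x y) x' y')))) ≤
      Real.log S.card / t + t * c ^ 2 * (n + m) / 2 := by
  obtain ⟨x0, hx0, -⟩ := EL_exists_le hmu n (fun _ => 0)
  obtain ⟨y0, hy0, -⟩ := EL_exists_le hnu m (fun _ => 0)
  have hS : 0 < S.card := Finset.card_pos.2 ⟨_, hi x0 y0 hx0 hy0⟩
  have hS' : (0 : ℝ) < S.card := by exact_mod_cast hS
  set M : ι → ℝ := fun j => EL mu n (fun x' => EL nu m (fun y' => F j x' y')) with hM
  set K : ℝ := S.card * Real.exp (t ^ 2 * c ^ 2 * (n + m) / 2) with hK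
  have hK0 : 0 < K := mul_pos hS' (Real.exp_pos _)
  have hlogK : Real.log K = Real.log S.card + t ^ 2 * c ^ 2 * (n + m) / 2 := by
    rw [hK, Real.log_mul hS'.ne' (Real.exp_pos _).ne', Real.log_exp]
  set V : List β → List γ → ℝ := fun x y => ∑ j ∈ S, Real.exp (t * (F j x y - M j)) with hV
  have hEV : EL mu n (fun x => EL nu m (fun y => V x y)) ≤ K := by
    have h1 : EL mu n (fun x => EL nu m (fun y => V x y)) =
        ∑ j ∈ S, EL mu n (fun x => EL nu m (fun y => Real.exp (t * (F j x y - M j)))) := by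
      rw [← EL_sum]
      refine EL_congr fun x _ => ?_
      rw [← EL_sum]
    rw [h1, hK, ← nsmul_eq_mul]
    exact Finset.sum_le_card_nsmul _ _ _ fun j hj =>
      mcd2 hmu hnu n m (F j) c hc (hF j hj) (hG j hj) t
  have hpt : ∀ x : List β, x.length = n → ∀ y : List γ, y.length = m →
      F (i x y) x y - M (i x y) ≤ 1 / (t * K) * V x y + (Real.log K - 1) / t := by
    intro x hx y hy
    have h1 : Real.exp (t * (F (i x y) x y - M (i x y))) ≤ V x y :=
      Finset.single_le_sum (f := fun j => Real.exp (t * (F j x y - M j)))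
        (fun j _ => (Real.exp_pos _).le) (hi x y hx hy)
    have hVpos : 0 < V x y := (Real.exp_pos _).trans_le h1
    have h2 : t * (F (i x y) x y - M (i x y)) ≤ Real.log (V x y) := by
      rw [Real.le_log_iff_exp_le hVpos]
      exact h1
    have h3 : Real.log (V x y) ≤ V x y / K + Real.log K - 1 := by
      have h4 := Real.log_le_sub_one_of_pos (div_pos hVpos hK0)
      rw [Real.log_div hVpos.ne' hK0.ne'] at h4
      linarith
    have h5 : t * (F (i x y) x y - M (i x y)) ≤
        t * (1 / (t * K) * V x y + (Real.log K - 1) / t) := by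
      have h6 : t * (1 / (t * K) * V x y + (Real.log K - 1) / t) =
          V x y / K + Real.log K - 1 := by
        field_simp
        ring
      rw [h6]
      exact h2.trans h3
    exact le_of_mul_le_mul_left h5 ht
  calc EL mu n (fun x => EL nu m (fun y => F (i x y) x y - M (i x y))) ≤
        EL mu n (fun x => EL nu m (fun y => 1 / (t * K) * V x y + (Real.log K - 1) / t)) :=
        EL_mono hmu fun x hx => EL_mono hnu fun y hy => hpt x hx y hy
    _ = 1 / (t * K) * EL mu n (fun x => EL nu m (fun y => V x y)) + (Real.log K - 1) / t :=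
        mcd2_affine hmu hnu n m V _ _
    _ ≤ 1 / (t * K) * K + (Real.log K - 1) / t :=
        add_le_add (mul_le_mul_of_nonneg_left hEV (by positivity)) le_rfl
    _ = Real.log S.card / t + t * c ^ 2 * (n + m) / 2 := by
        rw [hlogK]
        field_simp
        ring

end LCSV
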