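import Pool.Agent.LCSV.PerBlock
import Pool.Agent.LCSV.BlkE
import Pool.Agent.LCSV.McD2
import Pool.Agent.LCSV.Cnt

/-!
# Replacing a block of the uniform word by w increases the expected lcs, on average over the blocks

Let delta, lam be from perblock, t = delta/(16 (2+lam)^2), K0 so large that (1/K)(1 + log (K+1)) <= delta t / 16 for K >= K0, and K >= max(K0, 1), w from perblock.
For n large let N = n / K (so N K <= n < (N+1) K), S from cnt N n K. For ms in S let
Psi ms X Y = Ws w ms Y - Bs K ms X Y - lam Gs K ms X Y. Its differences are at most 2 + lam (Blk). Select J(X,Y) = an optimal ms (blk_opt with Y.length = n).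
emax_le applied to F = - Psi, c = 2 + lam: E[ -Psi_J + (E Psi)_J ] <= log card S / t + t (2+lam)^2 n, i.e.
E Psi_J >= E[(E Psi)_J] - err, err = (n/K + N log (K+1))/t + t (2+lam)^2 n <= (n/t)(1 + log(K+1))/K + delta n/16 <= delta n/8.
For ms in S: E Psi ms = sum over b of (E lcs w Y_(m_b) - vK K m_b) - lam E Gs >= sum_b (u - v - lam v)(m_b) - lam K >= sum_b (delta K - lam gam/2 (K + m_b)) - lam K
>= delta K N - lam gam n - lam K (K N + sum m_b <= 2 n, gam >= 0).
Gs_J = lcs, so E[Ws_J - Bs_J] = E Psi_J + lam E lcs >= delta K N - lam (gam n - vK n n) - lam K - delta n/8, and gam n - vK n n <= eps n with eps = delta/(8 (lam+1)) for n large.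
By blk_repl: sum_b E lcs(repl b) - N E lcs >= E[Ws_J - Bs_J] >= delta n - delta K - delta n/8 - lam K - delta n/8 >= (delta/2) n for n large.
-/

namespace LCSV

open Finset

/-- nested expectation, used for bookkeeping -/
private noncomputable def abE (k n : ℕ) (F : List (Fin k) → List (Fin k) → ℝ) : ℝ :=
  EL (un k) n (fun X => EL (un k) n (fun Y => F X Y))

private theorem abE_mono {k n : ℕ} (hk : 0 < k) {F G : List (Fin k) → List (Fin k) → ℝ}
    (h : ∀ X Y, X.length = n → Y.length = n → F X Y ≤ G X Y) : abE k n F ≤ abE k n G :=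
  EL_mono (un_isP hk) fun X hX => EL_mono (un_isP hk) fun Y hY => h X Y hX hY

private theorem abE_congr {k n : ℕ} {F G : List (Fin k) → List (Fin k) → ℝ}
    (h : ∀ X Y, X.length = n → Y.length = n → F X Y = G X Y) : abE k n F = abE k n G :=
  EL_congr fun X hX => EL_congr fun Y hY => h X Y hX hY

private theorem abE_add {k n : ℕ} (F G : List (Fin k) → List (Fin k) → ℝ) :
    abE k n (fun X Y => F X Y + G X Y) = abE k n F + abE k n G := by
  unfold abE
  rw [← EL_add]
  exact EL_congr fun X _ => EL_add n (F X) (G X)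

private theorem abE_sub {k n : ℕ} (F G : List (Fin k) → List (Fin k) → ℝ) :
    abE k n (fun X Y => F X Y - G X Y) = abE k n F - abE k n G := by
  unfold abE
  rw [← EL_sub]
  exact EL_congr fun X _ => EL_sub n (F X) (G X)

private theorem abE_mul {k n : ℕ} (c : ℝ) (F : List (Fin k) → List (Fin k) → ℝ) :
    abE k n (fun X Y => c * F X Y) = c * abE k n F := by
  unfold abE
  rw [← EL_mul_left]
  exact EL_congr fun X _ => EL_mul_left n c (F X)

private theorem abE_const {k : ℕ} (hk : 0 < k) (n : ℕ) (c : ℝ) :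
    abE k n (fun _ _ => c) = c := by
  unfold abE
  rw [EL_const (un_isP hk), EL_const (un_isP hk)]

private theorem abE_sum {k n : ℕ} {ι : Type*} (s : Finset ι)
    (F : ι → List (Fin k) → List (Fin k) → ℝ) :
    abE k n (fun X Y => ∑ i ∈ s, F i X Y) = ∑ i ∈ s, abE k n (F i) := by
  unfold abE
  rw [← EL_sum]
  exact EL_congr fun X _ => EL_sum n s (fun i => F i X)

/-- sums over the blocks -/
private theorem ab_msum (f g : ℕ → ℝ) (a b : ℝ) (h : ∀ m : ℕ, a + b * m ≤ f m - g m) :
    ∀ ms : List ℕ, a * ms.length + b * ms.sum ≤ (ms.map f).sum - (ms.map g).sum := by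
  intro ms
  induction ms with
  | nil => simp
  | cons m ms ih =>
    simp only [List.length_cons, List.map_cons, List.sum_cons, Nat.cast_add, Nat.cast_one]
    have := h m
    linarith

theorem abound : ∃ k0 : ℕ, ∀ k ≥ k0, ∃ (δ : ℝ) (K : ℕ) (w : List (Fin k)), 0 < δ ∧ 1 ≤ K ∧
    w.length = K ∧ ∃ n0 : ℕ, ∀ n ≥ n0,
      δ * n ≤ ∑ b ∈ range (n / K), (EL (un k) n (fun X => EL (un k) n (fun Y =>
        ((lcs (repl K w b X) Y : ℝ) - lcs X Y)))) := by
  classical
  obtain ⟨k1, hk1⟩ := perblock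
  refine ⟨max k1 1, fun k hk => ?_⟩
  have hk0 : 0 < k := by
    have := le_trans (le_max_right _ _) hk
    omega
  obtain ⟨d, lam, hd, hlam, hpb⟩ := hk1 k (le_trans (le_max_left _ _) hk)
  set c : ℝ := 2 + lam with hc
  have hc0 : 0 < c := by linarith
  set t : ℝ := d / (16 * c ^ 2) with ht
  have ht0 : 0 < t := by positivity
  have htc : t * c ^ 2 = d / 16 := by
    rw [ht]
    field_simp
  -- choice of K
  have hlim : ∃ K1 : ℕ, ∀ K : ℕ, K1 ≤ K → 1 + Real.log ((K : ℝ) + 1) ≤ d * t / 16 * K := by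
    have h1 : Filter.Tendsto (fun x : ℝ => Real.log x / x) Filter.atTop (nhds 0) := by
      have := Real.isLittleO_log_id_atTop.tendsto_div_nhds_zero
      simpa using this
    have h2 : 0 < d * t / 64 := by positivity
    have h3 := (h1.eventually (gt_mem_nhds h2))
    obtain ⟨x0, hx0⟩ := Filter.eventually_atTop.1 h3
    obtain ⟨K1, hK1⟩ := exists_nat_ge (max (max x0 1) (32 / (d * t)))
    refine ⟨K1, fun K hK => ?_⟩
    have hKr : (K1 : ℝ) ≤ K := by exact_mod_cast hK
    have hKx : x0 ≤ (K : ℝ) + 1 := by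
      have := (le_max_left x0 1).trans ((le_max_left _ _).trans hK1)
      linarith
    have hK1' : (1 : ℝ) ≤ K := by
      have := (le_max_right x0 1).trans ((le_max_left _ _).trans hK1)
      linarith
    have hK2 : 32 / (d * t) ≤ (K : ℝ) := ((le_max_right _ _).trans hK1).trans hKr
    have h4 := hx0 ((K : ℝ) + 1) hKx
    rw [div_lt_iff₀ (by linarith)] at h4
    have hdt : 0 < d * t := by positivity
    have h5 : 32 ≤ d * t * K := by
      rw [div_le_iff₀ hdt] at hK2
      linarith
    have h6 : d * t / 64 * ((K : ℝ) + 1) ≤ d * t / 64 * (2 * K) :=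
      mul_le_mul_of_nonneg_left (by linarith) h2.le
    nlinarith
  obtain ⟨K1, hK1⟩ := hlim
  obtain ⟨K, hKK, w, hw, hpbw⟩ := hpb (max K1 1)
  have hK1le : K1 ≤ K := (le_max_left _ _).trans hKK
  have hKpos : 1 ≤ K := (le_max_right _ _).trans hKK
  have hKr : (0 : ℝ) < K := by exact_mod_cast hKpos
  have hlog := hK1 K hK1le
  set ε : ℝ := d / (8 * (lam + 1)) with hε
  have hε0 : 0 < ε := by positivity
  have hlε : lam * ε ≤ d / 8 := by
    rw [hε, mul_div_assoc', div_le_div_iff₀ (by positivity) (by norm_num)]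
    nlinarith
  obtain ⟨n1, hn1⟩ := vK_diag_ge hk0 ε hε0
  obtain ⟨n2, hn2⟩ := exists_nat_ge (4 * (d + lam) * K / d)
  refine ⟨d / 2, K, w, by positivity, hKpos, hw, max n1 n2, fun n hn => ?_⟩
  have hnn1 : n1 ≤ n := (le_max_left _ _).trans hn
  have hnn2 : (n2 : ℝ) ≤ n := by exact_mod_cast (le_max_right _ _).trans hn
  have hvK := hn1 n hnn1
  have hnbig : 4 * (d + lam) * K ≤ d * n := by
    have := hn2.trans hnn2
    rw [div_le_iff₀ hd] at this
    linarith
  set N : ℕ := n / K with hN
  have hNK : N * K ≤ n := Nat.div_mul_le_self n K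
  have hNKr : (N : ℝ) * K ≤ n := by exact_mod_cast hNK
  have hNK2 : (n : ℝ) ≤ N * K + K := by
    have h1 : n < N * K + K := by
      have := Nat.lt_div_mul_add (a := n) hKpos
      rw [hN]
      exact this
    exact_mod_cast h1.le
  obtain ⟨S, hS, hScard⟩ := cnt N n K hKpos
  -- the functions
  set Psi : List ℕ → List (Fin k) → List (Fin k) → ℝ := fun ms X Y =>
    (Ws w ms Y : ℝ) - Bs K ms X Y - lam * Gs K ms X Y with hPsi
  have hopt : ∀ X Y : List (Fin k), ∃ ms : List ℕ, ms.length = N ∧ ms.sum ≤ Y.length ∧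
      Gs K ms X Y = lcs X Y := fun X Y => blk_opt K N X Y
  choose J hJ1 hJ2 hJ3 using hopt
  have hJS : ∀ X Y : List (Fin k), X.length = n → Y.length = n → J X Y ∈ S := by
    intro X Y _ hY
    rw [hS]
    exact ⟨hJ1 X Y, hY ▸ hJ2 X Y⟩
  -- expectation of Psi
  have hEPsi : ∀ ms ∈ S, d * K * N - lam * gam k * n - lam * K ≤ abE k n (Psi ms) := by
    intro ms hms
    rw [hS] at hms
    obtain ⟨hl, hs⟩ := hms
    have e1 : abE k n (Psi ms) = abE k n (fun _ Y => (Ws w ms Y : ℝ)) -
        abE k n (fun X Y => (Bs K ms X Y : ℝ)) - lam * abE k n (fun X Y => (Gs K ms X Y : ℝ)) := by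
      rw [← abE_mul, ← abE_sub, ← abE_sub]
    have e2 : abE k n (fun _ Y => (Ws w ms Y : ℝ)) =
        (ms.map (fun m => EL (un k) m (fun Y => (lcs w Y : ℝ)))).sum := by
      unfold abE
      rw [EL_const (un_isP hk0)]
      exact E_Ws k hk0 w ms n hs
    have e3 : abE k n (fun X Y => (Bs K ms X Y : ℝ)) = (ms.map (fun m => vK k K m)).sum :=
      E_Bs k hk0 K ms n n (by rw [hl]; exact hNK) hs
    have e4 : abE k n (fun X Y => (Gs K ms X Y : ℝ)) ≤
        (ms.map (fun m => vK k K m)).sum + ((n : ℝ) - ms.length * K) :=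
      E_Gs_le k hk0 K ms n n (by rw [hl]; exact hNK) hs
    have e5 := ab_msum (fun m => EL (un k) m (fun Y => (lcs w Y : ℝ)))
      (fun m => (1 + lam) * vK k K m) (d * K - lam * gam k / 2 * K) (-(lam * gam k / 2)) (by
        intro m
        have := hpbw m
        nlinarith) ms
    have e6 : (ms.map (fun m => (1 + lam) * vK k K m)).sum =
        (1 + lam) * (ms.map (fun m => vK k K m)).sum :=
      List.sum_map_mul_left _ _ _
    rw [e6, hl] at e5
    rw [hl] at e4
    rw [e1, e2, e3]
    have hsr : ((ms.sum : ℕ) : ℝ) ≤ n := by exact_mod_cast hs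
    have hg := gam_nonneg hk0
    have hlg : 0 ≤ lam * gam k := mul_nonneg hlam hg
    have e7 : lam * abE k n (fun X Y => (Gs K ms X Y : ℝ)) ≤
        lam * ((ms.map (fun m => vK k K m)).sum + K) :=
      mul_le_mul_of_nonneg_left (by linarith) hlam
    have e8 : lam * gam k * (N * K + (ms.sum : ℕ)) ≤ lam * gam k * (2 * n) :=
      mul_le_mul_of_nonneg_left (by linarith) hlg
    nlinarith
  -- differences
  have hem := emax_le (un_isP hk0) (un_isP hk0) n n S (fun ms X Y => -Psi ms X Y) c hc0.le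
    (by
      intro ms _ l1 l2 x x' Y _ _
      have h1 := Bs_diff_left K ms l1 l2 Y x x'
      have h2 := Gs_diff_left K ms l1 l2 Y x x'
      rw [abs_le] at h1 h2 ⊢
      have h3 : -Psi ms (l1 ++ x :: l2) Y - -Psi ms (l1 ++ x' :: l2) Y =
          ((Bs K ms (l1 ++ x :: l2) Y : ℝ) - Bs K ms (l1 ++ x' :: l2) Y) +
          lam * ((Gs K ms (l1 ++ x :: l2) Y : ℝ) - Gs K ms (l1 ++ x' :: l2) Y) := by
        simp only [hPsi]
        ring
      have h4 := mul_le_mul_of_nonneg_left h2.1 hlam
      have h5 := mul_le_mul_of_nonneg_left h2.2 hlam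
      rw [h3]
      constructor
      · linarith [h1.1]
      · linarith [h1.2])
    (by
      intro ms _ X l1 l2 y y' _ _
      have h0 := Ws_diff w ms l1 l2 y y'
      have h1 := Bs_diff_right K ms X l1 l2 y y'
      have h2 := Gs_diff_right K ms X l1 l2 y y'
      rw [abs_le] at h0 h1 h2 ⊢
      have h3 : -Psi ms X (l1 ++ y :: l2) - -Psi ms X (l1 ++ y' :: l2) =
          -((Ws w ms (l1 ++ y :: l2) : ℝ) - Ws w ms (l1 ++ y' :: l2)) +
          ((Bs K ms X (l1 ++ y :: l2) : ℝ) - Bs K ms X (l1 ++ y' :: l2)) +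
          lam * ((Gs K ms X (l1 ++ y :: l2) : ℝ) - Gs K ms X (l1 ++ y' :: l2)) := by
        simp only [hPsi]
        ring
      have h4 := mul_le_mul_of_nonneg_left h2.1 hlam
      have h5 := mul_le_mul_of_nonneg_left h2.2 hlam
      rw [h3]
      constructor
      · linarith [h0.2, h1.1]
      · linarith [h0.1, h1.2])
    t ht0 J hJS
  have hem' : abE k n (fun X Y => -Psi (J X Y) X Y - abE k n (fun X' Y' => -Psi (J X Y) X' Y')) ≤
      Real.log S.card / t + t * c ^ 2 * ((n : ℝ) + n) / 2 := hem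
  -- the cardinality
  have hlogS : Real.log S.card / t ≤ d * n / 16 := by
    rw [div_le_iff₀ ht0]
    have h0 : Real.log S.card ≤ (n : ℝ) / K + N * Real.log ((K : ℝ) + 1) := by
      rcases Nat.eq_zero_or_pos S.card with h | h
      · rw [h]
        simp only [Nat.cast_zero, Real.log_zero]
        have : 0 ≤ Real.log ((K : ℝ) + 1) := Real.log_nonneg (by linarith)
        positivity
      · have hSr : (0 : ℝ) < S.card := by exact_mod_cast h
        have h1 := Real.log_le_log hSr hScard
        rw [Real.log_mul (Real.exp_pos _).ne' (by positivity), Real.log_exp, Real.log_pow] at h1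
        exact h1
    have h1 : (N : ℝ) ≤ n / K := by
      rw [le_div_iff₀ hKr]
      exact hNKr
    have h2 : 0 ≤ Real.log ((K : ℝ) + 1) := Real.log_nonneg (by linarith)
    have h3 : (N : ℝ) * Real.log ((K : ℝ) + 1) ≤ n / K * Real.log ((K : ℝ) + 1) :=
      mul_le_mul_of_nonneg_right h1 h2
    have h4 : (n : ℝ) / K * (1 + Real.log ((K : ℝ) + 1)) ≤ n / K * (d * t / 16 * K) :=
      mul_le_mul_of_nonneg_left hlog (by positivity)
    have h5 : (n : ℝ) / K * (d * t / 16 * K) = d * n / 16 * t := by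
      field_simp
    linarith
  have herr : Real.log S.card / t + t * c ^ 2 * ((n : ℝ) + n) / 2 ≤ d * n / 8 := by
    rw [htc]
    linarith
  -- lower bound for E Psi_J
  have hPJ : d * K * N - lam * gam k * n - lam * K - d * n / 8 ≤
      abE k n (fun X Y => Psi (J X Y) X Y) := by
    have h1 : abE k n (fun X Y => (d * K * N - lam * gam k * n - lam * K) - Psi (J X Y) X Y) ≤
        abE k n (fun X Y => -Psi (J X Y) X Y - abE k n (fun X' Y' => -Psi (J X Y) X' Y')) := by
      refine abE_mono hk0 fun X Y hX hY => ?_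
      have h2 := hEPsi (J X Y) (hJS X Y hX hY)
      have h3 : abE k n (fun X' Y' => -Psi (J X Y) X' Y') = -abE k n (Psi (J X Y)) := by
        have h4 := abE_mul (k := k) (n := n) (-1) (Psi (J X Y))
        simpa using h4
      rw [h3]
      linarith
    rw [abE_sub, abE_const hk0] at h1
    linarith
  -- E Psi_J in terms of E (Ws - Bs)
  have hPJ2 : abE k n (fun X Y => Psi (J X Y) X Y) =
      abE k n (fun X Y => (Ws w (J X Y) Y : ℝ) - Bs K (J X Y) X Y) - lam * vK k n n := by
    have h1 : lam * vK k n n = abE k n (fun X Y => lam * (lcs X Y : ℝ)) := by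
      rw [abE_mul]
      rfl
    rw [h1, ← abE_sub]
    refine abE_congr fun X Y _ _ => ?_
    simp only [hPsi]
    rw [hJ3]
  -- conclusion
  have hfin : abE k n (fun X Y => (Ws w (J X Y) Y : ℝ) - Bs K (J X Y) X Y) ≤
      ∑ b ∈ range N, abE k n (fun X Y => (lcs (repl K w b X) Y : ℝ) - lcs X Y) := by
    rw [← abE_sum]
    refine abE_mono hk0 fun X Y hX _ => ?_
    have h1 := blk_repl K w (J X Y) X Y (by rw [hJ1, hX]; exact hNK)
    rw [hJ1, hJ3] at h1
    have h2 : ((N : ℝ) * lcs X Y + Ws w (J X Y) Y) ≤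
        (∑ b ∈ range N, (lcs (repl K w b X) Y : ℝ)) + Bs K (J X Y) X Y := by exact_mod_cast h1
    rw [Finset.sum_sub_distrib, Finset.sum_const, Finset.card_range, nsmul_eq_mul]
    linarith
  have hgoal : d / 2 * n ≤
      ∑ b ∈ range N, abE k n (fun X Y => (lcs (repl K w b X) Y : ℝ) - lcs X Y) := by
    refine le_trans ?_ hfin
    have h1 : lam * ((gam k - ε) * n) ≤ lam * vK k n n := mul_le_mul_of_nonneg_left hvK hlam
    have h2 : lam * ε * n ≤ d / 8 * n := mul_le_mul_of_nonneg_right hlε (by positivity)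
    have h3 : d * n ≤ d * (N * K + K) := mul_le_mul_of_nonneg_left hNK2 hd.le
    nlinarith
  exact hgoal

end LCSV
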