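import Pool.Agent.LCSV.ELa

/-!
# Uniform letters, Bernoulli bits, rows

un_isP, be_isP: computation. E2 is the nested expectation; its properties follow from those of EL.
E2_append: EL_append for both, and EL_comm (EL (un k) n and EL (be a) m commute) to reorder.
-/

namespace LCSV

open Finset

theorem un_isP {k : ℕ} (hk : 0 < k) : IsP (un k) := by
  have h : (0 : ℝ) < k := by exact_mod_cast hk
  refine ⟨fun _ => by unfold un; positivity, ?_⟩
  unfold un
  rw [Finset.sum_const, Finset.card_univ, Fintype.card_fin, nsmul_eq_mul]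
  field_simp

theorem be_isP {a : ℝ} (h0 : 0 ≤ a) (h1 : a ≤ 1) : IsP (be a) := by
  refine ⟨fun b => ?_, ?_⟩
  · unfold be
    split_ifs
    · exact h0
    · linarith
  · simp [be]

theorem be_sum (a : ℝ) : ∑ b, be a b = 1 := by
  simp [be]

variable {k : ℕ} {a : ℝ}

theorem E2_congr {n : ℕ} {F G : List (Fin k) → List Bool → ℝ}
    (h : ∀ X b, X.length = n → b.length = n → F X b = G X b) : E2 k a n F = E2 k a n G := by
  unfold E2
  exact EL_congr fun X hX => EL_congr fun b hb => h X b hX hb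

theorem E2_add (n : ℕ) (F G : List (Fin k) → List Bool → ℝ) :
    E2 k a n (fun X b => F X b + G X b) = E2 k a n F + E2 k a n G := by
  unfold E2
  rw [← EL_add]
  exact EL_congr fun X _ => EL_add n (F X) (G X)

theorem E2_sub (n : ℕ) (F G : List (Fin k) → List Bool → ℝ) :
    E2 k a n (fun X b => F X b - G X b) = E2 k a n F - E2 k a n G := by
  unfold E2
  rw [← EL_sub]
  exact EL_congr fun X _ => EL_sub n (F X) (G X)

theorem E2_mul_left (n : ℕ) (c : ℝ) (F : List (Fin k) → List Bool → ℝ) :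
    E2 k a n (fun X b => c * F X b) = c * E2 k a n F := by
  unfold E2
  rw [← EL_mul_left]
  exact EL_congr fun X _ => EL_mul_left n c (F X)

theorem E2_sum {ι : Type*} (n : ℕ) (s : Finset ι) (F : ι → List (Fin k) → List Bool → ℝ) :
    E2 k a n (fun X b => ∑ i ∈ s, F i X b) = ∑ i ∈ s, E2 k a n (F i) := by
  unfold E2
  rw [← EL_sum]
  exact EL_congr fun X _ => EL_sum n s (fun i => F i X)

theorem E2_const (hk : 0 < k) (h0 : 0 ≤ a) (h1 : a ≤ 1) (n : ℕ) (c : ℝ) :
    E2 k a n (fun _ _ => c) = c := by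
  show EL (un k) n (fun _ => EL (be a) n (fun _ => c)) = c
  rw [EL_const (be_isP h0 h1), EL_const (un_isP hk)]

theorem E2_mono (hk : 0 < k) (h0 : 0 ≤ a) (h1 : a ≤ 1) {n : ℕ}
    {F G : List (Fin k) → List Bool → ℝ}
    (h : ∀ X b, X.length = n → b.length = n → F X b ≤ G X b) : E2 k a n F ≤ E2 k a n G := by
  unfold E2
  exact EL_mono (un_isP hk) fun X hX => EL_mono (be_isP h0 h1) fun b hb => h X b hX hb

theorem E2_nonneg (hk : 0 < k) (h0 : 0 ≤ a) (h1 : a ≤ 1) {n : ℕ}
    {F : List (Fin k) → List Bool → ℝ}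
    (h : ∀ X b, X.length = n → b.length = n → 0 ≤ F X b) : 0 ≤ E2 k a n F := by
  unfold E2
  exact EL_nonneg (un_isP hk) fun X hX => EL_nonneg (be_isP h0 h1) fun b hb => h X b hX hb

theorem E2_append (m n : ℕ) (F : List (Fin k) → List Bool → ℝ) :
    E2 k a (m + n) F =
      E2 k a m (fun X1 b1 => E2 k a n (fun X2 b2 => F (X1 ++ X2) (b1 ++ b2))) := by
  unfold E2
  rw [EL_append]
  refine EL_congr fun X1 _ => ?_
  rw [← EL_comm (mu := un k) (nu := be a) n m
    (fun X2 b1 => EL (be a) n (fun b2 => F (X1 ++ X2) (b1 ++ b2)))]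
  refine EL_congr fun X2 _ => ?_
  rw [EL_append]

/-- one row -/
theorem E2_one (F : List (Fin k) → List Bool → ℝ) :
    E2 k a 1 F = ∑ x : Fin k, 1 / (k : ℝ) * (a * F [x] [true] + (1 - a) * F [x] [false]) := by
  unfold E2
  show ∑ x : Fin k, un k x * (∑ b : Bool, be a b * F [x] [b]) = _
  refine Finset.sum_congr rfl fun x _ => ?_
  rw [Fintype.sum_bool]
  simp [un, be]

end LCSV
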