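import Pool.Agent.LCSV.Core

/-!
# Basic properties of the Bernoulli expectation Ex over subsets of range n

Ex_const: sum over s in powerset (range n) of a^|s| (1-a)^(n-|s|) = (a + (1-a))^n = 1
(Finset.sum_pow_mul_eq_add_pow or Finset.prod_add). Ex_card: mean of the binomial distribution: write s.card as the
sum over i in range n of the indicator of i in s, or induction on n.
Ex_cs: Cauchy-Schwarz for the weights (Finset.sum_mul_sq_le_sq_mul_sq applied to sqrt(wt) F and sqrt(wt) G).
ind_le_one etc. are trivial.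
-/

namespace LCSV

open Finset

theorem ind_nonneg (p : Prop) : 0 ≤ ind p := by
  unfold ind
  split_ifs <;> norm_num

theorem ind_le_one (p : Prop) : ind p ≤ 1 := by
  unfold ind
  split_ifs <;> norm_num

theorem ind_true {p : Prop} (h : p) : ind p = 1 := by
  unfold ind
  rw [if_pos h]

theorem ind_false {p : Prop} (h : ¬ p) : ind p = 0 := by
  unfold ind
  rw [if_neg h]

theorem ind_mono {p q : Prop} (h : p → q) : ind p ≤ ind q := by
  by_cases hp : p
  · rw [ind_true hp, ind_true (h hp)]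
  · rw [ind_false hp]
    exact ind_nonneg q

theorem ind_or_le (p q : Prop) : ind (p ∨ q) ≤ ind p + ind q := by
  by_cases hp : p
  · rw [ind_true (Or.inl hp : p ∨ q), ind_true hp]
    linarith [ind_nonneg q]
  · by_cases hq : q
    · rw [ind_true (Or.inr hq : p ∨ q), ind_true hq]
      linarith [ind_nonneg p]
    · rw [ind_false (fun h => h.elim hp hq : ¬ (p ∨ q))]
      linarith [ind_nonneg p, ind_nonneg q]

theorem ind_and (p q : Prop) : ind (p ∧ q) = ind p * ind q := by
  by_cases hp : p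
  · by_cases hq : q
    · rw [ind_true (⟨hp, hq⟩ : p ∧ q), ind_true hp, ind_true hq, one_mul]
    · rw [ind_false (fun h => hq h.2 : ¬ (p ∧ q)), ind_false hq, mul_zero]
  · rw [ind_false (fun h => hp h.1 : ¬ (p ∧ q)), ind_false hp, zero_mul]

theorem ind_not (p : Prop) : ind (¬ p) = 1 - ind p := by
  by_cases hp : p
  · rw [ind_false (fun h => h hp : ¬ ¬ p), ind_true hp, sub_self]
  · rw [ind_true hp, ind_false hp, sub_zero]

variable {a : ℝ} {n : ℕ}

theorem wt_nonneg (h0 : 0 ≤ a) (h1 : a ≤ 1) (s : Finset ℕ) : 0 ≤ wt a n s := by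
  unfold wt
  exact mul_nonneg (pow_nonneg h0 _) (pow_nonneg (by linarith) _)

theorem Ex_congr {F G : Finset ℕ → ℝ} (h : ∀ s ⊆ range n, F s = G s) : Ex a n F = Ex a n G := by
  unfold Ex
  refine Finset.sum_congr rfl fun s hs => ?_
  rw [h s (Finset.mem_powerset.1 hs)]

theorem Ex_add (F G : Finset ℕ → ℝ) : Ex a n (fun s => F s + G s) = Ex a n F + Ex a n G := by
  unfold Ex
  rw [← Finset.sum_add_distrib]
  exact Finset.sum_congr rfl fun s _ => mul_add _ _ _

theorem Ex_sub (F G : Finset ℕ → ℝ) : Ex a n (fun s => F s - G s) = Ex a n F - Ex a n G := by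
  unfold Ex
  rw [← Finset.sum_sub_distrib]
  exact Finset.sum_congr rfl fun s _ => mul_sub _ _ _

theorem Ex_mul_left (c : ℝ) (F : Finset ℕ → ℝ) : Ex a n (fun s => c * F s) = c * Ex a n F := by
  unfold Ex
  rw [Finset.mul_sum]
  exact Finset.sum_congr rfl fun s _ => by ring

theorem Ex_sum {ι : Type*} (t : Finset ι) (F : ι → Finset ℕ → ℝ) :
    Ex a n (fun s => ∑ i ∈ t, F i s) = ∑ i ∈ t, Ex a n (F i) := by
  unfold Ex
  rw [Finset.sum_comm]
  exact Finset.sum_congr rfl fun s _ => Finset.mul_sum _ _ _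

theorem exa_succ (F : Finset ℕ → ℝ) :
    Ex a (n + 1) F = a * Ex a n (fun s => F (insert n s)) + (1 - a) * Ex a n F := by
  have hn : n ∉ range n := Finset.notMem_range_self
  unfold Ex
  rw [Finset.range_add_one, Finset.sum_powerset_insert hn, add_comm, Finset.mul_sum,
    Finset.mul_sum]
  congr 1
  · refine Finset.sum_congr rfl fun s hs => ?_
    have hs1 : s ⊆ range n := Finset.mem_powerset.1 hs
    have hns : n ∉ s := fun h => hn (hs1 h)
    unfold wt
    rw [Finset.card_insert_of_notMem hns, Nat.add_sub_add_right, pow_succ]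
    ring
  · refine Finset.sum_congr rfl fun s hs => ?_
    have hs1 : s ⊆ range n := Finset.mem_powerset.1 hs
    have hc : s.card ≤ n := by simpa using Finset.card_le_card hs1
    unfold wt
    rw [Nat.succ_sub hc, pow_succ]
    ring

theorem Ex_const (c : ℝ) : Ex a n (fun _ => c) = c := by
  induction n with
  | zero => simp [Ex, wt]
  | succ n ih =>
    rw [exa_succ, ih]
    ring

theorem Ex_mono (h0 : 0 ≤ a) (h1 : a ≤ 1) {F G : Finset ℕ → ℝ} (h : ∀ s ⊆ range n, F s ≤ G s) :
    Ex a n F ≤ Ex a n G := by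
  unfold Ex
  exact Finset.sum_le_sum fun s hs =>
    mul_le_mul_of_nonneg_left (h s (Finset.mem_powerset.1 hs)) (wt_nonneg h0 h1 s)

theorem Ex_nonneg (h0 : 0 ≤ a) (h1 : a ≤ 1) {F : Finset ℕ → ℝ} (h : ∀ s ⊆ range n, 0 ≤ F s) :
    0 ≤ Ex a n F := by
  unfold Ex
  exact Finset.sum_nonneg fun s hs =>
    mul_nonneg (wt_nonneg h0 h1 s) (h s (Finset.mem_powerset.1 hs))

theorem Ex_card : Ex a n (fun s => (s.card : ℝ)) = a * n := by
  induction n with
  | zero => simp [Ex, wt]
  | succ n ih =>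
    rw [exa_succ]
    have e : Ex a n (fun s => ((insert n s).card : ℝ)) = Ex a n (fun s => (s.card : ℝ) + 1) := by
      refine Ex_congr fun s hs => ?_
      have hns : n ∉ s := fun h => Finset.notMem_range_self (hs h)
      rw [Finset.card_insert_of_notMem hns]
      push_cast
      ring
    rw [e, Ex_add, Ex_const, ih]
    push_cast
    ring

theorem Ex_cs (h0 : 0 ≤ a) (h1 : a ≤ 1) (F G : Finset ℕ → ℝ) :
    (Ex a n (fun s => F s * G s)) ^ 2 ≤ Ex a n (fun s => F s ^ 2) * Ex a n (fun s => G s ^ 2) := by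
  have h := Finset.sum_mul_sq_le_sq_mul_sq (range n).powerset
    (fun s => Real.sqrt (wt a n s) * F s) (fun s => Real.sqrt (wt a n s) * G s)
  have hs : ∀ s : Finset ℕ, Real.sqrt (wt a n s) ^ 2 = wt a n s := fun s =>
    Real.sq_sqrt (wt_nonneg h0 h1 s)
  unfold Ex
  have e1 : ∑ s ∈ (range n).powerset, wt a n s * (F s * G s) =
      ∑ s ∈ (range n).powerset, Real.sqrt (wt a n s) * F s * (Real.sqrt (wt a n s) * G s) := by
    refine Finset.sum_congr rfl fun s _ => ?_
    have e3 : Real.sqrt (wt a n s) * F s * (Real.sqrt (wt a n s) * G s) =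
        Real.sqrt (wt a n s) ^ 2 * (F s * G s) := by ring
    rw [e3, hs s]
  have e2 : ∀ H : Finset ℕ → ℝ, ∑ s ∈ (range n).powerset, wt a n s * H s ^ 2 =
      ∑ s ∈ (range n).powerset, (Real.sqrt (wt a n s) * H s) ^ 2 := by
    intro H
    refine Finset.sum_congr rfl fun s _ => ?_
    rw [mul_pow, hs s]
  rw [e1, e2 F, e2 G]
  exact h

/-- variance of the binomial distribution, upper bound -/
theorem Ex_card_var (h0 : 0 ≤ a) (h1 : a ≤ 1) :
    Ex a n (fun s => ((s.card : ℝ) - a * n) ^ 2) ≤ a * n := by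
  induction n with
  | zero => simp [Ex, wt]
  | succ n ih =>
    rw [exa_succ]
    have e1 : Ex a n (fun s => (((insert n s).card : ℝ) - a * ((n + 1 : ℕ) : ℝ)) ^ 2) =
        Ex a n (fun s => ((s.card : ℝ) - a * n) ^ 2) +
          2 * (1 - a) * (Ex a n (fun s => (s.card : ℝ)) - a * n) + (1 - a) ^ 2 := by
      have e : Ex a n (fun s => (((insert n s).card : ℝ) - a * ((n + 1 : ℕ) : ℝ)) ^ 2) =
          Ex a n (fun s => (((s.card : ℝ) - a * n) ^ 2 + 2 * (1 - a) * ((s.card : ℝ) - a * n)) +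
            (1 - a) ^ 2) := by
        refine Ex_congr fun s hs => ?_
        have hns : n ∉ s := fun h => Finset.notMem_range_self (hs h)
        rw [Finset.card_insert_of_notMem hns]
        push_cast
        ring
      rw [e, Ex_add, Ex_add, Ex_const, Ex_mul_left, Ex_sub, Ex_const]
    have e2 : Ex a n (fun s => ((s.card : ℝ) - a * ((n + 1 : ℕ) : ℝ)) ^ 2) =
        Ex a n (fun s => ((s.card : ℝ) - a * n) ^ 2) +
          (-(2 * a)) * (Ex a n (fun s => (s.card : ℝ)) - a * n) + a ^ 2 := by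
      have e : Ex a n (fun s => ((s.card : ℝ) - a * ((n + 1 : ℕ) : ℝ)) ^ 2) =
          Ex a n (fun s => (((s.card : ℝ) - a * n) ^ 2 + (-(2 * a)) * ((s.card : ℝ) - a * n)) +
            a ^ 2) := by
        refine Ex_congr fun s _ => ?_
        push_cast
        ring
      rw [e, Ex_add, Ex_add, Ex_const, Ex_mul_left, Ex_sub, Ex_const]
    rw [e1, e2, Ex_card]
    push_cast
    nlinarith [mul_nonneg h0 h0]

end LCSV
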