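import Pool.Agent.LCSV.Blk
import Pool.Agent.LCSV.ELb
import Pool.Agent.LCSV.Exa

/-!
# Lower bound for the variance

Write E for the double expectation over X, Y of length n, V = E (L - E L)^2 with L = lcs X Y, p = (1/k)^K,
T X = sum over b < N of (ind ((X.drop (b K)).take K = w) - p), N = n / K. E of ind (block b = w) F(X) = p E F(repl K w b X) (EL_append at b K and (b+1) K: b < N so
(b+1) K <= n). So E[L T] = p sum_b (E lcs(repl b) - E L) >= p D, E T = 0, E T^2 = N p (1-p) <= N p (independence of different blocks).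
Cauchy-Schwarz: (p D)^2 <= (E (L - E L) T)^2 <= V N p, so V >= p D^2 / N.
-/

namespace LCSV

open Finset

theorem acov_pick (k : ℕ) (K : ℕ) (w : List (Fin k)) (hw : w.length = K)
    (G : List (Fin k) → ℝ) :
    EL (un k) K (fun l => ind (l = w) * G l) = (1 / (k : ℝ)) ^ K * G w := by
  induction K generalizing w G with
  | zero =>
    have : w = [] := List.length_eq_zero_iff.1 hw
    subst this
    simp [EL, ind]
  | succ K ih =>
    obtain ⟨a, w', rfl⟩ : ∃ a w', w = a :: w' := by
      cases w with
      | nil => simp at hw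
      | cons a w' => exact ⟨a, w', rfl⟩
    have hw' : w'.length = K := by simpa using hw
    show ∑ x, un k x * EL (un k) K (fun l => ind (x :: l = a :: w') * G (x :: l)) = _
    rw [Finset.sum_eq_single a]
    · have h1 : EL (un k) K (fun l => ind (a :: l = a :: w') * G (a :: l)) =
          EL (un k) K (fun l => ind (l = w') * (fun l => G (a :: l)) l) := by
        refine EL_congr fun l _ => ?_
        have : (a :: l = a :: w') = (l = w') := by simp
        simp only [this]
      rw [h1, ih w' hw' (fun l => G (a :: l))]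
      simp only [un]
      ring
    · intro b _ hb
      have h1 : EL (un k) K (fun l => ind (b :: l = a :: w') * G (b :: l)) =
          EL (un k) K (fun _ => 0 * (0 : ℝ)) := by
        refine EL_congr fun l _ => ?_
        rw [ind_false (fun h => hb (List.cons.inj h).1)]
        simp
      rw [h1, EL_mul_left]
      simp
    · intro h
      exact absurd (Finset.mem_univ a) h

theorem acov_key (k : ℕ) (hk : 0 < k) (n K : ℕ) (w : List (Fin k)) (hw : w.length = K)
    (b : ℕ) (hb : (b + 1) * K ≤ n) (F : List (Fin k) → ℝ) :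
    EL (un k) n (fun X => ind ((X.drop (b * K)).take K = w) * F X) =
      (1 / (k : ℝ)) ^ K * EL (un k) n (fun X => F (repl K w b X)) := by
  obtain ⟨m, hm⟩ : ∃ m, n = b * K + (K + m) := ⟨n - (b + 1) * K, by
    have : (b + 1) * K = b * K + K := by ring
    omega⟩
  subst hm
  have hb1 : (b + 1) * K = b * K + K := by ring
  rw [EL_append, EL_append, ← EL_mul_left]
  refine EL_congr fun l1 h1 => ?_
  rw [EL_append, EL_append]
  have e1 : EL (un k) K (fun l2 => EL (un k) m (fun l3 =>
      ind (((l1 ++ (l2 ++ l3)).drop (b * K)).take K = w) * F (l1 ++ (l2 ++ l3)))) =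
      EL (un k) K (fun l2 => ind (l2 = w) *
        (fun l2 => EL (un k) m (fun l3 => F (l1 ++ (l2 ++ l3)))) l2) := by
    refine EL_congr fun l2 h2 => ?_
    rw [← EL_mul_left]
    refine EL_congr fun l3 _ => ?_
    have : ((l1 ++ (l2 ++ l3)).drop (b * K)).take K = l2 := by
      rw [← h1, List.drop_left, ← h2, List.take_left]
    rw [this]
  rw [e1, acov_pick k K w hw]
  congr 1
  have e2 : EL (un k) K (fun l2 => EL (un k) m (fun l3 => F (repl K w b (l1 ++ (l2 ++ l3))))) =
      EL (un k) K (fun _ => EL (un k) m (fun l3 => F (l1 ++ (w ++ l3)))) := by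
    refine EL_congr fun l2 h2 => ?_
    refine EL_congr fun l3 _ => ?_
    have : repl K w b (l1 ++ (l2 ++ l3)) = l1 ++ (w ++ l3) := by
      unfold repl
      rw [hb1, ← h1, List.take_left, ← List.drop_drop, List.drop_left]
      conv_lhs => rw [← h2]
      rw [List.drop_left]
    rw [this]
  rw [e2, EL_const (un_isP hk)]

theorem acov_repl {k : ℕ} (n K : ℕ) (w : List (Fin k)) (hw : w.length = K) (b c : ℕ)
    (hbc : b ≠ c) (hb : (b + 1) * K ≤ n) (X : List (Fin k)) (hX : X.length = n) :
    ((repl K w b X).drop (c * K)).take K = (X.drop (c * K)).take K := by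
  apply List.ext_getElem?
  intro i
  rw [List.getElem?_take, List.getElem?_take]
  split_ifs with hi
  · rw [List.getElem?_drop, List.getElem?_drop]
    unfold repl
    have hbK : (b + 1) * K = b * K + K := by ring
    have hl : (X.take (b * K)).length = b * K := by
      rw [List.length_take]
      omega
    rcases lt_or_gt_of_ne hbc with h | h
    · have h1 : (b + 1) * K ≤ c * K := Nat.mul_le_mul_right K h
      rw [List.getElem?_append_right (by omega), hl,
        List.getElem?_append_right (by omega), hw, List.getElem?_drop]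
      congr 1
      omega
    · have h1 : (c + 1) * K ≤ b * K := Nat.mul_le_mul_right K h
      have hcK : (c + 1) * K = c * K + K := by ring
      rw [List.getElem?_append_left (by omega), List.getElem?_take, if_pos (by omega)]
  · rfl

theorem acov_one (k : ℕ) (hk : 0 < k) (n K : ℕ) (w : List (Fin k)) (hw : w.length = K)
    (b : ℕ) (hb : (b + 1) * K ≤ n) :
    EL (un k) n (fun X => ind ((X.drop (b * K)).take K = w)) = (1 / (k : ℝ)) ^ K := by
  have h := acov_key k hk n K w hw b hb (fun _ => 1)
  simp only [mul_one] at h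
  rw [h, EL_const (un_isP hk), mul_one]

theorem acov (k : ℕ) (hk : 0 < k) (n K : ℕ) (w : List (Fin k)) (hK : 1 ≤ K) (hw : w.length = K)
    (D : ℝ) (hD : 0 ≤ D) (hn : K ≤ n)
    (h : D ≤ ∑ b ∈ range (n / K), (EL (un k) n (fun X => EL (un k) n (fun Y =>
        ((lcs (repl K w b X) Y : ℝ) - lcs X Y))))) :
    (1 / (k : ℝ)) ^ K * D ^ 2 / n ≤
      EL (un k) n (fun X => EL (un k) n (fun Y =>
        ((lcs X Y : ℝ) - EL (un k) n (fun X' => EL (un k) n (fun Y' => (lcs X' Y' : ℝ)))) ^ 2)) := by
  have hP : IsP (un k) := un_isP hk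
  set M : ℝ := EL (un k) n (fun X' => EL (un k) n (fun Y' => (lcs X' Y' : ℝ))) with hM
  set p : ℝ := (1 / (k : ℝ)) ^ K with hp
  have hp0 : 0 ≤ p := by positivity
  have hp1 : p ≤ 1 := by
    refine pow_le_one₀ (by positivity) ?_
    rw [div_le_one (by exact_mod_cast hk)]
    exact_mod_cast hk
  set N := n / K with hN
  have hbn : ∀ b ∈ range N, (b + 1) * K ≤ n := by
    intro b hb
    have h1 : b + 1 ≤ n / K := Finset.mem_range.1 hb
    calc (b + 1) * K ≤ (n / K) * K := Nat.mul_le_mul_right K h1
      _ ≤ n := Nat.div_mul_le_self n K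
  have hNpos : 0 < N := Nat.div_pos hn hK
  have hNn : (N : ℝ) ≤ n := by exact_mod_cast Nat.div_le_self n K
  have hNp : (0 : ℝ) < N := by exact_mod_cast hNpos
  let A : ℕ → List (Fin k) → ℝ := fun b X => ind ((X.drop (b * K)).take K = w)
  let T : List (Fin k) → ℝ := fun X => ∑ b ∈ range N, (A b X - p)
  have hA1 : ∀ b ∈ range N, EL (un k) n (A b) = p := fun b hb =>
    acov_one k hk n K w hw b (hbn b hb)
  have hAA : ∀ b ∈ range N, ∀ c ∈ range N, b ≠ c →
      EL (un k) n (fun X => A b X * A c X) = p * p := by
    intro b hb c hc hbc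
    have h1 := acov_key k hk n K w hw b (hbn b hb) (A c)
    have h2 : EL (un k) n (fun X => A c (repl K w b X)) = EL (un k) n (A c) := by
      refine EL_congr fun X hX => ?_
      show ind _ = ind _
      rw [acov_repl n K w hw b c hbc (hbn b hb) X hX]
    rw [h2, hA1 c hc] at h1
    exact h1
  have hAs : ∀ b ∈ range N, EL (un k) n (fun X => A b X * A b X) = p := by
    intro b hb
    rw [← hA1 b hb]
    refine EL_congr fun X _ => ?_
    show ind _ * ind _ = ind _
    rw [← ind_and, and_self]
  have hT2 : EL (un k) n (fun X => T X ^ 2) ≤ N * p := by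
    have e1 : EL (un k) n (fun X => T X ^ 2) =
        ∑ b ∈ range N, ∑ c ∈ range N, EL (un k) n (fun X => (A b X - p) * (A c X - p)) := by
      rw [← Finset.sum_congr rfl fun b _ => EL_sum n (range N)
        (fun c X => (A b X - p) * (A c X - p)), ← EL_sum]
      refine EL_congr fun X _ => ?_
      show (∑ b ∈ range N, (A b X - p)) ^ 2 = _
      rw [sq, Finset.sum_mul_sum]
    have e2 : ∀ b ∈ range N, ∀ c ∈ range N,
        EL (un k) n (fun X => (A b X - p) * (A c X - p)) =
          EL (un k) n (fun X => A b X * A c X) - p * p := by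
      intro b hb c hc
      have : EL (un k) n (fun X => (A b X - p) * (A c X - p)) =
          EL (un k) n (fun X => ((A b X * A c X - p * A b X) - p * A c X) + p * p) := by
        refine EL_congr fun X _ => ?_
        ring
      rw [this, EL_add, EL_sub, EL_sub, EL_mul_left, EL_mul_left, EL_const hP]
      have h1 : EL (un k) n (fun X => A b X) = p := hA1 b hb
      have h2 : EL (un k) n (fun X => A c X) = p := hA1 c hc
      rw [h1, h2]
      ring
    rw [e1]
    calc ∑ b ∈ range N, ∑ c ∈ range N, EL (un k) n (fun X => (A b X - p) * (A c X - p))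
        ≤ ∑ b ∈ range N, p := by
          refine Finset.sum_le_sum fun b hb => ?_
          rw [Finset.sum_eq_single b]
          · rw [e2 b hb b hb, hAs b hb]
            nlinarith
          · intro c hc hcb
            rw [e2 b hb c hc, hAA b hb c hc (Ne.symm hcb)]
            ring
          · intro h'
            exact absurd hb h'
      _ = N * p := by simp
  have hLT : p * D ≤ EL (un k) n (fun X => EL (un k) n (fun Y => ((lcs X Y : ℝ) - M) * T X)) := by
    have e1 : EL (un k) n (fun X => EL (un k) n (fun Y => ((lcs X Y : ℝ) - M) * T X)) =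
        ∑ b ∈ range N, EL (un k) n (fun X => (EL (un k) n (fun Y => (lcs X Y : ℝ)) - M) *
          (A b X - p)) := by
      rw [← EL_sum]
      refine EL_congr fun X _ => ?_
      rw [EL_mul_right, EL_sub, EL_const hP]
      show _ * (∑ b ∈ range N, (A b X - p)) = _
      rw [Finset.mul_sum]
    have e2 : ∀ b ∈ range N, EL (un k) n (fun X => (EL (un k) n (fun Y => (lcs X Y : ℝ)) - M) *
          (A b X - p)) = p * EL (un k) n (fun X => EL (un k) n (fun Y =>
        ((lcs (repl K w b X) Y : ℝ) - lcs X Y))) := by
      intro b hb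
      have h1 := acov_key k hk n K w hw b (hbn b hb) (fun X => EL (un k) n (fun Y => (lcs X Y : ℝ)))
      have h2 : EL (un k) n (fun X => (EL (un k) n (fun Y => (lcs X Y : ℝ)) - M) *
          (A b X - p)) = EL (un k) n (fun X => (((A b X * EL (un k) n (fun Y => (lcs X Y : ℝ))) -
            p * EL (un k) n (fun Y => (lcs X Y : ℝ))) - M * A b X) + M * p) := by
        refine EL_congr fun X _ => ?_
        ring
      have h3 : EL (un k) n (fun X => A b X) = p := hA1 b hb
      have h4 : EL (un k) n (fun X => A b X * EL (un k) n (fun Y => (lcs X Y : ℝ))) =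
          p * EL (un k) n (fun X => EL (un k) n (fun Y => (lcs (repl K w b X) Y : ℝ))) := h1
      rw [h2, EL_add, EL_sub, EL_sub, EL_mul_left, EL_mul_left, EL_const hP, h3, h4, ← hM]
      have h5 : EL (un k) n (fun X => EL (un k) n (fun Y =>
        ((lcs (repl K w b X) Y : ℝ) - lcs X Y))) =
          EL (un k) n (fun X => EL (un k) n (fun Y => (lcs (repl K w b X) Y : ℝ))) - M := by
        rw [hM, ← EL_sub]
        refine EL_congr fun X _ => ?_
        rw [EL_sub]
      rw [h5]
      ring
    rw [e1, Finset.sum_congr rfl e2, ← Finset.mul_sum]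
    exact mul_le_mul_of_nonneg_left h hp0
  -- optimisation
  set V : ℝ := EL (un k) n (fun X => EL (un k) n (fun Y => ((lcs X Y : ℝ) - M) ^ 2)) with hV
  have hopt : ∀ t : ℝ, 0 ≤ t → 2 * t * (p * D) - t ^ 2 * (N * p) ≤ V := by
    intro t ht
    have h1 : EL (un k) n (fun X => EL (un k) n (fun Y =>
        (2 * t * (((lcs X Y : ℝ) - M) * T X) - t ^ 2 * T X ^ 2))) ≤ V := by
      refine EL_mono hP fun X _ => EL_mono hP fun Y _ => ?_
      nlinarith [sq_nonneg (((lcs X Y : ℝ) - M) - t * T X)]
    have h2 : EL (un k) n (fun X => EL (un k) n (fun Y =>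
        (2 * t * (((lcs X Y : ℝ) - M) * T X) - t ^ 2 * T X ^ 2))) =
        2 * t * EL (un k) n (fun X => EL (un k) n (fun Y => ((lcs X Y : ℝ) - M) * T X)) -
          t ^ 2 * EL (un k) n (fun X => T X ^ 2) := by
      rw [← EL_mul_left, ← EL_mul_left, ← EL_sub]
      refine EL_congr fun X _ => ?_
      rw [EL_sub, EL_mul_left, EL_const hP]
    rw [h2] at h1
    have h3 : 2 * t * (p * D) ≤
        2 * t * EL (un k) n (fun X => EL (un k) n (fun Y => ((lcs X Y : ℝ) - M) * T X)) :=
      mul_le_mul_of_nonneg_left hLT (by positivity)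
    have h4 : t ^ 2 * EL (un k) n (fun X => T X ^ 2) ≤ t ^ 2 * (N * p) :=
      mul_le_mul_of_nonneg_left hT2 (by positivity)
    linarith
  have h5 := hopt (D / N) (by positivity)
  have h6 : 2 * (D / N) * (p * D) - (D / N) ^ 2 * (N * p) = p * D ^ 2 / N := by
    field_simp
    ring
  rw [h6] at h5
  refine le_trans ?_ h5
  exact div_le_div_of_nonneg_left (by positivity) hNp hNn

end LCSV
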