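import Pool.Agent.LCSV.McD2
import Pool.Agent.LCSV.LcsB
import Pool.Agent.LCSV.ELb
import Pool.Agent.LCSV.Exa

/-!
# From the variance to anticoncentration at scale sqrt n

Let L = lcs X Y, m = E L, v = E (L - m)^2 >= c n. Fourth moment: by mcd2 with c = 1: E exp(t (L - m)) <= exp(t^2 n) for all t; z^4 <= 24 (exp z + exp(-z))/2 * ... :
z^4/24 <= cosh z, so with t = 1/sqrt n: E (L-m)^4 <= 24 n^2 e. Let x be a real number.
Case |x - m| <= sqrt n: Z = (L - x)^2, E Z >= v >= c n, E Z^2 <= 8 (E (L-m)^4 + (x-m)^4) <= 8 (24 e + 1) n^2 <= 600 n^2;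
E Z <= (c/2) n + (E Z^2)^(1/2) P(Z > (c/2) n)^(1/2), so P(Z > (c/2) n) >= (c/2)^2/600.
Case |x - m| > A sqrt n with A = 2 (choose the case distinction at 2 sqrt n instead of sqrt n and change the constant accordingly): by Chebyshev
E (L-m)^2 <= 2 n e ... P(|L - m| <= |x - m|/2) is bounded below; simplest: use the same argument with threshold A = 10:
P(|L - m| >= 5 sqrt n) <= E(L-m)^2/(25 n) <= 1/2 (E (L-m)^2 <= (2 e) n from z^2 <= 2 cosh z), so |L - x| >= 5 sqrt n with probability >= 1/2; and in the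
case |x - m| <= 10 sqrt n, E Z^2 <= 8 (24 e + 10^4) n^2 <= 10^5 n^2.
So one may take c' = min(sqrt(c/2), (c/2)^2/10^5, 1/2, 1).
-/

namespace LCSV

open Finset

/-- nested expectation over two uniform words -/
private noncomputable def antiE (k n : ℕ) (F : List (Fin k) → List (Fin k) → ℝ) : ℝ :=
  EL (un k) n (fun X => EL (un k) n (fun Y => F X Y))

private theorem antiE_add {k n : ℕ} (F G : List (Fin k) → List (Fin k) → ℝ) :
    antiE k n (fun X Y => F X Y + G X Y) = antiE k n F + antiE k n G := by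
  unfold antiE
  rw [← EL_add]
  exact EL_congr fun X _ => EL_add n (F X) (G X)

private theorem antiE_mul {k n : ℕ} (c : ℝ) (F : List (Fin k) → List (Fin k) → ℝ) :
    antiE k n (fun X Y => c * F X Y) = c * antiE k n F := by
  unfold antiE
  rw [← EL_mul_left]
  exact EL_congr fun X _ => EL_mul_left n c (F X)

private theorem antiE_const {k n : ℕ} (hk : 0 < k) (c : ℝ) :
    antiE k n (fun _ _ => c) = c := by
  unfold antiE
  rw [EL_congr (G := fun _ => c) fun X _ => EL_const (un_isP hk) n c, EL_const (un_isP hk)]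

private theorem antiE_mono {k n : ℕ} (hk : 0 < k) {F G : List (Fin k) → List (Fin k) → ℝ}
    (h : ∀ X Y, F X Y ≤ G X Y) : antiE k n F ≤ antiE k n G :=
  EL_mono (un_isP hk) fun X _ => EL_mono (un_isP hk) fun Y _ => h X Y

private theorem anti_pow4 (z : ℝ) : z ^ 4 ≤ 24 * (Real.exp z + Real.exp (-z)) := by
  have h := Real.pow_div_factorial_le_exp |z| (abs_nonneg z) 4
  have h1 : (Nat.factorial 4 : ℝ) = 24 := by norm_num [Nat.factorial]
  rw [h1] at h
  have h2 : |z| ^ 4 = z ^ 4 := by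
    rw [show (4 : ℕ) = 2 * 2 from rfl, pow_mul, pow_mul, sq_abs]
  have h3 : Real.exp |z| ≤ Real.exp z + Real.exp (-z) := by
    rcases abs_cases z with ⟨e, _⟩ | ⟨e, _⟩
    · rw [e]; linarith [Real.exp_pos (-z)]
    · rw [e]; linarith [Real.exp_pos z]
  rw [h2] at h
  linarith

private theorem anti_pow2 (z : ℝ) : z ^ 2 ≤ 2 * (Real.exp z + Real.exp (-z)) := by
  have h := Real.pow_div_factorial_le_exp |z| (abs_nonneg z) 2
  have h1 : (Nat.factorial 2 : ℝ) = 2 := by norm_num [Nat.factorial]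
  rw [h1, sq_abs] at h
  have h3 : Real.exp |z| ≤ Real.exp z + Real.exp (-z) := by
    rcases abs_cases z with ⟨e, _⟩ | ⟨e, _⟩
    · rw [e]; linarith [Real.exp_pos (-z)]
    · rw [e]; linarith [Real.exp_pos z]
  linarith

private theorem anti_exp {k : ℕ} (hk : 0 < k) (n : ℕ) (m : ℝ)
    (hm : antiE k n (fun X Y => (lcs X Y : ℝ)) = m) (t : ℝ) :
    antiE k n (fun X Y => Real.exp (t * ((lcs X Y : ℝ) - m))) ≤ Real.exp (t ^ 2 * n) := by
  have h := mcd2 (un_isP hk) (un_isP hk) n n (fun X Y => (lcs X Y : ℝ)) 1 zero_le_one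
    (fun l1 l2 x x' y _ _ => lcs_change l1 l2 y x x')
    (fun x l1 l2 y y' _ _ => lcs_change_right x l1 l2 y y') t
  have e1 : EL (un k) n (fun X => EL (un k) n (fun Y => (lcs X Y : ℝ))) = m := hm
  rw [e1] at h
  have e2 : t ^ 2 * 1 ^ 2 * ((n : ℝ) + n) / 2 = t ^ 2 * n := by ring
  rw [e2] at h
  exact h

/-- the sum of the two exponential moments at scale sqrt n -/
private theorem anti_exp2 {k : ℕ} (hk : 0 < k) (n : ℕ) (hn : 1 ≤ n) (m : ℝ)
    (hm : antiE k n (fun X Y => (lcs X Y : ℝ)) = m) :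
    antiE k n (fun X Y => Real.exp (1 / √(n : ℝ) * ((lcs X Y : ℝ) - m)) +
      Real.exp (-(1 / √(n : ℝ) * ((lcs X Y : ℝ) - m)))) ≤ 5.44 := by
  have hn0 : (0 : ℝ) < n := by exact_mod_cast hn
  have hsq : (1 / √(n : ℝ)) ^ 2 * n = 1 := by
    rw [div_pow, Real.sq_sqrt hn0.le]
    field_simp
  have h1 := anti_exp hk n m hm (1 / √(n : ℝ))
  have h2 := anti_exp hk n m hm (-(1 / √(n : ℝ)))
  rw [hsq] at h1
  rw [neg_sq, hsq] at h2
  have h3 : antiE k n (fun X Y => Real.exp (-(1 / √(n : ℝ)) * ((lcs X Y : ℝ) - m))) =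
      antiE k n (fun X Y => Real.exp (-(1 / √(n : ℝ) * ((lcs X Y : ℝ) - m)))) := by
    congr 1
    funext X Y
    rw [neg_mul]
  rw [h3] at h2
  rw [antiE_add]
  have h4 := Real.exp_one_lt_d9
  linarith

private theorem anti_m4 {k : ℕ} (hk : 0 < k) (n : ℕ) (hn : 1 ≤ n) (m : ℝ)
    (hm : antiE k n (fun X Y => (lcs X Y : ℝ)) = m) :
    antiE k n (fun X Y => ((lcs X Y : ℝ) - m) ^ 4) ≤ 131 * (n : ℝ) ^ 2 := by
  have hn0 : (0 : ℝ) < n := by exact_mod_cast hn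
  have hs0 : 0 < √(n : ℝ) := Real.sqrt_pos.2 hn0
  have h1 : antiE k n (fun X Y => ((lcs X Y : ℝ) - m) ^ 4) ≤
      antiE k n (fun X Y => 24 * (n : ℝ) ^ 2 *
        (Real.exp (1 / √(n : ℝ) * ((lcs X Y : ℝ) - m)) +
        Real.exp (-(1 / √(n : ℝ) * ((lcs X Y : ℝ) - m))))) := by
    refine antiE_mono hk fun X Y => ?_
    have h2 := anti_pow4 (1 / √(n : ℝ) * ((lcs X Y : ℝ) - m))
    have h3 : ((lcs X Y : ℝ) - m) ^ 4 =
        (n : ℝ) ^ 2 * (1 / √(n : ℝ) * ((lcs X Y : ℝ) - m)) ^ 4 := by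
      have h4 : (n : ℝ) ^ 2 = √(n : ℝ) ^ 4 := by
        rw [show (4 : ℕ) = 2 * 2 from rfl, pow_mul, Real.sq_sqrt hn0.le]
      rw [h4, mul_pow, div_pow, one_pow]
      field_simp
    rw [h3]
    have h5 : (n : ℝ) ^ 2 * (1 / √(n : ℝ) * ((lcs X Y : ℝ) - m)) ^ 4 ≤ (n : ℝ) ^ 2 *
        (24 * (Real.exp (1 / √(n : ℝ) * ((lcs X Y : ℝ) - m)) +
        Real.exp (-(1 / √(n : ℝ) * ((lcs X Y : ℝ) - m))))) :=
      mul_le_mul_of_nonneg_left h2 (by positivity)
    linarith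
  rw [antiE_mul] at h1
  have h6 := anti_exp2 hk n hn m hm
  have h7 := mul_le_mul_of_nonneg_left h6 (show (0 : ℝ) ≤ 24 * (n : ℝ) ^ 2 by positivity)
  nlinarith [sq_nonneg (n : ℝ)]

private theorem anti_m2 {k : ℕ} (hk : 0 < k) (n : ℕ) (hn : 1 ≤ n) (m : ℝ)
    (hm : antiE k n (fun X Y => (lcs X Y : ℝ)) = m) :
    antiE k n (fun X Y => ((lcs X Y : ℝ) - m) ^ 2) ≤ 11 * (n : ℝ) := by
  have hn0 : (0 : ℝ) < n := by exact_mod_cast hn
  have hs0 : 0 < √(n : ℝ) := Real.sqrt_pos.2 hn0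
  have h1 : antiE k n (fun X Y => ((lcs X Y : ℝ) - m) ^ 2) ≤
      antiE k n (fun X Y => 2 * (n : ℝ) *
        (Real.exp (1 / √(n : ℝ) * ((lcs X Y : ℝ) - m)) +
        Real.exp (-(1 / √(n : ℝ) * ((lcs X Y : ℝ) - m))))) := by
    refine antiE_mono hk fun X Y => ?_
    have h2 := anti_pow2 (1 / √(n : ℝ) * ((lcs X Y : ℝ) - m))
    have h3 : ((lcs X Y : ℝ) - m) ^ 2 =
        (n : ℝ) * (1 / √(n : ℝ) * ((lcs X Y : ℝ) - m)) ^ 2 := by
      have h4 : (n : ℝ) = √(n : ℝ) ^ 2 := (Real.sq_sqrt hn0.le).symm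
      conv_rhs => rw [mul_pow, div_pow, one_pow, ← h4]
      field_simp
    rw [h3]
    have h5 : (n : ℝ) * (1 / √(n : ℝ) * ((lcs X Y : ℝ) - m)) ^ 2 ≤ (n : ℝ) *
        (2 * (Real.exp (1 / √(n : ℝ) * ((lcs X Y : ℝ) - m)) +
        Real.exp (-(1 / √(n : ℝ) * ((lcs X Y : ℝ) - m))))) :=
      mul_le_mul_of_nonneg_left h2 (by positivity)
    linarith
  rw [antiE_mul] at h1
  have h6 := anti_exp2 hk n hn m hm
  have h7 := mul_le_mul_of_nonneg_left h6 (show (0 : ℝ) ≤ 2 * (n : ℝ) by positivity)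
  linarith

/-- the case of a point x which is far from the mean -/
private theorem anti_far {k : ℕ} (hk : 0 < k) (n : ℕ) (hn : 1 ≤ n) (m : ℝ)
    (hm : antiE k n (fun X Y => (lcs X Y : ℝ)) = m) (x : ℝ) (hx : 10 * √(n : ℝ) ≤ |x - m|)
    (c : ℝ) (hc : c ≤ 1 / 2) :
    1 / 2 ≤ antiE k n (fun X Y => ind (c * √(n : ℝ) ≤ |(lcs X Y : ℝ) - x|)) := by
  have hn0 : (0 : ℝ) < n := by exact_mod_cast hn
  have hs0 : 0 < √(n : ℝ) := Real.sqrt_pos.2 hn0
  have hs2 : √(n : ℝ) ^ 2 = n := Real.sq_sqrt hn0.le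
  have h1 : antiE k n (fun X Y => 1 + (-1 / (25 * (n : ℝ))) * ((lcs X Y : ℝ) - m) ^ 2) ≤
      antiE k n (fun X Y => ind (c * √(n : ℝ) ≤ |(lcs X Y : ℝ) - x|)) := by
    refine antiE_mono hk fun X Y => ?_
    by_cases h : |(lcs X Y : ℝ) - m| < 5 * √(n : ℝ)
    · have h2 : c * √(n : ℝ) ≤ |(lcs X Y : ℝ) - x| := by
        have h3 : |x - m| ≤ |(lcs X Y : ℝ) - x| + |(lcs X Y : ℝ) - m| := by
          have h4 := abs_sub_le x (lcs X Y : ℝ) m
          rw [abs_sub_comm x (lcs X Y : ℝ)] at h4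
          exact h4
        nlinarith
      rw [ind_true h2]
      have h5 : 0 ≤ 1 / (25 * (n : ℝ)) * ((lcs X Y : ℝ) - m) ^ 2 := by positivity
      have h6 : -1 / (25 * (n : ℝ)) = -(1 / (25 * (n : ℝ))) := by ring
      rw [h6]
      linarith
    · push Not at h
      have h2 : 25 * (n : ℝ) ≤ ((lcs X Y : ℝ) - m) ^ 2 := by
        rw [← sq_abs ((lcs X Y : ℝ) - m)]
        have h3 : (5 * √(n : ℝ)) ^ 2 ≤ |(lcs X Y : ℝ) - m| ^ 2 :=
          pow_le_pow_left₀ (by positivity) h 2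
        rw [mul_pow, hs2] at h3
        linarith
      have h4 : 1 ≤ 1 / (25 * (n : ℝ)) * ((lcs X Y : ℝ) - m) ^ 2 := by
        rw [one_div, ← div_eq_inv_mul, le_div_iff₀ (by positivity)]
        linarith
      have h6 : -1 / (25 * (n : ℝ)) = -(1 / (25 * (n : ℝ))) := by ring
      have h7 := ind_nonneg (c * √(n : ℝ) ≤ |(lcs X Y : ℝ) - x|)
      rw [h6]
      linarith
  rw [antiE_add (fun _ _ => (1 : ℝ)), antiE_const hk, antiE_mul] at h1
  have h2 := anti_m2 hk n hn m hm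
  have h3 : -1 / (25 * (n : ℝ)) * antiE k n (fun X Y => ((lcs X Y : ℝ) - m) ^ 2) ≥
      -1 / (25 * (n : ℝ)) * (11 * (n : ℝ)) := by
    apply mul_le_mul_of_nonpos_left h2
    rw [neg_div]
    have : 0 ≤ 1 / (25 * (n : ℝ)) := by positivity
    linarith
  have h4 : -1 / (25 * (n : ℝ)) * (11 * (n : ℝ)) = -(11 / 25) := by
    field_simp
  linarith

private theorem anti_four (a b : ℝ) : (a + b) ^ 4 ≤ 8 * a ^ 4 + 8 * b ^ 4 := by
  nlinarith [sq_nonneg (a - b), sq_nonneg (a + b), sq_nonneg (a ^ 2 - b ^ 2),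
    mul_nonneg (sq_nonneg (a - b)) (sq_nonneg (a + b)), sq_nonneg ((a - b) ^ 2)]

/-- the case of a point x which is close to the mean -/
private theorem anti_near {k : ℕ} (hk : 0 < k) (n : ℕ) (hn : 1 ≤ n) (m : ℝ)
    (hm : antiE k n (fun X Y => (lcs X Y : ℝ)) = m) (x : ℝ) (hx : |x - m| ≤ 10 * √(n : ℝ))
    (c : ℝ) (hc : 0 < c) (hv : c * n ≤ antiE k n (fun X Y => ((lcs X Y : ℝ) - m) ^ 2)) :
    c ^ 2 / 400000 ≤ antiE k n (fun X Y => ind (√(c / 2) * √(n : ℝ) ≤ |(lcs X Y : ℝ) - x|)) := by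
  have hn0 : (0 : ℝ) < n := by exact_mod_cast hn
  have hs0 : 0 < √(n : ℝ) := Real.sqrt_pos.2 hn0
  have hs2 : √(n : ℝ) ^ 2 = n := Real.sq_sqrt hn0.le
  -- second moment around x
  have hZ : c * n ≤ antiE k n (fun X Y => ((lcs X Y : ℝ) - x) ^ 2) := by
    have e1 : (fun X Y => ((lcs X Y : ℝ) - x) ^ 2) =
        (fun (X Y : List (Fin k)) => ((lcs X Y : ℝ) - m) ^ 2 +
          (2 * (m - x) * (lcs X Y : ℝ) + (x ^ 2 - m ^ 2))) := by
      funext X Y
      ring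
    rw [e1, antiE_add, antiE_add, antiE_mul, antiE_const hk, hm]
    nlinarith [sq_nonneg (m - x)]
  -- fourth moment around x
  have hZ2 : antiE k n (fun X Y => ((lcs X Y : ℝ) - x) ^ 4) ≤ 100000 * (n : ℝ) ^ 2 := by
    have h1 : antiE k n (fun X Y => ((lcs X Y : ℝ) - x) ^ 4) ≤
        antiE k n (fun X Y => 8 * ((lcs X Y : ℝ) - m) ^ 4 + 80000 * (n : ℝ) ^ 2) := by
      refine antiE_mono hk fun X Y => ?_
      have h2 := anti_four ((lcs X Y : ℝ) - m) (m - x)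
      have h3 : (m - x) ^ 4 ≤ 10000 * (n : ℝ) ^ 2 := by
        have h4 : |x - m| ^ 4 ≤ (10 * √(n : ℝ)) ^ 4 := pow_le_pow_left₀ (abs_nonneg _) hx 4
        have h5 : |x - m| ^ 4 = (m - x) ^ 4 := by
          rw [abs_sub_comm, show (4 : ℕ) = 2 * 2 from rfl, pow_mul, pow_mul, sq_abs]
        have h6 : (10 * √(n : ℝ)) ^ 4 = 10000 * (n : ℝ) ^ 2 := by
          rw [mul_pow, show √(n : ℝ) ^ 4 = (√(n : ℝ) ^ 2) ^ 2 by ring, hs2]
          norm_num
        rw [h5, h6] at h4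
        exact h4
      have h7 : ((lcs X Y : ℝ) - m + (m - x)) = (lcs X Y : ℝ) - x := by ring
      rw [h7] at h2
      linarith
    rw [antiE_add, antiE_mul, antiE_const hk] at h1
    have h8 := anti_m4 hk n hn m hm
    nlinarith [sq_nonneg (n : ℝ)]
  -- pointwise inequality
  have hpt : antiE k n (fun X Y => ((lcs X Y : ℝ) - x) ^ 2) ≤
      antiE k n (fun X Y => (c / 2 * n + c / (400000 * n) * ((lcs X Y : ℝ) - x) ^ 4) +
        100000 * n / c * ind (√(c / 2) * √(n : ℝ) ≤ |(lcs X Y : ℝ) - x|)) := by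
    refine antiE_mono hk fun X Y => ?_
    have hp4 : 0 ≤ c / (400000 * n) * ((lcs X Y : ℝ) - x) ^ 4 := by positivity
    by_cases h : √(c / 2) * √(n : ℝ) ≤ |(lcs X Y : ℝ) - x|
    · rw [ind_true h]
      have h1 : 0 ≤ c / 2 * n := by positivity
      have h2 : ((lcs X Y : ℝ) - x) ^ 2 ≤
          c / (400000 * n) * ((lcs X Y : ℝ) - x) ^ 4 + 100000 * n / c * 1 := by
        have h3 : c / (400000 * n) * ((lcs X Y : ℝ) - x) ^ 4 + 100000 * n / c * 1 -
            ((lcs X Y : ℝ) - x) ^ 2 =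
            c / (400000 * n) * (((lcs X Y : ℝ) - x) ^ 2 - 200000 * n / c) ^ 2 := by
          field_simp
          ring
        have h4 : 0 ≤ c / (400000 * n) * (((lcs X Y : ℝ) - x) ^ 2 - 200000 * n / c) ^ 2 := by
          positivity
        linarith
      linarith
    · rw [ind_false h]
      push Not at h
      have h1 : ((lcs X Y : ℝ) - x) ^ 2 ≤ c / 2 * n := by
        rw [← sq_abs ((lcs X Y : ℝ) - x)]
        have h2 : |(lcs X Y : ℝ) - x| ^ 2 ≤ (√(c / 2) * √(n : ℝ)) ^ 2 :=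
          pow_le_pow_left₀ (abs_nonneg _) h.le 2
        rw [mul_pow, hs2, Real.sq_sqrt (by positivity)] at h2
        exact h2
      linarith
  rw [antiE_add, antiE_add, antiE_mul (c / (400000 * n)), antiE_mul (100000 * n / c),
    antiE_const hk] at hpt
  have h9 : c / (400000 * n) * antiE k n (fun X Y => ((lcs X Y : ℝ) - x) ^ 4) ≤
      c / (400000 * n) * (100000 * (n : ℝ) ^ 2) :=
    mul_le_mul_of_nonneg_left hZ2 (by positivity)
  have h10 : c / (400000 * n) * (100000 * (n : ℝ) ^ 2) = c / 4 * n := by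
    field_simp
    ring
  rw [h10] at h9
  have h11 : c / 4 * n ≤ 100000 * n / c *
      antiE k n (fun X Y => ind (√(c / 2) * √(n : ℝ) ≤ |(lcs X Y : ℝ) - x|)) := by
    linarith
  have h12 : 100000 * n / c * (c ^ 2 / 400000) = c / 4 * n := by
    field_simp
    ring
  rw [← h12] at h11
  exact le_of_mul_le_mul_left h11 (by positivity)

theorem anti (c : ℝ) (hc : 0 < c) : ∃ c' : ℝ, 0 < c' ∧ ∀ (k : ℕ), 0 < k → ∀ n : ℕ, 1 ≤ n →
    c * n ≤ EL (un k) n (fun X => EL (un k) n (fun Y =>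
        ((lcs X Y : ℝ) - EL (un k) n (fun X' => EL (un k) n (fun Y' => (lcs X' Y' : ℝ)))) ^ 2)) →
    ∀ x : ℝ, c' ≤ EL (un k) n (fun X => EL (un k) n (fun Y =>
        ind (c' * √(n : ℝ) ≤ |(lcs X Y : ℝ) - x|))) := by
  refine ⟨min (√(c / 2)) (min (c ^ 2 / 400000) (1 / 2)), ?_, fun k hk n hn hv x => ?_⟩
  · exact lt_min (Real.sqrt_pos.2 (by positivity)) (lt_min (by positivity) (by norm_num))
  set c' : ℝ := min (√(c / 2)) (min (c ^ 2 / 400000) (1 / 2)) with hc'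
  have h1 : c' ≤ √(c / 2) := min_le_left _ _
  have h2 : c' ≤ c ^ 2 / 400000 := (min_le_right _ _).trans (min_le_left _ _)
  have h3 : c' ≤ 1 / 2 := (min_le_right _ _).trans (min_le_right _ _)
  obtain ⟨m, hm⟩ : ∃ m : ℝ, antiE k n (fun X Y => (lcs X Y : ℝ)) = m := ⟨_, rfl⟩
  have hm' : EL (un k) n (fun X' => EL (un k) n (fun Y' => (lcs X' Y' : ℝ))) = m := hm
  rw [hm'] at hv
  show c' ≤ antiE k n (fun X Y => ind (c' * √(n : ℝ) ≤ |(lcs X Y : ℝ) - x|))
  rcases le_total (|x - m|) (10 * √(n : ℝ)) with hx | hx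
  · have h4 := anti_near hk n hn m hm x hx c hc hv
    refine (h2.trans h4).trans (antiE_mono hk fun X Y => ind_mono fun h => ?_)
    exact (mul_le_mul_of_nonneg_right h1 (Real.sqrt_nonneg _)).trans h
  · exact h3.trans (anti_far hk n hn m hm x hx c' h3)

end LCSV
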