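import Pool.Agent.LCSV.Core

/-!
# Averages over finite probability spaces

Used in the modules LimA, LimB, LimC on possible limit laws.
-/

namespace LCSV

open Finset

/-- average of F over a finite space with weights p -/
noncomputable def av {Ω : Type} [Fintype Ω] (p : Ω → ℝ) (F : Ω → ℝ) : ℝ := ∑ ω, p ω * F ω

theorem av_mono {Ω : Type} [Fintype Ω] {p : Ω → ℝ} (hp : IsP p) {F G : Ω → ℝ}
    (h : ∀ ω, F ω ≤ G ω) : av p F ≤ av p G :=
  Finset.sum_le_sum fun ω _ => mul_le_mul_of_nonneg_left (h ω) (hp.nonneg ω)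

theorem av_const {Ω : Type} [Fintype Ω] {p : Ω → ℝ} (hp : IsP p) (c : ℝ) :
    av p (fun _ => c) = c := by
  unfold av
  rw [← Finset.sum_mul, hp.sum_one, one_mul]

theorem av_add {Ω : Type} [Fintype Ω] (p : Ω → ℝ) (F G : Ω → ℝ) :
    av p (fun ω => F ω + G ω) = av p F + av p G := by
  unfold av
  rw [← Finset.sum_add_distrib]
  exact Finset.sum_congr rfl fun ω _ => by ring

theorem av_mul {Ω : Type} [Fintype Ω] (p : Ω → ℝ) (c : ℝ) (F : Ω → ℝ) :
    av p (fun ω => c * F ω) = c * av p F := by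
  unfold av
  rw [Finset.mul_sum]
  exact Finset.sum_congr rfl fun ω _ => by ring

end LCSV
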