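import Pool.Agent.LCSV.Core

/-!
# Basic facts on ht, fv, Mx, lm, qq

All elementary. lm rho s t is the largest g <= t with fv rho s g = Mx rho s t (the filtered set is not empty since the
supremum over the nonempty finite set range (t+1) is attained: Finset.exists_mem_eq_sup).
-/

namespace LCSV

open Finset

variable {rho : ℕ → ℕ} {s : Finset ℕ} {g g' i t t' n l : ℕ}

theorem ht_mono (s : Finset ℕ) : Monotone (ht s) := by
  intro g g' h
  unfold ht
  refine Finset.card_le_card ?_
  intro i hi
  rw [Finset.mem_filter] at hi ⊢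
  exact ⟨hi.1, lt_of_lt_of_le hi.2 h⟩

theorem ht_zero (s : Finset ℕ) : ht s 0 = 0 := by
  unfold ht
  rw [Finset.card_eq_zero, Finset.filter_eq_empty_iff]
  intro i _ h
  omega

theorem ht_succ (s : Finset ℕ) (g : ℕ) : ht s (g + 1) = ht s g + (if g ∈ s then 1 else 0) := by
  unfold ht
  by_cases h : g ∈ s
  · rw [if_pos h]
    have : s.filter (fun i => i < g + 1) = insert g (s.filter (fun i => i < g)) := by
      ext i
      simp only [Finset.mem_filter, Finset.mem_insert]
      constructor
      · rintro ⟨h1, h2⟩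
        by_cases h3 : i = g
        · exact Or.inl h3
        · exact Or.inr ⟨h1, by omega⟩
      · rintro (h1 | ⟨h1, h2⟩)
        · rw [h1]
          exact ⟨h, by omega⟩
        · exact ⟨h1, by omega⟩
    rw [this, Finset.card_insert_of_notMem]
    simp
  · rw [if_neg h, add_zero]
    congr 1
    ext i
    simp only [Finset.mem_filter]
    constructor
    · rintro ⟨h1, h2⟩
      refine ⟨h1, ?_⟩
      have : i ≠ g := by
        intro h3
        rw [h3] at h1
        exact h h1
      omega
    · rintro ⟨h1, h2⟩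
      exact ⟨h1, by omega⟩

theorem ht_insert (hi : i ∉ s) (g : ℕ) : ht (insert i s) g = ht s g + (if i < g then 1 else 0) := by
  unfold ht
  rw [Finset.filter_insert]
  by_cases h : i < g
  · rw [if_pos h, if_pos h, Finset.card_insert_of_notMem]
    rw [Finset.mem_filter]
    exact fun h' => hi h'.1
  · rw [if_neg h, if_neg h, add_zero]

theorem ht_erase (hi : i ∈ s) (g : ℕ) : ht (s.erase i) g + (if i < g then 1 else 0) = ht s g := by
  have h := ht_insert (s := s.erase i) (Finset.notMem_erase i s) g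
  rw [Finset.insert_erase hi] at h
  exact h.symm

theorem ht_card (hs : s ⊆ range n) : ht s n = s.card := by
  unfold ht
  congr 1
  rw [Finset.filter_eq_self]
  intro i hi
  exact Finset.mem_range.1 (hs hi)

theorem ht_le (s : Finset ℕ) (g : ℕ) : ht s g ≤ g := by
  unfold ht
  have : s.filter (fun i => i < g) ⊆ range g := by
    intro i hi
    rw [Finset.mem_filter] at hi
    exact Finset.mem_range.2 hi.2
  have := Finset.card_le_card this
  rwa [Finset.card_range] at this

theorem ht_add_bits (h : l ≤ g) : ht s (g - l) + bits s g l = ht s g := by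
  have _ := h
  unfold ht bits
  rw [← Finset.card_union_of_disjoint]
  · congr 1
    ext i
    simp only [Finset.mem_union, Finset.mem_filter, Finset.mem_inter, Finset.mem_Ico]
    constructor
    · rintro (⟨h1, h2⟩ | ⟨h1, h2, h3⟩)
      · exact ⟨h1, by omega⟩
      · exact ⟨h1, h3⟩
    · rintro ⟨h1, h2⟩
      by_cases h3 : i < g - l
      · exact Or.inl ⟨h1, h3⟩
      · exact Or.inr ⟨h1, by omega, h2⟩
  · rw [Finset.disjoint_left]
    intro i h1 h2
    simp only [Finset.mem_filter, Finset.mem_inter, Finset.mem_Ico] at h1 h2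
    omega

theorem bits_le : bits s g l ≤ l := by
  unfold bits
  refine (Finset.card_le_card Finset.inter_subset_right).trans ?_
  rw [Nat.card_Ico]
  omega

theorem fv_insert (hi : i ∉ s) (g : ℕ) :
    fv rho (insert i s) g = fv rho s g + (if i < g then 1 else 0) := by
  unfold fv
  rw [ht_insert hi]
  omega

theorem fv_erase (hi : i ∈ s) (g : ℕ) :
    fv rho (s.erase i) g + (if i < g then 1 else 0) = fv rho s g := by
  unfold fv
  rw [← ht_erase hi g]
  omega

theorem fv_le_Mx (h : g ≤ t) : fv rho s g ≤ Mx rho s t := by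
  unfold Mx
  exact Finset.le_sup (f := fv rho s) (Finset.mem_range.2 (by omega))

theorem Mx_le {v : ℕ} (h : ∀ g, g ≤ t → fv rho s g ≤ v) : Mx rho s t ≤ v := by
  unfold Mx
  refine Finset.sup_le fun g hg => h g ?_
  rw [Finset.mem_range] at hg
  omega

theorem exists_Mx (rho : ℕ → ℕ) (s : Finset ℕ) (t : ℕ) : ∃ g ≤ t, fv rho s g = Mx rho s t := by
  unfold Mx
  obtain ⟨g, hg, h⟩ := Finset.exists_mem_eq_sup (range (t + 1)) ⟨0, Finset.mem_range.2 (by omega)⟩
    (fv rho s)
  rw [Finset.mem_range] at hg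
  exact ⟨g, by omega, h.symm⟩

theorem Mx_mono (h : t ≤ t') : Mx rho s t ≤ Mx rho s t' :=
  Mx_le fun _ hg => fv_le_Mx (hg.trans h)

theorem lm_le (rho : ℕ → ℕ) (s : Finset ℕ) (t : ℕ) : lm rho s t ≤ t := by
  unfold lm
  refine Finset.sup_le fun g hg => ?_
  rw [Finset.mem_filter, Finset.mem_range] at hg
  change g ≤ t
  omega

theorem fv_lm (rho : ℕ → ℕ) (s : Finset ℕ) (t : ℕ) : fv rho s (lm rho s t) = Mx rho s t := by
  obtain ⟨g, hg, hg'⟩ := exists_Mx rho s t
  obtain ⟨g', hg1, hg2⟩ := Finset.exists_mem_eq_sup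
    ((range (t + 1)).filter (fun g => fv rho s g = Mx rho s t))
    ⟨g, Finset.mem_filter.2 ⟨Finset.mem_range.2 (by omega), hg'⟩⟩ id
  have h : lm rho s t = g' := hg2
  rw [h]
  exact (Finset.mem_filter.1 hg1).2

theorem le_lm (h : g ≤ t) (h' : fv rho s g = Mx rho s t) : g ≤ lm rho s t := by
  unfold lm
  exact Finset.le_sup (f := id) (Finset.mem_filter.2 ⟨Finset.mem_range.2 (by omega), h'⟩)

theorem lt_Mx_of_lm_lt (h : lm rho s t < g) (h' : g ≤ t) : fv rho s g < Mx rho s t := by
  refine lt_of_le_of_ne (fv_le_Mx h') ?_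
  intro h1
  have := le_lm h' h1
  omega

theorem lm_eq (h : g ≤ t) (h1 : ∀ g', g' ≤ t → fv rho s g' ≤ fv rho s g)
    (h2 : ∀ g', g < g' → g' ≤ t → fv rho s g' < fv rho s g) : lm rho s t = g := by
  have hM : fv rho s g = Mx rho s t := le_antisymm (fv_le_Mx h) (Mx_le h1)
  have h3 := le_lm h hM
  rcases Nat.lt_or_eq_of_le h3 with h4 | h4
  · have h5 := h2 _ h4 (lm_le rho s t)
    rw [fv_lm, hM] at h5
    omega
  · exact h4.symm

theorem qq_succ_le (rho : ℕ → ℕ) (s : Finset ℕ) (n l t : ℕ) :
    qq rho s n l (t + 1) ≤ qq rho s n l t - l := lm_le rho s _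

theorem qq_anti (rho : ℕ → ℕ) (s : Finset ℕ) (n l : ℕ) : Antitone (qq rho s n l) := by
  refine antitone_nat_of_succ_le fun t => ?_
  have := qq_succ_le rho s n l t
  omega

theorem qq_le (rho : ℕ → ℕ) (s : Finset ℕ) (n l t : ℕ) : qq rho s n l t ≤ n :=
  (qq_anti rho s n l (Nat.zero_le t)).trans (lm_le rho s n)

end LCSV
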