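import Pool.Agent.LCSV.LcsA

/-!
# The right environment rh X Y g = lcs (X.drop g) Y

rh_cons_ge: if g <= i and X[i]? = some y then X.drop g = l ++ y :: X.drop (i+1) for some l, so
lcs (X.drop g) (y :: Y) >= lcs (y :: X.drop (i+1)) (y :: Y) >= 1 + lcs (X.drop (i+1)) Y.
rh_cons_cases: let s be a longest common sublist of X.drop g and y :: Y. If s <+ Y we get rh X (y :: Y) g <= rh X Y g
(and >= always). Otherwise s = y :: s' with s' <+ Y; as y :: s' <+ X.drop g there is a first position i >= g with
X[i]? = some y and s' <+ X.drop (i+1) (List.cons_sublist_iff gives X.drop g = r1 ++ r2 with y in r1 and s' <+ r2;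
choose any position of y in r1), so rh X (y :: Y) g <= 1 + rh X Y (i+1); the converse is rh_cons_ge.
-/

namespace LCSV

open Finset

variable {α : Type*}

theorem rh_antitone (X Y : List α) : Antitone (rh X Y) := by
  intro g g' h
  unfold rh
  exact lcs_mono (List.drop_sublist_drop_left X h) (List.Sublist.refl Y)

theorem rh_zero (X Y : List α) : rh X Y 0 = lcs X Y := by
  unfold rh
  rw [List.drop_zero]

theorem rh_of_length_le (X Y : List α) {g : ℕ} (h : X.length ≤ g) : rh X Y g = 0 := by
  unfold rh
  rw [List.drop_eq_nil_of_le h, lcs_nil_left]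

theorem rh_nil (X : List α) (g : ℕ) : rh X [] g = 0 := by
  unfold rh
  rw [lcs_nil_right]

theorem rh_le_right (X Y : List α) (g : ℕ) : rh X Y g ≤ Y.length := by
  unfold rh
  exact lcs_le_right _ _

theorem rh_le_cons (X Y : List α) (y : α) (g : ℕ) : rh X Y g ≤ rh X (y :: Y) g := by
  unfold rh
  exact lcs_mono (List.Sublist.refl _) (List.sublist_cons_self y Y)

theorem rh_cons_ge (X Y : List α) (y : α) {g i : ℕ} (hg : g ≤ i) (hi : X[i]? = some y) :
    rh X Y (i + 1) + 1 ≤ rh X (y :: Y) g := by
  unfold rh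
  obtain ⟨hl, hy⟩ := List.getElem?_eq_some_iff.1 hi
  have h1 : X.drop i = y :: X.drop (i + 1) := by
    rw [List.drop_eq_getElem_cons hl, hy]
  have h2 : (y :: X.drop (i + 1)).Sublist (X.drop g) := by
    rw [← h1]
    exact List.drop_sublist_drop_left X hg
  obtain ⟨s, hs1, hs2, hs3⟩ := exists_lcs (X.drop (i + 1)) Y
  rw [← hs3]
  have h3 := le_lcs (s := y :: s) ((List.Sublist.cons_cons y hs1).trans h2) (List.Sublist.cons_cons y hs2)
  simpa using h3

theorem rh_cons_cases (X Y : List α) (y : α) (g : ℕ) :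
    rh X (y :: Y) g = rh X Y g ∨
      ∃ i, g ≤ i ∧ X[i]? = some y ∧ rh X (y :: Y) g = rh X Y (i + 1) + 1 := by
  obtain ⟨s, hs1, hs2, hs3⟩ := exists_lcs (X.drop g) (y :: Y)
  rcases List.sublist_cons_iff.1 hs2 with h | ⟨s', rfl, h⟩
  · left
    apply le_antisymm _ (rh_le_cons X Y y g)
    unfold rh
    rw [← hs3]
    exact le_lcs hs1 h
  · right
    obtain ⟨r1, r2, hr, hy, hs'⟩ := List.cons_sublist_iff.1 hs1
    obtain ⟨j, hj, hjy⟩ := List.getElem_of_mem hy
    have hXj : X[g + j]? = some y := by
      have h1 : (X.drop g)[j]? = some y := by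
        rw [hr, List.getElem?_append_left hj, List.getElem?_eq_getElem hj, hjy]
      rwa [List.getElem?_drop] at h1
    refine ⟨g + j, by omega, hXj, ?_⟩
    apply le_antisymm _ (rh_cons_ge X Y y (by omega) hXj)
    have h2 : r2.Sublist (X.drop (g + j + 1)) := by
      have e : X.drop (g + j + 1) = (X.drop g).drop (j + 1) := by
        rw [List.drop_drop]
        congr 1
      rw [e, hr, List.drop_append_of_le_length (by omega)]
      exact List.sublist_append_right _ _
    have h3 := le_lcs (hs'.trans h2) h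
    unfold rh
    rw [← hs3]
    simpa using h3

end LCSV
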