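import Pool.Agent.LCSV.Exa
import Pool.Agent.LCSV.LcsC
import Pool.Agent.LCSV.Fv

/-!
# The last maximal gap is not near the left end when the number of rows is large

If q = lm < w0 then Mx = fv q = ht s q + rho q <= w0 + Y.length <= w0 + l, and Mx >= fv n >= ht s n = card s. So the event implies
card s <= w0 + l, and for a n >= 2 (w0 + l): (card s - a n)^2 >= (a n / 2)^2, so by Ex_card_var the probability is at most a n / (a n/2)^2 = 4/(a n).
-/

namespace LCSV

open Finset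

theorem bdry_card {k n l w0 : ℕ} {X Y : List (Fin k)} (hY : Y.length ≤ l) {s : Finset ℕ}
    (hs : s ⊆ range n) (h : lm (rh X Y) s n < w0) : s.card ≤ w0 + l := by
  have h1 : fv (rh X Y) s n ≤ Mx (rh X Y) s n := fv_le_Mx le_rfl
  have h2 : fv (rh X Y) s (lm (rh X Y) s n) = Mx (rh X Y) s n := fv_lm _ _ _
  have h3 : ht s n = s.card := ht_card hs
  have h4 := ht_le s (lm (rh X Y) s n)
  have h5 := rh_le_right X Y (lm (rh X Y) s n)
  unfold fv at h1 h2
  omega

theorem bdry (a : ℝ) (h0 : 0 < a) (h1 : a ≤ 1) (l w0 : ℕ) (δ : ℝ) (hδ : 0 < δ) :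
    ∃ n1 : ℕ, ∀ n ≥ n1, ∀ (k : ℕ) (X Y : List (Fin k)), Y.length ≤ l →
      Ex a n (fun s => ind (lm (rh X Y) s n < w0)) ≤ δ := by
  obtain ⟨n1, hn1⟩ := exists_nat_ge ((2 * ((w0 : ℝ) + l) + 4 / δ) / a)
  refine ⟨n1, fun n hn k X Y hY => ?_⟩
  have hnn : (n1 : ℝ) ≤ n := by exact_mod_cast hn
  have hd : 0 < 4 / δ := by positivity
  have han : 2 * ((w0 : ℝ) + l) + 4 / δ ≤ a * n := by
    have h2 : (2 * ((w0 : ℝ) + l) + 4 / δ) / a ≤ n := hn1.trans hnn
    rw [div_le_iff₀ h0] at h2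
    linarith
  have hwl : (0 : ℝ) ≤ (w0 : ℝ) + l := by positivity
  have hpos : 0 < a * n := by linarith
  have hptw : ∀ s ⊆ range n, ind (lm (rh X Y) s n < w0) ≤
      (4 / (a * n) ^ 2) * ((s.card : ℝ) - a * n) ^ 2 := by
    intro s hs
    by_cases h : lm (rh X Y) s n < w0
    · rw [ind_true h]
      have hc : (s.card : ℝ) ≤ w0 + l := by exact_mod_cast bdry_card hY hs h
      have h3 : a * n / 2 ≤ a * n - s.card := by linarith
      have h4 : (a * n / 2) ^ 2 ≤ (a * n - s.card) ^ 2 :=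
        pow_le_pow_left₀ (by positivity) h3 2
      have h5 : (a * n) ^ 2 ≤ 4 * ((s.card : ℝ) - a * n) ^ 2 := by nlinarith
      rw [div_mul_eq_mul_div, le_div_iff₀ (by positivity), one_mul]
      exact h5
    · rw [ind_false h]
      positivity
  calc Ex a n (fun s => ind (lm (rh X Y) s n < w0))
      ≤ Ex a n (fun s => (4 / (a * n) ^ 2) * ((s.card : ℝ) - a * n) ^ 2) :=
        Ex_mono h0.le h1 hptw
    _ = (4 / (a * n) ^ 2) * Ex a n (fun s => ((s.card : ℝ) - a * n) ^ 2) := Ex_mul_left _ _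
    _ ≤ (4 / (a * n) ^ 2) * (a * n) :=
        mul_le_mul_of_nonneg_left (Ex_card_var h0.le h1) (by positivity)
    _ = 4 / (a * n) := by field_simp
    _ ≤ δ := by
        rw [div_le_iff₀ hpos]
        have h6 : 4 / δ ≤ a * n := by linarith
        rw [div_le_iff₀ hδ] at h6
        linarith

end LCSV
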