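import Pool.Agent.LCSV.LcsC
import Pool.Agent.LCSV.Fv

/-!
# Adding one column raises the maximum by one exactly if its letter occurs in the set hit

Let M = Mx (rh X Y) s n, M' = Mx (rh X (y :: Y)) s n.
(1) M <= M' by rh_le_cons. If some y is in ims X (hit ...) there is i in hit (so i < n, i not in s, fv (i+1) = M) with
X[i]? = some y. Then fv' i = ht s i + rh X (y :: Y) i >= ht s i + rh X Y (i+1) + 1 (rh_cons_ge with g = i)
= ht s (i+1) + rh X Y (i+1) + 1 = M + 1 (ht_succ, i not in s). So M' >= M + 1.
(2) Upper bound: for a gap g <= n, by rh_cons_cases either fv' g = fv g <= M, or there is i >= g with X[i]? = some y (so i < n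
because X.length = n) and fv' g = ht s g + rh X Y (i+1) + 1 <= ht s i + rh X Y (i+1) + 1 <= ht s (i+1) + rh X Y (i+1) + 1 <= M + 1.
If fv' g > M then all are equalities, so ht s i = ht s (i+1), i.e. i not in s, and fv (i+1) = M, i.e. i in hit. So M' <= M + 1
and M' = M + 1 implies some y in ims X (hit ...).
-/

namespace LCSV

open Finset

theorem Mx_cons {α : Type*} [DecidableEq α] (X Y : List α) (y : α) (s : Finset ℕ) (n : ℕ)
    (hX : X.length = n) :
    Mx (rh X (y :: Y)) s n =
      Mx (rh X Y) s n + (if some y ∈ ims X (hit (rh X Y) s n) then 1 else 0) := by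
  have hup : ∀ g, g ≤ n → fv (rh X (y :: Y)) s g ≤
      Mx (rh X Y) s n + (if some y ∈ ims X (hit (rh X Y) s n) then 1 else 0) := by
    intro g hg
    rcases rh_cons_cases X Y y g with h | ⟨i, hgi, hXi, h⟩
    · have h0 : fv (rh X (y :: Y)) s g = fv (rh X Y) s g := by
        unfold fv
        rw [h]
      rw [h0]
      exact (fv_le_Mx hg).trans (Nat.le_add_right _ _)
    · have hi : i < n := by
        rw [← hX]
        exact (List.getElem?_eq_some_iff.1 hXi).1
      have h1 : ht s g ≤ ht s i := ht_mono s hgi
      have h2 := ht_succ s i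
      have h3 : fv (rh X Y) s (i + 1) ≤ Mx (rh X Y) s n := fv_le_Mx hi
      have h4 : fv (rh X Y) s (i + 1) = ht s (i + 1) + rh X Y (i + 1) := rfl
      have h5 : fv (rh X (y :: Y)) s g = ht s g + (rh X Y (i + 1) + 1) := by
        unfold fv
        rw [h]
      by_cases his : i ∈ s
      · rw [if_pos his] at h2
        have h6 : fv (rh X (y :: Y)) s g ≤ Mx (rh X Y) s n := by omega
        exact h6.trans (Nat.le_add_right _ _)
      · rw [if_neg his] at h2
        by_cases hm : fv (rh X Y) s (i + 1) = Mx (rh X Y) s n
        · have hy : some y ∈ ims X (hit (rh X Y) s n) := by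
            unfold ims
            rw [mem_image]
            refine ⟨i, ?_, hXi⟩
            unfold hit
            rw [mem_filter, mem_range]
            exact ⟨hi, his, hm⟩
          rw [if_pos hy]
          omega
        · have h6 : fv (rh X (y :: Y)) s g ≤ Mx (rh X Y) s n := by omega
          exact h6.trans (Nat.le_add_right _ _)
  apply le_antisymm
  · exact Mx_le hup
  · split_ifs with hy
    · unfold ims at hy
      rw [mem_image] at hy
      obtain ⟨i, hi, hXi⟩ := hy
      unfold hit at hi
      rw [mem_filter, mem_range] at hi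
      obtain ⟨hin, his, hfi⟩ := hi
      have h1 := rh_cons_ge X Y y (le_refl i) hXi
      have h2 := ht_succ s i
      rw [if_neg his] at h2
      have h3 : fv (rh X (y :: Y)) s i ≤ Mx (rh X (y :: Y)) s n := fv_le_Mx hin.le
      unfold fv at hfi h3
      omega
    · rw [add_zero]
      apply Mx_le
      intro g hg
      have h1 := rh_le_cons X Y y g
      have h3 : fv (rh X (y :: Y)) s g ≤ Mx (rh X (y :: Y)) s n := fv_le_Mx hg
      unfold fv at h3 ⊢
      omega

end LCSV
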