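import Pool.Agent.LCSV.TopP
import Pool.Agent.LCSV.LcsC
import Pool.Agent.LCSV.Tel

/-!
# Lower bound of the number of coincidences (deterministic)

loss_nonneg: card of an image.
bonf: q = lm. For a row i of the top block: i not in s and fv i = fv (i+1) + (rho i - rho (i+1)) >= fv (i+1) (rh_antitone), and fv q = M, so by
downward induction fv i = M for all gaps q - w <= i <= q; hence Ico (q-w) q is contained in hit (q <= n).
If T is a subset of S then card T - card (ims X T) <= card S - card (ims X S) (adding an element increases card S by one and card ims by at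
most one). For T = Ico (q-w) q group the rows by their letter: if n_x is the number of rows of T with letter x (an Option value; all distinct classes)
then card T - card (ims X T) = sum over classes of (n_x - 1) >= sum of (C(n_x, 2) - C(n_x, 3)), because n - 1 >= C(n,2) - C(n,3) for n >= 1; and
sum C(n_x,2) = number of pairs i < j < w with equal letters, sum C(n_x,3) = number of triples. (Alternatively induction on w:
adding the row with index w - 1: if its letter occurs c times among the previous ones, the left side grows by c - C(c,2) <= ind (c >= 1).)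
-/

namespace LCSV

open Finset

private theorem bonf_one {β : Type*} (f : ℕ → β) (x : β) (m : ℕ) :
    (∑ i ∈ range m, ind (f i = x)) -
      (∑ j ∈ range m, ∑ i ∈ range j, ind (f i = f j ∧ f j = x)) ≤ 1 := by
  induction m with
  | zero => simp
  | succ m ih =>
    rw [sum_range_succ, sum_range_succ (fun j => ∑ i ∈ range j, ind (f i = f j ∧ f j = x))]
    have he : 0 ≤ ∑ j ∈ range m, ∑ i ∈ range j, ind (f i = f j ∧ f j = x) :=
      sum_nonneg fun _ _ => sum_nonneg fun _ _ => ind_nonneg _
    by_cases h : f m = x
    · have h2 : ∑ i ∈ range m, ind (f i = f m ∧ f m = x) = ∑ i ∈ range m, ind (f i = x) := by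
        apply sum_congr rfl
        intro i _
        rw [h]
        simp
      rw [h2, ind_true h]
      linarith
    · have h2 : ∑ i ∈ range m, ind (f i = f m ∧ f m = x) = 0 :=
        sum_eq_zero (fun i _ => ind_false (fun hh => h hh.2))
      rw [ind_false h, h2]
      linarith

private theorem bonf_ind {β : Type*} [DecidableEq β] (f : ℕ → β) (w : ℕ) :
    (∑ j ∈ range w, ∑ i ∈ range j, ind (f i = f j)) -
      (∑ t ∈ range w, ∑ j ∈ range t, ∑ i ∈ range j, ind (f i = f j ∧ f j = f t)) ≤
      (w : ℝ) - (((range w).image f).card : ℝ) := by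
  induction w with
  | zero => simp
  | succ w ih =>
    rw [sum_range_succ, sum_range_succ (fun t => ∑ j ∈ range t, ∑ i ∈ range j,
      ind (f i = f j ∧ f j = f t))]
    have h1 := bonf_one f (f w) w
    rw [range_add_one, image_insert]
    by_cases h : f w ∈ (range w).image f
    · rw [insert_eq_of_mem h]
      push_cast
      linarith
    · rw [card_insert_of_notMem h]
      have hz : ∑ i ∈ range w, ind (f i = f w) = 0 := by
        apply sum_eq_zero
        intro i hi
        apply ind_false
        intro h2
        exact h (h2 ▸ mem_image_of_mem f hi)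
      have he : 0 ≤ ∑ j ∈ range w, ∑ i ∈ range j, ind (f i = f j ∧ f j = f w) :=
        sum_nonneg fun _ _ => sum_nonneg fun _ _ => ind_nonneg _
      push_cast
      linarith

theorem loss_nonneg {α : Type*} [DecidableEq α] (X Y : List α) (s : Finset ℕ) (n : ℕ) :
    0 ≤ loss X Y s n := by
  unfold loss ims
  have h : ((hit (rh X Y) s n).image (fun i => X[i]?)).card ≤ (hit (rh X Y) s n).card :=
    card_image_le
  have h2 : (((hit (rh X Y) s n).image (fun i => X[i]?)).card : ℝ) ≤
      ((hit (rh X Y) s n).card : ℝ) := by exact_mod_cast h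
  linarith

private theorem bonf_sub {α : Type*} [DecidableEq α] (X : List α) (T S : Finset ℕ)
    (h : T ⊆ S) : (T.card : ℝ) - ((ims X T).card : ℝ) ≤ (S.card : ℝ) - ((ims X S).card : ℝ) := by
  have h1 : ims X S ⊆ ims X T ∪ ims X (S \ T) := by
    unfold ims
    rw [← image_union, union_sdiff_of_subset h]
  have h2 := (card_le_card h1).trans (card_union_le _ _)
  have h3 : (ims X (S \ T)).card ≤ (S \ T).card := card_image_le
  have h4 : (S \ T).card + T.card = S.card := card_sdiff_add_card_eq_card h
  have h5 : (ims X S).card + T.card ≤ (ims X T).card + S.card := by omega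
  have h6 : ((ims X S).card : ℝ) + (T.card : ℝ) ≤ ((ims X T).card : ℝ) + (S.card : ℝ) := by
    exact_mod_cast h5
  linarith

private theorem bonf_fv {α : Type*} [DecidableEq α] (X Y : List α) (s : Finset ℕ) (n w : ℕ)
    (h : tp (rh X Y) s n w) (j : ℕ) (hj : j ≤ w) :
    fv (rh X Y) s (lm (rh X Y) s n - j) = Mx (rh X Y) s n := by
  induction j with
  | zero =>
    rw [Nat.sub_zero]
    exact fv_lm (rh X Y) s n
  | succ j ih =>
    have ih' := ih (by omega)
    obtain ⟨hw, ht'⟩ := h
    have hle := lm_le (rh X Y) s n
    have e : lm (rh X Y) s n - j = (lm (rh X Y) s n - (j + 1)) + 1 := by omega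
    rw [e] at ih'
    have hns := ht' (lm (rh X Y) s n - (j + 1)) (by omega) (by omega)
    have h1 := ht_succ s (lm (rh X Y) s n - (j + 1))
    rw [if_neg hns] at h1
    have h2 : rh X Y ((lm (rh X Y) s n - (j + 1)) + 1) ≤ rh X Y (lm (rh X Y) s n - (j + 1)) :=
      rh_antitone X Y (Nat.le_succ _)
    have h3 : fv (rh X Y) s (lm (rh X Y) s n - (j + 1)) ≤ Mx (rh X Y) s n :=
      fv_le_Mx (by omega)
    have h4 : fv (rh X Y) s ((lm (rh X Y) s n - (j + 1)) + 1) ≤
        fv (rh X Y) s (lm (rh X Y) s n - (j + 1)) := by
      unfold fv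
      omega
    omega

theorem bonf {α : Type*} [DecidableEq α] (X Y : List α) (s : Finset ℕ) (n w : ℕ)
    (h : tp (rh X Y) s n w) :
    (∑ j ∈ range w, ∑ i ∈ range j,
        ind (X[lm (rh X Y) s n - w + i]? = X[lm (rh X Y) s n - w + j]?)) -
      (∑ t ∈ range w, ∑ j ∈ range t, ∑ i ∈ range j,
        ind (X[lm (rh X Y) s n - w + i]? = X[lm (rh X Y) s n - w + j]? ∧
          X[lm (rh X Y) s n - w + j]? = X[lm (rh X Y) s n - w + t]?)) ≤
      loss X Y s n := by
  have hle := lm_le (rh X Y) s n
  have hw := h.1
  have hsub : Ico (lm (rh X Y) s n - w) (lm (rh X Y) s n) ⊆ hit (rh X Y) s n := by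
    intro i hi
    rw [mem_Ico] at hi
    unfold hit
    rw [mem_filter, mem_range]
    refine ⟨by omega, h.2 i hi.1 hi.2, ?_⟩
    have h1 := bonf_fv X Y s n w h (lm (rh X Y) s n - (i + 1)) (by omega)
    rw [show lm (rh X Y) s n - (lm (rh X Y) s n - (i + 1)) = i + 1 by omega] at h1
    exact h1
  have h1 := bonf_sub X _ _ hsub
  have h2 := bonf_ind (fun i => X[lm (rh X Y) s n - w + i]?) w
  have h3 : ims X (Ico (lm (rh X Y) s n - w) (lm (rh X Y) s n)) =
      (range w).image (fun i => X[lm (rh X Y) s n - w + i]?) := by
    unfold ims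
    ext y
    rw [mem_image, mem_image]
    constructor
    · rintro ⟨i, hi, rfl⟩
      rw [mem_Ico] at hi
      refine ⟨i - (lm (rh X Y) s n - w), ?_, ?_⟩
      · rw [mem_range]
        omega
      · show X[lm (rh X Y) s n - w + (i - (lm (rh X Y) s n - w))]? = X[i]?
        rw [show lm (rh X Y) s n - w + (i - (lm (rh X Y) s n - w)) = i by omega]
    · rintro ⟨i, hi, rfl⟩
      rw [mem_range] at hi
      refine ⟨lm (rh X Y) s n - w + i, ?_, rfl⟩
      rw [mem_Ico]
      omega
  rw [h3, Nat.card_Ico, show lm (rh X Y) s n - (lm (rh X Y) s n - w) = w by omega] at h1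
  exact h2.trans h1

end LCSV
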