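import Pool.Agent.LCSV.Geo

/-!
# Mean and second moment of card hit

geo_mean: flipE with G i s = ind (fgap rho s n = i + 1). For i not in s (i < n): G i (insert i s) = 1 iff i in hit rho s n
(fgap_insert and mem_hit_of_fgap), so the inner sum on the left is card hit. On the right: sum over i in s of G i s =
1 if fgap rho s n is not 0 (fgap_pos), else 0, i.e. 1 - ind (Mx rho s n = rho 0) (fgap_eq_zero).
geo_mean_le: immediate. geo_sq: card^2 = sum over 1 <= u <= card of (2u - 1), card <= n, so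
Ex card^2 = sum over u in 1..n of (2u-1) P u <= sum over all u >= 1 of (2u-1) (1-a)^u <= 2 / a^2.
(sum u x^(u-1) = 1/(1-x)^2 with x = 1 - a; or prove sum over u in range N of (2u+1)(1-a)^(u+1) <= 2/a^2 by an explicit
telescoping bound.)
-/

namespace LCSV

open Finset

theorem GeoE_left (rho : ℕ → ℕ) (s : Finset ℕ) (n : ℕ) :
    ∑ i ∈ range n \ s, ind (fgap rho (insert i s) n = i + 1) = ((hit rho s n).card : ℝ) := by
  have h1 : ∀ i ∈ range n \ s, ind (fgap rho (insert i s) n = i + 1) =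
      if i ∈ hit rho s n then (1 : ℝ) else 0 := by
    intro i hi
    rw [mem_sdiff, mem_range] at hi
    by_cases h : i ∈ hit rho s n
    · rw [if_pos h, ind_true (fgap_insert h)]
    · rw [if_neg h, ind_false]
      intro h2
      exact h (mem_hit_of_fgap hi.2 hi.1 h2)
  rw [sum_congr rfl h1, sum_ite, sum_const_zero, add_zero, sum_const, nsmul_eq_mul, mul_one]
  congr 2
  ext i
  rw [mem_filter]
  constructor
  · exact fun h => h.2
  · intro h
    refine ⟨?_, h⟩
    unfold hit at h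
    rw [mem_filter] at h
    exact mem_sdiff.2 ⟨h.1, h.2.1⟩

theorem GeoE_right (rho : ℕ → ℕ) (hr : Antitone rho) (s : Finset ℕ) (n : ℕ) :
    ∑ i ∈ s, ind (fgap rho s n = i + 1) = 1 - ind (Mx rho s n = rho 0) := by
  by_cases h : fgap rho s n = 0
  · rw [ind_true (fgap_eq_zero.1 h), sub_self]
    refine sum_eq_zero fun i _ => ind_false ?_
    omega
  · rw [ind_false (fun h2 => h (fgap_eq_zero.2 h2)), sub_zero]
    obtain ⟨i, hi, _, hi2⟩ := fgap_pos hr h
    rw [sum_eq_single_of_mem i hi, ind_true hi2]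
    intro j _ hj
    apply ind_false
    omega

theorem geo_mean (a : ℝ) (rho : ℕ → ℕ) (hr : Antitone rho) (n : ℕ) :
    a * Ex a n (fun s => ((hit rho s n).card : ℝ)) =
      (1 - a) * (1 - Ex a n (fun s => ind (Mx rho s n = rho 0))) := by
  have h := flipE a n (fun i s => ind (fgap rho s n = i + 1))
  simp only [GeoE_left, GeoE_right rho hr] at h
  rw [h, Ex_sub, Ex_const]

theorem geo_mean_le (a : ℝ) (h0 : 0 < a) (h1 : a < 1) (rho : ℕ → ℕ) (hr : Antitone rho) (n : ℕ) :
    Ex a n (fun s => ((hit rho s n).card : ℝ)) ≤ 1 / a - 1 := by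
  have h := geo_mean a rho hr n
  have h2 : 0 ≤ Ex a n (fun s => ind (Mx rho s n = rho 0)) :=
    Ex_nonneg h0.le h1.le fun s _ => ind_nonneg _
  have h3 : 1 / a - 1 = (1 - a) / a := by
    field_simp
  rw [h3, le_div_iff₀ h0]
  nlinarith

theorem GeoE_sum (x : ℝ) (N : ℕ) :
    (1 - x) ^ 2 * ∑ u ∈ range N, (2 * (u : ℝ) + 1) * x ^ (u + 1) =
      x * (1 + x) - x ^ (N + 1) * ((2 * (N : ℝ) + 1) * (1 - x) + 2 * x) := by
  induction N with
  | zero =>
    simp
    ring
  | succ N ih =>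
    rw [sum_range_succ, mul_add, ih]
    push_cast
    ring

theorem GeoE_sq (m n : ℕ) (h : m ≤ n) :
    (m : ℝ) ^ 2 = ∑ u ∈ range n, (2 * (u : ℝ) + 1) * ind (u + 1 ≤ m) := by
  have h1 : ∀ m : ℕ, (m : ℝ) ^ 2 = ∑ u ∈ range m, (2 * (u : ℝ) + 1) := by
    intro m
    induction m with
    | zero => simp
    | succ m ih =>
      rw [sum_range_succ, ← ih]
      push_cast
      ring
  rw [h1 m]
  have h2 : ∑ u ∈ range m, (2 * (u : ℝ) + 1) =
      ∑ u ∈ range m, (2 * (u : ℝ) + 1) * ind (u + 1 ≤ m) := by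
    refine sum_congr rfl fun u hu => ?_
    rw [mem_range] at hu
    rw [ind_true (by omega), mul_one]
  rw [h2]
  apply sum_subset (range_subset_range.2 h)
  intro u _ hu
  rw [mem_range] at hu
  rw [ind_false (by omega), mul_zero]

theorem geo_sq (a : ℝ) (h0 : 0 < a) (h1 : a < 1) (rho : ℕ → ℕ) (n : ℕ) :
    Ex a n (fun s => ((hit rho s n).card : ℝ) ^ 2) ≤ 2 / a ^ 2 := by
  have hcard : ∀ s, (hit rho s n).card ≤ n := by
    intro s
    calc (hit rho s n).card ≤ (range n).card := card_le_card (filter_subset _ _)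
      _ = n := card_range n
  have h2 : Ex a n (fun s => ((hit rho s n).card : ℝ) ^ 2) =
      ∑ u ∈ range n, (2 * (u : ℝ) + 1) * Ex a n (fun s => ind (u + 1 ≤ (hit rho s n).card)) := by
    have h3 : Ex a n (fun s => ((hit rho s n).card : ℝ) ^ 2) =
        Ex a n (fun s => ∑ u ∈ range n, (2 * (u : ℝ) + 1) * ind (u + 1 ≤ (hit rho s n).card)) :=
      Ex_congr fun s _ => GeoE_sq _ _ (hcard s)
    rw [h3, Ex_sum]
    exact sum_congr rfl fun u _ => Ex_mul_left _ _
  have h4 : ∑ u ∈ range n, (2 * (u : ℝ) + 1) * Ex a n (fun s => ind (u + 1 ≤ (hit rho s n).card)) ≤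
      ∑ u ∈ range n, (2 * (u : ℝ) + 1) * (1 - a) ^ (u + 1) :=
    sum_le_sum fun u _ =>
      mul_le_mul_of_nonneg_left (geo_tail a h0 h1 rho n (u + 1)) (by positivity)
  have h5 := GeoE_sum (1 - a) n
  have h6 : 0 ≤ (1 - a) ^ (n + 1) * ((2 * (n : ℝ) + 1) * (1 - (1 - a)) + 2 * (1 - a)) := by
    have : 0 ≤ 1 - a := by linarith
    have : 0 ≤ 1 - (1 - a) := by linarith
    positivity
  rw [h2, le_div_iff₀ (by positivity)]
  have h7 : (1 - a) * (1 + (1 - a)) ≤ 2 := by nlinarith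
  have h8 : (∑ u ∈ range n, (2 * (u : ℝ) + 1) * (1 - a) ^ (u + 1)) * a ^ 2 ≤ 2 := by
    have : (1 - (1 - a)) ^ 2 = a ^ 2 := by ring
    rw [this] at h5
    linarith
  refine le_trans ?_ h8
  exact mul_le_mul_of_nonneg_right h4 (by positivity)

end LCSV
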