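import Pool.Agent.LCSV.TelE
import Pool.Agent.LCSV.GeoE
import Pool.Agent.LCSV.Bonf
import Pool.Agent.LCSV.LcsA

/-!
# Improved upper bound for the uniform random word

If m <= l0 the last term is nonnegative (c >= 0) and the bound follows from DUp (average over X). Otherwise take n = N + K at least
the n1 of hloss for all l in [l0, m). For X = X0 ++ X1 with X0.length = N, X1.length = K: the gap N gives
Mx (rh X Y) s n >= ht s N + lcs X1 Y. Average over s (Ex a n (ht s N) = a N: ht s N = sum over i < N of the indicator of i in s, or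
Ex_card for the restriction), Y and X: a N + vK k K m <= E Mx = a n + (1/k) sum over l < m (E card hit - E loss)
<= a n + (m/k)(1/a - 1) - (1/k)(m - l0) c (EMx_sum, loss = card hit - card ims, geo_mean_le, loss_nonneg for l < l0, hloss for l >= l0).
-/

namespace LCSV

open Finset

/-- expected lcs of two independent uniform words of lengths K and m -/
noncomputable def vK (k K m : ℕ) : ℝ :=
  EL (un k) K (fun X => EL (un k) m (fun Y => (lcs X Y : ℝ)))

theorem DVup_Ex_succ (a : ℝ) (n : ℕ) (F : Finset ℕ → ℝ) :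
    Ex a (n + 1) F = (1 - a) * Ex a n F + a * Ex a n (fun s => F (insert n s)) := by
  unfold Ex
  rw [Finset.range_add_one, Finset.sum_powerset_insert (Finset.notMem_range_self), Finset.mul_sum,
    Finset.mul_sum]
  congr 1
  · refine Finset.sum_congr rfl (fun s hs => ?_)
    rw [Finset.mem_powerset] at hs
    have hc : s.card ≤ n := by simpa using Finset.card_le_card hs
    unfold wt
    rw [show n + 1 - s.card = (n - s.card) + 1 by omega, pow_succ]
    ring
  · refine Finset.sum_congr rfl (fun s hs => ?_)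
    rw [Finset.mem_powerset] at hs
    have hn : n ∉ s := fun h => by simpa using hs h
    unfold wt
    rw [Finset.card_insert_of_notMem hn, show n + 1 - (s.card + 1) = n - s.card by omega, pow_succ]
    ring

theorem Ex_ht (a : ℝ) (n N : ℕ) (h : N ≤ n) : Ex a n (fun s => (ht s N : ℝ)) = a * N := by
  induction n, h using Nat.le_induction with
  | base =>
    rw [← Ex_card (a := a) (n := N)]
    exact Ex_congr (fun s hs => by rw [ht_card hs])
  | succ n hn ih =>
    rw [DVup_Ex_succ]
    have h2 : Ex a n (fun s => (ht (insert n s) N : ℝ)) = Ex a n (fun s => (ht s N : ℝ)) := by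
      refine Ex_congr (fun s hs => ?_)
      have hns : n ∉ s := fun h => by simpa using hs h
      rw [ht_insert hns, if_neg (by omega), Nat.add_zero]
    rw [h2, ih]
    ring

theorem dVup (k : ℕ) (hk : 0 < k) (a : ℝ) (h0 : 0 < a) (h1 : a < 1) (c : ℝ) (hc : 0 ≤ c) (l0 : ℕ)
    (hloss : ∀ l ≥ l0, ∃ n1 : ℕ, ∀ n ≥ n1,
      c ≤ EL (un k) n (fun X => EL (un k) l (fun Y => Ex a n (fun s => loss X Y s n))))
    (K m : ℕ) :
    vK k K m ≤ a * K + m / k * (1 / a - 1) - c / k * ((m : ℝ) - l0) := by
  have hP : IsP (un k) := un_isP hk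
  have hkR : (0 : ℝ) < k := by exact_mod_cast hk
  choose! n1 hn1 using hloss
  set N := (range m).sup n1 with hN
  have hNl : ∀ l < m, n1 l ≤ N := fun l hl => Finset.le_sup (f := n1) (Finset.mem_range.2 hl)
  -- lower bound of the mean of Mx
  have hlow : a * N + vK k K m ≤ EL (un k) (N + K) (fun X => EL (un k) m (fun Y =>
      Ex a (N + K) (fun s => (Mx (rh X Y) s (N + K) : ℝ)))) := by
    rw [EL_append]
    have e1 : a * N + vK k K m = EL (un k) N (fun _ => EL (un k) K (fun X1 => EL (un k) m (fun Y =>
        a * (N : ℝ) + (lcs X1 Y : ℝ)))) := by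
      rw [EL_const hP]
      have e2 : ∀ X1 : List (Fin k), EL (un k) m (fun Y => a * (N : ℝ) + (lcs X1 Y : ℝ)) =
          a * (N : ℝ) + EL (un k) m (fun Y => (lcs X1 Y : ℝ)) := by
        intro X1
        rw [EL_add, EL_const hP]
      simp only [e2]
      rw [EL_add, EL_const hP]
      rfl
    rw [e1]
    refine EL_mono hP (fun X0 hX0 => EL_mono hP (fun X1 hX1 => EL_mono hP (fun Y hY => ?_)))
    have e3 : a * (N : ℝ) + (lcs X1 Y : ℝ) =
        Ex a (N + K) (fun s => (ht s N : ℝ) + (lcs X1 Y : ℝ)) := by
      rw [Ex_add, Ex_const, Ex_ht a (N + K) N (by omega)]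
    rw [e3]
    refine Ex_mono h0.le h1.le (fun s hs => ?_)
    have h4 : fv (rh (X0 ++ X1) Y) s N ≤ Mx (rh (X0 ++ X1) Y) s (N + K) := fv_le_Mx (by omega)
    have h5 : fv (rh (X0 ++ X1) Y) s N = ht s N + lcs X1 Y := by
      unfold fv rh
      rw [← hX0, List.drop_left]
    rw [h5] at h4
    exact_mod_cast h4
  -- the exact value
  have hup : EL (un k) (N + K) (fun X => EL (un k) m (fun Y =>
      Ex a (N + K) (fun s => (Mx (rh X Y) s (N + K) : ℝ)))) ≤
      a * ((N + K : ℕ) : ℝ) + 1 / (k : ℝ) * ∑ l ∈ range m, ((1 / a - 1) -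
        EL (un k) (N + K) (fun X => EL (un k) l (fun Y => Ex a (N + K) (fun s =>
          loss X Y s (N + K))))) := by
    have e1 : EL (un k) (N + K) (fun X => EL (un k) m (fun Y =>
        Ex a (N + K) (fun s => (Mx (rh X Y) s (N + K) : ℝ)))) =
        EL (un k) (N + K) (fun X => a * ((N + K : ℕ) : ℝ) + 1 / (k : ℝ) * ∑ l ∈ range m,
          EL (un k) l (fun Y => Ex a (N + K) (fun s =>
            ((ims X (hit (rh X Y) s (N + K))).card : ℝ)))) :=
      EL_congr (fun X hX => EMx_sum k hk a X (N + K) hX m)
    rw [e1, EL_add, EL_const hP, EL_mul_left, EL_sum]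
    have h6 : ∀ l, EL (un k) (N + K) (fun X => EL (un k) l (fun Y => Ex a (N + K) (fun s =>
            ((ims X (hit (rh X Y) s (N + K))).card : ℝ)))) ≤ (1 / a - 1) -
        EL (un k) (N + K) (fun X => EL (un k) l (fun Y => Ex a (N + K) (fun s =>
          loss X Y s (N + K)))) := by
      intro l
      have e7 : (1 / a - 1) - EL (un k) (N + K) (fun X => EL (un k) l (fun Y =>
          Ex a (N + K) (fun s => loss X Y s (N + K)))) =
          EL (un k) (N + K) (fun X => EL (un k) l (fun Y => (1 / a - 1) -
            Ex a (N + K) (fun s => loss X Y s (N + K)))) := by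
        have e8 : ∀ X : List (Fin k), EL (un k) l (fun Y => (1 / a - 1) -
            Ex a (N + K) (fun s => loss X Y s (N + K))) = (1 / a - 1) -
            EL (un k) l (fun Y => Ex a (N + K) (fun s => loss X Y s (N + K))) := by
          intro X
          rw [EL_sub, EL_const hP]
        simp only [e8]
        rw [EL_sub, EL_const hP]
      rw [e7]
      refine EL_mono hP (fun X hX => EL_mono hP (fun Y hY => ?_))
      have h9 := geo_mean_le a h0 h1 (rh X Y) (rh_antitone X Y) (N + K)
      have e10 : Ex a (N + K) (fun s => ((ims X (hit (rh X Y) s (N + K))).card : ℝ)) =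
          Ex a (N + K) (fun s => ((hit (rh X Y) s (N + K)).card : ℝ)) -
          Ex a (N + K) (fun s => loss X Y s (N + K)) := by
        rw [← Ex_sub]
        refine Ex_congr (fun s hs => ?_)
        unfold loss
        ring
      rw [e10]
      linarith
    have h7 : ∑ l ∈ range m, EL (un k) (N + K) (fun X => EL (un k) l (fun Y =>
          Ex a (N + K) (fun s => ((ims X (hit (rh X Y) s (N + K))).card : ℝ)))) ≤
        ∑ l ∈ range m, ((1 / a - 1) -
        EL (un k) (N + K) (fun X => EL (un k) l (fun Y => Ex a (N + K) (fun s =>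
          loss X Y s (N + K))))) := Finset.sum_le_sum (fun l _ => h6 l)
    have h8 : (0 : ℝ) ≤ 1 / (k : ℝ) := by positivity
    have h9 := mul_le_mul_of_nonneg_left h7 h8
    linarith
  -- the loss
  have hl : c * ((m : ℝ) - l0) ≤ ∑ l ∈ range m, EL (un k) (N + K) (fun X => EL (un k) l (fun Y =>
      Ex a (N + K) (fun s => loss X Y s (N + K)))) := by
    have h10 : ∀ l ∈ range m, (if l0 ≤ l then c else 0) ≤ EL (un k) (N + K) (fun X =>
        EL (un k) l (fun Y => Ex a (N + K) (fun s => loss X Y s (N + K)))) := by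
      intro l hl
      split_ifs with hl0
      · exact hn1 l hl0 (N + K) (le_trans (hNl l (Finset.mem_range.1 hl)) (by omega))
      · exact EL_nonneg hP (fun X hX => EL_nonneg hP (fun Y hY =>
          Ex_nonneg h0.le h1.le (fun s hs => loss_nonneg X Y s (N + K))))
    refine le_trans ?_ (Finset.sum_le_sum h10)
    have h11 : ∀ m : ℕ, c * ((m : ℝ) - l0) ≤ ∑ l ∈ range m, (if l0 ≤ l then c else 0) ∧
        0 ≤ ∑ l ∈ range m, (if l0 ≤ l then c else 0) := by
      intro m
      induction m with
      | zero =>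
        simp only [Finset.range_zero, Finset.sum_empty, le_refl, and_true, Nat.cast_zero]
        have : (0 : ℝ) ≤ l0 := Nat.cast_nonneg _
        nlinarith
      | succ m ih =>
        rw [Finset.sum_range_succ]
        push_cast
        split_ifs with hm
        · constructor <;> nlinarith [ih.1, ih.2]
        · push Not at hm
          have : ((m : ℝ) + 1) ≤ l0 := by exact_mod_cast hm
          constructor
          · have : c * ((m : ℝ) + 1 - l0) ≤ 0 := mul_nonpos_of_nonneg_of_nonpos hc (by linarith)
            linarith [ih.2]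
          · linarith [ih.2]
    exact (h11 m).1
  rw [Finset.sum_sub_distrib, Finset.sum_const, Finset.card_range, nsmul_eq_mul] at hup
  push_cast at hup
  have h12 : 1 / (k : ℝ) * (c * ((m : ℝ) - l0)) ≤ 1 / (k : ℝ) *
      ∑ l ∈ range m, EL (un k) (N + K) (fun X => EL (un k) l (fun Y =>
      Ex a (N + K) (fun s => loss X Y s (N + K)))) := mul_le_mul_of_nonneg_left hl (by positivity)
  have e13 : a * K + m / k * (1 / a - 1) - c / k * ((m : ℝ) - l0) =
      a * K + 1 / (k : ℝ) * (m * (1 / a - 1)) - 1 / (k : ℝ) * (c * ((m : ℝ) - l0)) := by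
    field_simp
  rw [e13]
  have e14 : 1 / (k : ℝ) * ((m : ℝ) * (1 / a - 1) - ∑ l ∈ range m, EL (un k) (N + K) (fun X =>
      EL (un k) l (fun Y => Ex a (N + K) (fun s => loss X Y s (N + K))))) =
      1 / (k : ℝ) * ((m : ℝ) * (1 / a - 1)) - 1 / (k : ℝ) * ∑ l ∈ range m, EL (un k) (N + K)
      (fun X => EL (un k) l (fun Y => Ex a (N + K) (fun s => loss X Y s (N + K)))) := by
    ring
  rw [e14] at hup
  linarith

end LCSV
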