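import Pool.Agent.LCSV.LcsA
import Pool.Agent.LCSV.LcsB
import Pool.Agent.LCSV.DVup

/-!
# Block decomposition (deterministic part and expectations)

Gs K ms X Y: sum over the blocks b of lcs X_b Y_b plus the lcs of the leftovers (X_b = b-th block of K letters, Y_b = consecutive pieces of lengths ms).
Bs: the same without the leftovers. Ws w ms Y = sum of lcs w Y_b.
blk_le: lcs_append_ge. blk_opt: by induction on N with lcs_split (x = X.take K, x' = X.drop K).
blk_repl: lcs (repl K w b X) Y >= Gs K ms X Y - lcs X_b Y_b + lcs w Y_b for each b < N (induction on ms; repl K w 0 X = w ++ X.drop K,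
repl K w (b+1) X = X.take K ++ repl K w b (X.drop K) for X.length >= (b+2) K). Sum over b < N.
Differences: changing one letter of X changes at most one of the terms of Gs, Bs and by at most one; the same for a letter of Y and Gs, Bs, Ws (induction on ms).
Expectations: induction on ms with EL_append.
-/

namespace LCSV

open Finset

variable {α : Type*}

noncomputable def Gs (K : ℕ) : List ℕ → List α → List α → ℕ
  | [], X, Y => lcs X Y
  | m :: ms, X, Y => lcs (X.take K) (Y.take m) + Gs K ms (X.drop K) (Y.drop m)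

noncomputable def Bs (K : ℕ) : List ℕ → List α → List α → ℕ
  | [], _, _ => 0
  | m :: ms, X, Y => lcs (X.take K) (Y.take m) + Bs K ms (X.drop K) (Y.drop m)

noncomputable def Ws (w : List α) : List ℕ → List α → ℕ
  | [], _ => 0
  | m :: ms, Y => lcs w (Y.take m) + Ws w ms (Y.drop m)

/-- replace the b-th block of length K by w -/
def repl (K : ℕ) (w : List α) (b : ℕ) (X : List α) : List α :=
  X.take (b * K) ++ (w ++ X.drop ((b + 1) * K))

theorem blk_le (K : ℕ) (ms : List ℕ) (X Y : List α) : Gs K ms X Y ≤ lcs X Y := by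
  induction ms generalizing X Y with
  | nil => exact le_refl _
  | cons m ms ih =>
    have h := lcs_append_ge (X.take K) (X.drop K) (Y.take m) (Y.drop m)
    rw [List.take_append_drop, List.take_append_drop] at h
    have h2 := ih (X.drop K) (Y.drop m)
    show lcs (X.take K) (Y.take m) + Gs K ms (X.drop K) (Y.drop m) ≤ _
    omega

theorem blk_opt (K N : ℕ) (X Y : List α) :
    ∃ ms : List ℕ, ms.length = N ∧ ms.sum ≤ Y.length ∧ Gs K ms X Y = lcs X Y := by
  induction N generalizing X Y with
  | zero => exact ⟨[], rfl, by simp, rfl⟩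
  | succ N ih =>
    obtain ⟨j, hj, e⟩ := lcs_split (X.take K) (X.drop K) Y
    rw [List.take_append_drop] at e
    obtain ⟨ms, h1, h2, h3⟩ := ih (X.drop K) (Y.drop j)
    refine ⟨j :: ms, by simp [h1], ?_, ?_⟩
    · rw [List.sum_cons]
      rw [List.length_drop] at h2
      omega
    · show lcs (X.take K) (Y.take j) + Gs K ms (X.drop K) (Y.drop j) = _
      rw [h3, e]

theorem blk_repl_zero (K : ℕ) (w X : List α) : repl K w 0 X = w ++ X.drop K := by
  simp [repl]

theorem blk_repl_succ (K : ℕ) (w X : List α) (b : ℕ) :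
    repl K w (b + 1) X = X.take K ++ repl K w b (X.drop K) := by
  unfold repl
  rw [List.drop_drop, ← List.append_assoc (X.take K), ← List.take_add]
  congr 2
  · ring
  · congr 1
    ring

theorem blk_repl (K : ℕ) (w : List α) (ms : List ℕ) (X Y : List α)
    (hX : ms.length * K ≤ X.length) :
    ms.length * Gs K ms X Y + Ws w ms Y ≤
      (∑ b ∈ range ms.length, lcs (repl K w b X) Y) + Bs K ms X Y := by
  clear hX
  induction ms generalizing X Y with
  | nil => simp [Ws, Bs]
  | cons m ms ih =>
    have ih' := ih (X.drop K) (Y.drop m)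
    rw [List.length_cons, sum_range_succ']
    have h0 : lcs w (Y.take m) + Gs K ms (X.drop K) (Y.drop m) ≤ lcs (repl K w 0 X) Y := by
      rw [blk_repl_zero]
      have h := lcs_append_ge w (X.drop K) (Y.take m) (Y.drop m)
      rw [List.take_append_drop] at h
      have h2 := blk_le K ms (X.drop K) (Y.drop m)
      omega
    have h1 : ∀ b ∈ range ms.length, lcs (X.take K) (Y.take m) +
        lcs (repl K w b (X.drop K)) (Y.drop m) ≤ lcs (repl K w (b + 1) X) Y := by
      intro b _
      rw [blk_repl_succ]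
      have h := lcs_append_ge (X.take K) (repl K w b (X.drop K)) (Y.take m) (Y.drop m)
      rwa [List.take_append_drop] at h
    have h2 := Finset.sum_le_sum h1
    rw [Finset.sum_add_distrib, Finset.sum_const, Finset.card_range, smul_eq_mul] at h2
    have e1 : Gs K (m :: ms) X Y = lcs (X.take K) (Y.take m) + Gs K ms (X.drop K) (Y.drop m) := rfl
    have e2 : Bs K (m :: ms) X Y = lcs (X.take K) (Y.take m) + Bs K ms (X.drop K) (Y.drop m) := rfl
    have e3 : Ws w (m :: ms) Y = lcs w (Y.take m) + Ws w ms (Y.drop m) := rfl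
    rw [e1, e2, e3]
    nlinarith

theorem blk_td (K : ℕ) (x1 x2 : List α) :
    (∀ a, (x1 ++ a :: x2).take K = x1.take K ∧ (x1 ++ a :: x2).drop K = x1.drop K ++ a :: x2) ∨
    (∃ x3 x4 : List α, ∀ a, (x1 ++ a :: x2).take K = x1 ++ a :: x3 ∧ (x1 ++ a :: x2).drop K = x4) := by
  rcases Nat.lt_or_ge x1.length K with h | h
  · right
    obtain ⟨d, rfl⟩ := Nat.exists_eq_add_of_lt h
    refine ⟨x2.take d, x2.drop d, fun a => ⟨?_, ?_⟩⟩
    · rw [show x1.length + d + 1 = x1.length + (d + 1) by ring, List.take_length_add_append]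
      rfl
    · rw [show x1.length + d + 1 = x1.length + (d + 1) by ring, List.drop_length_add_append]
      rfl
  · left
    intro a
    exact ⟨List.take_append_of_le_length h, List.drop_append_of_le_length h⟩

theorem Gs_diff_left (K : ℕ) (ms : List ℕ) (x1 x2 Y : List α) (a b : α) :
    |(Gs K ms (x1 ++ a :: x2) Y : ℝ) - Gs K ms (x1 ++ b :: x2) Y| ≤ 1 := by
  induction ms generalizing x1 x2 Y with
  | nil => exact lcs_change x1 x2 Y a b
  | cons m ms ih =>
    simp only [Gs]
    rcases blk_td K x1 x2 with h | ⟨x3, x4, h⟩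
    · rw [(h a).1, (h a).2, (h b).1, (h b).2]
      push_cast
      rw [add_sub_add_left_eq_sub]
      exact ih _ _ _
    · rw [(h a).1, (h a).2, (h b).1, (h b).2]
      push_cast
      rw [add_sub_add_right_eq_sub]
      exact lcs_change _ _ _ _ _

theorem Gs_diff_right (K : ℕ) (ms : List ℕ) (X y1 y2 : List α) (a b : α) :
    |(Gs K ms X (y1 ++ a :: y2) : ℝ) - Gs K ms X (y1 ++ b :: y2)| ≤ 1 := by
  induction ms generalizing X y1 y2 with
  | nil => exact lcs_change_right X y1 y2 a b
  | cons m ms ih =>
    simp only [Gs]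
    rcases blk_td m y1 y2 with h | ⟨x3, x4, h⟩
    · rw [(h a).1, (h a).2, (h b).1, (h b).2]
      push_cast
      rw [add_sub_add_left_eq_sub]
      exact ih _ _ _
    · rw [(h a).1, (h a).2, (h b).1, (h b).2]
      push_cast
      rw [add_sub_add_right_eq_sub]
      exact lcs_change_right _ _ _ _ _

theorem Bs_diff_left (K : ℕ) (ms : List ℕ) (x1 x2 Y : List α) (a b : α) :
    |(Bs K ms (x1 ++ a :: x2) Y : ℝ) - Bs K ms (x1 ++ b :: x2) Y| ≤ 1 := by
  induction ms generalizing x1 x2 Y with
  | nil => simp [Bs]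
  | cons m ms ih =>
    simp only [Bs]
    rcases blk_td K x1 x2 with h | ⟨x3, x4, h⟩
    · rw [(h a).1, (h a).2, (h b).1, (h b).2]
      push_cast
      rw [add_sub_add_left_eq_sub]
      exact ih _ _ _
    · rw [(h a).1, (h a).2, (h b).1, (h b).2]
      push_cast
      rw [add_sub_add_right_eq_sub]
      exact lcs_change _ _ _ _ _

theorem Bs_diff_right (K : ℕ) (ms : List ℕ) (X y1 y2 : List α) (a b : α) :
    |(Bs K ms X (y1 ++ a :: y2) : ℝ) - Bs K ms X (y1 ++ b :: y2)| ≤ 1 := by
  induction ms generalizing X y1 y2 with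
  | nil => simp [Bs]
  | cons m ms ih =>
    simp only [Bs]
    rcases blk_td m y1 y2 with h | ⟨x3, x4, h⟩
    · rw [(h a).1, (h a).2, (h b).1, (h b).2]
      push_cast
      rw [add_sub_add_left_eq_sub]
      exact ih _ _ _
    · rw [(h a).1, (h a).2, (h b).1, (h b).2]
      push_cast
      rw [add_sub_add_right_eq_sub]
      exact lcs_change_right _ _ _ _ _

theorem Ws_diff (w : List α) (ms : List ℕ) (y1 y2 : List α) (a b : α) :
    |(Ws w ms (y1 ++ a :: y2) : ℝ) - Ws w ms (y1 ++ b :: y2)| ≤ 1 := by
  induction ms generalizing y1 y2 with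
  | nil => simp [Ws]
  | cons m ms ih =>
    simp only [Ws]
    rcases blk_td m y1 y2 with h | ⟨x3, x4, h⟩
    · rw [(h a).1, (h a).2, (h b).1, (h b).2]
      push_cast
      rw [add_sub_add_left_eq_sub]
      exact ih _ _
    · rw [(h a).1, (h a).2, (h b).1, (h b).2]
      push_cast
      rw [add_sub_add_right_eq_sub]
      exact lcs_change_right _ _ _ _ _

end LCSV
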