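import Pool.Agent.LCSV.ELb
import Pool.Agent.LCSV.Exa
import Pool.Agent.LCSV.Lcs

/-!
# Two independent words of lengths r, c with r c >= k have a common letter with probability at least 1/2

Z X Y = number of pairs (i, j) with X[i]? = Y[j]? (i < r, j < c). E Z = r c / k =: u >= 1. E Z^2 <= u + u^2: for two different pairs (i,j), (i',j') the
probability that both match is 1/k^2 (all three cases i = i', j = j' or both different). By Cauchy-Schwarz
u^2 = (E Z)^2 = (E (Z ind (Z > 0)))^2 <= E Z^2 P(Z > 0), so P(Z > 0) >= u/(1+u) >= 1/2. lcs X Y = 0 iff there is no common letter iff Z = 0.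
(A convenient form: E over Y of Z(X,Y) for fixed X is r c / k, and E over X, Y of Z^2 can be computed by writing
Z = sum over i of N_i, N_i = number of j with Y[j] = X[i]; or use induction / the letter counts: Z = sum over x of n_x(X) n_x(Y).)
-/

namespace LCSV

open Finset

theorem Box_mean {k : ℕ} (hk : 0 < k) (f : Fin k → ℝ) (n : ℕ) :
    EL (un k) n (fun Y => (Y.map f).sum) = n * (1 / (k : ℝ) * ∑ x, f x) := by
  induction n with
  | zero =>
    show (([] : List (Fin k)).map f).sum = _
    simp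
  | succ n ih =>
    show ∑ x, un k x * EL (un k) n (fun l => ((x :: l).map f).sum) = _
    have h1 : ∀ x, un k x * EL (un k) n (fun l => ((x :: l).map f).sum) =
        un k x * (n * (1 / (k : ℝ) * ∑ x, f x)) + 1 / (k : ℝ) * f x := by
      intro x
      have e : EL (un k) n (fun l => ((x :: l).map f).sum) =
          f x + EL (un k) n (fun Y => (Y.map f).sum) := by
        rw [← EL_const (un_isP hk) n (f x), ← EL_add]
        refine EL_congr fun l _ => ?_
        simp
      rw [e, ih]
      show 1 / (k : ℝ) * _ = 1 / (k : ℝ) * _ + _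
      ring
    rw [Finset.sum_congr rfl fun x _ => h1 x, Finset.sum_add_distrib, ← Finset.sum_mul,
      (un_isP hk).sum_one, ← Finset.mul_sum]
    push_cast
    ring

theorem Box_sq {k : ℕ} (hk : 0 < k) (f : Fin k → ℝ) (n : ℕ) :
    EL (un k) n (fun Y => (Y.map f).sum ^ 2) =
      n * (n - 1) * (1 / (k : ℝ) * ∑ x, f x) ^ 2 + n * (1 / (k : ℝ) * ∑ x, f x ^ 2) := by
  induction n with
  | zero =>
    show (([] : List (Fin k)).map f).sum ^ 2 = _
    simp
  | succ n ih =>
    show ∑ x, un k x * EL (un k) n (fun l => ((x :: l).map f).sum ^ 2) = _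
    have h1 : ∀ x, un k x * EL (un k) n (fun l => ((x :: l).map f).sum ^ 2) =
        un k x * (n * (n - 1) * (1 / (k : ℝ) * ∑ x, f x) ^ 2 +
          n * (1 / (k : ℝ) * ∑ x, f x ^ 2)) +
        (2 * n * (1 / (k : ℝ) * ∑ x, f x)) * (1 / (k : ℝ) * f x) + 1 / (k : ℝ) * f x ^ 2 := by
      intro x
      have e : EL (un k) n (fun l => ((x :: l).map f).sum ^ 2) =
          EL (un k) n (fun Y => (Y.map f).sum ^ 2) +
            2 * f x * EL (un k) n (fun Y => (Y.map f).sum) + f x ^ 2 := by
        have e0 : EL (un k) n (fun _ => f x ^ 2) = f x ^ 2 := EL_const (un_isP hk) n _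
        rw [← EL_mul_left, ← EL_add, ← e0, ← EL_add]
        refine EL_congr fun l _ => ?_
        simp only [List.map_cons, List.sum_cons]
        ring
      rw [e, ih, Box_mean hk]
      show 1 / (k : ℝ) * _ = 1 / (k : ℝ) * _ + _ + _
      ring
    rw [Finset.sum_congr rfl fun x _ => h1 x, Finset.sum_add_distrib, Finset.sum_add_distrib,
      ← Finset.sum_mul, (un_isP hk).sum_one, ← Finset.mul_sum, ← Finset.mul_sum, ← Finset.mul_sum]
    push_cast
    ring

theorem Box_count {k : ℕ} (X : List (Fin k)) : ∑ x, (X.count x : ℝ) = X.length := by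
  induction X with
  | nil => simp
  | cons a X ih =>
    have h : ∀ x, ((a :: X).count x : ℝ) = (X.count x : ℝ) + (if a = x then 1 else 0) := by
      intro x
      rw [List.count_cons]
      push_cast
      congr 1
      by_cases hx : a = x
      · simp [hx]
      · simp [hx]
    rw [Finset.sum_congr rfl fun x _ => h x, Finset.sum_add_distrib, ih]
    simp

theorem Box_map_count {k : ℕ} (x : Fin k) (X : List (Fin k)) :
    (X.count x : ℝ) = (X.map (fun y => if y = x then (1 : ℝ) else 0)).sum := by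
  induction X with
  | nil => simp
  | cons a X ih =>
    rw [List.count_cons, List.map_cons, List.sum_cons, ← ih]
    push_cast
    by_cases hx : a = x
    · simp [hx]; ring
    · simp [hx]

theorem Box_zero {k : ℕ} {X Y : List (Fin k)} (h : lcs X Y = 0) :
    (Y.map (fun y => (X.count y : ℝ))).sum = 0 := by
  have h1 : ∀ y ∈ Y, (X.count y : ℝ) = 0 := by
    intro y hy
    by_contra hne
    have hpos : 0 < X.count y := by
      rcases Nat.eq_zero_or_pos (X.count y) with h0 | h0
      · exact absurd (by exact_mod_cast h0) hne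
      · exact h0
    have hx : y ∈ X := List.count_pos_iff.1 hpos
    have h2 := le_lcs (List.singleton_sublist.2 hx) (List.singleton_sublist.2 hy)
    rw [h] at h2
    simp at h2
  apply List.sum_eq_zero
  intro z hz
  rw [List.mem_map] at hz
  obtain ⟨y, hy, rfl⟩ := hz
  exact h1 y hy

theorem box (k : ℕ) (hk : 0 < k) (r c : ℕ) (h : k ≤ r * c) :
    EL (un k) r (fun X => EL (un k) c (fun Y => ind (lcs X Y = 0))) ≤ 1 / 2 := by
  have hk' : (0 : ℝ) < k := by exact_mod_cast hk
  have hkrc : (k : ℝ) ≤ r * c := by exact_mod_cast h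
  set u : ℝ := r * c / k with hu
  have hu1 : 1 ≤ u := by
    rw [hu, le_div_iff₀ hk']
    linarith
  set t : ℝ := 1 / (1 + u) with ht
  have ht1 : t * (1 + u) = 1 := by
    rw [ht]
    field_simp
  have ht0 : 0 < t := by
    rw [ht]
    positivity
  have hP := un_isP hk
  -- pointwise bound
  have h1 : EL (un k) r (fun X => EL (un k) c (fun Y => ind (lcs X Y = 0))) ≤
      EL (un k) r (fun X => EL (un k) c (fun Y =>
        (1 + (-(2 * t)) * (Y.map (fun y => (X.count y : ℝ))).sum) +
          t ^ 2 * (Y.map (fun y => (X.count y : ℝ))).sum ^ 2)) := by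
    refine EL_mono hP fun X _ => EL_mono hP fun Y _ => ?_
    by_cases h0 : lcs X Y = 0
    · rw [ind_true h0, Box_zero h0]
      norm_num
    · rw [ind_false h0]
      nlinarith [sq_nonneg (1 - t * (Y.map (fun y => (X.count y : ℝ))).sum)]
  -- the inner expectation
  have h2 : EL (un k) r (fun X => EL (un k) c (fun Y =>
        (1 + (-(2 * t)) * (Y.map (fun y => (X.count y : ℝ))).sum) +
          t ^ 2 * (Y.map (fun y => (X.count y : ℝ))).sum ^ 2)) =
      EL (un k) r (fun X => (1 + (-(2 * t)) * u + t ^ 2 * (c * (c - 1) * (r / k) ^ 2)) +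
        (t ^ 2 * (c * (1 / (k : ℝ)))) * ∑ x, (X.count x : ℝ) ^ 2) := by
    refine EL_congr fun X hX => ?_
    rw [EL_add, EL_add, EL_const hP, EL_mul_left, EL_mul_left, Box_mean hk, Box_sq hk, Box_count,
      hX, hu]
    ring
  have h3 : EL (un k) r (fun X => ∑ x, (X.count x : ℝ) ^ 2) =
      k * (r * (r - 1) * (1 / (k : ℝ)) ^ 2 + r * (1 / (k : ℝ))) := by
    rw [EL_sum]
    have h4 : ∀ x : Fin k, EL (un k) r (fun X => (X.count x : ℝ) ^ 2) =
        r * (r - 1) * (1 / (k : ℝ)) ^ 2 + r * (1 / (k : ℝ)) := by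
      intro x
      have e : EL (un k) r (fun X => (X.count x : ℝ) ^ 2) =
          EL (un k) r (fun X => (X.map (fun y => if y = x then (1 : ℝ) else 0)).sum ^ 2) :=
        EL_congr fun X _ => by rw [Box_map_count]
      rw [e, Box_sq hk]
      simp
    rw [Finset.sum_congr rfl fun x _ => h4 x, Finset.sum_const, Finset.card_univ,
      Fintype.card_fin, nsmul_eq_mul]
  rw [h2, EL_add, EL_const hP, EL_mul_left, h3] at h1
  refine h1.trans ?_
  have h5 : (c : ℝ) * (c - 1) * (r / k) ^ 2 +
      (c * (1 / (k : ℝ))) * (k * (r * (r - 1) * (1 / (k : ℝ)) ^ 2 + r * (1 / (k : ℝ)))) =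
      u ^ 2 + u - u / k := by
    rw [hu]
    field_simp
    ring
  have h6 : 0 ≤ u / k := by positivity
  have h7 : 1 + -(2 * t) * u + t ^ 2 * (c * (c - 1) * (r / k) ^ 2) +
      t ^ 2 * (c * (1 / (k : ℝ))) * (k * (r * (r - 1) * (1 / (k : ℝ)) ^ 2 + r * (1 / (k : ℝ)))) =
      1 - 2 * t * u + t ^ 2 * (u ^ 2 + u - u / k) := by
    rw [← h5]
    ring
  rw [h7]
  have h8 : t ^ 2 * (u ^ 2 + u - u / k) ≤ t ^ 2 * (u ^ 2 + u) :=
    mul_le_mul_of_nonneg_left (by linarith) (sq_nonneg t)
  have h9 : t ^ 2 * (u ^ 2 + u) = t * u := by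
    have : t ^ 2 * (u ^ 2 + u) = t * u * (t * (1 + u)) := by ring
    rw [this, ht1, mul_one]
  have h10 : t * u = 1 - t := by
    have := ht1
    nlinarith
  have h11 : t ≤ 1 / 2 := by
    have : t * 2 ≤ t * (1 + u) := mul_le_mul_of_nonneg_left (by linarith) ht0.le
    linarith
  linarith

end LCSV
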