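import Pool.Agent.LCSV.Exa
import Pool.Agent.LCSV.ELb
import Pool.Agent.LCSV.Fv

/-!
# Bit lists versus subsets of range n

EL_bs: induction on n would change the positions, so it is better to split off the LAST element:
EL (be a) (n+1) F = EL (be a) n (fun l => a * F (l ++ [true]) + (1-a) * F (l ++ [false])) (EL_append with second length 1),
bs (l ++ [true]) = insert l.length (bs l), bs (l ++ [false]) = bs l, and
Ex a (n+1) F = Ex a n (fun s => a * F (insert n s) + (1-a) * F s) (Finset.sum_powerset_insert with range_succ).
ht_bs: (bs b).filter (< g) has (b.take g).count true elements.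
-/

namespace LCSV

open Finset

theorem bs_subset (b : List Bool) : bs b ⊆ range b.length := by
  unfold bs
  exact Finset.filter_subset _ _

theorem mem_bs {b : List Bool} {i : ℕ} : i ∈ bs b ↔ b[i]? = some true := by
  unfold bs
  rw [Finset.mem_filter, Finset.mem_range]
  constructor
  · exact fun h => h.2
  · intro h
    refine ⟨?_, h⟩
    obtain ⟨h1, _⟩ := List.getElem?_eq_some_iff.1 h
    exact h1

theorem brg_bs_cons_true (b : List Bool) :
    bs (true :: b) = insert 0 ((bs b).image (fun i => i + 1)) := by
  ext i
  rw [mem_bs, Finset.mem_insert, Finset.mem_image]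
  cases i with
  | zero => simp
  | succ i =>
    simp only [List.getElem?_cons_succ]
    constructor
    · intro h
      exact Or.inr ⟨i, mem_bs.2 h, rfl⟩
    · rintro (h | ⟨j, hj, hj2⟩)
      · omega
      · have h2 : j = i := by omega
        rw [← h2]
        exact mem_bs.1 hj

theorem brg_bs_cons_false (b : List Bool) :
    bs (false :: b) = (bs b).image (fun i => i + 1) := by
  ext i
  rw [mem_bs, Finset.mem_image]
  cases i with
  | zero => simp
  | succ i =>
    simp only [List.getElem?_cons_succ]
    constructor
    · intro h
      exact ⟨i, mem_bs.2 h, rfl⟩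
    · rintro ⟨j, hj, hj2⟩
      have h2 : j = i := by omega
      rw [← h2]
      exact mem_bs.1 hj

theorem brg_snoc_true (b : List Bool) : bs (b ++ [true]) = insert b.length (bs b) := by
  ext i
  rw [mem_bs, Finset.mem_insert, mem_bs]
  rcases lt_trichotomy i b.length with h | h | h
  · rw [List.getElem?_append_left h]
    constructor
    · exact fun h2 => Or.inr h2
    · rintro (h2 | h2)
      · omega
      · exact h2
  · subst h
    simp
  · rw [List.getElem?_eq_none (by rw [List.length_append, List.length_singleton]; omega),
      List.getElem?_eq_none (by omega)]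
    constructor
    · intro h2
      exact absurd h2 (by simp)
    · rintro (h2 | h2)
      · omega
      · exact h2

theorem brg_snoc_false (b : List Bool) : bs (b ++ [false]) = bs b := by
  ext i
  rw [mem_bs, mem_bs]
  rcases lt_trichotomy i b.length with h | h | h
  · rw [List.getElem?_append_left h]
  · subst h
    simp
  · rw [List.getElem?_eq_none (by rw [List.length_append, List.length_singleton]; omega),
      List.getElem?_eq_none (by omega)]

theorem brg_ht (b : List Bool) (g : ℕ) : ht (bs b) g = (b.take g).count true := by
  induction g with
  | zero => simp [ht_zero]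
  | succ g ih =>
    rw [ht_succ, ih]
    by_cases hg : g < b.length
    · rw [List.take_add_one, List.count_append]
      congr 1
      cases hb : b[g] with
      | true =>
        have h2 : b[g]? = some true := by
          rw [List.getElem?_eq_getElem hg, hb]
        rw [if_pos (mem_bs.2 h2), h2]
        simp
      | false =>
        have h2 : b[g]? = some false := by
          rw [List.getElem?_eq_getElem hg, hb]
        rw [if_neg (fun h3 => by rw [mem_bs, h2] at h3; simp at h3), h2]
        simp
    · have h2 : g ∉ bs b := by
        intro h3
        have h4 := Finset.mem_range.1 (bs_subset b h3)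
        exact hg h4
      rw [if_neg h2, List.take_of_length_le (by omega), List.take_of_length_le (by omega)]
      rfl

theorem ht_bs (b : List Bool) (g : ℕ) : ht (bs b) g = (b.take g).count true :=
  brg_ht b g

theorem Ex_succ (a : ℝ) (n : ℕ) (F : Finset ℕ → ℝ) :
    Ex a (n + 1) F = Ex a n (fun s => a * F (insert n s) + (1 - a) * F s) := by
  rw [exa_succ, Ex_add, Ex_mul_left, Ex_mul_left]

theorem EL_bs (a : ℝ) (n : ℕ) (F : Finset ℕ → ℝ) :
    EL (be a) n (fun b => F (bs b)) = Ex a n F := by
  induction n generalizing F with
  | zero =>
    show F (bs []) = Ex a 0 F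
    unfold Ex
    rw [Finset.range_zero, Finset.powerset_empty, Finset.sum_singleton]
    unfold wt bs
    simp
  | succ n ih =>
    rw [Ex_succ, EL_append, ← ih]
    refine EL_congr fun l hl => ?_
    show ∑ x : Bool, be a x * F (bs (l ++ [x])) = _
    rw [Fintype.sum_bool, brg_snoc_true, brg_snoc_false, hl]
    simp [be]

/-- height of a gap of a concatenation -/
theorem ht_bs_append_left (b1 b2 : List Bool) {g : ℕ} (h : g ≤ b1.length) :
    ht (bs (b1 ++ b2)) g = ht (bs b1) g := by
  rw [ht_bs, ht_bs, List.take_append_of_le_length h]

theorem ht_bs_append_right (b1 b2 : List Bool) (g : ℕ) :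
    ht (bs (b1 ++ b2)) (b1.length + g) = b1.count true + ht (bs b2) g := by
  rw [ht_bs, ht_bs, List.take_length_add_append, List.count_append]

end LCSV
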