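import Pool.Agent.LCSV.Loss

/-!
# Construction of the word W with few coincidences

Let N = floor(sqrt(k/8)) >= 1; by Bertrand (Nat.exists_prime_lt_and_le_two_mul) there is a prime q with N < q <= 2 N,
so 2 q^2 <= 8 N^2 <= k and q > sqrt(k/8) - 1, q^2 <= k, and k <= 16 q^2 for k large.
Fix an injection iota : Bool x ZMod q x ZMod q -> Fin k (cardinality 2 q^2 <= k).
For a row index i write i = s q^2 + c q + j, j = i % q, c = (i / q) % q, s = i / q^2 (the sheet).
Polynomial of the sheet: phi_s (j) = sum over e < 15 of d_e(s) j^(e+1) in ZMod q, where d_e(s) = ((s / 2) / q^e) % q is the e-th digit of s / 2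
in base q. W i = iota (s % 2 = 1, j, phi_s (j) + c). Period P = 2 q^15 q^2 (digits e < 15 of s/2 depend on s/2 mod q^15).
near: rows i < i' < i + q^2 are in the same sheet or in sheets s, s + 1; in the second case the parities differ. In the same sheet
equal letters give j = j' and c = c', so i = i'.
far with Q = q^15, kap = 15: windows u < v < u + q^15: window u is (s, c) with u = s q + c. Equal letters of rows of the windows
(s, c) and (s', c') need s, s' of the same parity, the same j and phi_s(j) + c = phi_s'(j) + c'. If s = s' then c = c', impossible for u < v.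
Otherwise s < s', s' - s <= q^14 + 1, so 0 < s'/2 - s/2 < q^15 and the digit vectors (d_e) of s/2 and s'/2 differ
(numbers congruent mod q^15 with difference < q^15 are equal; digits e < 15 determine the number mod q^15).
So sum over e of (d_e(s) - d_e(s')) X^(e+1) + (c - c') is a nonzero polynomial of degree at most 15 over the field ZMod q: at most 15
roots j in ZMod q, i.e. at most 15 rows of the window v.
-/

namespace LCSV

open Finset

/-- the e-th digit of half the sheet, modulo q -/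
def Word_d (q s e : ℕ) : ZMod q := (((s / 2) / q ^ e : ℕ) : ZMod q)

/-- polynomial of the sheet s -/
def Word_phi (q s : ℕ) (x : ZMod q) : ZMod q := ∑ e ∈ range 15, Word_d q s e * x ^ (e + 1)

/-- the index of the letter of the row i -/
def Word_ix (q i : ℕ) : Bool × ZMod q × ZMod q :=
  (decide ((i / q ^ 2) % 2 = 1), (i : ZMod q), Word_phi q (i / q ^ 2) (i : ZMod q) + ((i / q : ℕ) : ZMod q))

theorem Word_digits {q a b : ℕ} (h : ∀ e < 15, ((a / q ^ e : ℕ) : ZMod q) = ((b / q ^ e : ℕ) : ZMod q)) :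
    ∀ m ≤ 15, a % q ^ m = b % q ^ m := by
  intro m
  induction m with
  | zero => intro _; simp [Nat.mod_one]
  | succ m ih =>
    intro hm
    rw [Nat.mod_pow_succ, Nat.mod_pow_succ, ih (by omega)]
    have h1 := h m (by omega)
    rw [ZMod.natCast_eq_natCast_iff'] at h1
    rw [h1]

theorem Word_per {q : ℕ} (hq : 1 ≤ q) (i : ℕ) : Word_ix q (i + 2 * q ^ 15 * q ^ 2) = Word_ix q i := by
  have hq2 : 0 < q ^ 2 := by positivity
  have h1 : (i + 2 * q ^ 15 * q ^ 2) / q ^ 2 = i / q ^ 2 + 2 * q ^ 15 :=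
    Nat.add_mul_div_right _ _ hq2
  have h2 : (i + 2 * q ^ 15 * q ^ 2) / q = i / q + 2 * q ^ 15 * q := by
    have : i + 2 * q ^ 15 * q ^ 2 = i + 2 * q ^ 15 * q * q := by ring
    rw [this]
    exact Nat.add_mul_div_right _ _ (by omega)
  have h3 : ((i + 2 * q ^ 15 * q ^ 2 : ℕ) : ZMod q) = (i : ZMod q) := by
    push_cast
    simp
  have h4 : ((i / q + 2 * q ^ 15 * q : ℕ) : ZMod q) = ((i / q : ℕ) : ZMod q) := by
    push_cast
    simp
  have h5 : (i / q ^ 2 + 2 * q ^ 15) % 2 = (i / q ^ 2) % 2 := by omega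
  have h6 : (i / q ^ 2 + 2 * q ^ 15) / 2 = i / q ^ 2 / 2 + q ^ 15 := by omega
  unfold Word_ix
  rw [h1, h2, h3, h4, h5]
  congr 2
  have h7 : Word_phi q (i / q ^ 2 + 2 * q ^ 15) (i : ZMod q) = Word_phi q (i / q ^ 2) (i : ZMod q) := by
    unfold Word_phi
    refine Finset.sum_congr rfl ?_
    intro e he
    rw [Finset.mem_range] at he
    congr 1
    unfold Word_d
    rw [h6]
    have h8 : q ^ 15 = q ^ (14 - e) * q * q ^ e := by
      rw [← pow_succ, ← pow_add]
      congr 1
      omega
    have h9 : (i / q ^ 2 / 2 + q ^ 15) / q ^ e = i / q ^ 2 / 2 / q ^ e + q ^ (14 - e) * q := by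
      rw [h8]
      exact Nat.add_mul_div_right _ _ (by positivity)
    rw [h9]
    push_cast
    simp
  rw [h7]

theorem Word_div {q i j : ℕ} (h1 : i / q = j / q) (h2 : (i : ZMod q) = (j : ZMod q)) : i = j := by
  rw [ZMod.natCast_eq_natCast_iff'] at h2
  rw [← Nat.div_add_mod i q, ← Nat.div_add_mod j q, h1, h2]

theorem Word_near {q : ℕ} (hq : 1 ≤ q) {i j : ℕ} (hij : i < j) (hji : j < i + q ^ 2) :
    Word_ix q i ≠ Word_ix q j := by
  intro h
  unfold Word_ix at h
  have ha := congrArg Prod.fst h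
  have hb := congrArg (fun z => z.2.1) h
  have hc := congrArg (fun z => z.2.2) h
  simp only at ha hb hc
  have hq2 : 0 < q ^ 2 := by positivity
  have h1 : i / q ^ 2 ≤ j / q ^ 2 := Nat.div_le_div_right hij.le
  have h2 : j / q ^ 2 ≤ i / q ^ 2 + 1 := by
    have h3 : j / q ^ 2 ≤ (i + q ^ 2) / q ^ 2 := Nat.div_le_div_right hji.le
    rwa [Nat.add_div_right _ hq2] at h3
  have h3 : i / q ^ 2 = j / q ^ 2 := by
    rw [decide_eq_decide] at ha
    omega
  rw [h3, hb] at hc
  have h4 : ((i / q : ℕ) : ZMod q) = ((j / q : ℕ) : ZMod q) := add_left_cancel hc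
  have h5 : i / q / q = j / q / q := by
    rw [Nat.div_div_eq_div_mul, Nat.div_div_eq_div_mul, ← pow_two, h3]
  have h6 : i / q = j / q := Word_div h5 h4
  have h7 : i = j := Word_div h6 hb
  omega

open Polynomial in
theorem Word_far {q : ℕ} (hq : q.Prime) {u v : ℕ} (huv : u < v) (hvu : v < u + q ^ 15) (T : Finset ℕ)
    (hT : ∀ j ∈ T, v * q ≤ j ∧ j < (v + 1) * q ∧ ∃ i, u * q ≤ i ∧ i < (u + 1) * q ∧
      Word_ix q i = Word_ix q j) : T.card ≤ 15 := by
  classical
  have : Fact q.Prime := ⟨hq⟩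
  rcases T.eq_empty_or_nonempty with rfl | hne
  · simp
  have hq0 : 0 < q := hq.pos
  have hdiv : ∀ w i : ℕ, w * q ≤ i → i < (w + 1) * q → i / q = w := by
    intro w i h1 h2
    exact Nat.div_eq_of_lt_le h1 h2
  have hdd : ∀ w i : ℕ, w * q ≤ i → i < (w + 1) * q → i / q ^ 2 = w / q := by
    intro w i h1 h2
    rw [pow_two, ← Nat.div_div_eq_div_mul, hdiv w i h1 h2]
  set F : (ZMod q)[X] := ∑ e ∈ range 15, C (Word_d q (u / q) e - Word_d q (v / q) e) * X ^ (e + 1) +
    C ((u : ZMod q) - (v : ZMod q)) with hF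
  have hco : ∀ e < 15, F.coeff (e + 1) = Word_d q (u / q) e - Word_d q (v / q) e := by
    intro e he
    rw [hF, coeff_add, finsetSum_coeff]
    simp only [coeff_C_mul, coeff_X_pow, coeff_C_succ, add_zero]
    rw [Finset.sum_eq_single e]
    · simp
    · intro b _ hb
      rw [if_neg (by omega), mul_zero]
    · intro h
      exact absurd (Finset.mem_range.2 he) h
  have hc0 : F.coeff 0 = (u : ZMod q) - (v : ZMod q) := by
    rw [hF, coeff_add, finsetSum_coeff]
    simp only [coeff_C_mul, coeff_X_pow, coeff_C_zero]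
    rw [Finset.sum_eq_zero, zero_add]
    intro b _
    rw [if_neg (by omega), mul_zero]
  have hdeg : F.natDegree ≤ 15 := by
    rw [hF]
    refine (natDegree_add_le _ _).trans (max_le ?_ ?_)
    · refine (natDegree_sum_le_of_forall_le _ _ ?_)
      intro e he
      rw [Finset.mem_range] at he
      exact (natDegree_C_mul_X_pow_le _ _).trans (by omega)
    · rw [natDegree_C]; omega
  have hroot : ∀ j ∈ T, F.eval (j : ZMod q) = 0 := by
    intro j hj
    obtain ⟨h1, h2, i, h3, h4, h5⟩ := hT j hj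
    unfold Word_ix at h5
    have hb := congrArg (fun z => z.2.1) h5
    have hc := congrArg (fun z => z.2.2) h5
    simp only at hb hc
    rw [hdiv u i h3 h4, hdiv v j h1 h2, hdd u i h3 h4, hdd v j h1 h2, hb] at hc
    rw [hF]
    simp only [eval_add, eval_finsetSum, eval_mul, eval_C, eval_pow, eval_X]
    have h6 : ∑ e ∈ range 15, (Word_d q (u / q) e - Word_d q (v / q) e) * (j : ZMod q) ^ (e + 1) =
        Word_phi q (u / q) (j : ZMod q) - Word_phi q (v / q) (j : ZMod q) := by
      unfold Word_phi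
      rw [← Finset.sum_sub_distrib]
      refine Finset.sum_congr rfl ?_
      intro e _
      ring
    rw [h6]
    linear_combination hc
  have hF0 : F ≠ 0 := by
    intro hz
    obtain ⟨j, hj⟩ := hne
    obtain ⟨h1, h2, i, h3, h4, h5⟩ := hT j hj
    have ha := congrArg Prod.fst h5
    unfold Word_ix at ha
    simp only at ha
    rw [decide_eq_decide, hdd u i h3 h4, hdd v j h1 h2] at ha
    have huvq : ((u : ℕ) : ZMod q) = (v : ZMod q) := by
      have := hc0
      rw [hz, coeff_zero] at this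
      exact (sub_eq_zero.1 this.symm)
    have hdig : ∀ e < 15, Word_d q (u / q) e = Word_d q (v / q) e := by
      intro e he
      have := hco e he
      rw [hz, coeff_zero] at this
      exact (sub_eq_zero.1 this.symm)
    have hle : u / q ≤ v / q := Nat.div_le_div_right huv.le
    have hle2 : v / q ≤ u / q + q ^ 14 := by
      have h6 : v / q ≤ (u + q ^ 14 * q) / q := Nat.div_le_div_right (by
        rw [← pow_succ]; exact hvu.le)
      rwa [Nat.add_mul_div_right _ _ hq0] at h6
    have hlt : u / q < v / q := by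
      rcases hle.lt_or_eq with h7 | h7
      · exact h7
      · exact absurd (Word_div h7 huvq) huv.ne
    have hmod := Word_digits (q := q) (a := u / q / 2) (b := v / q / 2) hdig 15 le_rfl
    have hlt2 : u / q / 2 < v / q / 2 := by omega
    have hq15 : q ^ 14 < q ^ 15 := Nat.pow_lt_pow_right hq.one_lt (by omega)
    have hlt3 : v / q / 2 < u / q / 2 + q ^ 15 := by omega
    have h8 : q ^ 15 ∣ v / q / 2 - u / q / 2 := (Nat.modEq_iff_dvd' hlt2.le).1 hmod
    have h9 := Nat.le_of_dvd (by omega) h8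
    omega
  have hinj : Set.InjOn (fun j : ℕ => (j : ZMod q)) (T : Set ℕ) := by
    intro a ha b hb hab
    obtain ⟨h1, h2, _⟩ := hT a ha
    obtain ⟨h3, h4, _⟩ := hT b hb
    apply Word_div _ hab
    rw [hdiv v a h1 h2, hdiv v b h3 h4]
  calc T.card = (T.image (fun j : ℕ => (j : ZMod q))).card := (Finset.card_image_of_injOn hinj).symm
    _ ≤ F.roots.toFinset.card := by
      apply Finset.card_le_card
      intro x hx
      rw [Finset.mem_image] at hx
      obtain ⟨j, hj, rfl⟩ := hx
      rw [Multiset.mem_toFinset, mem_roots hF0]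
      exact hroot j hj
    _ ≤ F.roots.card := Multiset.toFinset_card_le _
    _ ≤ F.natDegree := F.card_roots'
    _ ≤ 15 := hdeg

theorem word : ∃ k0 : ℕ, ∀ k ≥ k0, ∃ (q P : ℕ) (W : ℕ → Fin k),
    Wd k q (q ^ 15) 15 P W ∧ q ^ 2 ≤ k ∧ k ≤ 16 * q ^ 2 ∧ 2 ≤ q := by
  refine ⟨8, ?_⟩
  intro k hk
  set N := Nat.sqrt (k / 8) with hN
  have hN1 : 1 ≤ N := by
    rw [hN, Nat.le_sqrt']
    omega
  obtain ⟨q, hq, hNq, hqN⟩ := Nat.exists_prime_lt_and_le_two_mul N (by omega)
  have hq2 : 2 * q ^ 2 ≤ k := by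
    have h1 : N ^ 2 ≤ k / 8 := Nat.sqrt_le' _
    have h2 : q ^ 2 ≤ (2 * N) ^ 2 := Nat.pow_le_pow_left hqN 2
    have h3 : (2 * N) ^ 2 = 4 * N ^ 2 := by ring
    omega
  have hk16 : k ≤ 16 * q ^ 2 := by
    have h1 : k / 8 < (N + 1) ^ 2 := Nat.lt_succ_sqrt' _
    have h2 : (N + 1) ^ 2 ≤ q ^ 2 := Nat.pow_le_pow_left hNq 2
    omega
  have : Fact q.Prime := ⟨hq⟩
  have hcard : Fintype.card (Bool × ZMod q × ZMod q) ≤ Fintype.card (Fin k) := by
    rw [Fintype.card_prod, Fintype.card_prod, Fintype.card_bool, ZMod.card, Fintype.card_fin]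
    calc 2 * (q * q) = 2 * q ^ 2 := by ring
      _ ≤ k := hq2
  obtain ⟨io⟩ := Function.Embedding.nonempty_of_card_le hcard
  refine ⟨q, 2 * q ^ 15 * q ^ 2, fun i => io (Word_ix q i), ?_, by omega, hk16, hq.two_le⟩
  refine ⟨hq.one_lt.le, ?_, ?_, ?_, ?_⟩
  · have := hq.pos
    exact Nat.one_le_iff_ne_zero.2 (by positivity)
  · intro i
    rw [Word_per hq.one_lt.le]
  · intro i j h1 h2 h3
    exact Word_near hq.one_lt.le h1 h2 (io.injective h3)
  · intro u v h1 h2 T hT
    apply Word_far hq h1 h2 T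
    intro j hj
    obtain ⟨h3, h4, i, h5, h6, h7⟩ := hT j hj
    exact ⟨h3, h4, i, h5, h6, io.injective h7⟩

end LCSV
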