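import Pool.Agent.LCSV.NMom
import Pool.Agent.LCSV.GeoE
import Pool.Agent.LCSV.Word

/-!
# The word W has few coincidences in the set hit, for every right environment

Let W, q be from word, sqrt(k)/4 <= q <= sqrt(k), a in [1/(40 sqrt k), 40/sqrt k]: so 1/160 <= a q <= 40.
S = hit rho s n, N = number of windows S meets. Let F1: there are i < j in S with j >= i + q^2; F2: there are i < j in S
with j / q >= i / q + q^15 (so j >= i + (q^15 - 1) q). Then card S - card (image W S) <= ind F1 * 15 N^2 + ind F2 * card S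
(loss_zero, loss_le), using card S - card image <= card S.
P(F1) <= P(chn with l = q^2, m = 1) <= C (a q^2)^(-1/4) <= C' q^(-1/4) (chn_one, tieM 1). For y >= 1:
Ex (ind F1 N^2) <= y^2 P(F1) + Ex (ind (y < N) N^2) <= y^2 C' q^(-1/4) + C''/y (nmom); with y = ceil(q^(1/16)) this tends to 0 as
q tends to infinity. P(F2) <= C (a (q^15 - 1) q)^(-1/4) <= C' q^(-15/4)... (>= q^14 a q) and by Cauchy-Schwarz
Ex (ind F2 card S) <= sqrt(P(F2)) sqrt(2/a^2) <= C'' q^(-7/4) q -> 0 (geo_sq, 1/a <= 160 q).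
So for k large everything is <= eps.
-/

namespace LCSV

open Finset

private theorem c1_rpow (K B : ℝ) (hK : 1 ≤ K) (hB : K ^ 4 ≤ B) :
    B ^ (-(((1 : ℕ) : ℝ) / 4)) ≤ 1 / K := by
  have hK0 : 0 < K := by linarith
  have h1 : B ^ (-(((1 : ℕ) : ℝ) / 4)) ≤ (K ^ 4) ^ (-(((1 : ℕ) : ℝ) / 4)) := by
    apply Real.rpow_le_rpow_of_nonpos (by positivity) hB
    norm_num
  have h2 : (K ^ 4) ^ (-(((1 : ℕ) : ℝ) / 4)) = 1 / K := by
    rw [← Real.rpow_natCast K 4, ← Real.rpow_mul hK0.le]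
    have e : ((4 : ℕ) : ℝ) * (-(((1 : ℕ) : ℝ) / 4)) = -1 := by norm_num
    rw [e, Real.rpow_neg_one, one_div]
  rw [← h2]
  exact h1

private theorem c1_point {k q P : ℕ} {W : ℕ → Fin k} (hW : Wd k q (q ^ 15) 15 P W) (hq : 2 ≤ q)
    (y n : ℕ) (rho : ℕ → ℕ) (s : Finset ℕ) :
    ((hit rho s n).card : ℝ) - (((hit rho s n).image W).card : ℝ) ≤
      15 * ((y : ℝ) ^ 2 * ind (chn rho s n (q ^ 2) 1) +
        ind (y < ((hit rho s n).image (fun i => i / q)).card) *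
          (((hit rho s n).image (fun i => i / q)).card : ℝ) ^ 2) +
      ind (chn rho s n ((q ^ 15 - 1) * q) 1) * ((hit rho s n).card : ℝ) := by
  set S := hit rho s n with hS
  set N := (S.image (fun i => i / q)).card with hN
  have hi1 := ind_nonneg (chn rho s n (q ^ 2) 1)
  have hi2 := ind_nonneg (y < N)
  have hi3 := ind_nonneg (chn rho s n ((q ^ 15 - 1) * q) 1)
  have hSnn : (0 : ℝ) ≤ (S.card : ℝ) := Nat.cast_nonneg _
  have himg : (0 : ℝ) ≤ ((S.image W).card : ℝ) := Nat.cast_nonneg _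
  by_cases hF1 : ∀ i ∈ S, ∀ j ∈ S, i < j → j < i + q ^ 2
  · have h := loss_zero hW S hF1
    rw [h]
    have : (0 : ℝ) ≤ 15 * ((y : ℝ) ^ 2 * ind (chn rho s n (q ^ 2) 1) + ind (y < N) * (N : ℝ) ^ 2) +
      ind (chn rho s n ((q ^ 15 - 1) * q) 1) * (S.card : ℝ) := by positivity
    linarith
  · have hc1 : chn rho s n (q ^ 2) 1 := by
      simp only [not_forall, not_lt] at hF1
      obtain ⟨i, hi, j, hj, -, hij⟩ := hF1
      exact chn_one rho s n (q ^ 2) hi hj hij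
    rw [ind_true hc1, mul_one]
    by_cases hF2 : ∀ i ∈ S, ∀ j ∈ S, i < j → j / q < i / q + q ^ 15
    · have h := loss_le hW S hF2
      have h' : (S.card : ℝ) ≤ ((S.image W).card : ℝ) + 15 * (N : ℝ) ^ 2 := by
        exact_mod_cast h
      have h2 : (N : ℝ) ^ 2 ≤ (y : ℝ) ^ 2 + ind (y < N) * (N : ℝ) ^ 2 := by
        by_cases hyN : y < N
        · rw [ind_true hyN]
          nlinarith [sq_nonneg (y : ℝ)]
        · have : (N : ℝ) ≤ (y : ℝ) := by exact_mod_cast not_lt.1 hyN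
          have h3 : (N : ℝ) ^ 2 ≤ (y : ℝ) ^ 2 := by
            have : (0 : ℝ) ≤ (N : ℝ) := Nat.cast_nonneg _
            nlinarith
          have : 0 ≤ ind (y < N) * (N : ℝ) ^ 2 := by positivity
          linarith
      have h3 : 0 ≤ ind (chn rho s n ((q ^ 15 - 1) * q) 1) * (S.card : ℝ) := by positivity
      linarith
    · have hc2 : chn rho s n ((q ^ 15 - 1) * q) 1 := by
        simp only [not_forall, not_lt] at hF2
        obtain ⟨i, hi, j, hj, -, hij⟩ := hF2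
        refine chn_one rho s n _ hi hj ?_
        have e1 := Nat.div_add_mod i q
        have e2 := Nat.div_add_mod j q
        have e3 := Nat.mod_lt i (show 0 < q by omega)
        have e4 : q * (i / q + q ^ 15) ≤ q * (j / q) := Nat.mul_le_mul le_rfl hij
        have e5 : (q ^ 15 - 1) * q + q = q * q ^ 15 := by
          have h1 : 1 ≤ q ^ 15 := Nat.one_le_pow _ _ (by omega)
          obtain ⟨m, hm⟩ : ∃ m, q ^ 15 = m + 1 := ⟨q ^ 15 - 1, by omega⟩
          rw [hm, Nat.add_sub_cancel]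
          ring
        rw [Nat.mul_add] at e4
        omega
      rw [ind_true hc2, one_mul]
      have : (0 : ℝ) ≤ 15 * ((y : ℝ) ^ 2 + ind (y < N) * (N : ℝ) ^ 2) := by positivity
      linarith

theorem c1 : ∀ ε : ℝ, 0 < ε → ∃ k0 : ℕ, ∀ k ≥ k0, ∃ (P : ℕ) (W : ℕ → Fin k), 1 ≤ P ∧
    (∀ i, W (i + P) = W i) ∧
    ∀ a : ℝ, 1 / (40 * √(k : ℝ)) ≤ a → a ≤ 40 / √(k : ℝ) →
      ∀ (n : ℕ) (rho : ℕ → ℕ), Antitone rho →
        Ex a n (fun s => ((hit rho s n).card : ℝ) - (((hit rho s n).image W).card : ℝ)) ≤ ε := by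
  intro ε hε
  obtain ⟨kw, hkw⟩ := word
  obtain ⟨C1, hC1, ht⟩ := tieM 1
  obtain ⟨C2, hC2, hn⟩ := nmom (1 / 160) (by norm_num)
  obtain ⟨y, hy1, hy⟩ : ∃ y : ℕ, 1 ≤ y ∧ 15 * (C2 / y) ≤ ε / 3 := by
    obtain ⟨m, hm⟩ := exists_nat_ge (45 * C2 / ε)
    refine ⟨m + 1, by omega, ?_⟩
    have hpos : 0 < ((m + 1 : ℕ) : ℝ) := by positivity
    rw [mul_div_assoc', div_le_iff₀ hpos]
    rw [div_le_iff₀ hε] at hm
    push_cast
    have e : ε / 3 * ((m : ℝ) + 1) = ((m : ℝ) * ε + ε) / 3 := by ring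
    rw [e]
    linarith
  obtain ⟨K, hK1, hK⟩ : ∃ K : ℝ, 1 ≤ K ∧ 45 * (y : ℝ) ^ 2 * C1 ≤ K * ε := by
    refine ⟨max 1 (45 * (y : ℝ) ^ 2 * C1 / ε), le_max_left _ _, ?_⟩
    rw [← div_le_iff₀ hε]
    exact le_max_right _ _
  obtain ⟨q0, hq1, hq2, hq3⟩ : ∃ q0 : ℕ, 160 ≤ q0 ∧ 160 * K ^ 4 ≤ (q0 : ℝ) ∧
      460800 * C1 ≤ (q0 : ℝ) * ε ^ 2 := by
    obtain ⟨m1, hm1⟩ := exists_nat_ge (160 * K ^ 4)
    obtain ⟨m2, hm2⟩ := exists_nat_ge (460800 * C1 / ε ^ 2)
    refine ⟨max 160 (max m1 m2), le_max_left _ _, ?_, ?_⟩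
    · refine hm1.trans ?_
      exact_mod_cast (le_max_left m1 m2).trans (le_max_right 160 _)
    · rw [← div_le_iff₀ (by positivity)]
      refine hm2.trans ?_
      exact_mod_cast (le_max_right m1 m2).trans (le_max_right 160 _)
  refine ⟨max kw (16 * q0 ^ 2), fun k hk => ?_⟩
  obtain ⟨q, P, W, hW, h1, h2, h3⟩ := hkw k ((le_max_left _ _).trans hk)
  have hk2 : 16 * q0 ^ 2 ≤ k := (le_max_right _ _).trans hk
  have hqq : q0 ≤ q := by
    by_contra h
    have h4 : q ^ 2 < q0 ^ 2 := Nat.pow_lt_pow_left (not_le.1 h) (by norm_num)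
    omega
  refine ⟨P, W, hW.ppos, hW.per, fun a ha1 ha2 n rho _ => ?_⟩
  have hqr : (q0 : ℝ) ≤ (q : ℝ) := by exact_mod_cast hqq
  have hq160 : (160 : ℝ) ≤ (q : ℝ) := by
    have : (160 : ℝ) ≤ (q0 : ℝ) := by exact_mod_cast hq1
    linarith
  have hq0 : (0 : ℝ) < (q : ℝ) := by linarith
  have hs1 : (q : ℝ) ≤ √(k : ℝ) := by
    apply Real.le_sqrt_of_sq_le
    exact_mod_cast h1
  have hs2 : √(k : ℝ) ≤ 4 * (q : ℝ) := by
    rw [Real.sqrt_le_left (by positivity)]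
    have : (k : ℝ) ≤ 16 * (q : ℝ) ^ 2 := by exact_mod_cast h2
    have e : (4 * (q : ℝ)) ^ 2 = 16 * (q : ℝ) ^ 2 := by ring
    rw [e]
    exact this
  have hs0 : 0 < √(k : ℝ) := by linarith
  have ha0 : 0 < a := lt_of_lt_of_le (by positivity) ha1
  have haq' : 1 / (160 * (q : ℝ)) ≤ a :=
    (one_div_le_one_div_of_le (by positivity) (by linarith)).trans ha1
  have haq : 1 / 160 ≤ a * (q : ℝ) := by
    rw [div_le_iff₀ (by positivity)] at haq'
    linarith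
  have ha3 : a ≤ 1 / 4 := by
    refine ha2.trans ?_
    rw [div_le_iff₀ hs0]
    linarith
  have hinv : 1 / a ≤ 160 * (q : ℝ) := by
    rw [div_le_iff₀ ha0]
    linarith
  -- the first chain
  have hal1 : K ^ 4 ≤ a * ((q ^ 2 : ℕ) : ℝ) := by
    push_cast
    have : K ^ 4 ≤ (q : ℝ) / 160 := by
      rw [le_div_iff₀ (by norm_num)]
      linarith
    have h4 : (q : ℝ) / 160 ≤ a * (q : ℝ) ^ 2 := by
      have h5 := mul_le_mul_of_nonneg_right haq hq0.le
      have e : a * (q : ℝ) ^ 2 = a * (q : ℝ) * (q : ℝ) := by ring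
      rw [e]
      linarith
    exact this.trans h4
  have hK4 : 1 ≤ K ^ 4 := one_le_pow₀ hK1
  have hch1 : Ex a n (fun s => ind (chn rho s n (q ^ 2) 1)) ≤ C1 * (1 / K) :=
    (ht a rho n (q ^ 2) ha0 (by linarith) (hK4.trans hal1)).trans
      (mul_le_mul_of_nonneg_left (c1_rpow K _ hK1 hal1) hC1.le)
  -- the second chain
  have hl2 : (q : ℝ) ^ 15 ≤ (((q ^ 15 - 1) * q : ℕ) : ℝ) := by
    have : q ^ 15 ≤ (q ^ 15 - 1) * q := by
      have h4 : 2 ≤ q ^ 15 := h3.trans (Nat.le_self_pow (by norm_num) q)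
      have h5 : (q ^ 15 - 1) * 2 ≤ (q ^ 15 - 1) * q := Nat.mul_le_mul le_rfl h3
      omega
    exact_mod_cast this
  have hal2 : ((q : ℝ) ^ 3) ^ 4 ≤ a * (((q ^ 15 - 1) * q : ℕ) : ℝ) := by
    have h4 : a * (q : ℝ) ^ 15 ≤ a * (((q ^ 15 - 1) * q : ℕ) : ℝ) :=
      mul_le_mul_of_nonneg_left hl2 ha0.le
    refine le_trans ?_ h4
    have e : a * (q : ℝ) ^ 15 = (a * (q : ℝ)) * ((q : ℝ) ^ 12 * (q : ℝ) ^ 2) := by ring
    have h5 : (160 : ℝ) ≤ (q : ℝ) ^ 2 := by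
      rw [sq]
      exact hq160.trans (le_mul_of_one_le_left hq0.le (by linarith))
    have h6 : (0 : ℝ) < (q : ℝ) ^ 12 := by positivity
    rw [e]
    have h7 : (q : ℝ) ^ 12 * 160 ≤ (q : ℝ) ^ 12 * (q : ℝ) ^ 2 := mul_le_mul_of_nonneg_left h5 h6.le
    have h8 : 1 / 160 * ((q : ℝ) ^ 12 * 160) ≤ (a * (q : ℝ)) * ((q : ℝ) ^ 12 * (q : ℝ) ^ 2) :=
      mul_le_mul haq h7 (by positivity) (by positivity)
    have e2 : ((q : ℝ) ^ 3) ^ 4 = 1 / 160 * ((q : ℝ) ^ 12 * 160) := by ring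
    rw [e2]
    exact h8
  have hq3' : (1 : ℝ) ≤ (q : ℝ) ^ 3 := one_le_pow₀ (by linarith)
  have hch2 : Ex a n (fun s => ind (chn rho s n ((q ^ 15 - 1) * q) 1)) ≤ C1 * (1 / (q : ℝ) ^ 3) :=
    (ht a rho n _ ha0 (by linarith) ((one_le_pow₀ hq3').trans hal2)).trans
      (mul_le_mul_of_nonneg_left (c1_rpow _ _ hq3' hal2) hC1.le)
  -- the window part
  have hw : Ex a n (fun s => ind (y < ((hit rho s n).image (fun i => i / q)).card) *
      (((hit rho s n).image (fun i => i / q)).card : ℝ) ^ 2) ≤ C2 / y :=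
    hn a rho n q y ha0 (by linarith) (by omega) haq hy1
  -- Cauchy-Schwarz
  have hcs := Ex_cs (a := a) (n := n) ha0.le (by linarith)
    (fun s => ind (chn rho s n ((q ^ 15 - 1) * q) 1)) (fun s => ((hit rho s n).card : ℝ))
  have hind2 : Ex a n (fun s => (ind (chn rho s n ((q ^ 15 - 1) * q) 1)) ^ 2) =
      Ex a n (fun s => ind (chn rho s n ((q ^ 15 - 1) * q) 1)) := by
    apply Ex_congr
    intro s _
    by_cases h : chn rho s n ((q ^ 15 - 1) * q) 1
    · rw [ind_true h]; norm_num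
    · rw [ind_false h]; norm_num
  have hgs := geo_sq a ha0 (by linarith) rho n
  set A2 := Ex a n (fun s => ind (chn rho s n ((q ^ 15 - 1) * q) 1) * ((hit rho s n).card : ℝ))
    with hA2
  have hA2sq : A2 ^ 2 ≤ (ε / 3) ^ 2 := by
    refine hcs.trans ?_
    simp only [hind2]
    have h4 : 2 / a ^ 2 ≤ 51200 * (q : ℝ) ^ 2 := by
      have e : 2 / a ^ 2 = 2 * (1 / a) ^ 2 := by
        field_simp
      rw [e]
      have h0 : 0 ≤ 1 / a := by positivity
      have h5 := mul_le_mul hinv hinv h0 (by positivity)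
      have e2 : (1 / a) ^ 2 = 1 / a * (1 / a) := by ring
      rw [e2]
      linarith
    have hnn : 0 ≤ Ex a n (fun s => ((hit rho s n).card : ℝ) ^ 2) :=
      Ex_nonneg ha0.le (by linarith) fun s _ => sq_nonneg _
    calc Ex a n (fun s => ind (chn rho s n ((q ^ 15 - 1) * q) 1)) *
          Ex a n (fun s => ((hit rho s n).card : ℝ) ^ 2)
        ≤ (C1 * (1 / (q : ℝ) ^ 3)) * (51200 * (q : ℝ) ^ 2) :=
          mul_le_mul hch2 (hgs.trans h4) hnn (by positivity)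
      _ = 51200 * C1 / (q : ℝ) := by
          field_simp
      _ ≤ (ε / 3) ^ 2 := by
          rw [div_le_iff₀ hq0]
          have : (q0 : ℝ) * ε ^ 2 ≤ (q : ℝ) * ε ^ 2 := mul_le_mul_of_nonneg_right hqr (by positivity)
          have e : (ε / 3) ^ 2 * (q : ℝ) = (q : ℝ) * ε ^ 2 / 9 := by ring
          rw [e]
          linarith
  have hA2le : A2 ≤ ε / 3 := by
    exact (le_abs_self A2).trans (abs_le_of_sq_le_sq hA2sq (by positivity))
  -- conclusion
  have hmono : Ex a n (fun s => ((hit rho s n).card : ℝ) - (((hit rho s n).image W).card : ℝ)) ≤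
      Ex a n (fun s => 15 * ((y : ℝ) ^ 2 * ind (chn rho s n (q ^ 2) 1) +
        ind (y < ((hit rho s n).image (fun i => i / q)).card) *
          (((hit rho s n).image (fun i => i / q)).card : ℝ) ^ 2) +
      ind (chn rho s n ((q ^ 15 - 1) * q) 1) * ((hit rho s n).card : ℝ)) :=
    Ex_mono ha0.le (by linarith) fun s _ => c1_point hW h3 y n rho s
  refine hmono.trans ?_
  rw [Ex_add, Ex_mul_left, Ex_add, Ex_mul_left]
  have h5 : (y : ℝ) ^ 2 * Ex a n (fun s => ind (chn rho s n (q ^ 2) 1)) ≤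
      (y : ℝ) ^ 2 * (C1 * (1 / K)) := mul_le_mul_of_nonneg_left hch1 (by positivity)
  have h6 : 15 * ((y : ℝ) ^ 2 * (C1 * (1 / K))) ≤ ε / 3 := by
    have hK0 : 0 < K := by linarith
    have e : 15 * ((y : ℝ) ^ 2 * (C1 * (1 / K))) = 15 * (y : ℝ) ^ 2 * C1 / K := by
      field_simp
    rw [e, div_le_iff₀ hK0]
    linarith
  linarith

end LCSV
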