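import Pool.Agent.LCSV.PairDet

/-!
# Probability of a coincidence of two given rows of the top block

Write q(X,b) = lm (rh X Y) (bs b) (length). The right side is the sum over g in [w, n+2] of the E2 (n+2) expectation of
ind (lm = g and tp w and X[g-w+i]? = X[g-w+j]?). For fixed g split n + 2 = p1 + 1 + (j-i-1) + 1 + rest with p1 = g - w + i (E2_append, E2_one): keep only
the terms where both inserted rows have bit false and the same letter x: weight (1-a)^2 (1/k)^2 for each x. The remaining lists form an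
environment (X, b) of length n, and the full environment is (ins x p1 p2 X, ins false p1 p2 b) with p2 = p1 + (j-i-1) = (g-2) - (w-2) + (j-1).
By pair_det: if lm of (X,b) is g - 2, tp (w-2) holds and the maximum is not raised, then the event for g holds. With g' = g - 2 in [w-2, n]:
right side >= (1-a)^2/k^2 sum_x sum_g' E2 n ind(lm = g' and tp (w-2) and not raised(x))
= (1-a)^2/k^2 sum_x (P(tp (w-2)) - P(tp (w-2) and raised(x))), which is the left side.
-/

namespace LCSV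

open Finset

private theorem pr_ind_nn (p : Prop) : 0 ≤ ind p := by
  unfold ind
  split_ifs
  · exact zero_le_one
  · exact le_rfl

private theorem pr_ind_pos {p : Prop} (h : p) : ind p = 1 := by
  unfold ind
  rw [if_pos h]

private theorem pr_ind_neg {p : Prop} (h : ¬ p) : ind p = 0 := by
  unfold ind
  rw [if_neg h]

private theorem pr_sum_ind (s : Finset ℕ) (L : ℕ) (P : ℕ → Prop) (Q : Prop)
    (h : ∀ g ∈ s, L = g + 2 → P g → Q) : ∑ g ∈ s, ind (L = g + 2 ∧ P g) ≤ ind Q := by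
  by_cases hex : ∃ g ∈ s, L = g + 2 ∧ P g
  · obtain ⟨g, hg, hL, hP⟩ := hex
    rw [Finset.sum_eq_single g]
    · rw [pr_ind_pos ⟨hL, hP⟩, pr_ind_pos (h g hg hL hP)]
    · intro g' _ hne
      refine pr_ind_neg ?_
      rintro ⟨h1, _⟩
      omega
    · intro h1
      exact absurd hg h1
  · rw [Finset.sum_eq_zero fun g hg => pr_ind_neg fun h1 => hex ⟨g, hg, h1⟩]
    exact pr_ind_nn Q

private theorem pr_ins_app {β : Type*} (x : β) {p1 m : ℕ} {X1 X2 : List β} (X3 : List β)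
    (h1 : X1.length = p1) (h2 : X2.length = m) :
    ins x p1 (p1 + m) (X1 ++ (X2 ++ X3)) = X1 ++ ([x] ++ (X2 ++ ([x] ++ X3))) := by
  unfold ins
  have e1 : (X1 ++ (X2 ++ X3)).take p1 = X1 := List.take_left' h1
  have e2 : (X1 ++ (X2 ++ X3)).drop p1 = X2 ++ X3 := List.drop_left' h1
  have e3 : (X1 ++ (X2 ++ X3)).drop (p1 + m) = X3 := by
    rw [← List.append_assoc]
    exact List.drop_left' (by rw [List.length_append, h1, h2])
  have e4 : (X2 ++ X3).take (p1 + m - p1) = X2 := List.take_left' (by omega)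
  rw [e1, e2, e3, e4]
  rfl

private theorem pr_ins (k : ℕ) (hk : 0 < k) (a : ℝ) (h0 : 0 ≤ a) (h1 : a ≤ 1)
    (F : List (Fin k) → List Bool → ℝ) (hF : ∀ X b, 0 ≤ F X b) (n p1 p2 : ℕ) (h12 : p1 ≤ p2)
    (h2 : p2 ≤ n) :
    (1 - a) ^ 2 / (k : ℝ) ^ 2 * ∑ x : Fin k, E2 k a n (fun X b => F (ins x p1 p2 X)
      (ins false p1 p2 b)) ≤ E2 k a (n + 2) F := by
  obtain ⟨m, rfl⟩ := Nat.exists_eq_add_of_le h12
  obtain ⟨r, rfl⟩ := Nat.exists_eq_add_of_le h2
  have hk0 : (0 : ℝ) < k := by exact_mod_cast hk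
  have ha : 0 ≤ 1 - a := by linarith
  have e : p1 + m + r + 2 = p1 + (1 + (m + (1 + r))) := by omega
  rw [e, E2_append, add_assoc p1 m r, ← E2_sum, ← E2_mul_left, E2_append]
  refine E2_mono hk h0 h1 fun X1 b1 hX1 hb1 => ?_
  rw [E2_append 1 (m + (1 + r)), E2_one, E2_mul_left, E2_sum, Finset.mul_sum]
  refine Finset.sum_le_sum fun x _ => ?_
  have g0 : ∀ (A : List (Fin k)) (α : List Bool), 0 ≤ E2 k a (m + (1 + r)) (fun X2 b2 =>
      F (X1 ++ (A ++ X2)) (b1 ++ (α ++ b2))) := fun A α =>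
    E2_nonneg hk h0 h1 fun X b _ _ => hF _ _
  have g1 : (1 - a) / k * E2 k a (m + r) (fun X b => F (ins x p1 (p1 + m) (X1 ++ X))
      (ins false p1 (p1 + m) (b1 ++ b))) ≤ E2 k a (m + (1 + r)) (fun X2 b2 =>
      F (X1 ++ ([x] ++ X2)) (b1 ++ ([false] ++ b2))) := by
    rw [E2_append, E2_append, ← E2_mul_left]
    refine E2_mono hk h0 h1 fun X2 b2 hX2 hb2 => ?_
    rw [E2_append, E2_one]
    have g2 : ∀ y : Fin k, 0 ≤ 1 / (k : ℝ) * (a * E2 k a r (fun X3 b3 =>
        F (X1 ++ ([x] ++ (X2 ++ ([y] ++ X3)))) (b1 ++ ([false] ++ (b2 ++ ([true] ++ b3))))) +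
        (1 - a) * E2 k a r (fun X3 b3 =>
        F (X1 ++ ([x] ++ (X2 ++ ([y] ++ X3))))
          (b1 ++ ([false] ++ (b2 ++ ([false] ++ b3)))))) := by
      intro y
      have q1 : 0 ≤ E2 k a r (fun X3 b3 => F (X1 ++ ([x] ++ (X2 ++ ([y] ++ X3))))
          (b1 ++ ([false] ++ (b2 ++ ([true] ++ b3))))) :=
        E2_nonneg hk h0 h1 fun X b _ _ => hF _ _
      have q2 : 0 ≤ E2 k a r (fun X3 b3 => F (X1 ++ ([x] ++ (X2 ++ ([y] ++ X3))))
          (b1 ++ ([false] ++ (b2 ++ ([false] ++ b3))))) :=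
        E2_nonneg hk h0 h1 fun X b _ _ => hF _ _
      positivity
    refine le_trans ?_ (Finset.single_le_sum (fun y _ => g2 y) (Finset.mem_univ x))
    have q1 : 0 ≤ E2 k a r (fun X3 b3 => F (X1 ++ ([x] ++ (X2 ++ ([x] ++ X3))))
        (b1 ++ ([false] ++ (b2 ++ ([true] ++ b3))))) :=
      E2_nonneg hk h0 h1 fun X b _ _ => hF _ _
    have q3 : E2 k a r (fun X3 b3 => F (ins x p1 (p1 + m) (X1 ++ (X2 ++ X3)))
        (ins false p1 (p1 + m) (b1 ++ (b2 ++ b3)))) =
        E2 k a r (fun X3 b3 => F (X1 ++ ([x] ++ (X2 ++ ([x] ++ X3))))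
          (b1 ++ ([false] ++ (b2 ++ ([false] ++ b3))))) :=
      E2_congr fun X3 b3 _ _ => by rw [pr_ins_app x X3 hX1 hX2, pr_ins_app false b3 hb1 hb2]
    rw [q3]
    have q4 : 0 ≤ 1 / (k : ℝ) * (a * E2 k a r (fun X3 b3 =>
        F (X1 ++ ([x] ++ (X2 ++ ([x] ++ X3)))) (b1 ++ ([false] ++ (b2 ++ ([true] ++ b3)))))) := by
      positivity
    rw [mul_add]
    have q5 : (1 - a) / (k : ℝ) * E2 k a r (fun X3 b3 =>
        F (X1 ++ ([x] ++ (X2 ++ ([x] ++ X3)))) (b1 ++ ([false] ++ (b2 ++ ([false] ++ b3))))) =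
        1 / (k : ℝ) * ((1 - a) * E2 k a r (fun X3 b3 =>
        F (X1 ++ ([x] ++ (X2 ++ ([x] ++ X3))))
          (b1 ++ ([false] ++ (b2 ++ ([false] ++ b3)))))) := by ring
    rw [q5]
    exact le_add_of_nonneg_left q4
  have g3 := mul_le_mul_of_nonneg_left g1 (by positivity : 0 ≤ 1 / (k : ℝ) * (1 - a))
  have g4 : 0 ≤ 1 / (k : ℝ) * (a * E2 k a (m + (1 + r)) (fun X2 b2 =>
      F (X1 ++ ([x] ++ X2)) (b1 ++ ([true] ++ b2)))) :=
    mul_nonneg (by positivity) (mul_nonneg h0 (g0 [x] [true]))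
  calc (1 - a) ^ 2 / (k : ℝ) ^ 2 * E2 k a (m + r) (fun X b => F (ins x p1 (p1 + m) (X1 ++ X))
      (ins false p1 (p1 + m) (b1 ++ b))) = 1 / (k : ℝ) * (1 - a) * ((1 - a) / k *
        E2 k a (m + r) (fun X b => F (ins x p1 (p1 + m) (X1 ++ X))
      (ins false p1 (p1 + m) (b1 ++ b)))) := by
        field_simp
    _ ≤ 1 / (k : ℝ) * (1 - a) * E2 k a (m + (1 + r)) (fun X2 b2 =>
      F (X1 ++ ([x] ++ X2)) (b1 ++ ([false] ++ b2))) := g3
    _ = 1 / (k : ℝ) * ((1 - a) * E2 k a (m + (1 + r)) (fun X2 b2 =>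
      F (X1 ++ ([x] ++ X2)) (b1 ++ ([false] ++ b2)))) := by ring
    _ ≤ _ := by
        rw [mul_add]
        exact le_add_of_nonneg_left g4

private theorem pr_lm_le (rho : ℕ → ℕ) (s : Finset ℕ) (t : ℕ) : lm rho s t ≤ t := by
  unfold lm
  refine Finset.sup_le fun g hg => ?_
  have := Finset.mem_range.1 (Finset.mem_filter.1 hg).1
  exact Nat.lt_succ_iff.1 this

theorem pair (k : ℕ) (hk : 0 < k) (a : ℝ) (h0 : 0 ≤ a) (h1 : a ≤ 1) (Y : List (Fin k))
    (n w i j : ℕ) (hij : i < j) (hjw : j < w) (hwn : w ≤ n + 2) :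
    (1 - a) ^ 2 / k * (E2 k a n (fun X b => ind (tp (rh X Y) (bs b) n (w - 2))) -
      ∑ x : Fin k, 1 / (k : ℝ) * E2 k a n (fun X b => ind (tp (rh X Y) (bs b) n (w - 2) ∧
        Mx (rh X Y) (bs b) n <
          Mx (rh (ins x (lm (rh X Y) (bs b) n - (w - 2) + i)
              (lm (rh X Y) (bs b) n - (w - 2) + (j - 1)) X) Y)
            (bs (ins false (lm (rh X Y) (bs b) n - (w - 2) + i)
              (lm (rh X Y) (bs b) n - (w - 2) + (j - 1)) b)) (n + 2)))) ≤
      E2 k a (n + 2) (fun X b => ind (tp (rh X Y) (bs b) (n + 2) w ∧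
        X[lm (rh X Y) (bs b) (n + 2) - w + i]? = X[lm (rh X Y) (bs b) (n + 2) - w + j]?)) := by
  have hk0 : (0 : ℝ) < k := by exact_mod_cast hk
  have hw2 : 2 ≤ w := by omega
  set F : ℕ → List (Fin k) → List Bool → ℝ := fun g X b =>
    ind (lm (rh X Y) (bs b) (n + 2) = g + 2 ∧ (tp (rh X Y) (bs b) (n + 2) w ∧
      X[g - (w - 2) + i]? = X[g - (w - 2) + j]?)) with hFdef
  have hF : ∀ g X b, 0 ≤ F g X b := fun g X b => pr_ind_nn _
  set s : Finset ℕ := Icc (w - 2) n with hs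
  -- first step
  have c1 : E2 k a (n + 2) (fun X b => ∑ g ∈ s, F g X b) ≤
      E2 k a (n + 2) (fun X b => ind (tp (rh X Y) (bs b) (n + 2) w ∧
        X[lm (rh X Y) (bs b) (n + 2) - w + i]? = X[lm (rh X Y) (bs b) (n + 2) - w + j]?)) := by
    refine E2_mono hk h0 h1 fun X b _ _ => ?_
    refine pr_sum_ind s _ (fun g => tp (rh X Y) (bs b) (n + 2) w ∧
      X[g - (w - 2) + i]? = X[g - (w - 2) + j]?) _ ?_
    intro g hg hL hP
    rw [hs, Finset.mem_Icc] at hg
    refine ⟨hP.1, ?_⟩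
    rw [hL]
    have e1 : g + 2 - w = g - (w - 2) := by omega
    rw [e1]
    exact hP.2
  -- second step
  have c2 : ∀ g ∈ s, (1 - a) ^ 2 / (k : ℝ) ^ 2 * ∑ x : Fin k, E2 k a n (fun X b =>
      F g (ins x (g - (w - 2) + i) (g - (w - 2) + (j - 1)) X)
        (ins false (g - (w - 2) + i) (g - (w - 2) + (j - 1)) b)) ≤ E2 k a (n + 2) (F g) := by
    intro g hg
    rw [hs, Finset.mem_Icc] at hg
    exact pr_ins k hk a h0 h1 (F g) (hF g) n _ _ (by omega) (by omega)
  -- third step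
  have c3 : ∀ x : Fin k, E2 k a n (fun X b => ind (tp (rh X Y) (bs b) n (w - 2))) -
      E2 k a n (fun X b => ind (tp (rh X Y) (bs b) n (w - 2) ∧
        Mx (rh X Y) (bs b) n <
          Mx (rh (ins x (lm (rh X Y) (bs b) n - (w - 2) + i)
              (lm (rh X Y) (bs b) n - (w - 2) + (j - 1)) X) Y)
            (bs (ins false (lm (rh X Y) (bs b) n - (w - 2) + i)
              (lm (rh X Y) (bs b) n - (w - 2) + (j - 1)) b)) (n + 2))) ≤
      ∑ g ∈ s, E2 k a n (fun X b =>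
        F g (ins x (g - (w - 2) + i) (g - (w - 2) + (j - 1)) X)
          (ins false (g - (w - 2) + i) (g - (w - 2) + (j - 1)) b)) := by
    intro x
    rw [← E2_sub, ← E2_sum]
    refine E2_mono hk h0 h1 fun X b hX hb => ?_
    have hnn : 0 ≤ ∑ g ∈ s, F g (ins x (g - (w - 2) + i) (g - (w - 2) + (j - 1)) X)
        (ins false (g - (w - 2) + i) (g - (w - 2) + (j - 1)) b) :=
      Finset.sum_nonneg fun g _ => hF _ _ _
    by_cases htp : tp (rh X Y) (bs b) n (w - 2)
    · by_cases hM : Mx (rh X Y) (bs b) n <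
          Mx (rh (ins x (lm (rh X Y) (bs b) n - (w - 2) + i)
              (lm (rh X Y) (bs b) n - (w - 2) + (j - 1)) X) Y)
            (bs (ins false (lm (rh X Y) (bs b) n - (w - 2) + i)
              (lm (rh X Y) (bs b) n - (w - 2) + (j - 1)) b)) (n + 2)
      · rw [pr_ind_pos htp, pr_ind_pos ⟨htp, hM⟩, sub_self]
        exact hnn
      · rw [pr_ind_pos htp, pr_ind_neg fun h => hM h.2, sub_zero]
        have hlmn := pr_lm_le (rh X Y) (bs b) n
        have hlm : w - 2 ≤ lm (rh X Y) (bs b) n := htp.1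
        have hmem : lm (rh X Y) (bs b) n ∈ s := by
          rw [hs, Finset.mem_Icc]
          exact ⟨hlm, hlmn⟩
        refine le_trans ?_ (Finset.single_le_sum (f := fun g =>
          F g (ins x (g - (w - 2) + i) (g - (w - 2) + (j - 1)) X)
            (ins false (g - (w - 2) + i) (g - (w - 2) + (j - 1)) b))
          (fun g _ => hF _ _ _) hmem)
        have hdet := pair_det X Y b n w (lm (rh X Y) (bs b) n - (w - 2) + i)
          (lm (rh X Y) (bs b) n - (w - 2) + (j - 1)) x hX hb (by omega) (by omega) hw2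
          (by omega) htp hM
        have hget := ins_get1 x (p1 := lm (rh X Y) (bs b) n - (w - 2) + i)
          (p2 := lm (rh X Y) (bs b) n - (w - 2) + (j - 1)) (X := X) (by omega) (by omega)
        have hj : lm (rh X Y) (bs b) n - (w - 2) + (j - 1) + 1 =
            lm (rh X Y) (bs b) n - (w - 2) + j := by omega
        rw [hj] at hget
        refine le_of_eq (pr_ind_pos ⟨hdet.1, hdet.2, ?_⟩).symm
        rw [hget.1, hget.2]
    · rw [pr_ind_neg htp, pr_ind_neg fun h => htp h.1, sub_self]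
      exact hnn
  have hcoef : 0 ≤ (1 - a) ^ 2 / (k : ℝ) ^ 2 := by positivity
  refine le_trans ?_ c1
  rw [E2_sum]
  have c4 : (1 - a) ^ 2 / (k : ℝ) ^ 2 * ∑ x : Fin k, ∑ g ∈ s, E2 k a n (fun X b =>
      F g (ins x (g - (w - 2) + i) (g - (w - 2) + (j - 1)) X)
        (ins false (g - (w - 2) + i) (g - (w - 2) + (j - 1)) b)) ≤
      ∑ g ∈ s, E2 k a (n + 2) (F g) := by
    rw [Finset.sum_comm, Finset.mul_sum]
    exact Finset.sum_le_sum c2
  refine le_trans ?_ c4
  refine le_trans ?_ (mul_le_mul_of_nonneg_left (Finset.sum_le_sum fun x _ => c3 x) hcoef)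
  rw [Finset.sum_sub_distrib, Finset.sum_const, Finset.card_univ, Fintype.card_fin,
    nsmul_eq_mul, ← Finset.mul_sum]
  apply le_of_eq
  field_simp

end LCSV
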