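import Pool.Agent.LCSV.TopP

/-!
# Probability of a coincidence of three given rows of the top block

ltl with m = w and A Xb bb = (no true in bb, Xb[i]? = Xb[j]?, Xb[j]? = Xb[t]?): on A the factor count + 1 is 1, so the right side is at most
EL (un k) w (ind (X[i]? = X[j]? and X[j]? = X[t]?)) = 1/k^2. (The entry Xb[i]? of the block is X[q-w+i]?.)
-/

namespace LCSV

open Finset

private theorem trip_one (k : ℕ) (F : List (Fin k) → ℝ) :
    EL (un k) 1 F = ∑ x : Fin k, 1 / (k : ℝ) * F [x] := rfl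

private theorem trip_avg (k : ℕ) (hk : 0 < k) (G : Fin k → ℝ) (c : ℝ) (h : ∀ x, G x ≤ c) :
    ∑ x : Fin k, 1 / (k : ℝ) * G x ≤ c := by
  have hk0 : (0 : ℝ) < k := by exact_mod_cast hk
  calc ∑ x : Fin k, 1 / (k : ℝ) * G x ≤ ∑ x : Fin k, 1 / (k : ℝ) * c := by
        refine Finset.sum_le_sum fun x _ => mul_le_mul_of_nonneg_left (h x) (by positivity)
    _ = c := by
        rw [Finset.sum_const, Finset.card_univ, Fintype.card_fin, nsmul_eq_mul]
        field_simp

private theorem trip_eq (k : ℕ) (hk : 0 < k) (G : Fin k → ℝ) (x : Fin k) (c : ℝ) (hc : 0 ≤ c)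
    (h : ∀ y, G y ≤ ind (x = y) * c) : ∑ y : Fin k, 1 / (k : ℝ) * G y ≤ 1 / k * c := by
  have hk0 : (0 : ℝ) < k := by exact_mod_cast hk
  calc ∑ y : Fin k, 1 / (k : ℝ) * G y ≤ ∑ y : Fin k, 1 / (k : ℝ) * (ind (x = y) * c) := by
        refine Finset.sum_le_sum fun y _ => mul_le_mul_of_nonneg_left (h y) (by positivity)
    _ = 1 / k * c := by
        rw [Finset.sum_eq_single x]
        · rw [ind_true rfl, one_mul]
        · intro y _ hy
          rw [ind_false (Ne.symm hy)]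
          ring
        · intro hx
          exact absurd (Finset.mem_univ x) hx

private theorem trip_get {β : Type*} (X1 X2 X3 X4 : List β) (x y z : β) {i p q : ℕ}
    (h1 : X1.length = i) (h2 : X2.length = p) (h3 : X3.length = q) :
    (X1 ++ ([x] ++ (X2 ++ ([y] ++ (X3 ++ ([z] ++ X4))))))[i]? = some x ∧
    (X1 ++ ([x] ++ (X2 ++ ([y] ++ (X3 ++ ([z] ++ X4))))))[i + 1 + p]? = some y ∧
    (X1 ++ ([x] ++ (X2 ++ ([y] ++ (X3 ++ ([z] ++ X4))))))[i + 1 + p + 1 + q]? = some z := by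
  subst h1 h2 h3
  refine ⟨?_, ?_, ?_⟩
  · rw [List.getElem?_append_right le_rfl]
    simp
  · have e : X1 ++ ([x] ++ (X2 ++ ([y] ++ (X3 ++ ([z] ++ X4))))) =
        (X1 ++ [x] ++ X2) ++ ([y] ++ (X3 ++ ([z] ++ X4))) := by simp
    rw [e, List.getElem?_append_right (by simp; omega)]
    simp
    have : X1.length + 1 + X2.length - (X1.length + (X2.length + 1)) = 0 := by omega
    rw [this]
    simp
  · have e : X1 ++ ([x] ++ (X2 ++ ([y] ++ (X3 ++ ([z] ++ X4))))) =
        (X1 ++ [x] ++ X2 ++ [y] ++ X3) ++ ([z] ++ X4) := by simp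
    rw [e, List.getElem?_append_right (by simp; omega)]
    simp
    have : X1.length + 1 + X2.length + 1 + X3.length -
        (X1.length + (X2.length + (X3.length + 1) + 1)) = 0 := by omega
    rw [this]
    simp

private theorem trip_bs {b : List Bool} {v : ℕ} (h : b[v]? = some true) : v ∈ bs b := by
  unfold bs
  rw [Finset.mem_filter, Finset.mem_range]
  refine ⟨?_, h⟩
  by_contra hc
  rw [List.getElem?_eq_none (not_lt.1 hc)] at h
  exact absurd h (by simp)

theorem three_equal (k : ℕ) (hk : 0 < k) (w i j t : ℕ) (hij : i < j) (hjt : j < t) (htw : t < w) :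
    EL (un k) w (fun X => ind (X[i]? = X[j]? ∧ X[j]? = X[t]?)) ≤ 1 / (k : ℝ) ^ 2 := by
  have hk0 : (0 : ℝ) < k := by exact_mod_cast hk
  have hP := un_isP hk
  obtain ⟨p, rfl⟩ : ∃ p, j = i + 1 + p := ⟨j - (i + 1), by omega⟩
  obtain ⟨q, rfl⟩ : ∃ q, t = i + 1 + p + 1 + q := ⟨t - (i + 1 + p + 1), by omega⟩
  obtain ⟨r, rfl⟩ : ∃ r, w = i + (1 + (p + (1 + (q + (1 + r))))) :=
    ⟨w - (i + 1 + p + 1 + q + 1), by omega⟩
  rw [EL_append]
  refine le_trans (EL_mono hP (G := fun _ => 1 / (k : ℝ) ^ 2) fun X1 hX1 => ?_)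
    (le_of_eq (EL_const hP _ _))
  rw [EL_append, trip_one]
  refine trip_avg k hk _ _ fun x => ?_
  rw [EL_append]
  refine le_trans (EL_mono hP (G := fun _ => 1 / (k : ℝ) ^ 2) fun X2 hX2 => ?_)
    (le_of_eq (EL_const hP _ _))
  rw [EL_append, trip_one]
  have e : 1 / (k : ℝ) ^ 2 = 1 / k * (1 / k) := by ring
  rw [e]
  refine trip_eq k hk _ x (1 / k) (by positivity) fun y => ?_
  rw [EL_append]
  refine le_trans (EL_mono hP (G := fun _ => ind (x = y) * (1 / k)) fun X3 hX3 => ?_)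
    (le_of_eq (EL_const hP _ _))
  rw [EL_append, trip_one]
  have h2 : ind (x = y) * (1 / (k : ℝ)) = 1 / k * ind (x = y) := by ring
  rw [h2]
  refine trip_eq k hk _ y (ind (x = y)) (ind_nonneg _) fun z => ?_
  rw [← ind_and]
  refine le_trans (EL_mono hP (G := fun _ => ind (y = z ∧ x = y)) fun X4 hX4 => ?_)
    (le_of_eq (EL_const hP _ _))
  obtain ⟨g1, g2, g3⟩ := trip_get X1 X2 X3 X4 x y z hX1 hX2 hX3
  rw [g1, g2, g3]
  refine ind_mono ?_
  rintro ⟨h3, h4⟩
  exact ⟨Option.some_injective _ h4, Option.some_injective _ h3⟩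

theorem trip (k : ℕ) (hk : 0 < k) (a : ℝ) (h0 : 0 ≤ a) (h1 : a ≤ 1) (Y : List (Fin k))
    (n w i j t : ℕ) (hij : i < j) (hjt : j < t) (htw : t < w) (hwn : w ≤ n) :
    E2 k a n (fun X b => ind (tp (rh X Y) (bs b) n w ∧
        X[lm (rh X Y) (bs b) n - w + i]? = X[lm (rh X Y) (bs b) n - w + j]? ∧
        X[lm (rh X Y) (bs b) n - w + j]? = X[lm (rh X Y) (bs b) n - w + t]?)) ≤
      1 / (k : ℝ) ^ 2 := by
  have s1 : E2 k a n (fun X b => ind (tp (rh X Y) (bs b) n w ∧
        X[lm (rh X Y) (bs b) n - w + i]? = X[lm (rh X Y) (bs b) n - w + j]? ∧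
        X[lm (rh X Y) (bs b) n - w + j]? = X[lm (rh X Y) (bs b) n - w + t]?)) ≤
      E2 k a n (fun X b => ind (w ≤ lm (rh X Y) (bs b) n ∧
        (fun (Xb : List (Fin k)) (bb : List Bool) => true ∉ bb ∧ Xb[i]? = Xb[j]? ∧
          Xb[j]? = Xb[t]?) ((X.drop (lm (rh X Y) (bs b) n - w)).take w)
          ((b.drop (lm (rh X Y) (bs b) n - w)).take w))) := by
    refine E2_mono hk h0 h1 fun X b hX hb => ind_mono ?_
    rintro ⟨⟨htp1, htp2⟩, hx1, hx2⟩
    refine ⟨htp1, ?_, ?_, ?_⟩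
    · intro hmem
      obtain ⟨u, hu, hut⟩ := List.getElem_of_mem hmem
      have hu1 : ((b.drop (lm (rh X Y) (bs b) n - w)).take w)[u]? = some true := by
        rw [List.getElem?_eq_getElem hu, hut]
      have huw : u < w := by
        have := hu
        rw [List.length_take] at this
        omega
      rw [List.getElem?_take_of_lt huw, List.getElem?_drop] at hu1
      exact htp2 (lm (rh X Y) (bs b) n - w + u) (by omega) (by omega) (trip_bs hu1)
    · rw [List.getElem?_take_of_lt (by omega), List.getElem?_take_of_lt (by omega),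
        List.getElem?_drop, List.getElem?_drop]
      exact hx1
    · rw [List.getElem?_take_of_lt (by omega), List.getElem?_take_of_lt (by omega),
        List.getElem?_drop, List.getElem?_drop]
      exact hx2
  refine s1.trans ((ltl k hk a h0 h1 Y w n hwn (fun (Xb : List (Fin k)) (bb : List Bool) =>
    true ∉ bb ∧ Xb[i]? = Xb[j]? ∧ Xb[j]? = Xb[t]?)).trans ?_)
  refine le_trans ?_ (three_equal k hk w i j t hij hjt htw)
  have s2 : E2 k a w (fun X _ => ind (X[i]? = X[j]? ∧ X[j]? = X[t]?)) =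
      EL (un k) w (fun X => ind (X[i]? = X[j]? ∧ X[j]? = X[t]?)) := by
    unfold E2
    exact EL_congr fun X _ => EL_const (be_isP h0 h1) _ _
  rw [← s2]
  refine E2_mono hk h0 h1 fun X b _ _ => ?_
  by_cases hA : true ∉ b ∧ X[i]? = X[j]? ∧ X[j]? = X[t]?
  · have hc : b.count true = 0 := List.count_eq_zero.2 hA.1
    rw [ind_true hA, hc, ind_true hA.2]
    simp
  · have : ((b.count true : ℝ) + 1) * ind (true ∉ b ∧ X[i]? = X[j]? ∧ X[j]? = X[t]?) = 0 := by
      rw [ind_false hA, mul_zero]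
    exact this.trans_le (ind_nonneg _)

end LCSV
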