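import Pool.Agent.LCSV.FarPr
import Pool.Agent.LCSV.Pair
import Pool.Agent.LCSV.Trip
import Pool.Agent.LCSV.Bonf

/-!
# Many coincidences for the uniform random word

Let w = floor(sqrt k / 320), delta = 1/20, C from farPr. For n large (n1 from farPr, and from bdry with w0 = w, delta = 1/20), l >= k.
Average over Y (length l) of E2 (n+2) loss >= (bonf, and loss >= 0 if tp w fails)
sum over i < j < w of P(tp w, X_i = X_j) - sum over triples <= w^3 / k^2 (trip; w^3/6 triples).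
By pair (averaged over Y) P(tp w, X_i = X_j) >= ((1-a)^2 / k) (P(tp (w-2)) - sum_x (1/k) P(tp (w-2) and raised(x))). The positions satisfy
p1 = q-(w-2)+i <= p2 = q-(w-2)+(j-1) <= q, so by far_of_raise raised(x) implies x in Y.take C or Far X Y (bs b) n C:
sum_x (1/k) ind (x in Y.take C) <= C/k <= 1/10 and P(Far) <= 1/20. topP: P(tp (w-2)) >= 1 - 2 a w - 1/20 >= 1 - 1/4 - 1/20.
So P(tp w, X_i = X_j) >= (9/10)(1/2)/k for k large, the number of pairs is w (w-1)/2 >= k / (2 * 321^2) for k large, and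
the total is >= 0.45 / (2 * 321^2) - w^3/k^2 >= 2.1e-6 - o(1) >= 1/1000000.
Finally E2 (X, b lists) = EL (un k) n of Ex a n (EL_bs), EL_comm to exchange Y and X; n + 2 ranges over all large numbers.
-/

namespace LCSV

open Finset

theorem c2_take (k : ℕ) (hk : 0 < k) (L : List (Fin k)) :
    ∑ x : Fin k, 1 / (k : ℝ) * ind (x ∈ L) ≤ (L.length : ℝ) / k := by
  classical
  have hk' : (0 : ℝ) < k := by exact_mod_cast hk
  have h1 : ∑ x : Fin k, ind (x ∈ L) = (L.toFinset.card : ℝ) := by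
    have : ∀ x : Fin k, ind (x ∈ L) = if x ∈ L.toFinset then (1 : ℝ) else 0 := by
      intro x
      by_cases h : x ∈ L
      · rw [ind_true h, if_pos (List.mem_toFinset.mpr h)]
      · rw [ind_false h, if_neg (fun h' => h (List.mem_toFinset.mp h'))]
    rw [Finset.sum_congr rfl fun x _ => this x, Finset.sum_ite_mem, Finset.univ_inter]
    simp
  rw [← Finset.mul_sum, h1, one_div, inv_mul_eq_div]
  exact div_le_div_of_nonneg_right (by exact_mod_cast L.toFinset_card_le) hk'.le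

theorem c2_pt {α : Type*} [DecidableEq α] (X Y : List α) (s : Finset ℕ) (n w : ℕ) :
    (∑ j ∈ range w, ∑ i ∈ range j,
        ind (tp (rh X Y) s n w ∧
          X[lm (rh X Y) s n - w + i]? = X[lm (rh X Y) s n - w + j]?)) -
      (∑ t ∈ range w, ∑ j ∈ range t, ∑ i ∈ range j,
        ind (tp (rh X Y) s n w ∧
          X[lm (rh X Y) s n - w + i]? = X[lm (rh X Y) s n - w + j]? ∧
          X[lm (rh X Y) s n - w + j]? = X[lm (rh X Y) s n - w + t]?)) ≤
      loss X Y s n := by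
  by_cases h : tp (rh X Y) s n w
  · have h1 := bonf X Y s n w h
    have e : ∀ p : Prop, ind (tp (rh X Y) s n w ∧ p) = ind p := by
      intro p
      rw [ind_and, ind_true h, one_mul]
    simp only [e]
    exact h1
  · have h1 := loss_nonneg X Y s n
    have e : ∀ p : Prop, ind (tp (rh X Y) s n w ∧ p) = 0 := by
      intro p
      exact ind_false (fun h' => h h'.1)
    simp only [e, Finset.sum_const_zero, sub_zero]
    exact h1

theorem c2_pairs (w : ℕ) (V : ℝ) :
    ∑ j ∈ range w, ∑ _i ∈ range j, V = (w : ℝ) * (w - 1) / 2 * V := by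
  induction w with
  | zero => simp
  | succ w ih =>
    rw [Finset.sum_range_succ, ih]
    simp only [Finset.sum_const, Finset.card_range, nsmul_eq_mul]
    push_cast
    ring

theorem c2_triples (w : ℕ) (V : ℝ) (hV : 0 ≤ V) :
    ∑ t ∈ range w, ∑ j ∈ range t, ∑ _i ∈ range j, V ≤ (w : ℝ) ^ 3 * V := by
  have h1 : ∀ t ∈ range w, ∑ j ∈ range t, ∑ _i ∈ range j, V ≤ (w : ℝ) ^ 2 * V := by
    intro t ht
    have ht' : (t : ℝ) ≤ w := by exact_mod_cast (Finset.mem_range.mp ht).le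
    have h2 : ∀ j ∈ range t, ∑ _i ∈ range j, V ≤ (w : ℝ) * V := by
      intro j hj
      have hj' : (j : ℝ) ≤ t := by exact_mod_cast (Finset.mem_range.mp hj).le
      simp only [Finset.sum_const, Finset.card_range, nsmul_eq_mul]
      exact mul_le_mul_of_nonneg_right (hj'.trans ht') hV
    refine (Finset.sum_le_sum h2).trans ?_
    simp only [Finset.sum_const, Finset.card_range, nsmul_eq_mul]
    calc (t : ℝ) * (w * V) ≤ w * (w * V) :=
          mul_le_mul_of_nonneg_right ht' (by positivity)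
      _ = (w : ℝ) ^ 2 * V := by ring
  refine (Finset.sum_le_sum h1).trans ?_
  simp only [Finset.sum_const, Finset.card_range, nsmul_eq_mul]
  exact le_of_eq (by ring)

/-- lower bound of the probability of a coincidence of two given rows -/
theorem c2_pair (k : ℕ) (hk : 0 < k) (a : ℝ) (h0 : 0 ≤ a) (h1 : a ≤ 1) (Y : List (Fin k))
    (n w C i j : ℕ) (hij : i < j) (hjw : j < w) (hwn : w ≤ n) :
    (1 - a) ^ 2 / k * (1 - 2 * a * (w - 2 : ℕ) -
        E2 k a n (fun X b => ind (lm (rh X Y) (bs b) n < w - 2)) - (C : ℝ) / k -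
        E2 k a n (fun X b => ind (Far X Y (bs b) n C))) ≤
      E2 k a (n + 2) (fun X b => ind (tp (rh X Y) (bs b) (n + 2) w ∧
        X[lm (rh X Y) (bs b) (n + 2) - w + i]? = X[lm (rh X Y) (bs b) (n + 2) - w + j]?)) := by
  have hk' : (0 : ℝ) < k := by exact_mod_cast hk
  refine le_trans (mul_le_mul_of_nonneg_left ?_ (by positivity))
    (pair k hk a h0 h1 Y n w i j hij hjw (by omega))
  have ht := topP k hk a h0 h1 Y (w - 2) n (by omega)
  have hr : ∀ x : Fin k, E2 k a n (fun X b => ind (tp (rh X Y) (bs b) n (w - 2) ∧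
        Mx (rh X Y) (bs b) n <
          Mx (rh (ins x (lm (rh X Y) (bs b) n - (w - 2) + i)
              (lm (rh X Y) (bs b) n - (w - 2) + (j - 1)) X) Y)
            (bs (ins false (lm (rh X Y) (bs b) n - (w - 2) + i)
              (lm (rh X Y) (bs b) n - (w - 2) + (j - 1)) b)) (n + 2))) ≤
      ind (x ∈ Y.take C) + E2 k a n (fun X b => ind (Far X Y (bs b) n C)) := by
    intro x
    have e : ind (x ∈ Y.take C) + E2 k a n (fun X b => ind (Far X Y (bs b) n C)) =
        E2 k a n (fun X b => ind (x ∈ Y.take C) + ind (Far X Y (bs b) n C)) := by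
      rw [E2_add, E2_const hk h0 h1]
    rw [e]
    refine E2_mono hk h0 h1 fun X b hX hb => ?_
    refine le_trans (ind_mono fun h => ?_) (ind_or_le _ _)
    have hlm : w - 2 ≤ lm (rh X Y) (bs b) n := h.1.1
    exact far_of_raise X Y b n C _ _ x hX hb (by omega) (by omega) h.2
  have hs : ∑ x : Fin k, 1 / (k : ℝ) * E2 k a n (fun X b => ind (tp (rh X Y) (bs b) n (w - 2) ∧
        Mx (rh X Y) (bs b) n <
          Mx (rh (ins x (lm (rh X Y) (bs b) n - (w - 2) + i)
              (lm (rh X Y) (bs b) n - (w - 2) + (j - 1)) X) Y)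
            (bs (ins false (lm (rh X Y) (bs b) n - (w - 2) + i)
              (lm (rh X Y) (bs b) n - (w - 2) + (j - 1)) b)) (n + 2))) ≤
      (C : ℝ) / k + E2 k a n (fun X b => ind (Far X Y (bs b) n C)) := by
    refine (Finset.sum_le_sum fun x _ =>
      mul_le_mul_of_nonneg_left (hr x) (by positivity)).trans ?_
    simp only [mul_add, Finset.sum_add_distrib]
    refine add_le_add ?_ ?_
    · refine (c2_take k hk (Y.take C)).trans ?_
      refine div_le_div_of_nonneg_right ?_ hk'.le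
      exact_mod_cast List.length_take_le C Y
    · rw [Finset.sum_const, Finset.card_univ, Fintype.card_fin, nsmul_eq_mul]
      refine le_of_eq ?_
      field_simp
  linarith

theorem c2_Y (k : ℕ) (hk : 0 < k) (a : ℝ) (h0 : 0 ≤ a) (h1 : a ≤ 1) (Y : List (Fin k))
    (n w C : ℕ) (hwn : w ≤ n) :
    (w : ℝ) * (w - 1) / 2 * ((1 - a) ^ 2 / k * (1 - 2 * a * (w - 2 : ℕ) -
        E2 k a n (fun X b => ind (lm (rh X Y) (bs b) n < w - 2)) - (C : ℝ) / k -
        E2 k a n (fun X b => ind (Far X Y (bs b) n C)))) - (w : ℝ) ^ 3 * (1 / (k : ℝ) ^ 2) ≤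
      E2 k a (n + 2) (fun X b => loss X Y (bs b) (n + 2)) := by
  refine le_trans ?_ (E2_mono hk h0 h1 fun X b _ _ => c2_pt X Y (bs b) (n + 2) w)
  rw [E2_sub]
  refine sub_le_sub ?_ ?_
  · rw [← c2_pairs, E2_sum]
    refine Finset.sum_le_sum fun j hj => ?_
    rw [E2_sum]
    refine Finset.sum_le_sum fun i hi => ?_
    exact c2_pair k hk a h0 h1 Y n w C i j (Finset.mem_range.mp hi) (Finset.mem_range.mp hj) hwn
  · refine le_trans ?_ (c2_triples w (1 / (k : ℝ) ^ 2) (by positivity))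
    rw [E2_sum]
    refine Finset.sum_le_sum fun t ht => ?_
    rw [E2_sum]
    refine Finset.sum_le_sum fun j hj => ?_
    rw [E2_sum]
    refine Finset.sum_le_sum fun i hi => ?_
    exact trip k hk a h0 h1 Y (n + 2) w i j t (Finset.mem_range.mp hi) (Finset.mem_range.mp hj)
      (Finset.mem_range.mp ht) (by omega)

theorem c2_num (k : ℕ) (hk : 10 ^ 12 ≤ k) (a : ℝ) (ha0 : 0 ≤ a) (ha : a ≤ 40 / √(k : ℝ)) :
    ∃ w : ℕ, 2 ≤ w ∧ 2 * a * (w - 2 : ℕ) ≤ 1 / 4 ∧
      1 / 1000000 ≤ (w : ℝ) * (w - 1) / 2 * ((1 - a) ^ 2 / k) * (11 / 20) -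
        (w : ℝ) ^ 3 * (1 / (k : ℝ) ^ 2) := by
  obtain ⟨s, hs⟩ : ∃ s : ℝ, s = √(k : ℝ) := ⟨_, rfl⟩
  have hk1 : (10 : ℝ) ^ 12 ≤ k := by exact_mod_cast hk
  have hs6 : 10 ^ 6 ≤ s := by
    rw [hs]
    exact Real.le_sqrt_of_sq_le (by linarith)
  have hss : s * s = k := by
    rw [hs]
    exact Real.mul_self_sqrt (by positivity)
  rw [← hs] at ha
  have hs0 : 0 < s := by linarith
  refine ⟨⌊s / 320⌋₊, ?_, ?_, ?_⟩
  · exact Nat.le_floor (by push_cast; linarith)
  · have h1 : ((⌊s / 320⌋₊ - 2 : ℕ) : ℝ) ≤ s / 320 :=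
      le_trans (by exact_mod_cast Nat.sub_le _ _) (Nat.floor_le (by positivity))
    calc 2 * a * ((⌊s / 320⌋₊ - 2 : ℕ) : ℝ) ≤ 2 * (40 / s) * (s / 320) := by
          refine mul_le_mul (by linarith) h1 (by positivity) (by positivity)
      _ = 1 / 4 := by
          field_simp
          norm_num
  · have h1 : ((⌊s / 320⌋₊ : ℕ) : ℝ) ≤ s / 320 := Nat.floor_le (by positivity)
    have h2 : s / 320 < ((⌊s / 320⌋₊ : ℕ) : ℝ) + 1 := Nat.lt_floor_add_one _
    obtain ⟨w, hw⟩ : ∃ w : ℝ, w = ((⌊s / 320⌋₊ : ℕ) : ℝ) := ⟨_, rfl⟩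
    rw [← hw] at h1 h2 ⊢
    have h3 : 3124 / 1000000 * s ≤ w := by linarith
    have h4 : 3123 / 1000000 * s ≤ w - 1 := by linarith
    have h5 : 9 / 1000000 * (k : ℝ) ≤ w * (w - 1) := by
      rw [← hss]
      calc 9 / 1000000 * (s * s) ≤ (3124 / 1000000 * s) * (3123 / 1000000 * s) := by
            nlinarith [mul_pos hs0 hs0]
        _ ≤ w * (w - 1) := mul_le_mul h3 h4 (by positivity) (by linarith)
    have ha4 : a ≤ 1 / 1000 := by
      refine ha.trans ?_
      rw [div_le_iff₀ hs0]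
      linarith
    have h6 : 99 / 100 ≤ (1 - a) ^ 2 := by nlinarith
    have hkpos : (0 : ℝ) < k := by linarith
    have h7 : 99 / 100 * (9 / 1000000) ≤ w * (w - 1) * ((1 - a) ^ 2 / k) := by
      calc (99 : ℝ) / 100 * (9 / 1000000) = (9 / 1000000 * (k : ℝ)) * (99 / 100 / k) := by
            field_simp
        _ ≤ w * (w - 1) * ((1 - a) ^ 2 / k) := by
            refine mul_le_mul h5 (div_le_div_of_nonneg_right h6 hkpos.le) (by positivity) ?_
            linarith [mul_pos (by norm_num : (0 : ℝ) < 9 / 1000000) hkpos]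
    have h8 : w ^ 3 * (1 / (k : ℝ) ^ 2) ≤ 1 / 10000000 := by
      have hw0 : 0 ≤ w := by linarith [mul_pos (by norm_num : (0 : ℝ) < 3124 / 1000000) hs0]
      have e : w ^ 3 ≤ (s / 320) ^ 3 := pow_le_pow_left₀ hw0 h1 3
      have e2 : (s / 320) ^ 3 * (1 / (k : ℝ) ^ 2) = 1 / (320 ^ 3 * s) := by
        rw [← hss]
        field_simp
      calc w ^ 3 * (1 / (k : ℝ) ^ 2) ≤ (s / 320) ^ 3 * (1 / (k : ℝ) ^ 2) :=
            mul_le_mul_of_nonneg_right e (by positivity)
        _ = 1 / (320 ^ 3 * s) := e2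
        _ ≤ 1 / 10000000 := by
            refine one_div_le_one_div_of_le (by norm_num) ?_
            linarith
    have e : w * (w - 1) / 2 * ((1 - a) ^ 2 / k) * (11 / 20) =
        (w * (w - 1) * ((1 - a) ^ 2 / k)) * (11 / 40) := by ring
    rw [e]
    linarith

theorem c2 : ∃ k0 : ℕ, ∀ k ≥ k0, ∀ a : ℝ, 1 / (40 * √(k : ℝ)) ≤ a → a ≤ 40 / √(k : ℝ) →
    ∀ l ≥ k, ∃ n1 : ℕ, ∀ n ≥ n1,
      1 / 1000000 ≤ EL (un k) n (fun X => EL (un k) l (fun Y => Ex a n (fun s =>
        loss X Y s n))) := by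
  obtain ⟨k1, hk1⟩ := farPr (1 / 20) (by norm_num)
  refine ⟨max k1 (10 ^ 12), fun k hk a ha1 ha2 l hl => ?_⟩
  have hkA : k1 ≤ k := le_trans (le_max_left _ _) hk
  have hkB : 10 ^ 12 ≤ k := le_trans (le_max_right _ _) hk
  have hkpos : 0 < k := by omega
  have hkR : (0 : ℝ) < k := by exact_mod_cast hkpos
  have hkB' : (10 : ℝ) ^ 12 ≤ k := by exact_mod_cast hkB
  have hs6 : 10 ^ 6 ≤ √(k : ℝ) := Real.le_sqrt_of_sq_le (by linarith)
  have hs0 : 0 < √(k : ℝ) := by linarith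
  have ha0 : 0 < a := lt_of_lt_of_le (by positivity) ha1
  have ha3 : a ≤ 1 := by
    refine ha2.trans ?_
    rw [div_le_iff₀ hs0]
    linarith
  obtain ⟨C, hC, hfar⟩ := hk1 k hkA
  obtain ⟨n1, hn1⟩ := hfar a ha1 ha2 l hl
  obtain ⟨w, hw2, hwa, hnum⟩ := c2_num k hkB a ha0.le ha2
  obtain ⟨n2, hn2⟩ := bdry a ha0 ha3 l (w - 2) (1 / 20) (by norm_num)
  refine ⟨max (max n1 n2) w + 2, fun n' hn' => ?_⟩
  obtain ⟨n, rfl⟩ : ∃ n, n' = n + 2 := ⟨n' - 2, by omega⟩
  have hnA : n1 ≤ n := by omega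
  have hnB : n2 ≤ n := by omega
  have hnw : w ≤ n := by omega
  have hU := un_isP hkpos
  have e1 : EL (un k) (n + 2) (fun X => EL (un k) l (fun Y => Ex a (n + 2) (fun s =>
        loss X Y s (n + 2)))) =
      EL (un k) l (fun Y => E2 k a (n + 2) (fun X b => loss X Y (bs b) (n + 2))) := by
    rw [EL_comm]
    refine EL_congr fun Y _ => ?_
    unfold E2
    refine EL_congr fun X _ => ?_
    exact (EL_bs a (n + 2) (fun s => loss X Y s (n + 2))).symm
  rw [e1]
  obtain ⟨K, hK⟩ : ∃ K : ℝ, K = (w : ℝ) * (w - 1) / 2 * ((1 - a) ^ 2 / k) := ⟨_, rfl⟩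
  have hw1 : (2 : ℝ) ≤ w := by exact_mod_cast hw2
  have hK0 : 0 ≤ K := by
    rw [hK]
    have : (0 : ℝ) ≤ (w : ℝ) - 1 := by linarith
    positivity
  have hY : ∀ Y : List (Fin k), Y.length = l →
      K * (3 / 5 - E2 k a n (fun X b => ind (Far X Y (bs b) n C))) -
        (w : ℝ) ^ 3 * (1 / (k : ℝ) ^ 2) ≤
      E2 k a (n + 2) (fun X b => loss X Y (bs b) (n + 2)) := by
    intro Y hYl
    refine le_trans ?_ (c2_Y k hkpos a ha0.le ha3 Y n w C hnw)
    have hb : E2 k a n (fun X b => ind (lm (rh X Y) (bs b) n < w - 2)) ≤ 1 / 20 := by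
      unfold E2
      have : EL (un k) n (fun X => EL (be a) n fun b => ind (lm (rh X Y) (bs b) n < w - 2)) ≤
          EL (un k) n (fun _ => (1 / 20 : ℝ)) := by
        refine EL_mono hU fun X _ => ?_
        have e := EL_bs a n (fun s => ind (lm (rh X Y) s n < w - 2))
        rw [e]
        exact hn2 n hnB k X Y hYl.le
      rwa [EL_const hU] at this
    have hCk : (C : ℝ) / k ≤ 1 / 10 := by
      rw [div_le_iff₀ hkR]
      have : (10 * C : ℝ) ≤ k := by exact_mod_cast hC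
      linarith
    rw [← mul_assoc, ← hK]
    refine sub_le_sub_right (mul_le_mul_of_nonneg_left ?_ hK0) _
    linarith
  refine le_trans ?_ (EL_mono hU hY)
  have hF := hn1 n hnA
  have e2 : EL (un k) l (fun Y => K * (3 / 5 - E2 k a n (fun X b => ind (Far X Y (bs b) n C))) -
        (w : ℝ) ^ 3 * (1 / (k : ℝ) ^ 2)) =
      K * (3 / 5 - EL (un k) l (fun Y => E2 k a n (fun X b => ind (Far X Y (bs b) n C)))) -
        (w : ℝ) ^ 3 * (1 / (k : ℝ) ^ 2) := by
    rw [EL_sub, EL_mul_left, EL_sub, EL_const hU, EL_const hU]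
  rw [e2]
  rw [← hK] at hnum
  have h9 : K * (11 / 20) ≤
      K * (3 / 5 - EL (un k) l (fun Y => E2 k a n (fun X b => ind (Far X Y (bs b) n C)))) :=
    mul_le_mul_of_nonneg_left (by linarith) hK0
  linarith

end LCSV
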