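import Mathlib

/-!
# LCSV: linear lower bound for the variance of the longest common subsequence

Definitions used in all modules of the folder.
-/

namespace LCSV

open Finset

/-- length of a longest common subsequence of two lists -/
noncomputable def lcs {α : Type*} (x y : List α) : ℕ :=
  sSup {m : ℕ | ∃ s : List α, s.Sublist x ∧ s.Sublist y ∧ s.length = m}

/-- expectation over lists of n independent entries with weights mu -/
noncomputable def EL {β : Type*} [Fintype β] (mu : β → ℝ) : ℕ → (List β → ℝ) → ℝ
  | 0, F => F []
  | n + 1, F => ∑ x, mu x * EL mu n (fun l => F (x :: l))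

/-- the weights are probabilities -/
structure IsP {β : Type*} [Fintype β] (mu : β → ℝ) : Prop where
  nonneg : ∀ x, 0 ≤ mu x
  sum_one : ∑ x, mu x = 1

/-- uniform weights on Fin k -/
noncomputable def un (k : ℕ) : Fin k → ℝ := fun _ => 1 / (k : ℝ)

/-- Bernoulli weights -/
noncomputable def be (a : ℝ) : Bool → ℝ := fun b => if b = true then a else 1 - a

/-- expectation over n independent rows: uniform letters X and Bernoulli(a) bits b -/
noncomputable def E2 (k : ℕ) (a : ℝ) (n : ℕ) (F : List (Fin k) → List Bool → ℝ) : ℝ :=
  EL (un k) n (fun X => EL (be a) n (fun b => F X b))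

/-- Bernoulli weight of a subset s of range n -/
noncomputable def wt (a : ℝ) (n : ℕ) (s : Finset ℕ) : ℝ := a ^ s.card * (1 - a) ^ (n - s.card)

/-- expectation over Bernoulli(a) subsets of range n -/
noncomputable def Ex (a : ℝ) (n : ℕ) (F : Finset ℕ → ℝ) : ℝ :=
  ∑ s ∈ (range n).powerset, wt a n s * F s

open Classical in
/-- indicator of a proposition -/
noncomputable def ind (p : Prop) : ℝ := if p then 1 else 0

/-- number of elements of s below the gap g -/
def ht (s : Finset ℕ) (g : ℕ) : ℕ := (s.filter (fun i => i < g)).card

/-- value of the gap g -/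
def fv (rho : ℕ → ℕ) (s : Finset ℕ) (g : ℕ) : ℕ := ht s g + rho g

/-- maximal value of the gaps 0, ..., t -/
def Mx (rho : ℕ → ℕ) (s : Finset ℕ) (t : ℕ) : ℕ := (range (t + 1)).sup (fv rho s)

/-- last gap among 0, ..., t with maximal value -/
def lm (rho : ℕ → ℕ) (s : Finset ℕ) (t : ℕ) : ℕ :=
  ((range (t + 1)).filter (fun g => fv rho s g = Mx rho s t)).sup id

/-- the rows which can raise the maximum -/
def hit (rho : ℕ → ℕ) (s : Finset ℕ) (n : ℕ) : Finset ℕ :=
  (range n).filter (fun i => i ∉ s ∧ fv rho s (i + 1) = Mx rho s n)

/-- the chain: last maximal gap, last maximal gap at distance at least l to the left of it, ... -/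
def qq (rho : ℕ → ℕ) (s : Finset ℕ) (n l : ℕ) : ℕ → ℕ
  | 0 => lm rho s n
  | t + 1 => lm rho s (qq rho s n l t - l)

/-- number of elements of s in the block of l rows to the left of the gap g -/
def bits (s : Finset ℕ) (g l : ℕ) : ℕ := (s ∩ Ico (g - l) g).card

/-- m ties at distances at least l -/
def chn (rho : ℕ → ℕ) (s : Finset ℕ) (n l m : ℕ) : Prop :=
  ∀ r < m, l ≤ qq rho s n l r ∧
    fv rho s (qq rho s n l r) = fv rho s (qq rho s n l (r + 1))

/-- the right environment given by the word X (rows) and the word Y (columns) -/
noncomputable def rh {α : Type*} (X Y : List α) (g : ℕ) : ℕ := lcs (X.drop g) Y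

/-- the set of positions of true -/
def bs (b : List Bool) : Finset ℕ := (range b.length).filter (fun i => b[i]? = some true)

/-- the set of letters of X at the positions S -/
def ims {α : Type*} [DecidableEq α] (X : List α) (S : Finset ℕ) : Finset (Option α) :=
  S.image (fun i => X[i]?)

/-- number of coincidences of letters in the set hit -/
noncomputable def loss {α : Type*} [DecidableEq α] (X Y : List α) (s : Finset ℕ) (n : ℕ) : ℝ :=
  ((hit (rh X Y) s n).card : ℝ) - ((ims X (hit (rh X Y) s n)).card : ℝ)

end LCSV
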