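import Pool.Agent.LCSV.ELb
import Pool.Agent.LCSV.LcsA

/-!
# The periodic word and its expected lcs: monotone and superadditive

wp_append: periodicity W (i + t P) = W i. wp_drop: the same. GG_super: EL_append for Y and lcs_append_ge. GG_mono: lcs_mono
(wp W P t is a prefix of wp W P t' for t <= t'; for m <= m' write m' = m + (m' - m) and use EL_append, lcs_mono).
-/

namespace LCSV

open Finset

/-- t periods of the word W -/
def wp {k : ℕ} (W : ℕ → Fin k) (P t : ℕ) : List (Fin k) := (List.range (t * P)).map W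

/-- expected lcs of t periods of W and a uniform word of length m -/
noncomputable def GG (k : ℕ) (W : ℕ → Fin k) (P t m : ℕ) : ℝ :=
  EL (un k) m (fun Y => (lcs (wp W P t) Y : ℝ))

variable {k : ℕ} {W : ℕ → Fin k} {P : ℕ}

theorem wp_length (t : ℕ) : (wp W P t).length = t * P := by
  simp [wp]

theorem wp_get (t i : ℕ) (h : i < t * P) : (wp W P t)[i]? = some (W i) := by
  simp [wp, h]

theorem gg_per (hper : ∀ i, W (i + P) = W i) (t i : ℕ) : W (t * P + i) = W i := by
  induction t with
  | zero => simp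
  | succ t ih =>
    have h1 : (t + 1) * P + i = (t * P + i) + P := by ring
    rw [h1, hper, ih]

theorem wp_append (hper : ∀ i, W (i + P) = W i) (t t' : ℕ) :
    wp W P (t + t') = wp W P t ++ wp W P t' := by
  unfold wp
  rw [add_mul, List.range_add, List.map_append, List.map_map]
  congr 1
  apply List.map_congr_left
  intro i _
  exact gg_per hper t i

theorem wp_drop (hper : ∀ i, W (i + P) = W i) (t j : ℕ) (h : j ≤ t) :
    (wp W P t).drop (j * P) = wp W P (t - j) := by
  have h1 : t = j + (t - j) := by omega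
  conv_lhs => rw [h1, wp_append hper]
  have h2 : j * P = (wp W P j).length := (wp_length j).symm
  rw [h2]
  simp

theorem GG_nonneg (hk : 0 < k) (t m : ℕ) : 0 ≤ GG k W P t m :=
  EL_nonneg (un_isP hk) (fun _ _ => Nat.cast_nonneg _)

theorem GG_super (hk : 0 < k) (hper : ∀ i, W (i + P) = W i) (t t' m m' : ℕ) :
    GG k W P t m + GG k W P t' m' ≤ GG k W P (t + t') (m + m') := by
  unfold GG
  rw [EL_append]
  have h1 : EL (un k) m (fun Y => (lcs (wp W P t) Y : ℝ)) +
      EL (un k) m' (fun Y => (lcs (wp W P t') Y : ℝ)) =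
      EL (un k) m (fun Y1 => EL (un k) m' (fun Y2 =>
        (lcs (wp W P t) Y1 : ℝ) + (lcs (wp W P t') Y2 : ℝ))) := by
    have h2 : (fun Y1 : List (Fin k) => EL (un k) m' (fun Y2 =>
        (lcs (wp W P t) Y1 : ℝ) + (lcs (wp W P t') Y2 : ℝ))) =
        fun Y1 : List (Fin k) => (lcs (wp W P t) Y1 : ℝ) +
          EL (un k) m' (fun Y2 => (lcs (wp W P t') Y2 : ℝ)) := by
      funext Y1
      rw [EL_add, EL_const (un_isP hk)]
    rw [h2, EL_add, EL_const (un_isP hk)]
  rw [h1]
  refine EL_mono (un_isP hk) fun Y1 _ => EL_mono (un_isP hk) fun Y2 _ => ?_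
  rw [wp_append hper]
  exact_mod_cast lcs_append_ge (wp W P t) (wp W P t') Y1 Y2

theorem GG_nsmul (hk : 0 < k) (hper : ∀ i, W (i + P) = W i) (N t m : ℕ) :
    N * GG k W P t m ≤ GG k W P (N * t) (N * m) := by
  induction N with
  | zero => simpa using GG_nonneg hk (0 * t) (0 * m)
  | succ N ih =>
    have h1 := GG_super hk hper (N * t) t (N * m) m
    have h2 : (N + 1) * t = N * t + t := by ring
    have h3 : (N + 1) * m = N * m + m := by ring
    rw [h2, h3]
    push_cast
    linarith

theorem GG_mono (hk : 0 < k) {t t' m m' : ℕ} (ht : t ≤ t') (hm : m ≤ m') :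
    GG k W P t m ≤ GG k W P t' m' := by
  obtain ⟨d, rfl⟩ := Nat.exists_eq_add_of_le hm
  unfold GG
  rw [EL_append]
  refine EL_mono (un_isP hk) fun Y1 _ => ?_
  have h1 : (lcs (wp W P t) Y1 : ℝ) = EL (un k) d (fun _ => (lcs (wp W P t) Y1 : ℝ)) :=
    (EL_const (un_isP hk) d _).symm
  rw [h1]
  refine EL_mono (un_isP hk) fun Y2 _ => ?_
  have h2 : (wp W P t).Sublist (wp W P t') := by
    unfold wp
    apply List.Sublist.map
    have h3 : t' * P = t * P + (t' * P - t * P) := by
      have := Nat.mul_le_mul_right P ht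
      omega
    rw [h3, List.range_add]
    exact List.sublist_append_left _ _
  exact_mod_cast lcs_mono h2 (List.sublist_append_left Y1 Y2)

end LCSV
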