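import Pool.Agent.LCSV.TelE
import Pool.Agent.LCSV.GeoE
import Pool.Agent.LCSV.McD2
import Pool.Agent.LCSV.Brg
import Pool.Agent.LCSV.GG
import Pool.Agent.LCSV.LcsB

/-!
# Lower bound for the periodic word: some pair (t, m) is good

Let lam = (1/k)(1/a - 1 - e). Fix m large, T = floor(2 m / (a P)) + 1 periods, n = T P, X = wp W P T, so a n >= 2 m and n <= 2 m / a + P.
(1) E Mx (over Y of length m and bits) = a n + (1/k) sum over l < m of E card ims. For every Y: card ims X hit = card (image W hit) (wp_get),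
so Ex card ims >= Ex card hit - e = (1/a - 1)(1 - P(Mx = rho 0)) - e (geo_mean), and for Y of length l <= m: Mx = rho 0 implies card s = ht s n <= Mx <= l <= m
(rh_le_right), which has probability <= a n / (a n - m)^2 <= 4/(a n) <= 2/m (Ex_card_var; a n >= 2m). So
E Mx >= a n + m lam - (m/k)(1/a)(2/m) = a n + m lam - 2/(a k).
(2) Upper bound. For a gap g <= n let j = g / P <= T: ht s g <= ht s (j P) + P and lcs (X.drop g) Y <= lcs (X.drop (j P)) Y = lcs (wp W P (T - j)) Y (wp_drop).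
So Mx <= P + Z_j for some j <= T, Z_j = ht s (j P) + lcs (wp W P (T-j)) Y, E Z_j = a j P + GG (T - j) m (Ex_ht or E_count).
Apply emax_le with mu = be a (bits as lists of length n, EL_bs, ht_bs), nu = un k, S = range (T+1), c = 1:
E Mx <= P + max_j E Z_j + log (T+1) / tau + tau (n + m)/2 for every tau > 0.
(3) So for some j: a j P + GG (T-j) m >= a n + m lam - 2/(a k) - P - log (T+1)/tau - tau (n+m)/2; with t = T - j: GG t m >= a t P + m lam - error.
Choose tau = eps a / 4 (so that tau (n+m)/2 <= eps m / 2 for m large, n + m <= 3 m / a + P) and then m large: error <= eps m.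
-/

namespace LCSV

open Finset

private theorem dLow_Ex_ht (a : ℝ) {n N : ℕ} (h : N ≤ n) :
    Ex a n (fun s => (ht s N : ℝ)) = a * N := by
  induction n, h using Nat.le_induction with
  | base =>
    rw [← Ex_card (a := a) (n := N)]
    refine Ex_congr fun s hs => ?_
    rw [ht_card hs]
  | succ n hn ih =>
    rw [Ex_succ, ← ih]
    refine Ex_congr fun s hs => ?_
    have h1 : n ∉ s := fun h2 => by
      have := Finset.mem_range.1 (hs h2)
      omega
    rw [ht_insert h1, if_neg (by omega), add_zero]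
    ring

private theorem dLow_count (l1 l2 : List Bool) (x x' : Bool) (g : ℕ) :
    |((((l1 ++ x :: l2).take g).count true : ℕ) : ℝ) -
      ((((l1 ++ x' :: l2).take g).count true : ℕ) : ℝ)| ≤ 1 := by
  rw [List.take_append, List.take_append]
  rcases h : g - l1.length with _ | k
  · simp
  · rw [List.take_succ_cons, List.take_succ_cons, List.count_append, List.count_append,
      List.count_cons, List.count_cons]
    cases x <;> cases x' <;> simp

private theorem dLow_ims {k P : ℕ} (W : ℕ → Fin k) (T : ℕ) {H : Finset ℕ} (hH : H ⊆ range (T * P)) :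
    (ims (wp W P T) H).card = (H.image W).card := by
  have h1 : ims (wp W P T) H = (H.image W).image some := by
    unfold ims
    rw [Finset.image_image]
    refine Finset.image_congr fun i hi => ?_
    have hi' : i ∈ H := hi
    rw [wp_get T i (Finset.mem_range.1 (hH hi'))]
    rfl
  rw [h1, Finset.card_image_of_injective _ (Option.some_injective _)]

private theorem dLow_four {x : ℝ} (hx : x ≠ 0) : 4 / x ^ 2 * (x / 2) ^ 2 = 1 := by
  field_simp
  norm_num

private theorem dLow_p {α : Type*} (X Y : List α) {a : ℝ} (h0 : 0 < a) (h1 : a < 1) {n m : ℕ}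
    (hm : 1 ≤ m) (hY : Y.length ≤ m) (hn : 2 * (m : ℝ) ≤ a * n) :
    Ex a n (fun s => ind (Mx (rh X Y) s n = rh X Y 0)) ≤ 2 / m := by
  have hm0 : (0 : ℝ) < m := by
    have : (1 : ℝ) ≤ m := by exact_mod_cast hm
    linarith
  have han : 0 < a * n := by linarith
  have h2 : Ex a n (fun s => ind (Mx (rh X Y) s n = rh X Y 0)) ≤
      Ex a n (fun s => 4 / (a * n) ^ 2 * ((s.card : ℝ) - a * n) ^ 2) := by
    refine Ex_mono h0.le h1.le fun s hs => ?_
    by_cases h3 : Mx (rh X Y) s n = rh X Y 0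
    · rw [ind_true h3]
      have h4 : fv (rh X Y) s n ≤ Mx (rh X Y) s n := fv_le_Mx le_rfl
      have h5 : s.card ≤ m := by
        have h6 : ht s n ≤ fv (rh X Y) s n := Nat.le_add_right _ _
        have h7 := rh_le_right X Y 0
        rw [ht_card hs] at h6
        omega
      have h6 : (s.card : ℝ) ≤ m := by exact_mod_cast h5
      have h7 : (a * n / 2) ^ 2 ≤ ((s.card : ℝ) - a * n) ^ 2 := by
        rw [← neg_sq ((s.card : ℝ) - a * n)]
        exact pow_le_pow_left₀ (by linarith) (by linarith) 2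
      have h8 : 4 / (a * n) ^ 2 * (a * n / 2) ^ 2 = 1 := dLow_four han.ne'
      rw [← h8]
      exact mul_le_mul_of_nonneg_left h7 (by positivity)
    · rw [ind_false h3]
      positivity
  rw [Ex_mul_left] at h2
  have h3 := Ex_card_var (a := a) (n := n) h0.le h1.le
  have h4 : 4 / (a * n) ^ 2 * Ex a n (fun s => ((s.card : ℝ) - a * n) ^ 2) ≤
      4 / (a * n) ^ 2 * (a * n) := mul_le_mul_of_nonneg_left h3 (by positivity)
  have h5 : 4 / (a * n) ^ 2 * (a * n) = 4 / (a * n) := by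
    field_simp
  have h6 : 4 / (a * n) ≤ 2 / m := by
    rw [div_le_div_iff₀ han hm0]
    linarith
  linarith

private theorem dLow_low (k : ℕ) (hk : 0 < k) (P : ℕ) (W : ℕ → Fin k) (a : ℝ) (h0 : 0 < a) (h1 : a < 1) (e : ℝ)
    (he : ∀ (n : ℕ) (rho : ℕ → ℕ), Antitone rho →
      Ex a n (fun s => ((hit rho s n).card : ℝ) - (((hit rho s n).image W).card : ℝ)) ≤ e)
    (T m : ℕ) (hm : 1 ≤ m) (hn : 2 * (m : ℝ) ≤ a * (T * P : ℕ)) :
    a * (T * P : ℕ) + m * (1 / (k : ℝ) * (1 / a - 1 - e)) - 2 / (a * k) ≤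
      EL (un k) m (fun Y => Ex a (T * P) (fun s => (Mx (rh (wp W P T) Y) s (T * P) : ℝ))) := by
  have hk0 : (0 : ℝ) < k := by exact_mod_cast hk
  have hm0 : (0 : ℝ) < m := by
    have : (1 : ℝ) ≤ m := by exact_mod_cast hm
    linarith
  rw [EMx_sum k hk a (wp W P T) (T * P) (wp_length T) m]
  have hterm : ∀ l ∈ range m, (1 / a - 1 - e) - 2 / (a * m) ≤
      EL (un k) l (fun Y => Ex a (T * P) (fun s =>
        ((ims (wp W P T) (hit (rh (wp W P T) Y) s (T * P))).card : ℝ))) := by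
    intro l hl
    rw [← EL_const (un_isP hk) l ((1 / a - 1 - e) - 2 / (a * m))]
    refine EL_mono (un_isP hk) fun Y hY => ?_
    have hr := rh_antitone (wp W P T) Y
    have e1 := he (T * P) (rh (wp W P T) Y) hr
    rw [Ex_sub] at e1
    have e2 : Ex a (T * P) (fun s =>
        ((ims (wp W P T) (hit (rh (wp W P T) Y) s (T * P))).card : ℝ)) =
        Ex a (T * P) (fun s => (((hit (rh (wp W P T) Y) s (T * P)).image W).card : ℝ)) := by
      refine Ex_congr fun s _ => ?_
      have hsub : hit (rh (wp W P T) Y) s (T * P) ⊆ range (T * P) := Finset.filter_subset _ _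
      rw [dLow_ims W T hsub]
    rw [e2]
    have e3 := geo_mean a (rh (wp W P T) Y) hr (T * P)
    have hlm : Y.length ≤ m := by
      have := Finset.mem_range.1 hl
      omega
    have e4 := dLow_p (wp W P T) Y h0 h1 hm hlm hn
    have e5 : 0 ≤ Ex a (T * P) (fun s => ind (Mx (rh (wp W P T) Y) s (T * P) =
        rh (wp W P T) Y 0)) := Ex_nonneg h0.le h1.le fun s _ => ind_nonneg _
    obtain ⟨p, hp⟩ : ∃ p, p = Ex a (T * P) (fun s => ind (Mx (rh (wp W P T) Y) s (T * P) =
        rh (wp W P T) Y 0)) := ⟨_, rfl⟩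
    rw [← hp] at e3 e4 e5
    obtain ⟨x, hx⟩ : ∃ x, x = Ex a (T * P) (fun s => ((hit (rh (wp W P T) Y) s (T * P)).card : ℝ)) :=
      ⟨_, rfl⟩
    rw [← hx] at e1 e3
    have e6 : (1 - a) - 2 / m ≤ a * x := by
      rw [e3]
      have : 0 ≤ a * p := mul_nonneg h0.le e5
      linarith
    have e7 : 1 / a - 1 - 2 / (a * m) ≤ x := by
      have e8 : 1 / a - 1 - 2 / (a * m) = ((1 - a) - 2 / m) / a := by
        field_simp
      rw [e8, div_le_iff₀ h0]
      linarith
    linarith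
  have hsum := Finset.card_nsmul_le_sum _ _ _ hterm
  rw [Finset.card_range, nsmul_eq_mul] at hsum
  have h2 : (m : ℝ) * ((1 / a - 1 - e) - 2 / (a * m)) = m * (1 / a - 1 - e) - 2 / a := by
    field_simp
  rw [h2] at hsum
  have h3 := mul_le_mul_of_nonneg_left hsum (by positivity : (0 : ℝ) ≤ 1 / k)
  have h4 : 1 / (k : ℝ) * (m * (1 / a - 1 - e) - 2 / a) =
      m * (1 / (k : ℝ) * (1 / a - 1 - e)) - 2 / (a * k) := by
    field_simp
  rw [h4] at h3
  linarith

private theorem dLow_up (k : ℕ) (hk : 0 < k) (P : ℕ) (hP : 1 ≤ P)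
    (W : ℕ → Fin k) (hper : ∀ i, W (i + P) = W i) (a : ℝ) (h0 : 0 < a) (h1 : a < 1) (T m : ℕ) (t : ℝ) (htt : 0 < t) :
    ∃ j ≤ T, EL (un k) m (fun Y => Ex a (T * P) (fun s => (Mx (rh (wp W P T) Y) s (T * P) : ℝ))) ≤
      P + (a * (j * P) + GG k W P (T - j) m) + Real.log (T + 1) / t +
        t * ((T * P : ℕ) + m) / 2 := by
  have hbe : IsP (be a) := be_isP h0.le h1.le
  have hun : IsP (un k) := un_isP hk
  obtain ⟨F, hF⟩ : ∃ F : ℕ → List Bool → List (Fin k) → ℝ, F = fun j b Y =>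
    (ht (bs b) (j * P) : ℝ) + (lcs (wp W P (T - j)) Y : ℝ) := ⟨_, rfl⟩
  obtain ⟨M, hM⟩ : ∃ M : ℕ → ℝ, M = fun j =>
    EL (be a) (T * P) (fun b => EL (un k) m (fun Y => F j b Y)) := ⟨_, rfl⟩
  have hMj : ∀ j ≤ T, M j = a * (j * P) + GG k W P (T - j) m := by
    intro j hj
    have e1 : M j = EL (be a) (T * P) (fun b => (ht (bs b) (j * P) : ℝ) + GG k W P (T - j) m) := by
      rw [hM]
      refine EL_congr fun b _ => ?_
      rw [hF]
      change EL (un k) m (fun Y => (ht (bs b) (j * P) : ℝ) + (lcs (wp W P (T - j)) Y : ℝ)) = _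
      rw [EL_add, EL_const hun]
      rfl
    rw [e1, EL_add, EL_const hbe]
    have e2 := EL_bs a (T * P) (fun s => (ht s (j * P) : ℝ))
    rw [e2, dLow_Ex_ht a (Nat.mul_le_mul_right P hj)]
    push_cast
    ring
  obtain ⟨j, hjT, hjmax⟩ := Finset.exists_max_image (range (T + 1)) M ⟨0, by simp⟩
  have hjT' : j ≤ T := Nat.lt_succ_iff.1 (Finset.mem_range.1 hjT)
  refine ⟨j, hjT', ?_⟩
  have hib : ∀ (b : List Bool) (Y : List (Fin k)),
      lm (rh (wp W P T) Y) (bs b) (T * P) / P ∈ range (T + 1) := by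
    intro b Y
    rw [Finset.mem_range]
    have h2 := lm_le (rh (wp W P T) Y) (bs b) (T * P)
    have h3 : lm (rh (wp W P T) Y) (bs b) (T * P) / P ≤ T := by
      refine (Nat.div_le_div_right h2).trans ?_
      rw [Nat.mul_div_cancel _ (by omega)]
    omega
  have hmax := emax_le hbe hun (T * P) m (range (T + 1)) F 1 zero_le_one (by
      intro i _ l1 l2 x x' y _ _
      rw [hF]
      simp only [ht_bs]
      have h2 := dLow_count l1 l2 x x' (i * P)
      rw [add_sub_add_right_eq_sub]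
      exact h2) (by
      intro i _ x l1 l2 y y' _ _
      rw [hF]
      simp only
      rw [add_sub_add_left_eq_sub]
      exact lcs_change_right _ _ _ _ _) t htt
    (fun b Y => lm (rh (wp W P T) Y) (bs b) (T * P) / P) (fun b Y _ _ => hib b Y)
  have hbound : ∀ (b : List Bool) (Y : List (Fin k)),
      (Mx (rh (wp W P T) Y) (bs b) (T * P) : ℝ) ≤
        (F (lm (rh (wp W P T) Y) (bs b) (T * P) / P) b Y -
          M (lm (rh (wp W P T) Y) (bs b) (T * P) / P)) + (P + M j) := by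
    intro b Y
    obtain ⟨g, hg⟩ : ∃ g, g = lm (rh (wp W P T) Y) (bs b) (T * P) := ⟨_, rfl⟩
    have h2 := hib b Y
    have h3 := fv_lm (rh (wp W P T) Y) (bs b) (T * P)
    rw [← hg] at h2 h3 ⊢
    have h4 : g / P ≤ T := Nat.lt_succ_iff.1 (Finset.mem_range.1 h2)
    have h5 : g / P * P ≤ g := Nat.div_mul_le_self g P
    have h6 : ht (bs b) g ≤ ht (bs b) (g / P * P) + P := by
      have h7 : g - g % P = g / P * P := by
        have := Nat.div_add_mod' g P
        omega
      have h8 := ht_add_bits (s := bs b) (Nat.mod_le g P)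
      rw [h7] at h8
      have h9 : bits (bs b) g (g % P) ≤ g % P := bits_le
      have h10 : g % P < P := Nat.mod_lt _ (by omega)
      omega
    have h7 : rh (wp W P T) Y g ≤ lcs (wp W P (T - g / P)) Y := by
      have h8 := rh_antitone (wp W P T) Y h5
      have h9 : rh (wp W P T) Y (g / P * P) = lcs (wp W P (T - g / P)) Y := by
        unfold rh
        rw [wp_drop hper T (g / P) h4]
      rw [← h9]
      exact h8
    have h8 : fv (rh (wp W P T) Y) (bs b) g = ht (bs b) g + rh (wp W P T) Y g := rfl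
    rw [← h3, h8]
    have h9 : M (g / P) ≤ M j := hjmax _ h2
    have h10 : F (g / P) b Y = (ht (bs b) (g / P * P) : ℝ) + (lcs (wp W P (T - g / P)) Y : ℝ) := by
      rw [hF]
    rw [h10]
    have h11 : (ht (bs b) g : ℝ) ≤ (ht (bs b) (g / P * P) : ℝ) + P := by exact_mod_cast h6
    have h12 : (rh (wp W P T) Y g : ℝ) ≤ (lcs (wp W P (T - g / P)) Y : ℝ) := by exact_mod_cast h7
    push_cast
    linarith
  have hE : EL (un k) m (fun Y => Ex a (T * P) (fun s => (Mx (rh (wp W P T) Y) s (T * P) : ℝ))) =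
      EL (be a) (T * P) (fun b => EL (un k) m (fun Y =>
        (Mx (rh (wp W P T) Y) (bs b) (T * P) : ℝ))) := by
    rw [EL_comm]
    refine EL_congr fun Y _ => ?_
    exact (EL_bs a (T * P) (fun s => (Mx (rh (wp W P T) Y) s (T * P) : ℝ))).symm
  have hE2 : EL (be a) (T * P) (fun b => EL (un k) m (fun Y =>
        (Mx (rh (wp W P T) Y) (bs b) (T * P) : ℝ))) ≤
      EL (be a) (T * P) (fun b => EL (un k) m (fun Y =>
        (F (lm (rh (wp W P T) Y) (bs b) (T * P) / P) b Y -
          M (lm (rh (wp W P T) Y) (bs b) (T * P) / P)) + (P + M j))) :=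
    EL_mono hbe fun b _ => EL_mono hun fun Y _ => hbound b Y
  have hE3 : EL (be a) (T * P) (fun b => EL (un k) m (fun Y =>
        (F (lm (rh (wp W P T) Y) (bs b) (T * P) / P) b Y -
          M (lm (rh (wp W P T) Y) (bs b) (T * P) / P)) + (P + M j))) =
      EL (be a) (T * P) (fun b => EL (un k) m (fun Y =>
        F (lm (rh (wp W P T) Y) (bs b) (T * P) / P) b Y -
          M (lm (rh (wp W P T) Y) (bs b) (T * P) / P))) + (P + M j) := by
    rw [← EL_const hbe (T * P) ((P : ℝ) + M j), ← EL_add]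
    refine EL_congr fun b _ => ?_
    rw [EL_const hbe, EL_add, EL_const hun]
  have hmax' : EL (be a) (T * P) (fun b => EL (un k) m (fun Y =>
        F (lm (rh (wp W P T) Y) (bs b) (T * P) / P) b Y -
          M (lm (rh (wp W P T) Y) (bs b) (T * P) / P))) ≤
      Real.log (T + 1) / t + t * ((T * P : ℕ) + m) / 2 := by
    have h2 : ((range (T + 1)).card : ℝ) = (T : ℝ) + 1 := by
      rw [Finset.card_range]
      push_cast
      ring
    rw [h2, one_pow, mul_one] at hmax
    rw [hM]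
    exact hmax
  have hMj' := hMj j hjT'
  rw [hE]
  rw [hE3] at hE2
  rw [hMj'] at hE2
  linarith

private theorem dLow_num {k P : ℕ} (hk : 0 < k) (hP : 1 ≤ P) {a : ℝ} (h0 : 0 < a) (h1 : a < 1)
    {ε : ℝ} (hε : 0 < ε) :
    ∃ (m T : ℕ) (t : ℝ), 1 ≤ m ∧ 0 < t ∧ 2 * (m : ℝ) ≤ a * (T * P : ℕ) ∧
      2 / (a * k) + P + Real.log (T + 1) / t + t * ((T * P : ℕ) + m) / 2 ≤ ε * m := by
  have hk0 : (0 : ℝ) < k := by exact_mod_cast hk
  have hP1 : (1 : ℝ) ≤ P := by exact_mod_cast hP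
  have hP0 : (0 : ℝ) < P := by linarith
  obtain ⟨t, ht⟩ : ∃ t : ℝ, t = ε * a / 4 := ⟨_, rfl⟩
  have ht0 : 0 < t := by rw [ht]; positivity
  obtain ⟨A, hA⟩ : ∃ A : ℝ, A = 2 / (a * k) + P + ε * a * P / 8 := ⟨_, rfl⟩
  have hA0 : 0 < A := by rw [hA]; positivity
  obtain ⟨B, hB⟩ : ∃ B : ℝ, B = 2 * √(2 / a + 2) / t := ⟨_, rfl⟩
  have hB0 : 0 < B := by rw [hB]; positivity
  obtain ⟨N, hN⟩ := exists_nat_ge ((A + B) / (5 * ε / 8))
  obtain ⟨M, hM⟩ : ∃ M : ℕ, M = N + 1 := ⟨_, rfl⟩
  have hM1 : (1 : ℝ) ≤ M := by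
    rw [hM]
    push_cast
    have : (0 : ℝ) ≤ N := Nat.cast_nonneg N
    linarith
  have hM0 : (0 : ℝ) < M := by linarith
  have hMN : (A + B) ≤ 5 * ε / 8 * M := by
    rw [div_le_iff₀ (by positivity)] at hN
    have h2 : (N : ℝ) ≤ M := by rw [hM]; push_cast; linarith
    have h3 : (N : ℝ) * (5 * ε / 8) ≤ M * (5 * ε / 8) :=
      mul_le_mul_of_nonneg_right h2 (by positivity)
    linarith
  obtain ⟨m, hm⟩ : ∃ m : ℕ, m = M ^ 2 := ⟨_, rfl⟩
  have hmc : (m : ℝ) = (M : ℝ) ^ 2 := by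
    rw [hm]
    push_cast
    ring
  have hm1 : (1 : ℝ) ≤ m := by
    rw [hmc]
    exact one_le_pow₀ hM1
  have hm0 : (0 : ℝ) < m := by linarith
  obtain ⟨T, hT⟩ : ∃ T : ℕ, T = ⌊2 * (m : ℝ) / (a * P)⌋₊ + 1 := ⟨_, rfl⟩
  have hTup : (T : ℝ) ≤ 2 * m / (a * P) + 1 := by
    rw [hT]
    push_cast
    have := Nat.floor_le (by positivity : (0 : ℝ) ≤ 2 * (m : ℝ) / (a * P))
    linarith
  have hTlo : 2 * m / (a * P) ≤ (T : ℝ) := by
    rw [hT]
    push_cast
    exact (Nat.lt_floor_add_one _).le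
  refine ⟨m, T, t, by exact_mod_cast hm1, ht0, ?_, ?_⟩
  · rw [div_le_iff₀ (by positivity)] at hTlo
    push_cast
    linarith
  have hn : ((T * P : ℕ) : ℝ) ≤ 2 * m / a + P := by
    push_cast
    have h2 := mul_le_mul_of_nonneg_right hTup hP0.le
    refine h2.trans (le_of_eq ?_)
    field_simp
  have hma : (m : ℝ) ≤ m / a := by
    rw [le_div_iff₀ h0]
    have := mul_le_mul_of_nonneg_left h1.le hm0.le
    linarith
  have e1 : t * ((T * P : ℕ) + m) / 2 ≤ 3 * ε * m / 8 + ε * a * P / 8 := by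
    have h2 : ((T * P : ℕ) : ℝ) + m ≤ 3 * (m / a) + P := by
      have h3 : 2 * (m : ℝ) / a = 2 * (m / a) := by ring
      rw [h3] at hn
      linarith
    have h3 := mul_le_mul_of_nonneg_left h2 ht0.le
    have h4 : t * (3 * (m / a) + P) = 3 * ε * m / 4 + ε * a * P / 4 := by
      rw [ht]
      field_simp
    rw [h4] at h3
    linarith
  have e2 : Real.log (T + 1) / t ≤ B * M := by
    have hT0 : (0 : ℝ) < (T : ℝ) + 1 := by positivity
    have h2 : (T : ℝ) + 1 ≤ (2 / a + 2) * m := by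
      have h3 : 2 * (m : ℝ) / (a * P) ≤ 2 * m / a := by
        refine div_le_div_of_nonneg_left (by positivity) h0 ?_
        have := mul_le_mul_of_nonneg_left hP1 h0.le
        linarith
      have h4 : (2 / a + 2) * (m : ℝ) = 2 * m / a + 2 * m := by ring
      rw [h4]
      linarith
    have h3 : √((T : ℝ) + 1) ≤ √(2 / a + 2) * M := by
      refine (Real.sqrt_le_sqrt h2).trans (le_of_eq ?_)
      rw [Real.sqrt_mul (by positivity), hmc, Real.sqrt_sq hM0.le]
    have h4 : Real.log ((T : ℝ) + 1) ≤ 2 * √((T : ℝ) + 1) := by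
      have h5 : 0 < √((T : ℝ) + 1) := Real.sqrt_pos.2 hT0
      have h6 := Real.log_le_sub_one_of_pos h5
      have h7 : Real.log ((T : ℝ) + 1) = 2 * Real.log (√((T : ℝ) + 1)) := by
        rw [Real.log_sqrt hT0.le]
        ring
      rw [h7]
      linarith
    rw [div_le_iff₀ ht0]
    have h5 : B * M * t = 2 * (√(2 / a + 2) * M) := by
      rw [hB]
      field_simp
    rw [h5]
    linarith
  have e3 : A + B * M ≤ 5 * ε / 8 * m := by
    have h2 : A + B * M ≤ (A + B) * M := by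
      have := mul_le_mul_of_nonneg_left hM1 hA0.le
      linarith
    have h3 := mul_le_mul_of_nonneg_right hMN hM0.le
    rw [hmc]
    have h4 : 5 * ε / 8 * (M : ℝ) ^ 2 = 5 * ε / 8 * M * M := by ring
    rw [h4]
    linarith
  rw [hA] at e3
  linarith

theorem dLow (k : ℕ) (hk : 0 < k) (P : ℕ) (hP : 1 ≤ P) (W : ℕ → Fin k)
    (hper : ∀ i, W (i + P) = W i) (a : ℝ) (h0 : 0 < a) (h1 : a < 1) (e : ℝ) (he0 : 0 ≤ e)
    (he : ∀ (n : ℕ) (rho : ℕ → ℕ), Antitone rho →
      Ex a n (fun s => ((hit rho s n).card : ℝ) - (((hit rho s n).image W).card : ℝ)) ≤ e)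
    (ε : ℝ) (hε : 0 < ε) :
    ∃ t m : ℕ, 1 ≤ m ∧
      a * (t * P) + (1 / (k : ℝ) * (1 / a - 1 - e) - ε) * m ≤ GG k W P t m := by
  obtain ⟨m, T, t, hm, ht0, hn, herr⟩ := dLow_num (k := k) (P := P) hk hP h0 h1 hε
  obtain ⟨j, hj, hup⟩ := dLow_up k hk P hP W hper a h0 h1 T m t ht0
  have hlow := dLow_low k hk P W a h0 h1 e he T m hm hn
  refine ⟨T - j, m, hm, ?_⟩
  rw [Nat.cast_sub hj]
  push_cast at hlow hup herr ⊢
  linarith

end LCSV
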