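import Pool.Agent.LCSV.TelE
import Pool.Agent.LCSV.GeoE

/-!
# Universal upper bound for the expected lcs with a fixed word X

lcs X Y = rh X Y 0 = fv (rh X Y) s 0 <= Mx (rh X Y) s n. So E lcs <= E Mx = a n + (1/k) sum over l < m of E card ims <=
a n + (1/k) sum of E card hit <= a n + (m/k)(1/a - 1) (geo_mean_le, rh_antitone).
-/

namespace LCSV

open Finset

theorem dUp (k : ℕ) (hk : 0 < k) (a : ℝ) (h0 : 0 < a) (h1 : a < 1) (X : List (Fin k)) (m : ℕ) :
    EL (un k) m (fun Y => (lcs X Y : ℝ)) ≤ a * X.length + m / k * (1 / a - 1) := by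
  have hP : IsP (un k) := un_isP hk
  obtain ⟨n, hn⟩ : ∃ n : ℕ, X.length = n := ⟨_, rfl⟩
  have hk0 : (0 : ℝ) ≤ 1 / (k : ℝ) := by positivity
  have e1 : EL (un k) m (fun Y => (lcs X Y : ℝ)) ≤
      EL (un k) m (fun Y => Ex a n (fun s => (Mx (rh X Y) s n : ℝ))) := by
    refine EL_mono hP (fun Y _ => ?_)
    rw [← Ex_const (a := a) (n := n) ((lcs X Y : ℕ) : ℝ)]
    refine Ex_mono h0.le h1.le (fun s _ => ?_)
    have h4 : fv (rh X Y) s 0 ≤ Mx (rh X Y) s n := fv_le_Mx (Nat.zero_le n)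
    have h5 : fv (rh X Y) s 0 = lcs X Y := by
      unfold fv
      rw [ht_zero, rh_zero, Nat.zero_add]
    rw [h5] at h4
    exact_mod_cast h4
  have e2 := EMx_sum k hk a X n hn m
  have e3 : ∑ l ∈ range m, EL (un k) l (fun Y => Ex a n (fun s =>
          ((ims X (hit (rh X Y) s n)).card : ℝ))) ≤ ∑ _l ∈ range m, (1 / a - 1) := by
    refine Finset.sum_le_sum (fun l _ => ?_)
    rw [← EL_const hP l (1 / a - 1)]
    refine EL_mono hP (fun Y _ => ?_)
    refine le_trans ?_ (geo_mean_le a h0 h1 (rh X Y) (rh_antitone X Y) n)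
    refine Ex_mono h0.le h1.le (fun s _ => ?_)
    have h6 : (ims X (hit (rh X Y) s n)).card ≤ (hit (rh X Y) s n).card := by
      unfold ims
      exact card_image_le
    exact_mod_cast h6
  rw [Finset.sum_const, card_range, nsmul_eq_mul] at e3
  have e4 := mul_le_mul_of_nonneg_left e3 hk0
  have e5 : (m : ℝ) / k * (1 / a - 1) = 1 / (k : ℝ) * (m * (1 / a - 1)) := by
    ring
  rw [hn, e5]
  rw [e2] at e1
  linarith

end LCSV
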