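import Pool.Agent.LCSV.DIvt
import Pool.Agent.LCSV.DLow
import Pool.Agent.LCSV.DVup
import Pool.Agent.LCSV.DUp
import Pool.Agent.LCSV.C1
import Pool.Agent.LCSV.C2

/-!
# The periodic word beats the uniform random word in all directions

c = 1/1000000 (c2), e = c/2 (c1 with eps = c/2 gives P, W for k >= k0). Grid: T, a_i for i <= T with 1/a_i = 40 sqrt k - i Delta, where
Delta = (40 sqrt k - sqrt k/40)/T and T is so large that Delta <= c/8. All a_i are in [1/(40 sqrt k), 40/sqrt k], a_i < 1 for k > 1600, a_i is increasing.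
lam_i = (1/k)(1/a_i - 1 - e) - eps with eps = c/(16 k): decreasing in i, and lam_T >= (1/k)(sqrt k/40 - 1 - c) - eps > 0 for k large.
dLow gives (t_i, m_i) with a_i P t_i + lam_i m_i <= G(t_i, m_i).
End points: by dUp with X = wp W P t, G(t, m) <= b t P + (m/k)(1/b - 1) for all b in (0,1). Let x_i = t_i P / m_i.
i = 0: a_0 = 1/(40 sqrt k): take b = 1/(10 sqrt k): lam_0 <= a_0 x_0 + lam_0 <= b x_0 + (1/k)(1/b - 1):
(1/k)(40 sqrt k - 1 - e) - eps <= x_0/(10 sqrt k) + 10/sqrt k - 1/k, so x_0 >= 10 (30 - small) >= 200 > 100. So 100 m_0 <= t_0 P.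
i = T: a_T = 40/sqrt k: take b = 10/sqrt k: (40/sqrt k) x_T <= 10 x_T/sqrt k + (1/k)(sqrt k/10): 30 x_T <= 1/10, x_T <= 1/300 (lam_T >= 0). So
100 t_T P <= m_T.
For tau P <= 100 M and M <= 100 tau P: tau m_0 P <= 100 M m_0 <= t_0 P M, so tau m_0 <= t_0 M; t_T M P <= ... : t_T P M * 100 <= m_T M <= 100 m_T tau P, so t_T M <= tau m_T.
dIvt: for some i < T: G(tau, M) >= a_i tau P + lam_(i+1) M - C0. dVup with a = a_i, c, l0 = k (c2 gives hloss):
vK (tau P) M <= a_i tau P + (M/k)(1/a_i - 1) - (c/k)(M - k). So G - vK >= M (lam_(i+1) - (1/k)(1/a_i - 1) + c/k) - C0 - c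
= (M/k)(c - Delta - e - eps k) - C0 - c >= (M/k)(c/4) - C0 - c >= (c/(400 k)) tau P - (C0 + c) since M >= tau P/100. delta = c/(400 k).
-/

namespace LCSV

open Finset

theorem dcmp : ∃ k0 : ℕ, ∀ k ≥ k0, ∃ (P : ℕ) (W : ℕ → Fin k) (δ C0 : ℝ), 1 ≤ P ∧
    (∀ i, W (i + P) = W i) ∧ 0 < δ ∧ 0 ≤ C0 ∧
    ∀ τ m : ℕ, τ * P ≤ 100 * m → m ≤ 100 * (τ * P) →
      vK k (τ * P) m + δ * (τ * P) - C0 ≤ GG k W P τ m := by
  obtain ⟨k1, hk1⟩ := c1 (1 / 2000000) (by norm_num)
  obtain ⟨k2, hk2⟩ := c2
  refine ⟨max (max k1 k2) 2000, fun k hk => ?_⟩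
  have hkk1 : k1 ≤ k := (le_max_left _ _).trans ((le_max_left _ _).trans hk)
  have hkk2 : k2 ≤ k := (le_max_right _ _).trans ((le_max_left _ _).trans hk)
  have hk2000 : 2000 ≤ k := (le_max_right _ _).trans hk
  obtain ⟨P, W, hP, hper, hW⟩ := hk1 k hkk1
  have hc2 := hk2 k hkk2
  have hk0 : 0 < k := by omega
  have hkR : (2000 : ℝ) ≤ k := by exact_mod_cast hk2000
  have hkpos : (0 : ℝ) < k := by linarith
  set s : ℝ := √(k : ℝ) with hs
  have hss : s * s = k := Real.mul_self_sqrt hkpos.le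
  have hs41 : 41 ≤ s := by
    rw [hs]
    apply Real.le_sqrt_of_sq_le
    norm_num
    linarith
  have hs0 : 0 < s := by linarith
  -- the grid
  set T : ℕ := ⌈(40 * s - s / 40) * 8000000⌉₊ + 1 with hT
  have hT1 : 1 ≤ T := by omega
  have hTpos : (0 : ℝ) < T := by exact_mod_cast hT1
  have hTge : (40 * s - s / 40) * 8000000 ≤ T := by
    rw [hT]
    push_cast
    have := Nat.le_ceil ((40 * s - s / 40) * 8000000)
    linarith
  set Δ : ℝ := (40 * s - s / 40) / T with hΔ
  have hΔ0 : 0 ≤ Δ := by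
    rw [hΔ]
    apply div_nonneg _ hTpos.le
    linarith
  have hΔ1 : Δ ≤ 1 / 8000000 := by
    rw [hΔ, div_le_iff₀ hTpos]
    linarith
  have hTΔ : T * Δ = 40 * s - s / 40 := by
    rw [hΔ]
    field_simp
  set r : ℕ → ℝ := fun i => 40 * s - i * Δ with hr
  have hr_le : ∀ i, r i ≤ 40 * s := by
    intro i
    simp only [hr]
    have : 0 ≤ (i : ℝ) * Δ := by positivity
    linarith
  have hr_ge : ∀ i, i ≤ T → s / 40 ≤ r i := by
    intro i hi
    simp only [hr]
    have h1 : (i : ℝ) ≤ T := by exact_mod_cast hi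
    have h2 : (i : ℝ) * Δ ≤ T * Δ := mul_le_mul_of_nonneg_right h1 hΔ0
    linarith
  have hr_pos : ∀ i, i ≤ T → 1 < r i := fun i hi => by
    have := hr_ge i hi
    linarith
  have hr_succ : ∀ i, r (i + 1) = r i - Δ := by
    intro i
    simp only [hr]
    push_cast
    ring
  have hr0 : r 0 = 40 * s := by simp [hr]
  have hrT : r T = s / 40 := by
    simp only [hr]
    rw [hTΔ]
    ring
  set av : ℕ → ℝ := fun i => 1 / r i with hav
  have hav_inv : ∀ i, 1 / av i = r i := by
    intro i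
    simp only [hav]
    rw [one_div_one_div]
  have hav0 : ∀ i, i ≤ T → 0 < av i := by
    intro i hi
    have := hr_pos i hi
    simp only [hav]
    positivity
  have hav1 : ∀ i, i ≤ T → av i < 1 := by
    intro i hi
    have := hr_pos i hi
    simp only [hav]
    rw [div_lt_one (by linarith)]
    exact this
  have havl : ∀ i, i ≤ T → 1 / (40 * s) ≤ av i := by
    intro i hi
    have := hr_pos i hi
    simp only [hav]
    exact one_div_le_one_div_of_le (by linarith) (hr_le i)
  have havu : ∀ i, i ≤ T → av i ≤ 40 / s := by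
    intro i hi
    have h1 := hr_ge i hi
    have h2 : 1 / r i ≤ 1 / (s / 40) := one_div_le_one_div_of_le (by linarith) h1
    simp only [hav]
    refine h2.trans (le_of_eq ?_)
    field_simp
  set lam : ℕ → ℝ := fun i => 1 / (k : ℝ) * (1 / av i - 1 - 1 / 2000000) - 1 / 16000000 / k with hlam
  have hlam_eq : ∀ i, lam i = (r i - 1 - 1 / 2000000 - 1 / 16000000) / k := by
    intro i
    simp only [hlam]
    rw [hav_inv]
    ring
  have hlow : ∀ i : ℕ, ∃ t m : ℕ, i ≤ T → (1 ≤ m ∧
      av i * (t * P) + lam i * m ≤ GG k W P t m) := by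
    intro i
    by_cases hi : i ≤ T
    · obtain ⟨t, m, h1, h2⟩ := dLow k hk0 P hP W hper (av i) (hav0 i hi) (hav1 i hi) (1 / 2000000)
        (by norm_num) (hW (av i) (havl i hi) (havu i hi)) (1 / 16000000 / k) (by positivity)
      exact ⟨t, m, fun _ => ⟨h1, h2⟩⟩
    · exact ⟨0, 0, fun h => absurd h hi⟩
  choose t m htm using hlow
  have hlam0 : ∀ i, i ≤ T → 0 ≤ lam i := by
    intro i hi
    rw [hlam_eq]
    apply div_nonneg _ hkpos.le
    have := hr_ge i hi
    linarith
  -- upper bound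
  have hup : ∀ b : ℝ, 0 < b → b < 1 → ∀ t' m' : ℕ,
      GG k W P t' m' ≤ b * (t' * P) + m' / k * (1 / b - 1) := by
    intro b hb0 hb1 t' m'
    have h := dUp k hk0 b hb0 hb1 (wp W P t') m'
    rw [wp_length] at h
    unfold GG
    push_cast at h
    exact h
  -- the left end point
  have hleft : 100 * (m 0 : ℝ) ≤ t 0 * P := by
    obtain ⟨h1, h2⟩ := htm 0 (by omega)
    have h3 := hup (1 / (10 * s)) (by positivity) (by
      rw [div_lt_one (by positivity)]
      linarith) (t 0) (m 0)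
    have h4 := h2.trans h3
    rw [one_div_one_div, hlam_eq, hr0] at h4
    have h5 : 0 ≤ av 0 * ((t 0 : ℝ) * P) := mul_nonneg (hav0 0 (by omega)).le (by positivity)
    have h6 : (40 * s - 1 - 1 / 2000000 - 1 / 16000000) / k * (m 0 : ℝ) ≤
        1 / (10 * s) * ((t 0 : ℝ) * P) + m 0 / k * (10 * s - 1) := by linarith
    have h7 : (m 0 : ℝ) / k * (30 * s - 1) ≤ 1 / (10 * s) * ((t 0 : ℝ) * P) := by
      have h8 : 0 ≤ (m 0 : ℝ) / k := by positivity
      have h9 : (40 * s - 1 - 1 / 2000000 - 1 / 16000000) / k * (m 0 : ℝ) =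
        (m 0 : ℝ) / k * (40 * s - 1 - 1 / 2000000 - 1 / 16000000) := by ring
      rw [h9] at h6
      have h10 : (m 0 : ℝ) / k * (30 * s - 1) ≤
          (m 0 : ℝ) / k * (30 * s - 1 / 2000000 - 1 / 16000000) := by
        apply mul_le_mul_of_nonneg_left _ h8
        linarith
      have h11 : (m 0 : ℝ) / k * (30 * s - 1 / 2000000 - 1 / 16000000) =
        (m 0 : ℝ) / k * (40 * s - 1 - 1 / 2000000 - 1 / 16000000) - m 0 / k * (10 * s - 1) := by
        ring
      linarith
    rw [← hss] at h7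
    have h8 : (m 0 : ℝ) / (s * s) * (30 * s - 1) * (10 * (s * s)) = m 0 * (300 * s - 10) := by
      field_simp
      ring
    have h9 : 1 / (10 * s) * ((t 0 : ℝ) * P) * (10 * (s * s)) = t 0 * P * s := by
      field_simp
    have h10 : (m 0 : ℝ) * (300 * s - 10) ≤ t 0 * P * s := by
      rw [← h8, ← h9]
      exact mul_le_mul_of_nonneg_right h7 (by positivity)
    have h11 : 100 * (m 0 : ℝ) * s ≤ t 0 * P * s := by
      refine le_trans ?_ h10
      have : (0 : ℝ) ≤ m 0 := by positivity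
      nlinarith
    exact le_of_mul_le_mul_right h11 hs0
  -- the right end point
  have hright : 100 * ((t T : ℝ) * P) ≤ m T := by
    obtain ⟨h1, h2⟩ := htm T le_rfl
    have h3 := hup (10 / s) (by positivity) (by
      rw [div_lt_one hs0]
      linarith) (t T) (m T)
    have h4 := h2.trans h3
    have h5 : 0 ≤ lam T * (m T : ℝ) := mul_nonneg (hlam0 T le_rfl) (by positivity)
    have h6 : av T = 40 / s := by
      simp only [hav]
      rw [hrT]
      field_simp
    have h7 : 1 / (10 / s) = s / 10 := by field_simp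
    rw [h6, h7] at h4
    have h8 : 40 / s * ((t T : ℝ) * P) ≤ 10 / s * ((t T : ℝ) * P) + m T / k * (s / 10) := by
      have h9 : (m T : ℝ) / k * (s / 10 - 1) ≤ m T / k * (s / 10) := by
        apply mul_le_mul_of_nonneg_left _ (by positivity)
        linarith
      linarith
    rw [← hss] at h8
    have h9 : 40 / s * ((t T : ℝ) * P) * (10 * s) = 400 * (t T * P) := by
      field_simp
      ring
    have h10 : (10 / s * ((t T : ℝ) * P) + m T / (s * s) * (s / 10)) * (10 * s) =
        100 * (t T * P) + m T := by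
      field_simp
      ring
    have h11 : 400 * ((t T : ℝ) * P) ≤ 100 * (t T * P) + m T := by
      rw [← h9, ← h10]
      exact mul_le_mul_of_nonneg_right h8 (by positivity)
    have h12 : 0 ≤ (t T : ℝ) * P := by positivity
    linarith
  have hleftN : 100 * m 0 ≤ t 0 * P := by exact_mod_cast hleft
  have hrightN : 100 * (t T * P) ≤ m T := by exact_mod_cast hright
  obtain ⟨C0, hC0, hivt⟩ := dIvt k hk0 P W hper T hT1 av lam t m (fun i hi => (hav0 i hi).le) hlam0
    (fun i hi => by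
      have h1 := hr_pos (i + 1) (by omega)
      have h2 := hr_succ i
      simp only [hav]
      exact one_div_le_one_div_of_le (by linarith) (by linarith))
    (fun i hi => by
      rw [hlam_eq, hlam_eq]
      apply div_le_div_of_nonneg_right _ hkpos.le
      have h2 := hr_succ i
      linarith)
    (fun i hi => (htm i hi).1) (fun i hi => (htm i hi).2)
  refine ⟨P, W, 1 / 400000000 / k, C0 + 1 / 1000000, hP, hper, by positivity, by positivity, ?_⟩
  intro τ M h1 h2
  have hP0 : 0 < P := hP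
  have e1 : τ * m 0 ≤ t 0 * M := by
    refine le_of_mul_le_mul_right ?_ hP0
    calc τ * m 0 * P = (τ * P) * m 0 := by ring
      _ ≤ (100 * M) * m 0 := Nat.mul_le_mul_right _ h1
      _ = (100 * m 0) * M := by ring
      _ ≤ (t 0 * P) * M := Nat.mul_le_mul_right _ hleftN
      _ = t 0 * M * P := by ring
  have e2 : t T * M ≤ τ * m T := by
    calc t T * M ≤ t T * (100 * (τ * P)) := Nat.mul_le_mul_left _ h2
      _ = τ * (100 * (t T * P)) := by ring
      _ ≤ τ * m T := Nat.mul_le_mul_left _ hrightN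
  obtain ⟨i, hi, hGi⟩ := hivt τ M e1 e2
  have hv := dVup k hk0 (av i) (hav0 i hi.le) (hav1 i hi.le) (1 / 1000000) (by norm_num) k
    (hc2 (av i) (havl i hi.le) (havu i hi.le)) (τ * P) M
  rw [hav_inv] at hv
  rw [hlam_eq, hr_succ] at hGi
  push_cast at hv
  have hM : (τ : ℝ) * P ≤ 100 * M := by exact_mod_cast h1
  -- the final computation
  have f1 : (1 : ℝ) / 1000000 / k * ((M : ℝ) - k) = 1 / 1000000 * M / k - 1 / 1000000 := by
    field_simp
  rw [f1] at hv
  have f2 : 1 / 400000000 / (k : ℝ) * (τ * P) ≤ 1 / 4000000 * M / k := by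
    have : 1 / 400000000 / (k : ℝ) * (τ * P) = 1 / 400000000 * (τ * P) / k := by ring
    rw [this]
    apply div_le_div_of_nonneg_right _ hkpos.le
    linarith
  have f3 : (M : ℝ) / k * (r i - 1) - (r i - Δ - 1 - 1 / 2000000 - 1 / 16000000) / k * M =
      (Δ + 1 / 2000000 + 1 / 16000000) * M / k := by ring
  have f4 : (Δ + 1 / 2000000 + 1 / 16000000) * M / k + 1 / 4000000 * M / k ≤
      1 / 1000000 * M / k := by
    rw [← add_div]
    apply div_le_div_of_nonneg_right _ hkpos.le
    have hM0 : (0 : ℝ) ≤ M := by positivity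
    nlinarith
  linarith

end LCSV
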