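import Pool.Agent.LCSV.GG

/-!
# Interpolation between finitely many good pairs

Let C0 = sum over i <= T of 2 (|a_i| P t_i + lam_i m_i + ...) be large enough. Given (tau, M) with t_0 M >= tau m_0 and t_T M <= tau m_T there is i < T with
t_i M >= tau m_i and t_(i+1) M <= tau m_(i+1) (discrete intermediate value: take the largest i < T with t_i M >= tau m_i; if i + 1 = T use the
second hypothesis, otherwise i + 1 fails the inequality). Let D = t_i m_(i+1) - t_(i+1) m_i >= 0 as real numbers (t_i/m_i >= tau/M >= t_(i+1)/m_(i+1) if M > 0;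
the case M = 0: then tau m_i <= 0 so tau = 0 and the claim is trivial with C0 >= 0 because GG >= 0).
If D > 0: mu1 = (tau m_(i+1) - M t_(i+1))/D >= 0, mu2 = (t_i M - m_i tau)/D >= 0, tau = mu1 t_i + mu2 t_(i+1), M = mu1 m_i + mu2 m_(i+1).
If D = 0: mu1 = M/m_i, mu2 = 0 works (all ratios are equal). With N1 = floor mu1, N2 = floor mu2:
GG tau M >= GG (N1 t_i + N2 t_(i+1)) (N1 m_i + N2 m_(i+1)) >= N1 G_i + N2 G_(i+1) >= (mu1 - 1) (a_i P t_i + lam_i m_i) + (mu2 - 1)(a_(i+1) P t_(i+1) + lam_(i+1) m_(i+1))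
>= a_i P tau + lam_(i+1) M - C0, using a_i <= a_(i+1), lam_(i+1) <= lam_i and a, lam >= 0.
-/

namespace LCSV

open Finset

private theorem dIvt_index (T : ℕ) (hT : 1 ≤ T) (t m : ℕ → ℕ) (τ M : ℕ)
    (h0 : τ * m 0 ≤ t 0 * M) (h1 : t T * M ≤ τ * m T) :
    ∃ i < T, τ * m i ≤ t i * M ∧ t (i + 1) * M ≤ τ * m (i + 1) := by
  classical
  by_contra hcon
  push Not at hcon
  have key : ∀ j : ℕ, j ≤ T - 1 → τ * m j ≤ t j * M := by
    intro j
    induction j with
    | zero => intro _; exact h0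
    | succ j ih =>
      intro hj
      have h2 := hcon j (by omega) (ih (by omega))
      exact h2.le
  have h3 := hcon (T - 1) (by omega) (key (T - 1) le_rfl)
  have h4 : T - 1 + 1 = T := by omega
  rw [h4] at h3
  omega

private theorem dIvt_coef (a b c d τ M : ℝ) (hb : 0 < b) (hd : 0 < d) (hM : 0 < M)
    (h0 : τ * b ≤ a * M) (h1 : c * M ≤ τ * d) :
    ∃ x y : ℝ, 0 ≤ x ∧ 0 ≤ y ∧ x * a + y * c = τ ∧ x * b + y * d = M := by
  have hD : 0 ≤ a * d - c * b := by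
    by_contra hneg
    push Not at hneg
    have h2 : τ * b * d ≤ a * M * d := mul_le_mul_of_nonneg_right h0 hd.le
    have h3 : c * M * b ≤ τ * d * b := mul_le_mul_of_nonneg_right h1 hb.le
    have h4 : (a * d - c * b) * M < 0 := mul_neg_of_neg_of_pos hneg hM
    nlinarith
  rcases hD.lt_or_eq with hpos | hzero
  · refine ⟨(τ * d - M * c) / (a * d - c * b), (a * M - b * τ) / (a * d - c * b), ?_, ?_, ?_, ?_⟩
    · apply div_nonneg _ hpos.le
      linarith
    · apply div_nonneg _ hpos.le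
      linarith
    · rw [div_mul_eq_mul_div, div_mul_eq_mul_div, ← add_div, div_eq_iff hpos.ne']
      ring
    · rw [div_mul_eq_mul_div, div_mul_eq_mul_div, ← add_div, div_eq_iff hpos.ne']
      ring
  · refine ⟨M / b, 0, div_nonneg hM.le hb.le, le_rfl, ?_, ?_⟩
    · have h2 : τ * b * d ≤ a * M * d := mul_le_mul_of_nonneg_right h0 hd.le
      have h3 : c * M * b ≤ τ * d * b := mul_le_mul_of_nonneg_right h1 hb.le
      have h5 : a * d = c * b := by linarith
      have h6 : τ * b * d = a * M * d := by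
        apply le_antisymm h2
        calc a * M * d = (a * d) * M := by ring
          _ = c * b * M := by rw [h5]
          _ = c * M * b := by ring
          _ ≤ τ * d * b := h3
          _ = τ * b * d := by ring
      have h7 : τ * b = a * M := mul_right_cancel₀ hd.ne' h6
      rw [zero_mul, add_zero, div_mul_eq_mul_div, div_eq_iff hb.ne']
      linarith
    · field_simp
      ring

theorem dIvt (k : ℕ) (hk : 0 < k) (P : ℕ) (W : ℕ → Fin k) (hper : ∀ i, W (i + P) = W i)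
    (T : ℕ) (hT : 1 ≤ T) (av lam : ℕ → ℝ) (t m : ℕ → ℕ)
    (ha0 : ∀ i ≤ T, 0 ≤ av i) (hl0 : ∀ i ≤ T, 0 ≤ lam i)
    (ha : ∀ i < T, av i ≤ av (i + 1)) (hl : ∀ i < T, lam (i + 1) ≤ lam i)
    (hm : ∀ i ≤ T, 1 ≤ m i)
    (hG : ∀ i ≤ T, av i * (t i * P) + lam i * m i ≤ GG k W P (t i) (m i)) :
    ∃ C0 : ℝ, 0 ≤ C0 ∧ ∀ τ M : ℕ, τ * m 0 ≤ t 0 * M → t T * M ≤ τ * m T →
      ∃ i < T, av i * (τ * P) + lam (i + 1) * M - C0 ≤ GG k W P τ M := by
  classical
  have hS0 : ∀ i ≤ T, 0 ≤ av i * (t i * P) + lam i * m i := by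
    intro i hi
    have h1 := ha0 i hi
    have h2 := hl0 i hi
    positivity
  refine ⟨∑ i ∈ range (T + 1), (av i * (t i * P) + lam i * m i), ?_, ?_⟩
  · apply sum_nonneg
    intro i hi
    exact hS0 i (by have := mem_range.mp hi; omega)
  intro τ M h0 h1
  have hC0 : 0 ≤ ∑ i ∈ range (T + 1), (av i * (t i * P) + lam i * m i) := by
    apply sum_nonneg
    intro i hi
    exact hS0 i (by have := mem_range.mp hi; omega)
  rcases Nat.eq_zero_or_pos M with hM | hM
  · subst hM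
    have hτ : τ = 0 := by
      have h2 := hm 0 (by omega)
      have h3 : τ * m 0 = 0 := by simpa using h0
      rcases Nat.mul_eq_zero.mp h3 with h | h
      · exact h
      · omega
    subst hτ
    refine ⟨0, by omega, ?_⟩
    have h5 := GG_nonneg (W := W) (P := P) hk 0 0
    have h6 : av 0 * (((0 : ℕ) : ℝ) * P) + lam (0 + 1) * ((0 : ℕ) : ℝ)
        - ∑ i ∈ range (T + 1), (av i * (t i * P) + lam i * m i)
        = - ∑ i ∈ range (T + 1), (av i * (t i * P) + lam i * m i) := by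
      simp
    rw [h6]
    linarith
  obtain ⟨i, hiT, hi1, hi2⟩ := dIvt_index T hT t m τ M h0 h1
  refine ⟨i, hiT, ?_⟩
  have hmi : (0 : ℝ) < m i := by
    have := hm i hiT.le
    exact_mod_cast this
  have hmi' : (0 : ℝ) < m (i + 1) := by
    have := hm (i + 1) hiT
    exact_mod_cast this
  obtain ⟨x, y, hx, hy, hxy1, hxy2⟩ := dIvt_coef (t i : ℝ) (m i) (t (i + 1)) (m (i + 1)) τ M
    hmi hmi' (by exact_mod_cast hM) (by exact_mod_cast hi1) (by exact_mod_cast hi2)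
  have hN1 : ((⌊x⌋₊ : ℕ) : ℝ) ≤ x := Nat.floor_le hx
  have hN2 : ((⌊y⌋₊ : ℕ) : ℝ) ≤ y := Nat.floor_le hy
  have hN1' : x - 1 ≤ ((⌊x⌋₊ : ℕ) : ℝ) := (Nat.sub_one_lt_floor x).le
  have hN2' : y - 1 ≤ ((⌊y⌋₊ : ℕ) : ℝ) := (Nat.sub_one_lt_floor y).le
  have ht : ⌊x⌋₊ * t i + ⌊y⌋₊ * t (i + 1) ≤ τ := by
    have h2 : ((⌊x⌋₊ * t i + ⌊y⌋₊ * t (i + 1) : ℕ) : ℝ) ≤ τ := by
      push_cast
      rw [← hxy1]
      gcongr
    exact_mod_cast h2
  have hmm : ⌊x⌋₊ * m i + ⌊y⌋₊ * m (i + 1) ≤ M := by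
    have h2 : ((⌊x⌋₊ * m i + ⌊y⌋₊ * m (i + 1) : ℕ) : ℝ) ≤ M := by
      push_cast
      rw [← hxy2]
      gcongr
    exact_mod_cast h2
  have g1 := GG_mono (W := W) (P := P) hk ht hmm
  have g2 := GG_super (W := W) (P := P) hk hper (⌊x⌋₊ * t i) (⌊y⌋₊ * t (i + 1))
    (⌊x⌋₊ * m i) (⌊y⌋₊ * m (i + 1))
  have g3 := GG_nsmul (W := W) (P := P) hk hper ⌊x⌋₊ (t i) (m i)
  have g4 := GG_nsmul (W := W) (P := P) hk hper ⌊y⌋₊ (t (i + 1)) (m (i + 1))
  have hSi := hS0 i hiT.le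
  have hSi' := hS0 (i + 1) hiT
  have g5 : ((⌊x⌋₊ : ℕ) : ℝ) * (av i * (t i * P) + lam i * m i)
      ≤ ((⌊x⌋₊ : ℕ) : ℝ) * GG k W P (t i) (m i) :=
    mul_le_mul_of_nonneg_left (hG i hiT.le) (Nat.cast_nonneg _)
  have g6 : ((⌊y⌋₊ : ℕ) : ℝ) * (av (i + 1) * (t (i + 1) * P) + lam (i + 1) * m (i + 1))
      ≤ ((⌊y⌋₊ : ℕ) : ℝ) * GG k W P (t (i + 1)) (m (i + 1)) :=
    mul_le_mul_of_nonneg_left (hG (i + 1) hiT) (Nat.cast_nonneg _)
  have g7 : (x - 1) * (av i * (t i * P) + lam i * m i)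
      ≤ ((⌊x⌋₊ : ℕ) : ℝ) * (av i * (t i * P) + lam i * m i) :=
    mul_le_mul_of_nonneg_right hN1' hSi
  have g8 : (y - 1) * (av (i + 1) * (t (i + 1) * P) + lam (i + 1) * m (i + 1))
      ≤ ((⌊y⌋₊ : ℕ) : ℝ) * (av (i + 1) * (t (i + 1) * P) + lam (i + 1) * m (i + 1)) :=
    mul_le_mul_of_nonneg_right hN2' hSi'
  have hsum : (av i * (t i * P) + lam i * m i)
      + (av (i + 1) * (t (i + 1) * P) + lam (i + 1) * m (i + 1))
      ≤ ∑ j ∈ range (T + 1), (av j * (t j * P) + lam j * m j) := by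
    have hne : i ≠ i + 1 := by omega
    rw [← sum_pair (f := fun j => av j * (t j * P) + lam j * m j) hne]
    apply sum_le_sum_of_subset_of_nonneg
    · intro j hj
      rw [mem_insert, mem_singleton] at hj
      rw [mem_range]
      omega
    · intro j hj _
      exact hS0 j (by have := mem_range.mp hj; omega)
  have hP : (0 : ℝ) ≤ P := Nat.cast_nonneg _
  have g9 : av i * (τ * P) + lam (i + 1) * M
      ≤ x * (av i * (t i * P) + lam i * m i)
        + y * (av (i + 1) * (t (i + 1) * P) + lam (i + 1) * m (i + 1)) := by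
    rw [← hxy1, ← hxy2]
    have e1 : y * (av i * (t (i + 1) * P)) ≤ y * (av (i + 1) * (t (i + 1) * P)) := by
      apply mul_le_mul_of_nonneg_left _ hy
      apply mul_le_mul_of_nonneg_right (ha i hiT)
      positivity
    have e2 : x * (lam (i + 1) * m i) ≤ x * (lam i * m i) := by
      apply mul_le_mul_of_nonneg_left _ hx
      apply mul_le_mul_of_nonneg_right (hl i hiT)
      positivity
    nlinarith [e1, e2]
  push_cast at g2 g3 g4
  linarith

end LCSV
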