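import Pool.Agent.LCSV.Exa

/-!
# The flip identity (Mecke formula for Bernoulli subsets)

For s in powerset (range n) and i in range n, i not in s: a * wt a n s = (1-a) * wt a n (insert i s)
(card (insert i s) = card s + 1 <= n). Write both sides as sums over pairs (s, i) and use the bijection
(s, i), i not in s  <->  (insert i s, i). No positivity is needed.
flipE' is the form used later: if H i s is a function of pairs with i in s, then
(1-a) Ex(sum over i in s of H i (s.erase i)) = a Ex(sum over i in range n minus s of H i s)  (take G i s = H i (s.erase i)).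
-/

namespace LCSV

open Finset

theorem Flip_wt {a : ℝ} {n i : ℕ} {s : Finset ℕ} (hs : s ⊆ range n) (hi : i ∈ range n)
    (his : i ∉ s) : a * wt a n s = (1 - a) * wt a n (insert i s) := by
  have hc : (insert i s).card = s.card + 1 := card_insert_of_notMem his
  have hle : s.card + 1 ≤ n := by
    rw [← hc]
    simpa using card_le_card (insert_subset hi hs)
  unfold wt
  rw [hc]
  obtain ⟨m, hm⟩ := Nat.exists_eq_add_of_le hle
  have h1 : n - s.card = m + 1 := by omega
  have h2 : n - (s.card + 1) = m := by omega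
  rw [h1, h2]
  ring

theorem flipE (a : ℝ) (n : ℕ) (G : ℕ → Finset ℕ → ℝ) :
    a * Ex a n (fun s => ∑ i ∈ range n \ s, G i (insert i s)) =
      (1 - a) * Ex a n (fun s => ∑ i ∈ s, G i s) := by
  unfold Ex
  rw [mul_sum, mul_sum]
  simp_rw [mul_sum]
  rw [sum_sigma', sum_sigma']
  refine sum_bij' (fun x _ => ⟨insert x.2 x.1, x.2⟩) (fun x _ => ⟨x.1.erase x.2, x.2⟩)
    ?_ ?_ ?_ ?_ ?_
  · rintro ⟨s, i⟩ h
    rw [mem_sigma, mem_powerset, mem_sdiff] at h
    rw [mem_sigma, mem_powerset]
    exact ⟨insert_subset h.2.1 h.1, mem_insert_self i s⟩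
  · rintro ⟨s, i⟩ h
    rw [mem_sigma, mem_powerset] at h
    rw [mem_sigma, mem_powerset, mem_sdiff]
    exact ⟨(erase_subset i s).trans h.1, h.1 h.2, notMem_erase i s⟩
  · rintro ⟨s, i⟩ h
    rw [mem_sigma, mem_powerset, mem_sdiff] at h
    simp only
    rw [erase_insert h.2.2]
  · rintro ⟨s, i⟩ h
    rw [mem_sigma, mem_powerset] at h
    simp only
    rw [insert_erase h.2]
  · rintro ⟨s, i⟩ h
    rw [mem_sigma, mem_powerset, mem_sdiff] at h
    simp only
    rw [← mul_assoc, ← mul_assoc, Flip_wt h.1 h.2.1 h.2.2]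

theorem flipE' (a : ℝ) (n : ℕ) (H : ℕ → Finset ℕ → ℝ) :
    (1 - a) * Ex a n (fun s => ∑ i ∈ s, H i (s.erase i)) =
      a * Ex a n (fun s => ∑ i ∈ range n \ s, H i s) := by
  rw [← flipE a n (fun i s => H i (s.erase i))]
  congr 1
  unfold Ex
  refine sum_congr rfl fun s _ => ?_
  congr 1
  refine sum_congr rfl fun i hi => ?_
  rw [mem_sdiff] at hi
  rw [erase_insert hi.2]

end LCSV
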