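import Pool.Agent.LCSV.GoodDel
import Pool.Agent.LCSV.Flip

/-!
# One deletion

Let C d nu s = sum over g0 in range (n+1) of ind (Good g0 and Mx <= fv g0 + d and bits s (gg r) l = nu).
Use flipE' with H i s = sum over g0 of ind (Good s g0 and Mx s <= fv s g0 + (d+1) and bits s (gg r) l = nu and
gg r - l <= i and i < gg r). Left: for i in s and s with Good s g0, Mx s <= fv s g0 + d, bits s (gg r) l = nu + 1 and i in the block:
by good_erase (s.erase i, g0) satisfies the conditions of H (bits decreases by one; Mx (s.erase i) <= Mx s <= fv s g0 + d =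
fv (s.erase i) g0 + (d + 1)); there are nu + 1 such i for each g0. Right: for i in range n minus s the number of i in the block
[gg r - l, gg r) not in s is l - nu (gg r <= g0 <= n).
-/

namespace LCSV

open Finset

/-- expected number of strict future maxima with a chain, deficiency at most d and nu bits in the r-th block -/
noncomputable def cc (a : ℝ) (rho : ℕ → ℕ) (n l r d nu : ℕ) : ℝ :=
  Ex a n (fun s => ∑ g0 ∈ range (n + 1), ind (Good rho s n l r g0 ∧
    Mx rho s n ≤ fv rho s g0 + d ∧ bits s (gg rho s l g0 r) l = nu))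

theorem Del1_left (rho : ℕ → ℕ) (n l r d nu : ℕ) (s : Finset ℕ) (g0 : ℕ)
    (h : Good rho s n l r g0 ∧ Mx rho s n ≤ fv rho s g0 + d ∧
      bits s (gg rho s l g0 r) l = nu + 1) :
    ((nu : ℝ) + 1) ≤ ∑ i ∈ s, ind (Good rho (s.erase i) n l r g0 ∧
      Mx rho (s.erase i) n ≤ fv rho (s.erase i) g0 + (d + 1) ∧
      bits (s.erase i) (gg rho (s.erase i) l g0 r) l = nu ∧
      gg rho (s.erase i) l g0 r - l ≤ i ∧ i < gg rho (s.erase i) l g0 r) := by
  obtain ⟨hG, hM, hb⟩ := h
  set B := s ∩ Ico (gg rho s l g0 r - l) (gg rho s l g0 r) with hB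
  have hcard : B.card = nu + 1 := hb
  calc ((nu : ℝ) + 1) = ∑ i ∈ B, (1 : ℝ) := by
        rw [sum_const, hcard]
        simp
    _ ≤ ∑ i ∈ B, ind (Good rho (s.erase i) n l r g0 ∧
      Mx rho (s.erase i) n ≤ fv rho (s.erase i) g0 + (d + 1) ∧
      bits (s.erase i) (gg rho (s.erase i) l g0 r) l = nu ∧
      gg rho (s.erase i) l g0 r - l ≤ i ∧ i < gg rho (s.erase i) l g0 r) := by
        refine sum_le_sum fun i hi => ?_
        rw [hB, mem_inter, mem_Ico] at hi
        obtain ⟨his, h1, h2⟩ := hi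
        obtain ⟨g1, g2, g3⟩ := good_erase hG his h1 h2
        rw [ind_true]
        refine ⟨g1, ?_, ?_, ?_, ?_⟩
        · have := Mx_erase_le (rho := rho) (s := s) (n := n) i
          omega
        · rw [g2]
          unfold bits at hb ⊢
          have : s.erase i ∩ Ico (gg rho s l g0 r - l) (gg rho s l g0 r) = B.erase i := by
            rw [hB, erase_inter]
          rw [this, card_erase_of_mem, hcard]
          · rfl
          · rw [hB, mem_inter, mem_Ico]
            exact ⟨his, h1, h2⟩
        · rw [g2]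
          exact h1
        · rw [g2]
          exact h2
    _ ≤ _ := by
        refine sum_le_sum_of_subset_of_nonneg inter_subset_left fun i _ _ => ind_nonneg _

theorem Del1_right (rho : ℕ → ℕ) (n l r d nu : ℕ) (s : Finset ℕ) (g0 : ℕ) :
    ∑ i ∈ range n \ s, ind (Good rho s n l r g0 ∧
      Mx rho s n ≤ fv rho s g0 + (d + 1) ∧
      bits s (gg rho s l g0 r) l = nu ∧
      gg rho s l g0 r - l ≤ i ∧ i < gg rho s l g0 r) ≤
    ((l : ℝ) - nu) * ind (Good rho s n l r g0 ∧
      Mx rho s n ≤ fv rho s g0 + (d + 1) ∧ bits s (gg rho s l g0 r) l = nu) := by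
  by_cases h : Good rho s n l r g0 ∧
      Mx rho s n ≤ fv rho s g0 + (d + 1) ∧ bits s (gg rho s l g0 r) l = nu
  · rw [ind_true h, mul_one]
    obtain ⟨hG, hM, hb⟩ := h
    set I := Ico (gg rho s l g0 r - l) (gg rho s l g0 r) with hI
    have hl : l ≤ gg rho s l g0 r := hG.2.2.2
    have hIc : I.card = l := by
      rw [hI, Nat.card_Ico]
      omega
    have hsub : (I \ s).card + nu = l := by
      have h1 : (I \ s).card + (s ∩ I).card = I.card := by
        rw [inter_comm]
        exact card_sdiff_add_card_inter I s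
      have h2 : (s ∩ I).card = nu := hb
      omega
    calc ∑ i ∈ range n \ s, ind (Good rho s n l r g0 ∧
          Mx rho s n ≤ fv rho s g0 + (d + 1) ∧
          bits s (gg rho s l g0 r) l = nu ∧
          gg rho s l g0 r - l ≤ i ∧ i < gg rho s l g0 r)
        ≤ ∑ i ∈ range n \ s, (if i ∈ I then (1 : ℝ) else 0) := by
          refine sum_le_sum fun i _ => ?_
          split_ifs with hi
          · exact ind_le_one _
          · rw [ind_false]
            rintro ⟨_, _, _, h1, h2⟩
            exact hi (by rw [hI, mem_Ico]; exact ⟨h1, h2⟩)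
      _ = (((range n \ s).filter (fun i => i ∈ I)).card : ℝ) := by
          rw [sum_boole]
      _ ≤ ((I \ s).card : ℝ) := by
          have : (range n \ s).filter (fun i => i ∈ I) ⊆ I \ s := by
            intro i hi
            rw [mem_filter, mem_sdiff] at hi
            rw [mem_sdiff]
            exact ⟨hi.2, hi.1.2⟩
          exact_mod_cast card_le_card this
      _ = (l : ℝ) - nu := by
          have : ((I \ s).card : ℝ) + nu = l := by exact_mod_cast hsub
          linarith
  · rw [ind_false h, mul_zero]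
    refine le_of_eq (sum_eq_zero fun i _ => ?_)
    rw [ind_false]
    rintro ⟨h1, h2, h3, _⟩
    exact h ⟨h1, h2, h3⟩

theorem del1 (a : ℝ) (h0 : 0 ≤ a) (h1 : a ≤ 1) (rho : ℕ → ℕ) (n l r d nu : ℕ) :
    (1 - a) * ((nu : ℝ) + 1) * cc a rho n l r d (nu + 1) ≤
      a * ((l : ℝ) - nu) * cc a rho n l r (d + 1) nu := by
  let H : ℕ → Finset ℕ → ℝ := fun i s => ∑ g0 ∈ range (n + 1), ind (Good rho s n l r g0 ∧
      Mx rho s n ≤ fv rho s g0 + (d + 1) ∧
      bits s (gg rho s l g0 r) l = nu ∧
      gg rho s l g0 r - l ≤ i ∧ i < gg rho s l g0 r)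
  have hf := flipE' a n H
  have hL : ((nu : ℝ) + 1) * cc a rho n l r d (nu + 1) ≤
      Ex a n (fun s => ∑ i ∈ s, H i (s.erase i)) := by
    unfold cc
    rw [← Ex_mul_left]
    refine Ex_mono h0 h1 fun s _ => ?_
    show _ * _ ≤ ∑ i ∈ s, ∑ g0 ∈ range (n + 1), _
    rw [sum_comm, mul_sum]
    refine sum_le_sum fun g0 _ => ?_
    by_cases h : Good rho s n l r g0 ∧ Mx rho s n ≤ fv rho s g0 + d ∧
      bits s (gg rho s l g0 r) l = nu + 1
    · rw [ind_true h, mul_one]
      exact Del1_left rho n l r d nu s g0 h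
    · rw [ind_false h, mul_zero]
      exact sum_nonneg fun i _ => ind_nonneg _
  have hR : Ex a n (fun s => ∑ i ∈ range n \ s, H i s) ≤
      ((l : ℝ) - nu) * cc a rho n l r (d + 1) nu := by
    unfold cc
    rw [← Ex_mul_left]
    refine Ex_mono h0 h1 fun s _ => ?_
    show ∑ i ∈ range n \ s, ∑ g0 ∈ range (n + 1), _ ≤ _ * _
    rw [sum_comm, mul_sum]
    exact sum_le_sum fun g0 _ => Del1_right rho n l r d nu s g0
  calc (1 - a) * ((nu : ℝ) + 1) * cc a rho n l r d (nu + 1)
      = (1 - a) * (((nu : ℝ) + 1) * cc a rho n l r d (nu + 1)) := by ring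
    _ ≤ (1 - a) * Ex a n (fun s => ∑ i ∈ s, H i (s.erase i)) :=
        mul_le_mul_of_nonneg_left hL (by linarith)
    _ = a * Ex a n (fun s => ∑ i ∈ range n \ s, H i s) := hf
    _ ≤ a * (((l : ℝ) - nu) * cc a rho n l r (d + 1) nu) := mul_le_mul_of_nonneg_left hR h0
    _ = a * ((l : ℝ) - nu) * cc a rho n l r (d + 1) nu := by ring

end LCSV
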