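import Pool.Agent.LCSV.Del1

/-!
# Many bits in the r-th block are unlikely

cc d nu = 0 for nu > l (bits_le). For nu >= nu1 (nu <= l): (1-a)(nu+1) cc d (nu+1) <= a (l - nu) cc (d+1) nu <= q (1-a)(nu+1) cc (d+1) nu,
so cc d (nu+1) <= q cc (d+1) nu. Iterate s0 times: cc 0 nu <= q^s0 cc s0 (nu - s0) for nu >= nu1 + s0.
Sum over nu in [nu1 + s0, l]: <= q^s0 sum over nu' of cc s0 nu' <= q^s0 (s0 + 1) by sfm_count.
Finally the event on the left implies (good_of_chn) that g0 = qq 0 contributes to the sum over nu >= nu1 + s0 of the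
integrand of cc 0 nu.
-/

namespace LCSV

open Finset

private theorem del2_cc_nn (a : ℝ) (h0 : 0 < a) (h1 : a < 1) (rho : ℕ → ℕ) (n l r d nu : ℕ) :
    0 ≤ cc a rho n l r d nu := by
  unfold cc
  exact Ex_nonneg h0.le h1.le fun s _ => Finset.sum_nonneg fun g _ => ind_nonneg _

private theorem del2_iter (a : ℝ) (h0 : 0 < a) (h1 : a < 1) (rho : ℕ → ℕ) (n l r nu1 : ℕ) (q : ℝ)
    (hq : 0 ≤ q)
    (hnum : ∀ nu : ℕ, nu1 ≤ nu → a * ((l : ℝ) - nu) ≤ q * ((1 - a) * ((nu : ℝ) + 1))) (j : ℕ) :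
    ∀ d nu : ℕ, nu1 ≤ nu → cc a rho n l r d (nu + j) ≤ q ^ j * cc a rho n l r (d + j) nu := by
  induction j with
  | zero => intro d nu _; simp
  | succ j ih =>
    intro d nu hnu
    have h2 := del1 a h0.le h1.le rho n l r d (nu + j)
    have h3 := hnum (nu + j) (by omega)
    have h4 := ih (d + 1) nu hnu
    have h5 := del2_cc_nn a h0 h1 rho n l r (d + 1) (nu + j)
    have ha : 0 < 1 - a := by linarith
    have hpos : 0 < (1 - a) * (((nu + j : ℕ) : ℝ) + 1) := by positivity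
    have h6 : (1 - a) * (((nu + j : ℕ) : ℝ) + 1) * cc a rho n l r d (nu + j + 1) ≤
        (1 - a) * (((nu + j : ℕ) : ℝ) + 1) * (q * cc a rho n l r (d + 1) (nu + j)) := by
      refine h2.trans ?_
      have h7 := mul_le_mul_of_nonneg_right h3 h5
      linarith
    have h8 := le_of_mul_le_mul_left h6 hpos
    have h9 := mul_le_mul_of_nonneg_left h4 hq
    have e1 : d + 1 + j = d + (j + 1) := by ring
    rw [e1] at h9
    rw [← add_assoc, pow_succ]
    linarith

private theorem del2_ind_sum (T : Finset ℕ) (P Q : Prop) (B : ℕ) :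
    ∑ nu ∈ T, ind (P ∧ Q ∧ B = nu) ≤ ind (P ∧ Q) := by
  by_cases h : P ∧ Q
  · by_cases hB : B ∈ T
    · rw [Finset.sum_eq_single B]
      · exact ind_mono fun h' => ⟨h'.1, h'.2.1⟩
      · intro b _ hb
        exact ind_false fun h' => hb h'.2.2.symm
      · intro h'
        exact absurd hB h'
    · have hz : ∑ nu ∈ T, ind (P ∧ Q ∧ B = nu) = 0 := by
        refine Finset.sum_eq_zero fun nu hnu => ind_false ?_
        rintro ⟨_, _, h3⟩
        rw [h3] at hB
        exact hB hnu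
      rw [hz]
      exact ind_nonneg _
  · rw [Finset.sum_eq_zero fun nu hnu => ind_false fun h' => h ⟨h'.1, h'.2.1⟩]
    exact ind_nonneg _

private theorem del2_card (T : Finset ℕ) (P : ℕ → Prop) [DecidablePred P] :
    ∑ g ∈ T, ind (P g) = ((T.filter P).card : ℝ) := by
  rw [Finset.card_filter]
  push_cast
  refine Finset.sum_congr rfl fun g _ => ?_
  by_cases h : P g
  · rw [ind_true h, if_pos h]
  · rw [ind_false h, if_neg h]

theorem del2 (a : ℝ) (h0 : 0 < a) (h1 : a < 1) (rho : ℕ → ℕ) (n l r nu1 s0 : ℕ) (q : ℝ)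
    (hq : 0 ≤ q)
    (hnum : ∀ nu : ℕ, nu1 ≤ nu → a * ((l : ℝ) - nu) ≤ q * ((1 - a) * ((nu : ℝ) + 1))) :
    Ex a n (fun s => ind (chn rho s n l r ∧ l ≤ qq rho s n l r ∧
        nu1 + s0 ≤ bits s (qq rho s n l r) l)) ≤ ((s0 : ℝ) + 1) * q ^ s0 := by
  classical
  have hstep1 : Ex a n (fun s => ind (chn rho s n l r ∧ l ≤ qq rho s n l r ∧
        nu1 + s0 ≤ bits s (qq rho s n l r) l)) ≤
      ∑ nu ∈ Ico nu1 (l + 1), cc a rho n l r 0 (nu + s0) := by
    unfold cc
    rw [← Ex_sum]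
    refine Ex_mono h0.le h1.le fun s _ => ?_
    by_cases hE : chn rho s n l r ∧ l ≤ qq rho s n l r ∧ nu1 + s0 ≤ bits s (qq rho s n l r) l
    · rw [ind_true hE]
      obtain ⟨hc, hl, hb⟩ := hE
      obtain ⟨g1, g2, g3⟩ := good_of_chn hc hl
      have hbl : bits s (qq rho s n l r) l ≤ l := bits_le
      have hmem1 : bits s (qq rho s n l r) l - s0 ∈ Ico nu1 (l + 1) := by
        rw [Finset.mem_Ico]
        omega
      have hmem2 : qq rho s n l 0 ∈ range (n + 1) := by
        rw [Finset.mem_range]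
        have := qq_le rho s n l 0
        omega
      refine le_trans ?_ (Finset.single_le_sum (f := fun nu => ∑ g0 ∈ range (n + 1),
        ind (Good rho s n l r g0 ∧ Mx rho s n ≤ fv rho s g0 + 0 ∧
          bits s (gg rho s l g0 r) l = nu + s0))
        (fun nu _ => Finset.sum_nonneg fun g _ => ind_nonneg _) hmem1)
      refine le_trans ?_ (Finset.single_le_sum (f := fun g0 =>
        ind (Good rho s n l r g0 ∧ Mx rho s n ≤ fv rho s g0 + 0 ∧
          bits s (gg rho s l g0 r) l = bits s (qq rho s n l r) l - s0 + s0))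
        (fun g _ => ind_nonneg _) hmem2)
      refine le_of_eq (ind_true ⟨g1, g3, ?_⟩).symm
      rw [g2]
      omega
    · rw [ind_false hE]
      exact Finset.sum_nonneg fun nu _ => Finset.sum_nonneg fun g _ => ind_nonneg _
  have hstep2 : ∑ nu ∈ Ico nu1 (l + 1), cc a rho n l r 0 (nu + s0) ≤
      q ^ s0 * ∑ nu ∈ Ico nu1 (l + 1), cc a rho n l r s0 nu := by
    rw [Finset.mul_sum]
    refine Finset.sum_le_sum fun nu hnu => ?_
    have h2 := del2_iter a h0 h1 rho n l r nu1 q hq hnum s0 0 nu (Finset.mem_Ico.1 hnu).1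
    rwa [zero_add] at h2
  have hstep3 : ∑ nu ∈ Ico nu1 (l + 1), cc a rho n l r s0 nu ≤ (s0 : ℝ) + 1 := by
    unfold cc
    rw [← Ex_sum, ← Ex_const (a := a) (n := n) ((s0 : ℝ) + 1)]
    refine Ex_mono h0.le h1.le fun s _ => ?_
    rw [Finset.sum_comm]
    calc ∑ g0 ∈ range (n + 1), ∑ nu ∈ Ico nu1 (l + 1), ind (Good rho s n l r g0 ∧
          Mx rho s n ≤ fv rho s g0 + s0 ∧ bits s (gg rho s l g0 r) l = nu)
        ≤ ∑ g0 ∈ range (n + 1), ind (Good rho s n l r g0 ∧ Mx rho s n ≤ fv rho s g0 + s0) :=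
          Finset.sum_le_sum fun g0 _ => del2_ind_sum _ _ _ _
      _ = (((range (n + 1)).filter (fun g0 => Good rho s n l r g0 ∧
          Mx rho s n ≤ fv rho s g0 + s0)).card : ℝ) := by
          rw [del2_card]
      _ ≤ (s0 : ℝ) + 1 := by
          have h2 := sfm_count rho s n l r s0
          exact_mod_cast h2
  have hq0 : 0 ≤ q ^ s0 := by positivity
  have h4 := mul_le_mul_of_nonneg_left hstep3 hq0
  linarith

end LCSV
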