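import Pool.Agent.LCSV.Brg
import Pool.Agent.LCSV.LcsC
import Pool.Agent.LCSV.LcsA

/-!
# Deleting the block of rows to the left of the last maximal gap (deterministic)

Write i = b1.length, m = bm.length, rho = rh (X1 ++ (Xm ++ X2)) Y, s = bs (b1 ++ (bm ++ b2)), and rho', s' for the lists without the
block. Let M = Mx rho s (i+m+j) = fv rho s (i+m) (fv_lm).
fv rho s (i + m + g) = b1.count true + bm.count true + ht (bs b2) g + lcs (X2.drop g) Y and
fv rho' s' (i + g) = b1.count true + ht (bs b2) g + lcs (X2.drop g) Y  (ht_bs_append_right, List.drop_append).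
So for g > 0, g <= j: fv' (i+g) - fv' i = fv (i+m+g) - fv (i+m) < 0 (lt_Mx_of_lm_lt), and fv' i = M - bm.count true.
For g <= i: fv' g = ht (bs b1) g + lcs (X1.drop g ++ X2) Y <= ht (bs b1) g + lcs (X1.drop g ++ (Xm ++ X2)) Y = fv g <= M (lcs_mono).
-/

namespace LCSV

open Finset

theorem det_del {α : Type*} (X1 Xm X2 Y : List α) (b1 bm b2 : List Bool)
    (h1 : X1.length = b1.length) (hm : Xm.length = bm.length) (h2 : X2.length = b2.length)
    (h : lm (rh (X1 ++ (Xm ++ X2)) Y) (bs (b1 ++ (bm ++ b2)))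
      (b1.length + bm.length + b2.length) = b1.length + bm.length) :
    (∀ g, b1.length < g → g ≤ b1.length + b2.length →
      fv (rh (X1 ++ X2) Y) (bs (b1 ++ b2)) g <
        fv (rh (X1 ++ X2) Y) (bs (b1 ++ b2)) b1.length) ∧
    Mx (rh (X1 ++ X2) Y) (bs (b1 ++ b2)) (b1.length + b2.length) ≤
      fv (rh (X1 ++ X2) Y) (bs (b1 ++ b2)) b1.length + bm.count true := by
  have hA : (X1 ++ Xm).length = (b1 ++ bm).length := by simp [h1, hm]
  have hb12 : (b1 ++ bm).length = b1.length + bm.length := by simp
  have hX12 : (X1 ++ Xm).length = b1.length + bm.length := by simp [h1, hm]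
  -- values of the gaps to the right of the block
  have f1 : ∀ g, fv (rh (X1 ++ (Xm ++ X2)) Y) (bs (b1 ++ (bm ++ b2))) (b1.length + bm.length + g) =
      b1.count true + bm.count true + (ht (bs b2) g + lcs (X2.drop g) Y) := by
    intro g
    unfold fv
    rw [← List.append_assoc b1 bm b2, ← hb12, ht_bs_append_right]
    unfold rh
    have e : (X1 ++ (Xm ++ X2)).drop ((b1 ++ bm).length + g) = X2.drop g := by
      rw [← List.append_assoc, hb12, ← hX12, List.drop_append]
      simp
    rw [e, List.count_append]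
    ring
  have f2 : ∀ g, fv (rh (X1 ++ X2) Y) (bs (b1 ++ b2)) (b1.length + g) =
      b1.count true + (ht (bs b2) g + lcs (X2.drop g) Y) := by
    intro g
    unfold fv
    rw [ht_bs_append_right]
    unfold rh
    have e : (X1 ++ X2).drop (b1.length + g) = X2.drop g := by
      rw [← h1, List.drop_append]
      simp
    rw [e]
    ring
  have hM := fv_lm (rh (X1 ++ (Xm ++ X2)) Y) (bs (b1 ++ (bm ++ b2)))
    (b1.length + bm.length + b2.length)
  rw [h] at hM
  have g0 := f1 0
  have g0' := f2 0
  simp only [Nat.add_zero] at g0 g0'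
  have key : ∀ g, b1.length < g → g ≤ b1.length + b2.length →
      fv (rh (X1 ++ X2) Y) (bs (b1 ++ b2)) g <
        fv (rh (X1 ++ X2) Y) (bs (b1 ++ b2)) b1.length := by
    intro g hg hg'
    obtain ⟨d, rfl⟩ := Nat.exists_eq_add_of_lt hg
    have l1 := lt_Mx_of_lm_lt (rho := rh (X1 ++ (Xm ++ X2)) Y) (s := bs (b1 ++ (bm ++ b2)))
      (t := b1.length + bm.length + b2.length) (g := b1.length + bm.length + (d + 1))
      (by rw [h]; omega) (by omega)
    have q1 := f1 (d + 1)
    have q2 := f2 (d + 1)
    have e : b1.length + d + 1 = b1.length + (d + 1) := by ring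
    rw [e]
    omega
  refine ⟨key, ?_⟩
  apply Mx_le
  intro g hg
  rcases lt_or_ge b1.length g with hlt | hge
  · have := key g hlt hg
    omega
  · have a1 : fv (rh (X1 ++ X2) Y) (bs (b1 ++ b2)) g ≤
        fv (rh (X1 ++ (Xm ++ X2)) Y) (bs (b1 ++ (bm ++ b2))) g := by
      unfold fv
      rw [ht_bs_append_left _ _ hge, ht_bs_append_left _ _ hge]
      apply Nat.add_le_add_left
      unfold rh
      apply lcs_mono _ (List.Sublist.refl Y)
      rw [List.drop_append_of_le_length (by omega), List.drop_append_of_le_length (by omega)]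
      exact List.Sublist.append (List.Sublist.refl _) (List.sublist_append_right _ _)
    have a2 : fv (rh (X1 ++ (Xm ++ X2)) Y) (bs (b1 ++ (bm ++ b2))) g ≤
        Mx (rh (X1 ++ (Xm ++ X2)) Y) (bs (b1 ++ (bm ++ b2)))
          (b1.length + bm.length + b2.length) := fv_le_Mx (by omega)
    omega

end LCSV
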