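import Pool.Agent.LCSV.Core

/-!
# Basic properties of the expectation EL over lists

All by induction on n (for F arbitrary). EL_comm: induction on m and EL_sum.
EL_append: induction on m (careful: m + 1 + n = (m + n) + 1).
-/

namespace LCSV

open Finset

variable {β γ ι : Type*} [Fintype β] [Fintype γ] {mu : β → ℝ} {nu : γ → ℝ}

theorem EL_congr {n : ℕ} {F G : List β → ℝ} (h : ∀ l : List β, l.length = n → F l = G l) :
    EL mu n F = EL mu n G := by
  induction n generalizing F G with
  | zero => exact h [] rfl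
  | succ n ih =>
    show ∑ x, mu x * EL mu n (fun l => F (x :: l)) = ∑ x, mu x * EL mu n (fun l => G (x :: l))
    refine Finset.sum_congr rfl fun x _ => ?_
    rw [ih fun l hl => h (x :: l) (by simp [hl])]

theorem EL_add (n : ℕ) (F G : List β → ℝ) :
    EL mu n (fun l => F l + G l) = EL mu n F + EL mu n G := by
  induction n generalizing F G with
  | zero => rfl
  | succ n ih =>
    show ∑ x, mu x * EL mu n (fun l => F (x :: l) + G (x :: l)) =
      ∑ x, mu x * EL mu n (fun l => F (x :: l)) + ∑ x, mu x * EL mu n (fun l => G (x :: l))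
    rw [← Finset.sum_add_distrib]
    refine Finset.sum_congr rfl fun x _ => ?_
    rw [ih (fun l => F (x :: l)) (fun l => G (x :: l))]
    ring

theorem EL_sub (n : ℕ) (F G : List β → ℝ) :
    EL mu n (fun l => F l - G l) = EL mu n F - EL mu n G := by
  induction n generalizing F G with
  | zero => rfl
  | succ n ih =>
    show ∑ x, mu x * EL mu n (fun l => F (x :: l) - G (x :: l)) =
      ∑ x, mu x * EL mu n (fun l => F (x :: l)) - ∑ x, mu x * EL mu n (fun l => G (x :: l))
    rw [← Finset.sum_sub_distrib]
    refine Finset.sum_congr rfl fun x _ => ?_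
    rw [ih (fun l => F (x :: l)) (fun l => G (x :: l))]
    ring

theorem EL_mul_left (n : ℕ) (c : ℝ) (F : List β → ℝ) :
    EL mu n (fun l => c * F l) = c * EL mu n F := by
  induction n generalizing F with
  | zero => rfl
  | succ n ih =>
    show ∑ x, mu x * EL mu n (fun l => c * F (x :: l)) =
      c * ∑ x, mu x * EL mu n (fun l => F (x :: l))
    rw [Finset.mul_sum]
    refine Finset.sum_congr rfl fun x _ => ?_
    rw [ih (fun l => F (x :: l))]
    ring

theorem EL_mul_right (n : ℕ) (c : ℝ) (F : List β → ℝ) :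
    EL mu n (fun l => F l * c) = EL mu n F * c := by
  have h : (fun l => F l * c) = fun l => c * F l := by
    funext l; ring
  rw [h, EL_mul_left, mul_comm]

theorem EL_sum (n : ℕ) (s : Finset ι) (F : ι → List β → ℝ) :
    EL mu n (fun l => ∑ i ∈ s, F i l) = ∑ i ∈ s, EL mu n (F i) := by
  induction n generalizing F with
  | zero => rfl
  | succ n ih =>
    show ∑ x, mu x * EL mu n (fun l => ∑ i ∈ s, F i (x :: l)) =
      ∑ i ∈ s, ∑ x, mu x * EL mu n (fun l => F i (x :: l))
    rw [Finset.sum_comm]
    refine Finset.sum_congr rfl fun x _ => ?_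
    rw [ih (fun i l => F i (x :: l)), Finset.mul_sum]

theorem EL_const (h : IsP mu) (n : ℕ) (c : ℝ) : EL mu n (fun _ => c) = c := by
  induction n with
  | zero => rfl
  | succ n ih =>
    show ∑ x, mu x * EL mu n (fun _ => c) = c
    rw [ih, ← Finset.sum_mul, h.sum_one, one_mul]

theorem EL_mono (h : IsP mu) {n : ℕ} {F G : List β → ℝ}
    (hFG : ∀ l : List β, l.length = n → F l ≤ G l) : EL mu n F ≤ EL mu n G := by
  induction n generalizing F G with
  | zero => exact hFG [] rfl
  | succ n ih =>
    show ∑ x, mu x * EL mu n (fun l => F (x :: l)) ≤ ∑ x, mu x * EL mu n (fun l => G (x :: l))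
    refine Finset.sum_le_sum fun x _ => ?_
    exact mul_le_mul_of_nonneg_left (ih fun l hl => hFG (x :: l) (by simp [hl])) (h.nonneg x)

theorem EL_nonneg (h : IsP mu) {n : ℕ} {F : List β → ℝ}
    (hF : ∀ l : List β, l.length = n → 0 ≤ F l) : 0 ≤ EL mu n F := by
  have h1 := EL_mono (mu := mu) h (F := fun _ => (0 : ℝ)) (G := F) hF
  rwa [EL_const h] at h1

theorem EL_append (m n : ℕ) (F : List β → ℝ) :
    EL mu (m + n) F = EL mu m (fun l1 => EL mu n (fun l2 => F (l1 ++ l2))) := by
  induction m generalizing F with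
  | zero =>
    rw [Nat.zero_add]
    rfl
  | succ m ih =>
    have e : m + 1 + n = (m + n) + 1 := by omega
    rw [e]
    show ∑ x, mu x * EL mu (m + n) (fun l => F (x :: l)) =
      ∑ x, mu x * EL mu m (fun l1 => EL mu n (fun l2 => F (x :: l1 ++ l2)))
    refine Finset.sum_congr rfl fun x _ => ?_
    rw [ih (fun l => F (x :: l))]
    rfl

theorem EL_comm (m n : ℕ) (F : List β → List γ → ℝ) :
    EL mu m (fun x => EL nu n (fun y => F x y)) = EL nu n (fun y => EL mu m (fun x => F x y)) := by
  induction m generalizing F with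
  | zero => rfl
  | succ m ih =>
    show ∑ a, mu a * EL mu m (fun x => EL nu n (fun y => F (a :: x) y)) =
      EL nu n (fun y => ∑ a, mu a * EL mu m (fun x => F (a :: x) y))
    rw [EL_sum]
    refine Finset.sum_congr rfl fun a _ => ?_
    rw [ih (fun x y => F (a :: x) y), EL_mul_left]

theorem EL_abs_le (h : IsP mu) (n : ℕ) (F : List β → ℝ) :
    |EL mu n F| ≤ EL mu n (fun l => |F l|) := by
  rw [abs_le]
  constructor
  · have h1 : EL mu n (fun l => (-1) * |F l|) ≤ EL mu n F :=
      EL_mono h fun l _ => by
        have := neg_abs_le (F l)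
        linarith
    rw [EL_mul_left] at h1
    linarith
  · exact EL_mono h fun l _ => le_abs_self _

/-- some list is at least as good as the average -/
theorem EL_exists_le (h : IsP mu) (n : ℕ) (F : List β → ℝ) :
    ∃ l : List β, l.length = n ∧ EL mu n F ≤ F l := by
  induction n generalizing F with
  | zero => exact ⟨[], rfl, le_refl _⟩
  | succ n ih =>
    by_contra hcon
    push Not at hcon
    have hpos : ∃ x, 0 < mu x := by
      by_contra hno
      push Not at hno
      have h1 : ∑ x, mu x ≤ 0 := Finset.sum_nonpos fun x _ => hno x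
      rw [h.sum_one] at h1
      linarith
    have hlt : ∀ x, EL mu n (fun l => F (x :: l)) < EL mu (n + 1) F := by
      intro x
      obtain ⟨l, hl, hle⟩ := ih (fun l => F (x :: l))
      exact lt_of_le_of_lt hle (hcon (x :: l) (by simp [hl]))
    obtain ⟨x0, hx0⟩ := hpos
    have h2 : ∑ x, mu x * EL mu n (fun l => F (x :: l)) < ∑ x, mu x * EL mu (n + 1) F :=
      Finset.sum_lt_sum (fun x _ => mul_le_mul_of_nonneg_left (hlt x).le (h.nonneg x))
        ⟨x0, Finset.mem_univ _, mul_lt_mul_of_pos_left (hlt x0) hx0⟩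
    rw [← Finset.sum_mul, h.sum_one, one_mul] at h2
    exact lt_irrefl _ h2

end LCSV
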