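import Pool.Agent.LCSV.Nuw
import Pool.Agent.LCSV.Blk
import Pool.Agent.LCSV.McD2
import Pool.Agent.LCSV.ELrep

/-!
# Words with a tilted number of blocks w

X = flatten of N blocks of length K (independent, equal to w with probability theta) followed by r uniform letters; Y uniform of length n.

Et_unif: EL_blocks: EL (un k) (K + m) F = sum over the first block (EL_append and EL_un: EL (un k) K G = (1/k)^K sum over v G (ofFn v)), so
by induction on N: EL (un k) (N * K + r) F = EL (fun _ : Fin K -> Fin k => 1 / k^K) N (fun B => EL (un k) r (fun Z => F (fl B ++ Z))); card of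
(Fin K -> Fin k) is k^K; use nuw_unif.

repl_fl: for b < B.length: repl K (ofFn w) b (fl B ++ Z) = fl (B.set b w) ++ Z: every block has length K; induction on B and b with
blk_repl_zero, blk_repl_succ.

Et_deriv: russo for H B = EL (un k) r (fun Z => EL (un k) n (fun Y => F (fl B ++ Z) Y)), and repl_fl for lists B of length N
(EL_congr), EL_sub, EL_sum.

Et_chm: chm for H B as above (0 <= H <= 1 by EL_mono, EL_const).

Et_mono, Et_const, Et_sub, Et_mul: from the EL rules (nuw_isP, un_isP).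

Et_mgf: mcd2 / mcd: for fixed (Z, Y) the function B -> lcs (fl B ++ Z) Y changes by at most K when one block is changed (lcs_change for each of
the K letters, or le_lcs arguments: lcs (x1 ++ u ++ x2) y <= lcs (x1 ++ x2) y + u.length and monotonicity). Let m1 Z Y = EL (nuw w th) N (...);
mcd gives EL exp(t (lcs - m1)) <= exp(t^2 K^2 N / 2); m1 has differences at most 1 in each letter of Z and of Y (lcs_change, lcs_change_right,
EL_abs_le), so mcd2 applied to m1 gives exp(t^2 (r + n) / 2). The order of the expectations may be exchanged (finite sums); or apply mcd to the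
outer variable B first: with G B = EL r EL n lcs: E_B exp(t (G B - M)) <= exp(t^2 K^2 N/2) and for fixed B mcd2 for (Z, Y); this needs no
exchange.
-/

namespace LCSV

open Finset

/-- the word with blocks B -/
def fl {K k : ℕ} (B : List (Fin K → Fin k)) : List (Fin k) := B.flatMap List.ofFn

/-- tilted expectation -/
noncomputable def Et {K k : ℕ} (w : Fin K → Fin k) (N r n : ℕ) (θ : ℝ)
    (F : List (Fin k) → List (Fin k) → ℝ) : ℝ :=
  EL (nuw w θ) N (fun B => EL (un k) r (fun Z => EL (un k) n (fun Y => F (fl B ++ Z) Y)))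

theorem etil_fl_cons {K k : ℕ} (v : Fin K → Fin k) (B : List (Fin K → Fin k)) (Z : List (Fin k)) :
    fl (v :: B) ++ Z = List.ofFn v ++ (fl B ++ Z) := by
  unfold fl
  rw [List.flatMap_cons, List.append_assoc]

theorem etil_fl_append {K k : ℕ} (A B : List (Fin K → Fin k)) (Z : List (Fin k)) :
    fl (A ++ B) ++ Z = fl A ++ (fl B ++ Z) := by
  unfold fl
  rw [List.flatMap_append, List.append_assoc]

theorem etil_fl_length {K k : ℕ} (B : List (Fin K → Fin k)) : (fl B).length = B.length * K := by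
  induction B with
  | nil => simp [fl]
  | cons v B ih =>
    have h := etil_fl_cons v B []
    rw [List.append_nil, List.append_nil] at h
    rw [h, List.length_append, ih, List.length_ofFn, List.length_cons]
    ring

theorem etil_card {K k : ℕ} : (Fintype.card (Fin K → Fin k) : ℝ) = (k : ℝ) ^ K := by
  rw [Fintype.card_fun, Fintype.card_fin, Fintype.card_fin]
  push_cast
  rfl

theorem etil_card_two {K k : ℕ} (hk : 2 ≤ k) (hK : 1 ≤ K) : 2 ≤ Fintype.card (Fin K → Fin k) := by
  rw [Fintype.card_fun, Fintype.card_fin, Fintype.card_fin]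
  calc 2 ≤ k := hk
    _ = k ^ 1 := (pow_one k).symm
    _ ≤ k ^ K := Nat.pow_le_pow_right (by omega) hK

theorem repl_fl {K k : ℕ} (w : Fin K → Fin k) (B : List (Fin K → Fin k)) (Z : List (Fin k)) (b : ℕ)
    (hb : b < B.length) : repl K (List.ofFn w) b (fl B ++ Z) = fl (B.set b w) ++ Z := by
  induction B generalizing b with
  | nil => simp at hb
  | cons v B ih =>
    have hl : (List.ofFn v).length = K := List.length_ofFn
    cases b with
    | zero =>
      rw [blk_repl_zero, List.set_cons_zero, etil_fl_cons, etil_fl_cons, List.drop_left' hl]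
    | succ b =>
      rw [List.length_cons] at hb
      rw [blk_repl_succ, List.set_cons_succ, etil_fl_cons, etil_fl_cons, List.drop_left' hl,
        List.take_left' hl, ih b (by omega)]

theorem etil_unif {K k : ℕ} (N r : ℕ) (F : List (Fin k) → ℝ) :
    EL (fun _ : Fin K → Fin k => 1 / (k : ℝ) ^ K) N
      (fun B => EL (un k) r (fun Z => F (fl B ++ Z))) = EL (un k) (N * K + r) F := by
  induction N generalizing F with
  | zero =>
    rw [Nat.zero_mul, Nat.zero_add]
    rfl
  | succ N ih =>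
    have e : (N + 1) * K + r = K + (N * K + r) := by ring
    have e2 : EL (un k) (K + (N * K + r)) F = (1 / (k : ℝ)) ^ K * ∑ v : Fin K → Fin k,
        EL (un k) (N * K + r) (fun X2 => F (List.ofFn v ++ X2)) := by
      rw [EL_append K (N * K + r) F, EL_un]
    rw [e, e2]
    show ∑ v : Fin K → Fin k, (1 / (k : ℝ) ^ K) * EL (fun _ : Fin K → Fin k => 1 / (k : ℝ) ^ K) N
      (fun B => EL (un k) r (fun Z => F (fl (v :: B) ++ Z))) = _
    rw [Finset.mul_sum]
    refine Finset.sum_congr rfl fun v _ => ?_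
    have h : EL (fun _ : Fin K → Fin k => 1 / (k : ℝ) ^ K) N
        (fun B => EL (un k) r (fun Z => F (fl (v :: B) ++ Z))) =
        EL (un k) (N * K + r) (fun X => F (List.ofFn v ++ X)) := by
      rw [← ih (fun X => F (List.ofFn v ++ X))]
      refine EL_congr fun B _ => EL_congr fun Z _ => ?_
      rw [etil_fl_cons]
    rw [h, one_div_pow]

theorem Et_unif {K k : ℕ} (hk : 2 ≤ k) (hK : 1 ≤ K) (w : Fin K → Fin k) (N r n : ℕ)
    (F : List (Fin k) → List (Fin k) → ℝ) :
    Et w N r n (1 / (k : ℝ) ^ K) F =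
      EL (un k) (N * K + r) (fun X => EL (un k) n (fun Y => F X Y)) := by
  unfold Et
  rw [← etil_unif N r (fun X => EL (un k) n (fun Y => F X Y))]
  have h := nuw_unif (etil_card_two hk hK) w
  rw [etil_card] at h
  rw [h]

theorem Et_congr {K k : ℕ} (w : Fin K → Fin k) (N r n : ℕ) (θ : ℝ)
    {F G : List (Fin k) → List (Fin k) → ℝ}
    (h : ∀ X Y, X.length = N * K + r → Y.length = n → F X Y = G X Y) :
    Et w N r n θ F = Et w N r n θ G := by
  unfold Et
  refine EL_congr fun B hB => EL_congr fun Z hZ => EL_congr fun Y hY => ?_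
  exact h _ _ (by rw [List.length_append, etil_fl_length, hB, hZ]) hY

theorem Et_mono {K k : ℕ} (hk : 2 ≤ k) (hK : 1 ≤ K) (w : Fin K → Fin k) (N r n : ℕ) (θ : ℝ)
    (h0 : 0 ≤ θ) (h1 : θ ≤ 1) {F G : List (Fin k) → List (Fin k) → ℝ}
    (h : ∀ X Y, X.length = N * K + r → Y.length = n → F X Y ≤ G X Y) :
    Et w N r n θ F ≤ Et w N r n θ G := by
  have hP := nuw_isP (etil_card_two hk hK) w θ h0 h1
  have hu : IsP (un k) := un_isP (by omega)
  unfold Et
  refine EL_mono hP fun B hB => EL_mono hu fun Z hZ => EL_mono hu fun Y hY => ?_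
  exact h _ _ (by rw [List.length_append, etil_fl_length, hB, hZ]) hY

theorem Et_const {K k : ℕ} (hk : 2 ≤ k) (hK : 1 ≤ K) (w : Fin K → Fin k) (N r n : ℕ) (θ : ℝ)
    (h0 : 0 ≤ θ) (h1 : θ ≤ 1) (c : ℝ) : Et w N r n θ (fun _ _ => c) = c := by
  have hP := nuw_isP (etil_card_two hk hK) w θ h0 h1
  have hu : IsP (un k) := un_isP (by omega)
  show EL (nuw w θ) N (fun _ => EL (un k) r (fun _ => EL (un k) n (fun _ => c))) = c
  rw [EL_const hu, EL_const hu, EL_const hP]

theorem Et_add {K k : ℕ} (w : Fin K → Fin k) (N r n : ℕ) (θ : ℝ)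
    (F G : List (Fin k) → List (Fin k) → ℝ) :
    Et w N r n θ (fun X Y => F X Y + G X Y) = Et w N r n θ F + Et w N r n θ G := by
  unfold Et
  rw [← EL_add]
  refine EL_congr fun B _ => ?_
  rw [← EL_add]
  refine EL_congr fun Z _ => ?_
  rw [← EL_add]

theorem Et_mul {K k : ℕ} (w : Fin K → Fin k) (N r n : ℕ) (θ c : ℝ)
    (F : List (Fin k) → List (Fin k) → ℝ) :
    Et w N r n θ (fun X Y => c * F X Y) = c * Et w N r n θ F := by
  unfold Et
  rw [← EL_mul_left]
  refine EL_congr fun B _ => ?_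
  rw [← EL_mul_left]
  refine EL_congr fun Z _ => ?_
  rw [← EL_mul_left]

theorem Et_deriv {K k : ℕ} (hk : 2 ≤ k) (hK : 1 ≤ K) (w : Fin K → Fin k) (N r n : ℕ) (θ : ℝ)
    (h1 : θ < 1) (F : List (Fin k) → List (Fin k) → ℝ) :
    HasDerivAt (fun θ => Et w N r n θ F)
      (Et w N r n θ (fun X Y => ∑ b ∈ range N, (F (repl K (List.ofFn w) b X) Y - F X Y)) / (1 - θ))
      θ := by
  have h := russo (etil_card_two hk hK) w θ h1 N
    (fun B => EL (un k) r (fun Z => EL (un k) n (fun Y => F (fl B ++ Z) Y)))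
  have e : Et w N r n θ (fun X Y => ∑ b ∈ range N, (F (repl K (List.ofFn w) b X) Y - F X Y)) =
      ∑ b ∈ range N, EL (nuw w θ) N (fun l =>
        EL (un k) r (fun Z => EL (un k) n (fun Y => F (fl (l.set b w) ++ Z) Y)) -
        EL (un k) r (fun Z => EL (un k) n (fun Y => F (fl l ++ Z) Y))) := by
    unfold Et
    rw [← EL_sum]
    refine EL_congr fun B hB => ?_
    have h2 : ∀ b ∈ range N,
        EL (un k) r (fun Z => EL (un k) n (fun Y => F (fl (B.set b w) ++ Z) Y)) -
        EL (un k) r (fun Z => EL (un k) n (fun Y => F (fl B ++ Z) Y)) =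
        EL (un k) r (fun Z => EL (un k) n (fun Y =>
          F (repl K (List.ofFn w) b (fl B ++ Z)) Y - F (fl B ++ Z) Y)) := by
      intro b hb
      rw [← EL_sub]
      refine EL_congr fun Z _ => ?_
      rw [← EL_sub]
      refine EL_congr fun Y _ => ?_
      rw [repl_fl w B Z b (by rw [hB]; exact Finset.mem_range.1 hb)]
    rw [Finset.sum_congr rfl h2, ← EL_sum]
    refine EL_congr fun Z _ => ?_
    rw [← EL_sum]
  rw [e]
  exact h

theorem Et_chm {K k : ℕ} (hk : 2 ≤ k) (hK : 1 ≤ K) (w : Fin K → Fin k) (N r n : ℕ) (θ p : ℝ)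
    (h0 : 0 ≤ θ) (h1 : θ ≤ 1) (hp : p = 1 / (k : ℝ) ^ K) (F : List (Fin k) → List (Fin k) → ℝ)
    (hF0 : ∀ X Y, 0 ≤ F X Y) (hF1 : ∀ X Y, F X Y ≤ 1) :
    (Et w N r n θ F) ^ 2 ≤ Et w N r n p F * (1 + (θ - p) ^ 2 / (p * (1 - p))) ^ N := by
  have hu : IsP (un k) := un_isP (by omega)
  refine chm (etil_card_two hk hK) w θ p h0 h1 (by rw [etil_card, hp]) N
    (fun B => EL (un k) r (fun Z => EL (un k) n (fun Y => F (fl B ++ Z) Y))) ?_ ?_
  · intro B
    exact EL_nonneg hu fun Z _ => EL_nonneg hu fun Y _ => hF0 _ _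
  · intro B
    calc EL (un k) r (fun Z => EL (un k) n (fun Y => F (fl B ++ Z) Y)) ≤
          EL (un k) r (fun _ => EL (un k) n (fun _ => (1 : ℝ))) :=
          EL_mono hu fun Z _ => EL_mono hu fun Y _ => hF1 _ _
      _ = 1 := by rw [EL_const hu, EL_const hu]

theorem etil_lcs_mid {α : Type*} (A u C Y : List α) :
    lcs (A ++ (u ++ C)) Y ≤ u.length + lcs (A ++ C) Y := by
  obtain ⟨j, _, e⟩ := lcs_split A (u ++ C) Y
  have h1 := lcs_append_le u C (Y.drop j)
  have h2 := lcs_split_le A C Y j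
  omega

theorem etil_lcs_mid' {α : Type*} (A u C Y : List α) :
    lcs (A ++ C) Y ≤ lcs (A ++ (u ++ C)) Y :=
  lcs_mono (List.Sublist.append (List.Sublist.refl A) (List.sublist_append_right u C))
    (List.Sublist.refl Y)

theorem etil_blk_change {α : Type*} (A u u' C Y : List α) (K : ℕ) (hu : u.length = K)
    (hu' : u'.length = K) :
    |(lcs (A ++ (u ++ C)) Y : ℝ) - (lcs (A ++ (u' ++ C)) Y : ℝ)| ≤ (K : ℝ) := by
  have h1 := etil_lcs_mid A u C Y
  have h2 := etil_lcs_mid A u' C Y
  have h3 := etil_lcs_mid' A u C Y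
  have h4 := etil_lcs_mid' A u' C Y
  rw [hu] at h1
  rw [hu'] at h2
  have h1' : (lcs (A ++ (u ++ C)) Y : ℝ) ≤ K + lcs (A ++ C) Y := by exact_mod_cast h1
  have h2' : (lcs (A ++ (u' ++ C)) Y : ℝ) ≤ K + lcs (A ++ C) Y := by exact_mod_cast h2
  have h3' : (lcs (A ++ C) Y : ℝ) ≤ lcs (A ++ (u ++ C)) Y := by exact_mod_cast h3
  have h4' : (lcs (A ++ C) Y : ℝ) ≤ lcs (A ++ (u' ++ C)) Y := by exact_mod_cast h4
  rw [abs_le]
  constructor <;> linarith

theorem Et_mgf {K k : ℕ} (hk : 2 ≤ k) (hK : 1 ≤ K) (w : Fin K → Fin k) (N r n : ℕ) (θ : ℝ)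
    (h0 : 0 ≤ θ) (h1 : θ ≤ 1) (t : ℝ) :
    Et w N r n θ (fun X Y => Real.exp (t * ((lcs X Y : ℝ) -
      Et w N r n θ (fun X' Y' => (lcs X' Y' : ℝ))))) ≤
      Real.exp (t ^ 2 * ((K : ℝ) ^ 2 * N + r + n) / 2) := by
  have hP := nuw_isP (etil_card_two hk hK) w θ h0 h1
  have hu : IsP (un k) := un_isP (by omega)
  set G : List (Fin K → Fin k) → ℝ := fun B =>
    EL (un k) r (fun Z => EL (un k) n (fun Y => (lcs (fl B ++ Z) Y : ℝ))) with hG
  set M : ℝ := Et w N r n θ (fun X' Y' => (lcs X' Y' : ℝ)) with hM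
  have hMG : M = EL (nuw w θ) N G := rfl
  have h2 : ∀ B : List (Fin K → Fin k), B.length = N →
      EL (un k) r (fun Z => EL (un k) n (fun Y => Real.exp (t * ((lcs (fl B ++ Z) Y : ℝ) - M)))) ≤
        Real.exp (t * (G B - M)) * Real.exp (t ^ 2 * 1 ^ 2 * (r + n) / 2) := by
    intro B _
    have h3 := mcd2 hu hu r n (fun Z Y => (lcs (fl B ++ Z) Y : ℝ)) 1 (by norm_num)
      (fun l1 l2 x x' y _ _ => by
        rw [← List.append_assoc, ← List.append_assoc]
        exact lcs_change _ _ _ _ _)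
      (fun x l1 l2 y y' _ _ => lcs_change_right _ _ _ _ _) t
    have h4 : EL (un k) r (fun Z => EL (un k) n
        (fun Y => Real.exp (t * ((lcs (fl B ++ Z) Y : ℝ) - M)))) =
        Real.exp (t * (G B - M)) * EL (un k) r (fun Z => EL (un k) n
          (fun Y => Real.exp (t * ((lcs (fl B ++ Z) Y : ℝ) - G B)))) := by
      rw [← EL_mul_left]
      refine EL_congr fun Z _ => ?_
      rw [← EL_mul_left]
      refine EL_congr fun Y _ => ?_
      rw [← Real.exp_add]
      congr 1
      ring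
    rw [h4]
    exact mul_le_mul_of_nonneg_left h3 (Real.exp_pos _).le
  have h5 : ∀ (l1 l2 : List (Fin K → Fin k)) (x x' : Fin K → Fin k),
      l1.length + 1 + l2.length = N →
      |G (l1 ++ x :: l2) - G (l1 ++ x' :: l2)| ≤ (K : ℝ) := by
    intro l1 l2 x x' _
    have h6 : G (l1 ++ x :: l2) - G (l1 ++ x' :: l2) =
        EL (un k) r (fun Z => EL (un k) n (fun Y => (lcs (fl (l1 ++ x :: l2) ++ Z) Y : ℝ) -
          (lcs (fl (l1 ++ x' :: l2) ++ Z) Y : ℝ))) := by
      rw [hG]
      simp only []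
      rw [← EL_sub]
      refine EL_congr fun Z _ => ?_
      rw [← EL_sub]
    rw [h6]
    refine (EL_abs_le hu r _).trans ?_
    calc EL (un k) r (fun Z => |EL (un k) n (fun Y => (lcs (fl (l1 ++ x :: l2) ++ Z) Y : ℝ) -
          (lcs (fl (l1 ++ x' :: l2) ++ Z) Y : ℝ))|) ≤ EL (un k) r (fun _ => (K : ℝ)) := by
          refine EL_mono hu fun Z _ => (EL_abs_le hu n _).trans ?_
          calc EL (un k) n (fun Y => |(lcs (fl (l1 ++ x :: l2) ++ Z) Y : ℝ) -
                (lcs (fl (l1 ++ x' :: l2) ++ Z) Y : ℝ)|) ≤ EL (un k) n (fun _ => (K : ℝ)) := by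
                refine EL_mono hu fun Y _ => ?_
                rw [etil_fl_append, etil_fl_append, etil_fl_cons, etil_fl_cons]
                exact etil_blk_change _ _ _ _ _ K List.length_ofFn List.length_ofFn
            _ = K := EL_const hu n _
      _ = K := EL_const hu r _
  have h7 := mcd hP N G K (Nat.cast_nonneg K) h5 t
  calc Et w N r n θ (fun X Y => Real.exp (t * ((lcs X Y : ℝ) - M))) ≤
        EL (nuw w θ) N (fun B => Real.exp (t * (G B - M)) *
          Real.exp (t ^ 2 * 1 ^ 2 * (r + n) / 2)) := EL_mono hP h2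
    _ = EL (nuw w θ) N (fun B => Real.exp (t * (G B - M))) *
          Real.exp (t ^ 2 * 1 ^ 2 * (r + n) / 2) := by rw [EL_mul_right]
    _ ≤ Real.exp (t ^ 2 * (K : ℝ) ^ 2 * N / 2) * Real.exp (t ^ 2 * 1 ^ 2 * (r + n) / 2) :=
        mul_le_mul_of_nonneg_right h7 (Real.exp_pos _).le
    _ = Real.exp (t ^ 2 * ((K : ℝ) ^ 2 * N + r + n) / 2) := by
        rw [← Real.exp_add]
        congr 1
        ring

end LCSV
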