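import Pool.Agent.LCSV.PairDet
import Pool.Agent.LCSV.LcsB

/-!
# If inserting two copies of x (bits 0) raises the maximum then x is among the first C columns or there is a far path

one_insert: let A = X.take part, B = rest. By lcs_split there is j with lcs (A ++ x :: B) Y = lcs A (Y.take j) + lcs (x :: B) (Y.drop j).
If lcs (x :: B) (Y.drop j) = lcs B (Y.drop j) then v <= lcs (A ++ B) Y, excluded. Otherwise a longest common sublist of x :: B and Y.drop j
is x :: u with u <+ B, so Y.drop j = c1 ++ x :: c2 with u <+ c2; let j' = j + c1.length, Y[j']? = some x, c2 = Y.drop (j'+1).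
If j' < C then x in Y.take C. Otherwise v <= lcs A (Y.take j') + 1 + lcs B (Y.drop (j'+1)) (monotone). Y.take j' = Y.take C ++ (Y.take j').drop C
(C <= j'); by lcs_split_right A = A.take r ++ A.drop r with lcs A (Y.take j') = lcs (A.take r) (Y.take C) + lcs (A.drop r) ((Y.take j').drop C), and
lcs (A.drop r) ((Y.take j').drop C) + lcs B (Y.drop (j'+1)) <= lcs (A.drop r ++ B) (Y.drop C) (lcs_append_ge and lcs_mono).

far_of_raise: let g be a gap of the new environment with fv' g = Mx' >= M + 1 (M the old maximum), q = lm.
(a) g > p2 + 1: fv' g = fv (g-2) <= M, impossible. (b) p1 < g <= p2 + 1: with r = g - 1 the height is ht (bs b) r and the right part is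
((X.drop r).take (p2 - r)) ++ x :: X.drop p2: one_insert with v = M + 1 - ht r (not unused, because ht r + lcs (X.drop r) Y = fv r <= M).
(c) g <= p1: r = g, right part = (X.drop g).take (p1-g) ++ x :: (mid ++ x :: X.drop p2), mid = (X.drop p1).take (p2-p1).
Let B = mid ++ x :: X.drop p2. If M + 1 - ht r <= lcs ((X.drop g).take (p1-g) ++ B) Y (first x unused) then this list is
(X.drop g).take (p2-g) ++ x :: X.drop p2 and we apply one_insert as in (b). Otherwise one_insert for the first x: x in Y.take C or
M + 1 <= ht r + lcs (A.take r') (Y.take C) + lcs (A.drop r' ++ B) (Y.drop C) + 1, and lcs (A.drop r' ++ mid ++ x :: X.drop p2) (Y.drop C) <=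
lcs (A.drop r' ++ mid ++ X.drop p2) (Y.drop C) + 1 (lcs_insert_le) = lcs (X.drop (g + r')) (Y.drop C) + 1. So Far holds with r = g, r2 = g + r' <= p1 <= q.
-/

namespace LCSV

open Finset

/-- there is a path of value at least Mx - 1 which has used the first C columns below the last maximal gap -/
def Far {α : Type*} (X Y : List α) (s : Finset ℕ) (n C : ℕ) : Prop :=
  ∃ r r2 : ℕ, r ≤ r2 ∧ r2 ≤ lm (rh X Y) s n ∧
    Mx (rh X Y) s n ≤ ht s r + lcs ((X.drop r).take (r2 - r)) (Y.take C) +
      lcs (X.drop r2) (Y.drop C) + 1

theorem FarA_drop_take {β : Type*} (L : List β) {r p : ℕ} (h : r ≤ p) :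
    (L.drop r).take (p - r) ++ L.drop p = L.drop r := by
  have e : L.drop p = (L.drop r).drop (p - r) := by
    rw [List.drop_drop]
    congr 1
    omega
  rw [e, List.take_append_drop]

theorem FarA_ins1_drop_le {β : Type*} (L : List β) (x : β) {p g : ℕ} (h : g ≤ p)
    (hp : p ≤ L.length) :
    (L.take p ++ x :: L.drop p).drop g = (L.drop g).take (p - g) ++ x :: L.drop p := by
  have hl : g ≤ (L.take p).length := by
    rw [List.length_take]
    omega
  rw [List.drop_append_of_le_length hl, List.drop_take]

theorem FarA_ins1_drop_gt {β : Type*} (L : List β) (x : β) {p g : ℕ} (h : p < g)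
    (hp : p ≤ L.length) :
    (L.take p ++ x :: L.drop p).drop g = L.drop (g - 1) := by
  have hl : (L.take p).length = p := by
    rw [List.length_take]
    omega
  have e : L.take p ++ x :: L.drop p = (L.take p ++ [x]) ++ L.drop p := by simp
  have e2 : (L.take p ++ [x]).length = p + 1 := by
    rw [List.length_append, hl]
    rfl
  rw [e, List.drop_append, e2, List.drop_eq_nil_of_le (by omega), List.nil_append, List.drop_drop]
  congr 1
  omega

theorem FarA_ins1_take_le {β : Type*} (L : List β) (x : β) {p g : ℕ} (h : g ≤ p)
    (hp : p ≤ L.length) :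
    (L.take p ++ x :: L.drop p).take g = L.take g := by
  have hl : g ≤ (L.take p).length := by
    rw [List.length_take]
    omega
  rw [List.take_append_of_le_length hl, List.take_take]
  congr 1
  omega

theorem FarA_ins1_count {p g : ℕ} (L : List Bool) (h : p < g) (hp : p ≤ L.length) :
    ((L.take p ++ false :: L.drop p).take g).count true = (L.take (g - 1)).count true := by
  have hl : (L.take p).length = p := by
    rw [List.length_take]
    omega
  have e : L.take p ++ false :: L.drop p = (L.take p ++ [false]) ++ L.drop p := by simp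
  have e2 : (L.take p ++ [false]).length = p + 1 := by
    rw [List.length_append, hl]
    rfl
  rw [e, List.take_append, e2, List.take_of_length_le (by omega)]
  have e3 : L.take (g - 1) = L.take p ++ (L.drop p).take (g - (p + 1)) := by
    conv_lhs => rw [← List.take_append_drop p L]
    rw [List.take_append, hl, List.take_take]
    congr 1
    · congr 1
      omega
    · congr 1
      omega
  rw [e3, List.count_append, List.count_append, List.count_append]
  simp

theorem FarA_ins_eq {β : Type*} (x : β) {p1 p2 : ℕ} (L : List β) (h : p1 ≤ p2)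
    (hp : p2 ≤ L.length) :
    ins x p1 p2 L = (L.take p2 ++ x :: L.drop p2).take p1 ++
      x :: (L.take p2 ++ x :: L.drop p2).drop p1 := by
  rw [FarA_ins1_take_le L x h hp, FarA_ins1_drop_le L x h hp]
  rfl

theorem FarA_ht_bs (b : List Bool) (g : ℕ) : ht (bs b) g = (b.take g).count true := by
  induction g with
  | zero => simp [ht_zero]
  | succ g ih =>
    rw [ht_succ, ih]
    by_cases hg : g < b.length
    · rw [List.take_succ_eq_append_getElem hg, List.count_append]
      congr 1
      have hm : g ∈ bs b ↔ b[g] = true := by
        unfold bs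
        rw [Finset.mem_filter, Finset.mem_range]
        constructor
        · rintro ⟨_, h2⟩
          rw [List.getElem?_eq_getElem hg] at h2
          exact Option.some.inj h2
        · intro h2
          refine ⟨hg, ?_⟩
          rw [List.getElem?_eq_getElem hg, h2]
      by_cases hb : b[g] = true
      · rw [if_pos (hm.2 hb), hb]
        rfl
      · rw [if_neg (fun hh => hb (hm.1 hh))]
        have hb' : b[g] = false := by
          cases hbb : b[g] with
          | true => exact absurd hbb hb
          | false => rfl
        rw [hb']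
        rfl
    · have hm : g ∉ bs b := by
        unfold bs
        rw [Finset.mem_filter, Finset.mem_range]
        exact fun hh => hg hh.1
      rw [if_neg hm, List.take_of_length_le (by omega), List.take_of_length_le (by omega)]
      rfl

theorem one_insert {α : Type*} (A B Y : List α) (x : α) (C v : ℕ)
    (h : v ≤ lcs (A ++ x :: B) Y) (h' : ¬ v ≤ lcs (A ++ B) Y) :
    x ∈ Y.take C ∨ ∃ r ≤ A.length,
      v ≤ lcs (A.take r) (Y.take C) + lcs (A.drop r ++ B) (Y.drop C) + 1 := by
  obtain ⟨j, hj, e⟩ := lcs_split A (x :: B) Y
  obtain ⟨s, hs1, hs2, hs3⟩ := exists_lcs (x :: B) (Y.drop j)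
  rcases List.sublist_cons_iff.1 hs1 with hsB | ⟨u, rfl, hu⟩
  · exfalso
    apply h'
    have h1 := le_lcs hsB hs2
    have h2 := lcs_split_le A B Y j
    omega
  · obtain ⟨r1, r2, hr, hx, hu2⟩ := List.cons_sublist_iff.1 hs2
    obtain ⟨i, hi, hix⟩ := List.getElem_of_mem hx
    have hYj : Y[j + i]? = some x := by
      have h1 : (Y.drop j)[i]? = some x := by
        rw [hr, List.getElem?_append_left hi, List.getElem?_eq_getElem hi, hix]
      rwa [List.getElem?_drop] at h1
    obtain ⟨hlen, hYx⟩ := List.getElem?_eq_some_iff.1 hYj
    have hu3 : u.Sublist (Y.drop (j + i + 1)) := by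
      have e2 : Y.drop (j + i + 1) = (Y.drop j).drop (i + 1) := by
        rw [List.drop_drop]
        congr 1
      rw [e2, hr, List.drop_append_of_le_length (by omega)]
      exact hu2.trans (List.sublist_append_right _ _)
    have hv : v ≤ lcs A (Y.take (j + i)) + 1 + lcs B (Y.drop (j + i + 1)) := by
      have h1 := le_lcs hu hu3
      have h2 : lcs A (Y.take j) ≤ lcs A (Y.take (j + i)) :=
        lcs_mono (List.Sublist.refl A) ((List.take_prefix_take_left (by omega)).sublist)
      have h3 : (x :: u).length = u.length + 1 := rfl
      omega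
    by_cases hC : j + i < C
    · left
      rw [List.mem_iff_getElem?]
      refine ⟨j + i, ?_⟩
      rw [List.getElem?_take, if_pos hC, hYj]
    · right
      have hC' : C ≤ j + i := by omega
      have hlt : (Y.take (j + i)).length = j + i := by
        rw [List.length_take]
        omega
      have e3 : Y.take (j + i) = Y.take C ++ (Y.take (j + i)).drop C := by
        conv_lhs => rw [← List.take_append_drop C (Y.take (j + i))]
        rw [List.take_take]
        congr 2
        omega
      obtain ⟨r, hr1, hr2⟩ := lcs_split_right A (Y.take C) ((Y.take (j + i)).drop C)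
      refine ⟨r, hr1, ?_⟩
      have h4 := lcs_append_ge (A.drop r) B ((Y.take (j + i)).drop C) (Y.drop (j + i + 1))
      have h5 : lcs (A.drop r ++ B) ((Y.take (j + i)).drop C ++ Y.drop (j + i + 1)) ≤
          lcs (A.drop r ++ B) (Y.drop C) := by
        apply lcs_mono (List.Sublist.refl _)
        have e4 : Y.drop C = (Y.take (j + i)).drop C ++ Y.drop (j + i) := by
          conv_lhs => rw [← List.take_append_drop (j + i) Y]
          rw [List.drop_append_of_le_length (by omega)]
        rw [e4]
        exact List.Sublist.append (List.Sublist.refl _)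
          (List.drop_sublist_drop_left Y (by omega))
      rw [← e3] at hr2
      omega

theorem FarA_key {α : Type*} (X Y : List α) (b : List Bool) (n C p2 r : ℕ) (x : α)
    (hX : X.length = n) (hr : r ≤ p2) (h2 : p2 ≤ lm (rh X Y) (bs b) n)
    (h : Mx (rh X Y) (bs b) n + 1 ≤ ht (bs b) r + lcs ((X.drop r).take (p2 - r) ++ x :: X.drop p2) Y) :
    x ∈ Y.take C ∨ Far X Y (bs b) n C := by
  have hn : p2 ≤ n := h2.trans (lm_le _ _ _)
  have hfr : ht (bs b) r + lcs (X.drop r) Y ≤ Mx (rh X Y) (bs b) n :=
    fv_le_Mx (rho := rh X Y) (s := bs b) (g := r) (t := n) (by omega)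
  have e1 := FarA_drop_take X hr
  rcases one_insert ((X.drop r).take (p2 - r)) (X.drop p2) Y x C
    (Mx (rh X Y) (bs b) n + 1 - ht (bs b) r) (by omega) (by rw [e1]; omega) with hx | ⟨r', hr', hv⟩
  · exact Or.inl hx
  · right
    have hlen : ((X.drop r).take (p2 - r)).length = p2 - r := by
      rw [List.length_take, List.length_drop]
      omega
    rw [hlen] at hr'
    refine ⟨r, r + r', by omega, by omega, ?_⟩
    have e2 : ((X.drop r).take (p2 - r)).take r' = (X.drop r).take (r + r' - r) := by
      rw [List.take_take]
      congr 1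
      omega
    have e3 : ((X.drop r).take (p2 - r)).drop r' ++ X.drop p2 = X.drop (r + r') := by
      rw [← List.drop_append_of_le_length (by omega), e1, List.drop_drop]
    rw [e2, e3] at hv
    omega

theorem far_of_raise {α : Type*} (X Y : List α) (b : List Bool) (n C p1 p2 : ℕ) (x : α)
    (hX : X.length = n) (hb : b.length = n) (h12 : p1 ≤ p2)
    (h2 : p2 ≤ lm (rh X Y) (bs b) n)
    (h : Mx (rh X Y) (bs b) n <
      Mx (rh (ins x p1 p2 X) Y) (bs (ins false p1 p2 b)) (n + 2)) :
    x ∈ Y.take C ∨ Far X Y (bs b) n C := by
  have hn : p2 ≤ n := h2.trans (lm_le _ _ _)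
  obtain ⟨g, hg, e⟩ := exists_Mx (rh (ins x p1 p2 X) Y) (bs (ins false p1 p2 b)) (n + 2)
  rw [← e] at h
  change Mx (rh X Y) (bs b) n <
    ht (bs (ins false p1 p2 b)) g + lcs ((ins x p1 p2 X).drop g) Y at h
  rw [FarA_ht_bs (ins false p1 p2 b)] at h
  have hX2 : (X.take p2 ++ x :: X.drop p2).length = n + 1 := by
    rw [List.length_append, List.length_cons, List.length_take, List.length_drop]
    omega
  have hb2 : (b.take p2 ++ false :: b.drop p2).length = n + 1 := by
    rw [List.length_append, List.length_cons, List.length_take, List.length_drop]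
    omega
  rw [FarA_ins_eq x X h12 (by omega), FarA_ins_eq false b h12 (by omega)] at h
  by_cases hga : p2 + 1 < g
  · exfalso
    rw [FarA_ins1_count _ (by omega) (by omega), FarA_ins1_count b (by omega) (by omega),
      FarA_ins1_drop_gt _ x (by omega) (by omega), FarA_ins1_drop_gt X x (by omega) (by omega),
      ← FarA_ht_bs] at h
    have hfr : ht (bs b) (g - 1 - 1) + lcs (X.drop (g - 1 - 1)) Y ≤ Mx (rh X Y) (bs b) n :=
      fv_le_Mx (rho := rh X Y) (s := bs b) (g := g - 1 - 1) (t := n) (by omega)
    omega
  by_cases hgb : p1 < g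
  · rw [FarA_ins1_count _ (by omega) (by omega), FarA_ins1_take_le b false (by omega) (by omega),
      FarA_ins1_drop_gt _ x (by omega) (by omega), FarA_ins1_drop_le X x (by omega) (by omega),
      ← FarA_ht_bs] at h
    exact FarA_key X Y b n C p2 (g - 1) x hX (by omega) h2 h
  · have hgc : g ≤ p1 := by omega
    rw [FarA_ins1_take_le _ false hgc (by omega), FarA_ins1_take_le b false (by omega) (by omega),
      FarA_ins1_drop_le _ x hgc (by omega), FarA_ins1_drop_le X x (by omega) (by omega),
      FarA_ins1_drop_le X x h12 (by omega), ← FarA_ht_bs] at h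
    have hlenA : ((X.drop g).take (p2 - g)).length = p2 - g := by
      rw [List.length_take, List.length_drop]
      omega
    have eA : ((X.drop g).take (p2 - g) ++ x :: X.drop p2).take (p1 - g) =
        (X.drop g).take (p1 - g) := by
      rw [List.take_append_of_le_length (by omega), List.take_take]
      congr 1
      omega
    rw [eA] at h
    have eAB : (X.drop g).take (p1 - g) ++ ((X.drop p1).take (p2 - p1) ++ x :: X.drop p2) =
        (X.drop g).take (p2 - g) ++ x :: X.drop p2 := by
      rw [← List.append_assoc]
      congr 1
      have e5 : p2 - g = (p1 - g) + (p2 - p1) := by omega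
      rw [e5, List.take_add, List.drop_drop]
      congr 3
      omega
    by_cases h1 : Mx (rh X Y) (bs b) n + 1 - ht (bs b) g ≤
        lcs ((X.drop g).take (p1 - g) ++ ((X.drop p1).take (p2 - p1) ++ x :: X.drop p2)) Y
    · rw [eAB] at h1
      exact FarA_key X Y b n C p2 g x hX (by omega) h2 (by omega)
    · rcases one_insert ((X.drop g).take (p1 - g)) ((X.drop p1).take (p2 - p1) ++ x :: X.drop p2)
        Y x C (Mx (rh X Y) (bs b) n + 1 - ht (bs b) g) (by omega) h1 with hx | ⟨r', hr', hv⟩
      · exact Or.inl hx
      · right
        have hlen : ((X.drop g).take (p1 - g)).length = p1 - g := by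
          rw [List.length_take, List.length_drop]
          omega
        rw [hlen] at hr'
        refine ⟨g, g + r', by omega, by omega, ?_⟩
        have e2 : ((X.drop g).take (p1 - g)).take r' = (X.drop g).take (g + r' - g) := by
          rw [List.take_take]
          congr 1
          omega
        have h6 := lcs_insert_le (((X.drop g).take (p1 - g)).drop r' ++ (X.drop p1).take (p2 - p1))
          (X.drop p2) (Y.drop C) x
        have e3 : ((X.drop g).take (p1 - g)).drop r' ++ (X.drop p1).take (p2 - p1) ++ X.drop p2 =
            X.drop (g + r') := by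
          rw [List.append_assoc, FarA_drop_take X h12,
            ← List.drop_append_of_le_length (by omega), FarA_drop_take X hgc, List.drop_drop]
        rw [e3] at h6
        rw [e2] at hv
        rw [List.append_assoc] at h6
        omega

end LCSV
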