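import Pool.Agent.LCSV.FarA

/-!
# No far path if there is no near tie and the block to the left of the last maximal gap is typical (deterministic)

q = lm, M = Mx. Suppose Far with r <= r2 <= q. Since lcs ((X.drop r).take (r2-r)) (Y.take C) + lcs (X.drop r2) (Y.drop C) <= lcs (X.drop r) Y
(lcs_append_ge, X.drop r = (X.drop r).take (r2-r) ++ X.drop r2), M <= fv r + 1, so by hnt r > q - m1 (otherwise Mx (q-m1) + 1 >= fv r + 1 >= M).
Then (X.drop r).take (r2 - r) is a sublist of (X.drop (q-m1)).take m1, so the first lcs is <= L1; ht r <= ht q. So with t = q - m1 <= r2,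
lcs (X.drop t) (Y.drop C) >= lcs (X.drop r2) (Y.drop C) >= M - 1 - ht q - L1 (in the form M <= ht q + L1 + lcs (X.drop t) (Y.drop C) + 1).
On the other hand the gap t' = q - m1 - m2: M >= fv t' = ht t' + lcs (X.drop t') Y >= ht t' + L2 + lcs (X.drop t) (Y.drop C)
>= ht q - N0 + L2 + lcs (X.drop t) (Y.drop C). Together L2 <= N0 + L1 + 1, a contradiction.
-/

namespace LCSV

open Finset

theorem not_far {α : Type*} (X Y : List α) (s : Finset ℕ) (n C m1 m2 L1 L2 N0 : ℕ)
    (hq : m1 + m2 ≤ lm (rh X Y) s n)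
    (hnt : Mx (rh X Y) s (lm (rh X Y) s n - m1) + 1 < Mx (rh X Y) s n)
    (hL1 : lcs ((X.drop (lm (rh X Y) s n - m1)).take m1) (Y.take C) ≤ L1)
    (hL2 : L2 ≤ lcs ((X.drop (lm (rh X Y) s n - (m1 + m2))).take m2) (Y.take C))
    (hN : ht s (lm (rh X Y) s n) ≤ ht s (lm (rh X Y) s n - (m1 + m2)) + N0)
    (h : L1 + N0 + 1 < L2) : ¬ Far X Y s n C := by
  rintro ⟨r, r2, hr, hr2, hM⟩
  generalize hqq : lm (rh X Y) s n = q at *
  have hqn : q ≤ n := by
    rw [← hqq]
    exact lm_le _ _ _
  have hsplit : ∀ i j : ℕ, i ≤ j → lcs ((X.drop i).take (j - i)) (Y.take C) +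
      lcs (X.drop j) (Y.drop C) ≤ rh X Y i := by
    intro i j hij
    have h1 := lcs_append_ge ((X.drop i).take (j - i)) ((X.drop i).drop (j - i)) (Y.take C)
      (Y.drop C)
    rw [List.take_append_drop, List.take_append_drop, List.drop_drop] at h1
    have h2 : i + (j - i) = j := by omega
    rw [h2] at h1
    exact h1
  -- step 1 and 2
  have h1 := hsplit r r2 hr
  have hrt : q - m1 < r := by
    by_contra hcon
    push Not at hcon
    have h2 : fv (rh X Y) s r ≤ Mx (rh X Y) s (q - m1) := fv_le_Mx hcon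
    unfold fv at h2
    omega
  -- step 3
  have h3 : lcs ((X.drop r).take (r2 - r)) (Y.take C) ≤ L1 := by
    refine le_trans (lcs_mono ?_ (List.Sublist.refl _)) hL1
    have e1 : X.drop r = (X.drop (q - m1)).drop (r - (q - m1)) := by
      rw [List.drop_drop]
      congr 1
      omega
    rw [e1, List.take_drop]
    refine (List.drop_sublist _ _).trans ?_
    exact List.take_sublist_take_left (by omega)
  have h4 : lcs (X.drop r2) (Y.drop C) ≤ lcs (X.drop (q - m1)) (Y.drop C) :=
    lcs_mono (List.drop_sublist_drop_left X (by omega)) (List.Sublist.refl _)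
  have h5 : ht s r ≤ ht s q := ht_mono s (by omega)
  -- step 4
  have h6 := hsplit (q - (m1 + m2)) (q - m1) (by omega)
  have e2 : q - m1 - (q - (m1 + m2)) = m2 := by omega
  rw [e2] at h6
  have h7 : fv (rh X Y) s (q - (m1 + m2)) ≤ Mx (rh X Y) s n := fv_le_Mx (by omega)
  unfold fv at h7
  omega

end LCSV
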