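import Pool.Agent.LCSV.Fv

/-!
# Deleting an element in the r-th block of a chain started at a strict future maximum

la rho s v t = last gap g <= t with value at least v. gg g0: chain started at the gap g0:
gg 0 = g0, gg (t+1) = last gap g <= gg t - l with fv g >= fv g0.
Good s g0: g0 <= n is a strict future maximum, the chain exists up to index r with all values equal to fv g0, and l <= gg r.

good_of_chn: by induction gg (qq 0) t = qq t for t <= r: all values fv (qq t) = M, and on the range 0..(qq t - l) the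
maximum is M = fv(qq (t+1)) (chn), so the last gap with value >= M is the last gap with value = maximum = qq (t+1).

good_erase: s1 = s.erase i with i in s, gg r - l <= i < gg r. fv s1 g = fv s g - 1 for g > i and = fv s g for g <= i (fv_erase).
g0 = gg 0 > i (gg antitone: gg (t+1) <= gg t - l). Gaps g > g0 are lowered as g0 is. By induction gg' t = gg t for t <= r:
gaps g with gg (t+1) < g <= gg t - l have fv s g < fv s g0 and g > gg(t+1) >= gg r > i so fv s1 g = fv s g - 1 < fv s1 g0;
fv s1 (gg (t+1)) = fv s (gg (t+1)) - 1 = fv s1 g0.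

sfm_count: strict future maxima g0 have pairwise different values fv g0 (if g < g0 are both strict future maxima then
fv g0 < fv g), and Mx - d <= fv g0 <= Mx, so there are at most d + 1 of them.
-/

namespace LCSV

open Finset

/-- last gap at most t with value at least v -/
def la (rho : ℕ → ℕ) (s : Finset ℕ) (v t : ℕ) : ℕ :=
  ((range (t + 1)).filter (fun g => v ≤ fv rho s g)).sup id

/-- chain started at g0 -/
def gg (rho : ℕ → ℕ) (s : Finset ℕ) (l g0 : ℕ) : ℕ → ℕ
  | 0 => g0
  | t + 1 => la rho s (fv rho s g0) (gg rho s l g0 t - l)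

/-- g0 is a strict future maximum and the chain exists up to index r -/
def Good (rho : ℕ → ℕ) (s : Finset ℕ) (n l r g0 : ℕ) : Prop :=
  g0 ≤ n ∧ (∀ g, g0 < g → g ≤ n → fv rho s g < fv rho s g0) ∧
    (∀ t < r, l ≤ gg rho s l g0 t ∧ fv rho s (gg rho s l g0 (t + 1)) = fv rho s g0) ∧
    l ≤ gg rho s l g0 r

variable {rho : ℕ → ℕ} {s : Finset ℕ} {n l r : ℕ}

theorem gooddel_la_le (rho : ℕ → ℕ) (s : Finset ℕ) (v t : ℕ) : la rho s v t ≤ t := by
  unfold la
  refine Finset.sup_le fun g hg => ?_
  rw [Finset.mem_filter, Finset.mem_range] at hg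
  change g ≤ t
  omega

theorem gooddel_le_la {v t g : ℕ} (h : g ≤ t) (h' : v ≤ fv rho s g) : g ≤ la rho s v t := by
  unfold la
  exact Finset.le_sup (f := id) (Finset.mem_filter.2 ⟨Finset.mem_range.2 (by omega), h'⟩)

theorem gooddel_la_eq {v t G : ℕ} (h : G ≤ t) (h' : v ≤ fv rho s G)
    (h2 : ∀ g, G < g → g ≤ t → fv rho s g < v) : la rho s v t = G := by
  refine le_antisymm ?_ (gooddel_le_la h h')
  unfold la
  refine Finset.sup_le fun g hg => ?_
  rw [Finset.mem_filter, Finset.mem_range] at hg
  change g ≤ G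
  by_contra hc
  have := h2 g (by omega) (by omega)
  omega

theorem gg_succ_le (rho : ℕ → ℕ) (s : Finset ℕ) (l g0 t : ℕ) :
    gg rho s l g0 (t + 1) ≤ gg rho s l g0 t - l := gooddel_la_le rho s _ _

theorem gooddel_anti (rho : ℕ → ℕ) (s : Finset ℕ) (l g0 : ℕ) : Antitone (gg rho s l g0) := by
  refine antitone_nat_of_succ_le fun t => ?_
  have := gg_succ_le rho s l g0 t
  omega

theorem gg_le (rho : ℕ → ℕ) (s : Finset ℕ) (l g0 t : ℕ) : gg rho s l g0 t ≤ g0 :=
  gooddel_anti rho s l g0 (Nat.zero_le t)

theorem good_of_chn (h : chn rho s n l r) (hr : l ≤ qq rho s n l r) :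
    Good rho s n l r (qq rho s n l 0) ∧
      gg rho s l (qq rho s n l 0) r = qq rho s n l r ∧
      Mx rho s n ≤ fv rho s (qq rho s n l 0) := by
  have h0 : fv rho s (qq rho s n l 0) = Mx rho s n := fv_lm rho s n
  have key : ∀ t ≤ r, gg rho s l (qq rho s n l 0) t = qq rho s n l t ∧
      fv rho s (qq rho s n l t) = Mx rho s n := by
    intro t
    induction t with
    | zero => exact fun _ => ⟨rfl, h0⟩
    | succ t ih =>
      intro ht
      obtain ⟨h1, h2⟩ := ih (by omega)
      obtain ⟨h3, h4⟩ := h t (by omega)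
      have h5 : fv rho s (qq rho s n l (t + 1)) = Mx rho s n := by rw [← h4, h2]
      refine ⟨?_, h5⟩
      change la rho s (fv rho s (qq rho s n l 0)) (gg rho s l (qq rho s n l 0) t - l) =
        qq rho s n l (t + 1)
      rw [h1, h0]
      refine gooddel_la_eq (qq_succ_le rho s n l t) h5.ge ?_
      intro g hg hg'
      have h6 : fv rho s g < Mx rho s (qq rho s n l t - l) := lt_Mx_of_lm_lt hg hg'
      have h7 : fv rho s (qq rho s n l (t + 1)) = Mx rho s (qq rho s n l t - l) :=
        fv_lm rho s _
      rw [← h5, h7]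
      exact h6
  refine ⟨⟨lm_le rho s n, ?_, ?_, ?_⟩, (key r le_rfl).1, h0.ge⟩
  · intro g hg hg'
    rw [h0]
    exact lt_Mx_of_lm_lt hg hg'
  · intro t ht
    rw [(key t ht.le).1, (key (t + 1) ht).1, (key (t + 1) ht).2, h0]
    exact ⟨(h t ht).1, rfl⟩
  · rw [(key r le_rfl).1]
    exact hr

theorem good_erase {g0 i : ℕ} (h : Good rho s n l r g0) (hi : i ∈ s)
    (h1 : gg rho s l g0 r - l ≤ i) (h2 : i < gg rho s l g0 r) :
    Good rho (s.erase i) n l r g0 ∧
      gg rho (s.erase i) l g0 r = gg rho s l g0 r ∧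
      fv rho s g0 = fv rho (s.erase i) g0 + 1 := by
  have _ := h1
  obtain ⟨hn, hf, hc, hr⟩ := h
  have hg : ∀ g, i < g → fv rho (s.erase i) g + 1 = fv rho s g := by
    intro g hg
    have := fv_erase (rho := rho) hi g
    rw [if_pos hg] at this
    exact this
  have hi0 : i < g0 := lt_of_lt_of_le h2 (gg_le rho s l g0 r)
  have key : ∀ t ≤ r, gg rho (s.erase i) l g0 t = gg rho s l g0 t := by
    intro t
    induction t with
    | zero => exact fun _ => rfl
    | succ t ih =>
      intro ht
      have h3 := ih (by omega)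
      have h4 := (hc t (by omega)).2
      have h5 : i < gg rho s l g0 (t + 1) :=
        lt_of_lt_of_le h2 (gooddel_anti rho s l g0 ht)
      change la rho (s.erase i) (fv rho (s.erase i) g0) (gg rho (s.erase i) l g0 t - l) =
        gg rho s l g0 (t + 1)
      rw [h3]
      refine gooddel_la_eq (gg_succ_le rho s l g0 t) ?_ ?_
      · have h6 := hg _ h5
        have h7 := hg _ hi0
        omega
      · intro g hgg hgt
        have h6 := hg g (by omega)
        have h7 := hg _ hi0
        by_contra hcon
        have h8 : g ≤ la rho s (fv rho s g0) (gg rho s l g0 t - l) :=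
          gooddel_le_la hgt (by omega)
        change g ≤ gg rho s l g0 (t + 1) at h8
        omega
  refine ⟨⟨hn, ?_, ?_, ?_⟩, key r le_rfl, (hg _ hi0).symm⟩
  · intro g hgg hgn
    have h3 := hf g hgg hgn
    have h4 := hg g (by omega)
    have h5 := hg _ hi0
    omega
  · intro t ht
    rw [key t ht.le, key (t + 1) ht]
    obtain ⟨h3, h4⟩ := hc t ht
    refine ⟨h3, ?_⟩
    have h5 : i < gg rho s l g0 (t + 1) :=
      lt_of_lt_of_le h2 (gooddel_anti rho s l g0 ht)
    have h6 := hg _ h5
    have h7 := hg _ hi0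
    omega
  · rw [key r le_rfl]
    exact hr

theorem Mx_erase_le (i : ℕ) : Mx rho (s.erase i) n ≤ Mx rho s n := by
  refine Mx_le fun g hg => ?_
  refine le_trans ?_ (fv_le_Mx hg)
  by_cases hi : i ∈ s
  · have := fv_erase (rho := rho) hi g
    omega
  · rw [Finset.erase_eq_of_notMem hi]

open Classical in
theorem sfm_count (rho : ℕ → ℕ) (s : Finset ℕ) (n l r d : ℕ) :
    ((range (n + 1)).filter (fun g0 => Good rho s n l r g0 ∧
      Mx rho s n ≤ fv rho s g0 + d)).card ≤ d + 1 := by
  have h1 : ((range (n + 1)).filter (fun g0 => Good rho s n l r g0 ∧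
      Mx rho s n ≤ fv rho s g0 + d)).card ≤ (Icc (Mx rho s n - d) (Mx rho s n)).card := by
    refine Finset.card_le_card_of_injOn (fv rho s) ?_ ?_
    · intro g hg
      rw [Finset.mem_coe, Finset.mem_filter] at hg
      obtain ⟨hg1, hg2, hg3⟩ := hg
      rw [Finset.mem_coe, Finset.mem_Icc]
      have := fv_le_Mx (rho := rho) (s := s) hg2.1
      omega
    · intro g hg g' hg' he
      rw [Finset.mem_coe, Finset.mem_filter] at hg hg'
      obtain ⟨-, hg2, -⟩ := hg
      obtain ⟨-, hg2', -⟩ := hg'
      rcases lt_trichotomy g g' with h | h | h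
      · have := hg2.2.1 g' h hg2'.1
        change fv rho s g = fv rho s g' at he
        omega
      · exact h
      · have := hg2'.2.1 g h hg2.1
        change fv rho s g = fv rho s g' at he
        omega
  refine h1.trans ?_
  rw [Nat.card_Icc]
  omega

end LCSV
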