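import Pool.Agent.LCSV.DetDel
import Pool.Agent.LCSV.GoodDel

/-!
# Local typicality: the block of m rows to the left of the last maximal gap

Sum over the value g = lm: for m <= g <= n split n = (g-m) + m + (n-g) (E2_append twice). By det_del the event lm = g for
(X1 ++ Xm ++ X2, b1 ++ bm ++ b2) implies that in the environment without the block, of length n - m, the gap g - m is a strict future
maximum with deficiency at most bm.count true =: N. So
P(m <= lm, A block) <= sum over g' in 0..(n-m) of E2 m [ ind(A Xm bm) E2 (n-m) ind( g' strict future maximum, Mx <= fv g' + N ) ]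
= E2 m [ ind(A) E2 (n-m) (number of such g') ] <= E2 m [ ind(A) (N + 1) ] by sfm_count (GoodDel) with l = 0, r = 0
(Good rho s n 0 0 g0 is: g0 <= n and g0 is a strict future maximum).
-/

namespace LCSV

open Finset

private theorem ltl_E2_comm (k : ℕ) (a : ℝ) (m n : ℕ)
    (F : List (Fin k) → List Bool → List (Fin k) → List Bool → ℝ) :
    E2 k a m (fun X b => E2 k a n (fun X' b' => F X b X' b')) =
      E2 k a n (fun X' b' => E2 k a m (fun X b => F X b X' b')) := by
  unfold E2
  calc EL (un k) m (fun X => EL (be a) m (fun b =>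
        EL (un k) n (fun X' => EL (be a) n (fun b' => F X b X' b'))))
      = EL (un k) m (fun X => EL (un k) n (fun X' =>
        EL (be a) m (fun b => EL (be a) n (fun b' => F X b X' b')))) := by
        apply EL_congr
        intro X _
        exact EL_comm m n (fun b X' => EL (be a) n (fun b' => F X b X' b'))
    _ = EL (un k) n (fun X' => EL (un k) m (fun X =>
        EL (be a) m (fun b => EL (be a) n (fun b' => F X b X' b')))) :=
        EL_comm m n (fun X X' => EL (be a) m (fun b => EL (be a) n (fun b' => F X b X' b')))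
    _ = EL (un k) n (fun X' => EL (un k) m (fun X =>
        EL (be a) n (fun b' => EL (be a) m (fun b => F X b X' b')))) := by
        apply EL_congr
        intro X' _
        apply EL_congr
        intro X _
        exact EL_comm m n (fun b b' => F X b X' b')
    _ = EL (un k) n (fun X' => EL (be a) n (fun b' =>
        EL (un k) m (fun X => EL (be a) m (fun b => F X b X' b')))) := by
        apply EL_congr
        intro X' _
        exact EL_comm m n (fun X b' => EL (be a) m (fun b => F X b X' b'))

/-- indicator of the event that g is a strict future maximum of deficiency at most N -/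
private noncomputable def ltlG (k : ℕ) (Y : List (Fin k)) (d g : ℕ) (X : List (Fin k))
    (b : List Bool) (N : ℕ) : ℝ :=
  ind (Good (rh X Y) (bs b) d 0 0 g ∧ Mx (rh X Y) (bs b) d ≤ fv (rh X Y) (bs b) g + N)

private theorem ltl_point (k : ℕ) (Y : List (Fin k)) (m d g j : ℕ) (hj : d = g + j)
    (A : List (Fin k) → List Bool → Prop) (X1 Xm X2 : List (Fin k)) (b1 bm b2 : List Bool)
    (hX1 : X1.length = g) (hb1 : b1.length = g) (hXm : Xm.length = m) (hbm : bm.length = m)
    (hX2 : X2.length = j) (hb2 : b2.length = j) :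
    ind (lm (rh (X1 ++ (Xm ++ X2)) Y) (bs (b1 ++ (bm ++ b2))) (m + d) = g + m ∧
      A (((X1 ++ (Xm ++ X2)).drop g).take m) (((b1 ++ (bm ++ b2)).drop g).take m)) ≤
      ind (A Xm bm) * ltlG k Y d g (X1 ++ X2) (b1 ++ b2) (bm.count true) := by
  unfold ltlG
  rw [← ind_and]
  apply ind_mono
  rintro ⟨h, hA⟩
  have e1 : ((X1 ++ (Xm ++ X2)).drop g).take m = Xm := by
    rw [← hX1, List.drop_left, ← hXm, List.take_left]
  have e2 : ((b1 ++ (bm ++ b2)).drop g).take m = bm := by
    rw [← hb1, List.drop_left, ← hbm, List.take_left]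
  rw [e1, e2] at hA
  have e3 : m + d = b1.length + bm.length + b2.length := by omega
  have e4 : g + m = b1.length + bm.length := by omega
  rw [e3, e4] at h
  obtain ⟨p1, p2⟩ := det_del X1 Xm X2 Y b1 bm b2 (by omega) (by omega) (by omega) h
  have e5 : b1.length + b2.length = d := by omega
  rw [e5, hb1] at p1 p2
  exact ⟨hA, ⟨by omega, p1, fun t ht => absurd ht (Nat.not_lt_zero t), Nat.zero_le _⟩, p2⟩

private theorem ltl_count (k : ℕ) (Y : List (Fin k)) (d : ℕ) (X : List (Fin k)) (b : List Bool)
    (N : ℕ) : ∑ g ∈ range (d + 1), ltlG k Y d g X b N ≤ (N : ℝ) + 1 := by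
  classical
  have h := sfm_count (rh X Y) (bs b) d 0 0 N
  have e : ∑ g ∈ range (d + 1), ltlG k Y d g X b N =
      (((range (d + 1)).filter (fun g0 => Good (rh X Y) (bs b) d 0 0 g0 ∧
        Mx (rh X Y) (bs b) d ≤ fv (rh X Y) (bs b) g0 + N)).card : ℝ) := by
    rw [Finset.card_filter, Nat.cast_sum]
    apply sum_congr rfl
    intro g _
    unfold ltlG
    by_cases hp : Good (rh X Y) (bs b) d 0 0 g ∧
        Mx (rh X Y) (bs b) d ≤ fv (rh X Y) (bs b) g + N
    · rw [ind_true hp, if_pos hp, Nat.cast_one]
    · rw [ind_false hp, if_neg hp, Nat.cast_zero]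
  rw [e]
  have h2 : (((range (d + 1)).filter (fun g0 => Good (rh X Y) (bs b) d 0 0 g0 ∧
        Mx (rh X Y) (bs b) d ≤ fv (rh X Y) (bs b) g0 + N)).card : ℝ) ≤ ((N + 1 : ℕ) : ℝ) := by
    exact_mod_cast h
  push_cast at h2
  exact h2

private theorem ltl_term (k : ℕ) (hk : 0 < k) (a : ℝ) (h0 : 0 ≤ a) (h1 : a ≤ 1)
    (Y : List (Fin k)) (m d g : ℕ) (hg : g ≤ d) (A : List (Fin k) → List Bool → Prop) :
    E2 k a (m + d) (fun X b => ind (lm (rh X Y) (bs b) (m + d) = g + m ∧
        A ((X.drop g).take m) ((b.drop g).take m))) ≤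
      E2 k a m (fun Xm bm => ind (A Xm bm) *
        E2 k a d (fun X b => ltlG k Y d g X b (bm.count true))) := by
  obtain ⟨j, hj⟩ : ∃ j, d = g + j := ⟨d - g, by omega⟩
  have key : ∀ F : List (Fin k) → List Bool → ℝ, E2 k a (m + d) F =
      E2 k a g (fun X1 b1 => E2 k a m (fun Xm bm => E2 k a j (fun X2 b2 =>
        F (X1 ++ (Xm ++ X2)) (b1 ++ (bm ++ b2))))) := by
    intro F
    rw [show m + d = g + (m + j) by omega, E2_append]
    apply E2_congr
    intro X1 b1 _ _
    rw [E2_append]
  rw [key]
  calc E2 k a g (fun X1 b1 => E2 k a m (fun Xm bm => E2 k a j (fun X2 b2 =>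
        ind (lm (rh (X1 ++ (Xm ++ X2)) Y) (bs (b1 ++ (bm ++ b2))) (m + d) = g + m ∧
          A (((X1 ++ (Xm ++ X2)).drop g).take m) (((b1 ++ (bm ++ b2)).drop g).take m)))))
      ≤ E2 k a g (fun X1 b1 => E2 k a m (fun Xm bm => E2 k a j (fun X2 b2 =>
        ind (A Xm bm) * ltlG k Y d g (X1 ++ X2) (b1 ++ b2) (bm.count true)))) := by
        apply E2_mono hk h0 h1
        intro X1 b1 hX1 hb1
        apply E2_mono hk h0 h1
        intro Xm bm hXm hbm
        apply E2_mono hk h0 h1
        intro X2 b2 hX2 hb2
        exact ltl_point k Y m d g j hj A X1 Xm X2 b1 bm b2 hX1 hb1 hXm hbm hX2 hb2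
    _ = E2 k a m (fun Xm bm => E2 k a g (fun X1 b1 => E2 k a j (fun X2 b2 =>
        ind (A Xm bm) * ltlG k Y d g (X1 ++ X2) (b1 ++ b2) (bm.count true)))) :=
        ltl_E2_comm k a g m (fun X1 b1 Xm bm => E2 k a j (fun X2 b2 =>
        ind (A Xm bm) * ltlG k Y d g (X1 ++ X2) (b1 ++ b2) (bm.count true)))
    _ = E2 k a m (fun Xm bm => ind (A Xm bm) *
        E2 k a d (fun X b => ltlG k Y d g X b (bm.count true))) := by
        apply E2_congr
        intro Xm bm _ _
        have e : E2 k a d (fun X b => ltlG k Y d g X b (bm.count true)) =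
            E2 k a g (fun X1 b1 => E2 k a j (fun X2 b2 =>
              ltlG k Y d g (X1 ++ X2) (b1 ++ b2) (bm.count true))) := by
          have := E2_append (k := k) (a := a) g j
            (fun X b => ltlG k Y d g X b (bm.count true))
          rw [← hj] at this
          exact this
        rw [e, ← E2_mul_left]
        apply E2_congr
        intro X1 b1 _ _
        rw [E2_mul_left]

theorem ltl (k : ℕ) (hk : 0 < k) (a : ℝ) (h0 : 0 ≤ a) (h1 : a ≤ 1) (Y : List (Fin k))
    (m n : ℕ) (hmn : m ≤ n) (A : List (Fin k) → List Bool → Prop) :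
    E2 k a n (fun X b => ind (m ≤ lm (rh X Y) (bs b) n ∧
        A ((X.drop (lm (rh X Y) (bs b) n - m)).take m)
          ((b.drop (lm (rh X Y) (bs b) n - m)).take m))) ≤
      E2 k a m (fun X b => ((b.count true : ℝ) + 1) * ind (A X b)) := by
  classical
  obtain ⟨d, rfl⟩ : ∃ d, n = m + d := ⟨n - m, by omega⟩
  calc E2 k a (m + d) (fun X b => ind (m ≤ lm (rh X Y) (bs b) (m + d) ∧
        A ((X.drop (lm (rh X Y) (bs b) (m + d) - m)).take m)
          ((b.drop (lm (rh X Y) (bs b) (m + d) - m)).take m)))
      ≤ E2 k a (m + d) (fun X b => ∑ g ∈ range (d + 1),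
        ind (lm (rh X Y) (bs b) (m + d) = g + m ∧
          A ((X.drop g).take m) ((b.drop g).take m))) := by
        apply E2_mono hk h0 h1
        intro X b hX hb
        by_cases h : m ≤ lm (rh X Y) (bs b) (m + d) ∧
          A ((X.drop (lm (rh X Y) (bs b) (m + d) - m)).take m)
            ((b.drop (lm (rh X Y) (bs b) (m + d) - m)).take m)
        · rw [ind_true h]
          have hle := lm_le (rh X Y) (bs b) (m + d)
          have hmem : lm (rh X Y) (bs b) (m + d) - m ∈ range (d + 1) := by
            rw [mem_range]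
            omega
          have hone : (1 : ℝ) = ind (lm (rh X Y) (bs b) (m + d) =
              (lm (rh X Y) (bs b) (m + d) - m) + m ∧
              A ((X.drop (lm (rh X Y) (bs b) (m + d) - m)).take m)
                ((b.drop (lm (rh X Y) (bs b) (m + d) - m)).take m)) :=
            (ind_true ⟨by omega, h.2⟩).symm
          rw [hone]
          exact single_le_sum (f := fun g => ind (lm (rh X Y) (bs b) (m + d) = g + m ∧
            A ((X.drop g).take m) ((b.drop g).take m))) (fun g _ => ind_nonneg _) hmem
        · rw [ind_false h]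
          exact sum_nonneg (fun g _ => ind_nonneg _)
    _ = ∑ g ∈ range (d + 1), E2 k a (m + d) (fun X b =>
        ind (lm (rh X Y) (bs b) (m + d) = g + m ∧
          A ((X.drop g).take m) ((b.drop g).take m))) :=
        E2_sum (m + d) (range (d + 1)) (fun g X b =>
        ind (lm (rh X Y) (bs b) (m + d) = g + m ∧
          A ((X.drop g).take m) ((b.drop g).take m)))
    _ ≤ ∑ g ∈ range (d + 1), E2 k a m (fun Xm bm => ind (A Xm bm) *
        E2 k a d (fun X b => ltlG k Y d g X b (bm.count true))) := by
        apply sum_le_sum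
        intro g hg
        rw [mem_range] at hg
        exact ltl_term k hk a h0 h1 Y m d g (by omega) A
    _ = E2 k a m (fun Xm bm => ind (A Xm bm) *
        E2 k a d (fun X b => ∑ g ∈ range (d + 1), ltlG k Y d g X b (bm.count true))) := by
        rw [← E2_sum m (range (d + 1)) (fun g Xm bm => ind (A Xm bm) *
          E2 k a d (fun X b => ltlG k Y d g X b (bm.count true)))]
        apply E2_congr
        intro Xm bm _ _
        rw [← mul_sum, E2_sum d (range (d + 1)) (fun g X b => ltlG k Y d g X b (bm.count true))]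
    _ ≤ E2 k a m (fun X b => ((b.count true : ℝ) + 1) * ind (A X b)) := by
        apply E2_mono hk h0 h1
        intro Xm bm _ _
        rw [mul_comm]
        apply mul_le_mul_of_nonneg_right _ (ind_nonneg _)
        calc E2 k a d (fun X b => ∑ g ∈ range (d + 1), ltlG k Y d g X b (bm.count true))
            ≤ E2 k a d (fun _ _ => (bm.count true : ℝ) + 1) := by
              apply E2_mono hk h0 h1
              intro X b _ _
              exact ltl_count k Y d X b _
          _ = (bm.count true : ℝ) + 1 := E2_const hk h0 h1 _ _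

end LCSV
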