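import Pool.Agent.LCSV.FarB
import Pool.Agent.LCSV.LTL

/-!
# Probability of a far path, for fixed columns Y

By not_far, Far implies: lm < m1 + m2, or (m1 <= lm and Mx <= Mx (lm - m1) + 1), or m1 + m2 <= lm and the block (Xb, bb) of m1 + m2 rows to the
left of lm is bad: L1 < lcs (Xb.drop m2) (Y.take C) or lcs (Xb.take m2) (Y.take C) < L2 or N0 < bb.count true
(ht (bs b) q - ht (bs b) (q-m) = count of the block). Apply ltl with m = m1 + m2 and bound count + 1 <= m1 + m2 + 1.
-/

namespace LCSV

open Finset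

theorem farP_ht (b : List Bool) (q m : ℕ) (h : m ≤ q) :
    ht (bs b) q = ht (bs b) (q - m) + ((b.drop (q - m)).take m).count true := by
  rw [ht_bs, ht_bs, ← List.count_append, ← List.take_add]
  congr 2
  omega

theorem farP_point {k : ℕ} (Y : List (Fin k)) (n C m1 m2 L1 L2 N0 : ℕ) (h : L1 + N0 + 1 < L2)
    (X : List (Fin k)) (b : List Bool) :
    ind (Far X Y (bs b) n C) ≤
      ind (lm (rh X Y) (bs b) n < m1 + m2) +
      ind (m1 ≤ lm (rh X Y) (bs b) n ∧
        Mx (rh X Y) (bs b) n ≤ Mx (rh X Y) (bs b) (lm (rh X Y) (bs b) n - m1) + 1) +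
      ind (m1 + m2 ≤ lm (rh X Y) (bs b) n ∧
        (fun (Xb : List (Fin k)) (bb : List Bool) => L1 < lcs (Xb.drop m2) (Y.take C) ∨
          lcs (Xb.take m2) (Y.take C) < L2 ∨ N0 < bb.count true)
        ((X.drop (lm (rh X Y) (bs b) n - (m1 + m2))).take (m1 + m2))
        ((b.drop (lm (rh X Y) (bs b) n - (m1 + m2))).take (m1 + m2))) := by
  by_cases hF : Far X Y (bs b) n C
  · by_cases h1 : lm (rh X Y) (bs b) n < m1 + m2
    · rw [ind_true h1]
      have := ind_le_one (Far X Y (bs b) n C)
      refine this.trans ?_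
      rw [add_assoc]
      exact le_add_of_nonneg_right (add_nonneg (ind_nonneg _) (ind_nonneg _))
    · by_cases h2 : m1 ≤ lm (rh X Y) (bs b) n ∧
        Mx (rh X Y) (bs b) n ≤ Mx (rh X Y) (bs b) (lm (rh X Y) (bs b) n - m1) + 1
      · rw [ind_true h2]
        have := ind_le_one (Far X Y (bs b) n C)
        refine this.trans ?_
        have h3 := ind_nonneg (lm (rh X Y) (bs b) n < m1 + m2)
        have h4 := ind_nonneg (m1 + m2 ≤ lm (rh X Y) (bs b) n ∧
          (fun (Xb : List (Fin k)) (bb : List Bool) => L1 < lcs (Xb.drop m2) (Y.take C) ∨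
            lcs (Xb.take m2) (Y.take C) < L2 ∨ N0 < bb.count true)
          ((X.drop (lm (rh X Y) (bs b) n - (m1 + m2))).take (m1 + m2))
          ((b.drop (lm (rh X Y) (bs b) n - (m1 + m2))).take (m1 + m2)))
        linarith
      · have h3 : m1 + m2 ≤ lm (rh X Y) (bs b) n ∧
          (fun (Xb : List (Fin k)) (bb : List Bool) => L1 < lcs (Xb.drop m2) (Y.take C) ∨
            lcs (Xb.take m2) (Y.take C) < L2 ∨ N0 < bb.count true)
          ((X.drop (lm (rh X Y) (bs b) n - (m1 + m2))).take (m1 + m2))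
          ((b.drop (lm (rh X Y) (bs b) n - (m1 + m2))).take (m1 + m2)) := by
          refine ⟨by omega, ?_⟩
          by_contra hc
          change ¬ (L1 < lcs (((X.drop (lm (rh X Y) (bs b) n - (m1 + m2))).take
              (m1 + m2)).drop m2) (Y.take C) ∨
            lcs (((X.drop (lm (rh X Y) (bs b) n - (m1 + m2))).take
              (m1 + m2)).take m2) (Y.take C) < L2 ∨
            N0 < ((b.drop (lm (rh X Y) (bs b) n - (m1 + m2))).take (m1 + m2)).count true) at hc
          push Not at hc
          obtain ⟨c1, c2, c3⟩ := hc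
          refine not_far X Y (bs b) n C m1 m2 L1 L2 N0 (by omega) ?_ ?_ ?_ ?_ h hF
          · by_contra h4
            exact h2 ⟨by omega, by omega⟩
          · rw [List.drop_take, List.drop_drop] at c1
            rw [show lm (rh X Y) (bs b) n - (m1 + m2) + m2 = lm (rh X Y) (bs b) n - m1 by omega,
              show m1 + m2 - m2 = m1 by omega] at c1
            exact c1
          · rw [List.take_take, show min m2 (m1 + m2) = m2 by omega] at c2
            exact c2
          · rw [farP_ht b (lm (rh X Y) (bs b) n) (m1 + m2) (by omega)]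
            omega
        rw [ind_true h3]
        have := ind_le_one (Far X Y (bs b) n C)
        refine this.trans ?_
        exact le_add_of_nonneg_left (add_nonneg (ind_nonneg _) (ind_nonneg _))
  · rw [ind_false hF]
    exact add_nonneg (add_nonneg (ind_nonneg _) (ind_nonneg _)) (ind_nonneg _)

theorem farP (k : ℕ) (hk : 0 < k) (a : ℝ) (h0 : 0 ≤ a) (h1 : a ≤ 1) (Y : List (Fin k))
    (n C m1 m2 L1 L2 N0 : ℕ) (h : L1 + N0 + 1 < L2) (hmn : m1 + m2 ≤ n) :
    E2 k a n (fun X b => ind (Far X Y (bs b) n C)) ≤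
      E2 k a n (fun X b => ind (lm (rh X Y) (bs b) n < m1 + m2)) +
      E2 k a n (fun X b => ind (m1 ≤ lm (rh X Y) (bs b) n ∧
        Mx (rh X Y) (bs b) n ≤ Mx (rh X Y) (bs b) (lm (rh X Y) (bs b) n - m1) + 1)) +
      ((m1 : ℝ) + m2 + 1) * E2 k a (m1 + m2) (fun X b =>
        ind (L1 < lcs (X.drop m2) (Y.take C)) + ind (lcs (X.take m2) (Y.take C) < L2) +
          ind (N0 < b.count true)) := by
  have s1 := E2_mono (k := k) (a := a) hk h0 h1 (n := n)
    (F := fun X b => ind (Far X Y (bs b) n C)) (fun X b _ _ =>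
      farP_point Y n C m1 m2 L1 L2 N0 h X b)
  rw [E2_add n (fun X b => ind (lm (rh X Y) (bs b) n < m1 + m2) +
      ind (m1 ≤ lm (rh X Y) (bs b) n ∧
        Mx (rh X Y) (bs b) n ≤ Mx (rh X Y) (bs b) (lm (rh X Y) (bs b) n - m1) + 1)),
    E2_add n (fun X b => ind (lm (rh X Y) (bs b) n < m1 + m2))] at s1
  have s2 := ltl k hk a h0 h1 Y (m1 + m2) n hmn
    (fun (Xb : List (Fin k)) (bb : List Bool) => L1 < lcs (Xb.drop m2) (Y.take C) ∨
          lcs (Xb.take m2) (Y.take C) < L2 ∨ N0 < bb.count true)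
  have s3 : E2 k a (m1 + m2) (fun X b => ((b.count true : ℝ) + 1) *
      ind ((fun (Xb : List (Fin k)) (bb : List Bool) => L1 < lcs (Xb.drop m2) (Y.take C) ∨
          lcs (Xb.take m2) (Y.take C) < L2 ∨ N0 < bb.count true) X b)) ≤
      E2 k a (m1 + m2) (fun X b => ((m1 : ℝ) + m2 + 1) *
        (ind (L1 < lcs (X.drop m2) (Y.take C)) + ind (lcs (X.take m2) (Y.take C) < L2) +
          ind (N0 < b.count true))) := by
    refine E2_mono hk h0 h1 (fun X b _ hb => ?_)
    have t1 : (b.count true : ℝ) ≤ (m1 : ℝ) + m2 := by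
      have : b.count true ≤ m1 + m2 := by
        rw [← hb]
        exact List.count_le_length
      exact_mod_cast this
    have t2 : ind (L1 < lcs (X.drop m2) (Y.take C) ∨
          lcs (X.take m2) (Y.take C) < L2 ∨ N0 < b.count true) ≤
        ind (L1 < lcs (X.drop m2) (Y.take C)) + ind (lcs (X.take m2) (Y.take C) < L2) +
          ind (N0 < b.count true) := by
      refine (ind_or_le _ _).trans ?_
      rw [add_assoc]
      exact add_le_add le_rfl (ind_or_le _ _)
    exact mul_le_mul (by linarith) t2 (ind_nonneg _) (by positivity)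
  rw [E2_mul_left] at s3
  exact s1.trans (add_le_add le_rfl (s2.trans s3))

end LCSV
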