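import Pool.Agent.LCSV.ELb
import Pool.Agent.LCSV.Exa
import Pool.Agent.LCSV.Lcs

/-!
# First moment bound for lcs of random words

E_sublistsLen: EL mu n (fun X => ((X.sublistsLen t).map F).sum) = (n.choose t) * EL mu t F (induction on n and t,
List.sublistsLen_succ_cons; the added letter contributes sum over x of mu x F (x :: .)).
If t <= lcs X Y there is a common sublist u of length t, u in sublistsLen t X and in sublistsLen t Y, so
ind (t <= lcs X Y) <= sum over u in X.sublistsLen t, v in Y.sublistsLen t of ind (u = v). Taking expectations:
(n.choose t)(m.choose t) P(u = v) with u, v independent uniform lists of length t, P = k^(-t).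
-/

namespace LCSV

open Finset

theorem E_sublistsLen {β : Type*} [Fintype β] {mu : β → ℝ} (hmu : IsP mu) (n t : ℕ)
    (F : List β → ℝ) :
    EL mu n (fun X => ((X.sublistsLen t).map F).sum) = (n.choose t : ℝ) * EL mu t F := by
  induction n generalizing t F with
  | zero =>
    cases t with
    | zero => simp [EL]
    | succ t => simp [EL]
  | succ n ih =>
    cases t with
    | zero =>
      have h1 : EL mu (n + 1) (fun X : List β => ((X.sublistsLen 0).map F).sum) =
          EL mu (n + 1) (fun _ => F []) := by
        apply EL_congr
        intro l _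
        simp
      rw [h1, EL_const hmu]
      simp [EL]
    | succ t =>
      have h1 : ∀ x : β, EL mu n (fun l => (((x :: l).sublistsLen (t + 1)).map F).sum) =
          (n.choose (t + 1) : ℝ) * EL mu (t + 1) F + (n.choose t : ℝ) * EL mu t (fun l => F (x :: l)) := by
        intro x
        rw [← ih, ← ih, ← EL_add]
        apply EL_congr
        intro l _
        rw [List.sublistsLen_succ_cons, List.map_append, List.sum_append, List.map_map]
        rfl
      have h2 : EL mu (n + 1) (fun X : List β => ((X.sublistsLen (t + 1)).map F).sum) =
          ∑ x, mu x * EL mu n (fun l => (((x :: l).sublistsLen (t + 1)).map F).sum) := rfl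
      rw [h2]
      have h3 : EL mu (t + 1) F = ∑ x, mu x * EL mu t (fun l => F (x :: l)) := rfl
      have h4 : ∀ x ∈ (Finset.univ : Finset β), mu x * EL mu n (fun l => (((x :: l).sublistsLen (t + 1)).map F).sum) =
          (n.choose (t + 1) : ℝ) * EL mu (t + 1) F * mu x +
            (n.choose t : ℝ) * (mu x * EL mu t (fun l => F (x :: l))) := by
        intro x _
        rw [h1]
        ring
      rw [Finset.sum_congr rfl h4, Finset.sum_add_distrib, ← Finset.mul_sum, ← Finset.mul_sum, hmu.sum_one,
        ← h3, Nat.choose_succ_succ]
      push_cast
      ring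

theorem Fr1_listsum {β γ : Type*} [Fintype β] {mu : β → ℝ} (hmu : IsP mu) (m : ℕ) (l : List γ)
    (G : γ → List β → ℝ) :
    EL mu m (fun Y => (l.map (fun u => G u Y)).sum) = (l.map (fun u => EL mu m (G u))).sum := by
  induction l with
  | nil => simp [EL_const hmu]
  | cons a l ih =>
    simp only [List.map_cons, List.sum_cons]
    rw [EL_add, ih]

theorem Fr1_eq (k : ℕ) (hk : 0 < k) (t : ℕ) : ∀ u : List (Fin k), u.length = t →
    EL (un k) t (fun v => ind (u = v)) = 1 / (k : ℝ) ^ t := by
  induction t with
  | zero =>
    intro u hu
    have : u = [] := List.length_eq_zero_iff.1 hu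
    subst this
    simp [EL, ind]
  | succ t ih =>
    intro u hu
    cases u with
    | nil => simp at hu
    | cons a u =>
      have h1 : EL (un k) (t + 1) (fun v => ind (a :: u = v)) =
          ∑ x, un k x * EL (un k) t (fun v => ind (a :: u = x :: v)) := rfl
      rw [h1, Finset.sum_eq_single a]
      · have h2 : (fun v : List (Fin k) => ind (a :: u = a :: v)) = fun v => ind (u = v) := by
          funext v
          unfold ind
          simp
        rw [h2, ih u (by simpa using hu)]
        unfold un
        rw [pow_succ]
        field_simp
      · intro x _ hx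
        have h2 : (fun v : List (Fin k) => ind (a :: u = x :: v)) = fun _ => 0 := by
          funext v
          unfold ind
          rw [if_neg]
          intro h
          exact hx (List.cons.inj h).1.symm
        rw [h2, EL_const (un_isP hk)]
        simp
      · intro h
        exact absurd (Finset.mem_univ a) h

theorem fr1 (k : ℕ) (hk : 0 < k) (n m t : ℕ) :
    EL (un k) n (fun X => EL (un k) m (fun Y => ind (t ≤ lcs X Y))) ≤
      (n.choose t : ℝ) * (m.choose t : ℝ) / (k : ℝ) ^ t := by
  classical
  have hP := un_isP hk
  have hnn : ∀ p : Prop, 0 ≤ ind p := by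
    intro p
    unfold ind
    split_ifs <;> norm_num
  have h1 : ∀ X Y : List (Fin k), ind (t ≤ lcs X Y) ≤
      ((X.sublistsLen t).map (fun u => ((Y.sublistsLen t).map (fun v => ind (u = v))).sum)).sum := by
    intro X Y
    have hnn2 : ∀ u : List (Fin k), 0 ≤ ((Y.sublistsLen t).map (fun v => ind (u = v))).sum := by
      intro u
      apply List.sum_nonneg
      intro x hx
      rw [List.mem_map] at hx
      obtain ⟨v, _, rfl⟩ := hx
      exact hnn _
    by_cases h : t ≤ lcs X Y
    · obtain ⟨s, hs1, hs2, hs3⟩ := exists_lcs X Y
      have ht : (s.take t).length = t := by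
        rw [List.length_take]; omega
      have ha : s.take t ∈ X.sublistsLen t :=
        List.mem_sublistsLen.2 ⟨(List.take_sublist t s).trans hs1, ht⟩
      have hb : s.take t ∈ Y.sublistsLen t :=
        List.mem_sublistsLen.2 ⟨(List.take_sublist t s).trans hs2, ht⟩
      have hc : ind (t ≤ lcs X Y) = 1 := by
        unfold ind; rw [if_pos h]
      rw [hc]
      have hd : (1 : ℝ) ≤ ((Y.sublistsLen t).map (fun v => ind (s.take t = v))).sum := by
        have he : ind (s.take t = s.take t) = 1 := by unfold ind; simp
        rw [← he]
        apply List.single_le_sum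
        · intro x hx
          rw [List.mem_map] at hx
          obtain ⟨v, _, rfl⟩ := hx
          exact hnn _
        · rw [List.mem_map]
          exact ⟨s.take t, hb, rfl⟩
      refine hd.trans ?_
      apply List.single_le_sum
      · intro x hx
        rw [List.mem_map] at hx
        obtain ⟨v, _, rfl⟩ := hx
        exact hnn2 _
      · rw [List.mem_map]
        exact ⟨s.take t, ha, rfl⟩
    · have hc : ind (t ≤ lcs X Y) = 0 := by
        unfold ind; rw [if_neg h]
      rw [hc]
      apply List.sum_nonneg
      intro x hx
      rw [List.mem_map] at hx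
      obtain ⟨v, _, rfl⟩ := hx
      exact hnn2 _
  calc EL (un k) n (fun X => EL (un k) m (fun Y => ind (t ≤ lcs X Y)))
      ≤ EL (un k) n (fun X => EL (un k) m (fun Y =>
        ((X.sublistsLen t).map (fun u => ((Y.sublistsLen t).map (fun v => ind (u = v))).sum)).sum)) := by
        apply EL_mono hP
        intro X _
        apply EL_mono hP
        intro Y _
        exact h1 X Y
    _ = EL (un k) n (fun X => ((X.sublistsLen t).map (fun u =>
        (m.choose t : ℝ) * EL (un k) t (fun v => ind (u = v)))).sum) := by
        apply EL_congr
        intro X _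
        rw [Fr1_listsum hP]
        congr 2
        funext u
        exact E_sublistsLen hP m t _
    _ = (n.choose t : ℝ) * EL (un k) t (fun u => (m.choose t : ℝ) * EL (un k) t (fun v => ind (u = v))) :=
        E_sublistsLen hP n t _
    _ = (n.choose t : ℝ) * EL (un k) t (fun _ => (m.choose t : ℝ) * (1 / (k : ℝ) ^ t)) := by
        congr 1
        apply EL_congr
        intro u hu
        rw [Fr1_eq k hk t u hu]
    _ = (n.choose t : ℝ) * (m.choose t : ℝ) / (k : ℝ) ^ t := by
        rw [EL_const hP]
        ring

end LCSV
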