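import Pool.Agent.LCSV.Box
import Pool.Agent.LCSV.LcsA

/-!
# Diagonal boxes: lower tail of lcs

Induction on B: E exp(- lcs X Y) over words of lengths B r, B c is at most ((1 + exp(-1))/2)^B: (B+1) r = r + B r (EL_append),
lcs (X1 ++ X2) (Y1 ++ Y2) >= lcs X1 Y1 + lcs X2 Y2, E exp(- lcs X1 Y1) <= P(lcs = 0) + exp(-1) P(lcs >= 1) <= (1 + exp(-1))/2 by box.
Markov: ind (4 lcs < B) <= exp(B/4) exp(-lcs), and exp(1/4) (1 + exp(-1))/2 <= 9/10 (1.2841 * 0.68394 = 0.8783).
-/

namespace LCSV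

open Finset

namespace Fr2Aux

theorem one (k : ℕ) (hk : 0 < k) (r c : ℕ) (h : k ≤ r * c) :
    EL (un k) r (fun X => EL (un k) c (fun Y => Real.exp (-(lcs X Y : ℝ)))) ≤
      (1 + Real.exp (-1)) / 2 := by
  have hP := un_isP hk
  have h1 : EL (un k) r (fun X => EL (un k) c (fun Y => Real.exp (-(lcs X Y : ℝ)))) ≤
      EL (un k) r (fun X => EL (un k) c (fun Y =>
        Real.exp (-1) + (1 - Real.exp (-1)) * ind (lcs X Y = 0))) := by
    refine EL_mono hP fun X _ => EL_mono hP fun Y _ => ?_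
    by_cases h0 : lcs X Y = 0
    · simp [ind, h0]
    · have h2 : (1 : ℝ) ≤ lcs X Y := by exact_mod_cast Nat.one_le_iff_ne_zero.2 h0
      simp only [ind, h0, if_false, mul_zero, add_zero]
      exact Real.exp_le_exp.2 (by linarith)
  have h2 : EL (un k) r (fun X => EL (un k) c (fun Y =>
        Real.exp (-1) + (1 - Real.exp (-1)) * ind (lcs X Y = 0))) =
      Real.exp (-1) + (1 - Real.exp (-1)) *
        EL (un k) r (fun X => EL (un k) c (fun Y => ind (lcs X Y = 0))) := by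
    rw [← EL_mul_left]
    have h3 : EL (un k) r (fun _ => Real.exp (-1)) = Real.exp (-1) := EL_const hP _ _
    rw [← h3, ← EL_add, h3]
    refine EL_congr fun X _ => ?_
    rw [← EL_mul_left]
    have h4 : EL (un k) c (fun _ => Real.exp (-1)) = Real.exp (-1) := EL_const hP _ _
    rw [← h4, ← EL_add, h4]
  have h3 := box k hk r c h
  have h4 : Real.exp (-1) ≤ 1 := Real.exp_le_one_iff.2 (by norm_num)
  have h5 := mul_le_mul_of_nonneg_left h3 (sub_nonneg.2 h4)
  rw [h2] at h1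
  linarith

theorem all (k : ℕ) (hk : 0 < k) (r c : ℕ) (h : k ≤ r * c) (B : ℕ) :
    EL (un k) (B * r) (fun X => EL (un k) (B * c) (fun Y => Real.exp (-(lcs X Y : ℝ)))) ≤
      ((1 + Real.exp (-1)) / 2) ^ B := by
  have hP := un_isP hk
  induction B with
  | zero =>
    rw [Nat.zero_mul, Nat.zero_mul]
    show Real.exp (-(lcs [] [] : ℝ)) ≤ _
    rw [lcs_nil_left]
    simp
  | succ B ih =>
    have e1 : (B + 1) * r = r + B * r := by ring
    have e2 : (B + 1) * c = c + B * c := by ring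
    rw [e1, e2, EL_append]
    set GB : ℝ := EL (un k) (B * r) (fun X => EL (un k) (B * c)
      (fun Y => Real.exp (-(lcs X Y : ℝ)))) with hGB
    have h1 : EL (un k) r (fun X1 => EL (un k) (B * r) (fun X2 => EL (un k) (c + B * c)
        (fun Y => Real.exp (-(lcs (X1 ++ X2) Y : ℝ))))) ≤
        EL (un k) r (fun X1 => EL (un k) (B * r) (fun X2 =>
          EL (un k) c (fun Y1 => Real.exp (-(lcs X1 Y1 : ℝ))) *
          EL (un k) (B * c) (fun Y2 => Real.exp (-(lcs X2 Y2 : ℝ))))) := by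
      refine EL_mono hP fun X1 _ => EL_mono hP fun X2 _ => ?_
      rw [EL_append, ← EL_mul_right]
      refine EL_mono hP fun Y1 _ => ?_
      rw [← EL_mul_left]
      refine EL_mono hP fun Y2 _ => ?_
      rw [← Real.exp_add]
      refine Real.exp_le_exp.2 ?_
      have h2 : ((lcs X1 Y1 + lcs X2 Y2 : ℕ) : ℝ) ≤ (lcs (X1 ++ X2) (Y1 ++ Y2) : ℕ) := by
        exact_mod_cast lcs_append_ge X1 X2 Y1 Y2
      push_cast at h2
      linarith
    refine h1.trans ?_
    have h3 : EL (un k) r (fun X1 => EL (un k) (B * r) (fun X2 =>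
          EL (un k) c (fun Y1 => Real.exp (-(lcs X1 Y1 : ℝ))) *
          EL (un k) (B * c) (fun Y2 => Real.exp (-(lcs X2 Y2 : ℝ))))) =
        EL (un k) r (fun X1 => EL (un k) c (fun Y1 => Real.exp (-(lcs X1 Y1 : ℝ)))) * GB := by
      rw [← EL_mul_right]
      refine EL_congr fun X1 _ => ?_
      rw [EL_mul_left]
    rw [h3, pow_succ, mul_comm]
    have h4 := one k hk r c h
    have h5 : 0 ≤ EL (un k) r (fun X1 => EL (un k) c (fun Y1 => Real.exp (-(lcs X1 Y1 : ℝ)))) :=
      EL_nonneg hP fun X1 _ => EL_nonneg hP fun Y1 _ => (Real.exp_pos _).le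
    have h6 : 0 ≤ ((1 + Real.exp (-1)) / 2) ^ B := by positivity
    exact mul_le_mul ih h4 h5 h6

theorem num : Real.exp (1 / 4) * ((1 + Real.exp (-1)) / 2) ≤ 9 / 10 := by
  have h1 : Real.exp (1 / 4) ≤ 1.285 := by
    have h2 : Real.exp (1 / 4) ^ 4 ≤ (1.285 : ℝ) ^ 4 := by
      rw [← Real.exp_nat_mul]
      have h3 : ((4 : ℕ) : ℝ) * (1 / 4) = 1 := by norm_num
      rw [h3]
      have h4 := Real.exp_one_lt_d9
      norm_num at h4 ⊢
      linarith
    exact le_of_pow_le_pow_left₀ (by norm_num) (by norm_num) h2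
  have h2 : Real.exp (-1) ≤ 0.368 := by
    rw [Real.exp_neg, inv_le_comm₀ (Real.exp_pos _) (by norm_num)]
    have h4 := Real.exp_one_gt_d9
    norm_num at h4 ⊢
    linarith
  have h3 : (1 + Real.exp (-1)) / 2 ≤ 0.684 := by linarith
  have h4 : 0 ≤ (1 + Real.exp (-1)) / 2 := by positivity
  calc Real.exp (1 / 4) * ((1 + Real.exp (-1)) / 2) ≤ 1.285 * 0.684 :=
        mul_le_mul h1 h3 h4 (by norm_num)
    _ ≤ 9 / 10 := by norm_num

end Fr2Aux

theorem fr2 (k : ℕ) (hk : 0 < k) (r c B : ℕ) (h : k ≤ r * c) :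
    EL (un k) (B * r) (fun X => EL (un k) (B * c) (fun Y => ind (4 * lcs X Y < B))) ≤
      (9 / 10 : ℝ) ^ B := by
  have hP := un_isP hk
  have h1 : EL (un k) (B * r) (fun X => EL (un k) (B * c) (fun Y => ind (4 * lcs X Y < B))) ≤
      EL (un k) (B * r) (fun X => EL (un k) (B * c) (fun Y =>
        Real.exp (1 / 4) ^ B * Real.exp (-(lcs X Y : ℝ)))) := by
    refine EL_mono hP fun X _ => EL_mono hP fun Y _ => ?_
    by_cases h0 : 4 * lcs X Y < B
    · simp only [ind, h0, if_true]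
      rw [← Real.exp_nat_mul, ← Real.exp_add]
      refine Real.one_le_exp ?_
      have h2 : ((4 * lcs X Y : ℕ) : ℝ) < B := by exact_mod_cast h0
      push_cast at h2
      linarith
    · simp only [ind, h0, if_false]
      positivity
  have h2 : EL (un k) (B * r) (fun X => EL (un k) (B * c) (fun Y =>
        Real.exp (1 / 4) ^ B * Real.exp (-(lcs X Y : ℝ)))) =
      Real.exp (1 / 4) ^ B * EL (un k) (B * r) (fun X => EL (un k) (B * c) (fun Y =>
        Real.exp (-(lcs X Y : ℝ)))) := by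
    rw [← EL_mul_left]
    refine EL_congr fun X _ => ?_
    rw [EL_mul_left]
  rw [h2] at h1
  refine h1.trans ?_
  have h3 := Fr2Aux.all k hk r c h B
  have h4 : 0 ≤ Real.exp (1 / 4) ^ B := by positivity
  refine (mul_le_mul_of_nonneg_left h3 h4).trans ?_
  rw [← mul_pow]
  exact pow_le_pow_left₀ (by positivity) Fr2Aux.num B

end LCSV
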