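import Pool.Agent.LCSV.ELb
import Pool.Agent.LCSV.Exa

/-!
# Upper tail of the binomial distribution (crude)

ind (N <= count) <= exp(count - N); E exp(count) = (1 + a (e - 1))^m <= exp(a (e-1) m) <= exp(2 a m) by induction on m.
-/

namespace LCSV

open Finset

theorem Fr3_exp (a : ℝ) (m : ℕ) :
    EL (be a) m (fun b => Real.exp (b.count true : ℕ)) = (a * Real.exp 1 + (1 - a)) ^ m := by
  induction m with
  | zero =>
    show Real.exp (([] : List Bool).count true : ℕ) = _
    simp
  | succ m ih =>
    show ∑ x, be a x * EL (be a) m (fun l => Real.exp ((x :: l).count true : ℕ)) = _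
    rw [Fintype.sum_bool]
    have h1 : (fun l : List Bool => Real.exp ((true :: l).count true : ℕ)) =
        fun l => Real.exp 1 * Real.exp (l.count true : ℕ) := by
      funext l
      rw [List.count_cons_self, ← Real.exp_add]
      push_cast
      congr 1
      ring
    have h2 : (fun l : List Bool => Real.exp ((false :: l).count true : ℕ)) =
        fun l => Real.exp (l.count true : ℕ) := by
      funext l
      rw [List.count_cons_of_ne (by decide)]
    rw [h1, h2, EL_mul_left, ih]
    have h3 : be a true = a := by simp [be]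
    have h4 : be a false = 1 - a := by simp [be]
    rw [h3, h4]
    ring

theorem fr3 (a : ℝ) (h0 : 0 ≤ a) (h1 : a ≤ 1) (m N : ℕ) :
    EL (be a) m (fun b => ind (N ≤ b.count true)) ≤ Real.exp (2 * a * m - N) := by
  have hm : EL (be a) m (fun b => ind (N ≤ b.count true)) ≤
      EL (be a) m (fun b => Real.exp (-(N : ℝ)) * Real.exp (b.count true : ℕ)) := by
    apply EL_mono (be_isP h0 h1)
    intro b _
    rw [← Real.exp_add]
    by_cases h : N ≤ b.count true
    · rw [ind_true h]
      have h' : (N : ℝ) ≤ (b.count true : ℕ) := by exact_mod_cast h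
      exact Real.one_le_exp (by linarith)
    · rw [ind_false h]
      exact (Real.exp_pos _).le
  rw [EL_mul_left, Fr3_exp] at hm
  refine hm.trans ?_
  have he : Real.exp 1 ≤ 3 := by
    have := Real.exp_one_lt_d9
    linarith
  have h2 : a * Real.exp 1 + (1 - a) ≤ Real.exp (2 * a) := by
    have h3 := Real.add_one_le_exp (2 * a)
    nlinarith
  have h4 : 0 ≤ a * Real.exp 1 + (1 - a) := by
    have := mul_nonneg h0 (Real.exp_pos 1).le
    linarith
  have h5 : (a * Real.exp 1 + (1 - a)) ^ m ≤ Real.exp (2 * a) ^ m := pow_le_pow_left₀ h4 h2 m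
  rw [← Real.exp_nat_mul] at h5
  calc Real.exp (-(N : ℝ)) * (a * Real.exp 1 + (1 - a)) ^ m
      ≤ Real.exp (-(N : ℝ)) * Real.exp (m * (2 * a)) :=
        mul_le_mul_of_nonneg_left h5 (Real.exp_pos _).le
    _ = Real.exp (2 * a * m - N) := by
        rw [← Real.exp_add]
        congr 1
        ring

end LCSV
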