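import Pool.Agent.LCSV.Core

/-!
# Choice of the parameters for the far path (numerical)

z = Nat.sqrt k / 12800, m1 = z^2 / 10000, m2 = 11 z^2, C = k / 10, L1 = z / 20, L2 = z / 4, N0 = z / 8, c = k / (11 z) + 1 (natural
divisions), k large. 12800 z <= sqrt k < 12800 (z + 1) + 1.
(1) L1 + N0 + 1 < L2 for z >= 40.
(2) k <= (11 z) c and z c <= C : z (k/(11 z) + 1) <= k/11 + z <= k/10 - 1.
(3) t = L1 + 1 >= z/20 : choose(m1, t) choose(C, t) / k^t <= (m1 C / k)^t / (t!)^2 <= (z^2/100000)^t (3/t)^(2t) <= (9 * 400/100000)^t <= (1/20)^t <= (1/20)^(z/20)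
(choose(n,t) <= n^t/t!, t! >= (t/3)^t).
(4) 2 a (m1 + m2) - (N0 + 1) <= (80/sqrt k)(11 z^2 + z^2/10000) - z/8 <= 0.0688 z - 0.125 z <= - z/20.
(5) a m1 >= (1/(40 sqrt k)) (z^2/10000 - 1) tends to infinity.
(6) (m1 + m2 + 1) ((1/20)^(z/20) + (9/10)^z + exp(-z/20)) tends to 0 (m1 + m2 + 1 <= 13 z^2).
-/

namespace LCSV

open Finset

theorem par_fact (t : ℕ) : ((t : ℝ) / 3) ^ t ≤ (t.factorial : ℝ) := by
  have h1 : (t : ℝ) ^ t / (t.factorial : ℝ) ≤ Real.exp t :=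
    Real.pow_div_factorial_le_exp (t : ℝ) (Nat.cast_nonneg t) t
  have hf : (0 : ℝ) < (t.factorial : ℝ) := by exact_mod_cast Nat.factorial_pos t
  rw [div_le_iff₀ hf] at h1
  have h2 : Real.exp t ≤ 3 ^ t := by
    have : Real.exp (t : ℝ) = Real.exp 1 ^ t := by
      rw [← Real.exp_nat_mul]; simp
    rw [this]
    exact pow_le_pow_left₀ (Real.exp_pos 1).le (by linarith [Real.exp_one_lt_d9]) t
  rw [div_pow, div_le_iff₀ (by positivity)]
  calc (t : ℝ) ^ t ≤ Real.exp t * (t.factorial : ℝ) := h1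
    _ ≤ 3 ^ t * (t.factorial : ℝ) := by gcongr
    _ = (t.factorial : ℝ) * 3 ^ t := by ring

/-- the binomial estimate -/
theorem par_choose (z k m1 C t : ℕ) (hz : 0 < z) (hk : 0 < k) (hm : (m1 : ℝ) ≤ (z : ℝ) ^ 2 / 10000)
    (hC : 10 * C ≤ k) (ht : (z : ℝ) / 20 ≤ t) (htp : 0 < t) :
    (m1.choose t : ℝ) * (C.choose t : ℝ) / (k : ℝ) ^ t ≤ Real.exp (-((z : ℝ) / 20)) := by
  have hz' : (0 : ℝ) < z := by exact_mod_cast hz
  have hk' : (0 : ℝ) < k := by exact_mod_cast hk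
  have ht' : (0 : ℝ) < t := by exact_mod_cast htp
  have hf : (0 : ℝ) < (t.factorial : ℝ) := by exact_mod_cast Nat.factorial_pos t
  have hC' : (C : ℝ) ≤ k / 10 := by
    have : ((10 * C : ℕ) : ℝ) ≤ k := by exact_mod_cast hC
    push_cast at this
    linarith
  have h1 : (m1.choose t : ℝ) ≤ (m1 : ℝ) ^ t / (t.factorial : ℝ) := by
    exact Nat.choose_le_pow_div (α := ℝ) t m1
  have h2 : (C.choose t : ℝ) ≤ (C : ℝ) ^ t / (t.factorial : ℝ) := by
    exact Nat.choose_le_pow_div (α := ℝ) t C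
  have h3 := par_fact t
  have h3' : (0 : ℝ) < ((t : ℝ) / 3) ^ t := by positivity
  have h4 : (m1.choose t : ℝ) ≤ (((z : ℝ) ^ 2 / 10000) / (t / 3)) ^ t := by
    calc (m1.choose t : ℝ) ≤ (m1 : ℝ) ^ t / (t.factorial : ℝ) := h1
      _ ≤ ((z : ℝ) ^ 2 / 10000) ^ t / ((t : ℝ) / 3) ^ t := by gcongr
      _ = (((z : ℝ) ^ 2 / 10000) / (t / 3)) ^ t := by rw [div_pow (( z : ℝ) ^ 2 / 10000)]
  have h5 : (C.choose t : ℝ) ≤ ((k / 10 : ℝ) / (t / 3)) ^ t := by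
    calc (C.choose t : ℝ) ≤ (C : ℝ) ^ t / (t.factorial : ℝ) := h2
      _ ≤ ((k : ℝ) / 10) ^ t / ((t : ℝ) / 3) ^ t := by gcongr
      _ = ((k / 10 : ℝ) / (t / 3)) ^ t := by rw [div_pow ((k : ℝ) / 10)]
  have h6 : (m1.choose t : ℝ) * (C.choose t : ℝ) / (k : ℝ) ^ t ≤
      ((((z : ℝ) ^ 2 / 10000) / (t / 3)) * ((k / 10 : ℝ) / (t / 3)) / k) ^ t := by
    rw [div_pow, mul_pow]
    gcongr
  have h7 : (((z : ℝ) ^ 2 / 10000) / (t / 3)) * ((k / 10 : ℝ) / (t / 3)) / k ≤ 1 / 20 := by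
    have e : (((z : ℝ) ^ 2 / 10000) / (t / 3)) * ((k / 10 : ℝ) / (t / 3)) / k =
        (9 / 100000) * ((z : ℝ) ^ 2 / t ^ 2) := by
      field_simp
      try ring
    rw [e]
    have : (z : ℝ) ^ 2 / t ^ 2 ≤ 400 := by
      rw [div_le_iff₀ (by positivity)]
      have : (z : ℝ) ≤ 20 * t := by linarith
      nlinarith
    linarith
  have h8 : (1 / 20 : ℝ) ≤ Real.exp (-1) := by
    rw [Real.exp_neg]
    rw [one_div]
    apply inv_anti₀ (Real.exp_pos 1)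
    linarith [Real.exp_one_lt_d9]
  calc (m1.choose t : ℝ) * (C.choose t : ℝ) / (k : ℝ) ^ t
      ≤ ((((z : ℝ) ^ 2 / 10000) / (t / 3)) * ((k / 10 : ℝ) / (t / 3)) / k) ^ t := h6
    _ ≤ (Real.exp (-1)) ^ t := by
        apply pow_le_pow_left₀ (by positivity)
        exact h7.trans h8
    _ = Real.exp (-(t : ℝ)) := by rw [← Real.exp_nat_mul]; congr 1; ring
    _ ≤ Real.exp (-((z : ℝ) / 20)) := by
        apply Real.exp_le_exp.mpr
        linarith

/-- everything is small -/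
theorem par_small (z : ℕ) (hz : 0 < z) (δ : ℝ) (hδ : 0 < δ) (h : 1872000 / δ ≤ (z : ℝ)) :
    13 * (z : ℝ) ^ 2 * (3 * Real.exp (-((z : ℝ) / 20))) ≤ δ := by
  have hz' : (0 : ℝ) < z := by exact_mod_cast hz
  have h1 : ((z : ℝ) / 20) ^ 3 / (Nat.factorial 3 : ℝ) ≤ Real.exp ((z : ℝ) / 20) :=
    Real.pow_div_factorial_le_exp ((z : ℝ) / 20) (by positivity) 3
  have h2 : (Nat.factorial 3 : ℝ) = 6 := by norm_num [Nat.factorial]
  rw [h2] at h1
  rw [Real.exp_neg]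
  have hp := Real.exp_pos ((z : ℝ) / 20)
  rw [div_le_iff₀ hδ] at h
  rw [← div_eq_mul_inv, ← mul_div_assoc, div_le_iff₀ hp]
  have h3 : δ * (((z : ℝ) / 20) ^ 3 / 6) ≤ δ * Real.exp ((z : ℝ) / 20) := by gcongr
  have h4 : 13 * (z : ℝ) ^ 2 * 3 ≤ δ * (((z : ℝ) / 20) ^ 3 / 6) := by
    have : δ * (((z : ℝ) / 20) ^ 3 / 6) = (z : ℝ) ^ 2 * ((z : ℝ) * δ) / 48000 := by ring
    rw [this, le_div_iff₀ (by norm_num)]
    have hz2 : (0 : ℝ) ≤ (z : ℝ) ^ 2 := by positivity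
    nlinarith
  linarith

theorem par : ∀ δ A : ℝ, 0 < δ → ∃ k0 : ℕ, ∀ k ≥ k0, ∃ m1 m2 C L1 L2 N0 z c : ℕ,
    L1 + N0 + 1 < L2 ∧ L2 * 4 ≤ z ∧ m2 = z * (11 * z) ∧ k ≤ 11 * z * c ∧ z * c ≤ C ∧ 10 * C ≤ k ∧
    1 ≤ m1 ∧
    (∀ a : ℝ, 1 / (40 * √(k : ℝ)) ≤ a → a ≤ 40 / √(k : ℝ) → A ≤ a * m1 ∧ a ≤ 1 / 2 ∧
      ((m1 : ℝ) + m2 + 1) *
        ((m1.choose (L1 + 1) : ℝ) * (C.choose (L1 + 1) : ℝ) / (k : ℝ) ^ (L1 + 1) +
          (9 / 10 : ℝ) ^ z + Real.exp (2 * a * (m1 + m2) - (N0 + 1))) ≤ δ) := by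
  intro δ A hδ
  obtain ⟨z0, hz0⟩ := exists_nat_ge (max (1872000 / δ) (20480000000 * A))
  have hz0a : 1872000 / δ ≤ (z0 : ℝ) := (le_max_left _ _).trans hz0
  have hz0b : 20480000000 * A ≤ (z0 : ℝ) := (le_max_right _ _).trans hz0
  refine ⟨(12800 * (z0 + 1000)) ^ 2, fun k hk => ?_⟩
  obtain ⟨z, hz⟩ : ∃ z, z = Nat.sqrt k / 12800 := ⟨_, rfl⟩
  have hzge : z0 + 1000 ≤ z := by
    rw [hz, Nat.le_div_iff_mul_le (by norm_num)]
    rw [Nat.le_sqrt']
    calc ((z0 + 1000) * 12800) ^ 2 = (12800 * (z0 + 1000)) ^ 2 := by ring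
      _ ≤ k := hk
  have hz1000 : 1000 ≤ z := by omega
  have hzpos : 0 < z := by omega
  have hs1 : 12800 * z ≤ Nat.sqrt k := by rw [hz]; exact Nat.mul_div_le _ _
  have hs2 : Nat.sqrt k < 12800 * (z + 1) := by
    rw [hz]; exact Nat.lt_mul_div_succ _ (by norm_num)
  have hk1 : (12800 * z) ^ 2 ≤ k := by
    have := Nat.sqrt_le' k
    calc (12800 * z) ^ 2 ≤ (Nat.sqrt k) ^ 2 := Nat.pow_le_pow_left hs1 2
      _ ≤ k := this
  have hk2 : k < (12800 * (z + 1)) ^ 2 := by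
    have h1 := Nat.lt_succ_sqrt' k
    calc k < (Nat.sqrt k + 1) ^ 2 := h1
      _ ≤ (12800 * (z + 1)) ^ 2 := Nat.pow_le_pow_left (by omega) 2
  have hkpos : 0 < k := by
    have : 0 < (12800 * z) ^ 2 := by positivity
    omega
  have hzR : (1000 : ℝ) ≤ z := by exact_mod_cast hz1000
  have hz0R : (z0 : ℝ) ≤ z := by exact_mod_cast (by omega : z0 ≤ z)
  have hzRpos : (0 : ℝ) < z := by linarith
  -- real square root
  have hr1 : 12800 * (z : ℝ) ≤ √(k : ℝ) := by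
    apply Real.le_sqrt_of_sq_le
    exact_mod_cast hk1
  have hr2 : √(k : ℝ) ≤ 12800 * ((z : ℝ) + 1) := by
    apply Real.sqrt_le_iff.mpr
    refine ⟨by positivity, ?_⟩
    exact_mod_cast hk2.le
  have hrpos : 0 < √(k : ℝ) := by nlinarith
  have hm1a : ((z ^ 2 / 10000 : ℕ) : ℝ) ≤ (z : ℝ) ^ 2 / 10000 := by
    have := @Nat.cast_div_le ℝ _ _ _ (z ^ 2) 10000
    push_cast at this
    exact this
  have hm1b : (z : ℝ) ^ 2 / 10000 - 1 ≤ ((z ^ 2 / 10000 : ℕ) : ℝ) := by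
    have h1 : z ^ 2 < 10000 * (z ^ 2 / 10000 + 1) := Nat.lt_mul_div_succ _ (by norm_num)
    have h2 : (z : ℝ) ^ 2 < 10000 * (((z ^ 2 / 10000 : ℕ) : ℝ) + 1) := by exact_mod_cast h1
    linarith
  have hzz : z * z ≥ 1000 * z := Nat.mul_le_mul_right z hz1000
  have hC1 : 10 * (k / 10) ≤ k := Nat.mul_div_le k 10
  refine ⟨z ^ 2 / 10000, z * (11 * z), k / 10, z / 20, z / 4, z / 8, z, k / (11 * z) + 1, ?_, ?_, rfl,
    ?_, ?_, hC1, ?_, ?_⟩
  · omega
  · omega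
  · exact (Nat.lt_mul_div_succ k (by positivity)).le
  · rw [Nat.le_div_iff_mul_le (by norm_num)]
    have h1 : 11 * z * (k / (11 * z)) ≤ k := Nat.mul_div_le k (11 * z)
    have h2 : 110 * z ≤ k := by
      calc 110 * z ≤ 12800 ^ 2 * (z * z) := by nlinarith
        _ = (12800 * z) ^ 2 := by ring
        _ ≤ k := hk1
    have e : z * (k / (11 * z) + 1) * 10 * 11 = 10 * (11 * z * (k / (11 * z))) + 110 * z := by ring
    have h3 : z * (k / (11 * z) + 1) * 10 * 11 ≤ k * 11 := by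
      rw [e]; omega
    exact Nat.le_of_mul_le_mul_right h3 (by norm_num)
  · rw [Nat.one_le_div_iff (by norm_num)]
    nlinarith
  · intro a ha1 ha2
    refine ⟨?_, ?_, ?_⟩
    · -- a m1 large
      have h1 : 0 ≤ (z : ℝ) ^ 2 / 10000 - 1 := by nlinarith
      have h2 : 1 / (40 * (12800 * ((z : ℝ) + 1))) ≤ a := by
        refine le_trans ?_ ha1
        apply one_div_le_one_div_of_le (by positivity)
        linarith
      have h3 : 1 / (40 * (12800 * ((z : ℝ) + 1))) * ((z : ℝ) ^ 2 / 10000 - 1) ≤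
          a * ((z ^ 2 / 10000 : ℕ) : ℝ) := by
        apply mul_le_mul h2 hm1b h1 (le_trans (by positivity) h2)
      refine le_trans ?_ h3
      rw [one_div, inv_mul_eq_div, le_div_iff₀ (by positivity)]
      by_cases hA : 0 ≤ A
      · have h4 : A ≤ (z : ℝ) / 20480000000 := by
          rw [le_div_iff₀ (by norm_num)]; linarith
        calc A * (40 * (12800 * ((z : ℝ) + 1))) ≤ (z : ℝ) / 20480000000 * (40 * (12800 * ((z : ℝ) + 1))) := by
              gcongr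
          _ ≤ (z : ℝ) ^ 2 / 10000 - 1 := by nlinarith
      · push Not at hA
        have : A * (40 * (12800 * ((z : ℝ) + 1))) ≤ 0 := by
          apply mul_nonpos_of_nonpos_of_nonneg hA.le (by positivity)
        linarith
    · refine ha2.trans ?_
      rw [div_le_iff₀ hrpos]
      nlinarith
    · -- the sum
      have ht : (z : ℝ) / 20 ≤ ((z / 20 + 1 : ℕ) : ℝ) := by
        have h1 : z < 20 * (z / 20 + 1) := Nat.lt_mul_div_succ _ (by norm_num)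
        have h2 : (z : ℝ) < 20 * ((z / 20 + 1 : ℕ) : ℝ) := by exact_mod_cast h1
        linarith
      have hN : (z : ℝ) / 8 ≤ ((z / 8 : ℕ) : ℝ) + 1 := by
        have h1 : z < 8 * (z / 8 + 1) := Nat.lt_mul_div_succ _ (by norm_num)
        have h2 : (z : ℝ) < 8 * (((z / 8 : ℕ) : ℝ) + 1) := by exact_mod_cast h1
        linarith
      have hc1 := par_choose z k (z ^ 2 / 10000) (k / 10) (z / 20 + 1) hzpos hkpos hm1a hC1 ht
        (Nat.succ_pos _)
      have hc2 : (9 / 10 : ℝ) ^ z ≤ Real.exp (-((z : ℝ) / 20)) := by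
        have h1 : (9 / 10 : ℝ) ≤ Real.exp (-(1 / 10)) := by
          have := Real.add_one_le_exp (-(1 / 10) : ℝ)
          linarith
        calc (9 / 10 : ℝ) ^ z ≤ (Real.exp (-(1 / 10))) ^ z :=
              pow_le_pow_left₀ (by norm_num) h1 z
          _ = Real.exp (-((z : ℝ) / 10)) := by rw [← Real.exp_nat_mul]; congr 1; ring
          _ ≤ Real.exp (-((z : ℝ) / 20)) := by
              apply Real.exp_le_exp.mpr
              linarith
      have hc3 : Real.exp (2 * a * (((z ^ 2 / 10000 : ℕ) : ℝ) + ((z * (11 * z) : ℕ) : ℝ)) -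
          (((z / 8 : ℕ) : ℝ) + 1)) ≤ Real.exp (-((z : ℝ) / 20)) := by
        apply Real.exp_le_exp.mpr
        have h1 : a ≤ 40 / (12800 * (z : ℝ)) := by
          refine ha2.trans ?_
          apply div_le_div_of_nonneg_left (by norm_num) (by positivity) hr1
        have h2 : ((z ^ 2 / 10000 : ℕ) : ℝ) + ((z * (11 * z) : ℕ) : ℝ) ≤ (11 + 1 / 10000) * (z : ℝ) ^ 2 := by
          push_cast at hm1a ⊢
          linarith
        have h3 : 2 * a * (((z ^ 2 / 10000 : ℕ) : ℝ) + ((z * (11 * z) : ℕ) : ℝ)) ≤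
            2 * (40 / (12800 * (z : ℝ))) * ((11 + 1 / 10000) * (z : ℝ) ^ 2) := by
          gcongr
        have h4 : 2 * (40 / (12800 * (z : ℝ))) * ((11 + 1 / 10000) * (z : ℝ) ^ 2) =
            (11 + 1 / 10000) / 160 * z := by
          field_simp
          try norm_num
        rw [h4] at h3
        linarith
      have hM : ((z ^ 2 / 10000 : ℕ) : ℝ) + ((z * (11 * z) : ℕ) : ℝ) + 1 ≤ 13 * (z : ℝ) ^ 2 := by
        push_cast at hm1a ⊢
        nlinarith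
      calc (((z ^ 2 / 10000 : ℕ) : ℝ) + ((z * (11 * z) : ℕ) : ℝ) + 1) *
          (((z ^ 2 / 10000).choose (z / 20 + 1) : ℝ) * ((k / 10).choose (z / 20 + 1) : ℝ) /
            (k : ℝ) ^ (z / 20 + 1) + (9 / 10 : ℝ) ^ z +
            Real.exp (2 * a * (((z ^ 2 / 10000 : ℕ) : ℝ) + ((z * (11 * z) : ℕ) : ℝ)) -
              (((z / 8 : ℕ) : ℝ) + 1)))
          ≤ (13 * (z : ℝ) ^ 2) * (Real.exp (-((z : ℝ) / 20)) + Real.exp (-((z : ℝ) / 20)) +
              Real.exp (-((z : ℝ) / 20))) := by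
            apply mul_le_mul hM _ (by positivity) (by positivity)
            exact add_le_add (add_le_add hc1 hc2) hc3
        _ = 13 * (z : ℝ) ^ 2 * (3 * Real.exp (-((z : ℝ) / 20))) := by ring
        _ ≤ δ := par_small z hzpos δ hδ (hz0a.trans hz0R)

end LCSV
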