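import Pool.Agent.LCSV.Core

/-!
# Choice of the parameters in the tie bounds (numerical)

Let D = a l (large). S = floor(D^(1/4) / 8), nu0 = floor(D + D^(3/4)), nu1 = ceil(D + D^(3/4)/4),
s0 = floor(D^(3/4)/4), q = 1 - D^(-1/4)/8.
(1) for nu < nu0 + S: (1-a)(nu+1) <= (1+1/S) a (l - nu). As a <= 1/2: a (l - nu) = D - a nu. If nu <= D then
(1-a)(nu+1) <= (1-a) D + 1 <= D - a nu + 1 ... precisely D - a nu >= (1-a) D >= D/2 for nu <= D and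
(1-a)(nu + 1) - (D - a nu) = nu + 1 - a - D <= 1; for D < nu < D + D^(3/4) + S: (1-a)(nu+1) - (D - a nu) = nu - D + 1 - a <=
D^(3/4) + S + 1 and D - a nu >= D/2 - D^(3/4)/2 - S/2 >= D/4, (1/S)(D/4) >= 2 D^(3/4) >= D^(3/4) + S + 1 for D large.
(2) for nu >= nu1: a (l - nu) = D - a nu <= q (1-a)(nu+1): it suffices D <= q (1-a)(nu + 1) + a nu; the right side is at least
q (nu + 1) - (1 - q)... simplest: q (1-a)(nu+1) + a nu >= q (nu + 1) - a q >= q nu >= (1 - D^(-1/4)/8)(D + D^(3/4)/4) >= D for D >= 1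
(since D^(3/4)/4 - D^(3/4)/8 - D^(1/2)/32 >= 0).
(3) nu1 + s0 <= nu0 + 1: D + D^(3/4)/4 + 1 + D^(3/4)/4 <= D + D^(3/4) for D large.
(4) 3/S <= C D^(-1/4). (5) (s0+1) q^s0 <= (D^(3/4)+1) exp(-D^(-1/4)/8 * (D^(3/4)/4 - 1)) <= C exp(-c D^(1/2)) D^(3/4) <= C D^(-j/4).
-/

namespace LCSV

open Finset

theorem tieNum_aux (j : ℕ) (a x : ℝ) (l : ℕ) (ha : 0 < a) (ha2 : a ≤ 1 / 2) (hx : 16 ≤ x)
    (hD : a * l = x ^ 4) : ∃ (S nu0 nu1 s0 : ℕ) (q : ℝ), 1 ≤ S ∧ 0 ≤ q ∧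
      (∀ nu : ℕ, nu < nu0 + S →
        (1 - a) * ((nu : ℝ) + 1) ≤ (1 + 1 / (S : ℝ)) * (a * ((l : ℝ) - nu))) ∧
      (∀ nu : ℕ, nu1 ≤ nu → a * ((l : ℝ) - nu) ≤ q * ((1 - a) * ((nu : ℝ) + 1))) ∧
      nu1 + s0 ≤ nu0 + 1 ∧
      3 / (S : ℝ) ≤ 48 * x⁻¹ ∧
      ((s0 : ℝ) + 1) * q ^ s0 ≤ (64 ^ (3 + j) * ((3 + j).factorial : ℝ)) * (x ^ j)⁻¹ := by
  have hx0 : (0 : ℝ) < x := by linarith
  have hx1 : (1 : ℝ) ≤ x := by linarith
  set S : ℕ := ⌊x / 8⌋₊ with hS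
  set nu0 : ℕ := ⌊x ^ 4 + x ^ 3⌋₊ with hnu0
  set nu1 : ℕ := ⌈x ^ 4 + x ^ 3 / 4⌉₊ with hnu1
  set s0 : ℕ := ⌊x ^ 3 / 4⌋₊ with hs0
  have hSle : (S : ℝ) ≤ x / 8 := Nat.floor_le (by positivity)
  have hSlt : x / 8 < (S : ℝ) + 1 := Nat.lt_floor_add_one _
  have hS16 : x / 16 ≤ (S : ℝ) := by linarith
  have hSpos : (0 : ℝ) < (S : ℝ) := by linarith
  have hx3 : (2 : ℝ) ≤ x ^ 3 := by
    have h := pow_le_pow_left₀ (by norm_num : (0 : ℝ) ≤ 16) hx 3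
    norm_num at h
    linarith
  have hx3' : 16 * x ^ 2 ≤ x ^ 3 := by
    calc 16 * x ^ 2 ≤ x * x ^ 2 := mul_le_mul_of_nonneg_right hx (sq_nonneg x)
      _ = x ^ 3 := by ring
  have hx2' : 16 * x ≤ x ^ 2 := by
    calc 16 * x ≤ x * x := mul_le_mul_of_nonneg_right hx hx0.le
      _ = x ^ 2 := by ring
  have hx4' : 16 * x ^ 3 ≤ x ^ 4 := by
    calc 16 * x ^ 3 ≤ x * x ^ 3 := mul_le_mul_of_nonneg_right hx (pow_nonneg hx0.le 3)
      _ = x ^ 4 := by ring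
  have hnu0le : (nu0 : ℝ) ≤ x ^ 4 + x ^ 3 := Nat.floor_le (by positivity)
  have hnu0lt : x ^ 4 + x ^ 3 < (nu0 : ℝ) + 1 := Nat.lt_floor_add_one _
  have hnu1ge : x ^ 4 + x ^ 3 / 4 ≤ (nu1 : ℝ) := Nat.le_ceil _
  have hnu1lt : (nu1 : ℝ) < x ^ 4 + x ^ 3 / 4 + 1 := Nat.ceil_lt_add_one (by positivity)
  have hs0le : (s0 : ℝ) ≤ x ^ 3 / 4 := Nat.floor_le (by positivity)
  have hs0lt : x ^ 3 / 4 < (s0 : ℝ) + 1 := Nat.lt_floor_add_one _
  have hinv : x * (1 / (8 * x)) = 1 / 8 := by field_simp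
  have hq1 : 1 / (8 * x) ≤ 1 / 8 := by
    rw [div_le_div_iff₀ (by positivity) (by norm_num)]; linarith
  have hqpos : 0 < 1 / (8 * x) := by positivity
  refine ⟨S, nu0, nu1, s0, 1 - 1 / (8 * x), ?_, ?_, ?_, ?_, ?_, ?_, ?_⟩
  · rw [hS]; apply Nat.le_floor; norm_num; linarith
  · linarith
  · intro nu hnu
    have h1 : (nu : ℝ) + 1 ≤ nu0 + S := by exact_mod_cast hnu
    have h2 : a * ((l : ℝ) - nu) = x ^ 4 - a * nu := by rw [mul_sub, hD]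
    rw [h2]
    have hnun : (0 : ℝ) ≤ nu := Nat.cast_nonneg nu
    have h3 : x ^ 4 / 2 - x ^ 3 / 2 - x / 16 ≤ x ^ 4 - a * nu := by
      have : a * nu ≤ 1 / 2 * nu := mul_le_mul_of_nonneg_right ha2 hnun
      linarith
    have h4 : (x ^ 3 + x / 8) * S ≤ x ^ 4 - a * nu := by
      refine le_trans ?_ h3
      have h5 : (x ^ 3 + x / 8) * S ≤ (x ^ 3 + x / 8) * (x / 8) :=
        mul_le_mul_of_nonneg_left hSle (by positivity)
      refine le_trans h5 ?_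
      have h6 : (x ^ 3 + x / 8) * (x / 8) = x ^ 4 / 8 + x ^ 2 / 64 := by ring
      rw [h6]
      linarith
    have h5 : x ^ 3 + x / 8 ≤ (1 / (S : ℝ)) * (x ^ 4 - a * nu) := by
      rw [one_div, ← div_eq_inv_mul, le_div_iff₀ hSpos]
      exact h4
    have h6 : (1 - a) * ((nu : ℝ) + 1) - (x ^ 4 - a * nu) ≤ x ^ 3 + x / 8 := by
      have e : (1 - a) * ((nu : ℝ) + 1) - (x ^ 4 - a * nu) = nu + 1 - a - x ^ 4 := by ring
      rw [e]
      linarith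
    linarith
  · intro nu hnu
    have h1 : (nu1 : ℝ) ≤ nu := by exact_mod_cast hnu
    have h2 : a * ((l : ℝ) - nu) = x ^ 4 - a * nu := by rw [mul_sub, hD]
    rw [h2]
    have hnun : (0 : ℝ) ≤ nu := Nat.cast_nonneg nu
    have hq : 0 ≤ 1 - 1 / (8 * x) := by linarith
    have h3 : x ^ 4 ≤ (1 - 1 / (8 * x)) * nu := by
      have h4 : (1 - 1 / (8 * x)) * (x ^ 4 + x ^ 3 / 4) ≤ (1 - 1 / (8 * x)) * nu :=
        mul_le_mul_of_nonneg_left (by linarith) hq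
      refine le_trans ?_ h4
      have h5 : (1 - 1 / (8 * x)) * (x ^ 4 + x ^ 3 / 4)
          = x ^ 4 + x ^ 3 / 4 - (x * (1 / (8 * x))) * x ^ 3 - (x * (1 / (8 * x))) * x ^ 2 / 4 := by
        ring
      rw [h5, hinv]
      linarith
    have h6 : 0 ≤ (1 - 1 / (8 * x)) * (1 - a) := mul_nonneg hq (by linarith)
    have h7 : 0 ≤ 1 / (8 * x) * (a * nu) := by positivity
    have e : (1 - 1 / (8 * x)) * ((1 - a) * ((nu : ℝ) + 1)) = (1 - 1 / (8 * x)) * nu - a * nu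
        + 1 / (8 * x) * (a * nu) + (1 - 1 / (8 * x)) * (1 - a) := by ring
    rw [e]
    linarith
  · have : (nu1 : ℝ) + s0 < nu0 + 1 := by linarith
    exact_mod_cast this.le
  · rw [div_le_iff₀ hSpos]
    have h1 : 48 * x⁻¹ * (x / 16) = 3 := by field_simp; norm_num
    have h2 : 48 * x⁻¹ * (x / 16) ≤ 48 * x⁻¹ * (S : ℝ) :=
      mul_le_mul_of_nonneg_left hS16 (by positivity)
    linarith
  · have h1 : (s0 : ℝ) + 1 ≤ x ^ 3 := by linarith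
    have hq : 0 ≤ 1 - 1 / (8 * x) := by linarith
    have h2 : 1 - 1 / (8 * x) ≤ Real.exp (-(1 / (8 * x))) := Real.one_sub_le_exp_neg _
    have h3 : (1 - 1 / (8 * x)) ^ s0 ≤ Real.exp (-(x ^ 2 / 64)) := by
      calc (1 - 1 / (8 * x)) ^ s0 ≤ Real.exp (-(1 / (8 * x))) ^ s0 := pow_le_pow_left₀ hq h2 _
        _ = Real.exp (s0 * (-(1 / (8 * x)))) := by rw [← Real.exp_nat_mul]
        _ ≤ Real.exp (-(x ^ 2 / 64)) := by
          apply Real.exp_le_exp.mpr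
          have h4 : (x ^ 3 / 4 - 1) * (1 / (8 * x)) ≤ s0 * (1 / (8 * x)) :=
            mul_le_mul_of_nonneg_right (by linarith) hqpos.le
          have h5 : (x ^ 3 / 4 - 1) * (1 / (8 * x)) = (x * (1 / (8 * x))) * x ^ 2 / 4 - 1 / (8 * x) := by
            ring
          rw [h5, hinv] at h4
          rw [mul_neg]
          linarith
    have h4 : x ^ (3 + j) * Real.exp (-(x ^ 2 / 64)) ≤ 64 ^ (3 + j) * ((3 + j).factorial : ℝ) := by
      have h5 : (x ^ 2 / 64) ^ (3 + j) / ((3 + j).factorial : ℝ) ≤ Real.exp (x ^ 2 / 64) :=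
        Real.pow_div_factorial_le_exp _ (by positivity) _
      have hf : (0 : ℝ) < ((3 + j).factorial : ℝ) := by exact_mod_cast Nat.factorial_pos _
      rw [div_le_iff₀ hf] at h5
      rw [Real.exp_neg, ← div_eq_mul_inv, div_le_iff₀ (Real.exp_pos _)]
      have h6 : x ^ (3 + j) ≤ (x ^ 2) ^ (3 + j) := pow_le_pow_left₀ hx0.le (by linarith) _
      have h7 : (x ^ 2) ^ (3 + j) = 64 ^ (3 + j) * (x ^ 2 / 64) ^ (3 + j) := by
        rw [← mul_pow]; congr 1; ring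
      rw [h7] at h6
      refine le_trans h6 ?_
      have h8 : (0 : ℝ) < 64 ^ (3 + j) := by positivity
      have h9 := mul_le_mul_of_nonneg_left h5 h8.le
      linarith
    have hxj : (0 : ℝ) < x ^ j := by positivity
    rw [← div_eq_mul_inv, le_div_iff₀ hxj]
    calc ((s0 : ℝ) + 1) * (1 - 1 / (8 * x)) ^ s0 * x ^ j
        ≤ x ^ 3 * Real.exp (-(x ^ 2 / 64)) * x ^ j := by
          apply mul_le_mul_of_nonneg_right _ hxj.le
          exact mul_le_mul h1 h3 (pow_nonneg hq _) (by positivity)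
      _ = x ^ (3 + j) * Real.exp (-(x ^ 2 / 64)) := by rw [pow_add]; ring
      _ ≤ _ := h4

theorem tie_num (j : ℕ) : ∃ C D0 : ℝ, 0 < C ∧ 1 ≤ D0 ∧ ∀ (a : ℝ) (l : ℕ), 0 < a → a ≤ 1 / 2 →
    D0 ≤ a * l → ∃ (S nu0 nu1 s0 : ℕ) (q : ℝ), 1 ≤ S ∧ 0 ≤ q ∧
      (∀ nu : ℕ, nu < nu0 + S →
        (1 - a) * ((nu : ℝ) + 1) ≤ (1 + 1 / (S : ℝ)) * (a * ((l : ℝ) - nu))) ∧
      (∀ nu : ℕ, nu1 ≤ nu → a * ((l : ℝ) - nu) ≤ q * ((1 - a) * ((nu : ℝ) + 1))) ∧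
      nu1 + s0 ≤ nu0 + 1 ∧
      3 / (S : ℝ) ≤ C * (a * l) ^ (-(1 / 4 : ℝ)) ∧
      ((s0 : ℝ) + 1) * q ^ s0 ≤ C * (a * l) ^ (-((j : ℝ) / 4)) := by
  have hCf : (0 : ℝ) < 64 ^ (3 + j) * ((3 + j).factorial : ℝ) := by
    have : (0 : ℝ) < ((3 + j).factorial : ℝ) := by exact_mod_cast Nat.factorial_pos _
    positivity
  refine ⟨48 + 64 ^ (3 + j) * ((3 + j).factorial : ℝ), 65536, by linarith, by norm_num, ?_⟩
  intro a l ha ha2 hD
  have hDpos : 0 < a * (l : ℝ) := by linarith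
  set x : ℝ := (a * (l : ℝ)) ^ (1 / 4 : ℝ) with hxdef
  have hx0 : 0 < x := Real.rpow_pos_of_pos hDpos _
  have hx4 : a * (l : ℝ) = x ^ 4 := by
    rw [hxdef, ← Real.rpow_natCast, ← Real.rpow_mul hDpos.le]; norm_num
  have hx16 : 16 ≤ x := by
    by_contra hlt
    push Not at hlt
    have : x ^ 4 < 16 ^ 4 := pow_lt_pow_left₀ hlt hx0.le (by norm_num)
    rw [← hx4] at this
    norm_num at this
    linarith
  obtain ⟨S, nu0, nu1, s0, q, h1, h2, h3, h4, h5, h6, h7⟩ := tieNum_aux j a x l ha ha2 hx16 hx4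
  refine ⟨S, nu0, nu1, s0, q, h1, h2, h3, h4, h5, ?_, ?_⟩
  · have e1 : (a * (l : ℝ)) ^ (-(1 / 4 : ℝ)) = x⁻¹ := by rw [Real.rpow_neg hDpos.le, hxdef]
    rw [e1]
    refine le_trans h6 ?_
    apply mul_le_mul_of_nonneg_right _ (by positivity)
    linarith
  · have e2 : (a * (l : ℝ)) ^ (-((j : ℝ) / 4)) = (x ^ j)⁻¹ := by
      rw [Real.rpow_neg hDpos.le, hxdef, ← Real.rpow_natCast, ← Real.rpow_mul hDpos.le]
      congr 2
      ring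
    rw [e2]
    refine le_trans h7 ?_
    apply mul_le_mul_of_nonneg_right _ (by positivity)
    linarith

end LCSV
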