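import Pool.Agent.LCSV.Ins2
import Pool.Agent.LCSV.Del2
import Pool.Agent.LCSV.TieNum

/-!
# A near tie (deficiency at most one) at distance at least l is unlikely

Take tie_num with j = 1. If a l < D0 the bound is trivial for C >= D0^(1/4) (left side <= 1).
Otherwise: the event implies l <= qq 0 and (fv(qq 0) = fv(qq 1) + 0 or = fv(qq 1) + 1) (fv(qq 0) = Mx rho s n, fv(qq 1) =
Mx rho s (qq 0 - l)). Split according to bits s (qq 0) l <= nu0 or >= nu0 + 1 >= nu1 + s0. The first part is bounded by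
ins2 with G = True, r = 0, d = 0 and d = 1: 2 * 3/S. The second by del2 with r = 0 (chn rho s n l 0 is trivially true).
-/

namespace LCSV

open Finset

private theorem Tie1_split (rho : ℕ → ℕ) (n l nu0 nu1 s0 : ℕ) (h : nu1 + s0 ≤ nu0 + 1)
    (s : Finset ℕ) :
    ind (l ≤ lm rho s n ∧ Mx rho s n ≤ Mx rho s (lm rho s n - l) + 1) ≤
      ind (True ∧ l ≤ qq rho s n l 0 ∧
        fv rho s (qq rho s n l 0) = fv rho s (qq rho s n l (0 + 1)) + 0 ∧
        bits s (qq rho s n l 0) l ≤ nu0) +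
      (ind (True ∧ l ≤ qq rho s n l 0 ∧
        fv rho s (qq rho s n l 0) = fv rho s (qq rho s n l (0 + 1)) + 1 ∧
        bits s (qq rho s n l 0) l ≤ nu0) +
      ind (chn rho s n l 0 ∧ l ≤ qq rho s n l 0 ∧ nu1 + s0 ≤ bits s (qq rho s n l 0) l)) := by
  refine le_trans (ind_mono ?_) (le_trans (ind_or_le _ _) (add_le_add le_rfl (ind_or_le _ _)))
  rintro ⟨h1, h2⟩
  have e0 : qq rho s n l 0 = lm rho s n := rfl
  have e1 : qq rho s n l (0 + 1) = lm rho s (lm rho s n - l) := rfl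
  rw [e0, e1, fv_lm, fv_lm]
  have h3 : Mx rho s (lm rho s n - l) ≤ Mx rho s n :=
    Mx_mono ((Nat.sub_le _ _).trans (lm_le rho s n))
  by_cases hb : bits s (lm rho s n) l ≤ nu0
  · by_cases h4 : Mx rho s n = Mx rho s (lm rho s n - l) + 0
    · exact Or.inl ⟨trivial, h1, h4, hb⟩
    · exact Or.inr (Or.inl ⟨trivial, h1, by omega, hb⟩)
  · refine Or.inr (Or.inr ⟨?_, h1, by omega⟩)
    intro r hr
    exact absurd hr (Nat.not_lt_zero r)

theorem tie1 : ∃ C : ℝ, 0 < C ∧ ∀ (a : ℝ) (rho : ℕ → ℕ) (n l : ℕ), 0 < a → a ≤ 1 / 2 →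
    1 ≤ a * l →
    Ex a n (fun s => ind (l ≤ lm rho s n ∧ Mx rho s n ≤ Mx rho s (lm rho s n - l) + 1)) ≤
      C * (a * l) ^ (-(1 / 4 : ℝ)) := by
  obtain ⟨C, D0, hC, hD0, H⟩ := tie_num 1
  have hD0p : (0 : ℝ) < D0 := by linarith
  refine ⟨3 * C + D0 ^ (1 / 4 : ℝ), by positivity, ?_⟩
  intro a rho n l ha ha2 hal
  have ha1 : a ≤ 1 := by linarith
  have hp : (0 : ℝ) < a * l := by linarith
  have hpow : (0 : ℝ) < (a * l) ^ (-(1 / 4 : ℝ)) := Real.rpow_pos_of_pos hp _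
  rcases lt_or_ge (a * l) D0 with hlt | hge
  · have h1 : Ex a n (fun s => ind (l ≤ lm rho s n ∧
        Mx rho s n ≤ Mx rho s (lm rho s n - l) + 1)) ≤ 1 := by
      calc _ ≤ Ex a n (fun _ => (1 : ℝ)) := Ex_mono ha.le ha1 fun s _ => ind_le_one _
        _ = 1 := Ex_const 1
    have h2 : (1 : ℝ) ≤ D0 ^ (1 / 4 : ℝ) * (a * l) ^ (-(1 / 4 : ℝ)) := by
      rw [Real.rpow_neg hp.le, ← div_eq_mul_inv, le_div_iff₀ (Real.rpow_pos_of_pos hp _), one_mul]
      exact Real.rpow_le_rpow hp.le hlt.le (by norm_num)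
    calc _ ≤ (1 : ℝ) := h1
      _ ≤ D0 ^ (1 / 4 : ℝ) * (a * l) ^ (-(1 / 4 : ℝ)) := h2
      _ ≤ (3 * C + D0 ^ (1 / 4 : ℝ)) * (a * l) ^ (-(1 / 4 : ℝ)) := by
        refine mul_le_mul_of_nonneg_right ?_ hpow.le
        linarith
  · obtain ⟨S, nu0, nu1, s0, q, hS, hq, hn1, hn2, hn3, hn4, hn5⟩ := H a l ha ha2 hge
    have hG : ∀ s, s ⊆ range n → ∀ i, i ∉ s → l ≤ qq rho s n l 0 → qq rho s n l 0 - l ≤ i →
      i < qq rho s n l 0 → (fun _ : Finset ℕ => True) s → (fun _ : Finset ℕ => True) (insert i s) :=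
      fun _ _ _ _ _ _ _ _ => trivial
    have hS0 : (0 : ℝ) < S := by exact_mod_cast hS
    have hE : Ex a n (fun s => ind ((fun _ : Finset ℕ => True) s ∧ l ≤ qq rho s n l 0)) ≤ 1 := by
      calc _ ≤ Ex a n (fun _ => (1 : ℝ)) := Ex_mono ha.le ha1 fun s _ => ind_le_one _
        _ = 1 := Ex_const 1
    have i0 := ins2 a ha (by linarith) rho n l 0 0 nu0 S hS hn1 (fun _ => True) hG
    have i1 := ins2 a ha (by linarith) rho n l 0 1 nu0 S hS hn1 (fun _ => True) hG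
    have i2 := del2 a ha (by linarith) rho n l 0 nu1 s0 q hq hn2
    have hn5' : ((s0 : ℝ) + 1) * q ^ s0 ≤ C * (a * l) ^ (-(1 / 4 : ℝ)) := by
      have e : (-(((1 : ℕ) : ℝ) / 4)) = (-(1 / 4 : ℝ)) := by norm_num
      rwa [e] at hn5
    have h3S : 3 / (S : ℝ) * Ex a n (fun s => ind ((fun _ : Finset ℕ => True) s ∧
        l ≤ qq rho s n l 0)) ≤ C * (a * l) ^ (-(1 / 4 : ℝ)) := by
      calc _ ≤ 3 / (S : ℝ) * 1 := mul_le_mul_of_nonneg_left hE (by positivity)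
        _ = 3 / (S : ℝ) := mul_one _
        _ ≤ _ := hn4
    have hsum : Ex a n (fun s => ind (l ≤ lm rho s n ∧
        Mx rho s n ≤ Mx rho s (lm rho s n - l) + 1)) ≤
        Ex a n (fun s => ind (True ∧ l ≤ qq rho s n l 0 ∧
        fv rho s (qq rho s n l 0) = fv rho s (qq rho s n l (0 + 1)) + 0 ∧
        bits s (qq rho s n l 0) l ≤ nu0)) +
        (Ex a n (fun s => ind (True ∧ l ≤ qq rho s n l 0 ∧
        fv rho s (qq rho s n l 0) = fv rho s (qq rho s n l (0 + 1)) + 1 ∧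
        bits s (qq rho s n l 0) l ≤ nu0)) +
        Ex a n (fun s => ind (chn rho s n l 0 ∧ l ≤ qq rho s n l 0 ∧
          nu1 + s0 ≤ bits s (qq rho s n l 0) l))) := by
      rw [← Ex_add, ← Ex_add]
      exact Ex_mono ha.le ha1 fun s _ => Tie1_split rho n l nu0 nu1 s0 hn3 s
    have hD : 0 ≤ D0 ^ (1 / 4 : ℝ) * (a * l) ^ (-(1 / 4 : ℝ)) :=
      mul_nonneg (Real.rpow_nonneg hD0p.le _) hpow.le
    have j0 := i0.trans h3S
    have j1 := i1.trans h3S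
    have j2 := i2.trans hn5'
    calc _ ≤ _ := hsum
      _ ≤ C * (a * l) ^ (-(1 / 4 : ℝ)) + (C * (a * l) ^ (-(1 / 4 : ℝ)) +
          C * (a * l) ^ (-(1 / 4 : ℝ))) := add_le_add j0 (add_le_add j1 j2)
      _ ≤ (3 * C + D0 ^ (1 / 4 : ℝ)) * (a * l) ^ (-(1 / 4 : ℝ)) := by
        rw [add_mul]
        linarith

end LCSV
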