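import Pool.Agent.LCSV.FarP
import Pool.Agent.LCSV.Fr1
import Pool.Agent.LCSV.Fr2
import Pool.Agent.LCSV.Fr3
import Pool.Agent.LCSV.Bdry
import Pool.Agent.LCSV.Par
import Pool.Agent.LCSV.Tie1
import Pool.Agent.LCSV.Brg

/-!
# The probability of a far path is small

Choose A (in par) so large that C1 A^(-1/4) <= delta / 4, where C1 is the constant of tie1, and use par with delta/4. C = C(k).
Given l >= k (so C <= l), take n1 from bdry with w0 = m1 + m2 and delta/4 (and n1 >= m1 + m2). Average farP over Y of length l: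
- boundary term: for each X, Y, E over bits = Ex (EL_bs, bs) <= delta/4.
- near tie term: for each X, Y by tie1 with rho = rh X Y, l = m1: <= C1 (a m1)^(-1/4) <= delta/4 (a m1 >= A >= 1).
- block terms: Y.take C is uniform of length C (EL_append: l = C + (l - C)); X.drop m2 uniform of length m1: fr1 with t = L1 + 1;
X.take m2 of length m2 = z (11 z), and Y.take C contains the first z c letters: fr2 with r = 11 z, B = z (4 L2 <= z: lcs < L2 implies 4 lcs < z;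
monotone in Y); fr3 with N = N0 + 1.
-/

namespace LCSV

open Finset

theorem farPr_take {β : Type*} [Fintype β] {mu : β → ℝ} (hP : IsP mu) {C l : ℕ} (h : C ≤ l)
    (F : List β → ℝ) : EL mu l (fun Y => F (Y.take C)) = EL mu C F := by
  obtain ⟨d, rfl⟩ := Nat.exists_eq_add_of_le h
  rw [EL_append]
  refine EL_congr fun Y1 hY1 => ?_
  have h1 : (fun Y2 : List β => F ((Y1 ++ Y2).take C)) = fun _ => F Y1 := by
    funext Y2
    rw [← hY1, List.take_left]
  rw [h1, EL_const hP]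

theorem farPr_drop {β : Type*} [Fintype β] {mu : β → ℝ} (hP : IsP mu) (m1 m2 : ℕ)
    (F : List β → ℝ) : EL mu (m1 + m2) (fun X => F (X.drop m2)) = EL mu m1 F := by
  rw [Nat.add_comm m1 m2, EL_append]
  have h1 : EL mu m2 (fun X1 => EL mu m1 (fun X2 => F ((X1 ++ X2).drop m2))) =
      EL mu m2 (fun _ => EL mu m1 F) := by
    refine EL_congr fun X1 hX1 => EL_congr fun X2 _ => ?_
    rw [← hX1, List.drop_left]
  rw [h1, EL_const hP]

theorem farPr_left {k : ℕ} {a : ℝ} (h0 : 0 ≤ a) (h1 : a ≤ 1) (n : ℕ) (F : List (Fin k) → ℝ) :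
    E2 k a n (fun X _ => F X) = EL (un k) n F := by
  unfold E2
  exact EL_congr fun X _ => EL_const (be_isP h0 h1) n (F X)

theorem farPr_right {k : ℕ} (hk : 0 < k) {a : ℝ} (n : ℕ) (F : List Bool → ℝ) :
    E2 k a n (fun _ b => F b) = EL (be a) n F := by
  unfold E2
  exact EL_const (un_isP hk) n (EL (be a) n F)

theorem farPr_T1 (k : ℕ) (hk : 0 < k) {a : ℝ} (h0 : 0 ≤ a) (h1 : a ≤ 1) (m1 m2 L1 C l : ℕ)
    (hC : C ≤ l) :
    EL (un k) l (fun Y => E2 k a (m1 + m2) (fun X _ => ind (L1 < lcs (X.drop m2) (Y.take C)))) ≤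
      (m1.choose (L1 + 1) : ℝ) * (C.choose (L1 + 1) : ℝ) / (k : ℝ) ^ (L1 + 1) := by
  have hP := un_isP hk
  have e1 : EL (un k) l (fun Y =>
      E2 k a (m1 + m2) (fun X _ => ind (L1 < lcs (X.drop m2) (Y.take C)))) =
      EL (un k) l (fun Y => EL (un k) m1 (fun X => ind (L1 < lcs X (Y.take C)))) := by
    refine EL_congr fun Y _ => ?_
    rw [farPr_left h0 h1]
    exact farPr_drop hP m1 m2 (fun X => ind (L1 < lcs X (Y.take C)))
  rw [e1, farPr_take hP hC (fun Y => EL (un k) m1 (fun X => ind (L1 < lcs X Y))), EL_comm]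
  exact fr1 k hk m1 C (L1 + 1)

theorem farPr_T2 (k : ℕ) (hk : 0 < k) {a : ℝ} (h0 : 0 ≤ a) (h1 : a ≤ 1)
    (m1 m2 L2 C l z c : ℕ) (hC : C ≤ l) (hm : m2 = z * (11 * z)) (hkc : k ≤ 11 * z * c)
    (hzc : z * c ≤ C) (hL : L2 * 4 ≤ z) :
    EL (un k) l (fun Y => E2 k a (m1 + m2) (fun X _ => ind (lcs (X.take m2) (Y.take C) < L2))) ≤
      (9 / 10 : ℝ) ^ z := by
  have hP := un_isP hk
  have e1 : EL (un k) l (fun Y =>
      E2 k a (m1 + m2) (fun X _ => ind (lcs (X.take m2) (Y.take C) < L2))) =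
      EL (un k) l (fun Y => EL (un k) m2 (fun X => ind (lcs X (Y.take C) < L2))) := by
    refine EL_congr fun Y _ => ?_
    rw [farPr_left h0 h1]
    exact farPr_take hP (Nat.le_add_left m2 m1) (fun X => ind (lcs X (Y.take C) < L2))
  rw [e1, farPr_take hP hC (fun Y => EL (un k) m2 (fun X => ind (lcs X Y < L2)))]
  have e2 : EL (un k) C (fun Y => EL (un k) m2 (fun X => ind (lcs X Y < L2))) ≤
      EL (un k) C (fun Y => EL (un k) m2 (fun X => ind (4 * lcs X (Y.take (z * c)) < z))) := by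
    refine EL_mono hP fun Y _ => EL_mono hP fun X _ => ind_mono fun h => ?_
    have h2 : lcs X (Y.take (z * c)) ≤ lcs X Y :=
      lcs_mono (List.Sublist.refl _) (List.take_sublist _ _)
    omega
  refine e2.trans ?_
  rw [farPr_take hP hzc (fun Y => EL (un k) m2 (fun X => ind (4 * lcs X Y < z))), EL_comm, hm]
  exact fr2 k hk (11 * z) c z hkc

theorem farPr_T3 (k : ℕ) (hk : 0 < k) {a : ℝ} (h0 : 0 ≤ a) (h1 : a ≤ 1) (m1 m2 N0 l : ℕ) :
    EL (un k) l (fun _ => E2 k a (m1 + m2) (fun _ b => ind (N0 < b.count true))) ≤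
      Real.exp (2 * a * (m1 + m2) - (N0 + 1)) := by
  have hP := un_isP hk
  rw [EL_const hP, farPr_right hk]
  have h := fr3 a h0 h1 (m1 + m2) (N0 + 1)
  push_cast at h
  exact h

theorem farPr_A (C1 δ : ℝ) (hC : 0 < C1) (hδ : 0 < δ) : ∃ A : ℝ, 1 ≤ A ∧ ∀ x, A ≤ x →
    C1 * x ^ (-(1 / 4 : ℝ)) ≤ δ / 4 := by
  have hp : 0 < 4 * C1 / δ := by positivity
  refine ⟨max 1 ((4 * C1 / δ) ^ 4), le_max_left _ _, fun x hx => ?_⟩
  have h1 : (4 * C1 / δ) ^ 4 ≤ x := (le_max_right _ _).trans hx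
  have h2 : x ^ (-(1 / 4 : ℝ)) ≤ ((4 * C1 / δ) ^ 4) ^ (-(1 / 4 : ℝ)) :=
    Real.rpow_le_rpow_of_nonpos (by positivity) h1 (by norm_num)
  have h3 : ((4 * C1 / δ) ^ 4) ^ (-(1 / 4 : ℝ)) = (4 * C1 / δ)⁻¹ := by
    rw [← Real.rpow_natCast, ← Real.rpow_mul hp.le, ← Real.rpow_neg_one]
    norm_num
  rw [h3] at h2
  have h4 : C1 * (4 * C1 / δ)⁻¹ = δ / 4 := by
    field_simp
  rw [← h4]
  exact mul_le_mul_of_nonneg_left h2 hC.le

theorem farPr : ∀ δ : ℝ, 0 < δ → ∃ k0 : ℕ, ∀ k ≥ k0, ∃ C : ℕ, 10 * C ≤ k ∧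
    ∀ a : ℝ, 1 / (40 * √(k : ℝ)) ≤ a → a ≤ 40 / √(k : ℝ) → ∀ l ≥ k, ∃ n1 : ℕ, ∀ n ≥ n1,
      EL (un k) l (fun Y => E2 k a n (fun X b => ind (Far X Y (bs b) n C))) ≤ δ := by
  intro δ hδ
  obtain ⟨C1, hC1, H1⟩ := tie1
  obtain ⟨A, hA1, HA⟩ := farPr_A C1 δ hC1 hδ
  obtain ⟨k0, hk0⟩ := par (δ / 4) A (by positivity)
  refine ⟨max k0 1, fun k hk => ?_⟩
  have hk1 : k0 ≤ k := (le_max_left _ _).trans hk
  have hk2 : 0 < k := (le_max_right _ _).trans hk
  obtain ⟨m1, m2, C, L1, L2, N0, z, c, p1, p2, p3, p4, p5, p6, p7, H⟩ := hk0 k hk1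
  refine ⟨C, p6, fun a ha1 ha2 l hl => ?_⟩
  obtain ⟨q1, q2, q3⟩ := H a ha1 ha2
  have hkr : (0 : ℝ) < k := by exact_mod_cast hk2
  have ha0 : 0 < a := lt_of_lt_of_le (by positivity) ha1
  have haone : a ≤ 1 := by linarith
  have hP := un_isP hk2
  have hCl : C ≤ l := by omega
  obtain ⟨n1, hn1⟩ := bdry a ha0 haone l (m1 + m2) (δ / 4) (by positivity)
  refine ⟨max n1 (m1 + m2), fun n hn => ?_⟩
  have hna : n1 ≤ n := (le_max_left _ _).trans hn
  have hnb : m1 + m2 ≤ n := (le_max_right _ _).trans hn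
  have key : EL (un k) l (fun Y => E2 k a n (fun X b => ind (Far X Y (bs b) n C))) ≤
      EL (un k) l (fun Y => δ / 2 + ((m1 : ℝ) + m2 + 1) *
        ((E2 k a (m1 + m2) (fun X _ => ind (L1 < lcs (X.drop m2) (Y.take C))) +
          E2 k a (m1 + m2) (fun X _ => ind (lcs (X.take m2) (Y.take C) < L2))) +
          E2 k a (m1 + m2) (fun _ b => ind (N0 < b.count true)))) := by
    refine EL_mono hP fun Y hY => ?_
    have f := farP k hk2 a ha0.le haone Y n C m1 m2 L1 L2 N0 p1 hnb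
    have b1 : E2 k a n (fun X b => ind (lm (rh X Y) (bs b) n < m1 + m2)) ≤ δ / 4 := by
      have : E2 k a n (fun X b => ind (lm (rh X Y) (bs b) n < m1 + m2)) ≤
          EL (un k) n (fun _ => δ / 4) := by
        unfold E2
        refine EL_mono hP fun X _ => ?_
        rw [EL_bs a n (fun s => ind (lm (rh X Y) s n < m1 + m2))]
        exact hn1 n hna k X Y hY.le
      rwa [EL_const hP] at this
    have b2 : E2 k a n (fun X b => ind (m1 ≤ lm (rh X Y) (bs b) n ∧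
        Mx (rh X Y) (bs b) n ≤ Mx (rh X Y) (bs b) (lm (rh X Y) (bs b) n - m1) + 1)) ≤ δ / 4 := by
      have : E2 k a n (fun X b => ind (m1 ≤ lm (rh X Y) (bs b) n ∧
          Mx (rh X Y) (bs b) n ≤ Mx (rh X Y) (bs b) (lm (rh X Y) (bs b) n - m1) + 1)) ≤
          EL (un k) n (fun _ => δ / 4) := by
        unfold E2
        refine EL_mono hP fun X _ => ?_
        rw [EL_bs a n (fun s => ind (m1 ≤ lm (rh X Y) s n ∧
          Mx (rh X Y) s n ≤ Mx (rh X Y) s (lm (rh X Y) s n - m1) + 1))]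
        exact (H1 a (rh X Y) n m1 ha0 q2 (hA1.trans q1)).trans (HA _ q1)
      rwa [EL_const hP] at this
    have e3 : E2 k a (m1 + m2) (fun X b => ind (L1 < lcs (X.drop m2) (Y.take C)) +
        ind (lcs (X.take m2) (Y.take C) < L2) + ind (N0 < b.count true)) =
        (E2 k a (m1 + m2) (fun X _ => ind (L1 < lcs (X.drop m2) (Y.take C))) +
          E2 k a (m1 + m2) (fun X _ => ind (lcs (X.take m2) (Y.take C) < L2))) +
          E2 k a (m1 + m2) (fun _ b => ind (N0 < b.count true)) := by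
      rw [E2_add (m1 + m2) (fun X _ => ind (L1 < lcs (X.drop m2) (Y.take C)) +
        ind (lcs (X.take m2) (Y.take C) < L2)), E2_add]
    rw [e3] at f
    linarith only [f, b1, b2]
  refine key.trans ?_
  rw [EL_add l (fun _ => δ / 2), EL_const hP, EL_mul_left, EL_add l (fun Y =>
    E2 k a (m1 + m2) (fun X _ => ind (L1 < lcs (X.drop m2) (Y.take C))) +
      E2 k a (m1 + m2) (fun X _ => ind (lcs (X.take m2) (Y.take C) < L2))), EL_add]
  have t1 := farPr_T1 k hk2 ha0.le haone m1 m2 L1 C l hCl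
  have t2 := farPr_T2 k hk2 ha0.le haone m1 m2 L2 C l z c hCl p3 p4 p5 p2
  have t3 := farPr_T3 k hk2 ha0.le haone m1 m2 N0 l
  have t4 := mul_le_mul_of_nonneg_left (add_le_add (add_le_add t1 t2) t3)
    (by positivity : (0 : ℝ) ≤ (m1 : ℝ) + m2 + 1)
  have t5 := t4.trans q3
  linarith only [t5, hδ]

end LCSV
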