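import Pool.Agent.LCSV.Fv

/-!
# Flipping an element of the set hit (deterministic)

Let rho be antitone, s a subset of range n, M = Mx rho s n, i in range n minus s, s1 = insert i s.
fv s1 g = fv s g + (if i < g then 1 else 0) (fv_insert). For i in hit rho s n: fv s (i+1) = M, so Mx rho s1 n = M + 1
(gaps g <= i have fv s1 g = fv s g <= M; the gap i + 1 has M + 1; all others at most M + 1).
Let first rho s n be the first maximal gap.
hit_insert: for i in hit rho s n: hit rho s1 n = (hit rho s n).filter (i < .)  [rows j < i have gap value at most M;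
row i is in s1; rows j > i: j not in s1 iff j not in s, fv s1 (j+1) = fv s (j+1) + 1], and the first maximal gap of s1 is i + 1.
mem_hit_of_first: if i not in s, i < n and the first maximal gap of insert i s is i + 1 then i in hit rho s n:
M1 := Mx rho s1 n = fv s1 (i+1) = fv s (i+1) + 1; gaps g > i: fv s g = fv s1 g - 1 <= M1 - 1; gaps g <= i: fv s g = fv s1 g < M1.
So Mx rho s n = M1 - 1 = fv s (i+1).
first_pos: if the first maximal gap z of a set s is not 0, then z - 1 in s (because fv s (z-1) < fv s z and rho is antitone),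
z = (z - 1) + 1. first = 0 iff Mx rho s n = rho 0 (fv s 0 = rho 0).
-/

namespace LCSV

open Finset

/-- the first maximal gap -/
noncomputable def fgap (rho : ℕ → ℕ) (s : Finset ℕ) (n : ℕ) : ℕ :=
  sInf {g : ℕ | g ≤ n ∧ fv rho s g = Mx rho s n}

theorem fgap_spec (rho : ℕ → ℕ) (s : Finset ℕ) (n : ℕ) :
    fgap rho s n ≤ n ∧ fv rho s (fgap rho s n) = Mx rho s n ∧
      ∀ g, g < fgap rho s n → fv rho s g < Mx rho s n := by
  have hne : {g : ℕ | g ≤ n ∧ fv rho s g = Mx rho s n}.Nonempty := by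
    obtain ⟨g, hg, h⟩ := exists_Mx rho s n
    exact ⟨g, hg, h⟩
  have hmem : fgap rho s n ≤ n ∧ fv rho s (fgap rho s n) = Mx rho s n := Nat.sInf_mem hne
  refine ⟨hmem.1, hmem.2, fun g hg => ?_⟩
  have h1 : g ≤ n := hg.le.trans hmem.1
  refine lt_of_le_of_ne (fv_le_Mx h1) fun h2 => ?_
  have h3 : fgap rho s n ≤ g := Nat.sInf_le ⟨h1, h2⟩
  omega

private theorem hitFlip_mem {rho : ℕ → ℕ} {s : Finset ℕ} {n i : ℕ} :
    i ∈ hit rho s n ↔ i < n ∧ i ∉ s ∧ fv rho s (i + 1) = Mx rho s n := by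
  unfold hit
  rw [Finset.mem_filter, Finset.mem_range]

theorem Mx_insert_hit {rho : ℕ → ℕ} {s : Finset ℕ} {n i : ℕ} (hi : i ∈ hit rho s n) :
    Mx rho (insert i s) n = Mx rho s n + 1 := by
  obtain ⟨h1, h2, h3⟩ := hitFlip_mem.1 hi
  apply le_antisymm
  · refine Mx_le fun g hg => ?_
    rw [fv_insert h2]
    have h4 := fv_le_Mx (rho := rho) (s := s) hg
    split_ifs <;> omega
  · have h4 := fv_le_Mx (rho := rho) (s := insert i s) (show i + 1 ≤ n by omega)
    rw [fv_insert h2, if_pos (Nat.lt_succ_self i), h3] at h4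
    exact h4

theorem hit_insert {rho : ℕ → ℕ} {s : Finset ℕ} {n i : ℕ} (hi : i ∈ hit rho s n) :
    hit rho (insert i s) n = (hit rho s n).filter (fun j => i < j) := by
  have hM := Mx_insert_hit hi
  obtain ⟨h1, h2, h3⟩ := hitFlip_mem.1 hi
  ext j
  rw [Finset.mem_filter, hitFlip_mem, hitFlip_mem, hM, fv_insert h2, Finset.mem_insert]
  constructor
  · rintro ⟨h4, h5, h6⟩
    have h7 := fv_le_Mx (rho := rho) (s := s) (show j + 1 ≤ n by omega)
    have h8 : j ≠ i := fun h => h5 (Or.inl h)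
    have h9 : i < j := by
      by_contra hc
      rw [if_neg (by omega)] at h6
      omega
    rw [if_pos (by omega)] at h6
    exact ⟨⟨h4, fun h => h5 (Or.inr h), by omega⟩, h9⟩
  · rintro ⟨⟨h4, h5, h6⟩, h7⟩
    refine ⟨h4, ?_, ?_⟩
    · rintro (h | h)
      · omega
      · exact h5 h
    · rw [if_pos (by omega), h6]

theorem fgap_insert {rho : ℕ → ℕ} {s : Finset ℕ} {n i : ℕ} (hi : i ∈ hit rho s n) :
    fgap rho (insert i s) n = i + 1 := by
  have hM := Mx_insert_hit hi
  obtain ⟨h1, h2, h3⟩ := hitFlip_mem.1 hi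
  obtain ⟨h4, h5, h6⟩ := fgap_spec rho (insert i s) n
  have h7 : fv rho (insert i s) (i + 1) = Mx rho (insert i s) n := by
    rw [fv_insert h2, if_pos (Nat.lt_succ_self i), h3, hM]
  have h8 : ¬ i + 1 < fgap rho (insert i s) n := by
    intro h
    have := h6 _ h
    omega
  have h9 : ¬ fgap rho (insert i s) n ≤ i := by
    intro h
    rw [fv_insert h2, if_neg (by omega), hM] at h5
    have := fv_le_Mx (rho := rho) (s := s) h4
    omega
  omega

theorem mem_hit_of_fgap {rho : ℕ → ℕ} {s : Finset ℕ} {n i : ℕ} (hi : i ∉ s) (hin : i < n)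
    (h : fgap rho (insert i s) n = i + 1) : i ∈ hit rho s n := by
  obtain ⟨h4, h5, h6⟩ := fgap_spec rho (insert i s) n
  rw [h] at h4 h5 h6
  rw [fv_insert hi, if_pos (Nat.lt_succ_self i)] at h5
  have h7 : Mx rho s n ≤ fv rho s (i + 1) := by
    refine Mx_le fun g hg => ?_
    by_cases hgi : i < g
    · have h8 := fv_le_Mx (rho := rho) (s := insert i s) hg
      rw [fv_insert hi, if_pos hgi] at h8
      omega
    · have h8 := h6 g (by omega)
      rw [fv_insert hi, if_neg hgi] at h8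
      omega
  have h8 := fv_le_Mx (rho := rho) (s := s) (show i + 1 ≤ n by omega)
  exact hitFlip_mem.2 ⟨hin, hi, by omega⟩

theorem fgap_pos {rho : ℕ → ℕ} (hr : Antitone rho) {s : Finset ℕ} {n : ℕ}
    (h : fgap rho s n ≠ 0) : ∃ i ∈ s, i < n ∧ fgap rho s n = i + 1 := by
  obtain ⟨h4, h5, h6⟩ := fgap_spec rho s n
  obtain ⟨i, hi⟩ := Nat.exists_eq_succ_of_ne_zero h
  rw [hi] at h4 h5 h6
  refine ⟨i, ?_, by omega, hi⟩
  by_contra hc
  have h7 := h6 i (Nat.lt_succ_self i)
  have h8 := hr (Nat.le_succ i)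
  unfold fv at h5 h7
  rw [Nat.succ_eq_add_one] at h5 h8
  rw [ht_succ, if_neg hc] at h5
  omega

theorem fgap_eq_zero {rho : ℕ → ℕ} {s : Finset ℕ} {n : ℕ} :
    fgap rho s n = 0 ↔ Mx rho s n = rho 0 := by
  have h0 : fv rho s 0 = rho 0 := by
    unfold fv
    rw [ht_zero, zero_add]
  obtain ⟨h4, h5, h6⟩ := fgap_spec rho s n
  constructor
  · intro h
    rw [h, h0] at h5
    exact h5.symm
  · intro h
    by_contra hc
    have h7 := h6 0 (Nat.pos_of_ne_zero hc)
    omega

end LCSV
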