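import Pool.Agent.LCSV.Flip
import Pool.Agent.LCSV.HitFlip

/-!
# The number of elements of hit is dominated by a geometric variable, for EVERY right environment rho

Let P u = Ex a n (ind (u <= card hit)). Claim P (u+1) <= (1-a) P u; then geo_tail by induction (P 0 <= 1).
Apply flipE with G i s = ind (card (hit rho s n) = u and fgap rho s n = i + 1).
Right side: sum over i in s of G i s <= ind (card hit = u) (at most one i).
Left side: if card (hit s) >= u + 1 let i be the element of hit with exactly u elements of hit above it (the (u+1)-th largest):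
by hit_insert and fgap_insert G i (insert i s) = 1, so the sum is >= ind (u + 1 <= card hit).
Hence a P(u+1) <= (1-a) Ex(ind (card hit = u)) = (1-a) (P u - P (u+1)), i.e. P (u+1) <= (1-a) P u.
-/

namespace LCSV

open Finset

theorem Geo_exists (u : ℕ) : ∀ H : Finset ℕ, u + 1 ≤ H.card →
    ∃ i ∈ H, (H.filter (fun j => i < j)).card = u := by
  induction u with
  | zero =>
    intro H hH
    have hne : H.Nonempty := card_pos.1 (by omega)
    refine ⟨H.max' hne, H.max'_mem hne, ?_⟩
    rw [card_eq_zero, filter_eq_empty_iff]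
    intro j hj
    exact not_lt.2 (H.le_max' j hj)
  | succ u ih =>
    intro H hH
    have hne : H.Nonempty := card_pos.1 (by omega)
    have hm := H.max'_mem hne
    obtain ⟨i, hi, hi2⟩ := ih (H.erase (H.max' hne)) (by rw [card_erase_of_mem hm]; omega)
    have hiH : i ∈ H := mem_of_mem_erase hi
    have hlt : i < H.max' hne := lt_of_le_of_ne (H.le_max' i hiH) (ne_of_mem_erase hi)
    refine ⟨i, hiH, ?_⟩
    have h1 : H.filter (fun j => i < j) =
        insert (H.max' hne) ((H.erase (H.max' hne)).filter (fun j => i < j)) := by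
      ext j
      simp only [mem_filter, mem_insert, mem_erase]
      constructor
      · rintro ⟨h2, h3⟩
        by_cases h4 : j = H.max' hne
        · exact Or.inl h4
        · exact Or.inr ⟨⟨h4, h2⟩, h3⟩
      · rintro (h2 | ⟨⟨_, h3⟩, h4⟩)
        · rw [h2]
          exact ⟨hm, hlt⟩
        · exact ⟨h3, h4⟩
    rw [h1, card_insert_of_notMem, hi2]
    intro h2
    exact (ne_of_mem_erase (mem_of_mem_filter _ h2)) rfl

theorem geo_step (a : ℝ) (h0 : 0 < a) (h1 : a < 1) (rho : ℕ → ℕ) (n u : ℕ) :
    Ex a n (fun s => ind (u + 1 ≤ (hit rho s n).card)) ≤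
      (1 - a) * Ex a n (fun s => ind (u ≤ (hit rho s n).card)) := by
  have hfl := flipE a n (fun i s => ind ((hit rho s n).card = u ∧ fgap rho s n = i + 1))
  have hl : Ex a n (fun s => ind (u + 1 ≤ (hit rho s n).card)) ≤
      Ex a n (fun s => ∑ i ∈ range n \ s,
        ind ((hit rho (insert i s) n).card = u ∧ fgap rho (insert i s) n = i + 1)) := by
    apply Ex_mono h0.le h1.le
    intro s _
    by_cases hc : u + 1 ≤ (hit rho s n).card
    · rw [ind_true hc]
      obtain ⟨i, hi, hi2⟩ := Geo_exists u _ hc
      have hi3 : i ∈ range n \ s := by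
        unfold hit at hi
        rw [mem_filter] at hi
        exact mem_sdiff.2 ⟨hi.1, hi.2.1⟩
      have h2 : ind ((hit rho (insert i s) n).card = u ∧ fgap rho (insert i s) n = i + 1) = 1 := by
        apply ind_true
        rw [hit_insert hi, fgap_insert hi]
        exact ⟨hi2, rfl⟩
      rw [← h2]
      exact single_le_sum (f := fun i => ind ((hit rho (insert i s) n).card = u ∧
        fgap rho (insert i s) n = i + 1)) (fun j _ => ind_nonneg _) hi3
    · rw [ind_false hc]
      exact sum_nonneg fun j _ => ind_nonneg _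
  have hr : Ex a n (fun s => ∑ i ∈ s, ind ((hit rho s n).card = u ∧ fgap rho s n = i + 1)) ≤
      Ex a n (fun s => ind (u ≤ (hit rho s n).card) - ind (u + 1 ≤ (hit rho s n).card)) := by
    apply Ex_mono h0.le h1.le
    intro s _
    by_cases hc : (hit rho s n).card = u
    · rw [ind_true (by omega : u ≤ (hit rho s n).card), ind_false (by omega : ¬ u + 1 ≤ (hit rho s n).card), sub_zero]
      have h2 : ∀ i ∈ s, ind ((hit rho s n).card = u ∧ fgap rho s n = i + 1) =
          if fgap rho s n = i + 1 then (1 : ℝ) else 0 := by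
        intro i _
        by_cases h3 : fgap rho s n = i + 1
        · rw [if_pos h3, ind_true ⟨hc, h3⟩]
        · rw [if_neg h3, ind_false (fun h4 => h3 h4.2)]
      rw [sum_congr rfl h2, sum_ite, sum_const_zero, add_zero, sum_const, nsmul_eq_mul, mul_one]
      have h4 : (s.filter (fun i => fgap rho s n = i + 1)).card ≤ 1 := by
        rw [card_le_one]
        intro i hi j hj
        have h5 := (mem_filter.1 hi).2
        have h6 := (mem_filter.1 hj).2
        omega
      exact_mod_cast h4
    · have h2 : ∀ i ∈ s, ind ((hit rho s n).card = u ∧ fgap rho s n = i + 1) = 0 := by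
        intro i _
        exact ind_false (fun h4 => hc h4.1)
      rw [sum_congr rfl h2, sum_const_zero, sub_nonneg]
      exact ind_mono (fun h => by omega)
  rw [Ex_sub] at hr
  have hr2 := mul_le_mul_of_nonneg_left hr (by linarith : (0 : ℝ) ≤ 1 - a)
  have hl2 := mul_le_mul_of_nonneg_left hl h0.le
  rw [hfl] at hl2
  linarith

theorem geo_tail (a : ℝ) (h0 : 0 < a) (h1 : a < 1) (rho : ℕ → ℕ) (n u : ℕ) :
    Ex a n (fun s => ind (u ≤ (hit rho s n).card)) ≤ (1 - a) ^ u := by
  induction u with
  | zero =>
    rw [pow_zero]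
    calc Ex a n (fun s => ind (0 ≤ (hit rho s n).card)) ≤ Ex a n (fun _ => 1) :=
          Ex_mono h0.le h1.le fun s _ => ind_le_one _
      _ = 1 := Ex_const 1
  | succ u ih =>
    refine (geo_step a h0 h1 rho n u).trans ?_
    rw [pow_succ, mul_comm ((1 - a) ^ u)]
    exact mul_le_mul_of_nonneg_left ih (by linarith)

end LCSV
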