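import Pool.Agent.LCSV.InsInv
import Pool.Agent.LCSV.Flip

/-!
# One insertion in the r-th block

Let A d nu be the event (G s, l <= qq r, fv(qq r) = fv(qq (r+1)) + d, bits s (qq r) l = nu).
Use flipE with the function G1 i s1 = ind (s1 in A (d+1) (nu+1) and qq s1 r - l <= i < qq s1 r) :
left side >= (l - nu) Ex(ind A d nu), because for s in A d nu every i of the block not in s (there are l - nu of them, all < n since
qq r <= n) satisfies insert i s in A (d+1) (nu+1) (InsInv: qq unchanged, fv(qq r) + 1, fv(qq(r+1)) unchanged, bits + 1; G by hG);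
right side = (nu + 1) Ex(ind A (d+1) (nu+1)) (the elements of s1 in the block).
-/

namespace LCSV

open Finset

private theorem ins1_low (rho : ℕ → ℕ) (n l r d nu : ℕ) (G : Finset ℕ → Prop)
    (hG : ∀ s, s ⊆ range n → ∀ i, i ∉ s → l ≤ qq rho s n l r → qq rho s n l r - l ≤ i →
      i < qq rho s n l r → G s → G (insert i s)) (s : Finset ℕ) (hs : s ⊆ range n) :
    ((l : ℝ) - nu) * ind (G s ∧ l ≤ qq rho s n l r ∧
        fv rho s (qq rho s n l r) = fv rho s (qq rho s n l (r + 1)) + d ∧
        bits s (qq rho s n l r) l = nu) ≤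
      ∑ i ∈ range n \ s, ind ((G (insert i s) ∧ l ≤ qq rho (insert i s) n l r ∧
        fv rho (insert i s) (qq rho (insert i s) n l r) =
          fv rho (insert i s) (qq rho (insert i s) n l (r + 1)) + (d + 1) ∧
        bits (insert i s) (qq rho (insert i s) n l r) l = nu + 1) ∧
        qq rho (insert i s) n l r - l ≤ i ∧ i < qq rho (insert i s) n l r) := by
  by_cases hP : G s ∧ l ≤ qq rho s n l r ∧
        fv rho s (qq rho s n l r) = fv rho s (qq rho s n l (r + 1)) + d ∧
        bits s (qq rho s n l r) l = nu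
  · rw [ind_true hP, mul_one]
    obtain ⟨hGs, hl, hf, hb⟩ := hP
    have hq : qq rho s n l r ≤ n := qq_le rho s n l r
    have hsub : Ico (qq rho s n l r - l) (qq rho s n l r) \ s ⊆ range n \ s := by
      intro i hi
      rw [mem_sdiff, mem_Ico] at hi
      rw [mem_sdiff, mem_range]
      exact ⟨by omega, hi.2⟩
    have hc : (Ico (qq rho s n l r - l) (qq rho s n l r) \ s).card + nu = l := by
      have h1 := card_sdiff_add_card_inter (Ico (qq rho s n l r - l) (qq rho s n l r)) s
      rw [inter_comm] at h1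
      have h2 : (s ∩ Ico (qq rho s n l r - l) (qq rho s n l r)).card = nu := hb
      rw [h2, Nat.card_Ico] at h1
      omega
    have hcr : (l : ℝ) - nu =
        ((Ico (qq rho s n l r - l) (qq rho s n l r) \ s).card : ℝ) := by
      have h3 : ((Ico (qq rho s n l r - l) (qq rho s n l r) \ s).card : ℝ) + nu = l := by
        exact_mod_cast hc
      linarith
    rw [hcr, card_eq_sum_ones, Nat.cast_sum, Nat.cast_one]
    calc ∑ i ∈ Ico (qq rho s n l r - l) (qq rho s n l r) \ s, (1 : ℝ)
        = ∑ i ∈ Ico (qq rho s n l r - l) (qq rho s n l r) \ s,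
          ind ((G (insert i s) ∧ l ≤ qq rho (insert i s) n l r ∧
          fv rho (insert i s) (qq rho (insert i s) n l r) =
            fv rho (insert i s) (qq rho (insert i s) n l (r + 1)) + (d + 1) ∧
          bits (insert i s) (qq rho (insert i s) n l r) l = nu + 1) ∧
          qq rho (insert i s) n l r - l ≤ i ∧ i < qq rho (insert i s) n l r) := by
          apply sum_congr rfl
          intro i hi
          rw [mem_sdiff, mem_Ico] at hi
          obtain ⟨⟨h1, h2⟩, h3⟩ := hi
          symm
          apply ind_true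
          rw [qq_insert hl h1 h2 h3 r, qq_insert hl h1 h2 h3 (r + 1),
            fv_qq_insert_le hl h1 h2 h3 le_rfl,
            fv_qq_insert_gt hl h1 h2 h3 (show r < r + 1 by omega),
            bits_qq_insert_eq hl h1 h2 h3]
          exact ⟨⟨hG s hs i h3 hl h1 h2 hGs, hl, by omega, by omega⟩, h1, h2⟩
      _ ≤ _ := sum_le_sum_of_subset_of_nonneg hsub (fun _ _ _ => ind_nonneg _)
  · rw [ind_false hP, mul_zero]
    exact sum_nonneg (fun _ _ => ind_nonneg _)

private theorem ins1_up (q l nu : ℕ) (Q : Prop) (s : Finset ℕ)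
    (hQ : Q → bits s q l = nu + 1) :
    ∑ i ∈ s, ind (Q ∧ q - l ≤ i ∧ i < q) ≤ ((nu : ℝ) + 1) * ind Q := by
  classical
  by_cases h : Q
  · rw [ind_true h, mul_one]
    have hb : (s ∩ Ico (q - l) q).card = nu + 1 := hQ h
    have hr : ((nu : ℝ) + 1) = ((s ∩ Ico (q - l) q).card : ℝ) := by
      rw [hb]
      push_cast
      ring
    rw [hr, ← filter_mem_eq_inter, card_filter, Nat.cast_sum]
    apply le_of_eq
    apply sum_congr rfl
    intro i _
    by_cases hi : i ∈ Ico (q - l) q
    · rw [if_pos hi, Nat.cast_one]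
      rw [mem_Ico] at hi
      exact ind_true ⟨h, hi⟩
    · rw [if_neg hi, Nat.cast_zero]
      apply ind_false
      rintro ⟨_, h2⟩
      exact hi (mem_Ico.mpr h2)
  · rw [ind_false h, mul_zero]
    apply le_of_eq
    apply sum_eq_zero
    intro i _
    apply ind_false
    rintro ⟨h2, _⟩
    exact h h2

theorem ins1 (a : ℝ) (h0 : 0 ≤ a) (h1 : a ≤ 1) (rho : ℕ → ℕ) (n l r d nu : ℕ)
    (G : Finset ℕ → Prop)
    (hG : ∀ s, s ⊆ range n → ∀ i, i ∉ s → l ≤ qq rho s n l r → qq rho s n l r - l ≤ i →
      i < qq rho s n l r → G s → G (insert i s)) :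
    a * ((l : ℝ) - nu) * Ex a n (fun s => ind (G s ∧ l ≤ qq rho s n l r ∧
        fv rho s (qq rho s n l r) = fv rho s (qq rho s n l (r + 1)) + d ∧
        bits s (qq rho s n l r) l = nu)) ≤
      (1 - a) * (nu + 1) * Ex a n (fun s => ind (G s ∧ l ≤ qq rho s n l r ∧
        fv rho s (qq rho s n l r) = fv rho s (qq rho s n l (r + 1)) + (d + 1) ∧
        bits s (qq rho s n l r) l = nu + 1)) := by
  have hle : a * Ex a n (fun s => ((l : ℝ) - nu) * ind (G s ∧ l ≤ qq rho s n l r ∧
        fv rho s (qq rho s n l r) = fv rho s (qq rho s n l (r + 1)) + d ∧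
        bits s (qq rho s n l r) l = nu)) ≤
      a * Ex a n (fun s => ∑ i ∈ range n \ s,
        ind ((G (insert i s) ∧ l ≤ qq rho (insert i s) n l r ∧
        fv rho (insert i s) (qq rho (insert i s) n l r) =
          fv rho (insert i s) (qq rho (insert i s) n l (r + 1)) + (d + 1) ∧
        bits (insert i s) (qq rho (insert i s) n l r) l = nu + 1) ∧
        qq rho (insert i s) n l r - l ≤ i ∧ i < qq rho (insert i s) n l r)) := by
    apply mul_le_mul_of_nonneg_left _ h0
    apply Ex_mono h0 h1
    intro s hs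
    exact ins1_low rho n l r d nu G hG s hs
  rw [flipE a n (fun i s1 => ind ((G s1 ∧ l ≤ qq rho s1 n l r ∧
        fv rho s1 (qq rho s1 n l r) =
          fv rho s1 (qq rho s1 n l (r + 1)) + (d + 1) ∧
        bits s1 (qq rho s1 n l r) l = nu + 1) ∧
        qq rho s1 n l r - l ≤ i ∧ i < qq rho s1 n l r)), Ex_mul_left] at hle
  have hle2 : (1 - a) * Ex a n (fun s => ∑ i ∈ s, ind ((G s ∧ l ≤ qq rho s n l r ∧
        fv rho s (qq rho s n l r) = fv rho s (qq rho s n l (r + 1)) + (d + 1) ∧
        bits s (qq rho s n l r) l = nu + 1) ∧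
        qq rho s n l r - l ≤ i ∧ i < qq rho s n l r)) ≤
      (1 - a) * Ex a n (fun s => ((nu : ℝ) + 1) * ind (G s ∧ l ≤ qq rho s n l r ∧
        fv rho s (qq rho s n l r) = fv rho s (qq rho s n l (r + 1)) + (d + 1) ∧
        bits s (qq rho s n l r) l = nu + 1)) := by
    apply mul_le_mul_of_nonneg_left _ (by linarith)
    apply Ex_mono h0 h1
    intro s hs
    exact ins1_up _ _ _ _ _ (fun h => h.2.2.2)
  rw [Ex_mul_left] at hle2
  have h3 := le_trans hle hle2
  rw [mul_assoc, mul_assoc]
  exact h3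

end LCSV
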