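import Pool.Agent.LCSV.Ins1

/-!
# Many insertions: a tie in the r-th block has probability at most 3/S

P(A d nu) <= (1 + 1/S) P(A (d+1) (nu+1)) for nu < nu0 + S: by ins1 and hnum,
a (l - nu) P(A d nu) <= (1-a)(nu+1) P(A (d+1) (nu+1)) <= (1+1/S) a (l - nu) P(A (d+1) (nu+1)), and a (l - nu) > 0 because
hnum gives (1 + 1/S) a (l - nu) >= (1-a)(nu+1) > 0. Iterate: P(A d nu) <= (1+1/S)^j P(A (d+j) (nu+j)) for nu <= nu0, j <= S.
Sum over nu <= nu0: with B = the event of the left side, P(B) <= (1+1/S)^j P(G, l <= qq r, fv(qq r) = fv(qq(r+1)) + (d+j)).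
Sum over j in range S: S P(B) <= (1+1/S)^S sum_j P(...) <= 3 P(G, l <= qq r) (the events for different j are disjoint;
(1+1/S)^S <= exp 1 < 3).
-/

namespace LCSV

open Finset

theorem Ins2_sum_le (A : Prop) (N v j : ℕ) :
    ∑ nu ∈ range N, ind (A ∧ v = nu + j) ≤ ind A := by
  by_cases hv : ∃ nu ∈ range N, v = nu + j
  · obtain ⟨nu, hnu, e⟩ := hv
    rw [Finset.sum_eq_single_of_mem nu hnu]
    · exact ind_mono fun h => h.1
    · intro m _ hm
      exact ind_false fun h => hm (by omega)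
  · rw [Finset.sum_eq_zero]
    · exact ind_nonneg A
    · intro m hm
      exact ind_false fun h => hv ⟨m, hm, h.2⟩

theorem Ins2_le_sum (A : Prop) (nu0 v : ℕ) :
    ind (A ∧ v ≤ nu0) ≤ ∑ nu ∈ range (nu0 + 1), ind (A ∧ v = nu) := by
  by_cases h : A ∧ v ≤ nu0
  · have h1 : ind (A ∧ v = v) ≤ ∑ nu ∈ range (nu0 + 1), ind (A ∧ v = nu) :=
      Finset.single_le_sum (f := fun nu => ind (A ∧ v = nu)) (fun m _ => ind_nonneg _)
        (Finset.mem_range.2 (by omega))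
    exact (ind_mono fun _ => ⟨h.1, rfl⟩).trans h1
  · rw [ind_false h]
    exact Finset.sum_nonneg fun m _ => ind_nonneg _

theorem Ins2_pow {S : ℕ} (hS : 1 ≤ S) : (1 + 1 / (S : ℝ)) ^ S ≤ 3 := by
  have hS0 : (0 : ℝ) < S := by exact_mod_cast hS
  have h1 : 1 + 1 / (S : ℝ) ≤ Real.exp (1 / (S : ℝ)) := by
    have := Real.add_one_le_exp (1 / (S : ℝ))
    linarith
  have h2 : (1 + 1 / (S : ℝ)) ^ S ≤ Real.exp (1 / (S : ℝ)) ^ S :=
    pow_le_pow_left₀ (by positivity) h1 S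
  have h3 : Real.exp (1 / (S : ℝ)) ^ S = Real.exp 1 := by
    rw [← Real.exp_nat_mul]
    congr 1
    field_simp
  rw [h3] at h2
  have h4 := Real.exp_one_lt_d9
  linarith

theorem ins2 (a : ℝ) (h0 : 0 < a) (h1 : a < 1) (rho : ℕ → ℕ) (n l r d nu0 S : ℕ) (hS : 1 ≤ S)
    (hnum : ∀ nu : ℕ, nu < nu0 + S →
      (1 - a) * ((nu : ℝ) + 1) ≤ (1 + 1 / (S : ℝ)) * (a * ((l : ℝ) - nu)))
    (G : Finset ℕ → Prop)
    (hG : ∀ s, s ⊆ range n → ∀ i, i ∉ s → l ≤ qq rho s n l r → qq rho s n l r - l ≤ i →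
      i < qq rho s n l r → G s → G (insert i s)) :
    Ex a n (fun s => ind (G s ∧ l ≤ qq rho s n l r ∧
        fv rho s (qq rho s n l r) = fv rho s (qq rho s n l (r + 1)) + d ∧
        bits s (qq rho s n l r) l ≤ nu0)) ≤
      3 / (S : ℝ) * Ex a n (fun s => ind (G s ∧ l ≤ qq rho s n l r)) := by
  have hS0 : (0 : ℝ) < S := by exact_mod_cast hS
  set P : ℕ → ℕ → ℝ := fun d' nu => Ex a n (fun s => ind (G s ∧ l ≤ qq rho s n l r ∧
        fv rho s (qq rho s n l r) = fv rho s (qq rho s n l (r + 1)) + d' ∧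
        bits s (qq rho s n l r) l = nu)) with hP
  have hP0 : ∀ d' nu, 0 ≤ P d' nu := fun d' nu => Ex_nonneg h0.le h1.le fun s _ => ind_nonneg _
  have hq0 : (0 : ℝ) ≤ 1 + 1 / (S : ℝ) := by positivity
  have hstep : ∀ d' nu, nu < nu0 + S → P d' nu ≤ (1 + 1 / (S : ℝ)) * P (d' + 1) (nu + 1) := by
    intro d' nu hnu
    have h2 := ins1 a h0.le h1.le rho n l r d' nu G hG
    have h3 := hnum nu hnu
    have h4 : 0 < (1 - a) * ((nu : ℝ) + 1) := mul_pos (by linarith) (by positivity)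
    have h5 : 0 < a * ((l : ℝ) - nu) := by
      by_contra hneg
      push Not at hneg
      have : (1 + 1 / (S : ℝ)) * (a * ((l : ℝ) - nu)) ≤ 0 := mul_nonpos_of_nonneg_of_nonpos hq0 hneg
      linarith
    have h6 : a * ((l : ℝ) - nu) * P d' nu ≤
        a * ((l : ℝ) - nu) * ((1 + 1 / (S : ℝ)) * P (d' + 1) (nu + 1)) := by
      calc a * ((l : ℝ) - nu) * P d' nu ≤ (1 - a) * ((nu : ℝ) + 1) * P (d' + 1) (nu + 1) := h2
        _ ≤ (1 + 1 / (S : ℝ)) * (a * ((l : ℝ) - nu)) * P (d' + 1) (nu + 1) :=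
          mul_le_mul_of_nonneg_right h3 (hP0 _ _)
        _ = a * ((l : ℝ) - nu) * ((1 + 1 / (S : ℝ)) * P (d' + 1) (nu + 1)) := by ring
    exact le_of_mul_le_mul_left h6 h5
  have hiter : ∀ j, j ≤ S → ∀ nu, nu ≤ nu0 →
      P d nu ≤ (1 + 1 / (S : ℝ)) ^ j * P (d + j) (nu + j) := by
    intro j
    induction j with
    | zero =>
      intro _ nu _
      simp
    | succ j ih =>
      intro hj nu hnu
      have h2 := ih (by omega) nu hnu
      have h3 := hstep (d + j) (nu + j) (by omega)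
      calc P d nu ≤ (1 + 1 / (S : ℝ)) ^ j * P (d + j) (nu + j) := h2
        _ ≤ (1 + 1 / (S : ℝ)) ^ j * ((1 + 1 / (S : ℝ)) * P (d + j + 1) (nu + j + 1)) :=
          mul_le_mul_of_nonneg_left h3 (pow_nonneg hq0 j)
        _ = (1 + 1 / (S : ℝ)) ^ (j + 1) * P (d + (j + 1)) (nu + (j + 1)) := by
          rw [pow_succ]
          have e1 : d + j + 1 = d + (j + 1) := by ring
          have e2 : nu + j + 1 = nu + (j + 1) := by ring
          rw [e1, e2]
          ring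
  set Q : ℕ → ℝ := fun j => Ex a n (fun s => ind ((G s ∧ l ≤ qq rho s n l r ∧
        fv rho s (qq rho s n l r) = fv rho s (qq rho s n l (r + 1)) + (d + j)))) with hQ
  set B : ℝ := Ex a n (fun s => ind (G s ∧ l ≤ qq rho s n l r ∧
        fv rho s (qq rho s n l r) = fv rho s (qq rho s n l (r + 1)) + d ∧
        bits s (qq rho s n l r) l ≤ nu0)) with hB
  have hB1 : B ≤ ∑ nu ∈ range (nu0 + 1), P d nu := by
    rw [hB, hP, ← Ex_sum]
    apply Ex_mono h0.le h1.le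
    intro s _
    have h2 := Ins2_le_sum (G s ∧ l ≤ qq rho s n l r ∧
        fv rho s (qq rho s n l r) = fv rho s (qq rho s n l (r + 1)) + d) nu0
        (bits s (qq rho s n l r) l)
    simp only [and_assoc] at h2
    exact h2
  have hQ1 : ∀ j, ∑ nu ∈ range (nu0 + 1), P (d + j) (nu + j) ≤ Q j := by
    intro j
    rw [hQ, hP, ← Ex_sum]
    apply Ex_mono h0.le h1.le
    intro s _
    have h2 := Ins2_sum_le (G s ∧ l ≤ qq rho s n l r ∧
        fv rho s (qq rho s n l r) = fv rho s (qq rho s n l (r + 1)) + (d + j)) (nu0 + 1)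
        (bits s (qq rho s n l r) l) j
    simp only [and_assoc] at h2
    exact h2
  have hBQ : ∀ j, j ≤ S → B ≤ (1 + 1 / (S : ℝ)) ^ j * Q j := by
    intro j hj
    calc B ≤ ∑ nu ∈ range (nu0 + 1), P d nu := hB1
      _ ≤ ∑ nu ∈ range (nu0 + 1), (1 + 1 / (S : ℝ)) ^ j * P (d + j) (nu + j) :=
        Finset.sum_le_sum fun nu hnu => hiter j hj nu (by have := Finset.mem_range.1 hnu; omega)
      _ = (1 + 1 / (S : ℝ)) ^ j * ∑ nu ∈ range (nu0 + 1), P (d + j) (nu + j) := by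
        rw [Finset.mul_sum]
      _ ≤ (1 + 1 / (S : ℝ)) ^ j * Q j := mul_le_mul_of_nonneg_left (hQ1 j) (pow_nonneg hq0 j)
  have hQ0 : ∀ j, 0 ≤ Q j := fun j => Ex_nonneg h0.le h1.le fun s _ => ind_nonneg _
  have hQs : ∑ j ∈ range S, Q j ≤ Ex a n (fun s => ind (G s ∧ l ≤ qq rho s n l r)) := by
    rw [hQ, ← Ex_sum]
    apply Ex_mono h0.le h1.le
    intro s _
    have h2 : ∀ j, ind (G s ∧ l ≤ qq rho s n l r ∧
        fv rho s (qq rho s n l r) = fv rho s (qq rho s n l (r + 1)) + (d + j)) ≤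
        ind ((G s ∧ l ≤ qq rho s n l r) ∧
          fv rho s (qq rho s n l r) = j + (fv rho s (qq rho s n l (r + 1)) + d)) := by
      intro j
      apply ind_mono
      rintro ⟨h3, h4, h5⟩
      exact ⟨⟨h3, h4⟩, by omega⟩
    exact (Finset.sum_le_sum fun j _ => h2 j).trans (Ins2_sum_le _ S _ _)
  have hfin : (S : ℝ) * B ≤ 3 * Ex a n (fun s => ind (G s ∧ l ≤ qq rho s n l r)) := by
    have h2 : ∑ _j ∈ range S, B ≤ ∑ j ∈ range S, (1 + 1 / (S : ℝ)) ^ S * Q j := by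
      apply Finset.sum_le_sum
      intro j hj
      have hj' := Finset.mem_range.1 hj
      refine (hBQ j hj'.le).trans (mul_le_mul_of_nonneg_right ?_ (hQ0 j))
      apply pow_le_pow_right₀ _ hj'.le
      have : 0 < 1 / (S : ℝ) := by positivity
      linarith
    rw [Finset.sum_const, Finset.card_range, nsmul_eq_mul, ← Finset.mul_sum] at h2
    have h3 : 0 ≤ ∑ j ∈ range S, Q j := Finset.sum_nonneg fun j _ => hQ0 j
    calc (S : ℝ) * B ≤ (1 + 1 / (S : ℝ)) ^ S * ∑ j ∈ range S, Q j := h2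
      _ ≤ 3 * ∑ j ∈ range S, Q j := mul_le_mul_of_nonneg_right (Ins2_pow hS) h3
      _ ≤ 3 * Ex a n (fun s => ind (G s ∧ l ≤ qq rho s n l r)) :=
        mul_le_mul_of_nonneg_left hQs (by norm_num)
  rw [div_mul_eq_mul_div, le_div_iff₀ hS0]
  linarith

end LCSV
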