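import Pool.Agent.LCSV.Fv

/-!
# Inserting an element in the r-th block does not move the chain

Hypotheses: l <= qq r, i in the block [qq r - l, qq r), i not in s. s1 = insert i s; fv s1 g = fv s g + (if i < g then 1 else 0).
qq_insert for t <= r, by induction on t, together with i < qq t: (t = 0) all gaps g > i get +1 and qq 0 = lm rho s n > i
(qq is antitone and i < qq r <= qq 0), so the value at qq 0 is M + 1, the gaps beyond qq 0 have value < M + 1, all others at most
M + 1: lm_eq. (t + 1 <= r) the same on the range 0..(qq t - l), which contains qq (t+1) >= qq r > i.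
For t = r + 1: on the range 0..(qq r - l) all gaps are <= i, so nothing changes. For t > r + 1 the same (qq t - l <= qq r - l <= i).
bits: the block of t > r consists of rows < qq t <= qq r - l <= i; for t < r the block of t consists of rows >= qq t - l >= qq (t+1) >= qq r > i;
the block of r contains i.
-/

namespace LCSV

open Finset

variable {rho : ℕ → ℕ} {s : Finset ℕ} {n l r i : ℕ}

theorem insInv_lmA {rho : ℕ → ℕ} {s : Finset ℕ} {T i : ℕ} (h : i < lm rho s T) (hi : i ∉ s) :
    lm rho (insert i s) T = lm rho s T := by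
  apply lm_eq (lm_le rho s T)
  · intro g' hg'
    rw [fv_insert hi, fv_insert hi, if_pos h, fv_lm]
    have := fv_le_Mx (rho := rho) (s := s) hg'
    split_ifs <;> omega
  · intro g' h1 h2
    rw [fv_insert hi, fv_insert hi, if_pos h, fv_lm, if_pos (h.trans h1)]
    have := lt_Mx_of_lm_lt (rho := rho) (s := s) h1 h2
    omega

theorem insInv_lmB {rho : ℕ → ℕ} {s : Finset ℕ} {T i : ℕ} (h : T ≤ i) (hi : i ∉ s) :
    lm rho (insert i s) T = lm rho s T := by
  have e : ∀ g, g ≤ T → fv rho (insert i s) g = fv rho s g := by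
    intro g hg
    rw [fv_insert hi, if_neg (by omega)]
    rfl
  apply lm_eq (lm_le rho s T)
  · intro g' hg'
    rw [e g' hg', e _ (lm_le rho s T), fv_lm]
    exact fv_le_Mx hg'
  · intro g' h1 h2
    rw [e g' h2, e _ (lm_le rho s T), fv_lm]
    exact lt_Mx_of_lm_lt h1 h2

theorem insInv_lt (h2 : i < qq rho s n l r) {t : ℕ} (ht : t ≤ r) : i < qq rho s n l t :=
  lt_of_lt_of_le h2 (qq_anti rho s n l ht)

theorem insInv_ge (h1 : qq rho s n l r - l ≤ i) {t : ℕ} (ht : r < t) : qq rho s n l t ≤ i :=
  (qq_anti rho s n l (Nat.succ_le_of_lt ht)).trans ((qq_succ_le rho s n l r).trans h1)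

theorem qq_insert (hl : l ≤ qq rho s n l r) (h1 : qq rho s n l r - l ≤ i)
    (h2 : i < qq rho s n l r) (hi : i ∉ s) (t : ℕ) :
    qq rho (insert i s) n l t = qq rho s n l t := by
  induction t with
  | zero =>
    show lm rho (insert i s) n = lm rho s n
    exact insInv_lmA (insInv_lt h2 (Nat.zero_le r)) hi
  | succ t ih =>
    show lm rho (insert i s) (qq rho (insert i s) n l t - l) = lm rho s (qq rho s n l t - l)
    rw [ih]
    rcases Nat.lt_or_ge t r with h | h
    · have h3 := insInv_lt (rho := rho) (s := s) (n := n) (l := l) h2 (Nat.succ_le_of_lt h)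
      exact insInv_lmA h3 hi
    · apply insInv_lmB _ hi
      rcases Nat.eq_or_lt_of_le h with h4 | h4
      · rw [← h4]; exact h1
      · have := insInv_ge (rho := rho) (s := s) (n := n) (l := l) h1 h4
        omega

theorem fv_qq_insert_le (hl : l ≤ qq rho s n l r) (h1 : qq rho s n l r - l ≤ i)
    (h2 : i < qq rho s n l r) (hi : i ∉ s) {t : ℕ} (ht : t ≤ r) :
    fv rho (insert i s) (qq rho s n l t) = fv rho s (qq rho s n l t) + 1 := by
  rw [fv_insert hi, if_pos (insInv_lt h2 ht)]

theorem fv_qq_insert_gt (hl : l ≤ qq rho s n l r) (h1 : qq rho s n l r - l ≤ i)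
    (h2 : i < qq rho s n l r) (hi : i ∉ s) {t : ℕ} (ht : r < t) :
    fv rho (insert i s) (qq rho s n l t) = fv rho s (qq rho s n l t) := by
  rw [fv_insert hi, if_neg (by have := insInv_ge (rho := rho) (s := s) (n := n) (l := l) h1 ht; omega)]
  rfl

theorem bits_qq_insert_eq (hl : l ≤ qq rho s n l r) (h1 : qq rho s n l r - l ≤ i)
    (h2 : i < qq rho s n l r) (hi : i ∉ s) :
    bits (insert i s) (qq rho s n l r) l = bits s (qq rho s n l r) l + 1 := by
  unfold bits
  rw [Finset.insert_inter_of_mem (by rw [Finset.mem_Ico]; exact ⟨h1, h2⟩)]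
  rw [Finset.card_insert_of_notMem]
  intro h
  exact hi (Finset.mem_inter.mp h).1

theorem bits_qq_insert_ne (hl : l ≤ qq rho s n l r) (h1 : qq rho s n l r - l ≤ i)
    (h2 : i < qq rho s n l r) (hi : i ∉ s) {t : ℕ} (ht : t ≠ r) :
    bits (insert i s) (qq rho s n l t) l = bits s (qq rho s n l t) l := by
  unfold bits
  rw [Finset.insert_inter_of_notMem]
  rw [Finset.mem_Ico]
  rintro ⟨h3, h4⟩
  rcases Nat.lt_or_gt_of_ne ht with h | h
  · have h5 : i < qq rho s n l (t + 1) := insInv_lt h2 (Nat.succ_le_of_lt h)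
    have h6 := qq_succ_le rho s n l t
    omega
  · have h5 := insInv_ge (rho := rho) (s := s) (n := n) (l := l) h1 h
    omega

end LCSV
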