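import Pool.Agent.LCSV.Av

/-!
# Limit laws: lower bound for the normalisation b

Proof. Take M with mu {x | M < |x|} < c' (tightness of one probability measure: the sets {M < |x|} decrease to the empty set).
Let f x = max 0 (min 1 (|x| - M)), continuous, 0 <= f <= 1, f = 0 for |x| <= M, f = 1 for |x| >= M + 1.
Then int f dmu <= mu {M < |x|} < c', so for all large n: av (f ((Z - a) / b)) < c'. If (M + 1) b n <= c' sqrt n for such an n >= 1,
then ind (c' sqrt n <= |Z - a|) <= f ((Z - a) / b) because c' sqrt n <= |Z - a| implies |Z - a| / b >= M + 1; so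
c' <= av ind <= av f < c', a contradiction. Hence c' sqrt n < (M + 1) b n for all large n, and c = c' / (M + 1) works
(take M >= 0).
-/

namespace LCSV

open Finset Filter Topology MeasureTheory

theorem LimA_tight (μ : Measure ℝ) [IsProbabilityMeasure μ] (c' : ℝ) (hc : 0 < c') :
    ∃ M : ℕ, μ.real {x : ℝ | (M : ℝ) < |x|} < c' := by
  have hm : ∀ n : ℕ, MeasurableSet {x : ℝ | (n : ℝ) < |x|} := fun n =>
    (isOpen_lt continuous_const continuous_abs).measurableSet
  have h1 : Tendsto (fun n : ℕ => μ {x : ℝ | (n : ℝ) < |x|}) atTop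
      (𝓝 (μ (⋂ n : ℕ, {x : ℝ | (n : ℝ) < |x|}))) := by
    refine tendsto_measure_iInter_atTop (fun n => (hm n).nullMeasurableSet) ?_ ⟨0, by finiteness⟩
    intro m n hmn x hx
    have hx : (n : ℝ) < |x| := hx
    have h2 : (m : ℝ) ≤ n := by exact_mod_cast hmn
    exact lt_of_le_of_lt h2 hx
  have h2 : (⋂ n : ℕ, {x : ℝ | (n : ℝ) < |x|}) = ∅ := by
    ext x
    simp only [Set.mem_iInter, Set.mem_ofPred_eq, Set.mem_empty_iff_false, iff_false, not_forall,
      not_lt]
    exact exists_nat_ge |x|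
  rw [h2, measure_empty] at h1
  have h3 := (ENNReal.tendsto_toReal ENNReal.zero_ne_top).comp h1
  rw [ENNReal.toReal_zero] at h3
  obtain ⟨M, hM⟩ := (h3.eventually (gt_mem_nhds hc)).exists
  exact ⟨M, hM⟩

theorem lim_lower {Ω : ℕ → Type} [∀ n, Fintype (Ω n)] (p : ∀ n, Ω n → ℝ) (hp : ∀ n, IsP (p n))
    (Z : ∀ n, Ω n → ℝ) (c' : ℝ) (hc : 0 < c')
    (hanti : ∀ n : ℕ, 1 ≤ n → ∀ x : ℝ, c' ≤ av (p n) (fun ω => ind (c' * √(n : ℝ) ≤ |Z n ω - x|)))
    (a b : ℕ → ℝ) (hb : ∀ n, 0 < b n) (μ : Measure ℝ) [IsProbabilityMeasure μ]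
    (hlim : ∀ f : ℝ → ℝ, Continuous f → (∃ B, ∀ x, |f x| ≤ B) →
      Tendsto (fun n => av (p n) (fun ω => f ((Z n ω - a n) / b n))) atTop (𝓝 (∫ x, f x ∂μ))) :
    ∃ c : ℝ, 0 < c ∧ ∀ᶠ n : ℕ in atTop, c * √(n : ℝ) ≤ b n := by
  obtain ⟨M, hM⟩ := LimA_tight μ c' hc
  set f : ℝ → ℝ := fun x => max 0 (min 1 (|x| - M)) with hf
  have hf0 : ∀ x, 0 ≤ f x := fun x => le_max_left _ _
  have hf1 : ∀ x, f x ≤ 1 := fun x => max_le zero_le_one (min_le_left _ _)
  have hfc : Continuous f := by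
    rw [hf]
    fun_prop
  have hint : ∫ x, f x ∂μ ≤ μ.real {x : ℝ | (M : ℝ) < |x|} := by
    have hm : MeasurableSet {x : ℝ | (M : ℝ) < |x|} :=
      (isOpen_lt continuous_const continuous_abs).measurableSet
    have h1 : ∫ x, f x ∂μ ≤ ∫ x, Set.indicator {x : ℝ | (M : ℝ) < |x|} (fun _ => (1 : ℝ)) x ∂μ := by
      refine integral_mono_of_nonneg (Eventually.of_forall hf0)
        ((integrable_const 1).indicator hm) (Eventually.of_forall fun x => ?_)
      by_cases hx : (M : ℝ) < |x|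
      · rw [Set.indicator_of_mem (show x ∈ {x : ℝ | (M : ℝ) < |x|} from hx)]
        exact hf1 x
      · rw [Set.indicator_of_notMem (show x ∉ {x : ℝ | (M : ℝ) < |x|} from hx)]
        exact max_le le_rfl ((min_le_right _ _).trans (by linarith))
    rwa [integral_indicator_const _ hm, smul_eq_mul, mul_one] at h1
  have hev := (hlim f hfc ⟨1, fun x => by rw [abs_of_nonneg (hf0 x)]; exact hf1 x⟩).eventually
    (gt_mem_nhds (lt_of_le_of_lt hint hM))
  have hM1 : (0 : ℝ) < M + 1 := by positivity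
  refine ⟨c' / (M + 1), by positivity, ?_⟩
  filter_upwards [hev, eventually_ge_atTop 1] with n hn hn1
  rw [div_mul_eq_mul_div, div_le_iff₀ hM1]
  by_contra hcon
  push Not at hcon
  have h1 := hanti n hn1 (a n)
  have h2 : av (p n) (fun ω => ind (c' * √(n : ℝ) ≤ |Z n ω - a n|)) ≤
      av (p n) (fun ω => f ((Z n ω - a n) / b n)) := by
    refine av_mono (hp n) fun ω => ?_
    unfold ind
    split_ifs with h
    · have h3 : (M : ℝ) + 1 ≤ |(Z n ω - a n) / b n| := by
        rw [abs_div, abs_of_pos (hb n), le_div_iff₀ (hb n)]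
        linarith [mul_comm (b n) ((M : ℝ) + 1)]
      exact le_max_of_le_right (le_min le_rfl (by linarith))
    · exact hf0 _
  linarith

end LCSV
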