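import Pool.Agent.LCSV.Av

/-!
# Limit laws: Gaussian tails

Let U = (Z - m) / sqrt n (n >= 1). By hsub (with t / sqrt n) av exp(t U) <= exp(C0 t^2) for all t. Claim: av exp(q U^2) <= 2 for
q = 3 / (16 C0) ... any q < 1 / (4 C0) works with the bound (1 - 4 C0 q)^(-1/2): for every real u,
exp(q u^2) = (2 pi)^(-1/2) int exp(- s^2 / 2) exp(sqrt(2 q) s u) ds; average over omega (finite sum) and use av exp(t U) <= exp(C0 t^2)
with t = sqrt(2 q) s: av exp(q U^2) <= (2 pi)^(-1/2) int exp(- s^2/2 + 2 C0 q s^2) ds = (1 - 4 C0 q)^(-1/2).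
(Alternative without Gaussian integrals: av U^(2 j) <= (2 j)! av (exp(t U) + exp(- t U)) / t^(2 j) with t^2 = j / C0 and the power series
of exp(q U^2) with small q; (2 j)! / (j! j^j) <= 4^j, so q = 1 / (16 e C0) or smaller works.)

For large n: |(Z - a) / b| <= (|U| sqrt n + |m - a|) / b <= (|U| + C) / c, so ((Z - a)/b)^2 <= 2 (U^2 + C^2) / c^2; with
kappa = q c^2 / 2: av exp(kappa ((Z - a)/b)^2) <= exp(2 kappa C^2 / c^2) av exp(q U^2) <= C1. For every natural R the function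
f_R x = min (exp(kappa x^2)) R is continuous and bounded, so int f_R dmu = lim av f_R <= C1. Monotone convergence (lintegral):
lintegral exp(kappa x^2) <= C1 < infinity, so exp(kappa x^2) is integrable.
-/

namespace LCSV

open Finset Filter Topology MeasureTheory

/-- Gaussian linearisation of the square -/
theorem limc_sq {Ω : Type} [Fintype Ω] (p : Ω → ℝ) (hp : IsP p) (U : Ω → ℝ) (C0 : ℝ)
    (hC0 : 0 < C0)
    (h : ∀ t : ℝ, av p (fun ω => Real.exp (t * U ω)) ≤ Real.exp (C0 * t ^ 2)) :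
    av p (fun ω => Real.exp (1 / (8 * C0) * U ω ^ 2)) ≤
      (∫ s : ℝ, Real.exp (-(1 / 4) * s ^ 2)) / (∫ s : ℝ, Real.exp (-(1 / 2) * s ^ 2)) := by
  obtain ⟨c, hc⟩ : ∃ c : ℝ, c = √(1 / (4 * C0)) := ⟨_, rfl⟩
  have hcc : c ^ 2 = 1 / (4 * C0) := by
    rw [hc]
    exact Real.sq_sqrt (by positivity)
  have hC0c : C0 * c ^ 2 = 1 / 4 := by
    rw [hcc]
    field_simp
  have hg2 : Integrable (fun s : ℝ => Real.exp (-(1 / 2) * s ^ 2)) :=
    integrable_exp_neg_mul_sq (by norm_num)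
  have hg4 : Integrable (fun s : ℝ => Real.exp (-(1 / 4) * s ^ 2)) :=
    integrable_exp_neg_mul_sq (by norm_num)
  have hK : 0 < ∫ s : ℝ, Real.exp (-(1 / 2) * s ^ 2) := by
    rw [integral_gaussian]
    positivity
  have hid : ∀ u s : ℝ, Real.exp (-(1 / 2) * s ^ 2) * Real.exp (c * s * u) =
      Real.exp (1 / (8 * C0) * u ^ 2) * Real.exp (-(1 / 2) * (s - c * u) ^ 2) := by
    intro u s
    rw [← Real.exp_add, ← Real.exp_add]
    congr 1
    have e : (1 : ℝ) / (8 * C0) = c ^ 2 / 2 := by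
      rw [hcc]
      field_simp
      norm_num
    rw [e]
    ring
  have hint : ∀ u : ℝ, Integrable (fun s : ℝ =>
      Real.exp (-(1 / 2) * s ^ 2) * Real.exp (c * s * u)) := by
    intro u
    have : (fun s : ℝ => Real.exp (-(1 / 2) * s ^ 2) * Real.exp (c * s * u)) = fun s =>
        Real.exp (1 / (8 * C0) * u ^ 2) * Real.exp (-(1 / 2) * (s - c * u) ^ 2) :=
      funext (hid u)
    rw [this]
    exact (hg2.comp_sub_right (c * u)).const_mul _
  have hI : ∀ u : ℝ, ∫ s : ℝ, Real.exp (-(1 / 2) * s ^ 2) * Real.exp (c * s * u) =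
      Real.exp (1 / (8 * C0) * u ^ 2) * ∫ s : ℝ, Real.exp (-(1 / 2) * s ^ 2) := by
    intro u
    have : (fun s : ℝ => Real.exp (-(1 / 2) * s ^ 2) * Real.exp (c * s * u)) = fun s =>
        Real.exp (1 / (8 * C0) * u ^ 2) * Real.exp (-(1 / 2) * (s - c * u) ^ 2) :=
      funext (hid u)
    rw [this, integral_const_mul]
    congr 1
    exact integral_sub_right_eq_self (fun s : ℝ => Real.exp (-(1 / 2) * s ^ 2)) (c * u)
  rw [le_div_iff₀ hK]
  have h1 : av p (fun ω => Real.exp (1 / (8 * C0) * U ω ^ 2)) *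
      (∫ s : ℝ, Real.exp (-(1 / 2) * s ^ 2)) =
      ∫ s : ℝ, ∑ ω, p ω * (Real.exp (-(1 / 2) * s ^ 2) * Real.exp (c * s * U ω)) := by
    rw [integral_finsetSum _ fun ω _ => (hint (U ω)).const_mul _]
    unfold av
    rw [Finset.sum_mul]
    refine Finset.sum_congr rfl fun ω _ => ?_
    rw [integral_const_mul, hI]
    ring
  rw [h1]
  refine integral_mono (integrable_finsetSum _ fun ω _ => (hint (U ω)).const_mul _) hg4 fun s => ?_
  have h2 : ∑ ω, p ω * (Real.exp (-(1 / 2) * s ^ 2) * Real.exp (c * s * U ω)) =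
      Real.exp (-(1 / 2) * s ^ 2) * av p (fun ω => Real.exp (c * s * U ω)) := by
    unfold av
    rw [Finset.mul_sum]
    exact Finset.sum_congr rfl fun ω _ => by ring
  show ∑ ω, p ω * (Real.exp (-(1 / 2) * s ^ 2) * Real.exp (c * s * U ω)) ≤
    Real.exp (-(1 / 4) * s ^ 2)
  rw [h2]
  calc Real.exp (-(1 / 2) * s ^ 2) * av p (fun ω => Real.exp (c * s * U ω)) ≤
        Real.exp (-(1 / 2) * s ^ 2) * Real.exp (C0 * (c * s) ^ 2) :=
        mul_le_mul_of_nonneg_left (h (c * s)) (Real.exp_pos _).le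
    _ = Real.exp (-(1 / 4) * s ^ 2) := by
        rw [← Real.exp_add]
        congr 1
        have : C0 * (c * s) ^ 2 = (C0 * c ^ 2) * s ^ 2 := by ring
        rw [this, hC0c]
        ring

theorem lim_subg {Ω : ℕ → Type} [∀ n, Fintype (Ω n)] (p : ∀ n, Ω n → ℝ) (hp : ∀ n, IsP (p n))
    (Z : ∀ n, Ω n → ℝ) (m : ℕ → ℝ) (C0 : ℝ) (hC0 : 0 < C0)
    (hsub : ∀ (n : ℕ) (t : ℝ), av (p n) (fun ω => Real.exp (t * (Z n ω - m n))) ≤
      Real.exp (C0 * t ^ 2 * n))
    (a b : ℕ → ℝ) (hb : ∀ n, 0 < b n) (μ : Measure ℝ) [IsProbabilityMeasure μ]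
    (hlim : ∀ f : ℝ → ℝ, Continuous f → (∃ B, ∀ x, |f x| ≤ B) →
      Tendsto (fun n => av (p n) (fun ω => f ((Z n ω - a n) / b n))) atTop (𝓝 (∫ x, f x ∂μ)))
    (c C : ℝ) (hc : 0 < c) (hC : 0 < C) (h1 : ∀ᶠ n : ℕ in atTop, c * √(n : ℝ) ≤ b n)
    (h2 : ∀ᶠ n : ℕ in atTop, |a n - m n| ≤ C * √(n : ℝ)) :
    ∃ κ : ℝ, 0 < κ ∧ Integrable (fun x => Real.exp (κ * x ^ 2)) μ := by
  obtain ⟨q, hq⟩ : ∃ q : ℝ, q = 1 / (8 * C0) := ⟨_, rfl⟩
  have hq0 : 0 < q := by rw [hq]; positivity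
  obtain ⟨κ, hκ⟩ : ∃ κ : ℝ, κ = q * c ^ 2 / 2 := ⟨_, rfl⟩
  have hκ0 : 0 < κ := by rw [hκ]; positivity
  obtain ⟨D, hD⟩ : ∃ D : ℝ, D = (∫ s : ℝ, Real.exp (-(1 / 4) * s ^ 2)) /
    (∫ s : ℝ, Real.exp (-(1 / 2) * s ^ 2)) := ⟨_, rfl⟩
  -- the bound for large `n`
  have hbd : ∀ᶠ n : ℕ in atTop,
      av (p n) (fun ω => Real.exp (κ * ((Z n ω - a n) / b n) ^ 2)) ≤
        Real.exp (q * C ^ 2) * D := by
    filter_upwards [h1, h2, eventually_ge_atTop 1] with n hn1 hn2 hn3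
    have hn0 : (0 : ℝ) < n := by exact_mod_cast hn3
    have hs0 : 0 < √(n : ℝ) := Real.sqrt_pos.mpr hn0
    have hss : √(n : ℝ) ^ 2 = n := Real.sq_sqrt hn0.le
    have hU := limc_sq (p n) (hp n) (fun ω => (Z n ω - m n) / √(n : ℝ)) C0 hC0 (by
      intro t
      have e1 : (fun ω => Real.exp (t * ((Z n ω - m n) / √(n : ℝ)))) =
          fun ω => Real.exp (t / √(n : ℝ) * (Z n ω - m n)) := by
        funext ω
        congr 1
        ring
      have e2 : C0 * (t / √(n : ℝ)) ^ 2 * n = C0 * t ^ 2 := by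
        rw [div_pow, hss]
        field_simp
      rw [e1, ← e2]
      exact hsub n (t / √(n : ℝ)))
    rw [← hq, ← hD] at hU
    have hpt : ∀ ω, Real.exp (κ * ((Z n ω - a n) / b n) ^ 2) ≤
        Real.exp (q * C ^ 2) * Real.exp (q * ((Z n ω - m n) / √(n : ℝ)) ^ 2) := by
      intro ω
      rw [← Real.exp_add]
      refine Real.exp_le_exp.mpr ?_
      obtain ⟨u, hu⟩ : ∃ u : ℝ, u = (Z n ω - m n) / √(n : ℝ) := ⟨_, rfl⟩
      have hu' : Z n ω - m n = u * √(n : ℝ) := by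
        rw [hu]
        field_simp
      rw [← hu]
      have hab : |(Z n ω - a n) / b n| ≤ (|u| + C) / c := by
        rw [abs_div, abs_of_pos (hb n), div_le_div_iff₀ (hb n) hc]
        have e3 : |Z n ω - a n| ≤ (|u| + C) * √(n : ℝ) := by
          have : Z n ω - a n = u * √(n : ℝ) - (a n - m n) := by
            rw [← hu']
            ring
          rw [this]
          refine (abs_sub _ _).trans ?_
          rw [abs_mul, abs_of_pos hs0]
          linarith
        calc |Z n ω - a n| * c ≤ ((|u| + C) * √(n : ℝ)) * c :=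
              mul_le_mul_of_nonneg_right e3 hc.le
          _ = (|u| + C) * (c * √(n : ℝ)) := by ring
          _ ≤ (|u| + C) * b n := mul_le_mul_of_nonneg_left hn1 (by positivity)
      have hsq : ((Z n ω - a n) / b n) ^ 2 ≤ ((|u| + C) / c) ^ 2 := by
        rw [← sq_abs ((Z n ω - a n) / b n)]
        exact pow_le_pow_left₀ (abs_nonneg _) hab 2
      have hsq2 : ((|u| + C) / c) ^ 2 ≤ 2 * (u ^ 2 + C ^ 2) / c ^ 2 := by
        rw [div_pow]
        refine div_le_div_of_nonneg_right ?_ (by positivity)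
        have := sq_abs u
        nlinarith [sq_nonneg (|u| - C)]
      calc κ * ((Z n ω - a n) / b n) ^ 2 ≤ κ * (2 * (u ^ 2 + C ^ 2) / c ^ 2) :=
            mul_le_mul_of_nonneg_left (hsq.trans hsq2) hκ0.le
        _ = q * C ^ 2 + q * u ^ 2 := by
            rw [hκ]
            field_simp
            ring
    refine (av_mono (hp n) hpt).trans ?_
    rw [av_mul]
    exact mul_le_mul_of_nonneg_left hU (Real.exp_pos _).le
  obtain ⟨C1, hC1⟩ : ∃ C1 : ℝ, C1 = Real.exp (q * C ^ 2) * D := ⟨_, rfl⟩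
  rw [← hC1] at hbd
  -- truncations
  have hcont : ∀ R : ℕ, Continuous (fun x : ℝ => min (Real.exp (κ * x ^ 2)) (R : ℝ)) := by
    intro R
    exact (by fun_prop : Continuous fun x : ℝ => Real.exp (κ * x ^ 2)).min continuous_const
  have hnn : ∀ (R : ℕ) (x : ℝ), 0 ≤ min (Real.exp (κ * x ^ 2)) (R : ℝ) := fun R x =>
    le_min (Real.exp_pos _).le (Nat.cast_nonneg R)
  have hbdd : ∀ (R : ℕ) (x : ℝ), |min (Real.exp (κ * x ^ 2)) (R : ℝ)| ≤ R := fun R x => by
    rw [abs_of_nonneg (hnn R x)]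
    exact min_le_right _ _
  have hint : ∀ R : ℕ, Integrable (fun x : ℝ => min (Real.exp (κ * x ^ 2)) (R : ℝ)) μ := by
    intro R
    refine Integrable.of_bound (hcont R).aestronglyMeasurable (R : ℝ) ?_
    exact Eventually.of_forall fun x => by
      rw [Real.norm_eq_abs]
      exact hbdd R x
  have hR : ∀ R : ℕ, ∫ x, min (Real.exp (κ * x ^ 2)) (R : ℝ) ∂μ ≤ C1 := by
    intro R
    refine le_of_tendsto (hlim _ (hcont R) ⟨R, hbdd R⟩) ?_
    filter_upwards [hbd] with n hn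
    exact (av_mono (hp n) fun ω => min_le_left _ _).trans hn
  refine ⟨κ, hκ0, ⟨(by fun_prop : Continuous fun x : ℝ =>
    Real.exp (κ * x ^ 2)).aestronglyMeasurable, ?_⟩⟩
  rw [hasFiniteIntegral_iff_ofReal (Eventually.of_forall fun x => (Real.exp_pos _).le)]
  have hle : ∫⁻ x, ENNReal.ofReal (Real.exp (κ * x ^ 2)) ∂μ ≤
      ∫⁻ x, ⨆ R : ℕ, ENNReal.ofReal (min (Real.exp (κ * x ^ 2)) (R : ℝ)) ∂μ := by
    refine lintegral_mono fun x => ?_
    obtain ⟨R, hR'⟩ := exists_nat_ge (Real.exp (κ * x ^ 2))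
    refine le_iSup_of_le R ?_
    rw [min_eq_left hR']
  have hsup : ∫⁻ x, ⨆ R : ℕ, ENNReal.ofReal (min (Real.exp (κ * x ^ 2)) (R : ℝ)) ∂μ =
      ⨆ R : ℕ, ∫⁻ x, ENNReal.ofReal (min (Real.exp (κ * x ^ 2)) (R : ℝ)) ∂μ := by
    refine lintegral_iSup (fun R => (hcont R).measurable.ennreal_ofReal) ?_
    intro R R' hRR x
    exact ENNReal.ofReal_le_ofReal (min_le_min_left _ (by exact_mod_cast hRR))
  rw [hsup] at hle
  refine lt_of_le_of_lt hle (lt_of_le_of_lt (iSup_le fun R => ?_)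
    (ENNReal.ofReal_lt_top (r := C1)))
  rw [← ofReal_integral_eq_lintegral_ofReal (hint R) (Eventually.of_forall fun x => hnn R x)]
  exact ENNReal.ofReal_le_ofReal (hR R)

end LCSV
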