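import Pool.Agent.LCSV.Av

/-!
# Limit laws: lower bounds of Gaussian order for the tails

Given x >= 0 let s = C1 * (x + 1). For large n: b n * x + |a n - m n| <= C1 sqrt n * x + C1 sqrt n = s sqrt n, and s <= c0 sqrt n, so by htail
c0 exp(- C0 s^2) <= av ind(s sqrt n <= Z - m) <= av ind(x <= (Z - a)/b) (if Z - m >= s sqrt n then Z - a >= s sqrt n - |a - m| >= b x).
For h > 0 let f_h(y) = min 1 (max 0 ((y - x + h) / h)): continuous, = 1 for y >= x, = 0 for y <= x - h. av f_h((Z-a)/b) >= c0 exp(- C0 s^2), so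
int f_h dmu >= c0 exp(- C0 s^2), and int f_h dmu <= mu (Ici (x - h)) (as a real number, mu.real). Let h -> 0 (h = 1/(j+1)): the sets
Ici (x - h) decrease to Ici x, so mu (Ici x) >= c0 exp(- C0 s^2) (tendsto_measure_iInter_atTop or continuity from above).
s^2 = C1^2 (x+1)^2 <= 2 C1^2 (x^2 + 1), so c = c0 exp(- 2 C0 C1^2), C = 2 C0 C1^2 (+ 1 if you need C > 0) work. The lower tail is the same
(or apply the first part to - Z, - a, - m and the image measure of mu under y -> - y).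
-/

namespace LCSV

open Finset Filter Topology MeasureTheory

/-- the measure of a closed half line is the limit of the measures of larger half lines -/
theorem LimD_cont (μ : Measure ℝ) [IsProbabilityMeasure μ] (x : ℝ) :
    Tendsto (fun j : ℕ => μ.real (Set.Ici (x - 1 / ((j : ℝ) + 1)))) atTop
      (𝓝 (μ.real (Set.Ici x))) := by
  have h1 : Tendsto (fun j : ℕ => μ (Set.Ici (x - 1 / ((j : ℝ) + 1)))) atTop
      (𝓝 (μ (⋂ j : ℕ, Set.Ici (x - 1 / ((j : ℝ) + 1))))) := by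
    refine tendsto_measure_iInter_atTop (fun n => measurableSet_Ici.nullMeasurableSet) ?_
      ⟨0, by finiteness⟩
    intro i j hij
    apply Set.Ici_subset_Ici.2
    have h2 : 1 / ((j : ℝ) + 1) ≤ 1 / ((i : ℝ) + 1) := by
      apply one_div_le_one_div_of_le (by positivity)
      have : (i : ℝ) ≤ j := by exact_mod_cast hij
      linarith
    linarith
  have h2 : (⋂ j : ℕ, Set.Ici (x - 1 / ((j : ℝ) + 1))) = Set.Ici x := by
    ext y
    rw [Set.mem_iInter, Set.mem_Ici]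
    constructor
    · intro h
      by_contra hc
      rw [not_le] at hc
      obtain ⟨j, hj⟩ := exists_nat_one_div_lt (sub_pos.2 hc)
      have := h j
      rw [Set.mem_Ici] at this
      linarith
    · intro h j
      rw [Set.mem_Ici]
      have : 0 < 1 / ((j : ℝ) + 1) := by positivity
      linarith
  rw [h2] at h1
  exact (ENNReal.tendsto_toReal (measure_ne_top μ _)).comp h1

theorem LimD_int (μ : Measure ℝ) [IsProbabilityMeasure μ] (f : ℝ → ℝ)
    (h0 : ∀ x, 0 ≤ f x) (h1 : ∀ x, f x ≤ 1) (S : Set ℝ) (hS : MeasurableSet S)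
    (hf : ∀ x, x ∉ S → f x = 0) : ∫ x, f x ∂μ ≤ μ.real S := by
  have e1 : ∫ x, S.indicator (fun _ => (1 : ℝ)) x ∂μ = μ.real S := by
    rw [integral_indicator hS]
    simp
  rw [← e1]
  refine integral_mono_of_nonneg (Eventually.of_forall h0)
    ((integrable_const 1).indicator hS) (Eventually.of_forall fun x => ?_)
  by_cases hx : x ∈ S
  · change f x ≤ S.indicator (fun _ => (1 : ℝ)) x
    rw [Set.indicator_of_mem hx]
    exact h1 x
  · change f x ≤ S.indicator (fun _ => (1 : ℝ)) x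
    rw [Set.indicator_of_notMem hx, hf x hx]

theorem LimD_upper {Ω : ℕ → Type} [∀ n, Fintype (Ω n)] (p : ∀ n, Ω n → ℝ) (hp : ∀ n, IsP (p n))
    (Z : ∀ n, Ω n → ℝ) (m : ℕ → ℝ) (c0 C0 : ℝ) (hc0 : 0 < c0)
    (htail : ∀ n : ℕ, 1 ≤ n → ∀ t : ℝ, 0 ≤ t → t ≤ c0 * √(n : ℝ) →
      c0 * Real.exp (-(C0 * t ^ 2)) ≤ av (p n) (fun ω => ind (t * √(n : ℝ) ≤ Z n ω - m n)))
    (a b : ℕ → ℝ) (hb : ∀ n, 0 < b n) (μ : Measure ℝ) [IsProbabilityMeasure μ]
    (hlim : ∀ f : ℝ → ℝ, Continuous f → (∃ B, ∀ x, |f x| ≤ B) →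
      Tendsto (fun n => av (p n) (fun ω => f ((Z n ω - a n) / b n))) atTop (𝓝 (∫ x, f x ∂μ)))
    (C1 : ℝ) (hC1 : 0 < C1)
    (h2 : ∀ᶠ n : ℕ in atTop, b n ≤ C1 * √(n : ℝ) ∧ |a n - m n| ≤ C1 * √(n : ℝ)) (x : ℝ)
    (hx : 0 ≤ x) : c0 * Real.exp (-(C0 * (C1 * (x + 1)) ^ 2)) ≤ μ.real (Set.Ici x) := by
  obtain ⟨s, hs⟩ : ∃ s : ℝ, s = C1 * (x + 1) := ⟨_, rfl⟩
  rw [← hs]
  have hs0 : 0 ≤ s := by
    rw [hs]
    positivity
  have hlarge : ∀ᶠ n : ℕ in atTop, s ≤ c0 * √(n : ℝ) := by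
    have h3 : Tendsto (fun n : ℕ => c0 * √(n : ℝ)) atTop atTop :=
      (Real.tendsto_sqrt_atTop.comp tendsto_natCast_atTop_atTop).const_mul_atTop hc0
    exact h3.eventually_ge_atTop s
  refine ge_of_tendsto' (LimD_cont μ x) (fun j => ?_)
  obtain ⟨h, hh⟩ : ∃ h : ℝ, h = 1 / ((j : ℝ) + 1) := ⟨_, rfl⟩
  have hh0 : 0 < h := by
    rw [hh]
    positivity
  rw [← hh]
  have hfc : Continuous (fun y : ℝ => min 1 (max 0 ((y - (x - h)) / h))) := by fun_prop
  have hf0 : ∀ y : ℝ, 0 ≤ min 1 (max 0 ((y - (x - h)) / h)) := fun y =>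
    le_min zero_le_one (le_max_left _ _)
  have hf1 : ∀ y : ℝ, min 1 (max 0 ((y - (x - h)) / h)) ≤ 1 := fun y => min_le_left _ _
  have hint : ∫ y, min 1 (max 0 ((y - (x - h)) / h)) ∂μ ≤ μ.real (Set.Ici (x - h)) := by
    refine LimD_int μ _ hf0 hf1 _ measurableSet_Ici (fun y hy => ?_)
    rw [Set.mem_Ici, not_le] at hy
    have h3 : (y - (x - h)) / h ≤ 0 := div_nonpos_of_nonpos_of_nonneg (by linarith) hh0.le
    rw [max_eq_left h3]
    exact min_eq_right zero_le_one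
  refine le_trans ?_ hint
  refine ge_of_tendsto (hlim _ hfc ⟨1, fun y => by
    rw [abs_of_nonneg (hf0 y)]
    exact hf1 y⟩) ?_
  filter_upwards [hlarge, h2, eventually_ge_atTop 1] with n hn1 hn2 hn3
  refine (htail n hn3 s hs0 hn1).trans ?_
  apply av_mono (hp n)
  intro ω
  unfold ind
  split_ifs with hcase
  · have hbn := hb n
    have h3 : x * b n ≤ Z n ω - a n := by
      have h4 := (abs_le.1 hn2.2).2
      have h5 : x * b n ≤ x * (C1 * √(n : ℝ)) := mul_le_mul_of_nonneg_left hn2.1 hx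
      have h6 : s * √(n : ℝ) = x * (C1 * √(n : ℝ)) + C1 * √(n : ℝ) := by
        rw [hs]
        ring
      linarith
    have h7 : x ≤ (Z n ω - a n) / b n := by
      rw [le_div_iff₀ hbn]
      exact h3
    refine le_min le_rfl (le_trans ?_ (le_max_right _ _))
    rw [le_div_iff₀ hh0]
    linarith
  · exact hf0 _

theorem lim_tails {Ω : ℕ → Type} [∀ n, Fintype (Ω n)] (p : ∀ n, Ω n → ℝ) (hp : ∀ n, IsP (p n))
    (Z : ∀ n, Ω n → ℝ) (m : ℕ → ℝ) (c0 C0 : ℝ) (hc0 : 0 < c0) (hC0 : 0 < C0)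
    (htail : ∀ n : ℕ, 1 ≤ n → ∀ t : ℝ, 0 ≤ t → t ≤ c0 * √(n : ℝ) →
      c0 * Real.exp (-(C0 * t ^ 2)) ≤ av (p n) (fun ω => ind (t * √(n : ℝ) ≤ Z n ω - m n)) ∧
      c0 * Real.exp (-(C0 * t ^ 2)) ≤ av (p n) (fun ω => ind (t * √(n : ℝ) ≤ m n - Z n ω)))
    (a b : ℕ → ℝ) (hb : ∀ n, 0 < b n) (μ : Measure ℝ) [IsProbabilityMeasure μ]
    (hlim : ∀ f : ℝ → ℝ, Continuous f → (∃ B, ∀ x, |f x| ≤ B) →
      Tendsto (fun n => av (p n) (fun ω => f ((Z n ω - a n) / b n))) atTop (𝓝 (∫ x, f x ∂μ)))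
    (C1 : ℝ) (hC1 : 0 < C1)
    (h2 : ∀ᶠ n : ℕ in atTop, b n ≤ C1 * √(n : ℝ) ∧ |a n - m n| ≤ C1 * √(n : ℝ)) :
    ∃ c C : ℝ, 0 < c ∧ 0 < C ∧ ∀ x : ℝ, 0 ≤ x →
      c * Real.exp (-(C * x ^ 2)) ≤ μ.real (Set.Ici x) ∧
      c * Real.exp (-(C * x ^ 2)) ≤ μ.real (Set.Iic (-x)) := by
  have hexp : ∀ x : ℝ, c0 * Real.exp (-(2 * C0 * C1 ^ 2)) * Real.exp (-(2 * C0 * C1 ^ 2 * x ^ 2)) ≤
      c0 * Real.exp (-(C0 * (C1 * (x + 1)) ^ 2)) := by
    intro x
    rw [mul_assoc, ← Real.exp_add]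
    apply mul_le_mul_of_nonneg_left _ hc0.le
    apply Real.exp_le_exp.2
    have h3 : 0 ≤ C0 * C1 ^ 2 * (x - 1) ^ 2 := by positivity
    nlinarith
  refine ⟨c0 * Real.exp (-(2 * C0 * C1 ^ 2)), 2 * C0 * C1 ^ 2, by positivity, by positivity,
    fun x hx => ⟨?_, ?_⟩⟩
  · exact (hexp x).trans (LimD_upper p hp Z m c0 C0 hc0
      (fun n hn t ht0 ht1 => (htail n hn t ht0 ht1).1) a b hb μ hlim C1 hC1 h2 x hx)
  · have hmeas : Measurable (fun y : ℝ => -y) := measurable_neg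
    have hprob : IsProbabilityMeasure (μ.map (fun y : ℝ => -y)) :=
      Measure.isProbabilityMeasure_map hmeas.aemeasurable
    have key := LimD_upper p hp (fun n ω => -(Z n ω)) (fun n => -(m n)) c0 C0 hc0
      (fun n hn t ht0 ht1 => by
        have h3 := (htail n hn t ht0 ht1).2
        have e : (fun ω => ind (t * √(n : ℝ) ≤ m n - Z n ω)) =
            fun ω => ind (t * √(n : ℝ) ≤ -(Z n ω) - -(m n)) := by
          funext ω
          have e1 : m n - Z n ω = -(Z n ω) - -(m n) := by ring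
          rw [e1]
        rw [e] at h3
        exact h3) (fun n => -(a n)) b hb (μ.map (fun y : ℝ => -y))
      (fun f hf hB => by
        obtain ⟨B, hB⟩ := hB
        rw [integral_map hmeas.aemeasurable hf.aestronglyMeasurable]
        have h3 := hlim (fun y => f (-y)) (hf.comp continuous_neg) ⟨B, fun y => hB (-y)⟩
        refine h3.congr (fun n => ?_)
        have e : (fun ω => f (-((Z n ω - a n) / b n))) =
            fun ω => f ((-(Z n ω) - -(a n)) / b n) := by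
          funext ω
          have e1 : -((Z n ω - a n) / b n) = (-(Z n ω) - -(a n)) / b n := by ring
          rw [e1]
        exact congrArg (av (p n)) e) C1 hC1
      (by
        filter_upwards [h2] with n hn
        refine ⟨hn.1, ?_⟩
        have e1 : -(a n) - -(m n) = -(a n - m n) := by ring
        rw [e1, abs_neg]
        exact hn.2) x hx
    refine (hexp x).trans (key.trans (le_of_eq ?_))
    rw [map_measureReal_apply hmeas measurableSet_Ici]
    congr 1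
    ext y
    rw [Set.mem_preimage, Set.mem_Ici, Set.mem_Iic]
    constructor <;> intro h <;> linarith

end LCSV
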