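import Pool.Agent.LCSV.Main
import Pool.Agent.LCSV.ELrep

/-!
# Linear lower bound for the variance of the longest common subsequence

For all alphabets with sufficiently many letters (`k ≥ k₀`, `k₀` absolute) the variance of the length
`L_n` of a longest common subsequence of two independent uniform words of length `n` is at least `c n`
for all `n ≥ 1`, with a constant `c = c(k) > 0`.
-/

set_option autoImplicit false

namespace LCSV.LinVar

open Finset

/-- words of `n` letters over an alphabet with `k` letters -/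
abbrev Word (k n : ℕ) : Type := Fin n → Fin k

/-- `X` and `Y` have a common subsequence of length `m` -/
def HasCommon {k n : ℕ} (X Y : Word k n) (m : ℕ) : Prop :=
  ∃ i j : Fin m → Fin n, StrictMono i ∧ StrictMono j ∧ ∀ r, X (i r) = Y (j r)

/-- the length of a longest common subsequence of `X` and `Y` -/
noncomputable def L {k n : ℕ} (X Y : Word k n) : ℕ := sSup {m : ℕ | HasCommon X Y m}

/-- the expectation of `F(X, Y)` for two independent uniform words `X`, `Y` of `n` letters -/
noncomputable def expect (k n : ℕ) (F : Word k n → Word k n → ℝ) : ℝ :=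
  (∑ X : Word k n, ∑ Y : Word k n, F X Y) / ((k : ℝ) ^ n * (k : ℝ) ^ n)

/-- the variance of `L_n` -/
noncomputable def varL (k n : ℕ) : ℝ :=
  expect k n (fun X Y => ((L X Y : ℝ) - expect k n (fun X' Y' => (L X' Y' : ℝ))) ^ 2)

theorem L_eq {k n : ℕ} (X Y : Word k n) : LCSV.lcs (List.ofFn X) (List.ofFn Y) = L X Y :=
  LCSV.lcs_ofFn X Y

theorem expect_eq (k n : ℕ) (F : List (Fin k) → List (Fin k) → ℝ) :
    LCSV.EL (LCSV.un k) n (fun X => LCSV.EL (LCSV.un k) n (fun Y => F X Y)) =
      expect k n (fun X Y => F (List.ofFn X) (List.ofFn Y)) := by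
  rw [LCSV.EL_un]
  unfold expect
  rw [show (fun X Y => F (List.ofFn X) (List.ofFn Y)) = (fun X : Word k n => fun Y : Word k n =>
    F (List.ofFn X) (List.ofFn Y)) from rfl]
  simp only [LCSV.EL_un]
  rw [← Finset.mul_sum, one_div, inv_pow, div_eq_inv_mul, mul_inv, mul_assoc]

theorem result : ∃ k0 : ℕ, ∀ k ≥ k0, ∃ c : ℝ, 0 < c ∧ ∀ n : ℕ, 1 ≤ n → c * n ≤ varL k n := by
  obtain ⟨k0, h0⟩ := LCSV.main_var
  refine ⟨k0, fun k hk => ?_⟩
  obtain ⟨c, hc, h⟩ := h0 k hk
  refine ⟨c, hc, fun n hn => ?_⟩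
  have h1 := h n hn
  rw [expect_eq k n (fun X' Y' => (LCSV.lcs X' Y' : ℝ)),
    expect_eq k n (fun X Y => ((LCSV.lcs X Y : ℝ) -
      expect k n (fun X Y => (LCSV.lcs (List.ofFn X) (List.ofFn Y) : ℝ))) ^ 2)] at h1
  simp only [L_eq] at h1
  exact h1

end LCSV.LinVar
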