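import Pool.Agent.LCSV.Core

/-!
# Number of coincidences in a set S of rows for a word with few coincidences

loss_zero: W is injective on S. For the other two: card S - card (image W S) is at most the number of j in S for which there
is i in S, i < j, W i = W j (the complement of this set is mapped injectively, and it has the same image as S).
loss_le: for such a pair i < j let u = i / q, v = j / q. If u = v then j < i + q <= i + q^2 contradicts near. So u < v, and
v < u + Q by hypothesis: the set T of these j (for fixed u, v) has at most kap elements by far. The number of pairs (u, v) of windows met by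
S is at most (card windows)^2.
-/

namespace LCSV

open Finset

structure Wd (k q Q kap P : ℕ) (W : ℕ → Fin k) : Prop where
  qpos : 1 ≤ q
  ppos : 1 ≤ P
  per : ∀ i, W (i + P) = W i
  near : ∀ i j, i < j → j < i + q ^ 2 → W i ≠ W j
  far : ∀ u v, u < v → v < u + Q → ∀ T : Finset ℕ,
    (∀ j ∈ T, v * q ≤ j ∧ j < (v + 1) * q ∧ ∃ i, u * q ≤ i ∧ i < (u + 1) * q ∧ W i = W j) →
      T.card ≤ kap

theorem loss_zero {k q Q kap P : ℕ} {W : ℕ → Fin k} (hW : Wd k q Q kap P W) (S : Finset ℕ)
    (h : ∀ i ∈ S, ∀ j ∈ S, i < j → j < i + q ^ 2) : (S.image W).card = S.card := by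
  refine Finset.card_image_of_injOn fun i hi j hj hij => ?_
  rcases lt_trichotomy i j with hlt | heq | hgt
  · exact absurd hij (hW.near i j hlt (h i hi j hj hlt))
  · exact heq
  · exact absurd hij.symm (hW.near j i hgt (h j hj i hi hgt))

theorem loss_le {k q Q kap P : ℕ} {W : ℕ → Fin k} (hW : Wd k q Q kap P W) (S : Finset ℕ)
    (h : ∀ i ∈ S, ∀ j ∈ S, i < j → j / q < i / q + Q) :
    S.card ≤ (S.image W).card + kap * ((S.image (fun i => i / q)).card) ^ 2 := by
  classical
  have hq : 0 < q := hW.qpos
  set I : Finset ℕ := S.image (fun i => i / q) with hI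
  set D : Finset ℕ := S.filter (fun j => ∃ i ∈ S, i < j ∧ W i = W j) with hD
  have h1 : (S \ D).card ≤ (S.image W).card := by
    have hinj : Set.InjOn W (S \ D : Finset ℕ) := by
      intro i hi j hj hij
      rw [Finset.mem_coe, Finset.mem_sdiff] at hi hj
      rcases lt_trichotomy i j with hlt | heq | hgt
      · exact absurd (Finset.mem_filter.2 ⟨hj.1, i, hi.1, hlt, hij⟩) hj.2
      · exact heq
      · exact absurd (Finset.mem_filter.2 ⟨hi.1, j, hj.1, hgt, hij.symm⟩) hi.2
    rw [← Finset.card_image_of_injOn hinj]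
    exact Finset.card_le_card (Finset.image_subset_image Finset.sdiff_subset)
  have h2 : S.card = (S \ D).card + D.card := by
    have := Finset.card_sdiff_add_card_eq_card (Finset.filter_subset
      (fun j => ∃ i ∈ S, i < j ∧ W i = W j) S)
    rw [← hD] at this
    exact this.symm
  set T : ℕ × ℕ → Finset ℕ := fun p =>
    D.filter (fun j => j / q = p.2 ∧ ∃ i ∈ S, i / q = p.1 ∧ i < j ∧ W i = W j) with hT
  have hdiv : ∀ i : ℕ, i / q * q ≤ i ∧ i < (i / q + 1) * q := by
    intro i
    refine ⟨Nat.div_mul_le_self i q, ?_⟩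
    have := Nat.lt_div_mul_add hq (a := i)
    rw [add_mul, one_mul]
    exact this
  have h3 : ∀ p ∈ I ×ˢ I, (T p).card ≤ kap := by
    intro p _
    rcases (T p).eq_empty_or_nonempty with he | ⟨j, hj⟩
    · rw [he]; simp
    · rw [hT, Finset.mem_filter] at hj
      obtain ⟨hjD, hjv, i, hiS, hiu, hij, hWij⟩ := hj
      have hjS : j ∈ S := (Finset.mem_filter.1 hjD).1
      have hlt : p.1 < p.2 := by
        have hle : p.1 ≤ p.2 := by
          rw [← hiu, ← hjv]; exact Nat.div_le_div_right hij.le
        rcases lt_or_eq_of_le hle with h4 | h4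
        · exact h4
        · exfalso
          refine hW.near i j hij ?_ hWij
          have a1 := (hdiv i).1
          have a2 := (hdiv j).2
          rw [hiu] at a1
          rw [hjv, ← h4] at a2
          have a3 : q ≤ q ^ 2 := by nlinarith
          nlinarith
      have hlt2 : p.2 < p.1 + Q := by
        have := h i hiS j hjS hij
        rw [hiu, hjv] at this
        exact this
      refine hW.far p.1 p.2 hlt hlt2 (T p) fun j' hj' => ?_
      rw [hT, Finset.mem_filter] at hj'
      obtain ⟨_, hjv', i', _, hiu', _, hWij'⟩ := hj'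
      have a1 := hdiv j'
      have a2 := hdiv i'
      rw [hjv'] at a1
      rw [hiu'] at a2
      exact ⟨a1.1, a1.2, i', a2.1, a2.2, hWij'⟩
  have h4 : D ⊆ (I ×ˢ I).biUnion T := by
    intro j hj
    have hj' := Finset.mem_filter.1 hj
    obtain ⟨hjS, i, hiS, hij, hWij⟩ := hj'
    rw [Finset.mem_biUnion]
    refine ⟨(i / q, j / q), ?_, ?_⟩
    · rw [Finset.mem_product]
      exact ⟨Finset.mem_image_of_mem _ hiS, Finset.mem_image_of_mem _ hjS⟩
    · rw [hT, Finset.mem_filter]
      exact ⟨hj, rfl, i, hiS, rfl, hij, hWij⟩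
  have h5 : D.card ≤ kap * I.card ^ 2 := by
    calc D.card ≤ ((I ×ˢ I).biUnion T).card := Finset.card_le_card h4
      _ ≤ (I ×ˢ I).card * kap := Finset.card_biUnion_le_card_mul _ _ _ h3
      _ = kap * I.card ^ 2 := by rw [Finset.card_product]; ring
  omega

end LCSV
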