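import Pool.Agent.LCSV.ABound
import Pool.Agent.LCSV.ACov
import Pool.Agent.LCSV.VarPos

/-!
# Main theorem in terms of lists

abound and acov with D = delta n: V >= (1/k)^K delta^2 n for n >= max(n0, K); for the finitely many smaller n >= 1 use var_pos.
-/

namespace LCSV

open Finset

theorem Main_small (V : ℕ → ℝ) (hV : ∀ n, 1 ≤ n → 0 < V n) (N : ℕ) :
    ∃ c : ℝ, 0 < c ∧ ∀ n, 1 ≤ n → n < N → c * n ≤ V n := by
  induction N with
  | zero => exact ⟨1, one_pos, fun n _ h => absurd h (by omega)⟩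
  | succ N ih =>
    obtain ⟨c, hc, h⟩ := ih
    rcases Nat.eq_zero_or_pos N with h0 | h0
    · subst h0
      exact ⟨c, hc, fun n h1 h2 => by omega⟩
    · have hN : (0 : ℝ) < N := by exact_mod_cast h0
      refine ⟨min c (V N / N), lt_min hc (div_pos (hV N h0) hN), fun n h1 h2 => ?_⟩
      have hn : (0 : ℝ) < n := by exact_mod_cast h1
      rcases Nat.lt_succ_iff_lt_or_eq.1 h2 with h3 | h3
      · exact le_trans (mul_le_mul_of_nonneg_right (min_le_left _ _) hn.le) (h n h1 h3)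
      · subst h3
        refine le_trans (mul_le_mul_of_nonneg_right (min_le_right _ _) hn.le) (le_of_eq ?_)
        field_simp

theorem Main_all (V : ℕ → ℝ) (hV : ∀ n, 1 ≤ n → 0 < V n) (a : ℝ) (ha : 0 < a) (N : ℕ)
    (h : ∀ n, N ≤ n → a * n ≤ V n) : ∃ c : ℝ, 0 < c ∧ ∀ n, 1 ≤ n → c * n ≤ V n := by
  obtain ⟨c, hc, h1⟩ := Main_small V hV N
  refine ⟨min a c, lt_min ha hc, fun n hn => ?_⟩
  have hn0 : (0 : ℝ) ≤ n := Nat.cast_nonneg n
  rcases lt_or_ge n N with h2 | h2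
  · exact le_trans (mul_le_mul_of_nonneg_right (min_le_right _ _) hn0) (h1 n hn h2)
  · exact le_trans (mul_le_mul_of_nonneg_right (min_le_left _ _) hn0) (h n h2)

theorem main_var : ∃ k0 : ℕ, ∀ k ≥ k0, ∃ c : ℝ, 0 < c ∧ ∀ n : ℕ, 1 ≤ n →
    c * n ≤ EL (un k) n (fun X => EL (un k) n (fun Y =>
        ((lcs X Y : ℝ) - EL (un k) n (fun X' => EL (un k) n (fun Y' => (lcs X' Y' : ℝ)))) ^ 2)) := by
  obtain ⟨k0, hk0⟩ := abound
  refine ⟨max k0 2, fun k hk => ?_⟩
  obtain ⟨δ, K, w, hδ, hK, hw, n0, h⟩ := hk0 k (le_trans (le_max_left _ _) hk)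
  have hk2 : 2 ≤ k := le_trans (le_max_right _ _) hk
  have hkpos : (0 : ℝ) < k := by
    have : 0 < k := by omega
    exact_mod_cast this
  refine Main_all _ (fun n hn => var_pos k n hk2 hn) ((1 / (k : ℝ)) ^ K * δ ^ 2) (by positivity)
    (max n0 (max K 1)) (fun n hn => ?_)
  have hn0 : n0 ≤ n := le_trans (le_max_left _ _) hn
  have hnK : K ≤ n := le_trans (le_trans (le_max_left _ _) (le_max_right _ _)) hn
  have hn1 : 1 ≤ n := le_trans (le_trans (le_max_right _ _) (le_max_right _ _)) hn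
  have hnpos : (0 : ℝ) < n := by exact_mod_cast hn1
  have h1 := acov k (by omega) n K w hK hw (δ * n) (by positivity) hnK (h n hn0)
  refine le_trans (le_of_eq ?_) h1
  field_simp

end LCSV
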