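import Pool.Agent.LCSV.ELa

/-!
# Exponential concentration for functions of independent entries (bounded differences)

Induction on n. For n = 0 the exponent is 0. Step: let phi x = EL mu n (fun l => F (x :: l)), m = EL mu (n+1) F = sum mu x phi x.
EL mu (n+1) exp(t (F - m)) = sum_x mu x exp(t (phi x - m)) EL mu n (fun l => exp(t (F (x :: l) - phi x)))
<= exp(t^2 c^2 n / 2) sum_x mu x exp(t (phi x - m)) by the induction hypothesis.
|phi x - phi x'| <= c for all x, x' (EL_mono on the difference, hypothesis with l1 = []), so |phi x - m| <= c, and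
sum mu x (phi x - m) = 0. For |z| <= c: exp(t z) <= cosh(t c) + (z / c) sinh(t c) (convexity of exp on [-c, c]; for c = 0 everything
is trivial), so the sum is <= cosh(t c) <= exp(t^2 c^2 / 2) (Real.cosh_le_exp_half_sq).
-/

namespace LCSV

open Finset

theorem mcd {β : Type*} [Fintype β] {mu : β → ℝ} (hmu : IsP mu) (n : ℕ) (F : List β → ℝ) (c : ℝ)
    (hc : 0 ≤ c)
    (hF : ∀ (l1 l2 : List β) (x x' : β), l1.length + 1 + l2.length = n →
      |F (l1 ++ x :: l2) - F (l1 ++ x' :: l2)| ≤ c) (t : ℝ) :
    EL mu n (fun l => Real.exp (t * (F l - EL mu n F))) ≤ Real.exp (t ^ 2 * c ^ 2 * n / 2) := by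
  induction n generalizing F with
  | zero => simp [EL]
  | succ n ih =>
    set phi : β → ℝ := fun x => EL mu n (fun l => F (x :: l)) with hphi
    have hm : EL mu (n + 1) F = ∑ x, mu x * phi x := rfl
    set m := EL mu (n + 1) F with hmdef
    have h1 : ∀ x, EL mu n (fun l => Real.exp (t * (F (x :: l) - m))) ≤
        Real.exp (t * (phi x - m)) * Real.exp (t ^ 2 * c ^ 2 * n / 2) := by
      intro x
      have e : (fun l => Real.exp (t * (F (x :: l) - m))) =
          fun l => Real.exp (t * (phi x - m)) * Real.exp (t * (F (x :: l) - phi x)) := by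
        funext l
        rw [← Real.exp_add]
        congr 1
        ring
      rw [e, EL_mul_left]
      apply mul_le_mul_of_nonneg_left _ (Real.exp_pos _).le
      apply ih (fun l => F (x :: l))
      intro l1 l2 y y' hl
      exact hF (x :: l1) l2 y y' (by rw [List.length_cons]; omega)
    have h2 : ∀ x x', phi x - phi x' ≤ c := by
      intro x x'
      have e : phi x - phi x' = EL mu n (fun l => F (x :: l) - F (x' :: l)) := by
        rw [EL_sub]
      rw [e, ← EL_const hmu n c]
      apply EL_mono hmu
      intro l hl
      have := hF [] l x x' (by simp [hl]; omega)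
      exact (abs_le.1 this).2
    have h3 : ∀ x, |phi x - m| ≤ c := by
      intro x
      have e1 : phi x - m = ∑ x', mu x' * (phi x - phi x') := by
        simp only [mul_sub, sum_sub_distrib]
        rw [← sum_mul, hmu.sum_one, one_mul, hm]
      rw [abs_le]
      constructor
      · rw [e1]
        calc -c = ∑ x', mu x' * (-c) := by rw [← sum_mul, hmu.sum_one, one_mul]
          _ ≤ _ := by
            apply sum_le_sum
            intro x' _
            apply mul_le_mul_of_nonneg_left _ (hmu.nonneg x')
            have := h2 x' x
            linarith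
      · rw [e1]
        calc _ ≤ ∑ x', mu x' * c := by
              apply sum_le_sum
              intro x' _
              exact mul_le_mul_of_nonneg_left (h2 x x') (hmu.nonneg x')
          _ = c := by rw [← sum_mul, hmu.sum_one, one_mul]
    have h4 : ∀ z : ℝ, |z| ≤ c →
        Real.exp (t * z) ≤ Real.cosh (t * c) + z * (Real.sinh (t * c) / c) := by
      intro z hz
      rcases hc.eq_or_lt with h0 | h0
      · have hz0 : z = 0 := by
          rw [← h0] at hz
          exact abs_nonpos_iff.1 hz
        simp [hz0, ← h0]
      · have h5 : |z / c| ≤ 1 := by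
          rw [abs_div, abs_of_pos h0]
          exact (div_le_one h0).2 hz
        have h6 := Real.exp_mul_le_cosh_add_mul_sinh h5 (t * c)
        have e2 : z / c * (t * c) = t * z := by
          field_simp
        rw [e2] at h6
        calc _ ≤ _ := h6
          _ = _ := by ring
    have h5 : ∑ x, mu x * (phi x - m) = 0 := by
      simp only [mul_sub, sum_sub_distrib]
      rw [← sum_mul, hmu.sum_one, one_mul, hm]
      ring
    calc EL mu (n + 1) (fun l => Real.exp (t * (F l - m)))
        = ∑ x, mu x * EL mu n (fun l => Real.exp (t * (F (x :: l) - m))) := rfl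
      _ ≤ ∑ x, mu x * ((Real.cosh (t * c) + (phi x - m) * (Real.sinh (t * c) / c)) *
            Real.exp (t ^ 2 * c ^ 2 * n / 2)) := by
          apply sum_le_sum
          intro x _
          apply mul_le_mul_of_nonneg_left _ (hmu.nonneg x)
          refine (h1 x).trans ?_
          exact mul_le_mul_of_nonneg_right (h4 _ (h3 x)) (Real.exp_pos _).le
      _ = (Real.cosh (t * c) * (∑ x, mu x) +
            (∑ x, mu x * (phi x - m)) * (Real.sinh (t * c) / c)) *
            Real.exp (t ^ 2 * c ^ 2 * n / 2) := by
          rw [add_mul, mul_sum, sum_mul, sum_mul, sum_mul, ← sum_add_distrib]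
          apply sum_congr rfl
          intro x _
          ring
      _ = Real.cosh (t * c) * Real.exp (t ^ 2 * c ^ 2 * n / 2) := by
          rw [h5, hmu.sum_one]
          ring
      _ ≤ Real.exp ((t * c) ^ 2 / 2) * Real.exp (t ^ 2 * c ^ 2 * n / 2) :=
          mul_le_mul_of_nonneg_right (Real.cosh_le_exp_half_sq _) (Real.exp_pos _).le
      _ = Real.exp (t ^ 2 * c ^ 2 * ((n + 1 : ℕ) : ℝ) / 2) := by
          rw [← Real.exp_add]
          congr 1
          push_cast
          ring

end LCSV
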