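import Pool.Agent.LCSV.Fv

/-!
# If there is no chain of m ties at distances at least l then hit meets at most m (l/p + 2) windows of length p

Let M = Mx rho s n. If chn rho s n l m fails let r < m be the first index where the condition fails; for t <= r,
fv (qq t) = M (chn conditions for t < r, fv(qq 0) = M). Claim: every gap g >= 1, g <= n with fv g = M lies in
(qq t - l, qq t] for some t <= r. Indeed g <= qq 0 (le_lm). If g is not in (qq t - l, qq t] and g <= qq t then g <= qq t - l
(if l > qq t this gives g = 0, impossible, so l <= qq t) and on the range 0..(qq t - l) the maximum is M (attained at g), so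
g <= qq (t+1) and fv (qq (t+1)) = M; for t = r this contradicts the failure at r.
A row i in hit has fv (i+1) = M, so i + 1 in (qq t - l, qq t], i in [qq t - l, qq t). The quotients i / p of an interval of
l consecutive numbers take at most l / p + 2 values. Sum over t <= r, r + 1 <= m.
-/

namespace LCSV

open Finset

theorem Win_Mx {rho : ℕ → ℕ} {s : Finset ℕ} {n t g : ℕ} (hg : g ≤ t) (ht : t ≤ n)
    (h : fv rho s g = Mx rho s n) : Mx rho s t = Mx rho s n :=
  le_antisymm (Mx_mono ht) (by rw [← h]; exact fv_le_Mx hg)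

theorem Win_cover (rho : ℕ → ℕ) (s : Finset ℕ) (n l r : ℕ)
    (hr : ¬ (l ≤ qq rho s n l r ∧ fv rho s (qq rho s n l r) = fv rho s (qq rho s n l (r + 1))))
    (hlt : ∀ t < r, l ≤ qq rho s n l t ∧ fv rho s (qq rho s n l t) = fv rho s (qq rho s n l (t + 1)))
    (g : ℕ) (hgn : g ≤ n) (hg : fv rho s g = Mx rho s n) :
    ∃ t ≤ r, g ≤ qq rho s n l t ∧ qq rho s n l t < g + l := by
  by_contra hcon
  push Not at hcon
  have h1 : ∀ t ≤ r, fv rho s (qq rho s n l t) = Mx rho s n := by
    intro t
    induction t with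
    | zero => intro _; exact fv_lm rho s n
    | succ t ih =>
      intro ht
      rw [← (hlt t (by omega)).2]
      exact ih (by omega)
  have hstep : ∀ t ≤ r, g ≤ qq rho s n l t → l ≤ qq rho s n l t ∧ g ≤ qq rho s n l (t + 1) ∧
      fv rho s (qq rho s n l (t + 1)) = Mx rho s n := by
    intro t ht hgt
    have h2 := hcon t ht hgt
    have h3 : g ≤ qq rho s n l t - l := by omega
    have h4 : qq rho s n l t - l ≤ n := (Nat.sub_le _ _).trans (qq_le rho s n l t)
    have h5 := Win_Mx h3 h4 hg
    refine ⟨by omega, le_lm h3 (by rw [h5, hg]), ?_⟩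
    change fv rho s (lm rho s (qq rho s n l t - l)) = _
    rw [fv_lm, h5]
  have h2 : ∀ t ≤ r, g ≤ qq rho s n l t := by
    intro t
    induction t with
    | zero => intro _; exact le_lm hgn hg
    | succ t ih =>
      intro ht
      exact (hstep t (by omega) (ih (by omega))).2.1
  have h3 := hstep r le_rfl (h2 r le_rfl)
  exact hr ⟨h3.1, by rw [h1 r le_rfl, h3.2.2]⟩

theorem Win_block (A l p : ℕ) (hp : 1 ≤ p) : ((Ico (A - l) A).image (fun i => i / p)).card ≤ l / p + 2 := by
  have h1 : (Ico (A - l) A).image (fun i => i / p) ⊆ Icc ((A - l) / p) ((A - l) / p + l / p + 1) := by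
    intro x hx
    obtain ⟨i, hi, rfl⟩ := mem_image.1 hx
    rw [mem_Ico] at hi
    rw [mem_Icc]
    refine ⟨Nat.div_le_div_right hi.1, ?_⟩
    have h2 : i / p ≤ (A - l + l) / p := Nat.div_le_div_right (by omega)
    have h3 := Nat.add_div (a := A - l) (b := l) (c := p) (by omega)
    have h4 : (if p ≤ (A - l) % p + l % p then 1 else 0) ≤ 1 := by
      split <;> omega
    omega
  refine (card_le_card h1).trans ?_
  rw [Nat.card_Icc]
  generalize (A - l) / p = x
  generalize l / p = y
  omega

theorem win (rho : ℕ → ℕ) (s : Finset ℕ) (n l m p : ℕ) (hp : 1 ≤ p)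
    (h : ¬ chn rho s n l m) :
    ((hit rho s n).image (fun i => i / p)).card ≤ m * (l / p + 2) := by
  classical
  unfold chn at h
  push Not at h
  have hex : ∃ r, r < m ∧
      ¬ (l ≤ qq rho s n l r ∧ fv rho s (qq rho s n l r) = fv rho s (qq rho s n l (r + 1))) := by
    obtain ⟨r, hr, hr2⟩ := h
    exact ⟨r, hr, fun h3 => hr2 h3.1 h3.2⟩
  obtain ⟨hrm, hr⟩ := Nat.find_spec hex
  have hlt : ∀ t < Nat.find hex, l ≤ qq rho s n l t ∧
      fv rho s (qq rho s n l t) = fv rho s (qq rho s n l (t + 1)) := by
    intro t ht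
    have h3 := Nat.find_min hex ht
    push Not at h3
    exact h3 (by omega)
  have hsub : (hit rho s n).image (fun i => i / p) ⊆
      (range (Nat.find hex + 1)).biUnion (fun t =>
        (Ico (qq rho s n l t - l) (qq rho s n l t)).image (fun i => i / p)) := by
    intro x hx
    obtain ⟨i, hi, rfl⟩ := mem_image.1 hx
    unfold hit at hi
    rw [mem_filter, mem_range] at hi
    obtain ⟨t, ht, h4, h5⟩ := Win_cover rho s n l _ hr hlt (i + 1) (by omega) hi.2.2
    rw [mem_biUnion]
    refine ⟨t, mem_range.2 (by omega), mem_image.2 ⟨i, ?_, rfl⟩⟩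
    rw [mem_Ico]
    omega
  refine (card_le_card hsub).trans (card_biUnion_le.trans ?_)
  refine (sum_le_card_nsmul _ _ (l / p + 2) fun t _ => Win_block _ _ _ hp).trans ?_
  rw [card_range, smul_eq_mul]
  exact Nat.mul_le_mul_right _ (by omega)

/-- two elements of hit at distance at least l give one tie -/
theorem chn_one (rho : ℕ → ℕ) (s : Finset ℕ) (n l : ℕ) {i j : ℕ} (hi : i ∈ hit rho s n)
    (hj : j ∈ hit rho s n) (hij : i + l ≤ j) : chn rho s n l 1 := by
  unfold hit at hi hj
  rw [mem_filter, mem_range] at hi hj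
  intro r hr
  obtain rfl : r = 0 := by omega
  have h1 : j + 1 ≤ lm rho s n := le_lm (by omega) hj.2.2
  have h0 := lm_le rho s n
  change l ≤ lm rho s n ∧ fv rho s (lm rho s n) = fv rho s (lm rho s (lm rho s n - l))
  refine ⟨by omega, ?_⟩
  rw [fv_lm, fv_lm]
  exact (Win_Mx (g := i + 1) (by omega) (by omega) hi.2.2).symm

end LCSV
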