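import Pool.Agent.LCSV.TieM
import Pool.Agent.LCSV.Win

/-!
# Second moment of the number of windows

Write N = card of the image of hit under i / p, N <= n. Let c = c1 > 0, a p >= c1.
Tail: for x >= 72 let l = p * (x / 12 - 3) (natural division). Then 12 (l/p + 2) = 12 (x/12 - 1) < x + 1, so N > x implies
(win with m = 12) chn rho s n l 12, and a l >= c1 (x/12 - 3) ; for x >= x0(c1) this is >= 1 and >= c1 x / 24 and tieM 12 gives
P(N > x) <= C (c1 x / 24)^(-3) = C' x^(-3). Enlarging C' this holds for all x >= 1 (P <= 1 <= x0^3 x^(-3) for x < x0).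
N^2 ind(N > y) <= (y+1)^2 ind (N > y) + sum over y < x <= n of (2x+1) ind (N > x), so the expectation is at most
4 y^2 C' y^(-3) + 3 C' sum over x > y of x^(-2) <= C'' / y (1/x^2 <= 1/(x-1) - 1/x).
-/

namespace LCSV

open Finset

/-- tail bound for the number of windows -/
theorem nmom_tail (c1 : ℝ) (hc1 : 0 < c1) : ∃ C : ℝ, 0 < C ∧ ∀ (a : ℝ) (rho : ℕ → ℕ) (n p x : ℕ),
    0 < a → a ≤ 1 / 2 → 1 ≤ p → c1 ≤ a * p → 1 ≤ x →
    Ex a n (fun s => ind (x < ((hit rho s n).image (fun i => i / p)).card)) ≤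
      C / (x : ℝ) ^ 3 := by
  obtain ⟨C, hC, ht⟩ := tieM 12
  have hx0 : (0 : ℝ) < 94 + 24 / c1 := by positivity
  refine ⟨C * (24 / c1) ^ 3 + (94 + 24 / c1) ^ 3, by positivity, ?_⟩
  intro a rho n p x ha ha2 hp hcp hx
  have hxr : (1 : ℝ) ≤ x := by exact_mod_cast hx
  have hx3 : (0 : ℝ) < (x : ℝ) ^ 3 := by positivity
  have ha1 : a ≤ 1 := by linarith
  rcases lt_or_ge (x : ℝ) (94 + 24 / c1) with h | h
  · -- trivial bound
    have h1 : Ex a n (fun s => ind (x < ((hit rho s n).image (fun i => i / p)).card)) ≤ 1 := by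
      refine (Ex_mono ha.le ha1 (G := fun _ => (1 : ℝ)) (fun s _ => ind_le_one _)).trans ?_
      rw [Ex_const]
    refine h1.trans ?_
    rw [le_div_iff₀ hx3, one_mul]
    have h2 : (x : ℝ) ^ 3 ≤ (94 + 24 / c1) ^ 3 := pow_le_pow_left₀ (by positivity) h.le 3
    have h3 : 0 ≤ C * (24 / c1) ^ 3 := by positivity
    linarith
  · have h24 : 0 < 24 / c1 := by positivity
    have h94 : (94 : ℝ) ≤ x := by linarith
    have h94' : 94 ≤ x := by exact_mod_cast h94
    obtain ⟨q, hq⟩ : ∃ q, q = x / 12 - 3 := ⟨_, rfl⟩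
    have hq1 : 12 * (q + 2) < x := by omega
    have hq2 : x ≤ 24 * q := by omega
    have hq2r : (x : ℝ) / 24 ≤ q := by
      have : (x : ℝ) ≤ 24 * q := by exact_mod_cast hq2
      linarith
    have hal : c1 * x / 24 ≤ a * ((p * q : ℕ) : ℝ) := by
      push_cast
      have h1 : c1 * (x / 24) ≤ (a * p) * q :=
        mul_le_mul hcp hq2r (by positivity) (by positivity)
      linarith
    have hal1 : 1 ≤ c1 * x / 24 := by
      have h2 : 24 / c1 ≤ x := by linarith
      rw [div_le_iff₀ hc1] at h2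
      linarith
    have h3 := ht a rho n (p * q) ha ha2 (hal1.trans hal)
    have h4 : Ex a n (fun s => ind (x < ((hit rho s n).image (fun i => i / p)).card)) ≤
        Ex a n (fun s => ind (chn rho s n (p * q) 12)) := by
      refine Ex_mono ha.le ha1 (fun s _ => ind_mono ?_)
      intro hlt
      by_contra hn
      have h5 := win rho s n (p * q) 12 p hp hn
      rw [Nat.mul_div_cancel_left q (by omega)] at h5
      omega
    refine h4.trans (h3.trans ?_)
    have h6 : (a * ((p * q : ℕ) : ℝ)) ^ (-(((12 : ℕ) : ℝ) / 4)) ≤ (24 / c1) ^ 3 / (x : ℝ) ^ 3 := by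
      have e : (-(((12 : ℕ) : ℝ) / 4)) = -((3 : ℕ) : ℝ) := by norm_num
      rw [e, Real.rpow_neg (by positivity), Real.rpow_natCast]
      have h7 : (c1 * x / 24) ^ 3 ≤ (a * ((p * q : ℕ) : ℝ)) ^ 3 :=
        pow_le_pow_left₀ (by positivity) hal 3
      have h8 : ((24 / c1) ^ 3 / (x : ℝ) ^ 3) = ((c1 * x / 24) ^ 3)⁻¹ := by
        field_simp
      rw [h8]
      exact inv_anti₀ (by positivity) h7
    calc C * (a * ((p * q : ℕ) : ℝ)) ^ (-(((12 : ℕ) : ℝ) / 4)) ≤
        C * ((24 / c1) ^ 3 / (x : ℝ) ^ 3) := mul_le_mul_of_nonneg_left h6 hC.le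
      _ = C * (24 / c1) ^ 3 / (x : ℝ) ^ 3 := by ring
      _ ≤ _ := by
        refine div_le_div_of_nonneg_right ?_ hx3.le
        have : 0 ≤ (94 + 24 / c1) ^ 3 := by positivity
        linarith

theorem nmom_sum (y N : ℕ) (h : y + 1 ≤ N) :
    ∑ x ∈ Ico (y + 1) N, (2 * (x : ℝ) + 1) = (N : ℝ) ^ 2 - ((y : ℝ) + 1) ^ 2 := by
  induction N, h using Nat.le_induction with
  | base => simp
  | succ N hN ih =>
    rw [Finset.sum_Ico_succ_top hN, ih]
    push_cast
    ring

theorem nmom_point (y N n : ℕ) (hN : N ≤ n) :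
    ind (y < N) * (N : ℝ) ^ 2 ≤ ((y : ℝ) + 1) ^ 2 * ind (y < N) +
      ∑ x ∈ Ioc y n, (2 * (x : ℝ) + 1) * ind (x < N) := by
  by_cases h : y < N
  · rw [ind_true h, one_mul, mul_one]
    have h1 : ∑ x ∈ Ico (y + 1) N, (2 * (x : ℝ) + 1) ≤
        ∑ x ∈ Ioc y n, (2 * (x : ℝ) + 1) * ind (x < N) := by
      calc ∑ x ∈ Ico (y + 1) N, (2 * (x : ℝ) + 1) =
          ∑ x ∈ Ico (y + 1) N, (2 * (x : ℝ) + 1) * ind (x < N) := by
            refine Finset.sum_congr rfl fun x hx => ?_
            rw [Finset.mem_Ico] at hx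
            rw [ind_true hx.2, mul_one]
        _ ≤ _ := by
            refine Finset.sum_le_sum_of_subset_of_nonneg ?_ ?_
            · intro x hx
              rw [Finset.mem_Ico] at hx
              rw [Finset.mem_Ioc]
              omega
            · intro x _ _
              have := ind_nonneg (x < N)
              positivity
    rw [nmom_sum y N h] at h1
    linarith
  · rw [ind_false h, zero_mul, mul_zero, zero_add]
    refine Finset.sum_nonneg fun x _ => ?_
    have := ind_nonneg (x < N)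
    positivity

theorem nmom : ∀ c1 : ℝ, 0 < c1 → ∃ C : ℝ, 0 < C ∧ ∀ (a : ℝ) (rho : ℕ → ℕ) (n p y : ℕ),
    0 < a → a ≤ 1 / 2 → 1 ≤ p → c1 ≤ a * p → 1 ≤ y →
    Ex a n (fun s => ind (y < ((hit rho s n).image (fun i => i / p)).card) *
      (((hit rho s n).image (fun i => i / p)).card : ℝ) ^ 2) ≤ C / y := by
  intro c1 hc1
  obtain ⟨C, hC, ht⟩ := nmom_tail c1 hc1
  refine ⟨7 * C, by positivity, ?_⟩
  intro a rho n p y ha ha2 hp hcp hy
  have ha1 : a ≤ 1 := by linarith
  have hyr : (1 : ℝ) ≤ y := by exact_mod_cast hy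
  have hcard : ∀ s : Finset ℕ, ((hit rho s n).image (fun i => i / p)).card ≤ n := by
    intro s
    refine Finset.card_image_le.trans ?_
    unfold hit
    refine (Finset.card_filter_le _ _).trans ?_
    rw [Finset.card_range]
  have h1 : Ex a n (fun s => ind (y < ((hit rho s n).image (fun i => i / p)).card) *
      (((hit rho s n).image (fun i => i / p)).card : ℝ) ^ 2) ≤
      Ex a n (fun s => ((y : ℝ) + 1) ^ 2 *
        ind (y < ((hit rho s n).image (fun i => i / p)).card) +
        ∑ x ∈ Ioc y n, (2 * (x : ℝ) + 1) *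
          ind (x < ((hit rho s n).image (fun i => i / p)).card)) :=
    Ex_mono ha.le ha1 (fun s _ => nmom_point y _ n (hcard s))
  refine h1.trans ?_
  rw [Ex_add (fun s => ((y : ℝ) + 1) ^ 2 *
        ind (y < ((hit rho s n).image (fun i => i / p)).card))
      (fun s => ∑ x ∈ Ioc y n, (2 * (x : ℝ) + 1) *
          ind (x < ((hit rho s n).image (fun i => i / p)).card)), Ex_mul_left,
    Ex_sum (Ioc y n) (fun x s => (2 * (x : ℝ) + 1) *
          ind (x < ((hit rho s n).image (fun i => i / p)).card))]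
  have h2 : ((y : ℝ) + 1) ^ 2 *
      Ex a n (fun s => ind (y < ((hit rho s n).image (fun i => i / p)).card)) ≤ 4 * C / y := by
    have h3 := ht a rho n p y ha ha2 hp hcp hy
    calc ((y : ℝ) + 1) ^ 2 *
        Ex a n (fun s => ind (y < ((hit rho s n).image (fun i => i / p)).card)) ≤
        ((y : ℝ) + 1) ^ 2 * (C / (y : ℝ) ^ 3) := mul_le_mul_of_nonneg_left h3 (by positivity)
      _ ≤ (2 * (y : ℝ)) ^ 2 * (C / (y : ℝ) ^ 3) := by
          refine mul_le_mul_of_nonneg_right ?_ (by positivity)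
          exact pow_le_pow_left₀ (by positivity) (by linarith) 2
      _ = 4 * C / y := by
          field_simp
          ring
  have h4 : ∑ x ∈ Ioc y n, Ex a n (fun s => (2 * (x : ℝ) + 1) *
      ind (x < ((hit rho s n).image (fun i => i / p)).card)) ≤ 3 * C / y := by
    have h5 : ∀ x ∈ Ioc y n, Ex a n (fun s => (2 * (x : ℝ) + 1) *
        ind (x < ((hit rho s n).image (fun i => i / p)).card)) ≤
        3 * C * ((x : ℝ) ^ 2)⁻¹ := by
      intro x hx
      rw [Finset.mem_Ioc] at hx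
      have hx1 : 1 ≤ x := by omega
      have hxr : (1 : ℝ) ≤ x := by exact_mod_cast hx1
      rw [Ex_mul_left]
      have h3 := ht a rho n p x ha ha2 hp hcp hx1
      calc (2 * (x : ℝ) + 1) *
          Ex a n (fun s => ind (x < ((hit rho s n).image (fun i => i / p)).card)) ≤
          (2 * (x : ℝ) + 1) * (C / (x : ℝ) ^ 3) := mul_le_mul_of_nonneg_left h3 (by positivity)
        _ ≤ (3 * (x : ℝ)) * (C / (x : ℝ) ^ 3) := by
            refine mul_le_mul_of_nonneg_right ?_ (by positivity)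
            linarith
        _ = 3 * C * ((x : ℝ) ^ 2)⁻¹ := by
            field_simp
    refine (Finset.sum_le_sum h5).trans ?_
    rw [← Finset.mul_sum]
    have h6 : ∑ x ∈ Ioc y n, ((x : ℝ) ^ 2)⁻¹ ≤ (y : ℝ)⁻¹ := by
      rcases le_or_gt y n with h | h
      · have := sum_Ioc_inv_sq_le_sub (α := ℝ) (k := y) (n := n) (by omega) h
        have h7 : (0 : ℝ) ≤ (n : ℝ)⁻¹ := by positivity
        linarith
      · rw [Finset.Ioc_eq_empty (by omega), Finset.sum_empty]
        positivity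
    calc 3 * C * ∑ x ∈ Ioc y n, ((x : ℝ) ^ 2)⁻¹ ≤ 3 * C * (y : ℝ)⁻¹ :=
          mul_le_mul_of_nonneg_left h6 (by positivity)
      _ = 3 * C / y := by ring
  calc _ ≤ 4 * C / y + 3 * C / y := add_le_add h2 h4
    _ = 7 * C / y := by ring

end LCSV
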