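import Pool.Agent.LCSV.ELa

/-!
# Product measures with one distinguished point, Russo formula, change of measure

beta a finite type with at least two points, w a point of beta, nuw w theta gives weight theta to w and the same weight
(1 - theta) / (card beta - 1) to all other points.

russo: induction on N. EL (nuw w th) (N+1) H = sum_x nuw w th x * EL (nuw w th) N (fun l => H (x :: l)). The derivative of
th -> nuw w th x is ((if x = w then 1 else 0) - nuw w th x) / (1 - th) (for x = w this is 1; for x <> w it is -1/(card - 1)), so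
sum_x (nuw' x) f x = (f w - sum_x nuw w th x * f x) / (1 - th). With f x = EL (nuw w th) N (fun l => H (x :: l)) this is the term b = 0 of
the claimed sum ((x :: l).set 0 w = w :: l; use sum_x nuw w th x = 1), and the induction hypothesis for H (x :: .) gives the terms b + 1
((x :: l).set (b+1) w = x :: l.set b w).

chm: with p = 1 / card beta all weights nuw w p x are 1 / card beta = p > 0. Induction on N gives, for G >= 0 arbitrary,
(EL (nuw w th) N G)^2 <= EL (nuw w p) N (G^2) * rho^N, rho = 1 + (th - p)^2 / (p (1 - p)):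
(sum_x nu x * g x)^2 <= (sum_x p * h x) * (sum_x (nu x)^2 / p) by Cauchy-Schwarz whenever (g x)^2 <= h x
(write nu x g x = (sqrt p sqrt(h x)) * (nu x / sqrt p) ...), and sum_x (nu x)^2 / p = 1 + (th - p)^2/(p (1-p))
(= (th^2 + (1-th)^2/(card - 1)) card, card = 1/p; check: th^2/p + (1-th)^2/(1-p) = 1 + (th-p)^2/(p(1-p))).
Finally G^2 <= G when 0 <= G <= 1.
-/

namespace LCSV

open Finset

/-- weight theta for w, equal weights for all other points -/
noncomputable def nuw {β : Type*} [Fintype β] [DecidableEq β] (w : β) (θ : ℝ) : β → ℝ :=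
  fun x => if x = w then θ else (1 - θ) / ((Fintype.card β : ℝ) - 1)

theorem Nuw_sum {β : Type*} [Fintype β] [DecidableEq β] (w : β) (θ : ℝ) (f : β → ℝ) :
    ∑ x, nuw w θ x * f x = (1 - θ) / ((Fintype.card β : ℝ) - 1) * (∑ x, f x)
      + (θ - (1 - θ) / ((Fintype.card β : ℝ) - 1)) * f w := by
  have h1 : ∀ x, nuw w θ x * f x = (1 - θ) / ((Fintype.card β : ℝ) - 1) * f x
      + (if x = w then (θ - (1 - θ) / ((Fintype.card β : ℝ) - 1)) * f x else 0) := by
    intro x
    unfold nuw
    split_ifs with h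
    · ring
    · ring
  rw [Finset.sum_congr rfl (fun x _ => h1 x), Finset.sum_add_distrib, ← Finset.mul_sum,
    Finset.sum_ite_eq' Finset.univ w]
  simp

theorem Nuw_card {β : Type*} [Fintype β] (hβ : 2 ≤ Fintype.card β) :
    (1 : ℝ) ≤ (Fintype.card β : ℝ) - 1 := by
  have h : (2 : ℝ) ≤ (Fintype.card β : ℝ) := by exact_mod_cast hβ
  linarith

theorem Nuw_sum_one {β : Type*} [Fintype β] [DecidableEq β] (hβ : 2 ≤ Fintype.card β) (w : β)
    (θ : ℝ) : ∑ x, nuw w θ x = 1 := by
  have h1 := Nuw_sum w θ (fun _ => (1 : ℝ))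
  have h2 := Nuw_card hβ
  simp only [mul_one, Finset.sum_const, Finset.card_univ, nsmul_eq_mul] at h1
  rw [h1]
  have h3 : (Fintype.card β : ℝ) - 1 ≠ 0 := by linarith
  field_simp
  ring

theorem nuw_isP {β : Type*} [Fintype β] [DecidableEq β] (hβ : 2 ≤ Fintype.card β) (w : β) (θ : ℝ)
    (h0 : 0 ≤ θ) (h1 : θ ≤ 1) : IsP (nuw w θ) := by
  refine ⟨fun x => ?_, Nuw_sum_one hβ w θ⟩
  have h2 := Nuw_card hβ
  unfold nuw
  split_ifs
  · exact h0
  · exact div_nonneg (by linarith) (by linarith)

theorem nuw_unif {β : Type*} [Fintype β] [DecidableEq β] (hβ : 2 ≤ Fintype.card β) (w : β) :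
    nuw w (1 / (Fintype.card β : ℝ)) = fun _ => 1 / (Fintype.card β : ℝ) := by
  have h2 := Nuw_card hβ
  have h3 : (Fintype.card β : ℝ) - 1 ≠ 0 := by linarith
  have h4 : (Fintype.card β : ℝ) ≠ 0 := by linarith
  funext x
  unfold nuw
  split_ifs
  · rfl
  · field_simp

theorem russo {β : Type*} [Fintype β] [DecidableEq β] (hβ : 2 ≤ Fintype.card β) (w : β) (θ : ℝ)
    (h1 : θ < 1) (N : ℕ) (H : List β → ℝ) :
    HasDerivAt (fun θ => EL (nuw w θ) N H)
      ((∑ b ∈ range N, EL (nuw w θ) N (fun l => H (l.set b w) - H l)) / (1 - θ)) θ := by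
  have h2 := Nuw_card hβ
  have h3 : (Fintype.card β : ℝ) - 1 ≠ 0 := by linarith
  have h5 : (1 - θ) ≠ 0 := by linarith
  induction N generalizing H with
  | zero =>
    rw [Finset.range_zero, Finset.sum_empty, zero_div]
    exact hasDerivAt_const θ (H [])
  | succ N ih =>
    have hd : ∀ x : β, HasDerivAt (fun θ => nuw w θ x)
        (((if x = w then 1 else 0) - nuw w θ x) / (1 - θ)) θ := by
      intro x
      by_cases hx : x = w
      · have e1 : (fun θ => nuw w θ x) = fun θ => θ := by
          funext t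
          unfold nuw
          rw [if_pos hx]
        have e2 : ((if x = w then (1 : ℝ) else 0) - nuw w θ x) / (1 - θ) = 1 := by
          unfold nuw
          rw [if_pos hx, if_pos hx]
          exact div_self h5
        rw [e1, e2]
        exact hasDerivAt_id θ
      · have e1 : (fun θ => nuw w θ x) = fun θ => (1 - θ) / ((Fintype.card β : ℝ) - 1) := by
          funext t
          unfold nuw
          rw [if_neg hx]
        have e2 : ((if x = w then (1 : ℝ) else 0) - nuw w θ x) / (1 - θ)
            = (-1) / ((Fintype.card β : ℝ) - 1) := by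
          unfold nuw
          rw [if_neg hx, if_neg hx]
          field_simp
          ring
        rw [e1, e2]
        exact ((hasDerivAt_id θ).const_sub 1).div_const _
    have hs : HasDerivAt (fun θ => ∑ x, nuw w θ x * EL (nuw w θ) N (fun l => H (x :: l)))
        (∑ x, ((((if x = w then 1 else 0) - nuw w θ x) / (1 - θ)) *
            EL (nuw w θ) N (fun l => H (x :: l)) + nuw w θ x *
            ((∑ b ∈ range N, EL (nuw w θ) N (fun l => H (x :: l.set b w) - H (x :: l)))
              / (1 - θ)))) θ := by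
      refine HasDerivAt.fun_sum fun x _ => ?_
      exact (hd x).mul (ih (fun l => H (x :: l)))
    have e0 : (fun θ => EL (nuw w θ) (N + 1) H)
        = fun θ => ∑ x, nuw w θ x * EL (nuw w θ) N (fun l => H (x :: l)) := rfl
    rw [e0]
    refine hs.congr_deriv ?_
    rw [Finset.sum_range_succ']
    have e1 : ∀ b, EL (nuw w θ) (N + 1) (fun l => H (l.set (b + 1) w) - H l)
        = ∑ x, nuw w θ x * EL (nuw w θ) N (fun l => H (x :: l.set b w) - H (x :: l)) :=
      fun b => rfl
    have e2 : EL (nuw w θ) (N + 1) (fun l => H (l.set 0 w) - H l)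
        = ∑ x, nuw w θ x * EL (nuw w θ) N (fun l => H (w :: l) - H (x :: l)) := rfl
    have e3 : ∑ x, nuw w θ x * EL (nuw w θ) N (fun l => H (w :: l) - H (x :: l))
        = EL (nuw w θ) N (fun l => H (w :: l))
          - ∑ x, nuw w θ x * EL (nuw w θ) N (fun l => H (x :: l)) := by
      rw [Finset.sum_congr rfl (fun x _ => by rw [EL_sub, mul_sub]), Finset.sum_sub_distrib,
        ← Finset.sum_mul, Nuw_sum_one hβ, one_mul]
    have e4 : ∑ x, (((if x = w then (1 : ℝ) else 0) - nuw w θ x) / (1 - θ)) *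
        EL (nuw w θ) N (fun l => H (x :: l))
        = (EL (nuw w θ) N (fun l => H (w :: l))
          - ∑ x, nuw w θ x * EL (nuw w θ) N (fun l => H (x :: l))) / (1 - θ) := by
      rw [sub_div, Finset.sum_div]
      have e5 : ∀ x, (((if x = w then (1 : ℝ) else 0) - nuw w θ x) / (1 - θ)) *
          EL (nuw w θ) N (fun l => H (x :: l))
          = (if x = w then EL (nuw w θ) N (fun l => H (x :: l)) / (1 - θ) else 0)
            - nuw w θ x * EL (nuw w θ) N (fun l => H (x :: l)) / (1 - θ) := by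
        intro x
        split_ifs
        · ring
        · ring
      rw [Finset.sum_congr rfl (fun x _ => e5 x), Finset.sum_sub_distrib,
        Finset.sum_ite_eq' Finset.univ w]
      simp
    rw [Finset.sum_add_distrib, e4, e2, e3, Finset.sum_congr rfl (fun b _ => e1 b),
      Finset.sum_comm, add_div, Finset.sum_div, add_comm]
    congr 1
    refine Finset.sum_congr rfl fun x _ => ?_
    rw [← Finset.mul_sum, mul_div_assoc]

theorem Nuw_sq {β : Type*} [Fintype β] [DecidableEq β] (hβ : 2 ≤ Fintype.card β) (w : β)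
    (θ p : ℝ) (hp : p = 1 / (Fintype.card β : ℝ)) :
    ∑ x, nuw w θ x ^ 2 = p * (1 + (θ - p) ^ 2 / (p * (1 - p))) := by
  have h2 := Nuw_card hβ
  have h3 : (Fintype.card β : ℝ) - 1 ≠ 0 := by linarith
  have h4 : (Fintype.card β : ℝ) ≠ 0 := by linarith
  have e1 : ∑ x, nuw w θ x ^ 2 = ∑ x, nuw w θ x * nuw w θ x :=
    Finset.sum_congr rfl fun x _ => by ring
  rw [e1, Nuw_sum, Nuw_sum_one hβ]
  have e2 : nuw w θ w = θ := by
    unfold nuw
    rw [if_pos rfl]
  rw [e2]
  have e3 : 1 - p = ((Fintype.card β : ℝ) - 1) / (Fintype.card β : ℝ) := by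
    rw [hp]
    field_simp
  rw [e3, hp]
  field_simp
  ring

theorem Nuw_chm {β : Type*} [Fintype β] [DecidableEq β] (hβ : 2 ≤ Fintype.card β) (w : β)
    (θ p : ℝ) (hp : p = 1 / (Fintype.card β : ℝ)) (N : ℕ) (G : List β → ℝ) :
    (EL (nuw w θ) N G) ^ 2 ≤
      EL (nuw w p) N (fun l => G l ^ 2) * (1 + (θ - p) ^ 2 / (p * (1 - p))) ^ N := by
  have h2 := Nuw_card hβ
  have hp0 : 0 < p := by
    rw [hp]
    apply div_pos one_pos
    linarith
  have hp1 : p < 1 := by
    rw [hp, div_lt_one (by linarith)]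
    linarith
  have hr : 0 ≤ 1 + (θ - p) ^ 2 / (p * (1 - p)) := by
    have h5 : 0 ≤ (θ - p) ^ 2 / (p * (1 - p)) :=
      div_nonneg (sq_nonneg _) (mul_nonneg hp0.le (by linarith))
    linarith
  have hu : ∀ x, nuw w p x = p := by
    intro x
    have h6 := nuw_unif hβ w
    rw [← hp] at h6
    exact congrFun h6 x
  induction N generalizing G with
  | zero =>
    rw [pow_zero, mul_one]
    exact le_refl _
  | succ N ih =>
    have e0 : EL (nuw w θ) (N + 1) G
        = ∑ x, EL (nuw w θ) N (fun l => G (x :: l)) * nuw w θ x := by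
      show ∑ x, nuw w θ x * EL (nuw w θ) N (fun l => G (x :: l)) = _
      exact Finset.sum_congr rfl fun x _ => mul_comm _ _
    have e1 : EL (nuw w p) (N + 1) (fun l => G l ^ 2)
        = p * ∑ x, EL (nuw w p) N (fun l => G (x :: l) ^ 2) := by
      show ∑ x, nuw w p x * EL (nuw w p) N (fun l => G (x :: l) ^ 2) = _
      rw [Finset.mul_sum]
      exact Finset.sum_congr rfl fun x _ => by rw [hu x]
    rw [e0, e1]
    have h7 := Finset.sum_mul_sq_le_sq_mul_sq Finset.univ
      (fun x => EL (nuw w θ) N (fun l => G (x :: l))) (fun x => nuw w θ x)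
    refine h7.trans ?_
    rw [Nuw_sq hβ w θ p hp]
    have h8 : ∑ x, EL (nuw w θ) N (fun l => G (x :: l)) ^ 2
        ≤ ∑ x, EL (nuw w p) N (fun l => G (x :: l) ^ 2) *
          (1 + (θ - p) ^ 2 / (p * (1 - p))) ^ N :=
      Finset.sum_le_sum fun x _ => ih (fun l => G (x :: l))
    rw [← Finset.sum_mul] at h8
    have h9 := mul_le_mul_of_nonneg_right h8 (mul_nonneg hp0.le hr)
    refine h9.trans (le_of_eq ?_)
    ring

theorem chm {β : Type*} [Fintype β] [DecidableEq β] (hβ : 2 ≤ Fintype.card β) (w : β) (θ p : ℝ)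
    (h0 : 0 ≤ θ) (h1 : θ ≤ 1) (hp : p = 1 / (Fintype.card β : ℝ)) (N : ℕ) (H : List β → ℝ)
    (hH0 : ∀ l, 0 ≤ H l) (hH1 : ∀ l, H l ≤ 1) :
    (EL (nuw w θ) N H) ^ 2 ≤ EL (nuw w p) N H * (1 + (θ - p) ^ 2 / (p * (1 - p))) ^ N := by
  have h2 := Nuw_card hβ
  have hp0 : 0 < p := by
    rw [hp]
    apply div_pos one_pos
    linarith
  have hp1 : p < 1 := by
    rw [hp, div_lt_one (by linarith)]
    linarith
  have hr : 0 ≤ 1 + (θ - p) ^ 2 / (p * (1 - p)) := by
    have h5 : 0 ≤ (θ - p) ^ 2 / (p * (1 - p)) :=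
      div_nonneg (sq_nonneg _) (mul_nonneg hp0.le (by linarith))
    linarith
  refine (Nuw_chm hβ w θ p hp N H).trans ?_
  refine mul_le_mul_of_nonneg_right ?_ (pow_nonneg hr N)
  refine EL_mono (nuw_isP hβ w p hp0.le hp1.le) fun l _ => ?_
  have h6 := hH0 l
  have h7 := hH1 l
  nlinarith

end LCSV
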