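import Pool.Agent.LCSV.TopP

/-!
# Inserting two rows with bit 0 in the top block without raising the maximum (deterministic)

q = lm (rh X Y) (bs b) n. X' = ins x p1 p2 X, b' = ins false p1 p2 b have length n + 2. Heights: for g > p2 + 1 the gap g of the new
environment has the same height and the same right part X'.drop g = X.drop (g - 2) as the gap g - 2 of the old one, so
fv' g = fv (g-2). In particular fv' (q+2) = fv q = M. By hypothesis Mx' <= M, so Mx' = M, the gap q + 2 is maximal and the
gaps beyond have fv' g = fv (g-2) < M: lm' = q + 2 (lm_eq). The rows of the block [q + 2 - w, q + 2) = [q - (w-2), q + 2):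
old rows of [q-(w-2), q), which have bit 0 by tp, and the two inserted rows, at positions p1 and p2 + 1.
letters: X'[p1]? = some x = X'[p2+1]?.
-/

namespace LCSV

open Finset

/-- insert x before the positions p1 and p2 -/
def ins {β : Type*} (x : β) (p1 p2 : ℕ) (X : List β) : List β :=
  X.take p1 ++ x :: ((X.drop p1).take (p2 - p1) ++ x :: X.drop p2)

theorem ins_length {β : Type*} (x : β) {p1 p2 : ℕ} {X : List β} (h : p1 ≤ p2) (h2 : p2 ≤ X.length) :
    (ins x p1 p2 X).length = X.length + 2 := by
  have h3 : p1 ≤ X.length := h.trans h2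
  simp only [ins, List.length_append, List.length_cons, List.length_take, List.length_drop]
  omega


private theorem pairdet_get {β : Type*} (x : β) {p1 p2 : ℕ} {X : List β} (h : p1 ≤ p2)
    (h2 : p2 ≤ X.length) (i : ℕ) : (ins x p1 p2 X)[i]? =
      if i < p1 then X[i]? else if i = p1 then some x else if i ≤ p2 then X[i - 1]? else
        if i = p2 + 1 then some x else X[i - 2]? := by
  have h3 : p1 ≤ X.length := h.trans h2
  have hl1 : (X.take p1).length = p1 := by rw [List.length_take]; omega
  have hl2 : ((X.drop p1).take (p2 - p1)).length = p2 - p1 := by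
    rw [List.length_take, List.length_drop]; omega
  unfold ins
  by_cases c1 : i < p1
  · rw [if_pos c1, List.getElem?_append_left (by omega), List.getElem?_take, if_pos c1]
  · rw [if_neg c1, List.getElem?_append_right (by omega), hl1]
    by_cases c2 : i = p1
    · rw [if_pos c2, c2, Nat.sub_self, List.getElem?_cons_zero]
    · rw [if_neg c2]
      obtain ⟨j, hj⟩ : ∃ j, i = p1 + (j + 1) := ⟨i - p1 - 1, by omega⟩
      have e1 : i - p1 = j + 1 := by omega
      rw [e1, List.getElem?_cons_succ]
      by_cases c3 : i ≤ p2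
      · rw [if_pos c3, List.getElem?_append_left (by omega), List.getElem?_take,
          if_pos (by omega), List.getElem?_drop]
        congr 1
        omega
      · rw [if_neg c3, List.getElem?_append_right (by omega), hl2]
        by_cases c4 : i = p2 + 1
        · have e2 : j - (p2 - p1) = 0 := by omega
          rw [if_pos c4, e2, List.getElem?_cons_zero]
        · obtain ⟨m, hm⟩ : ∃ m, j = (p2 - p1) + (m + 1) := ⟨j - (p2 - p1) - 1, by omega⟩
          have e2 : j - (p2 - p1) = m + 1 := by omega
          rw [if_neg c4, e2, List.getElem?_cons_succ, List.getElem?_drop]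
          congr 1
          omega

private theorem pairdet_drop {β : Type*} (x : β) {p1 p2 : ℕ} {X : List β} (h : p1 ≤ p2)
    (h2 : p2 ≤ X.length) (g : ℕ) (hg : p2 + 2 ≤ g) :
    (ins x p1 p2 X).drop g = X.drop (g - 2) := by
  apply List.ext_getElem?
  intro i
  rw [List.getElem?_drop, List.getElem?_drop, pairdet_get x h h2, if_neg (by omega),
    if_neg (by omega), if_neg (by omega), if_neg (by omega)]
  congr 1
  omega

private theorem pairdet_count {p1 p2 : ℕ} {b : List Bool} (h : p1 ≤ p2) :
    (ins false p1 p2 b).count true = b.count true := by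
  have e : b.take p1 ++ ((b.drop p1).take (p2 - p1) ++ b.drop p2) = b := by
    have e1 : b.drop p2 = (b.drop p1).drop (p2 - p1) := by
      rw [List.drop_drop]
      congr 1
      omega
    rw [e1, List.take_append_drop, List.take_append_drop]
  have e2 : (ins false p1 p2 b).count true =
      (b.take p1 ++ ((b.drop p1).take (p2 - p1) ++ b.drop p2)).count true := by
    simp [ins, List.count_append]
  rw [e2, e]

private theorem pairdet_take {p1 p2 : ℕ} {b : List Bool} (h : p1 ≤ p2)
    (h2 : p2 ≤ b.length) (g : ℕ) (hg : p2 + 2 ≤ g) :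
    ((ins false p1 p2 b).take g).count true = (b.take (g - 2)).count true := by
  have a1 : ((ins false p1 p2 b).take g).count true + ((ins false p1 p2 b).drop g).count true =
      (ins false p1 p2 b).count true := by
    rw [← List.count_append, List.take_append_drop]
  have a2 : (b.take (g - 2)).count true + (b.drop (g - 2)).count true = b.count true := by
    rw [← List.count_append, List.take_append_drop]
  rw [pairdet_drop false h h2 g hg, pairdet_count h] at a1
  omega

private theorem pairdet_fv {α : Type*} (X Y : List α) (b : List Bool) (n p1 p2 : ℕ) (x : α)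
    (hX : X.length = n) (hb : b.length = n) (h12 : p1 ≤ p2) (h2 : p2 ≤ n) (g : ℕ)
    (hg : p2 + 2 ≤ g) :
    fv (rh (ins x p1 p2 X) Y) (bs (ins false p1 p2 b)) g = fv (rh X Y) (bs b) (g - 2) := by
  unfold fv rh
  rw [ht_bs, ht_bs, pairdet_drop x h12 (by omega) g hg, pairdet_take h12 (by omega) g hg]

theorem ins_get1 {β : Type*} (x : β) {p1 p2 : ℕ} {X : List β} (h : p1 ≤ p2) (h2 : p2 ≤ X.length) :
    (ins x p1 p2 X)[p1]? = some x ∧ (ins x p1 p2 X)[p2 + 1]? = some x := by
  constructor
  · rw [pairdet_get x h h2, if_neg (by omega), if_pos rfl]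
  · rw [pairdet_get x h h2, if_neg (by omega), if_neg (by omega), if_neg (by omega), if_pos rfl]

theorem pair_det {α : Type*} (X Y : List α) (b : List Bool) (n w p1 p2 : ℕ) (x : α)
    (hX : X.length = n) (hb : b.length = n) (h12 : p1 ≤ p2)
    (h2 : p2 ≤ lm (rh X Y) (bs b) n) (hw : 2 ≤ w)
    (h1 : lm (rh X Y) (bs b) n - (w - 2) ≤ p1)
    (htp : tp (rh X Y) (bs b) n (w - 2))
    (h : ¬ Mx (rh X Y) (bs b) n <
      Mx (rh (ins x p1 p2 X) Y) (bs (ins false p1 p2 b)) (n + 2)) :
    lm (rh (ins x p1 p2 X) Y) (bs (ins false p1 p2 b)) (n + 2) = lm (rh X Y) (bs b) n + 2 ∧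
      tp (rh (ins x p1 p2 X) Y) (bs (ins false p1 p2 b)) (n + 2) w := by
  have hqn : lm (rh X Y) (bs b) n ≤ n := lm_le _ _ _
  set q := lm (rh X Y) (bs b) n with hq
  have hfq : fv (rh X Y) (bs b) q = Mx (rh X Y) (bs b) n := by rw [hq]; exact fv_lm _ _ _
  have hfv := pairdet_fv X Y b n p1 p2 x hX hb h12 (h2.trans hqn)
  have hq2 : fv (rh (ins x p1 p2 X) Y) (bs (ins false p1 p2 b)) (q + 2) =
      Mx (rh X Y) (bs b) n := by
    rw [hfv (q + 2) (by omega), Nat.add_sub_cancel, hfq]
  have hlm : lm (rh (ins x p1 p2 X) Y) (bs (ins false p1 p2 b)) (n + 2) = q + 2 := by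
    apply lm_eq (by omega)
    · intro g' hg'
      rw [hq2]
      exact (fv_le_Mx hg').trans (not_lt.1 h)
    · intro g' hg1 hg2
      rw [hq2, hfv g' (by omega)]
      exact lt_Mx_of_lm_lt (by omega) (by omega)
  refine ⟨hlm, ?_⟩
  obtain ⟨ht1, ht2⟩ := htp
  rw [← hq] at ht1 ht2
  unfold tp
  rw [hlm]
  refine ⟨by omega, ?_⟩
  intro i hi1 hi2 hi3
  rw [mem_bs, pairdet_get false h12 (by omega)] at hi3
  by_cases c1 : i < p1
  · rw [if_pos c1] at hi3
    exact ht2 i (by omega) (by omega) (mem_bs.2 hi3)
  · rw [if_neg c1] at hi3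
    by_cases c2 : i = p1
    · rw [if_pos c2] at hi3
      simp at hi3
    · rw [if_neg c2] at hi3
      by_cases c3 : i ≤ p2
      · rw [if_pos c3] at hi3
        exact ht2 (i - 1) (by omega) (by omega) (mem_bs.2 hi3)
      · rw [if_neg c3] at hi3
        by_cases c4 : i = p2 + 1
        · rw [if_pos c4] at hi3
          simp at hi3
        · rw [if_neg c4] at hi3
          exact ht2 (i - 2) (by omega) (by omega) (mem_bs.2 hi3)

end LCSV
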