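import Pool.Agent.LCSV.Gam
import Pool.Agent.LCSV.Box
import Pool.Agent.LCSV.DUp

/-!
# Directions far from the diagonal are bad

gam_low: with s = Nat.sqrt k + 1, s^2 >= k, so vK s s >= P(lcs >= 1) >= 1/2 (box), gam >= 1/(2 s) >= 1/(2 (sqrt k + 1)).
vbad: averaging dUp over X: vK K m <= b K + (m/k)(1/b - 1) <= b K + m/(k b) for 0 < b < 1. Let h = 1/sqrt k; gam/2 (K+m) >= (h/4)(1 - small)(K+m) >= (6/25) h (K+m).
Case 100 m < K: b = h/10 (if m is smaller this is still a valid choice): vK <= h K/10 + 10 h m <= h K / 10 + h K/10 = h K/5, and (6/25) h K - h K/5 = h K/25.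
Case 100 K < m <= k K /4 ... choose b = 10 h: vK <= 10 h K + h m/10 <= h m/10 + h m / 10 = h m/5 (10 h K <= h m/10), and
(6/25) h (K + m) - h m/5 >= h m/25 >= h K/25. (b = 10 h < 1 for k > 100; no further case is needed.)
-/

namespace LCSV

open Finset

theorem gam_low {k : ℕ} (hk : 0 < k) : 1 / (2 * (√(k : ℝ) + 1)) ≤ gam k := by
  obtain ⟨s, hs⟩ : ∃ s, s = Nat.sqrt k + 1 := ⟨_, rfl⟩
  have h1 : k ≤ s * s := by
    rw [hs]
    exact (Nat.lt_succ_sqrt k).le
  have h2 : (1 : ℝ) / 2 ≤ vK k s s := by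
    have hb := box k hk s s h1
    have e : vK k s s ≥ EL (un k) s (fun X => EL (un k) s (fun Y => 1 - ind (lcs X Y = 0))) := by
      unfold vK
      apply EL_mono (un_isP hk)
      intro X _
      apply EL_mono (un_isP hk)
      intro Y _
      by_cases h0 : lcs X Y = 0
      · rw [ind_true h0, h0]
        simp
      · rw [ind_false h0]
        have : (1 : ℝ) ≤ (lcs X Y : ℝ) := by
          exact_mod_cast Nat.one_le_iff_ne_zero.2 h0
        linarith
    have e2 : EL (un k) s (fun X => EL (un k) s (fun Y => 1 - ind (lcs X Y = 0))) =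
        1 - EL (un k) s (fun X => EL (un k) s (fun Y => ind (lcs X Y = 0))) := by
      have e3 : (fun X : List (Fin k) => EL (un k) s (fun Y => 1 - ind (lcs X Y = 0))) =
          fun X => 1 - EL (un k) s (fun Y => ind (lcs X Y = 0)) := by
        funext X
        rw [EL_sub, EL_const (un_isP hk)]
      rw [e3, EL_sub, EL_const (un_isP hk)]
    linarith
  have h3 := vK_le_gam hk s
  have hspos : (0 : ℝ) < s := by
    rw [hs]
    positivity
  have hsle : (s : ℝ) ≤ √(k : ℝ) + 1 := by
    rw [hs]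
    push_cast
    have := Real.nat_sqrt_le_real_sqrt (a := k)
    linarith
  have h4 : 1 / (2 * (s : ℝ)) ≤ gam k := by
    rw [div_le_iff₀ (by positivity)]
    linarith
  refine le_trans ?_ h4
  apply one_div_le_one_div_of_le (by positivity)
  linarith

theorem vK_le_avg {k : ℕ} (hk : 0 < k) {b : ℝ} (h0 : 0 < b) (h1 : b < 1) (K m : ℕ) :
    vK k K m ≤ b * K + m / k * (1 / b) := by
  have h2 : vK k K m ≤ b * K + m / k * (1 / b - 1) := by
    unfold vK
    calc _ ≤ EL (un k) K (fun _ => b * K + m / k * (1 / b - 1)) := by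
          apply EL_mono (un_isP hk)
          intro X hX
          have := dUp k hk b h0 h1 X m
          rwa [hX] at this
      _ = _ := EL_const (un_isP hk) _ _
  have h3 : (m : ℝ) / k * (1 / b - 1) ≤ m / k * (1 / b) := by
    apply mul_le_mul_of_nonneg_left _ (by positivity)
    linarith
  linarith

theorem vbad : ∃ k0 : ℕ, ∀ k ≥ k0, ∀ K m : ℕ, (100 * m < K ∨ 100 * K < m) →
    vK k K m ≤ gam k / 2 * (K + m) - 1 / (25 * √(k : ℝ)) * K := by
  refine ⟨576, fun k hk K m h => ?_⟩
  have hk0 : 0 < k := by omega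
  have hkR : (0 : ℝ) < k := by exact_mod_cast hk0
  have hr : (24 : ℝ) ≤ √(k : ℝ) := by
    apply Real.le_sqrt_of_sq_le
    norm_num
    exact_mod_cast hk
  have hrr : √(k : ℝ) * √(k : ℝ) = k := Real.mul_self_sqrt hkR.le
  obtain ⟨r, hrdef⟩ : ∃ r, r = √(k : ℝ) := ⟨_, rfl⟩
  rw [← hrdef] at hr hrr ⊢
  have hrpos : 0 < r := by linarith
  have hg : 12 / (25 * r) ≤ gam k := by
    refine le_trans ?_ (gam_low hk0)
    rw [← hrdef, div_le_div_iff₀ (by positivity) (by positivity)]
    linarith
  have hK0 : (0 : ℝ) ≤ K := Nat.cast_nonneg K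
  have hm0 : (0 : ℝ) ≤ m := Nat.cast_nonneg m
  have hg2 : 6 / (25 * r) * (K + m) ≤ gam k / 2 * (K + m) := by
    apply mul_le_mul_of_nonneg_right _ (by positivity)
    have : 6 / (25 * r) = 12 / (25 * r) / 2 := by
      field_simp
      norm_num
    rw [this]
    linarith
  rcases h with h | h
  · have hb := vK_le_avg hk0 (b := 1 / (10 * r)) (by positivity)
      (by rw [div_lt_one (by positivity)]; linarith) K m
    have h' : (100 : ℝ) * m ≤ K := by exact_mod_cast h.le
    have e1 : (m : ℝ) / k * (1 / (1 / (10 * r))) = 10 * m * (1 / r) := by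
      rw [← hrr]
      field_simp
    have e2 : 1 / (10 * r) * K + 10 * m * (1 / r) ≤ 6 / (25 * r) * (K + m) - 1 / (25 * r) * K := by
      have e3 : 6 / (25 * r) * (K + m) - 1 / (25 * r) * K - (1 / (10 * r) * K + 10 * m * (1 / r)) =
          (1 / r) * (K / 10 - (10 - 6 / 25) * m) := by
        field_simp
        ring
      have e4 : 0 ≤ (1 / r) * (K / 10 - (10 - 6 / 25) * m) := by
        apply mul_nonneg (by positivity)
        linarith
      linarith
    linarith
  · have hb := vK_le_avg hk0 (b := 10 / r) (by positivity)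
      (by rw [div_lt_one (by positivity)]; linarith) K m
    have h' : (100 : ℝ) * K ≤ m := by exact_mod_cast h.le
    have e1 : (m : ℝ) / k * (1 / (10 / r)) = m / 10 * (1 / r) := by
      rw [← hrr]
      field_simp
    have e2 : 10 / r * K + m / 10 * (1 / r) ≤ 6 / (25 * r) * (K + m) - 1 / (25 * r) * K := by
      have e3 : 6 / (25 * r) * (K + m) - 1 / (25 * r) * K - (10 / r * K + m / 10 * (1 / r)) =
          (1 / r) * ((6 / 25 - 1 / 10) * m - (10 - 1 / 5) * K) := by
        field_simp
        ring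
      have e4 : 0 ≤ (1 / r) * ((6 / 25 - 1 / 10) * m - (10 - 1 / 5) * (K : ℝ)) := by
        apply mul_nonneg (by positivity)
        linarith
      linarith
    linarith

end LCSV
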