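import Pool.Agent.LCSV.DCmp
import Pool.Agent.LCSV.VBad

/-!
# One inequality for all column lengths m

From dcmp: P, W, delta0 > 0, C0. Let K = tau P, w = wp W P tau, EL (un k) m (lcs w) = GG tau m. delta = min(delta0/2, 1), tau so large that C0 <= (delta0/2) tau P and
K >= K0. Let kappa = 1/(25 sqrt k), lam = 2/kappa. If K <= 100 m and m <= 100 K: first bracket >= delta0 K - C0 >= delta K and the second bracket is >= 0 (vK_le).
Otherwise the first bracket is >= - vK K m >= - K and lam times the second is >= lam kappa K = 2 K (vbad), sum >= K >= delta K.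
-/

namespace LCSV

open Finset

theorem perblock : ∃ k0 : ℕ, ∀ k ≥ k0, ∃ δ lam : ℝ, 0 < δ ∧ 0 ≤ lam ∧ ∀ K0 : ℕ, ∃ K ≥ K0,
    ∃ w : List (Fin k), w.length = K ∧ ∀ m : ℕ,
      δ * K ≤ (EL (un k) m (fun Y => (lcs w Y : ℝ)) - vK k K m) +
        lam * (gam k / 2 * (K + m) - vK k K m) := by
  obtain ⟨k1, hk1⟩ := dcmp
  obtain ⟨k2, hk2⟩ := vbad
  refine ⟨max (max k1 k2) 1, fun k hk => ?_⟩
  have hkk1 : k1 ≤ k := (le_max_left _ _).trans ((le_max_left _ _).trans hk)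
  have hkk2 : k2 ≤ k := (le_max_right _ _).trans ((le_max_left _ _).trans hk)
  have hk0 : 0 < k := (le_max_right _ _).trans hk
  obtain ⟨P, W, δ0, C0, hP, hper, hδ0, hC0, hgood⟩ := hk1 k hkk1
  have hbad := hk2 k hkk2
  have hsq : 0 < √(k : ℝ) := Real.sqrt_pos.2 (by exact_mod_cast hk0)
  refine ⟨min (δ0 / 2) 1, 50 * √(k : ℝ), lt_min (by linarith) one_pos, by positivity, fun K0 => ?_⟩
  obtain ⟨N, hN⟩ := exists_nat_ge (2 * C0 / δ0)
  set τ : ℕ := max K0 N with hτ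
  have hτP : τ ≤ τ * P := Nat.le_mul_of_pos_right τ hP
  refine ⟨τ * P, ((le_max_left K0 N).trans hτP), wp W P τ, wp_length τ, fun m => ?_⟩
  have hcast : ((τ * P : ℕ) : ℝ) = (τ : ℝ) * P := by push_cast; ring
  have hK : C0 ≤ δ0 / 2 * ((τ : ℝ) * P) := by
    have h1 : (N : ℝ) ≤ (τ : ℝ) * P := by
      rw [← hcast]
      exact_mod_cast (le_max_right K0 N).trans hτP
    have h2 : 2 * C0 / δ0 ≤ (τ : ℝ) * P := hN.trans h1
    rw [div_le_iff₀ hδ0] at h2
    linarith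
  have hKnn : (0 : ℝ) ≤ (τ : ℝ) * P := by positivity
  have hGG : EL (un k) m (fun Y => (lcs (wp W P τ) Y : ℝ)) = GG k W P τ m := rfl
  rw [hGG]
  by_cases hcase : τ * P ≤ 100 * m ∧ m ≤ 100 * (τ * P)
  · have h1 := hgood τ m hcase.1 hcase.2
    have h2 := vK_le hk0 (τ * P) m
    have h3 : 0 ≤ 50 * √(k : ℝ) * (gam k / 2 * (((τ * P : ℕ) : ℝ) + m) - vK k (τ * P) m) :=
      mul_nonneg (by positivity) (by linarith)
    have h4 : min (δ0 / 2) 1 * ((τ * P : ℕ) : ℝ) ≤ δ0 / 2 * ((τ : ℝ) * P) := by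
      rw [hcast]
      exact mul_le_mul_of_nonneg_right (min_le_left _ _) hKnn
    linarith
  · have hc : 100 * m < τ * P ∨ 100 * (τ * P) < m := by
      by_contra hcon
      push Not at hcon
      exact hcase ⟨hcon.1, hcon.2⟩
    have h1 := hbad (τ * P) m hc
    have h2 := vK_le_left hk0 (τ * P) m
    have h3 := GG_nonneg (W := W) (P := P) hk0 τ m
    have h4 : min (δ0 / 2) 1 * ((τ * P : ℕ) : ℝ) ≤ 1 * ((τ : ℝ) * P) := by
      rw [hcast]
      exact mul_le_mul_of_nonneg_right (min_le_right _ _) hKnn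
    have h5 : 50 * √(k : ℝ) * (1 / (25 * √(k : ℝ)) * ((τ * P : ℕ) : ℝ)) = 2 * ((τ : ℝ) * P) := by
      rw [hcast]
      field_simp
      ring
    have h6 : 50 * √(k : ℝ) * (1 / (25 * √(k : ℝ)) * ((τ * P : ℕ) : ℝ)) ≤
        50 * √(k : ℝ) * (gam k / 2 * (((τ * P : ℕ) : ℝ) + m) - vK k (τ * P) m) :=
      mul_le_mul_of_nonneg_left (by linarith) (by positivity)
    rw [h5] at h6
    rw [hcast] at h2
    linarith

end LCSV
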