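import Pool.Agent.LCSV.PerBlock
import Pool.Agent.LCSV.BlkE
import Pool.Agent.LCSV.McD2
import Pool.Agent.LCSV.Cnt

/-!
# Replacing blocks by w increases the lcs on average over the blocks, with exponentially high probability

This is the large deviation version of ABound.lean (copy its proof and change the following).
Notation of ABound: c = 2 + lam, t = d / (16 c^2) (so t c^2 = d/16), but choose K (from perblock) so large that
1 + log (K+1) <= d t / 64 * K; eps = d / (8 (lam+1)); S from cnt N n K, so log card S <= d t n / 64.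
Psi ms X Y = Ws w ms Y - Bs K ms X Y - lam Gs K ms X Y, differences at most c.

(1) For ms in S: mcd2 for F = - Psi ms with parameter t: E exp(t (- Psi ms + E Psi ms)) <= exp(t^2 c^2 n) = exp(t d n / 16). Markov: the event
A_ms = {Psi ms <= E Psi ms - d n / 8} has probability <= exp(t d n / 16 - t d n / 8) = exp(- t d n / 16). Union over S:
P(union of the A_ms) <= exp(d t n / 64 - t d n / 16) = exp(- 3 t d n / 64).
(2) mcd2 for F = - lcs (c = 1) with parameter s = eps / 2: P(lcs <= E lcs - eps n) <= exp(s^2 n - s eps n) = exp(- eps^2 n / 4).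
(3) Outside these events, with J = an optimal ms for (X, Y) (blk_opt; J in S): by blk_repl (pointwise) and Gs_J = lcs
sum_b (lcs (repl K w b X) Y - lcs X Y) >= Ws - Bs = Psi_J + lam lcs >= E Psi_J - d n/8 + lam (vK n n - eps n)
>= (d K N - lam gam n - lam K) - d n / 8 + lam ((gam - eps) n - eps n) >= d n - d K - lam K - d n/8 - d n/4 >= (d/2) n for n large
(the bound E Psi ms >= d K N - lam gam n - lam K is hEPsi in ABound).
Hence P(sum_b ... < (d/2) n) <= exp(- 3 t d n/64) + exp(- eps^2 n/4) <= 2 exp(- 2 c0 n) <= exp(- c0 n) for n large, with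
c0 = min(3 t d / 64, eps^2 / 4) / 2. Take delta = d / 2.
-/

namespace LCSV

open Finset

/-- nested expectation, used for bookkeeping -/
private noncomputable def tailAE (k n : ℕ) (F : List (Fin k) → List (Fin k) → ℝ) : ℝ :=
  EL (un k) n (fun X => EL (un k) n (fun Y => F X Y))

private theorem tailAE_mono {k n : ℕ} (hk : 0 < k) {F G : List (Fin k) → List (Fin k) → ℝ}
    (h : ∀ X Y, X.length = n → Y.length = n → F X Y ≤ G X Y) : tailAE k n F ≤ tailAE k n G :=
  EL_mono (un_isP hk) fun X hX => EL_mono (un_isP hk) fun Y hY => h X Y hX hY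

private theorem tailAE_add {k n : ℕ} (F G : List (Fin k) → List (Fin k) → ℝ) :
    tailAE k n (fun X Y => F X Y + G X Y) = tailAE k n F + tailAE k n G := by
  unfold tailAE
  rw [← EL_add]
  exact EL_congr fun X _ => EL_add n (F X) (G X)

private theorem tailAE_sub {k n : ℕ} (F G : List (Fin k) → List (Fin k) → ℝ) :
    tailAE k n (fun X Y => F X Y - G X Y) = tailAE k n F - tailAE k n G := by
  unfold tailAE
  rw [← EL_sub]
  exact EL_congr fun X _ => EL_sub n (F X) (G X)

private theorem tailAE_mul {k n : ℕ} (c : ℝ) (F : List (Fin k) → List (Fin k) → ℝ) :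
    tailAE k n (fun X Y => c * F X Y) = c * tailAE k n F := by
  unfold tailAE
  rw [← EL_mul_left]
  exact EL_congr fun X _ => EL_mul_left n c (F X)

private theorem tailAE_sum {k n : ℕ} {ι : Type*} (s : Finset ι)
    (F : ι → List (Fin k) → List (Fin k) → ℝ) :
    tailAE k n (fun X Y => ∑ i ∈ s, F i X Y) = ∑ i ∈ s, tailAE k n (F i) := by
  unfold tailAE
  rw [← EL_sum]
  exact EL_congr fun X _ => EL_sum n s (fun i => F i X)

/-- sums over the blocks -/
private theorem tailA_msum (f g : ℕ → ℝ) (a b : ℝ) (h : ∀ m : ℕ, a + b * m ≤ f m - g m) :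
    ∀ ms : List ℕ, a * ms.length + b * ms.sum ≤ (ms.map f).sum - (ms.map g).sum := by
  intro ms
  induction ms with
  | nil => simp
  | cons m ms ih =>
    simp only [List.length_cons, List.map_cons, List.sum_cons, Nat.cast_add, Nat.cast_one]
    have := h m
    linarith

/-- choice of the block length -/
private theorem tailA_lim (e : ℝ) (he : 0 < e) : ∃ K1 : ℕ, ∀ K : ℕ, K1 ≤ K →
    1 + Real.log ((K : ℝ) + 1) ≤ e * K := by
  have h1 : Filter.Tendsto (fun x : ℝ => Real.log x / x) Filter.atTop (nhds 0) := by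
    have := Real.isLittleO_log_id_atTop.tendsto_div_nhds_zero
    simpa using this
  have h2 : 0 < e / 4 := by positivity
  have h3 := (h1.eventually (gt_mem_nhds h2))
  obtain ⟨x0, hx0⟩ := Filter.eventually_atTop.1 h3
  obtain ⟨K1, hK1⟩ := exists_nat_ge (max (max x0 1) (2 / e))
  refine ⟨K1, fun K hK => ?_⟩
  have hKr : (K1 : ℝ) ≤ K := by exact_mod_cast hK
  have hKx : x0 ≤ (K : ℝ) + 1 := by
    have := (le_max_left x0 1).trans ((le_max_left _ _).trans hK1)
    linarith
  have hK1' : (1 : ℝ) ≤ K := by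
    have := (le_max_right x0 1).trans ((le_max_left _ _).trans hK1)
    linarith
  have hK2 : 2 / e ≤ (K : ℝ) := ((le_max_right _ _).trans hK1).trans hKr
  have h4 := hx0 ((K : ℝ) + 1) hKx
  rw [div_lt_iff₀ (by linarith)] at h4
  have h5 : 2 ≤ e * K := by
    rw [div_le_iff₀ he] at hK2
    linarith
  have h6 : e / 4 * ((K : ℝ) + 1) ≤ e / 4 * (2 * K) :=
    mul_le_mul_of_nonneg_left (by linarith) h2.le
  linarith

/-- Markov inequality with exponential moments -/
private theorem tailA_markov {k : ℕ} (hk : 0 < k) (n : ℕ) (F : List (Fin k) → List (Fin k) → ℝ)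
    (c t x : ℝ) (hc : 0 ≤ c)
    (hF : ∀ (l1 l2 : List (Fin k)) (a a' : Fin k) (y : List (Fin k)),
      l1.length + 1 + l2.length = n →
      y.length = n → |F (l1 ++ a :: l2) y - F (l1 ++ a' :: l2) y| ≤ c)
    (hG : ∀ (x : List (Fin k)) (l1 l2 : List (Fin k)) (y y' : Fin k), x.length = n →
      l1.length + 1 + l2.length = n → |F x (l1 ++ y :: l2) - F x (l1 ++ y' :: l2)| ≤ c)
    (ht : 0 ≤ t) :
    tailAE k n (fun X Y => ind (F X Y ≤ tailAE k n F - x)) ≤
      Real.exp (t ^ 2 * c ^ 2 * n - t * x) := by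
  have hP := un_isP hk
  have h1 := mcd2 hP hP n n F c hc hF hG (-t)
  have h2 : Real.exp ((-t) ^ 2 * c ^ 2 * ((n : ℝ) + n) / 2) = Real.exp (t ^ 2 * c ^ 2 * n) := by
    congr 1
    ring
  rw [h2] at h1
  have h3 : tailAE k n (fun X Y => ind (F X Y ≤ tailAE k n F - x)) ≤
      tailAE k n (fun X Y => Real.exp (-(t * x)) *
        Real.exp (-t * (F X Y - tailAE k n F))) := by
    refine tailAE_mono hk fun X Y _ _ => ?_
    rw [← Real.exp_add]
    by_cases h : F X Y ≤ tailAE k n F - x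
    · rw [ind_true h]
      have h4 : t * x ≤ t * (tailAE k n F - F X Y) :=
        mul_le_mul_of_nonneg_left (by linarith) ht
      exact Real.one_le_exp (by linarith)
    · rw [ind_false h]
      exact (Real.exp_pos _).le
  rw [tailAE_mul] at h3
  refine h3.trans ?_
  have h5 : tailAE k n (fun X Y => Real.exp (-t * (F X Y - tailAE k n F))) ≤
      Real.exp (t ^ 2 * c ^ 2 * n) := h1
  calc Real.exp (-(t * x)) * tailAE k n (fun X Y => Real.exp (-t * (F X Y - tailAE k n F)))
      ≤ Real.exp (-(t * x)) * Real.exp (t ^ 2 * c ^ 2 * n) :=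
        mul_le_mul_of_nonneg_left h5 (Real.exp_pos _).le
    _ = Real.exp (t ^ 2 * c ^ 2 * n - t * x) := by
        rw [← Real.exp_add]
        congr 1
        ring

/-- the functional of one choice of the pieces -/
private noncomputable def tailAPsi {k : ℕ} (K : ℕ) (w : List (Fin k)) (lam : ℝ) (ms : List ℕ)
    (X Y : List (Fin k)) : ℝ :=
  (Ws w ms Y : ℝ) - Bs K ms X Y - lam * Gs K ms X Y

/-- lower bound for its expectation -/
private theorem tailA_EPsi {k : ℕ} (hk0 : 0 < k) (K : ℕ) (w : List (Fin k)) (d lam : ℝ)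
    (hlam : 0 ≤ lam) (n N : ℕ) (hNK : N * K ≤ n) (hNK2 : (n : ℝ) ≤ N * K + K)
    (hpbw : ∀ m : ℕ, d * K ≤ (EL (un k) m (fun Y => (lcs w Y : ℝ)) - vK k K m) +
        lam * (gam k / 2 * (K + m) - vK k K m))
    (ms : List ℕ) (hl : ms.length = N) (hs : ms.sum ≤ n) :
    d * K * N - lam * gam k * n - lam * K ≤ tailAE k n (tailAPsi K w lam ms) := by
  have e1 : tailAE k n (tailAPsi K w lam ms) = tailAE k n (fun _ Y => (Ws w ms Y : ℝ)) -
      tailAE k n (fun X Y => (Bs K ms X Y : ℝ)) -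
        lam * tailAE k n (fun X Y => (Gs K ms X Y : ℝ)) := by
    rw [← tailAE_mul, ← tailAE_sub, ← tailAE_sub]
    rfl
  have e2 : tailAE k n (fun _ Y => (Ws w ms Y : ℝ)) =
      (ms.map (fun m => EL (un k) m (fun Y => (lcs w Y : ℝ)))).sum := by
    unfold tailAE
    rw [EL_const (un_isP hk0)]
    exact E_Ws k hk0 w ms n hs
  have hNKr : (N : ℝ) * K ≤ n := by exact_mod_cast hNK
  have e3 : tailAE k n (fun X Y => (Bs K ms X Y : ℝ)) = (ms.map (fun m => vK k K m)).sum :=
    E_Bs k hk0 K ms n n (by rw [hl]; exact hNK) hs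
  have e4 : tailAE k n (fun X Y => (Gs K ms X Y : ℝ)) ≤
      (ms.map (fun m => vK k K m)).sum + ((n : ℝ) - ms.length * K) :=
    E_Gs_le k hk0 K ms n n (by rw [hl]; exact hNK) hs
  have e5 := tailA_msum (fun m => EL (un k) m (fun Y => (lcs w Y : ℝ)))
    (fun m => (1 + lam) * vK k K m) (d * K - lam * gam k / 2 * K) (-(lam * gam k / 2)) (by
      intro m
      have := hpbw m
      nlinarith) ms
  have e6 : (ms.map (fun m => (1 + lam) * vK k K m)).sum =
      (1 + lam) * (ms.map (fun m => vK k K m)).sum :=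
    List.sum_map_mul_left _ _ _
  rw [e6, hl] at e5
  rw [hl] at e4
  rw [e1, e2, e3]
  have hsr : ((ms.sum : ℕ) : ℝ) ≤ n := by exact_mod_cast hs
  have hg := gam_nonneg hk0
  have hlg : 0 ≤ lam * gam k := mul_nonneg hlam hg
  have e7 : lam * tailAE k n (fun X Y => (Gs K ms X Y : ℝ)) ≤
      lam * ((ms.map (fun m => vK k K m)).sum + K) :=
    mul_le_mul_of_nonneg_left (by linarith) hlam
  have e8 : lam * gam k * (N * K + (ms.sum : ℕ)) ≤ lam * gam k * (2 * n) :=
    mul_le_mul_of_nonneg_left (by linarith) hlg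
  nlinarith

/-- the functional has small differences, so it has exponential tails -/
private theorem tailA_one {k : ℕ} (hk : 0 < k) (K : ℕ) (w : List (Fin k)) (lam : ℝ)
    (hlam : 0 ≤ lam) (n : ℕ) (ms : List ℕ) (t x : ℝ) (ht : 0 ≤ t) :
    tailAE k n (fun X Y => ind (tailAPsi K w lam ms X Y ≤
      tailAE k n (tailAPsi K w lam ms) - x)) ≤ Real.exp (t ^ 2 * (2 + lam) ^ 2 * n - t * x) := by
  refine tailA_markov hk n (tailAPsi K w lam ms) (2 + lam) t x (by linarith) ?_ ?_ ht
  · intro l1 l2 x x' Y _ _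
    have h1 := Bs_diff_left K ms l1 l2 Y x x'
    have h2 := Gs_diff_left K ms l1 l2 Y x x'
    rw [abs_le] at h1 h2 ⊢
    have h3 : tailAPsi K w lam ms (l1 ++ x :: l2) Y - tailAPsi K w lam ms (l1 ++ x' :: l2) Y =
        -((Bs K ms (l1 ++ x :: l2) Y : ℝ) - Bs K ms (l1 ++ x' :: l2) Y) -
        lam * ((Gs K ms (l1 ++ x :: l2) Y : ℝ) - Gs K ms (l1 ++ x' :: l2) Y) := by
      simp only [tailAPsi]
      ring
    have h4 := mul_le_mul_of_nonneg_left h2.1 hlam
    have h5 := mul_le_mul_of_nonneg_left h2.2 hlam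
    rw [h3]
    constructor
    · linarith [h1.2]
    · linarith [h1.1]
  · intro X l1 l2 y y' _ _
    have h0 := Ws_diff w ms l1 l2 y y'
    have h1 := Bs_diff_right K ms X l1 l2 y y'
    have h2 := Gs_diff_right K ms X l1 l2 y y'
    rw [abs_le] at h0 h1 h2 ⊢
    have h3 : tailAPsi K w lam ms X (l1 ++ y :: l2) - tailAPsi K w lam ms X (l1 ++ y' :: l2) =
        ((Ws w ms (l1 ++ y :: l2) : ℝ) - Ws w ms (l1 ++ y' :: l2)) -
        ((Bs K ms X (l1 ++ y :: l2) : ℝ) - Bs K ms X (l1 ++ y' :: l2)) -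
        lam * ((Gs K ms X (l1 ++ y :: l2) : ℝ) - Gs K ms X (l1 ++ y' :: l2)) := by
      simp only [tailAPsi]
      ring
    have h4 := mul_le_mul_of_nonneg_left h2.1 hlam
    have h5 := mul_le_mul_of_nonneg_left h2.2 hlam
    rw [h3]
    constructor
    · linarith [h0.1, h1.2]
    · linarith [h0.2, h1.1]

/-- the same for the lcs -/
private theorem tailA_two {k : ℕ} (hk : 0 < k) (n : ℕ) (t x : ℝ) (ht : 0 ≤ t) :
    tailAE k n (fun X Y => ind ((lcs X Y : ℝ) ≤ vK k n n - x)) ≤
      Real.exp (t ^ 2 * n - t * x) := by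
  have h := tailA_markov hk n (fun X Y => (lcs X Y : ℝ)) 1 t x (by norm_num)
    (fun l1 l2 a a' y _ _ => lcs_change l1 l2 y a a')
    (fun x l1 l2 y y' _ _ => lcs_change_right x l1 l2 y y') ht
  have e : t ^ 2 * 1 ^ 2 * (n : ℝ) - t * x = t ^ 2 * n - t * x := by ring
  rw [e] at h
  exact h

/-- the number of choices of the pieces -/
private theorem tailA_card {K N n : ℕ} (hK : 1 ≤ K) (hNK : N * K ≤ n) (S : Finset (List ℕ))
    (hS : (S.card : ℝ) ≤ Real.exp ((n : ℝ) / K) * ((K : ℝ) + 1) ^ N) (e : ℝ)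
    (he : 1 + Real.log ((K : ℝ) + 1) ≤ e * K) : (S.card : ℝ) ≤ Real.exp (e * n) := by
  have hKr : (0 : ℝ) < K := by exact_mod_cast hK
  have hNKr : (N : ℝ) * K ≤ n := by exact_mod_cast hNK
  refine hS.trans ?_
  have h0 : ((K : ℝ) + 1) ^ N = Real.exp (N * Real.log ((K : ℝ) + 1)) := by
    rw [Real.exp_nat_mul, Real.exp_log (by linarith)]
  rw [h0, ← Real.exp_add]
  apply Real.exp_le_exp.2
  have h1 : (N : ℝ) ≤ n / K := by
    rw [le_div_iff₀ hKr]
    exact hNKr
  have h2 : 0 ≤ Real.log ((K : ℝ) + 1) := Real.log_nonneg (by linarith)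
  have h3 : (N : ℝ) * Real.log ((K : ℝ) + 1) ≤ n / K * Real.log ((K : ℝ) + 1) :=
    mul_le_mul_of_nonneg_right h1 h2
  have h4 : (n : ℝ) / K * (1 + Real.log ((K : ℝ) + 1)) ≤ n / K * (e * K) :=
    mul_le_mul_of_nonneg_left he (by positivity)
  have h5 : (n : ℝ) / K * (e * K) = e * n := by
    field_simp
  linarith

/-- the pointwise inequality -/
private theorem tailA_point {k : ℕ} (K : ℕ) (w : List (Fin k)) (d lam ε g v : ℝ)
    (hlam : 0 ≤ lam) (hd : 0 < d) (hlε : lam * ε ≤ d / 8) (n N : ℕ) (hNK : N * K ≤ n)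
    (hNK2 : (n : ℝ) ≤ N * K + K) (hbig : 8 * (d + lam) * K ≤ d * n) (hv : (g - ε) * n ≤ v)
    (S : Finset (List ℕ)) (hS : ∀ ms : List ℕ, ms ∈ S ↔ ms.length = N ∧ ms.sum ≤ n)
    (P : List ℕ → ℝ) (hP : ∀ ms ∈ S, d * K * N - lam * g * n - lam * K ≤ P ms)
    (X Y : List (Fin k)) (hX : X.length = n) (hY : Y.length = n) :
    ind (∑ b ∈ range N, ((lcs (repl K w b X) Y : ℝ) - lcs X Y) < d / 2 * n) ≤
      (∑ ms ∈ S, ind (tailAPsi K w lam ms X Y ≤ P ms - d * n / 8)) +
        ind ((lcs X Y : ℝ) ≤ v - ε * n) := by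
  by_cases h0 : ∑ b ∈ range N, ((lcs (repl K w b X) Y : ℝ) - lcs X Y) < d / 2 * n
  · by_cases h1 : (lcs X Y : ℝ) ≤ v - ε * n
    · rw [ind_true h0, ind_true h1]
      have h2 : 0 ≤ ∑ ms ∈ S, ind (tailAPsi K w lam ms X Y ≤ P ms - d * n / 8) :=
        Finset.sum_nonneg fun ms _ => ind_nonneg _
      linarith
    · obtain ⟨J, hJ1, hJ2, hJ3⟩ := blk_opt K N X Y
      have hJS : J ∈ S := by
        rw [hS]
        exact ⟨hJ1, hY ▸ hJ2⟩
      have h2 : tailAPsi K w lam J X Y ≤ P J - d * n / 8 := by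
        by_contra h3
        push Not at h3 h1
        have h4 := blk_repl K w J X Y (by rw [hJ1, hX]; exact hNK)
        rw [hJ1, hJ3] at h4
        have h5 : ((N : ℝ) * lcs X Y + Ws w J Y) ≤
            (∑ b ∈ range N, (lcs (repl K w b X) Y : ℝ)) + Bs K J X Y := by exact_mod_cast h4
        rw [Finset.sum_sub_distrib, Finset.sum_const, Finset.card_range, nsmul_eq_mul] at h0
        have h6 := hP J hJS
        have h7 : tailAPsi K w lam J X Y = (Ws w J Y : ℝ) - Bs K J X Y - lam * lcs X Y := by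
          unfold tailAPsi
          rw [hJ3]
        have h8 : lam * ((g - ε) * n - ε * n) ≤ lam * lcs X Y :=
          mul_le_mul_of_nonneg_left (by linarith) hlam
        have h9 : lam * ε * n ≤ d / 8 * n := mul_le_mul_of_nonneg_right hlε (by positivity)
        have h10 : d * n ≤ d * (N * K + K) := mul_le_mul_of_nonneg_left hNK2 hd.le
        rw [h7] at h3
        nlinarith
      rw [ind_true h0]
      have h3 : ind (tailAPsi K w lam J X Y ≤ P J - d * n / 8) ≤
          ∑ ms ∈ S, ind (tailAPsi K w lam ms X Y ≤ P ms - d * n / 8) :=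
        Finset.single_le_sum (f := fun ms => ind (tailAPsi K w lam ms X Y ≤ P ms - d * n / 8))
          (fun ms _ => ind_nonneg _) hJS
      rw [ind_true h2] at h3
      have h4 := ind_nonneg ((lcs X Y : ℝ) ≤ v - ε * n)
      linarith
  · rw [ind_false h0]
    exact add_nonneg (Finset.sum_nonneg fun ms _ => ind_nonneg _) (ind_nonneg _)

theorem tailA : ∃ k0 : ℕ, ∀ k ≥ k0, ∃ (δ c : ℝ) (K : ℕ) (w : List (Fin k)), 0 < δ ∧ 0 < c ∧
    1 ≤ K ∧ w.length = K ∧ ∃ n0 : ℕ, ∀ n ≥ n0,
      EL (un k) n (fun X => EL (un k) n (fun Y =>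
        ind (∑ b ∈ range (n / K), ((lcs (repl K w b X) Y : ℝ) - lcs X Y) < δ * n))) ≤
          Real.exp (-(c * n)) := by
  obtain ⟨k1, hk1⟩ := perblock
  refine ⟨max k1 1, fun k hk => ?_⟩
  have hk0 : 0 < k := by
    have := le_trans (le_max_right _ _) hk
    omega
  obtain ⟨d, lam, hd, hlam, hpb⟩ := hk1 k (le_trans (le_max_left _ _) hk)
  set c : ℝ := 2 + lam with hc
  have hc0 : 0 < c := by linarith
  set t : ℝ := d / (16 * c ^ 2) with ht
  have ht0 : 0 < t := by positivity
  have htc : t * c ^ 2 = d / 16 := by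
    rw [ht]
    field_simp
  obtain ⟨K1, hK1⟩ := tailA_lim (d * t / 64) (by positivity)
  obtain ⟨K, hKK, w, hw, hpbw⟩ := hpb (max K1 1)
  have hK1le : K1 ≤ K := (le_max_left _ _).trans hKK
  have hKpos : 1 ≤ K := (le_max_right _ _).trans hKK
  have hKr : (0 : ℝ) < K := by exact_mod_cast hKpos
  have hlog := hK1 K hK1le
  set ε : ℝ := d / (8 * (lam + 1)) with hε
  have hε0 : 0 < ε := by positivity
  have hlε : lam * ε ≤ d / 8 := by
    rw [hε, mul_div_assoc', div_le_div_iff₀ (by positivity) (by norm_num)]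
    nlinarith
  set c0 : ℝ := min (3 * t * d / 64) (ε ^ 2 / 4) / 2 with hc0'
  have hmin : 0 < min (3 * t * d / 64) (ε ^ 2 / 4) := lt_min (by positivity) (by positivity)
  have hc0p : 0 < c0 := by linarith
  obtain ⟨n1, hn1⟩ := vK_diag_ge hk0 ε hε0
  obtain ⟨n2, hn2⟩ := exists_nat_ge (8 * (d + lam) * K / d)
  obtain ⟨n3, hn3⟩ := exists_nat_ge (1 / c0)
  refine ⟨d / 2, c0, K, w, by positivity, hc0p, hKpos, hw, max (max n1 n2) n3, fun n hn => ?_⟩
  have hnn1 : n1 ≤ n := (le_max_left _ _).trans ((le_max_left _ _).trans hn)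
  have hnn2 : (n2 : ℝ) ≤ n := by
    exact_mod_cast (le_max_right n1 n2).trans ((le_max_left _ _).trans hn)
  have hnn3 : (n3 : ℝ) ≤ n := by exact_mod_cast (le_max_right _ _).trans hn
  have hvK := hn1 n hnn1
  have hnbig : 8 * (d + lam) * K ≤ d * n := by
    have := hn2.trans hnn2
    rw [div_le_iff₀ hd] at this
    linarith
  have hnc : 1 ≤ c0 * n := by
    have := hn3.trans hnn3
    rw [div_le_iff₀ hc0p] at this
    linarith
  have hNK : n / K * K ≤ n := Nat.div_mul_le_self n K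
  have hNK2 : (n : ℝ) ≤ ((n / K : ℕ) : ℝ) * K + K := by
    have h1 : n < n / K * K + K := Nat.lt_div_mul_add (a := n) hKpos
    exact_mod_cast h1.le
  obtain ⟨S, hS, hScard⟩ := cnt (n / K) n K hKpos
  have hcard := tailA_card hKpos hNK S hScard (d * t / 64) hlog
  have hEP : ∀ ms ∈ S, d * K * ((n / K : ℕ) : ℝ) - lam * gam k * n - lam * K ≤
      tailAE k n (tailAPsi K w lam ms) := by
    intro ms hms
    rw [hS] at hms
    exact tailA_EPsi hk0 K w d lam hlam n (n / K) hNK hNK2 hpbw ms hms.1 hms.2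
  have hmain : tailAE k n (fun X Y =>
      ind (∑ b ∈ range (n / K), ((lcs (repl K w b X) Y : ℝ) - lcs X Y) < d / 2 * n)) ≤
      tailAE k n (fun X Y => (∑ ms ∈ S, ind (tailAPsi K w lam ms X Y ≤
        tailAE k n (tailAPsi K w lam ms) - d * n / 8)) +
        ind ((lcs X Y : ℝ) ≤ vK k n n - ε * n)) :=
    tailAE_mono hk0 fun X Y hX hY => tailA_point K w d lam ε (gam k) (vK k n n) hlam hd hlε n
      (n / K) hNK hNK2 hnbig hvK S hS (fun ms => tailAE k n (tailAPsi K w lam ms)) hEP X Y hX hY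
  rw [tailAE_add, tailAE_sum] at hmain
  have hs1 : ∑ ms ∈ S, tailAE k n (fun X Y => ind (tailAPsi K w lam ms X Y ≤
      tailAE k n (tailAPsi K w lam ms) - d * n / 8)) ≤ Real.exp (-(2 * c0 * n)) := by
    have h1 : ∀ ms ∈ S, tailAE k n (fun X Y => ind (tailAPsi K w lam ms X Y ≤
        tailAE k n (tailAPsi K w lam ms) - d * n / 8)) ≤ Real.exp (-(t * d * n / 16)) := by
      intro ms _
      have h2 := tailA_one hk0 K w lam hlam n ms t (d * n / 8) ht0.le
      have h3 : t ^ 2 * (2 + lam) ^ 2 * (n : ℝ) - t * (d * n / 8) = -(t * d * n / 16) := by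
        have h4 : t ^ 2 * (2 + lam) ^ 2 = t * (t * c ^ 2) := by rw [hc]; ring
        rw [h4, htc]
        ring
      rw [h3] at h2
      exact h2
    have h2 := Finset.sum_le_sum h1
    rw [Finset.sum_const, nsmul_eq_mul] at h2
    have h3 : (S.card : ℝ) * Real.exp (-(t * d * n / 16)) ≤
        Real.exp (d * t / 64 * n) * Real.exp (-(t * d * n / 16)) :=
      mul_le_mul_of_nonneg_right hcard (Real.exp_pos _).le
    rw [← Real.exp_add] at h3
    refine h2.trans (h3.trans (Real.exp_le_exp.2 ?_))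
    have h4 : 2 * c0 ≤ 3 * t * d / 64 := by
      have := min_le_left (3 * t * d / 64) (ε ^ 2 / 4)
      linarith
    have h5 : 2 * c0 * n ≤ 3 * t * d / 64 * n := mul_le_mul_of_nonneg_right h4 (by positivity)
    linarith
  have hs2 : tailAE k n (fun X Y => ind ((lcs X Y : ℝ) ≤ vK k n n - ε * n)) ≤
      Real.exp (-(2 * c0 * n)) := by
    refine (tailA_two hk0 n (ε / 2) (ε * n) (by positivity)).trans (Real.exp_le_exp.2 ?_)
    have h4 : 2 * c0 ≤ ε ^ 2 / 4 := by
      have := min_le_right (3 * t * d / 64) (ε ^ 2 / 4)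
      linarith
    have h5 : 2 * c0 * n ≤ ε ^ 2 / 4 * n := mul_le_mul_of_nonneg_right h4 (by positivity)
    have h6 : (ε / 2) ^ 2 * (n : ℝ) - ε / 2 * (ε * n) = -(ε ^ 2 / 4 * n) := by ring
    linarith
  have hfin : Real.exp (-(2 * c0 * n)) + Real.exp (-(2 * c0 * n)) ≤ Real.exp (-(c0 * n)) := by
    have h1 : Real.exp (-(c0 * n)) = Real.exp (c0 * n) * Real.exp (-(2 * c0 * n)) := by
      rw [← Real.exp_add]
      congr 1
      ring
    have h2 : 2 ≤ Real.exp (c0 * n) := by
      have := Real.add_one_le_exp (c0 * n)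
      linarith
    rw [h1]
    have h3 : 2 * Real.exp (-(2 * c0 * n)) ≤ Real.exp (c0 * n) * Real.exp (-(2 * c0 * n)) :=
      mul_le_mul_of_nonneg_right h2 (Real.exp_pos _).le
    linarith
  exact hmain.trans ((add_le_add hs1 hs2).trans hfin)

end LCSV
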