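import Pool.Agent.LCSV.TailA
import Pool.Agent.LCSV.Etil

/-!
# The expected lcs increases linearly with the tilt

From tailA: w' : Fin K -> Fin k with List.ofFn w' = w. Let p = 1 / k^K, N = n / K, r = n % K (so N * K + r = n, Nat.div_add_mod).
Let D X Y = sum_b (lcs (repl K w b X) Y - lcs X Y); |D| <= K N <= n (replacing a block changes the lcs by at most K: use lcs_change
letter by letter or lcs (x1 ++ u ++ x2) y <= lcs (x1 ++ x2) y + u.length and monotonicity). Only D >= - n is needed.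
Let F = ind(D < delta n). By Et_unif and tailA: Et p F <= exp(- c n). By Et_chm and 1 + x <= exp x:
(Et th F)^2 <= exp(- c n) exp((th - p)^2 N / (p (1 - p))) <= exp(- c n / 2) if (th - p)^2 <= c p (1 - p) / 2 =: eps^2 (N <= n).
So Et th F <= exp(- c n / 4). As D >= delta n - (delta + 1) n F (true in both cases): Et th D >= delta n - (delta + 1) n exp(- c n/4)
>= (delta / 2) n for n >= n1 (exp(- c n / 4) -> 0). Take also eps <= p/2, eps <= (1-p)/2, so that [p - eps, p + eps] is contained in (0, 1).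
By Et_deriv the derivative of th -> Et th lcs on [p - eps, p + eps] is Et th D / (1 - th) >= (delta/2) n (0 < 1 - th <= 1).
Mean value inequality (e.g. monotonicity of th -> Et th lcs - (delta/2) n th on the interval) gives the claim with delta/2 for delta.
-/

namespace LCSV

open Finset

theorem TailB_del {α : Type*} (x1 u x2 y : List α) :
    lcs (x1 ++ (u ++ x2)) y ≤ lcs (x1 ++ x2) y + u.length := by
  induction u with
  | nil => simp
  | cons a u ih =>
    have h := lcs_insert_le x1 (u ++ x2) y a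
    rw [List.cons_append, List.length_cons]
    omega

theorem TailB_repl {α : Type*} (K : ℕ) (w : List α) (b : ℕ) (X Y : List α) :
    lcs X Y ≤ lcs (repl K w b X) Y + K := by
  unfold repl
  have h1 : X = X.take (b * K) ++ ((X.drop (b * K)).take K ++ X.drop ((b + 1) * K)) := by
    conv_lhs => rw [← List.take_append_drop (b * K) X]
    congr 1
    conv_lhs => rw [← List.take_append_drop K (X.drop (b * K))]
    rw [List.drop_drop]
    congr 2
    ring
  have h2 := TailB_del (X.take (b * K)) ((X.drop (b * K)).take K) (X.drop ((b + 1) * K)) Y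
  rw [← h1] at h2
  have h3 : lcs (X.take (b * K) ++ X.drop ((b + 1) * K)) Y ≤
      lcs (X.take (b * K) ++ (w ++ X.drop ((b + 1) * K))) Y :=
    lcs_mono (List.Sublist.append (List.Sublist.refl _) (List.sublist_append_right _ _))
      (List.Sublist.refl _)
  have h4 : ((X.drop (b * K)).take K).length ≤ K := List.length_take_le _ _
  omega

theorem TailB_D {α : Type*} (K : ℕ) (w : List α) (n : ℕ) (X Y : List α) :
    -(n : ℝ) ≤ ∑ b ∈ range (n / K), ((lcs (repl K w b X) Y : ℝ) - lcs X Y) := by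
  have h1 : ∀ b ∈ range (n / K), -(K : ℝ) ≤ (lcs (repl K w b X) Y : ℝ) - lcs X Y := by
    intro b _
    have := TailB_repl K w b X Y
    have h : (lcs X Y : ℝ) ≤ lcs (repl K w b X) Y + K := by exact_mod_cast this
    linarith
  have h2 := Finset.sum_le_sum h1
  rw [Finset.sum_const, Finset.card_range, nsmul_eq_mul] at h2
  refine le_trans ?_ h2
  have h3 : n / K * K ≤ n := Nat.div_mul_le_self n K
  have h4 : ((n / K : ℕ) : ℝ) * K ≤ n := by exact_mod_cast h3
  linarith

theorem TailB_exp {c δ : ℝ} (hc : 0 < c) (hδ : 0 < δ) :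
    ∃ n1 : ℕ, ∀ n : ℕ, n1 ≤ n → (δ + 1) * Real.exp (-(c * n / 4)) ≤ δ / 2 := by
  obtain ⟨n1, hn1⟩ := exists_nat_gt (4 * (2 * (δ + 1) / δ) / c)
  refine ⟨n1, fun n hn => ?_⟩
  have h1 : (n1 : ℝ) ≤ n := by exact_mod_cast hn
  have h2 : 4 * (2 * (δ + 1) / δ) / c < n := lt_of_lt_of_le hn1 h1
  rw [div_lt_iff₀ hc] at h2
  have h3 : 2 * (δ + 1) / δ ≤ c * n / 4 := by linarith
  have h4 := Real.add_one_le_exp (c * n / 4)
  have h5 : 2 * (δ + 1) / δ ≤ Real.exp (c * n / 4) := by linarith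
  rw [Real.exp_neg, ← div_eq_mul_inv, div_le_iff₀ (Real.exp_pos _)]
  have h6 : δ / 2 * (2 * (δ + 1) / δ) ≤ δ / 2 * Real.exp (c * n / 4) :=
    mul_le_mul_of_nonneg_left h5 (by positivity)
  have e : δ / 2 * (2 * (δ + 1) / δ) = δ + 1 := by
    field_simp
  linarith

theorem TailB_ind {p : Prop} : 0 ≤ ind p ∧ ind p ≤ 1 := by
  unfold ind
  split_ifs <;> norm_num

theorem tailB : ∃ k0 : ℕ, ∀ k ≥ k0, 2 ≤ k ∧ ∃ (δ ε : ℝ) (K : ℕ) (w : Fin K → Fin k), 0 < δ ∧ 0 < ε ∧
    1 ≤ K ∧ ε < 1 / (k : ℝ) ^ K ∧ 1 / (k : ℝ) ^ K + ε < 1 ∧ ∃ n0 : ℕ, ∀ n ≥ n0,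
      ∀ θ₁ θ₂ : ℝ, 1 / (k : ℝ) ^ K - ε ≤ θ₁ → θ₁ ≤ θ₂ → θ₂ ≤ 1 / (k : ℝ) ^ K + ε →
        Et w (n / K) (n % K) n θ₁ (fun X Y => (lcs X Y : ℝ)) + δ * n * (θ₂ - θ₁) ≤
          Et w (n / K) (n % K) n θ₂ (fun X Y => (lcs X Y : ℝ)) := by
  obtain ⟨k0, hk0⟩ := tailA
  refine ⟨max k0 2, fun k hk => ?_⟩
  have hk2 : 2 ≤ k := le_trans (le_max_right _ _) hk
  refine ⟨hk2, ?_⟩
  obtain ⟨δ, c, K, w, hδ, hc, hK, hw, n0, h⟩ := hk0 k (le_trans (le_max_left _ _) hk)
  subst hw
  set K := w.length with hKdef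
  have hw' : List.ofFn w.get = w := List.ofFn_get w
  set p : ℝ := 1 / (k : ℝ) ^ K with hp
  have hk2' : (2 : ℝ) ≤ k := by exact_mod_cast hk2
  have hkK : (2 : ℝ) ≤ (k : ℝ) ^ K := by
    calc (2 : ℝ) ≤ (k : ℝ) := hk2'
      _ = (k : ℝ) ^ 1 := (pow_one _).symm
      _ ≤ (k : ℝ) ^ K := pow_le_pow_right₀ (by linarith) hK
  have hp0 : 0 < p := by positivity
  have hp1 : p ≤ 1 / 2 := by
    rw [hp]
    exact one_div_le_one_div_of_le (by norm_num) hkK
  set ε : ℝ := min (p / 2) (min 1 (c * (p * (1 - p)) / 2)) with hε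
  have hq : 0 < p * (1 - p) := mul_pos hp0 (by linarith)
  have hε0 : 0 < ε := lt_min (by positivity) (lt_min one_pos (by positivity))
  have hε1 : ε ≤ p / 2 := min_le_left _ _
  have hε2 : ε ≤ 1 := le_trans (min_le_right _ _) (min_le_left _ _)
  have hε3 : ε ≤ c * (p * (1 - p)) / 2 := le_trans (min_le_right _ _) (min_le_right _ _)
  have hε4 : ε ^ 2 ≤ c * (p * (1 - p)) / 2 := by
    refine le_trans ?_ hε3
    nlinarith
  obtain ⟨n1, hn1⟩ := TailB_exp hc hδ
  refine ⟨δ / 2, ε, K, w.get, by positivity, hε0, hK, by linarith, by linarith, max n0 n1, ?_⟩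
  intro n hn θ₁ θ₂ h1 h12 h2
  have hn0' : n0 ≤ n := le_trans (le_max_left _ _) hn
  have hn1' : n1 ≤ n := le_trans (le_max_right _ _) hn
  have hnn : (0 : ℝ) ≤ n := Nat.cast_nonneg n
  have hKn : n / K * K + n % K = n := Nat.div_add_mod' n K
  -- the event
  set F : List (Fin k) → List (Fin k) → ℝ := fun X Y =>
    ind (∑ b ∈ range (n / K), ((lcs (repl K w b X) Y : ℝ) - lcs X Y) < δ * n) with hF
  have hEp : Et w.get (n / K) (n % K) n p F ≤ Real.exp (-(c * n)) := by
    have e := Et_unif hk2 hK w.get (n / K) (n % K) n F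
    rw [hKn] at e
    rw [e]
    exact h n hn0'
  have hEθ : ∀ θ : ℝ, p - ε ≤ θ → θ ≤ p + ε →
      Et w.get (n / K) (n % K) n θ F ≤ Real.exp (-(c * n / 4)) := by
    intro θ ha hb
    have hθ0 : 0 ≤ θ := by linarith
    have hθ1 : θ ≤ 1 := by linarith
    have h3 := Et_chm hk2 hK w.get (n / K) (n % K) n θ p hθ0 hθ1 hp F
      (fun X Y => TailB_ind.1) (fun X Y => TailB_ind.2)
    have h4 : (θ - p) ^ 2 ≤ ε ^ 2 := by
      apply sq_le_sq'
      · linarith
      · linarith
    have h5 : (θ - p) ^ 2 / (p * (1 - p)) ≤ c / 2 := by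
      rw [div_le_iff₀ hq]
      linarith
    have h6 : (1 + (θ - p) ^ 2 / (p * (1 - p))) ^ (n / K) ≤ Real.exp (c * n / 2) := by
      calc (1 + (θ - p) ^ 2 / (p * (1 - p))) ^ (n / K)
          ≤ (Real.exp (c / 2)) ^ (n / K) := by
            apply pow_le_pow_left₀ (by positivity)
            have := Real.add_one_le_exp (c / 2)
            linarith
        _ = Real.exp ((n / K : ℕ) * (c / 2)) := by rw [Real.exp_nat_mul]
        _ ≤ Real.exp (c * n / 2) := by
            apply Real.exp_le_exp.2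
            have h7 : ((n / K : ℕ) : ℝ) ≤ n := by exact_mod_cast Nat.div_le_self n K
            have h8 := mul_le_mul_of_nonneg_right h7 (by positivity : 0 ≤ c / 2)
            linarith
    have h7 : (Et w.get (n / K) (n % K) n θ F) ^ 2 ≤ (Real.exp (-(c * n / 4))) ^ 2 := by
      calc (Et w.get (n / K) (n % K) n θ F) ^ 2
          ≤ Et w.get (n / K) (n % K) n p F * (1 + (θ - p) ^ 2 / (p * (1 - p))) ^ (n / K) := h3
        _ ≤ Real.exp (-(c * n)) * Real.exp (c * n / 2) :=
            mul_le_mul hEp h6 (by positivity) (Real.exp_pos _).le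
        _ = (Real.exp (-(c * n / 4))) ^ 2 := by
            rw [← Real.exp_add, ← Real.exp_nat_mul]
            congr 1
            push_cast
            ring
    exact abs_le_of_sq_le_sq' h7 (Real.exp_pos _).le |>.2
  -- lower bound of the sum
  have hD : ∀ θ : ℝ, p - ε ≤ θ → θ ≤ p + ε → δ / 2 * n ≤
      Et w.get (n / K) (n % K) n θ (fun X Y =>
        ∑ b ∈ range (n / K), ((lcs (repl K w b X) Y : ℝ) - lcs X Y)) := by
    intro θ ha hb
    have hθ0 : 0 ≤ θ := by linarith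
    have hθ1 : θ ≤ 1 := by linarith
    have h3 : Et w.get (n / K) (n % K) n θ (fun X Y => δ * n + (-((δ + 1) * n)) * F X Y) ≤
        Et w.get (n / K) (n % K) n θ (fun X Y =>
          ∑ b ∈ range (n / K), ((lcs (repl K w b X) Y : ℝ) - lcs X Y)) := by
      apply Et_mono hk2 hK w.get _ _ _ θ hθ0 hθ1
      intro X Y _ _
      have hd := TailB_D K w n X Y
      simp only [hF]
      unfold ind
      split_ifs with hi
      · linarith
      · linarith
    rw [Et_add, Et_const hk2 hK w.get _ _ _ θ hθ0 hθ1, Et_mul] at h3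
    refine le_trans ?_ h3
    have h4 := hEθ θ ha hb
    have h5 := hn1 n hn1'
    have h6 : (δ + 1) * n * Et w.get (n / K) (n % K) n θ F ≤
        (δ + 1) * n * Real.exp (-(c * n / 4)) := mul_le_mul_of_nonneg_left h4 (by positivity)
    have h7 : (δ + 1) * Real.exp (-(c * n / 4)) * n ≤ δ / 2 * n :=
      mul_le_mul_of_nonneg_right h5 hnn
    change δ / 2 * n ≤ δ * n + (-((δ + 1) * n)) * Et w.get (n / K) (n % K) n θ F
    linarith
  -- derivative
  have hder : ∀ θ : ℝ, p - ε ≤ θ → θ ≤ p + ε →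
      HasDerivAt (fun θ => Et w.get (n / K) (n % K) n θ (fun X Y => (lcs X Y : ℝ)))
        (Et w.get (n / K) (n % K) n θ (fun X Y =>
          ∑ b ∈ range (n / K), ((lcs (repl K w b X) Y : ℝ) - lcs X Y)) / (1 - θ)) θ := by
    intro θ ha hb
    have h3 := Et_deriv hk2 hK w.get (n / K) (n % K) n θ (by linarith)
      (fun X Y => (lcs X Y : ℝ))
    rw [hw'] at h3
    exact h3
  have hmv := Convex.mul_sub_le_image_sub_of_le_deriv (D := Set.Icc (p - ε) (p + ε))
    (convex_Icc _ _) (f := fun θ => Et w.get (n / K) (n % K) n θ (fun X Y => (lcs X Y : ℝ)))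
    (fun θ hθ => (hder θ hθ.1 hθ.2).continuousAt.continuousWithinAt)
    (fun θ hθ => by
      have hθ' := interior_subset hθ
      exact (hder θ hθ'.1 hθ'.2).differentiableAt.differentiableWithinAt)
    (C := δ / 2 * n) (fun θ hθ => by
      have hθ' := interior_subset hθ
      rw [(hder θ hθ'.1 hθ'.2).deriv]
      have h3 := hD θ hθ'.1 hθ'.2
      have h4 : 0 < 1 - θ := by linarith [hθ'.2]
      have h5 : 1 - θ ≤ 1 := by linarith [hθ'.1]
      rw [le_div_iff₀ h4]
      have h6 : δ / 2 * n * (1 - θ) ≤ δ / 2 * n * 1 := mul_le_mul_of_nonneg_left h5 (by positivity)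
      linarith)
    θ₁ ⟨h1, by linarith⟩ θ₂ ⟨by linarith, h2⟩ h12
  change δ / 2 * n * (θ₂ - θ₁) ≤ Et w.get (n / K) (n % K) n θ₂ (fun X Y => (lcs X Y : ℝ)) -
    Et w.get (n / K) (n % K) n θ₁ (fun X Y => (lcs X Y : ℝ)) at hmv
  linarith

end LCSV
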