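import Pool.Agent.LCSV.Tel
import Pool.Agent.LCSV.ELb
import Pool.Agent.LCSV.Exa

/-!
# Telescoping in expectation

EMx_cons: by Mx_cons, Mx (rh X (y :: Y)) s n = Mx (rh X Y) s n + ind (some y in ims ...), and the average over y in Fin k of
ind (some y in ims X S) is card (ims X S) / k for S a subset of range n, X.length = n (all elements of ims X S are of the form some y).
EMx_sum: induction on m. m = 0: rh X [] = 0, Mx (rh X []) s n = ht s n = card s, Ex_card.
-/

namespace LCSV

open Finset

theorem telE_card {k : ℕ} (X : List (Fin k)) (n : ℕ) (hX : X.length = n) (S : Finset ℕ)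
    (hS : S ⊆ range n) :
    ∑ y : Fin k, (if some y ∈ ims X S then (1 : ℝ) else 0) = ((ims X S).card : ℝ) := by
  classical
  rw [Finset.sum_boole]
  congr 1
  refine Finset.card_bij (fun y _ => some y) ?_ ?_ ?_
  · intro y hy
    exact (Finset.mem_filter.1 hy).2
  · intro y _ y' _ h
    exact Option.some.inj h
  · intro o ho
    have ho' := ho
    unfold ims at ho'
    rw [mem_image] at ho'
    obtain ⟨i, hi, hXi⟩ := ho'
    have hin : i < X.length := by
      rw [hX]
      exact Finset.mem_range.1 (hS hi)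
    rw [List.getElem?_eq_getElem hin] at hXi
    refine ⟨X[i], ?_, hXi⟩
    rw [Finset.mem_filter]
    refine ⟨Finset.mem_univ _, ?_⟩
    rw [hXi]
    exact ho

theorem EMx_cons (k : ℕ) (hk : 0 < k) (a : ℝ) (X : List (Fin k)) (n : ℕ) (hX : X.length = n)
    (l : ℕ) :
    EL (un k) (l + 1) (fun Y => Ex a n (fun s => (Mx (rh X Y) s n : ℝ))) =
      EL (un k) l (fun Y => Ex a n (fun s => (Mx (rh X Y) s n : ℝ))) +
        1 / (k : ℝ) * EL (un k) l (fun Y => Ex a n (fun s =>
          ((ims X (hit (rh X Y) s n)).card : ℝ))) := by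
  show ∑ y, un k y * EL (un k) l (fun Y => Ex a n (fun s => (Mx (rh X (y :: Y)) s n : ℝ))) = _
  have hkR : (0 : ℝ) < k := by exact_mod_cast hk
  have h1 : ∀ y : Fin k, un k y * EL (un k) l (fun Y => Ex a n (fun s => (Mx (rh X (y :: Y)) s n : ℝ)))
      = 1 / (k : ℝ) * EL (un k) l (fun Y => Ex a n (fun s => (Mx (rh X Y) s n : ℝ))) +
        1 / (k : ℝ) * EL (un k) l (fun Y => Ex a n (fun s =>
          (if some y ∈ ims X (hit (rh X Y) s n) then (1 : ℝ) else 0))) := by
    intro y
    rw [← mul_add, ← EL_add]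
    show 1 / (k : ℝ) * _ = _
    congr 1
    refine EL_congr fun Y _ => ?_
    rw [← Ex_add]
    refine Ex_congr fun s _ => ?_
    rw [Mx_cons X Y y s n hX]
    push_cast
    rfl
  rw [Finset.sum_congr rfl fun y _ => h1 y, Finset.sum_add_distrib, ← Finset.sum_mul,
    ← Finset.mul_sum]
  have h2 : ∑ _i : Fin k, 1 / (k : ℝ) = 1 := by
    rw [Finset.sum_const, Finset.card_univ, Fintype.card_fin, nsmul_eq_mul]
    field_simp
  rw [h2, one_mul]
  congr 2
  rw [← EL_sum]
  refine EL_congr fun Y _ => ?_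
  rw [← Ex_sum]
  refine Ex_congr fun s _ => ?_
  refine telE_card X n hX _ ?_
  unfold hit
  exact Finset.filter_subset _ _

theorem telE_nil {k : ℕ} (X : List (Fin k)) (s : Finset ℕ) (n : ℕ) (hs : s ⊆ range n) :
    Mx (rh X ([] : List (Fin k))) s n = s.card := by
  have hr : ∀ g, rh X ([] : List (Fin k)) g = 0 := by
    intro g
    unfold rh
    exact lcs_nil_right _
  apply le_antisymm
  · refine Mx_le fun g hg => ?_
    unfold fv
    rw [hr g, add_zero, ← ht_card hs]
    exact ht_mono s hg
  · have h := fv_le_Mx (rho := rh X ([] : List (Fin k))) (s := s) (le_refl n)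
    unfold fv at h
    rw [hr n, add_zero, ht_card hs] at h
    exact h

theorem EMx_sum (k : ℕ) (hk : 0 < k) (a : ℝ) (X : List (Fin k)) (n : ℕ) (hX : X.length = n)
    (m : ℕ) :
    EL (un k) m (fun Y => Ex a n (fun s => (Mx (rh X Y) s n : ℝ))) =
      a * n + 1 / (k : ℝ) * ∑ l ∈ range m, EL (un k) l (fun Y => Ex a n (fun s =>
          ((ims X (hit (rh X Y) s n)).card : ℝ))) := by
  induction m with
  | zero =>
    rw [Finset.range_zero, Finset.sum_empty, mul_zero, add_zero]
    show Ex a n (fun s => (Mx (rh X ([] : List (Fin k))) s n : ℝ)) = a * n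
    rw [← Ex_card (a := a) (n := n)]
    refine Ex_congr fun s hs => ?_
    rw [telE_nil X s n hs]
  | succ m ih =>
    rw [EMx_cons k hk a X n hX m, ih, Finset.sum_range_succ]
    ring

end LCSV
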