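import Pool.Agent.LCSV.Ins2
import Pool.Agent.LCSV.Del2
import Pool.Agent.LCSV.TieNum
import Pool.Agent.LCSV.InsInv
import Pool.Agent.LCSV.Exa
import Pool.Agent.LCSV.Fv

/-!
# m ties at distances at least l

tie_num with j = m. For a l < D0 trivial. For a l >= D0:
P(chn m) <= P(chn m and for all r < m: bits s (qq r) l <= nu0) + sum over r < m of P(chn r and l <= qq r and nu0 + 1 <= bits s (qq r) l).
The second sum is <= m (s0+1) q^s0 by del2. For the first: for j <= m let G_j s = (for all r with j <= r < m: l <= qq r,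
fv(qq r) = fv(qq(r+1)), bits s (qq r) l <= nu0) and V_j s = (for all r < j: l <= qq r). Claim: P(G_j and V_j) <= (3/S) P(G_(j+1) and V_(j+1))
for j < m by ins2 with r = j, d = 0 and G s = (G_(j+1) s and V_j s): it is preserved under insertion in block j (InsInv: qq unchanged,
fv(qq r), bits of the blocks r > j unchanged). So P(first) = P(G_0 and V_0) <= (3/S)^m <= C^m (a l)^(-m/4).
-/

namespace LCSV

open Finset

/-- the event used in the induction -/
def TieM_ev (rho : ℕ → ℕ) (n l m nu0 : ℕ) (j : ℕ) (s : Finset ℕ) : Prop :=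
  (∀ r, j ≤ r → r < m → l ≤ qq rho s n l r ∧
      fv rho s (qq rho s n l r) = fv rho s (qq rho s n l (r + 1)) ∧
      bits s (qq rho s n l r) l ≤ nu0) ∧
    ∀ r, r < j → l ≤ qq rho s n l r

theorem TieM_step (a : ℝ) (h0 : 0 < a) (h1 : a < 1) (rho : ℕ → ℕ) (n l m nu0 S : ℕ) (hS : 1 ≤ S)
    (hnum : ∀ nu : ℕ, nu < nu0 + S →
      (1 - a) * ((nu : ℝ) + 1) ≤ (1 + 1 / (S : ℝ)) * (a * ((l : ℝ) - nu)))
    (j : ℕ) (hj : j < m) :
    Ex a n (fun s => ind (TieM_ev rho n l m nu0 j s)) ≤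
      3 / (S : ℝ) * Ex a n (fun s => ind (TieM_ev rho n l m nu0 (j + 1) s)) := by
  have hG : ∀ s, s ⊆ range n → ∀ i, i ∉ s → l ≤ qq rho s n l j → qq rho s n l j - l ≤ i →
      i < qq rho s n l j → TieM_ev rho n l m nu0 (j + 1) s →
      TieM_ev rho n l m nu0 (j + 1) (insert i s) := by
    intro s _ i hi hl hi1 hi2 hev
    refine ⟨?_, ?_⟩
    · intro r hr hrm
      have hjr : j < r := hr
      obtain ⟨ha, hb, hc⟩ := hev.1 r hr hrm
      have e1 := qq_insert (rho := rho) hl hi1 hi2 hi r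
      have e2 := qq_insert (rho := rho) hl hi1 hi2 hi (r + 1)
      have e3 := fv_qq_insert_gt (rho := rho) hl hi1 hi2 hi hjr
      have e4 := fv_qq_insert_gt (rho := rho) hl hi1 hi2 hi (Nat.lt_succ_of_lt hjr)
      have e5 := bits_qq_insert_ne (rho := rho) hl hi1 hi2 hi (Nat.ne_of_gt hjr)
      rw [e1, e2]
      refine ⟨ha, ?_, ?_⟩
      · rw [e3]
        exact hb.trans e4.symm
      · rw [e5]
        exact hc
    · intro r hr
      rw [qq_insert (rho := rho) hl hi1 hi2 hi r]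
      exact hev.2 r hr
  have key := ins2 a h0 h1 rho n l j 0 nu0 S hS hnum (TieM_ev rho n l m nu0 (j + 1)) hG
  have hS0 : (0 : ℝ) ≤ 3 / (S : ℝ) := by positivity
  calc Ex a n (fun s => ind (TieM_ev rho n l m nu0 j s))
      ≤ Ex a n (fun s => ind (TieM_ev rho n l m nu0 (j + 1) s ∧ l ≤ qq rho s n l j ∧
        fv rho s (qq rho s n l j) = fv rho s (qq rho s n l (j + 1)) + 0 ∧
        bits s (qq rho s n l j) l ≤ nu0)) := by
        apply Ex_mono h0.le h1.le
        intro s _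
        apply ind_mono
        intro hev
        obtain ⟨ha, hb, hc⟩ := hev.1 j le_rfl hj
        refine ⟨⟨?_, ?_⟩, ha, ?_, hc⟩
        · intro r hr hrm
          exact hev.1 r ((Nat.le_succ j).trans hr) hrm
        · intro r hr
          rcases Nat.lt_succ_iff_lt_or_eq.mp hr with h | h
          · exact hev.2 r h
          · rw [h]
            exact ha
        · rw [Nat.add_zero]
          exact hb
    _ ≤ 3 / (S : ℝ) * Ex a n (fun s => ind (TieM_ev rho n l m nu0 (j + 1) s ∧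
          l ≤ qq rho s n l j)) := key
    _ ≤ 3 / (S : ℝ) * Ex a n (fun s => ind (TieM_ev rho n l m nu0 (j + 1) s)) := by
        apply mul_le_mul_of_nonneg_left _ hS0
        apply Ex_mono h0.le h1.le
        intro s _
        apply ind_mono
        intro h
        exact h.1

theorem TieM_iter (a : ℝ) (h0 : 0 < a) (h1 : a < 1) (rho : ℕ → ℕ) (n l m nu0 S : ℕ) (hS : 1 ≤ S)
    (hnum : ∀ nu : ℕ, nu < nu0 + S →
      (1 - a) * ((nu : ℝ) + 1) ≤ (1 + 1 / (S : ℝ)) * (a * ((l : ℝ) - nu)))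
    (j : ℕ) (hj : j ≤ m) :
    Ex a n (fun s => ind (TieM_ev rho n l m nu0 0 s)) ≤
      (3 / (S : ℝ)) ^ j * Ex a n (fun s => ind (TieM_ev rho n l m nu0 j s)) := by
  induction j with
  | zero => simp
  | succ j ih =>
    have hS0 : (0 : ℝ) ≤ 3 / (S : ℝ) := by positivity
    have hstep := TieM_step a h0 h1 rho n l m nu0 S hS hnum j hj
    calc Ex a n (fun s => ind (TieM_ev rho n l m nu0 0 s))
        ≤ (3 / (S : ℝ)) ^ j * Ex a n (fun s => ind (TieM_ev rho n l m nu0 j s)) :=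
          ih (Nat.le_of_succ_le hj)
      _ ≤ (3 / (S : ℝ)) ^ j *
          (3 / (S : ℝ) * Ex a n (fun s => ind (TieM_ev rho n l m nu0 (j + 1) s))) :=
          mul_le_mul_of_nonneg_left hstep (pow_nonneg hS0 j)
      _ = (3 / (S : ℝ)) ^ (j + 1) * Ex a n (fun s => ind (TieM_ev rho n l m nu0 (j + 1) s)) := by
          rw [pow_succ, mul_assoc]

theorem TieM_le_one (a : ℝ) (h0 : 0 < a) (h1 : a < 1) (n : ℕ) (P : Finset ℕ → Prop) :
    Ex a n (fun s => ind (P s)) ≤ 1 := by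
  calc Ex a n (fun s => ind (P s)) ≤ Ex a n (fun _ => (1 : ℝ)) := by
        apply Ex_mono h0.le h1.le
        intro s _
        exact ind_le_one _
    _ = 1 := Ex_const 1

theorem TieM_split (a : ℝ) (h0 : 0 < a) (h1 : a < 1) (rho : ℕ → ℕ) (n l m nu0 nu1 s0 : ℕ)
    (h : nu1 + s0 ≤ nu0 + 1) :
    Ex a n (fun s => ind (chn rho s n l m)) ≤
      Ex a n (fun s => ind (TieM_ev rho n l m nu0 0 s)) +
      ∑ r ∈ range m, Ex a n (fun s => ind (chn rho s n l r ∧ l ≤ qq rho s n l r ∧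
        nu1 + s0 ≤ bits s (qq rho s n l r) l)) := by
  rw [← Ex_sum, ← Ex_add]
  apply Ex_mono h0.le h1.le
  intro s _
  by_cases hc : chn rho s n l m
  · by_cases hb : ∀ r < m, bits s (qq rho s n l r) l ≤ nu0
    · have hev : TieM_ev rho n l m nu0 0 s := by
        refine ⟨?_, ?_⟩
        · intro r _ hr
          exact ⟨(hc r hr).1, (hc r hr).2, hb r hr⟩
        · intro r hr
          exact absurd hr (Nat.not_lt_zero r)
      have hsum : 0 ≤ ∑ r ∈ range m, ind (chn rho s n l r ∧ l ≤ qq rho s n l r ∧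
          nu1 + s0 ≤ bits s (qq rho s n l r) l) :=
        Finset.sum_nonneg (fun r _ => ind_nonneg _)
      have e1 := ind_true hev
      have e2 := ind_le_one (chn rho s n l m)
      linarith
    · push Not at hb
      obtain ⟨r, hr, hrb⟩ := hb
      have hch : chn rho s n l r := fun t ht => hc t (ht.trans hr)
      have hP : chn rho s n l r ∧ l ≤ qq rho s n l r ∧
          nu1 + s0 ≤ bits s (qq rho s n l r) l := ⟨hch, (hc r hr).1, by omega⟩
      have hsum : ind (chn rho s n l r ∧ l ≤ qq rho s n l r ∧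
          nu1 + s0 ≤ bits s (qq rho s n l r) l) ≤
          ∑ r ∈ range m, ind (chn rho s n l r ∧ l ≤ qq rho s n l r ∧
          nu1 + s0 ≤ bits s (qq rho s n l r) l) :=
        Finset.single_le_sum
          (f := fun r => ind (chn rho s n l r ∧ l ≤ qq rho s n l r ∧
          nu1 + s0 ≤ bits s (qq rho s n l r) l)) (fun r _ => ind_nonneg _) (mem_range.mpr hr)
      have e1 := ind_true hP
      have e2 := ind_le_one (chn rho s n l m)
      have e3 := ind_nonneg (TieM_ev rho n l m nu0 0 s)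
      rw [e1] at hsum
      linarith
  · have hsum : 0 ≤ ∑ r ∈ range m, ind (chn rho s n l r ∧ l ≤ qq rho s n l r ∧
          nu1 + s0 ≤ bits s (qq rho s n l r) l) :=
        Finset.sum_nonneg (fun r _ => ind_nonneg _)
    have e1 := ind_false hc
    have e3 := ind_nonneg (TieM_ev rho n l m nu0 0 s)
    linarith

theorem tieM (m : ℕ) : ∃ C : ℝ, 0 < C ∧ ∀ (a : ℝ) (rho : ℕ → ℕ) (n l : ℕ), 0 < a → a ≤ 1 / 2 →
    1 ≤ a * l →
    Ex a n (fun s => ind (chn rho s n l m)) ≤ C * (a * l) ^ (-((m : ℝ) / 4)) := by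
  obtain ⟨C, D0, hC, hD0, H⟩ := tie_num m
  have hD0' : (0 : ℝ) < D0 := lt_of_lt_of_le one_pos hD0
  have hDp : (0 : ℝ) < D0 ^ ((m : ℝ) / 4) := Real.rpow_pos_of_pos hD0' _
  have hCm : (0 : ℝ) < C ^ m := pow_pos hC m
  have hmC : (0 : ℝ) ≤ (m : ℝ) * C := by positivity
  refine ⟨D0 ^ ((m : ℝ) / 4) + (C ^ m + (m : ℝ) * C), by positivity, ?_⟩
  intro a rho n l h0 h12 hal
  have h1 : a < 1 := by linarith
  have hal0 : (0 : ℝ) < a * l := lt_of_lt_of_le one_pos hal
  have hp : (0 : ℝ) < (a * l) ^ (-((m : ℝ) / 4)) := Real.rpow_pos_of_pos hal0 _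
  rcases lt_or_ge (a * (l : ℝ)) D0 with hlt | hge
  · have e1 := TieM_le_one a h0 h1 n (fun s => chn rho s n l m)
    have e2 : (a * (l : ℝ)) ^ ((m : ℝ) / 4) ≤ D0 ^ ((m : ℝ) / 4) :=
      Real.rpow_le_rpow hal0.le hlt.le (by positivity)
    have e3 : (a * (l : ℝ)) ^ ((m : ℝ) / 4) * (a * l) ^ (-((m : ℝ) / 4)) = 1 := by
      rw [← Real.rpow_add hal0, add_neg_cancel, Real.rpow_zero]
    have e4 : 1 ≤ D0 ^ ((m : ℝ) / 4) * (a * l) ^ (-((m : ℝ) / 4)) := by
      rw [← e3]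
      exact mul_le_mul_of_nonneg_right e2 hp.le
    have e5 : 0 ≤ (C ^ m + (m : ℝ) * C) * (a * l) ^ (-((m : ℝ) / 4)) := by positivity
    calc Ex a n (fun s => ind (chn rho s n l m)) ≤ 1 := e1
      _ ≤ D0 ^ ((m : ℝ) / 4) * (a * l) ^ (-((m : ℝ) / 4)) := e4
      _ ≤ D0 ^ ((m : ℝ) / 4) * (a * l) ^ (-((m : ℝ) / 4)) +
          (C ^ m + (m : ℝ) * C) * (a * l) ^ (-((m : ℝ) / 4)) := le_add_of_nonneg_right e5
      _ = (D0 ^ ((m : ℝ) / 4) + (C ^ m + (m : ℝ) * C)) * (a * l) ^ (-((m : ℝ) / 4)) := by ring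
  · obtain ⟨S, nu0, nu1, s0, q, hS, hq, hnum1, hnum2, h3, h4, h5⟩ := H a l h0 h12 hge
    have hsplit := TieM_split a h0 h1 rho n l m nu0 nu1 s0 h3
    have hit := TieM_iter a h0 h1 rho n l m nu0 S hS hnum1 m le_rfl
    have hone := TieM_le_one a h0 h1 n (TieM_ev rho n l m nu0 m)
    have hS0 : (0 : ℝ) ≤ 3 / (S : ℝ) := by positivity
    have hfirst : Ex a n (fun s => ind (TieM_ev rho n l m nu0 0 s)) ≤
        C ^ m * (a * l) ^ (-((m : ℝ) / 4)) := by
      calc Ex a n (fun s => ind (TieM_ev rho n l m nu0 0 s))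
          ≤ (3 / (S : ℝ)) ^ m * Ex a n (fun s => ind (TieM_ev rho n l m nu0 m s)) := hit
        _ ≤ (3 / (S : ℝ)) ^ m * 1 := mul_le_mul_of_nonneg_left hone (pow_nonneg hS0 m)
        _ = (3 / (S : ℝ)) ^ m := mul_one _
        _ ≤ (C * (a * l) ^ (-(1 / 4 : ℝ))) ^ m := pow_le_pow_left₀ hS0 h4 m
        _ = C ^ m * (a * l) ^ (-((m : ℝ) / 4)) := by
            rw [mul_pow, ← Real.rpow_natCast ((a * (l : ℝ)) ^ (-(1 / 4 : ℝ))) m,
              ← Real.rpow_mul hal0.le]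
            have : (-(1 / 4 : ℝ)) * (m : ℝ) = -((m : ℝ) / 4) := by ring
            rw [this]
    have hsecond : ∑ r ∈ range m, Ex a n (fun s => ind (chn rho s n l r ∧ l ≤ qq rho s n l r ∧
        nu1 + s0 ≤ bits s (qq rho s n l r) l)) ≤ (m : ℝ) * C * (a * l) ^ (-((m : ℝ) / 4)) := by
      calc ∑ r ∈ range m, Ex a n (fun s => ind (chn rho s n l r ∧ l ≤ qq rho s n l r ∧
            nu1 + s0 ≤ bits s (qq rho s n l r) l))
          ≤ ∑ _r ∈ range m, C * (a * l) ^ (-((m : ℝ) / 4)) := by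
            apply Finset.sum_le_sum
            intro r _
            exact (del2 a h0 h1 rho n l r nu1 s0 q hq hnum2).trans h5
        _ = (m : ℝ) * C * (a * l) ^ (-((m : ℝ) / 4)) := by
            rw [Finset.sum_const, card_range, nsmul_eq_mul, mul_assoc]
    have hnn : 0 ≤ D0 ^ ((m : ℝ) / 4) * (a * l) ^ (-((m : ℝ) / 4)) := by positivity
    calc Ex a n (fun s => ind (chn rho s n l m))
        ≤ Ex a n (fun s => ind (TieM_ev rho n l m nu0 0 s)) +
          ∑ r ∈ range m, Ex a n (fun s => ind (chn rho s n l r ∧ l ≤ qq rho s n l r ∧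
            nu1 + s0 ≤ bits s (qq rho s n l r) l)) := hsplit
      _ ≤ C ^ m * (a * l) ^ (-((m : ℝ) / 4)) + (m : ℝ) * C * (a * l) ^ (-((m : ℝ) / 4)) :=
          add_le_add hfirst hsecond
      _ ≤ D0 ^ ((m : ℝ) / 4) * (a * l) ^ (-((m : ℝ) / 4)) +
          (C ^ m * (a * l) ^ (-((m : ℝ) / 4)) + (m : ℝ) * C * (a * l) ^ (-((m : ℝ) / 4))) :=
          le_add_of_nonneg_left hnn
      _ = (D0 ^ ((m : ℝ) / 4) + (C ^ m + (m : ℝ) * C)) * (a * l) ^ (-((m : ℝ) / 4)) := by ring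

end LCSV
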