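import Pool.Agent.LCSV.LTL

/-!
# The rows to the left of the last maximal gap have bit 0

mem_bs_block: for w <= q <= b.length, the bits of the block (b.drop (q-w)).take w are b[i] with q - w <= i < q.
topP: 1 <= ind (tp) + ind (lm < w) + ind (w <= lm and true in the block). By ltl with A X b = (true in b) the last expectation is
at most E2 w ((count + 1) ind (true in b)) <= E2 w (2 count) = 2 a w (count >= 1 on the event). E count = a w by induction.
-/

namespace LCSV

open Finset

/-- the w rows to the left of the last maximal gap carry the bit 0 -/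
def tp (rho : ℕ → ℕ) (s : Finset ℕ) (n w : ℕ) : Prop :=
  w ≤ lm rho s n ∧ ∀ i, lm rho s n - w ≤ i → i < lm rho s n → i ∉ s

private theorem topP_const (a : ℝ) (n : ℕ) (c : ℝ) : EL (be a) n (fun _ => c) = c := by
  induction n with
  | zero => rfl
  | succ n ih =>
    show ∑ x, be a x * EL (be a) n (fun _ => c) = c
    rw [ih, ← Finset.sum_mul, be_sum, one_mul]

theorem E_count (a : ℝ) (n : ℕ) : EL (be a) n (fun b => (b.count true : ℝ)) = a * n := by
  induction n with
  | zero =>
    show ((([] : List Bool).count true : ℕ) : ℝ) = a * ((0 : ℕ) : ℝ)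
    simp
  | succ n ih =>
    show ∑ x, be a x * EL (be a) n (fun l => (((x :: l).count true : ℕ) : ℝ)) = a * ((n + 1 : ℕ) : ℝ)
    rw [Fintype.sum_bool]
    have h1 : EL (be a) n (fun l => (((true :: l).count true : ℕ) : ℝ)) = a * n + 1 := by
      rw [← ih]
      have h2 := EL_add (mu := be a) n (fun l => ((l.count true : ℕ) : ℝ)) (fun _ => 1)
      rw [topP_const] at h2
      rw [← h2]
      refine EL_congr fun l _ => ?_
      rw [List.count_cons_self]
      push_cast
      ring
    have h3 : EL (be a) n (fun l => (((false :: l).count true : ℕ) : ℝ)) = a * n := by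
      rw [← ih]
      refine EL_congr fun l _ => ?_
      rw [List.count_cons_of_ne (by decide)]
    rw [h1, h3]
    unfold be
    simp only [if_true, Bool.false_eq_true, if_false]
    push_cast
    ring

private theorem topP_mem (b : List Bool) (q w i : ℕ) (hi : i ∈ bs b) (h1 : q - w ≤ i)
    (h2 : i < q) (hwq : w ≤ q) : true ∈ (b.drop (q - w)).take w := by
  unfold bs at hi
  rw [Finset.mem_filter] at hi
  rw [List.mem_iff_getElem?]
  refine ⟨i - (q - w), ?_⟩
  rw [List.getElem?_take_of_lt (by omega), List.getElem?_drop]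
  have h3 : q - w + (i - (q - w)) = i := by omega
  rw [h3]
  exact hi.2

theorem topP (k : ℕ) (hk : 0 < k) (a : ℝ) (h0 : 0 ≤ a) (h1 : a ≤ 1) (Y : List (Fin k))
    (w n : ℕ) (hwn : w ≤ n) :
    1 - 2 * a * w - E2 k a n (fun X b => ind (lm (rh X Y) (bs b) n < w)) ≤
      E2 k a n (fun X b => ind (tp (rh X Y) (bs b) n w)) := by
  have hl := ltl k hk a h0 h1 Y w n hwn (fun _ b => true ∈ b)
  have hpt : E2 k a n (fun _ _ => (1 : ℝ)) ≤ E2 k a n (fun X b =>
      ind (tp (rh X Y) (bs b) n w) + (ind (lm (rh X Y) (bs b) n < w) +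
        ind (w ≤ lm (rh X Y) (bs b) n ∧
          true ∈ (b.drop (lm (rh X Y) (bs b) n - w)).take w))) := by
    refine E2_mono hk h0 h1 fun X b _ _ => ?_
    have n1 := ind_nonneg (tp (rh X Y) (bs b) n w)
    have n2 := ind_nonneg (lm (rh X Y) (bs b) n < w)
    have n3 := ind_nonneg (w ≤ lm (rh X Y) (bs b) n ∧
      true ∈ (b.drop (lm (rh X Y) (bs b) n - w)).take w)
    by_cases h2 : lm (rh X Y) (bs b) n < w
    · rw [ind_true h2]
      linarith
    · by_cases h3 : w ≤ lm (rh X Y) (bs b) n ∧
        true ∈ (b.drop (lm (rh X Y) (bs b) n - w)).take w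
      · rw [ind_true h3]
        linarith
      · have h4 : tp (rh X Y) (bs b) n w := by
          refine ⟨by omega, fun i hi1 hi2 hi3 => h3 ⟨by omega, ?_⟩⟩
          exact topP_mem b _ w i hi3 hi1 hi2 (by omega)
        rw [ind_true h4]
        linarith
  rw [E2_const hk h0 h1, E2_add, E2_add] at hpt
  have h5 : E2 k a w (fun _ b => ((b.count true : ℝ) + 1) * ind (true ∈ b)) ≤ 2 * a * w := by
    have h6 : E2 k a w (fun _ b => ((b.count true : ℝ) + 1) * ind (true ∈ b)) ≤
        E2 k a w (fun _ b => 2 * (b.count true : ℝ)) := by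
      refine E2_mono hk h0 h1 fun X b _ _ => ?_
      by_cases h7 : true ∈ b
      · rw [ind_true h7, mul_one]
        have h8 : 1 ≤ b.count true := List.one_le_count_iff.2 h7
        have h9 : (1 : ℝ) ≤ (b.count true : ℝ) := by exact_mod_cast h8
        linarith
      · rw [ind_false h7, mul_zero]
        positivity
    refine h6.trans (le_of_eq ?_)
    rw [E2_mul_left]
    have h7 : E2 k a w (fun _ b => (b.count true : ℝ)) = a * w := by
      unfold E2
      have h8 : EL (un k) w (fun _ => EL (be a) w (fun b => (b.count true : ℝ))) =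
          EL (un k) w (fun _ => a * w) := EL_congr fun X _ => E_count a w
      rw [h8, EL_const (un_isP hk)]
    rw [h7]
    ring
  linarith

end LCSV
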